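import Pool.Agent.Lib.MP_391708_nt.X.SpecHM
import Pool.Agent.Lib.MP_391708_nt.MR.Basic

/-!
# Theorem X, part HM, module ANC (helper21): nontrivial Hecke characters over discs
-/

set_option autoImplicit false

namespace Pool.Agent.Lib.MP391708.X

open Pool.Agent.Lib.MP391708.MR
open Finset Filter Topology
open scoped ComplexConjugate

namespace ANCM

theorem toChi {m : Gi} {χ : Gi → ℂ} (h : ChiG m χ) : Chi χ :=
  ⟨h.one, h.mul, m, h.ne, h.period, h.supp⟩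

/-- `χ` depends on the class modulo the norm of the modulus -/
theorem period_nm {m : Gi} {χ : Gi → ℂ} (h : ChiG m χ) (z w : Gi)
    (h1 : ((nm m : ℕ) : ℤ) ∣ z.re - w.re) (h2 : ((nm m : ℕ) : ℤ) ∣ z.im - w.im) : χ z = χ w := by
  obtain ⟨a, ha⟩ := h1
  obtain ⟨b, hb⟩ := h2
  rw [nm_cast] at ha hb
  have hz : z = w + m * (star m * ⟨a, b⟩) := by
    apply Zsqrtd.ext
    · rw [Zsqrtd.re_add, Zsqrtd.re_mul, Zsqrtd.re_mul, Zsqrtd.im_mul, Zsqrtd.re_star,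
        Zsqrtd.im_star]
      linear_combination ha
    · rw [Zsqrtd.im_add, Zsqrtd.im_mul, Zsqrtd.re_mul, Zsqrtd.im_mul, Zsqrtd.re_star,
        Zsqrtd.im_star]
      linear_combination hb
  rw [hz, h.period]

/-- the class of `z` -/
theorem cls {M : ℕ} (hM : 0 < M) (a : ℤ) (p : ℕ) (hp : p < M) :
    (a % (M : ℤ)).toNat = p ↔ (M : ℤ) ∣ a - p := by
  have hM' : (0 : ℤ) < M := by exact_mod_cast hM
  have h1 : 0 ≤ a % (M : ℤ) := Int.emod_nonneg _ hM'.ne'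
  have h2 : a % (M : ℤ) < M := Int.emod_lt_of_pos _ hM'
  constructor
  · intro h
    have h3 : a % (M : ℤ) = p := by omega
    rw [← h3]
    exact Int.dvd_self_sub_emod
  · intro h
    have h3 : a % (M : ℤ) = (p : ℤ) % (M : ℤ) :=
      (Int.emod_emod_of_dvd a (dvd_refl _)).symm.trans (by
        rw [Int.emod_emod_of_dvd a (dvd_refl _)]
        exact Int.emod_eq_emod_iff_emod_sub_eq_zero.mpr (Int.emod_eq_zero_of_dvd h))
    rw [h3, Int.emod_eq_of_lt (by positivity) (by exact_mod_cast hp)]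
    exact Int.toNat_natCast p

/-- decomposition into the classes modulo the norm of the modulus -/
theorem split {m : Gi} {χ : Gi → ℂ} (h : ChiG m χ) (y : ℝ) (f : Gi → ℂ) :
    ∑ z ∈ disc y, χ z * f z = ∑ p ∈ (range (nm m)) ×ˢ (range (nm m)),
      χ (⟨(p.1 : ℤ), (p.2 : ℤ)⟩ : Gi) * ∑ z ∈ (disc y).filter (fun z =>
        ((nm m : ℕ) : ℤ) ∣ z.re - (⟨(p.1 : ℤ), (p.2 : ℤ)⟩ : Gi).re ∧
        ((nm m : ℕ) : ℤ) ∣ z.im - (⟨(p.1 : ℤ), (p.2 : ℤ)⟩ : Gi).im), f z := by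
  have hM : 0 < nm m := nm_pos h.ne
  have hM' : (0 : ℤ) < (nm m : ℕ) := by exact_mod_cast hM
  have hmap : ∀ z ∈ disc y, ((z.re % ((nm m : ℕ) : ℤ)).toNat, (z.im % ((nm m : ℕ) : ℤ)).toNat) ∈
      (range (nm m)) ×ˢ (range (nm m)) := by
    intro z _
    rw [Finset.mem_product, Finset.mem_range, Finset.mem_range]
    have h1 := Int.emod_nonneg z.re hM'.ne'
    have h2 := Int.emod_lt_of_pos z.re hM'
    have h3 := Int.emod_nonneg z.im hM'.ne'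
    have h4 := Int.emod_lt_of_pos z.im hM'
    constructor
    · change (z.re % ((nm m : ℕ) : ℤ)).toNat < nm m
      omega
    · change (z.im % ((nm m : ℕ) : ℤ)).toNat < nm m
      omega
  rw [← Finset.sum_fiberwise_of_maps_to hmap]
  refine Finset.sum_congr rfl fun p hp => ?_
  rw [Finset.mem_product, Finset.mem_range, Finset.mem_range] at hp
  have hfil : (disc y).filter (fun z => ((z.re % ((nm m : ℕ) : ℤ)).toNat,
      (z.im % ((nm m : ℕ) : ℤ)).toNat) = p) = (disc y).filter (fun z =>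
        ((nm m : ℕ) : ℤ) ∣ z.re - (⟨(p.1 : ℤ), (p.2 : ℤ)⟩ : Gi).re ∧
        ((nm m : ℕ) : ℤ) ∣ z.im - (⟨(p.1 : ℤ), (p.2 : ℤ)⟩ : Gi).im) := by
    refine Finset.filter_congr fun z _ => ?_
    rw [Prod.ext_iff, cls hM _ _ hp.1, cls hM _ _ hp.2]
  rw [hfil, Finset.mul_sum]
  refine Finset.sum_congr rfl fun z hz => ?_
  rw [Finset.mem_filter] at hz
  rw [period_nm h z _ hz.2.1 hz.2.2]

/-- a bound from the bound on every class -/
theorem bnd {m : Gi} {χ : Gi → ℂ} (h : ChiG m χ) (y : ℝ) (f : Gi → ℂ) (b : ℝ)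
    (hb : ∀ w : Gi, ‖∑ z ∈ (disc y).filter (fun z => ((nm m : ℕ) : ℤ) ∣ z.re - w.re ∧
      ((nm m : ℕ) : ℤ) ∣ z.im - w.im), f z‖ ≤ b) :
    ‖∑ z ∈ disc y, χ z * f z‖ ≤ (nm m : ℝ) ^ 2 * b := by
  have hb0 : 0 ≤ b := (norm_nonneg _).trans (hb 0)
  rw [split h y f]
  refine (norm_sum_le _ _).trans ?_
  have h1 : ∀ p ∈ (range (nm m)) ×ˢ (range (nm m)), ‖χ (⟨(p.1 : ℤ), (p.2 : ℤ)⟩ : Gi) *
      ∑ z ∈ (disc y).filter (fun z =>
        ((nm m : ℕ) : ℤ) ∣ z.re - (⟨(p.1 : ℤ), (p.2 : ℤ)⟩ : Gi).re ∧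
        ((nm m : ℕ) : ℤ) ∣ z.im - (⟨(p.1 : ℤ), (p.2 : ℤ)⟩ : Gi).im), f z‖ ≤ b := by
    intro p _
    rw [norm_mul]
    have h2 : ‖χ (⟨(p.1 : ℤ), (p.2 : ℤ)⟩ : Gi)‖ ≤ 1 := (toChi h).norm_le_one _
    calc _ ≤ 1 * b := mul_le_mul h2 (hb _) (norm_nonneg _) zero_le_one
      _ = b := one_mul b
  refine (Finset.sum_le_sum h1).trans ?_
  rw [Finset.sum_const, Finset.card_product, Finset.card_range, nsmul_eq_mul]
  push_cast
  rw [pow_two]

/-- the case `k = 0` -/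
theorem bnd0 (hSCZ : SpecSCZ) {m : Gi} {χ : Gi → ℂ} (h : ChiG m χ)
    (hnt : ∃ z, χ z ≠ 0 ∧ χ z ≠ 1) (y : ℝ) (a b : ℝ)
    (hb : ∀ w : Gi, |(((disc y).filter (fun z => ((nm m : ℕ) : ℤ) ∣ z.re - w.re ∧
      ((nm m : ℕ) : ℤ) ∣ z.im - w.im)).card : ℝ) - a| ≤ b) :
    ‖∑ z ∈ disc y, hk χ 0 z‖ ≤ (nm m : ℝ) ^ 2 * b := by
  have hb0 : 0 ≤ b := (abs_nonneg _).trans (hb 0)
  have h0 : ∑ z ∈ disc y, hk χ 0 z = ∑ z ∈ disc y, χ z * (1 : ℂ) := by
    refine Finset.sum_congr rfl fun z _ => ?_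
    unfold hk xi
    rw [zpow_zero]
  rw [h0, split h y (fun _ => 1)]
  have h1 : ∀ p ∈ (range (nm m)) ×ˢ (range (nm m)), χ (⟨(p.1 : ℤ), (p.2 : ℤ)⟩ : Gi) *
      ∑ z ∈ (disc y).filter (fun z =>
        ((nm m : ℕ) : ℤ) ∣ z.re - (⟨(p.1 : ℤ), (p.2 : ℤ)⟩ : Gi).re ∧
        ((nm m : ℕ) : ℤ) ∣ z.im - (⟨(p.1 : ℤ), (p.2 : ℤ)⟩ : Gi).im), (1 : ℂ) =
      χ (⟨(p.1 : ℤ), (p.2 : ℤ)⟩ : Gi) * (a : ℂ) + χ (⟨(p.1 : ℤ), (p.2 : ℤ)⟩ : Gi) *
        (((((disc y).filter (fun z =>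
        ((nm m : ℕ) : ℤ) ∣ z.re - (⟨(p.1 : ℤ), (p.2 : ℤ)⟩ : Gi).re ∧
        ((nm m : ℕ) : ℤ) ∣ z.im - (⟨(p.1 : ℤ), (p.2 : ℤ)⟩ : Gi).im)).card : ℝ) - a : ℝ) : ℂ) := by
    intro p _
    rw [Finset.sum_const, nsmul_eq_mul, mul_one]
    push_cast
    ring
  rw [Finset.sum_congr rfl h1, Finset.sum_add_distrib, ← Finset.sum_mul, hSCZ m χ h hnt, zero_mul,
    zero_add]
  refine (norm_sum_le _ _).trans ?_
  have h2 : ∀ p ∈ (range (nm m)) ×ˢ (range (nm m)), ‖χ (⟨(p.1 : ℤ), (p.2 : ℤ)⟩ : Gi) *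
        (((((disc y).filter (fun z =>
        ((nm m : ℕ) : ℤ) ∣ z.re - (⟨(p.1 : ℤ), (p.2 : ℤ)⟩ : Gi).re ∧
        ((nm m : ℕ) : ℤ) ∣ z.im - (⟨(p.1 : ℤ), (p.2 : ℤ)⟩ : Gi).im)).card : ℝ) - a : ℝ) : ℂ)‖ ≤
        b := by
    intro p _
    rw [norm_mul, Complex.norm_real]
    have h2 : ‖χ (⟨(p.1 : ℤ), (p.2 : ℤ)⟩ : Gi)‖ ≤ 1 := (toChi h).norm_le_one _
    calc _ ≤ 1 * b := mul_le_mul h2 (hb _) (abs_nonneg _) zero_le_one
      _ = b := one_mul b
  refine (Finset.sum_le_sum h2).trans ?_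
  rw [Finset.sum_const, Finset.card_product, Finset.card_range, nsmul_eq_mul]
  push_cast
  rw [pow_two]

/-- the trivial bound -/
theorem triv {m : Gi} {χ : Gi → ℂ} (h : ChiG m χ) (k : ℤ) {y : ℝ} (hy : 0 ≤ y) :
    ‖∑ z ∈ disc y, hk χ k z‖ ≤ 9 * y := by
  refine (norm_sum_le _ _).trans ?_
  have h1 : ∀ z ∈ disc y, ‖hk χ k z‖ ≤ 1 := by
    intro z hz
    rw [mem_disc] at hz
    unfold hk
    rw [norm_mul, norm_xi k hz.1, mul_one]
    exact (toChi h).norm_le_one _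
  refine (Finset.sum_le_sum h1).trans ?_
  rw [Finset.sum_const, nsmul_eq_mul, mul_one]
  exact card_disc_le hy

end ANCM

theorem specANC (hTYU : SpecTYU) (hCTU : SpecCTU) (hSCZ : SpecSCZ) : SpecANC := by
  intro A B hA hB
  obtain ⟨c', hc', hBc', hev⟩ := hTYU (2 * A) (B + 2) (by linarith) (by linarith)
  obtain ⟨C, hC, hct⟩ := hCTU
  obtain ⟨X₀, hX₀⟩ := Filter.eventually_atTop.mp hev
  have hBc0 : 0 < B * c' := by positivity
  have hBc2 : B * c' + 2 * c' < 1 := by nlinarith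
  refine ⟨c' / 2, by positivity, by linarith, ?_⟩
  have e1 : ∀ᶠ x : ℝ in atTop, max X₀ 1 ≤ x ^ (1 / 2 : ℝ) :=
    (tendsto_rpow_atTop (by norm_num)).eventually_ge_atTop _
  have e2 : ∀ᶠ x : ℝ in atTop, 9 ≤ x ^ (1 / 2 - B * (c' / 2) : ℝ) :=
    (tendsto_rpow_atTop (by linarith)).eventually_ge_atTop _
  have e3 : ∀ᶠ x : ℝ in atTop, 2 * C ≤ x ^ (1 / 2 - (B + 1) * (c' / 2) : ℝ) :=
    (tendsto_rpow_atTop (by linarith)).eventually_ge_atTop _
  filter_upwards [e1, e2, e3, eventually_ge_atTop (1 : ℝ)] with x h1 h2 h3 hx1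
  intro m χ k hχ hm hk' hnt y hy hyx
  have hx0 : 0 < x := by linarith
  have hm0 : (0 : ℝ) < nm m := nm_posR hχ.ne
  by_cases hyy : y < x ^ (1 / 2 : ℝ)
  · refine (ANCM.triv hχ k hy).trans ?_
    calc 9 * y ≤ x ^ (1 / 2 - B * (c' / 2) : ℝ) * x ^ (1 / 2 : ℝ) := by
          refine mul_le_mul h2 hyy.le hy (by positivity)
      _ = x ^ (1 - B * (c' / 2)) := by
          rw [← Real.rpow_add hx0]
          congr 1
          ring
  · rw [not_lt] at hyy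
    have hy1 : 1 ≤ y := (le_max_right _ _).trans (h1.trans hyy)
    have hyX : X₀ ≤ y := (le_max_left _ _).trans (h1.trans hyy)
    have hy0 : 0 < y := by linarith
    by_cases hk0 : k = 0
    · subst hk0
      have hnt' : ∃ z, χ z ≠ 0 ∧ χ z ≠ 1 := hnt.resolve_left (fun h => h rfl)
      refine (ANCM.bnd0 hSCZ hχ hnt' y (Real.pi * y / (nm m : ℝ) ^ 2)
        (C * (Real.sqrt y / (nm m : ℝ) + 1)) (fun w => hct (nm m) (nm_pos hχ.ne) w y hy)).trans ?_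
      have hsq : Real.sqrt y ≤ x ^ (1 / 2 : ℝ) := by
        rw [Real.sqrt_eq_rpow]
        exact Real.rpow_le_rpow hy hyx (by norm_num)
      have hm2 : (nm m : ℝ) ^ 2 ≤ x ^ (1 / 2 + c' / 2 : ℝ) := by
        calc (nm m : ℝ) ^ 2 ≤ (x ^ (c' / 2 : ℝ)) ^ 2 := by gcongr
          _ = x ^ (c' : ℝ) := by
              rw [← Real.rpow_natCast, ← Real.rpow_mul hx0.le]
              congr 1
              push_cast
              ring
          _ ≤ x ^ (1 / 2 + c' / 2 : ℝ) := by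
              refine Real.rpow_le_rpow_of_exponent_le hx1 ?_
              nlinarith
      calc (nm m : ℝ) ^ 2 * (C * (Real.sqrt y / (nm m : ℝ) + 1))
          = C * ((nm m : ℝ) * Real.sqrt y + (nm m : ℝ) ^ 2) := by
            field_simp
        _ ≤ C * (x ^ (c' / 2 : ℝ) * x ^ (1 / 2 : ℝ) + x ^ (1 / 2 + c' / 2 : ℝ)) := by gcongr
        _ = (2 * C) * x ^ (1 / 2 + c' / 2 : ℝ) := by
            rw [← Real.rpow_add hx0, add_comm (c' / 2) (1 / 2 : ℝ)]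
            ring
        _ ≤ x ^ (1 / 2 - (B + 1) * (c' / 2) : ℝ) * x ^ (1 / 2 + c' / 2 : ℝ) := by gcongr
        _ = x ^ (1 - B * (c' / 2)) := by
            rw [← Real.rpow_add hx0]
            congr 1
            ring
    · have hmy : (nm m : ℝ) ≤ y ^ c' := by
        calc (nm m : ℝ) ≤ x ^ (c' / 2) := hm
          _ = (x ^ (1 / 2 : ℝ)) ^ c' := by
              rw [← Real.rpow_mul hx0.le]
              congr 1
              ring
          _ ≤ y ^ c' := Real.rpow_le_rpow (by positivity) hyy hc'.le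
      have hky : |(k : ℝ)| ≤ y ^ (2 * A) := by
        calc |(k : ℝ)| ≤ x ^ A := hk'
          _ = (x ^ (1 / 2 : ℝ)) ^ (2 * A) := by
              rw [← Real.rpow_mul hx0.le]
              congr 1
              ring
          _ ≤ y ^ (2 * A) := Real.rpow_le_rpow (by positivity) hyy (by linarith)
      refine (ANCM.bnd hχ y (xi k) (y ^ (1 - (B + 2) * c'))
        (fun w => hX₀ y hyX (nm m) (nm_pos hχ.ne) hmy k hk0 hky w)).trans ?_
      calc (nm m : ℝ) ^ 2 * y ^ (1 - (B + 2) * c') ≤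
            (x ^ (c' / 2 : ℝ)) ^ 2 * x ^ (1 - (B + 2) * c') := by
            have h5 : 0 ≤ 1 - (B + 2) * c' := by linarith
            gcongr
        _ = x ^ (1 - (B + 1) * c') := by
            rw [← Real.rpow_natCast, ← Real.rpow_mul hx0.le, ← Real.rpow_add hx0]
            congr 1
            push_cast
            ring
        _ ≤ x ^ (1 - B * (c' / 2)) := by
            refine Real.rpow_le_rpow_of_exponent_le hx1 ?_
            nlinarith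

end Pool.Agent.Lib.MP391708.X
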