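import Pool.Agent.Lib.MP_391708_nt.X.SpecCEL
import Pool.Agent.Lib.MP_391708_nt.MR.OSPrime

/-!
# THEOREM X (MP_391708), part CEL: module VPL (helper82): Mertens for `VP`
-/

set_option autoImplicit false

namespace Pool.Agent.Lib.MP391708.X

open Finset Filter Topology Pool.Agent.Lib.MP391708.MR

namespace VPLM

lemma mem_PI' {w : ℝ} {π : Gi} :
    π ∈ PI w ↔ (nm π : ℝ) ≤ w ∧ Prime π ∧ 0 < π.re ∧ 0 ≤ π.im := by
  classical
  unfold PI
  rw [mem_filter, mem_disc]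
  constructor
  · rintro ⟨⟨-, h1⟩, h2⟩
    exact ⟨h1, h2⟩
  · rintro ⟨h1, h2⟩
    exact ⟨⟨h2.1.ne_zero, h1⟩, h2⟩

lemma mem_GP' {P Q : ℝ} {π : Gi} : π ∈ GP P Q ↔ (π ≠ 0 ∧ (nm π : ℝ) ≤ Q) ∧
    0 < π.re ∧ 0 < π.im ∧ (nm π).Prime ∧ (nm π) % 4 = 1 ∧ P < (nm π : ℝ) := by
  unfold GP
  rw [mem_filter, mem_disc]

lemma two_le {π : Gi} (h : Prime π) : 2 ≤ nm π := by
  have h0 : nm π ≠ 0 := fun h' => h.ne_zero (nm_eq_zero.1 h')
  have h1 : nm π ≠ 1 := fun h' => h.not_isUnit (isUnit_iff_nm.2 h')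
  omega

lemma two_leR {π : Gi} (h : Prime π) : (2 : ℝ) ≤ nm π := by exact_mod_cast two_le h

lemma GP_sub (P w : ℝ) : GP P w ⊆ PI w := by
  intro π h
  rw [mem_GP'] at h
  obtain ⟨⟨h0, h1⟩, h2, h3, h4, -, -⟩ := h
  exact mem_PI'.2 ⟨h1, prime_of_nm_prime h4, h2, h3.le⟩

open scoped Classical in
lemma rest_sub (w : ℝ) (hw : 0 ≤ w) : PI w \ GP 3 w ⊆
    insert (⟨1, 1⟩ : Gi) ((range (⌊w⌋₊ + 1)).image (fun n : ℕ => (⟨(n : ℤ), 0⟩ : Gi))) := by
  intro π h
  rw [Finset.mem_sdiff, mem_PI', mem_GP'] at h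
  obtain ⟨⟨h1, h2, h3, h4⟩, h5⟩ := h
  rw [mem_insert, mem_image]
  rcases h4.eq_or_lt with h6 | h6
  · right
    refine ⟨π.re.toNat, ?_, ?_⟩
    · rw [mem_range, Nat.lt_succ_iff, Nat.le_floor_iff hw]
      have h7 : (nm π : ℤ) = π.re ^ 2 + π.im ^ 2 := nm_cast π
      have h8 : π.re ≤ (nm π : ℤ) := by
        rw [h7, ← h6]
        nlinarith
      have h9 : (π.re.toNat : ℤ) ≤ (nm π : ℤ) := by omega
      have h10 : (π.re.toNat : ℝ) ≤ (nm π : ℝ) := by exact_mod_cast h9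
      linarith
    · ext
      · simp [h3.le]
      · exact h6
  · obtain ⟨h7, h8⟩ := OS.FQ_nm ⟨π, h2, h3, h6⟩
    simp only at h7 h8
    rcases h8 with h8 | h8
    · exfalso
      apply h5
      refine ⟨⟨h2.ne_zero, h1⟩, h3, h6, h7, h8, ?_⟩
      have h9 : 3 < nm π := by
        have := h7.two_le
        omega
      exact_mod_cast h9
    · left
      have h9 : (nm π : ℤ) = π.re ^ 2 + π.im ^ 2 := nm_cast π
      rw [h8] at h9
      push_cast at h9
      have h10 : π.re = 1 := by nlinarith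
      have h11 : π.im = 1 := by nlinarith
      ext
      · exact h10
      · exact h11

lemma hnm (a : ℕ) : nm (⟨(a : ℤ), 0⟩ : Gi) = a ^ 2 := by
  unfold nm
  simp

open scoped Classical in
lemma rest_le (w : ℝ) (hw : 0 ≤ w) : ∑ π ∈ PI w \ GP 3 w, 1 / (nm π : ℝ) ≤
    1 / 2 + ∑' n : ℕ, 1 / (n : ℝ) ^ 2 := by
  have h1 : ∑ π ∈ PI w \ GP 3 w, 1 / (nm π : ℝ) ≤
      ∑ π ∈ insert (⟨1, 1⟩ : Gi) ((range (⌊w⌋₊ + 1)).image (fun n : ℕ => (⟨(n : ℤ), 0⟩ : Gi))),
        1 / (nm π : ℝ) :=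
    sum_le_sum_of_subset_of_nonneg (rest_sub w hw) (fun _ _ _ => by positivity)
  have h2 : (⟨1, 1⟩ : Gi) ∉ (range (⌊w⌋₊ + 1)).image (fun n : ℕ => (⟨(n : ℤ), 0⟩ : Gi)) := by
    intro h
    rw [mem_image] at h
    obtain ⟨n, -, hn⟩ := h
    have := congrArg Zsqrtd.im hn
    simp at this
  rw [sum_insert h2, sum_image (by
    intro a _ b _ h
    have := congrArg Zsqrtd.re h
    simpa using this)] at h1
  have h3 : (nm (⟨1, 1⟩ : Gi) : ℝ) = 2 := by
    unfold nm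
    norm_num
  have h4 : ∀ n : ℕ, (1 : ℝ) / (nm (⟨(n : ℤ), 0⟩ : Gi) : ℝ) = 1 / (n : ℝ) ^ 2 := by
    intro n
    rw [hnm]
    push_cast
    rfl
  rw [h3, sum_congr rfl (fun n _ => h4 n)] at h1
  have h5 : Summable (fun n : ℕ => 1 / (n : ℝ) ^ 2) := Real.summable_one_div_nat_pow.2 (by norm_num)
  have h6 := h5.sum_le_tsum (range (⌊w⌋₊ + 1)) (fun n _ => by positivity)
  linarith

lemma sq_le (w : ℝ) : ∑ π ∈ PI w, (1 / (nm π : ℝ)) ^ 2 ≤ ∑' z : Gi, (nm z : ℝ) ^ (-2 : ℝ) := by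
  have h1 : ∀ π ∈ PI w, (1 / (nm π : ℝ)) ^ 2 = (nm π : ℝ) ^ (-2 : ℝ) := by
    intro π _
    rw [Real.rpow_neg (by positivity), one_div, inv_pow]
    norm_num
  rw [sum_congr rfl h1]
  exact (OS.summable_nm (by norm_num : (1 : ℝ) < 2)).sum_le_tsum _ (fun z _ => by positivity)

/-- `e^(-x - x²) ≤ 1 - x` -/
lemma exp_le {x : ℝ} (h0 : 0 ≤ x) (h1 : x ≤ 1 / 2) : Real.exp (-(x + x ^ 2)) ≤ 1 - x := by
  have h2 : 0 < 1 - x := by linarith
  have h3 : 1 / (1 - x) ≤ Real.exp (x + x ^ 2) := by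
    have h4 := Real.quadratic_le_exp_of_nonneg (x := x + x ^ 2) (by positivity)
    have h5 : 1 / (1 - x) ≤ 1 + (x + x ^ 2) + (x + x ^ 2) ^ 2 / 2 := by
      rw [div_le_iff₀ h2]
      nlinarith [pow_nonneg h0 2, pow_nonneg h0 3, pow_nonneg h0 4, mul_nonneg (pow_nonneg h0 2)
        (by linarith : (0 : ℝ) ≤ 1 / 2 - x), mul_nonneg (pow_nonneg h0 3)
        (by linarith : (0 : ℝ) ≤ 1 / 2 - x), mul_nonneg (pow_nonneg h0 4)
        (by linarith : (0 : ℝ) ≤ 1 / 2 - x)]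
    linarith
  rw [Real.exp_neg]
  rw [one_div] at h3
  rw [inv_le_comm₀ (Real.exp_pos _) h2]
  exact h3

lemma VP_lower (w : ℝ) : Real.exp (-(∑ π ∈ PI w, 1 / (nm π : ℝ) +
    ∑ π ∈ PI w, (1 / (nm π : ℝ)) ^ 2)) ≤ VP w := by
  rw [← sum_add_distrib, ← sum_neg_distrib, Real.exp_sum]
  unfold VP
  apply Finset.prod_le_prod
  · intro π _
    exact (Real.exp_pos _).le
  · intro π h
    have h2 := two_leR (mem_PI'.1 h).2.1
    apply exp_le (by positivity)
    rw [div_le_div_iff₀ (by linarith) (by norm_num)]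
    linarith

lemma VP_upper (w : ℝ) : VP w ≤ Real.exp (-WW 3 w) := by
  classical
  have h1 : ∀ π ∈ PI w, 0 ≤ 1 - 1 / (nm π : ℝ) ∧ 1 - 1 / (nm π : ℝ) ≤ 1 := by
    intro π h
    have h2 := two_leR (mem_PI'.1 h).2.1
    have h3 : 1 / (nm π : ℝ) ≤ 1 := by
      rw [div_le_one (by linarith)]
      linarith
    have h4 : 0 ≤ 1 / (nm π : ℝ) := by positivity
    constructor <;> linarith
  have h2 : VP w ≤ ∏ π ∈ GP 3 w, (1 - 1 / (nm π : ℝ)) := by
    unfold VP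
    rw [← prod_sdiff (GP_sub 3 w)]
    have h3 : ∏ π ∈ PI w \ GP 3 w, (1 - 1 / (nm π : ℝ)) ≤ 1 :=
      prod_le_one (fun π h => (h1 π (Finset.mem_sdiff.1 h).1).1) (fun π h => (h1 π (Finset.mem_sdiff.1 h).1).2)
    have h4 : 0 ≤ ∏ π ∈ GP 3 w, (1 - 1 / (nm π : ℝ)) :=
      prod_nonneg (fun π h => (h1 π (GP_sub 3 w h)).1)
    nlinarith
  refine h2.trans ?_
  unfold WW
  rw [← sum_neg_distrib, Real.exp_sum]
  apply Finset.prod_le_prod
  · intro π h
    exact (h1 π (GP_sub 3 w h)).1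
  · intro π _
    have := Real.add_one_le_exp (-(1 / (nm π : ℝ)))
    linarith

end VPLM

open VPLM in
theorem specVPL (hPG : MR.SpecPG) : SpecVPL := by
  classical
  obtain ⟨-, ⟨C2', hC2'⟩, -, -⟩ := hPG
  set C2 : ℝ := max C2' 0 with hC2d
  have hC20 : 0 ≤ C2 := le_max_right _ _
  have hC2 : ∀ Q : ℝ, 3 ≤ Q → |WW 3 Q - (Real.log (Real.log Q) - Real.log (Real.log 3))| ≤ C2 :=
    fun Q hQ => (hC2' 3 Q le_rfl hQ).trans (le_max_left _ _)
  set S : ℝ := 1 / 2 + ∑' n : ℕ, 1 / (n : ℝ) ^ 2 with hS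
  set Z : ℝ := ∑' z : Gi, (nm z : ℝ) ^ (-2 : ℝ) with hZ
  have hl2 : 0 < Real.log 2 := Real.log_pos (by norm_num)
  have hl3 : 0 < Real.log 3 := Real.log_pos (by norm_num)
  have hl23 : Real.log 2 ≤ Real.log 3 := Real.log_le_log (by norm_num) (by norm_num)
  refine ⟨Real.exp (-(C2 + S + Z)) * Real.log 2, Real.exp C2 * Real.log 3,
    by positivity, by positivity, fun w hw => ?_⟩
  have hlw : Real.log 2 ≤ Real.log w := Real.log_le_log (by norm_num) hw
  have hlw0 : 0 < Real.log w := by linarith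
  have hsum : ∑ π ∈ PI w, 1 / (nm π : ℝ) ≤ WW 3 w + S := by
    rw [← sum_sdiff (GP_sub 3 w)]
    have := rest_le w (by linarith)
    unfold WW
    linarith
  have hlow : Real.exp (-(WW 3 w + S + Z)) ≤ VP w := by
    refine le_trans (Real.exp_le_exp.2 ?_) (VP_lower w)
    have := sq_le w
    linarith
  have hup := VP_upper w
  rcases le_or_gt 3 w with h3 | h3
  · have hlw3 : Real.log 3 ≤ Real.log w := Real.log_le_log (by norm_num) h3
    have hW := abs_le.1 (hC2 w h3)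
    constructor
    · refine le_trans ?_ hlow
      rw [div_le_iff₀ hlw0]
      have e1 : Real.exp (-(WW 3 w + S + Z)) * Real.log w =
          Real.exp (-(WW 3 w + S + Z) + Real.log (Real.log w)) := by
        rw [Real.exp_add, Real.exp_log hlw0]
      have e2 : Real.exp (-(C2 + S + Z)) * Real.log 2 =
          Real.exp (-(C2 + S + Z) + Real.log (Real.log 2)) := by
        rw [Real.exp_add, Real.exp_log hl2]
      rw [e1, e2]
      apply Real.exp_le_exp.2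
      have h4 : Real.log (Real.log 2) ≤ Real.log (Real.log 3) := Real.log_le_log hl2 hl23
      linarith [hW.2]
    · refine le_trans hup ?_
      rw [le_div_iff₀ hlw0]
      have e1 : Real.exp (-WW 3 w) * Real.log w =
          Real.exp (-WW 3 w + Real.log (Real.log w)) := by
        rw [Real.exp_add, Real.exp_log hlw0]
      have e2 : Real.exp C2 * Real.log 3 = Real.exp (C2 + Real.log (Real.log 3)) := by
        rw [Real.exp_add, Real.exp_log hl3]
      rw [e1, e2]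
      apply Real.exp_le_exp.2
      linarith [hW.1]
  · have hW0 : WW 3 w = 0 := by
      unfold WW
      have : GP 3 w = ∅ := by
        rw [eq_empty_iff_forall_notMem]
        intro π h
        rw [mem_GP'] at h
        linarith [h.1.2, h.2.2.2.2.2]
      rw [this, sum_empty]
    have hlw3 : Real.log w ≤ Real.log 3 := Real.log_le_log (by linarith) h3.le
    rw [hW0] at hlow hup
    constructor
    · refine le_trans ?_ hlow
      rw [div_le_iff₀ hlw0]
      have e1 : Real.exp (-(C2 + S + Z)) ≤ Real.exp (-(0 + S + Z)) :=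
        Real.exp_le_exp.2 (by linarith)
      exact mul_le_mul e1 hlw hl2.le (Real.exp_pos _).le
    · refine le_trans hup ?_
      rw [le_div_iff₀ hlw0]
      have e1 : Real.exp (-0) ≤ Real.exp C2 := Real.exp_le_exp.2 (by linarith)
      exact mul_le_mul e1 hlw3 hlw0.le (Real.exp_pos _).le

end Pool.Agent.Lib.MP391708.X
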