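import Pool.Agent.Lib.MP_391708_nt.X.SpecHML

/-!
# THEOREM X (MP_391708), part HML, module BTG: Brun–Titchmarsh in thin annuli of `ℤ[i]`
-/

set_option autoImplicit false

namespace Pool.Agent.Lib.MP391708.XH

open Finset Filter Topology Pool.Agent.Lib.MP391708.MR
open scoped ComplexConjugate

namespace BTGM

theorem nm_mul (z w : Gi) : nm (z * w) = nm z * nm w := by
  unfold nm
  rw [← Int.natAbs_mul]
  congr 1
  rw [Zsqrtd.re_mul, Zsqrtd.im_mul]
  ring

theorem nm_dvd {z w : Gi} (h : z ∣ w) : nm z ∣ nm w := by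
  obtain ⟨v, rfl⟩ := h
  rw [nm_mul]
  exact Dvd.intro _ rfl

/-- on a prime of norm above the sifting range the weight is `1` -/
theorem ws_one (lam : Finset Gi → ℝ) (hl : lam ∅ = 1) {x x' Q : ℝ} (hQ : Q ≤ x) {z : Gi}
    (hz : z ∈ GP x x') : ws (GP 3 Q) lam z = 1 := by
  classical
  have hz' := (Finset.mem_filter.1 hz).2
  have hempty : (GP 3 Q).filter (fun π => π ∣ z) = ∅ := by
    rw [Finset.filter_eq_empty_iff]
    intro π hπ hd
    have hπ' := Finset.mem_filter.1 hπ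
    have hnQ : (nm π : ℝ) ≤ Q := (Finset.mem_filter.1 hπ'.1).2.2
    have hn3 : (3 : ℝ) < (nm π : ℝ) := hπ'.2.2.2.2.2
    have hxz : x < (nm z : ℝ) := hz'.2.2.2.2
    rcases (Nat.dvd_prime hz'.2.2.1).1 (nm_dvd hd) with h1 | h1
    · rw [h1] at hn3
      norm_num at hn3
    · rw [h1] at hnQ
      linarith
  unfold ws
  have h2 : (∑ T ∈ ((GP 3 Q).filter (fun π => π ∣ z)).powerset, lam T) = 1 := by
    rw [hempty, Finset.powerset_empty, Finset.sum_singleton, hl]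
  have h3 : ∀ (inst : DecidablePred (fun π : Gi => π ∣ z)),
      (∑ T ∈ (@Finset.filter _ (fun π => π ∣ z) inst (GP 3 Q)).powerset, lam T) = 1 := by
    intro inst
    rw [← h2]
    congr
  rw [h3]
  norm_num

theorem GP_sub (x x' : ℝ) : GP x x' ⊆ ann x x' := by
  intro z hz
  have h := Finset.mem_filter.1 hz
  exact Finset.mem_filter.2 ⟨h.1, h.2.2.2.2.2⟩

theorem card_le_sum (lam : Finset Gi → ℝ) (hl : lam ∅ = 1) {x x' Q : ℝ} (hQ : Q ≤ x) :
    ((GP x x').card : ℝ) ≤ ∑ z ∈ ann x x', ws (GP 3 Q) lam z := by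
  calc ((GP x x').card : ℝ) = ∑ z ∈ GP x x', ws (GP 3 Q) lam z := by
        rw [Finset.sum_congr rfl (fun z hz => ws_one lam hl hQ hz)]
        simp
    _ ≤ ∑ z ∈ ann x x', ws (GP 3 Q) lam z :=
        Finset.sum_le_sum_of_subset_of_nonneg (GP_sub x x') (fun z _ _ => sq_nonneg _)

/-- real analysis: the second term -/
theorem large : ∀ᶠ x : ℝ in atTop, 2 ≤ x ^ (1 / 10 : ℝ) ∧ 1 < x ∧
    (x ^ (1 / 10 : ℝ)) ^ 2 * (Real.sqrt (x * 3) + 1) ≤ 3 * (x ^ (9 / 10 : ℝ) / Real.log x) := by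
  have h1 : ∀ᶠ x : ℝ in atTop, 2 ≤ x ^ (1 / 10 : ℝ) :=
    (tendsto_rpow_atTop (by norm_num : (0 : ℝ) < 1 / 10)).eventually_ge_atTop 2
  have h2 : ∀ᶠ x : ℝ in atTop, Real.log x ≤ x ^ (1 / 5 : ℝ) := by
    have h := (isLittleO_log_rpow_atTop (by norm_num : (0 : ℝ) < 1 / 5)).bound
      (by norm_num : (0 : ℝ) < 1)
    filter_upwards [h, eventually_gt_atTop 1] with x hx hx1
    rw [one_mul, Real.norm_eq_abs, Real.norm_eq_abs,
      abs_of_nonneg (Real.rpow_nonneg (by linarith) _)] at hx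
    exact le_trans (le_abs_self _) hx
  filter_upwards [h1, h2, eventually_gt_atTop 1] with x hx1 hx2 hx3
  refine ⟨hx1, hx3, ?_⟩
  have hx0 : 0 < x := by linarith
  have hlog : 0 < Real.log x := Real.log_pos hx3
  rw [← mul_div_assoc, le_div_iff₀ hlog]
  have hs : Real.sqrt (x * 3) + 1 ≤ 3 * x ^ (1 / 2 : ℝ) := by
    rw [Real.sqrt_mul hx0.le, Real.sqrt_eq_rpow x]
    have hx5 : 1 ≤ x ^ (1 / 2 : ℝ) := Real.one_le_rpow hx3.le (by norm_num)
    have h3 : Real.sqrt 3 ≤ 2 := by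
      rw [Real.sqrt_le_left (by norm_num)]
      norm_num
    nlinarith
  have hpos : 0 ≤ (x ^ (1 / 10 : ℝ)) ^ 2 := sq_nonneg _
  calc (x ^ (1 / 10 : ℝ)) ^ 2 * (Real.sqrt (x * 3) + 1) * Real.log x
      ≤ (x ^ (1 / 10 : ℝ)) ^ 2 * (3 * x ^ (1 / 2 : ℝ)) * x ^ (1 / 5 : ℝ) := by
        apply mul_le_mul (mul_le_mul_of_nonneg_left hs hpos) hx2 hlog.le
        positivity
    _ = 3 * x ^ (9 / 10 : ℝ) := by
        have e1 : (x ^ (1 / 10 : ℝ)) ^ 2 = x ^ (1 / 5 : ℝ) := by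
          rw [← Real.rpow_natCast, ← Real.rpow_mul hx0.le]
          norm_num
        have e2 : x ^ (9 / 10 : ℝ) = x ^ (1 / 5 : ℝ) * x ^ (1 / 2 : ℝ) * x ^ (1 / 5 : ℝ) := by
          rw [← Real.rpow_add hx0, ← Real.rpow_add hx0]
          norm_num
        rw [e1, e2]
        ring

end BTGM

open BTGM

theorem specBTG (hSELZ : SpecSELZ) : SpecBTG := by
  obtain ⟨C, c₀, hC, hc₀, hc₁, hZ⟩ := hSELZ
  refine ⟨23 * C, by positivity, ?_⟩
  filter_upwards [large] with x hx κ hκ hκ1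
  obtain ⟨hx1, hx3, hx4⟩ := hx
  have hx0 : 0 < x := by linarith
  have hlog : 0 < Real.log x := Real.log_pos hx3
  obtain ⟨lam, hl, -, -, -, hsum⟩ := hZ (x ^ (1 / 10 : ℝ)) hx1
  have hκ0 : 0 < κ := lt_of_lt_of_le (Real.rpow_pos_of_pos hx0 _) hκ
  have hQ : (x ^ (1 / 10 : ℝ)) ^ c₀ ≤ x := by
    rw [← Real.rpow_mul hx0.le]
    calc x ^ (1 / 10 * c₀) ≤ x ^ (1 : ℝ) :=
          Real.rpow_le_rpow_of_exponent_le hx3.le (by nlinarith)
      _ = x := Real.rpow_one x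
  have hexp1 : 1 ≤ Real.exp κ := Real.one_le_exp hκ0.le
  have hexp3 : Real.exp κ ≤ 3 := by
    calc Real.exp κ ≤ Real.exp 1 := Real.exp_le_exp.2 hκ1
      _ ≤ 3 := by
        have := Real.exp_one_lt_d9
        linarith
  have hexp2 : Real.exp κ - 1 ≤ 2 * κ := by
    have h := Real.abs_exp_sub_one_le (x := κ) (by rw [abs_of_pos hκ0]; exact hκ1)
    rw [abs_of_pos hκ0] at h
    exact le_trans (le_abs_self _) h
  have hle : x ≤ x * Real.exp κ := le_mul_of_one_le_right hx0.le hexp1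
  have h1 := le_trans (card_le_sum (x' := x * Real.exp κ) lam hl hQ)
    (hsum x (x * Real.exp κ) hx0.le hle)
  have hA : C * (x * Real.exp κ - x) / Real.log (x ^ (1 / 10 : ℝ)) ≤
      20 * C * (κ * x / Real.log x) := by
    rw [Real.log_rpow hx0, div_le_iff₀ (by positivity)]
    have e : 20 * C * (κ * x / Real.log x) * (1 / 10 * Real.log x) = 2 * C * (κ * x) := by
      field_simp
      ring
    rw [e]
    have : C * x * (Real.exp κ - 1) ≤ C * x * (2 * κ) :=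
      mul_le_mul_of_nonneg_left hexp2 (by positivity)
    nlinarith
  have hB : C * (x ^ (1 / 10 : ℝ)) ^ 2 * (Real.sqrt (x * Real.exp κ) + 1) ≤
      3 * C * (κ * x / Real.log x) := by
    have hs : Real.sqrt (x * Real.exp κ) ≤ Real.sqrt (x * 3) :=
      Real.sqrt_le_sqrt (mul_le_mul_of_nonneg_left hexp3 hx0.le)
    have hk : x ^ (9 / 10 : ℝ) ≤ κ * x := by
      have e : x ^ (9 / 10 : ℝ) = x ^ (-(1 / 10) : ℝ) * x := by
        conv_rhs => rw [← Real.rpow_one x, ← Real.rpow_mul hx0.le, ← Real.rpow_add hx0]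
        norm_num
      rw [e]
      exact mul_le_mul_of_nonneg_right hκ hx0.le
    calc C * (x ^ (1 / 10 : ℝ)) ^ 2 * (Real.sqrt (x * Real.exp κ) + 1)
        ≤ C * (x ^ (1 / 10 : ℝ)) ^ 2 * (Real.sqrt (x * 3) + 1) :=
          mul_le_mul_of_nonneg_left (by linarith) (by positivity)
      _ = C * ((x ^ (1 / 10 : ℝ)) ^ 2 * (Real.sqrt (x * 3) + 1)) := by ring
      _ ≤ C * (3 * (x ^ (9 / 10 : ℝ) / Real.log x)) := mul_le_mul_of_nonneg_left hx4 hC.le
      _ ≤ C * (3 * (κ * x / Real.log x)) := by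
          apply mul_le_mul_of_nonneg_left _ hC.le
          apply mul_le_mul_of_nonneg_left _ (by norm_num)
          exact div_le_div_of_nonneg_right hk hlog.le
      _ = 3 * C * (κ * x / Real.log x) := by ring
  calc ((GP x (x * Real.exp κ)).card : ℝ) ≤ _ := h1
    _ ≤ 20 * C * (κ * x / Real.log x) + 3 * C * (κ * x / Real.log x) := add_le_add hA hB
    _ = 23 * C * κ * x / Real.log x := by ring

end Pool.Agent.Lib.MP391708.XH
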