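import Pool.Agent.Lib.MP_391708_nt.X.SpecCEL

/-!
# THEOREM X (MP_391708), module CELA: thin sets of primes (helper10)
-/

set_option autoImplicit false

namespace Pool.Agent.Lib.MP391708.X

open Finset Filter Topology Pool.Agent.Lib.MP391708.MR
open scoped ComplexConjugate

namespace CELAM

lemma log_le (a e : ℝ) (he : 0 < e) : ∀ᶠ N : ℝ in atTop, Real.log N ^ a ≤ N ^ (e / 4) := by
  have h := (isLittleO_log_rpow_rpow_atTop a (by positivity : 0 < e / 4)).bound zero_lt_one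
  filter_upwards [h, eventually_gt_atTop (1 : ℝ)] with N hN hN1
  have h1 : 0 ≤ Real.log N ^ a := Real.rpow_nonneg (Real.log_nonneg hN1.le) _
  have h2 : 0 ≤ N ^ (e / 4) := Real.rpow_nonneg (by linarith) _
  rwa [one_mul, Real.norm_of_nonneg h1, Real.norm_of_nonneg h2] at hN

end CELAM

open CELAM in
theorem specCELA (hPSI : SpecPSI) (hORT : SpecORT) (hHML : XH.SpecHML) (hHMC : XH.SpecHMC)
    (hBTG : XH.SpecBTG) : SpecCELA := by
  obtain ⟨c, hc, hc1, hO⟩ := hORT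
  obtain ⟨C1, c1, hC1, hcc1, hH⟩ := hHML c hc hc1
  obtain ⟨C2, c2, hC2, hcc2, hM⟩ := hHMC c hc hc1
  obtain ⟨C3, hC3, hB⟩ := hBTG
  obtain ⟨x1, hx1⟩ := eventually_atTop.1 hH
  obtain ⟨x2, hx2⟩ := eventually_atTop.1 hM
  obtain ⟨x3, hx3⟩ := eventually_atTop.1 hB
  set e : ℝ := min (min c1 c2) (1 / 10) with he
  have he0 : 0 < e := lt_min (lt_min hcc1 hcc2) (by norm_num)
  have he1 : e ≤ c1 := (min_le_left _ _).trans (min_le_left _ _)
  have he2 : e ≤ c2 := (min_le_left _ _).trans (min_le_right _ _)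
  have he3 : e ≤ 1 / 10 := min_le_right _ _
  refine ⟨4 * C1 + 16 * C2 + 4 * C3, by positivity, fun ch aQ aU => ?_⟩
  have hpow : Tendsto (fun N : ℝ => N ^ (1 / 4 : ℝ)) atTop atTop := tendsto_rpow_atTop (by norm_num)
  filter_upwards [hO aQ, log_le ch e he0, log_le aU e he0, hpow.eventually_ge_atTop x1,
    hpow.eventually_ge_atTop x2, hpow.eventually_ge_atTop x3, eventually_gt_atTop (1 : ℝ)]
    with N hON hNch hNaU hN1 hN2 hN3 hN
  intro F U hF hU x κ S hx hκ hκ1 hS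
  have hN0 : 0 < N := by linarith
  have hlN : 0 < Real.log N := Real.log_pos hN
  have hNq1 : 1 < N ^ (1 / 4 : ℝ) := Real.one_lt_rpow hN (by norm_num)
  have hNq0 : 0 < N ^ (1 / 4 : ℝ) := by linarith
  have hx1' : 1 < x := hNq1.trans_le hx
  have hx0 : 0 < x := by linarith
  -- the logarithm
  have hlx : Real.log N / 4 ≤ Real.log x := by
    have h := Real.log_le_log hNq0 hx
    rw [Real.log_rpow hN0] at h
    linarith
  have hlx0 : 0 < Real.log x := by linarith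
  -- the size of `κ`
  have hκe : x ^ (-e) ≤ κ := by
    calc x ^ (-e) ≤ (N ^ (1 / 4 : ℝ)) ^ (-e) :=
          Real.rpow_le_rpow_of_nonpos hNq0 hx (by linarith)
      _ = (N ^ (e / 4))⁻¹ := by
          rw [← Real.rpow_mul hN0.le, ← Real.rpow_neg hN0.le]; congr 1; ring
      _ ≤ (Real.log N ^ ch)⁻¹ := by
          apply inv_anti₀ (Real.rpow_pos_of_pos hlN _) hNch
      _ = Real.log N ^ (-ch) := by rw [Real.rpow_neg hlN.le]
      _ ≤ κ := hκ
  have hκ' : ∀ d : ℝ, e ≤ d → x ^ (-d) ≤ κ := fun d hd =>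
    (Real.rpow_le_rpow_of_exponent_le hx1'.le (by linarith)).trans hκe
  have hκ0 : 0 < κ := (Real.rpow_pos_of_pos hx0 _).trans_le hκe
  -- the size of `U`
  have hUe : (U.card : ℝ) ≤ x ^ e := by
    calc (U.card : ℝ) ≤ Real.log N ^ aU := hU.card
      _ ≤ N ^ (e / 4) := hNaU
      _ = (N ^ (1 / 4 : ℝ)) ^ e := by
          rw [← Real.rpow_mul hN0.le]; congr 1; ring
      _ ≤ x ^ e := Real.rpow_le_rpow hNq0.le hx he0.le
  have hU' : ∀ d : ℝ, e ≤ d → (U.card : ℝ) ≤ x ^ d := fun d hd =>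
    hUe.trans (Real.rpow_le_rpow_of_exponent_le hx1'.le hd)
  -- the characters
  have hmul : ∀ i ∈ U, ∀ u v, psi i (u * v) = psi i u * psi i v := fun i hi =>
    (hPSI _ _ _ U hU i hi).1
  have hbd : ∀ i ∈ U, ∀ z, ‖psi i z‖ ≤ 1 := fun i hi => (hPSI _ _ _ U hU i hi).2.1
  have hort : ∀ i ∈ U, ∀ j ∈ U, i ≠ j → ∀ Y : ℝ, x ^ (1 / 2 : ℝ) ≤ Y → Y ≤ 3 * x →
      ‖∑ z ∈ disc Y, psi i z * conj (psi j z)‖ ≤ Y ^ (1 - c) := by
    intro i hi j hj hij Y hY _
    refine hON F _ U hF hU i hi j hj hij Y (le_trans ?_ hY)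
    calc N ^ (1 / 8 : ℝ) = (N ^ (1 / 4 : ℝ)) ^ (1 / 2 : ℝ) := by
          rw [← Real.rpow_mul hN0.le]; norm_num
      _ ≤ x ^ (1 / 2 : ℝ) := Real.rpow_le_rpow hNq0.le hx (by norm_num)
  -- the quotient
  have hq : κ * x / Real.log x ≤ 4 * (κ * x / Real.log N) := by
    have h0 : 0 < κ * x := by positivity
    have h1 : (Real.log x)⁻¹ ≤ (Real.log N / 4)⁻¹ := inv_anti₀ (by positivity) hlx
    calc κ * x / Real.log x = κ * x * (Real.log x)⁻¹ := div_eq_mul_inv _ _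
      _ ≤ κ * x * (Real.log N / 4)⁻¹ := mul_le_mul_of_nonneg_left h1 h0.le
      _ = 4 * (κ * x / Real.log N) := by
          rw [inv_div]; ring
  have hq0 : 0 ≤ κ * x / Real.log x := by positivity
  have hqN : 0 ≤ κ * x / Real.log N := by positivity
  refine ⟨fun a => ?_, ?_, ?_⟩
  · have h := hx1 x (hN1.trans hx) κ Ix U psi S a (hκ' c1 he1) hκ1 (hU' c1 he1) hmul hbd hort hS
    have hs : 0 ≤ ∑ π ∈ S, ‖a π‖ ^ 2 := Finset.sum_nonneg fun _ _ => by positivity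
    refine h.trans ?_
    refine mul_le_mul_of_nonneg_right ?_ hs
    have e1 : C1 * κ * x / Real.log x = C1 * (κ * x / Real.log x) := by ring
    have e2 : (4 * C1 + 16 * C2 + 4 * C3) * κ * x / Real.log N =
      (4 * C1 + 16 * C2 + 4 * C3) * (κ * x / Real.log N) := by ring
    rw [e1, e2]
    nlinarith [mul_le_mul_of_nonneg_left hq hC1.le, mul_nonneg hC2.le hqN, mul_nonneg hC3.le hqN]
  · have h := hx2 x (hN2.trans hx) κ Ix U psi S (hκ' c2 he2) hκ1 (hU' c2 he2) hmul hbd hort hS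
    refine h.trans ?_
    have e1 : (κ * x / Real.log x) ^ 2 ≤ (4 * (κ * x / Real.log N)) ^ 2 :=
      pow_le_pow_left₀ hq0 hq 2
    calc C2 * (κ * x / Real.log x) ^ 2 ≤ C2 * (4 * (κ * x / Real.log N)) ^ 2 :=
          mul_le_mul_of_nonneg_left e1 hC2.le
      _ = 16 * C2 * (κ * x / Real.log N) ^ 2 := by ring
      _ ≤ (4 * C1 + 16 * C2 + 4 * C3) * (κ * x / Real.log N) ^ 2 := by
          refine mul_le_mul_of_nonneg_right ?_ (by positivity)
          linarith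
  · have h := hx3 x (hN3.trans hx) κ (hκ' (1 / 10) he3) hκ1
    have h1 : (S.card : ℝ) ≤ ((GP x (x * Real.exp κ)).card : ℝ) := by
      exact_mod_cast Finset.card_le_card hS
    have e1 : C3 * κ * x / Real.log x = C3 * (κ * x / Real.log x) := by ring
    rw [e1] at h
    nlinarith [mul_le_mul_of_nonneg_left hq hC3.le, mul_nonneg hC2.le hqN, mul_nonneg hC1.le hqN]

end Pool.Agent.Lib.MP391708.X
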