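import Pool.Agent.Lib.MP_391708_nt.X.SpecCEL
import Pool.Agent.Lib.MP_391708_nt.MR.Basic

/-!
# THEOREM X (MP_391708), module CELB: the cells
-/

set_option autoImplicit false

namespace Pool.Agent.Lib.MP391708.X

open Finset Filter Topology Pool.Agent.Lib.MP391708.MR
open scoped ComplexConjugate

namespace CELBM

/-- the cell is contained in a thin set of primes -/
theorem sub {h M x κ : ℝ} {v : ℕ} (hh : 0 < h) (hx : x = Real.exp (((v : ℝ) - 1) / h))
    (hκ : κ = 2 / h) : cell h M (2 * M) v ⊆ GP x (x * Real.exp κ) := by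
  intro π hπ
  rw [cell, mem_filter] at hπ
  obtain ⟨hG, hv⟩ := hπ
  rw [GP, mem_filter] at hG ⊢
  obtain ⟨hd, h1, h2, h3, h4, h5⟩ := hG
  have hn : (1 : ℝ) ≤ (nm π : ℝ) := by exact_mod_cast h3.one_lt.le
  have hn0 : (0 : ℝ) < (nm π : ℝ) := by linarith
  have hl : 0 ≤ h * Real.log (nm π) := mul_nonneg hh.le (Real.log_nonneg hn)
  have hlo : (v : ℝ) ≤ h * Real.log (nm π) := by
    rw [← hv]
    exact Nat.floor_le hl
  have hhi : h * Real.log (nm π) < v + 1 := by
    rw [← hv]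
    exact Nat.lt_floor_add_one _
  have hxk : x * Real.exp κ = Real.exp (((v : ℝ) + 1) / h) := by
    rw [hx, hκ, ← Real.exp_add]
    congr 1
    field_simp
    ring
  have hup : (nm π : ℝ) < x * Real.exp κ := by
    rw [hxk, ← Real.log_lt_iff_lt_exp hn0, lt_div_iff₀ hh, mul_comm]
    exact hhi
  have hlow : x < (nm π : ℝ) := by
    rw [hx, ← Real.lt_log_iff_exp_lt hn0, div_lt_iff₀ hh, mul_comm]
    linarith
  refine ⟨?_, h1, h2, h3, h4, hlow⟩
  rw [mem_disc] at hd ⊢
  exact ⟨hd.1, hup.le⟩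

/-- the size of `x` -/
theorem size {h M x κ : ℝ} {v : ℕ} (hh : 0 < h) (hx : x = Real.exp (((v : ℝ) - 1) / h))
    (hκ : κ = 2 / h) {π : Gi} (hπ : π ∈ cell h M (2 * M) v) :
    M * Real.exp (-κ) ≤ x ∧ x ≤ 2 * M := by
  have h1 := sub hh hx hκ hπ
  rw [cell, mem_filter] at hπ
  obtain ⟨hG, -⟩ := hπ
  rw [GP, mem_filter, mem_disc] at hG h1
  have h2 : M < x * Real.exp κ := hG.2.2.2.2.2.trans_le h1.1.2
  constructor
  · rw [Real.exp_neg, ← div_eq_mul_inv, div_le_iff₀ (Real.exp_pos _)]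
    exact h2.le
  · exact h1.2.2.2.2.2.le.trans hG.1.2

end CELBM

open CELBM in
theorem specCELB (hCELA : SpecCELA) : SpecCELB := by
  obtain ⟨C, hC, hA⟩ := hCELA
  refine ⟨16 * C, by positivity, ?_⟩
  intro ch aQ aU hch
  have hlog : Tendsto (fun N : ℝ => Real.log N) atTop atTop := Real.tendsto_log_atTop
  have hpow : Tendsto (fun N : ℝ => N ^ (1 / 12 : ℝ)) atTop atTop :=
    tendsto_rpow_atTop (by norm_num)
  filter_upwards [hA ch aQ aU, hlog.eventually_ge_atTop 2, eventually_gt_atTop 1,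
    hpow.eventually_ge_atTop (Real.exp 1)] with N hN hl2 hN1 hN12
  intro F U hF hU M v hM
  set h : ℝ := Real.log N ^ ch with hh
  have hh2 : 2 ≤ h := by
    calc (2 : ℝ) ≤ Real.log N := hl2
      _ = Real.log N ^ (1 : ℝ) := (Real.rpow_one _).symm
      _ ≤ h := Real.rpow_le_rpow_of_exponent_le (by linarith) hch
  have hh0 : 0 < h := by linarith
  have hlN : 0 < Real.log N := by linarith
  have hN0 : 0 < N := by linarith
  have hM0 : 0 < M := lt_of_lt_of_le (Real.rpow_pos_of_pos hN0 _) hM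
  have hq : 0 ≤ M / (h * Real.log N) := by positivity
  rcases (cell h M (2 * M) v).eq_empty_or_nonempty with he | ⟨π, hπ⟩
  · rw [he]
    refine ⟨fun a => ?_, ?_, ?_⟩
    · simp
    · simp only [sum_empty, norm_zero]
      rw [zero_pow two_ne_zero, sum_const_zero]
      positivity
    · simp only [card_empty, Nat.cast_zero]
      positivity
  obtain ⟨hs1, hs2⟩ := size hh0 rfl rfl hπ
  have hκ0 : 0 < 2 / h := by positivity
  have hκ1 : 2 / h ≤ 1 := by
    rw [div_le_one hh0]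
    exact hh2
  have hx : N ^ (1 / 4 : ℝ) ≤ Real.exp (((v : ℝ) - 1) / h) := by
    refine le_trans ?_ hs1
    have h1 : Real.exp (-1) ≤ Real.exp (-(2 / h)) := Real.exp_le_exp.2 (by linarith)
    have h2 : N ^ (1 / 3 : ℝ) = N ^ (1 / 4 : ℝ) * N ^ (1 / 12 : ℝ) := by
      rw [← Real.rpow_add hN0]
      norm_num
    calc N ^ (1 / 4 : ℝ) = N ^ (1 / 4 : ℝ) * (Real.exp 1 * Real.exp (-1)) := by
          rw [← Real.exp_add]
          simp
      _ ≤ N ^ (1 / 4 : ℝ) * (N ^ (1 / 12 : ℝ) * Real.exp (-(2 / h))) := by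
          apply mul_le_mul_of_nonneg_left _ (Real.rpow_nonneg hN0.le _)
          exact mul_le_mul hN12 h1 (Real.exp_pos _).le (Real.rpow_nonneg hN0.le _)
      _ = N ^ (1 / 3 : ℝ) * Real.exp (-(2 / h)) := by rw [h2]; ring
      _ ≤ M * Real.exp (-(2 / h)) := mul_le_mul_of_nonneg_right hM (Real.exp_pos _).le
  have hk : Real.log N ^ (-ch) ≤ 2 / h := by
    rw [Real.rpow_neg hlN.le, ← hh, div_eq_mul_inv]
    have : 0 < h⁻¹ := inv_pos.2 hh0
    linarith
  obtain ⟨b1, b2, b3⟩ := hN F U hF hU _ (2 / h) (cell h M (2 * M) v) hx hk hκ1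
    (sub hh0 rfl rfl)
  set x : ℝ := Real.exp (((v : ℝ) - 1) / h) with hxdef
  have hx0 : 0 < x := Real.exp_pos _
  have hb : 2 / h * x / Real.log N ≤ 4 * (M / (h * Real.log N)) := by
    rw [div_mul_eq_mul_div, div_div, mul_div_assoc', div_le_div_iff_of_pos_right (by positivity)]
    linarith
  have hb0 : 0 ≤ 2 / h * x / Real.log N := by positivity
  refine ⟨fun a => ?_, ?_, ?_⟩
  · refine (b1 a).trans ?_
    apply mul_le_mul_of_nonneg_right _ (sum_nonneg fun _ _ => by positivity)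
    calc C * (2 / h) * x / Real.log N = C * (2 / h * x / Real.log N) := by ring
      _ ≤ C * (4 * (M / (h * Real.log N))) := mul_le_mul_of_nonneg_left hb hC.le
      _ ≤ 16 * C * (M / (h * Real.log N)) := by nlinarith
  · refine b2.trans ?_
    calc C * (2 / h * x / Real.log N) ^ 2 ≤ C * (4 * (M / (h * Real.log N))) ^ 2 := by
          gcongr
      _ = 16 * C * (M / (h * Real.log N)) ^ 2 := by ring
  · refine b3.trans ?_
    calc C * (2 / h * x / Real.log N) ≤ C * (4 * (M / (h * Real.log N))) :=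
          mul_le_mul_of_nonneg_left hb hC.le
      _ ≤ 16 * C * (M / (h * Real.log N)) := by nlinarith

end Pool.Agent.Lib.MP391708.X
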