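import Pool.Agent.Lib.MP_391708_nt.X.SpecCEL

/-!
# THEOREM X (MP_391708), part CEL, module CELS: the sums `S4` and `S2` (helper94)
-/

set_option autoImplicit false

namespace Pool.Agent.Lib.MP391708.X

open Finset Filter Topology Pool.Agent.Lib.MP391708.MR
open scoped ComplexConjugate

namespace CELSM

theorem ev_M2 (cT cP : ℝ) : ∀ᶠ N : ℝ in atTop,
    N ^ (1 / 3 : ℝ) ≤ Real.sqrt N * Real.log N ^ cT / (16 * Real.log N ^ cP) := by
  have h1 : Tendsto (fun N : ℝ => Real.log N ^ (cP - cT) / N ^ (1 / 6 : ℝ)) atTop (𝓝 0) :=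
    (isLittleO_log_rpow_rpow_atTop (cP - cT) (by norm_num : (0 : ℝ) < 1 / 6)).tendsto_div_nhds_zero
  have h2 : ∀ᶠ N : ℝ in atTop, Real.log N ^ (cP - cT) / N ^ (1 / 6 : ℝ) < 1 / 16 :=
    h1.eventually_lt_const (by norm_num)
  filter_upwards [h2, eventually_gt_atTop (1 : ℝ)] with N hN hN1
  have hN0 : 0 < N := by linarith
  have hl : 0 < Real.log N := Real.log_pos hN1
  have hp : 0 < N ^ (1 / 6 : ℝ) := Real.rpow_pos_of_pos hN0 _
  have hT : 0 < Real.log N ^ cT := Real.rpow_pos_of_pos hl _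
  have hP : 0 < Real.log N ^ cP := Real.rpow_pos_of_pos hl _
  have e1 : Real.log N ^ (cP - cT) = Real.log N ^ cP / Real.log N ^ cT := Real.rpow_sub hl _ _
  have e2 : Real.sqrt N = N ^ (1 / 3 : ℝ) * N ^ (1 / 6 : ℝ) := by
    rw [Real.sqrt_eq_rpow, ← Real.rpow_add hN0]
    norm_num
  have h3 : Real.log N ^ cP / Real.log N ^ cT * 16 ≤ N ^ (1 / 6 : ℝ) := by
    rw [div_lt_iff₀ hp, e1] at hN
    linarith
  have h4 : 16 * Real.log N ^ cP ≤ N ^ (1 / 6 : ℝ) * Real.log N ^ cT := by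
    have := mul_le_mul_of_nonneg_right h3 hT.le
    calc 16 * Real.log N ^ cP = Real.log N ^ cP / Real.log N ^ cT * 16 * Real.log N ^ cT := by
          field_simp
      _ ≤ _ := this
  rw [le_div_iff₀ (by positivity), e2]
  calc N ^ (1 / 3 : ℝ) * (16 * Real.log N ^ cP)
      ≤ N ^ (1 / 3 : ℝ) * (N ^ (1 / 6 : ℝ) * Real.log N ^ cT) :=
        mul_le_mul_of_nonneg_left h4 (Real.rpow_nonneg hN0.le _)
    _ = _ := by ring

end CELSM

/-- **CELS**: the sums `S4` and `S2`. -/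
theorem specCELS (hCELB : SpecCELB) : SpecCELS := by
  obtain ⟨C, hC, h⟩ := hCELB
  refine ⟨16 * C, by positivity, ?_⟩
  intro cT cP ch cw aQ aU hch
  filter_upwards [h ch aQ aU hch, CELSM.ev_M2 cT cP, eventually_ge_atTop (1 : ℝ)] with N hN h2 h1
  have hM4 : N ^ (1 / 3 : ℝ) ≤ (par N cT cP ch cw).M4 := by
    show N ^ (1 / 3 : ℝ) ≤ Real.sqrt N
    rw [Real.sqrt_eq_rpow]
    exact Real.rpow_le_rpow_of_exponent_le h1 (by norm_num)
  have hM2 : N ^ (1 / 3 : ℝ) ≤ (par N cT cP ch cw).M2 := h2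
  refine ⟨hM4, hM2, ?_⟩
  intro F U hF hU v
  have a4 := (hN F U hF hU (par N cT cP ch cw).M4 v hM4).2.1
  have a2 := (hN F U hF hU (par N cT cP ch cw).M2 v hM2).2.1
  constructor
  · refine le_trans a4 ?_
    exact mul_le_mul_of_nonneg_right (by linarith) (sq_nonneg _)
  · have e : ∀ i : Ix, ‖S2 (par N cT cP ch cw) i v‖ ^ 2 =
        16 * ‖∑ π ∈ cell (Real.log N ^ ch) (par N cT cP ch cw).M2 (2 * (par N cT cP ch cw).M2) v,
          psi i π‖ ^ 2 := by
      intro i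
      show ‖4 * ∑ π ∈ cell (Real.log N ^ ch) (par N cT cP ch cw).M2
        (2 * (par N cT cP ch cw).M2) v, psi i π‖ ^ 2 = _
      rw [norm_mul, mul_pow]
      norm_num
    rw [Finset.sum_congr rfl fun i _ => e i, ← Finset.mul_sum, mul_assoc]
    exact mul_le_mul_of_nonneg_left a2 (by norm_num)

end Pool.Agent.Lib.MP391708.X
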