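import Pool.Agent.Lib.MP_391708_nt.X.SpecCEL

/-!
# THEOREM X (MP_391708), module KSB (helper50): the coefficients and the sup bound of the model
-/

set_option autoImplicit false

namespace Pool.Agent.Lib.MP391708.X

open Finset Filter Topology Pool.Agent.Lib.MP391708.MR
open scoped ComplexConjugate

namespace KSBM

theorem cell_lt {h M M' : ℝ} (hh : 0 < h) {v : ℕ} {π : Gi} (hM : 0 < M) (hπ : π ∈ cell h M M' v) :
    M < Real.exp ((v + 1) / h) := by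
  unfold cell GP at hπ
  rw [mem_filter, mem_filter] at hπ
  obtain ⟨⟨-, -, -, -, -, h1⟩, h2⟩ := hπ
  have h3 : h * Real.log (nm π) < v + 1 := by
    rw [← h2]
    exact Nat.lt_floor_add_one _
  have h4 : Real.log (nm π) < (v + 1) / h := by
    rw [lt_div_iff₀ hh, mul_comm]
    exact h3
  exact h1.trans ((Real.log_lt_iff_lt_exp (hM.trans h1)).1 h4)

theorem exp_ge {h M4 M2 : ℝ} (hh : 1 ≤ h) {v4 v2 : ℕ} (h4 : 0 < M4) (h2 : 0 < M2)
    (e4 : M4 < Real.exp ((v4 + 1) / h)) (e2 : M2 < Real.exp ((v2 + 1) / h)) :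
    M4 * M2 / Real.exp 2 ≤ Real.exp (((v4 + v2 : ℕ) : ℝ) / h) := by
  rw [div_le_iff₀ (Real.exp_pos _), ← Real.exp_add]
  have h1 : M4 * M2 ≤ Real.exp ((v4 + 1) / h) * Real.exp ((v2 + 1) / h) :=
    mul_le_mul e4.le e2.le h2.le (Real.exp_pos _).le
  refine h1.trans ?_
  rw [← Real.exp_add, Real.exp_le_exp]
  push_cast
  have h3 : 2 / h ≤ 2 := div_le_self (by norm_num) hh
  have h5 : (v4 + 1) / h + (v2 + 1) / h = (v4 + v2) / h + 2 / h := by ring
  rw [h5]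
  linarith

theorem cs {ι : Type} (U : Finset ι) (a b : ι → ℝ) (A B : ℝ) (hA : 0 ≤ A) (hB : 0 ≤ B)
    (ha0 : ∀ i ∈ U, 0 ≤ a i) (hb0 : ∀ i ∈ U, 0 ≤ b i)
    (C : ℝ) (hC : 0 < C) (ha : ∑ i ∈ U, a i ^ 2 ≤ C * A ^ 2) (hb : ∑ i ∈ U, b i ^ 2 ≤ C * B ^ 2) :
    ∑ i ∈ U, a i * b i ≤ C * (A * B) := by
  have h1 := Finset.sum_mul_sq_le_sq_mul_sq U a b
  have h2 : (∑ i ∈ U, a i * b i) ^ 2 ≤ (C * (A * B)) ^ 2 := by
    refine h1.trans ((mul_le_mul ha hb (Finset.sum_nonneg fun _ _ => sq_nonneg _)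
      (by positivity)).trans (le_of_eq ?_))
    ring
  exact le_of_sq_le_sq h2 (by positivity)

/-- The coefficients. -/
theorem coeff {C c N cT cP ch cw : ℝ} (hC : 0 < C) (hc : 0 < c) (U : Finset Ix)
    (hh : 1 ≤ Real.log N ^ ch) (hL : 1 < Real.log N)
    (hw : 0 < Real.log (Real.log N ^ cw)) (hN : Real.exp 2 ≤ N ^ (1 / 3 : ℝ))
    (h4 : N ^ (1 / 3 : ℝ) ≤ (par N cT cP ch cw).M4) (h2 : N ^ (1 / 3 : ℝ) ≤ (par N cT cP ch cw).M2)
    (hS : ∀ v : ℕ,
      ∑ i ∈ U, ‖S4 (par N cT cP ch cw) i v‖ ^ 2 ≤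
        C * ((par N cT cP ch cw).M4 / (Real.log N ^ ch * Real.log N)) ^ 2 ∧
      ∑ i ∈ U, ‖S2 (par N cT cP ch cw) i v‖ ^ 2 ≤
        C * ((par N cT cP ch cw).M2 / (Real.log N ^ ch * Real.log N)) ^ 2)
    (hR : ∀ j : ℕ, N ^ (1 / 3 : ℝ) ≤ Real.exp (j / Real.log N ^ ch) →
      c * (Real.exp (j / Real.log N ^ ch) / (Real.log N ^ ch * Real.log (Real.log N ^ cw))) ≤
        RR (par N cT cP ch cw) j) (v4 v2 : ℕ) :
    ∑ i ∈ U, ‖cc (par N cT cP ch cw) i v4 v2‖ ≤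
      C * Real.exp 2 / c * (Real.log (Real.log N ^ cw) / (Real.log N ^ ch * Real.log N ^ 2)) := by
  set p := par N cT cP ch cw with hp
  set L := Real.log N with hLd
  set h := L ^ ch with hhd
  set lw := Real.log (L ^ cw) with hlw
  have hh0 : 0 < h := by linarith
  have hL0 : 0 < L := by linarith
  have hE : (0 : ℝ) < Real.exp 2 := Real.exp_pos _
  have hN0 : 0 < N ^ (1 / 3 : ℝ) := hE.trans_le hN
  have hM4 : 0 < p.M4 := hN0.trans_le h4
  have hM2 : 0 < p.M2 := hN0.trans_le h2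
  have hRHS : 0 ≤ C * Real.exp 2 / c * (lw / (h * L ^ 2)) := by positivity
  by_cases e4 : cell p.h p.M4 (2 * p.M4) v4 = ∅
  · refine (le_of_eq ?_).trans hRHS
    refine Finset.sum_eq_zero fun i _ => ?_
    unfold cc S4
    rw [e4]
    simp
  by_cases e2 : cell p.h p.M2 (2 * p.M2) v2 = ∅
  · refine (le_of_eq ?_).trans hRHS
    refine Finset.sum_eq_zero fun i _ => ?_
    unfold cc S2
    rw [e2]
    simp
  obtain ⟨π4, hπ4⟩ := Finset.nonempty_iff_ne_empty.2 e4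
  obtain ⟨π2, hπ2⟩ := Finset.nonempty_iff_ne_empty.2 e2
  have g := exp_ge hh hM4 hM2 (cell_lt hh0 hM4 hπ4) (cell_lt hh0 hM2 hπ2)
  have g1 : N ^ (1 / 3 : ℝ) ≤ Real.exp (((v4 + v2 : ℕ) : ℝ) / h) := by
    refine le_trans ?_ g
    rw [le_div_iff₀ hE]
    calc N ^ (1 / 3 : ℝ) * Real.exp 2 ≤ N ^ (1 / 3 : ℝ) * N ^ (1 / 3 : ℝ) :=
          mul_le_mul_of_nonneg_left hN hN0.le
      _ ≤ p.M4 * p.M2 := mul_le_mul h4 h2 hN0.le hM4.le
  have g2 := hR (v4 + v2) g1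
  have g3 : c * (p.M4 * p.M2 / Real.exp 2 / (h * lw)) ≤ RR p (v4 + v2) := by
    refine le_trans ?_ g2
    gcongr
  have hlow : 0 < c * (p.M4 * p.M2 / Real.exp 2 / (h * lw)) := by positivity
  have hRR : 0 < RR p (v4 + v2) := hlow.trans_le g3
  have g4 := cs U (fun i => ‖S4 p i v4‖) (fun i => ‖S2 p i v2‖) (p.M4 / (h * L)) (p.M2 / (h * L))
    (by positivity) (by positivity) (fun _ _ => norm_nonneg _) (fun _ _ => norm_nonneg _) C hC
    (hS v4).1 (hS v2).2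
  have g5 : ∑ i ∈ U, ‖cc p i v4 v2‖ = (∑ i ∈ U, ‖S4 p i v4‖ * ‖S2 p i v2‖) / RR p (v4 + v2) := by
    rw [Finset.sum_div]
    refine Finset.sum_congr rfl fun i _ => ?_
    unfold cc
    rw [norm_div, norm_mul, Complex.norm_real, Real.norm_of_nonneg hRR.le]
  rw [g5, div_le_iff₀ hRR]
  refine g4.trans ?_
  calc C * (p.M4 / (h * L) * (p.M2 / (h * L)))
      = C * Real.exp 2 / c * (lw / (h * L ^ 2)) * (c * (p.M4 * p.M2 / Real.exp 2 / (h * lw))) := by
        field_simp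
    _ ≤ C * Real.exp 2 / c * (lw / (h * L ^ 2)) * RR p (v4 + v2) :=
        mul_le_mul_of_nonneg_left g3 hRHS

theorem card_I4 {N cT cP ch cw : ℝ} (hh : 1 ≤ Real.log N ^ ch) (hM : 1 ≤ (par N cT cP ch cw).M4) :
    ((I4 (par N cT cP ch cw)).card : ℝ) ≤ 3 * Real.log N ^ ch := by
  set p := par N cT cP ch cw with hp
  have e : p.h = Real.log N ^ ch := rfl
  rw [← e] at hh ⊢
  have hM0 : 0 < p.M4 := by linarith
  have l2 : Real.log (2 * p.M4) = Real.log 2 + Real.log p.M4 :=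
    Real.log_mul (by norm_num) hM0.ne'
  have hl2 : Real.log 2 < 1 := by
    have := Real.log_two_lt_d9
    linarith
  have hl20 : 0 < Real.log 2 := Real.log_pos (by norm_num)
  have hlM : 0 ≤ Real.log p.M4 := Real.log_nonneg hM
  unfold I4 VV
  rw [Nat.card_Icc]
  have a1 : (⌊p.h * Real.log (2 * p.M4)⌋₊ : ℝ) ≤ p.h * Real.log (2 * p.M4) :=
    Nat.floor_le (by rw [l2]; positivity)
  have a2 : p.h * Real.log p.M4 < ⌊p.h * Real.log p.M4⌋₊ + 1 := Nat.lt_floor_add_one _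
  have a3 : ⌊p.h * Real.log p.M4⌋₊ ≤ ⌊p.h * Real.log (2 * p.M4)⌋₊ := by
    apply Nat.floor_le_floor
    rw [l2]
    apply mul_le_mul_of_nonneg_left _ (by linarith)
    linarith
  rw [Nat.cast_sub (by omega)]
  push_cast
  have a4 : p.h * Real.log (2 * p.M4) = p.h * Real.log 2 + p.h * Real.log p.M4 := by
    rw [l2]
    ring
  have a5 : p.h * Real.log 2 ≤ p.h * 1 := mul_le_mul_of_nonneg_left hl2.le (by linarith)
  linarith

theorem kap_zero {p : Par} {U : Finset Ix} {v4 v2 : ℕ} {z : Gi}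
    (h : v4 + v2 ≠ ⌊p.h * Real.log (nm z)⌋₊) : kap p U v4 v2 z = 0 := by
  unfold kap
  rw [if_neg]
  rintro ⟨h1, -⟩
  unfold lc at h1
  rw [mem_filter] at h1
  exact h h1.2.symm

theorem Kap_le {p : Par} {U : Finset Ix} {z : Gi} {B : ℝ} (hB : 0 ≤ B)
    (h : ∀ v4 v2, ‖kap p U v4 v2 z‖ ≤ B) : ‖Kap p U z‖ ≤ ((I4 p).card : ℝ) * B := by
  unfold Kap
  refine (norm_sum_le _ _).trans ?_
  rw [← nsmul_eq_mul]
  refine Finset.sum_le_card_nsmul _ _ _ fun v4 _ => ?_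
  by_cases h0 : v4 ≤ ⌊p.h * Real.log (nm z)⌋₊
  · have h1 : ∀ v2 ∈ I2 p, v2 ≠ ⌊p.h * Real.log (nm z)⌋₊ - v4 → kap p U v4 v2 z = 0 := by
      intro v2 _ hne
      exact kap_zero (by omega)
    by_cases h2 : ⌊p.h * Real.log (nm z)⌋₊ - v4 ∈ I2 p
    · rw [Finset.sum_eq_single_of_mem _ h2 h1]
      exact h _ _
    · rw [Finset.sum_eq_zero fun v2 hv => h1 v2 hv fun e => h2 (e ▸ hv), norm_zero]
      exact hB
  · rw [Finset.sum_eq_zero fun v2 _ => kap_zero (by omega), norm_zero]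
    exact hB

theorem small (C cw : ℝ) (hcw : 0 < cw) : ∀ᶠ N : ℝ in atTop,
    C * (Real.log (Real.log N ^ cw) / Real.log N ^ 2) ≤ 1 := by
  have h1 : Tendsto (fun x : ℝ => Real.log x / x ^ (2 : ℝ)) atTop (𝓝 0) :=
    (isLittleO_log_rpow_atTop (by norm_num : (0 : ℝ) < 2)).tendsto_div_nhds_zero
  have h2 := (h1.const_mul (C * cw)).comp Real.tendsto_log_atTop
  rw [mul_zero] at h2
  filter_upwards [h2.eventually (gt_mem_nhds zero_lt_one), Real.tendsto_log_atTop.eventually_ge_atTop 1]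
    with N hN hL
  have hL0 : 0 < Real.log N := by linarith
  rw [Real.log_rpow hL0]
  simp only [Function.comp] at hN
  rw [show (2 : ℝ) = ((2 : ℕ) : ℝ) by norm_num, Real.rpow_natCast] at hN
  calc C * (cw * Real.log (Real.log N) / Real.log N ^ 2)
      = C * cw * (Real.log (Real.log N) / Real.log N ^ 2) := by ring
    _ ≤ 1 := hN.le

end KSBM

open KSBM in
theorem specKSB (hP : SpecPSI) (hS : SpecCELS) (hR : SpecRRL) : SpecKSB := by
  obtain ⟨C, hC, hS⟩ := hS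
  obtain ⟨c, C1, hc, hC1, hR⟩ := hR
  have hE : (0 : ℝ) < Real.exp 2 := Real.exp_pos _
  refine ⟨3 * (C * Real.exp 2 / c), by positivity, fun cT cP ch cw aQ aU hch hcw => ?_⟩
  filter_upwards [hS cT cP ch cw aQ aU hch, hR cT cP ch cw hch hcw,
    small (3 * (C * Real.exp 2 / c)) cw hcw, Real.tendsto_log_atTop.eventually_gt_atTop 1,
    (tendsto_rpow_atTop (by norm_num : (0 : ℝ) < 1 / 3)).eventually_ge_atTop (Real.exp 2)]
    with N hS hR hs hL hN
  obtain ⟨h4, h2, hS⟩ := hS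
  intro F U hF hU
  have hL0 : 0 < Real.log N := by linarith
  have hh : 1 ≤ Real.log N ^ ch := Real.one_le_rpow hL.le (by linarith)
  have hh0 : 0 < Real.log N ^ ch := by linarith
  have hw : 0 < Real.log (Real.log N ^ cw) := by
    rw [Real.log_rpow hL0]
    exact mul_pos hcw (Real.log_pos hL)
  have h1 : ∀ v4 v2 : ℕ, ∑ i ∈ U, ‖cc (par N cT cP ch cw) i v4 v2‖ ≤
      C * Real.exp 2 / c * (Real.log (Real.log N ^ cw) / (Real.log N ^ ch * Real.log N ^ 2)) :=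
    fun v4 v2 => coeff hC hc U hh hL hw hN h4 h2 (hS F U hF hU) (fun j hj => (hR j hj).1) v4 v2
  have hB : 0 ≤ C * Real.exp 2 / c *
      (Real.log (Real.log N ^ cw) / (Real.log N ^ ch * Real.log N ^ 2)) := by positivity
  have h3 : ∀ (v4 v2 : ℕ) (z : Gi), ‖kap (par N cT cP ch cw) U v4 v2 z‖ ≤
      C * Real.exp 2 / c * (Real.log (Real.log N ^ cw) / (Real.log N ^ ch * Real.log N ^ 2)) := by
    intro v4 v2 z
    unfold kap
    split_ifs with hz
    · refine (norm_sum_le _ _).trans ((Finset.sum_le_sum fun i hi => ?_).trans (h1 v4 v2))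
      rw [norm_mul, RCLike.norm_conj]
      exact mul_le_of_le_one_right (norm_nonneg _) ((hP _ _ _ U hU i hi).2.1 z)
    · rw [norm_zero]
      exact hB
  have h5 : ∀ z : Gi, ‖Kap (par N cT cP ch cw) U z‖ ≤
      3 * (C * Real.exp 2 / c) * (Real.log (Real.log N ^ cw) / Real.log N ^ 2) := by
    intro z
    refine (Kap_le hB fun v4 v2 => h3 v4 v2 z).trans ?_
    have hM : 1 ≤ (par N cT cP ch cw).M4 :=
      le_trans (le_trans (Real.one_le_exp (by norm_num)) hN) h4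
    refine (mul_le_mul_of_nonneg_right (card_I4 hh hM) hB).trans (le_of_eq ?_)
    field_simp
  refine ⟨fun v4 v2 => (h1 v4 v2).trans ?_, fun v4 v2 z => (h3 v4 v2 z).trans ?_,
    fun z => ⟨h5 z, (h5 z).trans hs⟩⟩
  all_goals
    refine mul_le_mul_of_nonneg_right ?_ (by positivity)
    have : 0 < C * Real.exp 2 / c := by positivity
    linarith

end Pool.Agent.Lib.MP391708.X
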