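import Pool.Agent.Lib.MP_391708_nt.X.SpecCEL
import Pool.Agent.Lib.MP_391708_nt.MR.Basic

/-!
# THEOREM X (MP_391708), module PSI: elementary facts on the Hecke characters `psi i`
-/

set_option autoImplicit false

namespace Pool.Agent.Lib.MP391708.X

open Finset Filter Topology Pool.Agent.Lib.MP391708.MR
open scoped ComplexConjugate

namespace PSIM

lemma toChi {m : Gi} {χ : Gi → ℂ} (h : ChiG m χ) : Chi χ :=
  ⟨h.one, h.mul, ⟨m, h.ne, h.period, h.supp⟩⟩

lemma xi_norm_le (k : ℤ) (z : Gi) : ‖xi k z‖ ≤ 1 := by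
  by_cases hz : z = 0
  · subst hz
    have h0 : dir (0 : Gi) = 0 := by simp [dir]
    simp only [xi, h0, norm_zpow, norm_zero]
    by_cases hk : k = 0
    · simp [hk]
    · rw [zero_zpow k hk]; exact zero_le_one
  · exact (norm_xi k hz).le

lemma psi_mul {m : Gi} {i : Ix} (h : ChiG m i.2.1) (u v : Gi) : psi i (u * v) = psi i u * psi i v := by
  unfold psi hk
  rw [h.mul, xi_mul]; ring

lemma norm_psi_le {m : Gi} {i : Ix} (h : ChiG m i.2.1) (z : Gi) : ‖psi i z‖ ≤ 1 := by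
  unfold psi hk
  rw [norm_mul]
  exact mul_le_one₀ ((toChi h).norm_le_one z) (norm_nonneg _) (xi_norm_le _ z)

lemma psi_one {m : Gi} {i : Ix} (h : ChiG m i.2.1) : psi i 1 = 1 := by
  unfold psi hk
  rw [h.one, xi_one, mul_one]

lemma psi_unit {m : Gi} {i : Ix} (h : ChiG m i.2.1) (hI : psi i ⟨0, 1⟩ = 1) (u : Gi) (hu : IsUnit u) :
    psi i u = 1 := by
  have h1 := isUnit_iff_nm.1 hu
  have h2 : psi i (-1) = 1 := by
    have : (-1 : Gi) = ⟨0, 1⟩ * ⟨0, 1⟩ := by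
      apply Zsqrtd.ext <;> simp
    rw [this, psi_mul h, hI, one_mul]
  rcases unit_cases h1 with h | h | h | h
  · rw [h]; exact psi_one (by assumption)
  · rw [h]; first | exact h2 | exact hI
  · rw [h]; first | exact h2 | exact hI
  · rw [h]
    have : (⟨0, -1⟩ : Gi) = (-1) * ⟨0, 1⟩ := by
      apply Zsqrtd.ext <;> simp
    rw [this, psi_mul (by assumption), h2, hI, one_mul]

lemma psi_coprime {m : Gi} {i : Ix} (h : ChiG m i.2.1) {z : Gi} (hz : z ≠ 0) (hc : IsCoprime z m) :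
    ‖psi i z‖ = 1 := by
  unfold psi hk
  rw [norm_mul, norm_xi _ hz, mul_one]
  exact (toChi h).norm_eq_one ((h.supp z).2 hc)

lemma nm_cast_nat (f : ℕ) : nm ((f : ℕ) : Gi) = f ^ 2 := by
  unfold nm
  simp only [Zsqrtd.re_natCast, Zsqrtd.im_natCast]
  norm_cast

lemma rgh_coprime {w : ℝ} {z : Gi} {f : ℕ} (hf : 1 ≤ f) (hw : (f : ℝ) ^ 2 ≤ w) (h : rgh w z) :
    IsCoprime z (f : Gi) := by
  refine isCoprime_of_prime_dvd ?_ ?_
  · rintro ⟨-, h2⟩
    have : (f : Gi) ≠ 0 := by exact_mod_cast (by omega : f ≠ 0)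
    exact this h2
  · intro π hπ hz hfπ
    have h1 := h π hπ hz
    have h2 : nm π ∣ nm ((f : ℕ) : Gi) := nm_dvd hfπ
    rw [nm_cast_nat] at h2
    have h3 : nm π ≤ f ^ 2 := Nat.le_of_dvd (by positivity) h2
    have h4 : (nm π : ℝ) ≤ (f : ℝ) ^ 2 := by exact_mod_cast h3
    linarith

end PSIM

open PSIM in
theorem specPSI : SpecPSI := by
  intro Q F W U hU i hi
  obtain ⟨hf, hfQ, hχ⟩ := hU.ch i hi
  have hI := hU.adm i hi
  have hunit := psi_unit hχ hI
  refine ⟨psi_mul hχ, norm_psi_le hχ, psi_one hχ, hunit, ?_, ?_, ?_⟩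
  · rintro z z' ⟨u, hu⟩
    rw [← hu, psi_mul hχ, hunit _ u.isUnit, mul_one]
  · intro z hz hc
    exact psi_coprime hχ hz hc
  · intro w z h1 h2 hz hr
    refine psi_coprime hχ hz (rgh_coprime hf ?_ hr)
    have : (0 : ℝ) ≤ i.1 := Nat.cast_nonneg _
    nlinarith [hfQ]

end Pool.Agent.Lib.MP391708.X
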