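import Pool.Agent.Lib.MP_391708_nt.X.SpecCEL
import Pool.Agent.Lib.MP_391708_nt.X.PSI
import Pool.Agent.Lib.MP_391708_nt.X.CELA
import Pool.Agent.Lib.MP_391708_nt.X.CELB
import Pool.Agent.Lib.MP_391708_nt.X.CELS
import Pool.Agent.Lib.MP_391708_nt.X.KSB
import Pool.Agent.Lib.MP_391708_nt.MR.Basic

/-!
# THEOREM X (MP_391708), part CEL with frequencies up to `N ^ 2`

The statements ORT, CELA, CELB, CELS, KSB of `X/SpecCEL.lean` with `F ≤ N ^ 2` in place of `F ≤ N`, same proofs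
(helper63, helper10, helper32, helper94, helper50).
-/

set_option autoImplicit false

namespace Pool.Agent.Lib.MP391708.X.C2

open Finset Filter Topology Pool.Agent.Lib.MP391708.MR
open scoped ComplexConjugate

/-- ORT, `F ≤ N ^ 2` -/
def SpecORT : Prop := ∃ c : ℝ, 0 < c ∧ c < 1 ∧ ∀ aQ : ℝ, ∀ᶠ N : ℝ in atTop, ∀ (F W : ℝ) (U : Finset Ix),
  F ≤ N ^ 2 → UOK (Real.log N ^ aQ) F W U → ∀ i ∈ U, ∀ j ∈ U, i ≠ j → ∀ Y : ℝ, N ^ (1 / 8 : ℝ) ≤ Y →
    ‖∑ z ∈ disc Y, psi i z * conj (psi j z)‖ ≤ Y ^ (1 - c)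

/-- CELA, `F ≤ N ^ 2` -/
def SpecCELA : Prop := ∃ C : ℝ, 0 < C ∧ ∀ ch aQ aU : ℝ, ∀ᶠ N : ℝ in atTop, ∀ (F : ℝ) (U : Finset Ix),
  F ≤ N ^ 2 → UOK (Real.log N ^ aQ) F (Real.log N ^ aU) U → ∀ (x κ : ℝ) (S : Finset Gi),
  N ^ (1 / 4 : ℝ) ≤ x → Real.log N ^ (-ch) ≤ κ → κ ≤ 1 → S ⊆ GP x (x * Real.exp κ) →
    (∀ a : Gi → ℂ, ∑ i ∈ U, ‖∑ π ∈ S, a π * psi i π‖ ^ 2 ≤ C * κ * x / Real.log N * ∑ π ∈ S, ‖a π‖ ^ 2) ∧
    ∑ i ∈ U, ‖∑ π ∈ S, psi i π‖ ^ 2 ≤ C * (κ * x / Real.log N) ^ 2 ∧ (S.card : ℝ) ≤ C * (κ * x / Real.log N)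

/-- CELB, `F ≤ N ^ 2` -/
def SpecCELB : Prop := ∃ C : ℝ, 0 < C ∧ ∀ ch aQ aU : ℝ, 1 ≤ ch → ∀ᶠ N : ℝ in atTop, ∀ (F : ℝ) (U : Finset Ix),
  F ≤ N ^ 2 → UOK (Real.log N ^ aQ) F (Real.log N ^ aU) U → ∀ (M : ℝ) (v : ℕ), N ^ (1 / 3 : ℝ) ≤ M →
    (∀ a : Gi → ℂ, ∑ i ∈ U, ‖∑ π ∈ cell (Real.log N ^ ch) M (2 * M) v, a π * psi i π‖ ^ 2 ≤
      C * (M / (Real.log N ^ ch * Real.log N)) * ∑ π ∈ cell (Real.log N ^ ch) M (2 * M) v, ‖a π‖ ^ 2) ∧
    ∑ i ∈ U, ‖∑ π ∈ cell (Real.log N ^ ch) M (2 * M) v, psi i π‖ ^ 2 ≤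
      C * (M / (Real.log N ^ ch * Real.log N)) ^ 2 ∧
    ((cell (Real.log N ^ ch) M (2 * M) v).card : ℝ) ≤ C * (M / (Real.log N ^ ch * Real.log N))

/-- CELS, `F ≤ N ^ 2` -/
def SpecCELS : Prop := ∃ C : ℝ, 0 < C ∧ ∀ cT cP ch cw aQ aU : ℝ, 1 ≤ ch → ∀ᶠ N : ℝ in atTop,
  N ^ (1 / 3 : ℝ) ≤ (par N cT cP ch cw).M4 ∧ N ^ (1 / 3 : ℝ) ≤ (par N cT cP ch cw).M2 ∧
  ∀ (F : ℝ) (U : Finset Ix), F ≤ N ^ 2 → UOK (Real.log N ^ aQ) F (Real.log N ^ aU) U → ∀ v : ℕ,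
    ∑ i ∈ U, ‖S4 (par N cT cP ch cw) i v‖ ^ 2 ≤
      C * ((par N cT cP ch cw).M4 / (Real.log N ^ ch * Real.log N)) ^ 2 ∧
    ∑ i ∈ U, ‖S2 (par N cT cP ch cw) i v‖ ^ 2 ≤
      C * ((par N cT cP ch cw).M2 / (Real.log N ^ ch * Real.log N)) ^ 2

/-- KSB, `F ≤ N ^ 2` -/
def SpecKSB : Prop := ∃ C : ℝ, 0 < C ∧ ∀ cT cP ch cw aQ aU : ℝ, 1 ≤ ch → 0 < cw → ∀ᶠ N : ℝ in atTop,
  ∀ (F : ℝ) (U : Finset Ix), F ≤ N ^ 2 → UOK (Real.log N ^ aQ) F (Real.log N ^ aU) U →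
    (∀ v4 v2 : ℕ, ∑ i ∈ U, ‖cc (par N cT cP ch cw) i v4 v2‖ ≤
      C * (Real.log (Real.log N ^ cw) / (Real.log N ^ ch * Real.log N ^ 2))) ∧
    (∀ (v4 v2 : ℕ) (z : Gi), ‖kap (par N cT cP ch cw) U v4 v2 z‖ ≤
      C * (Real.log (Real.log N ^ cw) / (Real.log N ^ ch * Real.log N ^ 2))) ∧
    ∀ z : Gi, ‖Kap (par N cT cP ch cw) U z‖ ≤ C * (Real.log (Real.log N ^ cw) / Real.log N ^ 2) ∧
      ‖Kap (par N cT cP ch cw) U z‖ ≤ 1

/-- **ORT**, `F ≤ N ^ 2` -/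
theorem specORT (hPAR : SpecPAR) : SpecORT := by
  obtain ⟨c, hc, hc1, hev⟩ := hPAR 16 1 (by norm_num) (by norm_num)
  rw [one_mul] at hc1
  refine ⟨c, hc, hc1, fun aQ => ?_⟩
  obtain ⟨x₀, hx₀⟩ := eventually_atTop.1 hev
  have hpow : Tendsto (fun N : ℝ => N ^ (1 / 8 : ℝ)) atTop atTop := tendsto_rpow_atTop (by norm_num)
  have hlog : ∀ᶠ N : ℝ in atTop, Real.log N ^ (2 * aQ) ≤ N ^ (c / 8) := by
    have h := (isLittleO_log_rpow_rpow_atTop (2 * aQ) (by positivity : 0 < c / 8)).bound zero_lt_one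
    filter_upwards [h, eventually_gt_atTop (1 : ℝ)] with N hN hN1
    have h1 : 0 ≤ Real.log N ^ (2 * aQ) := Real.rpow_nonneg (Real.log_nonneg hN1.le) _
    have h2 : 0 ≤ N ^ (c / 8) := Real.rpow_nonneg (by linarith) _
    rwa [one_mul, Real.norm_of_nonneg h1, Real.norm_of_nonneg h2] at hN
  filter_upwards [hlog, hpow.eventually_ge_atTop x₀, eventually_gt_atTop (1 : ℝ)] with N hN hNx hN1
  intro F W U hF hU i hi j hj hij Y hY
  have hN0 : (0 : ℝ) < N := by linarith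
  have hY0 : 0 < Y := (Real.rpow_pos_of_pos hN0 _).trans_le hY
  have hYN : N ^ 2 ≤ Y ^ (16 : ℝ) := by
    calc N ^ 2 = (N ^ (1 / 8 : ℝ)) ^ (16 : ℝ) := by
          rw [← Real.rpow_mul hN0.le, ← Real.rpow_natCast]; norm_num
      _ ≤ Y ^ (16 : ℝ) := Real.rpow_le_rpow (Real.rpow_nonneg hN0.le _) hY (by norm_num)
  have hcond : ∀ k ∈ U, (nm ((k.1 : ℕ) : Gi) : ℝ) ≤ Y ^ c := by
    intro k hk
    obtain ⟨h1, h2, -⟩ := hU.ch k hk
    have e1 : nm ((k.1 : ℕ) : Gi) = k.1 ^ 2 := by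
      unfold nm
      simp only [Zsqrtd.re_natCast, Zsqrtd.im_natCast]
      norm_cast
    rw [e1]; push_cast
    have hl : 0 ≤ Real.log N := Real.log_nonneg hN1.le
    calc (k.1 : ℝ) ^ 2 ≤ (Real.log N ^ aQ) ^ 2 := by
          gcongr
      _ = Real.log N ^ (2 * aQ) := by
          rw [← Real.rpow_natCast, ← Real.rpow_mul hl]; congr 1; push_cast; ring
      _ ≤ N ^ (c / 8) := hN
      _ = (N ^ (1 / 8 : ℝ)) ^ c := by
          rw [← Real.rpow_mul hN0.le]; congr 1; ring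
      _ ≤ Y ^ c := Real.rpow_le_rpow (Real.rpow_nonneg hN0.le _) hY hc.le
  have hfr : ∀ k ∈ U, |(k.2.2 : ℝ)| ≤ Y ^ (16 : ℝ) := fun k hk => ((hU.frq k hk).trans hF).trans hYN
  have h := hx₀ Y (hNx.trans hY) ((i.1 : ℕ) : Gi) ((j.1 : ℕ) : Gi) i.2.1 j.2.1 i.2.2 j.2.2
    (hU.ch i hi).2.2 (hU.ch j hj).2.2 (hcond i hi) (hcond j hj) (hfr i hi) (hfr j hj)
    (hU.dif i hi j hj hij) 1 one_ne_zero 0 Y le_rfl hY0.le le_rfl (disc Y) (fun z => by
      rw [mem_disc, mem_ann]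
      constructor
      · rintro ⟨h1, h2⟩
        exact ⟨⟨h1, nm_posR h1, h2⟩, one_dvd _⟩
      · rintro ⟨⟨h1, h2, h3⟩, -⟩
        exact ⟨h1, h3⟩)
  simpa [psi, one_mul] using h

open CELAM in
/-- **CELA**, `F ≤ N ^ 2` -/
theorem specCELA (hPSI : SpecPSI) (hORT : SpecORT) (hHML : XH.SpecHML) (hHMC : XH.SpecHMC)
    (hBTG : XH.SpecBTG) : SpecCELA := by
  obtain ⟨c, hc, hc1, hO⟩ := hORT
  obtain ⟨C1, c1, hC1, hcc1, hH⟩ := hHML c hc hc1
  obtain ⟨C2, c2, hC2, hcc2, hM⟩ := hHMC c hc hc1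
  obtain ⟨C3, hC3, hB⟩ := hBTG
  obtain ⟨x1, hx1⟩ := eventually_atTop.1 hH
  obtain ⟨x2, hx2⟩ := eventually_atTop.1 hM
  obtain ⟨x3, hx3⟩ := eventually_atTop.1 hB
  set e : ℝ := min (min c1 c2) (1 / 10) with he
  have he0 : 0 < e := lt_min (lt_min hcc1 hcc2) (by norm_num)
  have he1 : e ≤ c1 := (min_le_left _ _).trans (min_le_left _ _)
  have he2 : e ≤ c2 := (min_le_left _ _).trans (min_le_right _ _)
  have he3 : e ≤ 1 / 10 := min_le_right _ _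
  refine ⟨4 * C1 + 16 * C2 + 4 * C3, by positivity, fun ch aQ aU => ?_⟩
  have hpow : Tendsto (fun N : ℝ => N ^ (1 / 4 : ℝ)) atTop atTop := tendsto_rpow_atTop (by norm_num)
  filter_upwards [hO aQ, log_le ch e he0, log_le aU e he0, hpow.eventually_ge_atTop x1,
    hpow.eventually_ge_atTop x2, hpow.eventually_ge_atTop x3, eventually_gt_atTop (1 : ℝ)]
    with N hON hNch hNaU hN1 hN2 hN3 hN
  intro F U hF hU x κ S hx hκ hκ1 hS
  have hN0 : 0 < N := by linarith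
  have hlN : 0 < Real.log N := Real.log_pos hN
  have hNq1 : 1 < N ^ (1 / 4 : ℝ) := Real.one_lt_rpow hN (by norm_num)
  have hNq0 : 0 < N ^ (1 / 4 : ℝ) := by linarith
  have hx1' : 1 < x := hNq1.trans_le hx
  have hx0 : 0 < x := by linarith
  -- the logarithm
  have hlx : Real.log N / 4 ≤ Real.log x := by
    have h := Real.log_le_log hNq0 hx
    rw [Real.log_rpow hN0] at h
    linarith
  have hlx0 : 0 < Real.log x := by linarith
  -- the size of `κ`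
  have hκe : x ^ (-e) ≤ κ := by
    calc x ^ (-e) ≤ (N ^ (1 / 4 : ℝ)) ^ (-e) :=
          Real.rpow_le_rpow_of_nonpos hNq0 hx (by linarith)
      _ = (N ^ (e / 4))⁻¹ := by
          rw [← Real.rpow_mul hN0.le, ← Real.rpow_neg hN0.le]; congr 1; ring
      _ ≤ (Real.log N ^ ch)⁻¹ := by
          apply inv_anti₀ (Real.rpow_pos_of_pos hlN _) hNch
      _ = Real.log N ^ (-ch) := by rw [Real.rpow_neg hlN.le]
      _ ≤ κ := hκ
  have hκ' : ∀ d : ℝ, e ≤ d → x ^ (-d) ≤ κ := fun d hd =>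
    (Real.rpow_le_rpow_of_exponent_le hx1'.le (by linarith)).trans hκe
  have hκ0 : 0 < κ := (Real.rpow_pos_of_pos hx0 _).trans_le hκe
  -- the size of `U`
  have hUe : (U.card : ℝ) ≤ x ^ e := by
    calc (U.card : ℝ) ≤ Real.log N ^ aU := hU.card
      _ ≤ N ^ (e / 4) := hNaU
      _ = (N ^ (1 / 4 : ℝ)) ^ e := by
          rw [← Real.rpow_mul hN0.le]; congr 1; ring
      _ ≤ x ^ e := Real.rpow_le_rpow hNq0.le hx he0.le
  have hU' : ∀ d : ℝ, e ≤ d → (U.card : ℝ) ≤ x ^ d := fun d hd =>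
    hUe.trans (Real.rpow_le_rpow_of_exponent_le hx1'.le hd)
  -- the characters
  have hmul : ∀ i ∈ U, ∀ u v, psi i (u * v) = psi i u * psi i v := fun i hi =>
    (hPSI _ _ _ U hU i hi).1
  have hbd : ∀ i ∈ U, ∀ z, ‖psi i z‖ ≤ 1 := fun i hi => (hPSI _ _ _ U hU i hi).2.1
  have hort : ∀ i ∈ U, ∀ j ∈ U, i ≠ j → ∀ Y : ℝ, x ^ (1 / 2 : ℝ) ≤ Y → Y ≤ 3 * x →
      ‖∑ z ∈ disc Y, psi i z * conj (psi j z)‖ ≤ Y ^ (1 - c) := by
    intro i hi j hj hij Y hY _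
    refine hON F _ U hF hU i hi j hj hij Y (le_trans ?_ hY)
    calc N ^ (1 / 8 : ℝ) = (N ^ (1 / 4 : ℝ)) ^ (1 / 2 : ℝ) := by
          rw [← Real.rpow_mul hN0.le]; norm_num
      _ ≤ x ^ (1 / 2 : ℝ) := Real.rpow_le_rpow hNq0.le hx (by norm_num)
  -- the quotient
  have hq : κ * x / Real.log x ≤ 4 * (κ * x / Real.log N) := by
    have h0 : 0 < κ * x := by positivity
    have h1 : (Real.log x)⁻¹ ≤ (Real.log N / 4)⁻¹ := inv_anti₀ (by positivity) hlx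
    calc κ * x / Real.log x = κ * x * (Real.log x)⁻¹ := div_eq_mul_inv _ _
      _ ≤ κ * x * (Real.log N / 4)⁻¹ := mul_le_mul_of_nonneg_left h1 h0.le
      _ = 4 * (κ * x / Real.log N) := by
          rw [inv_div]; ring
  have hq0 : 0 ≤ κ * x / Real.log x := by positivity
  have hqN : 0 ≤ κ * x / Real.log N := by positivity
  refine ⟨fun a => ?_, ?_, ?_⟩
  · have h := hx1 x (hN1.trans hx) κ Ix U psi S a (hκ' c1 he1) hκ1 (hU' c1 he1) hmul hbd hort hS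
    have hs : 0 ≤ ∑ π ∈ S, ‖a π‖ ^ 2 := Finset.sum_nonneg fun _ _ => by positivity
    refine h.trans ?_
    refine mul_le_mul_of_nonneg_right ?_ hs
    have e1 : C1 * κ * x / Real.log x = C1 * (κ * x / Real.log x) := by ring
    have e2 : (4 * C1 + 16 * C2 + 4 * C3) * κ * x / Real.log N =
      (4 * C1 + 16 * C2 + 4 * C3) * (κ * x / Real.log N) := by ring
    rw [e1, e2]
    nlinarith [mul_le_mul_of_nonneg_left hq hC1.le, mul_nonneg hC2.le hqN, mul_nonneg hC3.le hqN]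
  · have h := hx2 x (hN2.trans hx) κ Ix U psi S (hκ' c2 he2) hκ1 (hU' c2 he2) hmul hbd hort hS
    refine h.trans ?_
    have e1 : (κ * x / Real.log x) ^ 2 ≤ (4 * (κ * x / Real.log N)) ^ 2 :=
      pow_le_pow_left₀ hq0 hq 2
    calc C2 * (κ * x / Real.log x) ^ 2 ≤ C2 * (4 * (κ * x / Real.log N)) ^ 2 :=
          mul_le_mul_of_nonneg_left e1 hC2.le
      _ = 16 * C2 * (κ * x / Real.log N) ^ 2 := by ring
      _ ≤ (4 * C1 + 16 * C2 + 4 * C3) * (κ * x / Real.log N) ^ 2 := by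
          refine mul_le_mul_of_nonneg_right ?_ (by positivity)
          linarith
  · have h := hx3 x (hN3.trans hx) κ (hκ' (1 / 10) he3) hκ1
    have h1 : (S.card : ℝ) ≤ ((GP x (x * Real.exp κ)).card : ℝ) := by
      exact_mod_cast Finset.card_le_card hS
    have e1 : C3 * κ * x / Real.log x = C3 * (κ * x / Real.log x) := by ring
    rw [e1] at h
    nlinarith [mul_le_mul_of_nonneg_left hq hC3.le, mul_nonneg hC2.le hqN, mul_nonneg hC1.le hqN]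

open CELBM in
/-- **CELB**, `F ≤ N ^ 2` -/
theorem specCELB (hCELA : SpecCELA) : SpecCELB := by
  obtain ⟨C, hC, hA⟩ := hCELA
  refine ⟨16 * C, by positivity, ?_⟩
  intro ch aQ aU hch
  have hlog : Tendsto (fun N : ℝ => Real.log N) atTop atTop := Real.tendsto_log_atTop
  have hpow : Tendsto (fun N : ℝ => N ^ (1 / 12 : ℝ)) atTop atTop :=
    tendsto_rpow_atTop (by norm_num)
  filter_upwards [hA ch aQ aU, hlog.eventually_ge_atTop 2, eventually_gt_atTop 1,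
    hpow.eventually_ge_atTop (Real.exp 1)] with N hN hl2 hN1 hN12
  intro F U hF hU M v hM
  set h : ℝ := Real.log N ^ ch with hh
  have hh2 : 2 ≤ h := by
    calc (2 : ℝ) ≤ Real.log N := hl2
      _ = Real.log N ^ (1 : ℝ) := (Real.rpow_one _).symm
      _ ≤ h := Real.rpow_le_rpow_of_exponent_le (by linarith) hch
  have hh0 : 0 < h := by linarith
  have hlN : 0 < Real.log N := by linarith
  have hN0 : 0 < N := by linarith
  have hM0 : 0 < M := lt_of_lt_of_le (Real.rpow_pos_of_pos hN0 _) hM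
  have hq : 0 ≤ M / (h * Real.log N) := by positivity
  rcases (cell h M (2 * M) v).eq_empty_or_nonempty with he | ⟨π, hπ⟩
  · rw [he]
    refine ⟨fun a => ?_, ?_, ?_⟩
    · simp
    · simp only [sum_empty, norm_zero]
      rw [zero_pow two_ne_zero, sum_const_zero]
      positivity
    · simp only [card_empty, Nat.cast_zero]
      positivity
  obtain ⟨hs1, hs2⟩ := size hh0 rfl rfl hπ
  have hκ0 : 0 < 2 / h := by positivity
  have hκ1 : 2 / h ≤ 1 := by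
    rw [div_le_one hh0]
    exact hh2
  have hx : N ^ (1 / 4 : ℝ) ≤ Real.exp (((v : ℝ) - 1) / h) := by
    refine le_trans ?_ hs1
    have h1 : Real.exp (-1) ≤ Real.exp (-(2 / h)) := Real.exp_le_exp.2 (by linarith)
    have h2 : N ^ (1 / 3 : ℝ) = N ^ (1 / 4 : ℝ) * N ^ (1 / 12 : ℝ) := by
      rw [← Real.rpow_add hN0]
      norm_num
    calc N ^ (1 / 4 : ℝ) = N ^ (1 / 4 : ℝ) * (Real.exp 1 * Real.exp (-1)) := by
          rw [← Real.exp_add]
          simp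
      _ ≤ N ^ (1 / 4 : ℝ) * (N ^ (1 / 12 : ℝ) * Real.exp (-(2 / h))) := by
          apply mul_le_mul_of_nonneg_left _ (Real.rpow_nonneg hN0.le _)
          exact mul_le_mul hN12 h1 (Real.exp_pos _).le (Real.rpow_nonneg hN0.le _)
      _ = N ^ (1 / 3 : ℝ) * Real.exp (-(2 / h)) := by rw [h2]; ring
      _ ≤ M * Real.exp (-(2 / h)) := mul_le_mul_of_nonneg_right hM (Real.exp_pos _).le
  have hk : Real.log N ^ (-ch) ≤ 2 / h := by
    rw [Real.rpow_neg hlN.le, ← hh, div_eq_mul_inv]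
    have : 0 < h⁻¹ := inv_pos.2 hh0
    linarith
  obtain ⟨b1, b2, b3⟩ := hN F U hF hU _ (2 / h) (cell h M (2 * M) v) hx hk hκ1
    (sub hh0 rfl rfl)
  set x : ℝ := Real.exp (((v : ℝ) - 1) / h) with hxdef
  have hx0 : 0 < x := Real.exp_pos _
  have hb : 2 / h * x / Real.log N ≤ 4 * (M / (h * Real.log N)) := by
    rw [div_mul_eq_mul_div, div_div, mul_div_assoc', div_le_div_iff_of_pos_right (by positivity)]
    linarith
  have hb0 : 0 ≤ 2 / h * x / Real.log N := by positivity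
  refine ⟨fun a => ?_, ?_, ?_⟩
  · refine (b1 a).trans ?_
    apply mul_le_mul_of_nonneg_right _ (sum_nonneg fun _ _ => by positivity)
    calc C * (2 / h) * x / Real.log N = C * (2 / h * x / Real.log N) := by ring
      _ ≤ C * (4 * (M / (h * Real.log N))) := mul_le_mul_of_nonneg_left hb hC.le
      _ ≤ 16 * C * (M / (h * Real.log N)) := by nlinarith
  · refine b2.trans ?_
    calc C * (2 / h * x / Real.log N) ^ 2 ≤ C * (4 * (M / (h * Real.log N))) ^ 2 := by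
          gcongr
      _ = 16 * C * (M / (h * Real.log N)) ^ 2 := by ring
  · refine b3.trans ?_
    calc C * (2 / h * x / Real.log N) ≤ C * (4 * (M / (h * Real.log N))) :=
          mul_le_mul_of_nonneg_left hb hC.le
      _ ≤ 16 * C * (M / (h * Real.log N)) := by nlinarith

/-- **CELS**, `F ≤ N ^ 2` -/
theorem specCELS (hCELB : SpecCELB) : SpecCELS := by
  obtain ⟨C, hC, h⟩ := hCELB
  refine ⟨16 * C, by positivity, ?_⟩
  intro cT cP ch cw aQ aU hch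
  filter_upwards [h ch aQ aU hch, CELSM.ev_M2 cT cP, eventually_ge_atTop (1 : ℝ)] with N hN h2 h1
  have hM4 : N ^ (1 / 3 : ℝ) ≤ (par N cT cP ch cw).M4 := by
    show N ^ (1 / 3 : ℝ) ≤ Real.sqrt N
    rw [Real.sqrt_eq_rpow]
    exact Real.rpow_le_rpow_of_exponent_le h1 (by norm_num)
  have hM2 : N ^ (1 / 3 : ℝ) ≤ (par N cT cP ch cw).M2 := h2
  refine ⟨hM4, hM2, ?_⟩
  intro F U hF hU v
  have a4 := (hN F U hF hU (par N cT cP ch cw).M4 v hM4).2.1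
  have a2 := (hN F U hF hU (par N cT cP ch cw).M2 v hM2).2.1
  constructor
  · refine le_trans a4 ?_
    exact mul_le_mul_of_nonneg_right (by linarith) (sq_nonneg _)
  · have e : ∀ i : Ix, ‖S2 (par N cT cP ch cw) i v‖ ^ 2 =
        16 * ‖∑ π ∈ cell (Real.log N ^ ch) (par N cT cP ch cw).M2 (2 * (par N cT cP ch cw).M2) v,
          psi i π‖ ^ 2 := by
      intro i
      show ‖4 * ∑ π ∈ cell (Real.log N ^ ch) (par N cT cP ch cw).M2
        (2 * (par N cT cP ch cw).M2) v, psi i π‖ ^ 2 = _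
      rw [norm_mul, mul_pow]
      norm_num
    rw [Finset.sum_congr rfl fun i _ => e i, ← Finset.mul_sum, mul_assoc]
    exact mul_le_mul_of_nonneg_left a2 (by norm_num)

open KSBM in
/-- **KSB**, `F ≤ N ^ 2` -/
theorem specKSB (hP : SpecPSI) (hS : SpecCELS) (hR : SpecRRL) : SpecKSB := by
  obtain ⟨C, hC, hS⟩ := hS
  obtain ⟨c, C1, hc, hC1, hR⟩ := hR
  have hE : (0 : ℝ) < Real.exp 2 := Real.exp_pos _
  refine ⟨3 * (C * Real.exp 2 / c), by positivity, fun cT cP ch cw aQ aU hch hcw => ?_⟩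
  filter_upwards [hS cT cP ch cw aQ aU hch, hR cT cP ch cw hch hcw,
    small (3 * (C * Real.exp 2 / c)) cw hcw, Real.tendsto_log_atTop.eventually_gt_atTop 1,
    (tendsto_rpow_atTop (by norm_num : (0 : ℝ) < 1 / 3)).eventually_ge_atTop (Real.exp 2)]
    with N hS hR hs hL hN
  obtain ⟨h4, h2, hS⟩ := hS
  intro F U hF hU
  have hL0 : 0 < Real.log N := by linarith
  have hh : 1 ≤ Real.log N ^ ch := Real.one_le_rpow hL.le (by linarith)
  have hh0 : 0 < Real.log N ^ ch := by linarith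
  have hw : 0 < Real.log (Real.log N ^ cw) := by
    rw [Real.log_rpow hL0]
    exact mul_pos hcw (Real.log_pos hL)
  have h1 : ∀ v4 v2 : ℕ, ∑ i ∈ U, ‖cc (par N cT cP ch cw) i v4 v2‖ ≤
      C * Real.exp 2 / c * (Real.log (Real.log N ^ cw) / (Real.log N ^ ch * Real.log N ^ 2)) :=
    fun v4 v2 => coeff hC hc U hh hL hw hN h4 h2 (hS F U hF hU) (fun j hj => (hR j hj).1) v4 v2
  have hB : 0 ≤ C * Real.exp 2 / c *
      (Real.log (Real.log N ^ cw) / (Real.log N ^ ch * Real.log N ^ 2)) := by positivity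
  have h3 : ∀ (v4 v2 : ℕ) (z : Gi), ‖kap (par N cT cP ch cw) U v4 v2 z‖ ≤
      C * Real.exp 2 / c * (Real.log (Real.log N ^ cw) / (Real.log N ^ ch * Real.log N ^ 2)) := by
    intro v4 v2 z
    unfold kap
    split_ifs with hz
    · refine (norm_sum_le _ _).trans ((Finset.sum_le_sum fun i hi => ?_).trans (h1 v4 v2))
      rw [norm_mul, RCLike.norm_conj]
      exact mul_le_of_le_one_right (norm_nonneg _) ((hP _ _ _ U hU i hi).2.1 z)
    · rw [norm_zero]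
      exact hB
  have h5 : ∀ z : Gi, ‖Kap (par N cT cP ch cw) U z‖ ≤
      3 * (C * Real.exp 2 / c) * (Real.log (Real.log N ^ cw) / Real.log N ^ 2) := by
    intro z
    refine (Kap_le hB fun v4 v2 => h3 v4 v2 z).trans ?_
    have hM : 1 ≤ (par N cT cP ch cw).M4 :=
      le_trans (le_trans (Real.one_le_exp (by norm_num)) hN) h4
    refine (mul_le_mul_of_nonneg_right (card_I4 hh hM) hB).trans (le_of_eq ?_)
    field_simp
  refine ⟨fun v4 v2 => (h1 v4 v2).trans ?_, fun v4 v2 z => (h3 v4 v2 z).trans ?_,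
    fun z => ⟨h5 z, (h5 z).trans hs⟩⟩
  all_goals
    refine mul_le_mul_of_nonneg_right ?_ (by positivity)
    have : 0 < C * Real.exp 2 / c := by positivity
    linarith

end Pool.Agent.Lib.MP391708.X.C2
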