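import Pool.Agent.Lib.MP_391708_nt.X.SpecCEL
import Pool.Agent.Lib.MP_391708_nt.QPA.CHI
import Pool.Agent.Lib.MP_391708_nt.MR.PG

/-!
# THEOREM X (MP_391708), module GPL: the number of Gaussian primes in an annulus (helper72)
-/

set_option autoImplicit false

namespace Pool.Agent.Lib.MP391708.X

open Finset Filter Topology Pool.Agent.Lib.MP391708.MR
open scoped ComplexConjugate

namespace GPLM

/-- The character modulo 4. -/
noncomputable def chi : DirichletCharacter ℂ 4 := ZMod.χ₄.ringHomComp (Int.castRingHom ℂ)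

lemma chi_one {n : ℕ} (h : n % 4 = 1) : chi (n : ZMod 4) = 1 := by
  unfold chi
  rw [MulChar.ringHomComp_apply, ZMod.χ₄_nat_one_mod_four h]
  simp

lemma chi_three {n : ℕ} (h : n % 4 = 3) : chi (n : ZMod 4) = -1 := by
  unfold chi
  rw [MulChar.ringHomComp_apply, ZMod.χ₄_nat_three_mod_four h]
  simp

lemma chi_ne : chi ≠ 1 := by
  intro h
  have h1 := chi_three (n := 3) rfl
  rw [h] at h1
  have h3 : IsUnit ((3 : ℕ) : ZMod 4) := by
    have : Nat.Coprime 3 4 := by decide
    exact (ZMod.isUnit_iff_coprime 3 4).2 this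
  rw [MulChar.one_apply h3] at h1
  norm_num at h1

lemma chi_two : chi ((2 : ℕ) : ZMod 4) = 0 := by
  apply MulChar.map_nonunit
  intro h
  have := (ZMod.isUnit_iff_coprime 2 4).1 h
  revert this
  decide

/-- The primes `1 mod 4` up to `n`. -/
def F1 (n : ℕ) : Finset ℕ := (Icc 1 n).filter (fun p => p.Prime ∧ p % 4 = 1)

lemma ident (n : ℕ) :
    |(2 * (F1 n).card : ℝ) - ((((Icc 1 n).filter Nat.Prime).card : ℝ) +
      (∑ p ∈ (Icc 1 n).filter Nat.Prime, chi (p : ZMod 4)).re)| ≤ 1 := by
  have e1 : ((F1 n).card : ℝ) =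
      ∑ p ∈ (Icc 1 n).filter Nat.Prime, (if p % 4 = 1 then (1 : ℝ) else 0) := by
    rw [← Finset.sum_filter, Finset.sum_const, nsmul_eq_mul, mul_one]
    congr 2
    ext p
    simp only [F1, mem_filter]
    tauto
  have e2 : (((Icc 1 n).filter Nat.Prime).card : ℝ) =
      ∑ p ∈ (Icc 1 n).filter Nat.Prime, (1 : ℝ) := by simp
  rw [e1, e2, Complex.re_sum, Finset.mul_sum, ← Finset.sum_add_distrib,
    ← Finset.sum_sub_distrib]
  have e3 : ∀ p ∈ (Icc 1 n).filter Nat.Prime,
      (2 * (if p % 4 = 1 then (1 : ℝ) else 0) - (1 + (chi (p : ZMod 4)).re)) =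
      if p = 2 then -1 else 0 := by
    intro p hp
    have hpp := (mem_filter.1 hp).2
    rcases hpp.eq_two_or_odd with h2 | h2
    · rw [if_pos h2, h2, chi_two]
      norm_num
    · have h3 : p ≠ 2 := by
        rintro rfl
        omega
      rw [if_neg h3]
      have h4 : p % 4 = 1 ∨ p % 4 = 3 := by omega
      rcases h4 with h4 | h4
      · rw [if_pos h4, chi_one h4]
        norm_num
      · rw [if_neg (by omega), chi_three h4]
        norm_num
  rw [Finset.sum_congr rfl e3, Finset.sum_ite_eq']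
  split_ifs <;> norm_num

lemma half (h : QPA.SpecPNTAP) (κ : ℝ) (hκ : 0 < κ) : ∃ X₀ : ℝ, ∀ x : ℝ, X₀ ≤ x →
    |(2 * (F1 ⌊x⌋₊).card : ℝ) - x / Real.log x| ≤ κ * x / Real.log x := by
  obtain ⟨X1, h1⟩ := QPA.specPNT h (κ / 3) (by positivity)
  obtain ⟨X2, h2⟩ := QPA.specCHI h 4 chi chi_ne (κ / 3) (by positivity)
  have h3 : Tendsto (fun x : ℝ => x / Real.log x) atTop atTop := by
    have h4 : Tendsto (fun x : ℝ => Real.log x / x) atTop (𝓝 0) := by
      have := Real.isLittleO_log_id_atTop.tendsto_div_nhds_zero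
      exact this
    have h5 : Tendsto (fun x : ℝ => Real.log x / x) atTop (𝓝[>] 0) := by
      rw [tendsto_nhdsWithin_iff]
      refine ⟨h4, ?_⟩
      filter_upwards [eventually_gt_atTop (1 : ℝ)] with x hx
      have := Real.log_pos hx
      exact div_pos this (by linarith)
    refine (h5.inv_tendsto_nhdsGT_zero).congr fun x => ?_
    rw [Pi.inv_apply, inv_div]
  obtain ⟨X3, hX3⟩ := eventually_atTop.1 (h3.eventually_ge_atTop (3 / κ))
  refine ⟨max (max X1 X2) (max X3 2), fun x hx => ?_⟩
  have a1 := h1 x ((le_max_left _ _).trans ((le_max_left _ _).trans hx))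
  have a2 := h2 x ((le_max_right _ _).trans ((le_max_left _ _).trans hx))
  have a3 := hX3 x ((le_max_left _ _).trans ((le_max_right _ _).trans hx))
  have a4 := ident ⌊x⌋₊
  have a5 : 1 ≤ κ / 3 * (x / Real.log x) := by
    rw [div_le_iff₀ hκ] at a3
    linarith
  have a6 := (Complex.abs_re_le_norm _).trans a2
  rw [mul_div_assoc] at a1 a2 a6 ⊢
  rw [abs_le] at *
  constructor <;> linarith [a1.1, a1.2, a4.1, a4.2, a6.1, a6.2]

lemma pm_card {x y : ℕ} (hxy : x ≤ y) :
    ((PG.Pm x y).card : ℝ) = ((F1 y).card : ℝ) - ((F1 x).card : ℝ) := by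
  have h : F1 y = F1 x ∪ PG.Pm x y := by
    ext p
    simp only [F1, PG.Pm, mem_union, mem_filter, mem_Icc, mem_Ioc]
    constructor
    · rintro ⟨⟨h1, h2⟩, h3⟩
      rcases le_or_gt p x with h4 | h4
      · left
        exact ⟨⟨h1, h4⟩, h3⟩
      · right
        exact ⟨⟨h4, h2⟩, h3⟩
    · rintro (⟨⟨h1, h2⟩, h3⟩ | ⟨⟨h1, h2⟩, h3⟩)
      · exact ⟨⟨h1, h2.trans hxy⟩, h3⟩
      · exact ⟨⟨h3.1.one_le, h2⟩, h3⟩
  have hd : Disjoint (F1 x) (PG.Pm x y) := by
    rw [Finset.disjoint_left]
    intro p h1 h2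
    simp only [F1, PG.Pm, mem_filter, mem_Icc, mem_Ioc] at h1 h2
    omega
  rw [h, card_union_of_disjoint hd]
  push_cast
  ring

end GPLM

open GPLM

theorem specGPL (h : QPA.SpecPNTAP) : SpecGPL := by
  intro lam ε hlam hε
  obtain ⟨X₀, hX⟩ := half h (ε / (2 * (lam + 1))) (by positivity)
  have hll : 0 < Real.log lam := Real.log_pos hlam
  filter_upwards [eventually_ge_atTop X₀, eventually_ge_atTop (2 : ℝ),
    Real.tendsto_log_atTop.eventually_ge_atTop (2 * lam * Real.log lam / ε)] with M h1 h2 h3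
  have hM0 : 0 < M := by linarith
  have hlM : 0 < Real.log M := Real.log_pos (by linarith)
  have hMl : M ≤ lam * M := by nlinarith
  have hlo : Real.log (lam * M) = Real.log lam + Real.log M :=
    Real.log_mul (by linarith) (by linarith)
  have hlL : 0 < Real.log (lam * M) := by rw [hlo]; positivity
  have b1 := hX M h1
  have b2 := hX (lam * M) (h1.trans hMl)
  have hcard : ((GP M (lam * M)).card : ℝ) =
      2 * ((F1 ⌊lam * M⌋₊).card : ℝ) - 2 * ((F1 ⌊M⌋₊).card : ℝ) := by
    have h4 := PG.gp_sum (P := M) (Q := lam * M) hM0.le (fun _ => (1 : ℝ))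
    rw [sum_const, Finset.sum_nsmul, sum_const, nsmul_eq_mul, nsmul_eq_mul, nsmul_eq_mul,
      mul_one, mul_one] at h4
    rw [h4, pm_card (Nat.floor_mono hMl)]
    push_cast
    ring
  rw [hcard]
  -- the main terms
  have c1 : |lam * M / Real.log (lam * M) - lam * M / Real.log M| ≤ ε / 2 * (M / Real.log M) := by
    have e : lam * M / Real.log (lam * M) - lam * M / Real.log M =
        -(lam * M * Real.log lam / (Real.log M * Real.log (lam * M))) := by
      rw [div_sub_div _ _ hlL.ne' hlM.ne', hlo, ← neg_div]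
      have e1 : (Real.log lam + Real.log M) * Real.log M =
        Real.log M * (Real.log lam + Real.log M) := by ring
      rw [e1]
      congr 1
      ring
    rw [e, abs_neg, abs_of_nonneg (by positivity)]
    have h5 : Real.log M ≤ Real.log (lam * M) := by rw [hlo]; linarith
    have h6 : lam * M * Real.log lam / (Real.log M * Real.log (lam * M)) ≤
        lam * M * Real.log lam / (Real.log M * Real.log M) := by
      gcongr
    refine h6.trans ?_
    rw [div_le_iff₀ hε] at h3
    have h7 : lam * M * Real.log lam / (Real.log M * Real.log M) =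
        (lam * Real.log lam / Real.log M) * (M / Real.log M) := by
      field_simp
    rw [h7]
    have h8 : lam * Real.log lam / Real.log M ≤ ε / 2 := by
      rw [div_le_iff₀ hlM]
      linarith
    gcongr
  have c2 : lam * M / Real.log (lam * M) ≤ lam * M / Real.log M := by
    have h5 : Real.log M ≤ Real.log (lam * M) := by rw [hlo]; linarith
    gcongr
  have c3 : ε / (2 * (lam + 1)) * (lam * M) / Real.log (lam * M) ≤
      ε / (2 * (lam + 1)) * (lam * (M / Real.log M)) := by
    rw [mul_div_assoc, ← mul_div_assoc lam]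
    gcongr
  have c4 : ε / (2 * (lam + 1)) * M / Real.log M = ε / (2 * (lam + 1)) * (M / Real.log M) := by
    rw [mul_div_assoc]
  have c5 : ε / (2 * (lam + 1)) * (lam * (M / Real.log M)) +
      ε / (2 * (lam + 1)) * (M / Real.log M) = ε / 2 * (M / Real.log M) := by
    field_simp
  have c6 : (lam - 1) * M / Real.log M = lam * M / Real.log M - M / Real.log M := by
    rw [sub_mul, one_mul, sub_div]
  have c7 : ε * M / Real.log M = ε / 2 * (M / Real.log M) + ε / 2 * (M / Real.log M) := by
    rw [mul_div_assoc]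
    ring
  rw [c6, c7]
  rw [c4] at b1
  have b2' := b2.trans c3
  rw [abs_le] at *
  constructor <;> linarith [b1.1, b1.2, b2'.1, b2'.2, c1.1, c1.2]

end Pool.Agent.Lib.MP391708.X
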