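import Pool.Agent.Lib.MP_391708_nt.X.SpecHML

/-!
# THEOREM X (MP_391708), module HMC: the case `a = 1` (helper77)
-/

set_option autoImplicit false

namespace Pool.Agent.Lib.MP391708.XH

open Finset Filter Topology Pool.Agent.Lib.MP391708.MR
open scoped ComplexConjugate

/-- **HMC**. -/
theorem specHMC (hHML : SpecHML) (hBTG : SpecBTG) : SpecHMC := by
  intro c hc hc1
  obtain ⟨C1, c1, hC1, hc1p, h1⟩ := hHML c hc hc1
  obtain ⟨C2, hC2, h2⟩ := hBTG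
  refine ⟨C1 * C2, min c1 (1 / 10), mul_pos hC1 hC2, lt_min hc1p (by norm_num), ?_⟩
  filter_upwards [h1, h2, eventually_gt_atTop (1 : ℝ)] with x hx1 hx2 hx κ ι U ψ S hκ hκ1 hU hm hb ho hS
  have hx1' : (1 : ℝ) ≤ x := hx.le
  have hlog : 0 < Real.log x := Real.log_pos hx
  have k1 : x ^ (-c1) ≤ κ :=
    (Real.rpow_le_rpow_of_exponent_le hx1' (neg_le_neg (min_le_left _ _))).trans hκ
  have k2 : x ^ (-(1 / 10) : ℝ) ≤ κ :=
    (Real.rpow_le_rpow_of_exponent_le hx1' (neg_le_neg (min_le_right _ _))).trans hκ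
  have kU : (U.card : ℝ) ≤ x ^ c1 :=
    hU.trans (Real.rpow_le_rpow_of_exponent_le hx1' (min_le_left _ _))
  have κ0 : 0 < κ := (Real.rpow_pos_of_pos (by linarith) _).trans_le k1
  have e1 := hx1 κ ι U ψ S (fun _ => 1) k1 hκ1 kU hm hb ho hS
  have e2 := hx2 κ k2 hκ1
  have e3 : (S.card : ℝ) ≤ ((GP x (x * Real.exp κ)).card : ℝ) := by
    exact_mod_cast Finset.card_le_card hS
  have e4 : ∑ π ∈ S, ‖(1 : ℂ)‖ ^ 2 = (S.card : ℝ) := by
    simp
  have e5 : ∑ i ∈ U, ‖∑ π ∈ S, (1 : ℂ) * ψ i π‖ ^ 2 = ∑ i ∈ U, ‖∑ π ∈ S, ψ i π‖ ^ 2 := by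
    refine Finset.sum_congr rfl fun i _ => ?_
    rw [Finset.sum_congr rfl fun π _ => one_mul (ψ i π)]
  rw [← e5]
  refine e1.trans ?_
  rw [e4]
  have p1 : 0 ≤ C1 * κ * x / Real.log x := by positivity
  calc C1 * κ * x / Real.log x * (S.card : ℝ)
      ≤ C1 * κ * x / Real.log x * (C2 * κ * x / Real.log x) :=
        mul_le_mul_of_nonneg_left (e3.trans e2) p1
    _ = C1 * C2 * (κ * x / Real.log x) ^ 2 := by ring

end Pool.Agent.Lib.MP391708.XH
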