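import Pool.Agent.Lib.MP_391708_nt.X.SpecHML
import Pool.Agent.Lib.MP_391708_nt.MR.Basic

/-!
# THEOREM X (MP_391708), module HML: log-free Halász–Montgomery on thin annuli
-/

set_option autoImplicit false

namespace Pool.Agent.Lib.MP391708.XH

open Finset Filter Topology Pool.Agent.Lib.MP391708.MR
open scoped ComplexConjugate

namespace HMLM

lemma ws_nonneg (S : Finset Gi) (lam : Finset Gi → ℝ) (z : Gi) : 0 ≤ ws S lam z := by
  unfold ws; positivity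

/-- the weight is `1` on larger primes -/
lemma ws_prime {P Q x X : ℝ} (lam : Finset Gi → ℝ) (h0 : lam ∅ = 1) (hQ : Q ≤ x) {π : Gi}
    (hπ : π ∈ GP x X) : ws (GP P Q) lam π = 1 := by
  classical
  have h1 : (GP P Q).filter (fun π' => π' ∣ π) = ∅ := by
    rw [Finset.filter_eq_empty_iff]
    intro π' hπ' hd
    have h2 := GP_eq_of_dvd hπ' hπ hd
    have h3 := (mem_GP.1 hπ').2.2.2.2.2
    have h4 := (mem_GP.1 hπ).2.2.2.2.1
    rw [h2] at h4
    linarith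
  unfold ws
  rw [h1]
  simp [h0]

/-- duality -/
lemma duality {ι : Type} (U : Finset ι) (S : Finset Gi) (a : Gi → ℂ) (ψ : ι → Gi → ℂ) {K : ℝ}
    (hK : 0 ≤ K)
    (h : ∀ b : ι → ℂ, ∑ π ∈ S, ‖∑ i ∈ U, b i * ψ i π‖ ^ 2 ≤ K * ∑ i ∈ U, ‖b i‖ ^ 2) :
    ∑ i ∈ U, ‖∑ π ∈ S, a π * ψ i π‖ ^ 2 ≤ K * ∑ π ∈ S, ‖a π‖ ^ 2 := by
  set A : ι → ℂ := fun i => ∑ π ∈ S, a π * ψ i π with hA
  set E : ℝ := ∑ i ∈ U, ‖A i‖ ^ 2 with hE
  have hE0 : 0 ≤ E := Finset.sum_nonneg fun _ _ => by positivity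
  set F : ℝ := ∑ π ∈ S, ‖a π‖ ^ 2 with hF
  have hF0 : 0 ≤ F := Finset.sum_nonneg fun _ _ => by positivity
  have h1 := h (fun i => conj (A i))
  have e1 : ∑ i ∈ U, ‖conj (A i)‖ ^ 2 = E := by
    rw [hE]
    refine Finset.sum_congr rfl fun i _ => ?_
    rw [Complex.norm_conj]
  rw [e1] at h1
  have e2 : (E : ℂ) = ∑ π ∈ S, a π * ∑ i ∈ U, conj (A i) * ψ i π := by
    have : ∀ i ∈ U, ((‖A i‖ ^ 2 : ℝ) : ℂ) = ∑ π ∈ S, a π * (conj (A i) * ψ i π) := by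
      intro i _
      have h2 : ((‖A i‖ ^ 2 : ℝ) : ℂ) = conj (A i) * A i := by
        rw [mul_comm, Complex.mul_conj, Complex.normSq_eq_norm_sq]
      rw [h2]
      conv_lhs => rw [hA]
      simp only
      rw [Finset.mul_sum]
      refine Finset.sum_congr rfl fun π _ => ?_
      ring
    rw [hE, Complex.ofReal_sum, Finset.sum_congr rfl this, Finset.sum_comm]
    refine Finset.sum_congr rfl fun π _ => ?_
    rw [Finset.mul_sum]
  have h3 : E ≤ ∑ π ∈ S, ‖a π‖ * ‖∑ i ∈ U, conj (A i) * ψ i π‖ := by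
    have h4 : ‖(E : ℂ)‖ ≤ ∑ π ∈ S, ‖a π‖ * ‖∑ i ∈ U, conj (A i) * ψ i π‖ := by
      rw [e2]
      refine (norm_sum_le _ _).trans (Finset.sum_le_sum fun π _ => ?_)
      rw [norm_mul]
    rwa [Complex.norm_real, Real.norm_of_nonneg hE0] at h4
  have h5 : (∑ π ∈ S, ‖a π‖ * ‖∑ i ∈ U, conj (A i) * ψ i π‖) ^ 2 ≤ F * (K * E) := by
    refine (Finset.sum_mul_sq_le_sq_mul_sq _ _ _).trans ?_
    gcongr
  have h6 : E ^ 2 ≤ F * (K * E) := by
    refine le_trans ?_ h5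
    gcongr
  rcases eq_or_lt_of_le hE0 with h7 | h7
  · rw [← h7]
    positivity
  · have h8 : E * E ≤ (K * F) * E := by nlinarith
    exact le_of_mul_le_mul_right h8 h7

/-- expansion of the weighted square -/
lemma expand {ι : Type} (U : Finset ι) (A : Finset Gi) (w : Gi → ℝ) (ψ : ι → Gi → ℂ) (b : ι → ℂ)
    {W M : ℝ} (hw : ∀ z, 0 ≤ w z) (hM0 : 0 ≤ M) (hψ : ∀ i ∈ U, ∀ z, ‖ψ i z‖ ≤ 1)
    (hW : ∑ z ∈ A, w z ≤ W)
    (hM : ∀ i ∈ U, ∀ j ∈ U, i ≠ j → ‖∑ z ∈ A, (w z : ℂ) * (ψ i z * conj (ψ j z))‖ ≤ M) :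
    ∑ z ∈ A, w z * ‖∑ i ∈ U, b i * ψ i z‖ ^ 2 ≤ (W + U.card * M) * ∑ i ∈ U, ‖b i‖ ^ 2 := by
  classical
  have e1 : ((∑ z ∈ A, w z * ‖∑ i ∈ U, b i * ψ i z‖ ^ 2 : ℝ) : ℂ) =
      ∑ i ∈ U, ∑ j ∈ U, b i * conj (b j) * ∑ z ∈ A, (w z : ℂ) * (ψ i z * conj (ψ j z)) := by
    rw [Complex.ofReal_sum]
    have h1 : ∀ z ∈ A, ((w z * ‖∑ i ∈ U, b i * ψ i z‖ ^ 2 : ℝ) : ℂ) =
        ∑ i ∈ U, ∑ j ∈ U, b i * conj (b j) * ((w z : ℂ) * (ψ i z * conj (ψ j z))) := by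
      intro z _
      rw [Complex.ofReal_mul, ← Complex.normSq_eq_norm_sq, ← Complex.mul_conj, map_sum,
        Finset.sum_mul_sum, Finset.mul_sum]
      refine Finset.sum_congr rfl fun i _ => ?_
      rw [Finset.mul_sum]
      refine Finset.sum_congr rfl fun j _ => ?_
      rw [map_mul]
      ring
    rw [Finset.sum_congr rfl h1, Finset.sum_comm]
    refine Finset.sum_congr rfl fun i _ => ?_
    rw [Finset.sum_comm]
    refine Finset.sum_congr rfl fun j _ => ?_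
    rw [Finset.mul_sum]
  have h0 : 0 ≤ ∑ z ∈ A, w z * ‖∑ i ∈ U, b i * ψ i z‖ ^ 2 :=
    Finset.sum_nonneg fun z _ => mul_nonneg (hw z) (by positivity)
  have hW0 : 0 ≤ ∑ z ∈ A, w z := Finset.sum_nonneg fun z _ => hw z
  have h2 : ‖((∑ z ∈ A, w z * ‖∑ i ∈ U, b i * ψ i z‖ ^ 2 : ℝ) : ℂ)‖ ≤
      ∑ i ∈ U, ∑ j ∈ U, (‖b i‖ * ‖b j‖) * (if i = j then W else M) := by
    rw [e1]
    refine (norm_sum_le _ _).trans (Finset.sum_le_sum fun i hi => ?_)
    refine (norm_sum_le _ _).trans (Finset.sum_le_sum fun j hj => ?_)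
    rw [norm_mul, norm_mul, Complex.norm_conj]
    refine mul_le_mul_of_nonneg_left ?_ (by positivity)
    split_ifs with h
    · subst h
      refine (norm_sum_le _ _).trans (le_trans ?_ hW)
      refine Finset.sum_le_sum fun z _ => ?_
      rw [norm_mul, norm_mul, Complex.norm_conj, Complex.norm_real, Real.norm_of_nonneg (hw z)]
      have h3 := hψ i hi z
      have h4 : ‖ψ i z‖ * ‖ψ i z‖ ≤ 1 := by nlinarith [norm_nonneg (ψ i z)]
      calc w z * (‖ψ i z‖ * ‖ψ i z‖) ≤ w z * 1 := mul_le_mul_of_nonneg_left h4 (hw z)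
        _ = w z := mul_one _
    · exact hM i hi j hj h
  rw [Complex.norm_real, Real.norm_of_nonneg h0] at h2
  refine h2.trans ?_
  have h3 : ∑ i ∈ U, ∑ j ∈ U, (‖b i‖ * ‖b j‖) * (if i = j then W else M) ≤
      ∑ i ∈ U, ∑ j ∈ U, ((if i = j then W * ‖b i‖ ^ 2 else 0) + M * ((‖b i‖ ^ 2 + ‖b j‖ ^ 2) / 2)) := by
    refine Finset.sum_le_sum fun i hi => Finset.sum_le_sum fun j hj => ?_
    split_ifs with h
    · subst h
      have : 0 ≤ M * ((‖b i‖ ^ 2 + ‖b i‖ ^ 2) / 2) := by positivity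
      nlinarith
    · rw [zero_add]
      have : ‖b i‖ * ‖b j‖ ≤ (‖b i‖ ^ 2 + ‖b j‖ ^ 2) / 2 := by nlinarith [sq_nonneg (‖b i‖ - ‖b j‖)]
      calc ‖b i‖ * ‖b j‖ * M ≤ ((‖b i‖ ^ 2 + ‖b j‖ ^ 2) / 2) * M := by gcongr
        _ = _ := by ring
  refine h3.trans (le_of_eq ?_)
  set E : ℝ := ∑ i ∈ U, ‖b i‖ ^ 2 with hE
  have h4 : ∀ i ∈ U, ∑ j ∈ U, ((if i = j then W * ‖b i‖ ^ 2 else 0) + M * ((‖b i‖ ^ 2 + ‖b j‖ ^ 2) / 2)) =
      W * ‖b i‖ ^ 2 + (M / 2) * (U.card * ‖b i‖ ^ 2 + E) := by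
    intro i hi
    rw [Finset.sum_add_distrib, Finset.sum_ite_eq, if_pos hi, ← Finset.mul_sum, ← Finset.sum_div,
      Finset.sum_add_distrib, Finset.sum_const, nsmul_eq_mul]
    ring
  rw [Finset.sum_congr rfl h4, Finset.sum_add_distrib, ← Finset.mul_sum, ← Finset.mul_sum,
    Finset.sum_add_distrib, ← Finset.mul_sum, Finset.sum_const, nsmul_eq_mul]
  ring

end HMLM

open HMLM in
theorem specHML (hSELZ : SpecSELZ) (hSELX : SpecSELX) : SpecHML := by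
  classical
  obtain ⟨C, c₀, hC, hc0, hc01, hZ⟩ := hSELZ
  intro c hc hc1
  set C' : ℝ := C * (20 / c) * 2 + C + 2 * (max C 1) ^ 2 + 1 with hC'
  refine ⟨C', c / 20, by positivity, by positivity, ?_⟩
  -- growth conditions
  have g1 : ∀ᶠ x : ℝ in atTop, 3 ≤ x := eventually_ge_atTop 3
  have g2 : ∀ᶠ x : ℝ in atTop, (2 : ℝ) ≤ x ^ (c / 20) := by
    have := tendsto_rpow_atTop (show (0 : ℝ) < c / 20 by positivity)
    exact this.eventually_ge_atTop 2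
  have g3 : ∀ᶠ x : ℝ in atTop, 6 * Real.log x ≤ x ^ (c / 20) := by
    have h := isLittleO_log_rpow_atTop (show (0 : ℝ) < c / 20 by positivity)
    have h2 := h.bound (show (0 : ℝ) < 1 / 6 by norm_num)
    filter_upwards [h2, eventually_ge_atTop 1] with x hx hx1
    rw [Real.norm_of_nonneg (Real.log_nonneg hx1), Real.norm_of_nonneg (by positivity)] at hx
    linarith
  filter_upwards [g1, g2, g3] with x hx3 hx2 hxl
  intro κ ι U ψ S a hκ hκ1 hU hmul hb hort hS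
  have hx0 : 0 < x := by linarith
  have hx1 : 1 ≤ x := by linarith
  have hκ0 : 0 < κ := lt_of_lt_of_le (by positivity) hκ
  set y : ℝ := x ^ (c / 20) with hy
  have hy2 : 2 ≤ y := hx2
  have hy1 : 1 ≤ y := by linarith
  obtain ⟨lam, hl0, hl1, hl2, hl3, hl4⟩ := hZ y hy2
  have hlx : 0 < Real.log x := Real.log_pos (by linarith)
  have hly : Real.log y = c / 20 * Real.log x := by rw [hy, Real.log_rpow hx0]
  have hly0 : 0 < Real.log y := by rw [hly]; positivity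
  set x' : ℝ := x * Real.exp κ with hx'
  have hexp1 : 1 ≤ Real.exp κ := Real.one_le_exp hκ0.le
  have hexp3 : Real.exp κ ≤ 3 := by
    calc Real.exp κ ≤ Real.exp 1 := Real.exp_le_exp.2 hκ1
      _ ≤ 3 := by linarith [Real.exp_one_lt_d9]
  have hxx' : x ≤ x' := by rw [hx']; nlinarith
  have hx'3 : x' ≤ 3 * x := by rw [hx']; nlinarith
  have hexpκ : Real.exp κ - 1 ≤ 2 * κ := by
    have h1 := Real.abs_exp_sub_one_sub_id_le (x := κ) (by rw [abs_of_pos hκ0]; exact hκ1)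
    have h2 := (abs_le.1 h1).2
    nlinarith
  have hdiff : x' - x ≤ 2 * κ * x := by
    have : x' - x = x * (Real.exp κ - 1) := by rw [hx']; ring
    rw [this]
    nlinarith
  -- the mass
  set L : ℝ := κ * x / Real.log x with hL
  have hL0 : 0 < L := by positivity
  set W : ℝ := C * (20 / c) * 2 * L + C * (y ^ 2 * (Real.sqrt x' + 1)) with hW
  have hWs : ∑ z ∈ ann x x', ws (GP 3 (y ^ c₀)) lam z ≤ W := by
    refine (hl4 x x' hx0.le hxx').trans ?_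
    rw [hW]
    have h1 : C * (x' - x) / Real.log y ≤ C * (20 / c) * 2 * L := by
      rw [hly, hL]
      rw [div_le_iff₀ (by positivity)]
      have e : C * (20 / c) * 2 * (κ * x / Real.log x) * (c / 20 * Real.log x) = C * (2 * κ * x) := by
        field_simp
      rw [e]
      gcongr
    have h2 : C * y ^ 2 * (Real.sqrt x' + 1) = C * (y ^ 2 * (Real.sqrt x' + 1)) := by ring
    rw [h2]
    linarith
  -- the exponents
  have hlogy : 6 * Real.log x ≤ y := hxl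
  have hrp : ∀ s t : ℝ, x ^ s * x ^ t = x ^ (s + t) := fun s t => (Real.rpow_add hx0 s t).symm
  have hyk : ∀ k : ℕ, y ^ k = x ^ (c / 20 * k) := by
    intro k
    rw [hy, ← Real.rpow_natCast, ← Real.rpow_mul hx0.le]
  have hmono : ∀ s t : ℝ, s ≤ t → x ^ s ≤ x ^ t := fun s t h => Real.rpow_le_rpow_of_exponent_le hx1 h
  have hκL : x ^ (1 - c / 20) ≤ κ * x := by
    have : x ^ (1 - c / 20) = x ^ (-(c / 20)) * x := by
      rw [show (1 : ℝ) - c / 20 = -(c / 20) + 1 by ring, Real.rpow_add hx0, Real.rpow_one]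
    rw [this]
    gcongr
  -- `x^(1 - c/20) ≤ L log x`, `6 log x ≤ y`
  have hbig : ∀ t : ℝ, t ≤ 1 - c / 10 → 6 * x ^ t ≤ L := by
    intro t ht
    rw [hL, le_div_iff₀ hlx]
    calc 6 * x ^ t * Real.log x = x ^ t * (6 * Real.log x) := by ring
      _ ≤ x ^ t * y := by gcongr
      _ = x ^ (t + c / 20) := by rw [hy, hrp]
      _ ≤ x ^ (1 - c / 20) := hmono _ _ (by linarith)
      _ ≤ κ * x := hκL
  have hsq : Real.sqrt x' + 1 ≤ 3 * x ^ (1 / 2 : ℝ) := by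
    have h1 : Real.sqrt x' ≤ Real.sqrt (4 * x) := Real.sqrt_le_sqrt (by linarith)
    have h2 : Real.sqrt (4 * x) = 2 * Real.sqrt x := by
      rw [show (4 : ℝ) * x = 2 ^ 2 * x by ring, Real.sqrt_mul (by norm_num), Real.sqrt_sq (by norm_num)]
    have h3 : 1 ≤ x ^ (1 / 2 : ℝ) := Real.one_le_rpow hx1 (by norm_num)
    rw [h2] at h1
    have h4 : Real.sqrt x = x ^ (1 / 2 : ℝ) := Real.sqrt_eq_rpow x
    rw [← h4] at h3 ⊢
    linarith
  have hW2 : W ≤ (C * (20 / c) * 2 + C) * L := by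
    rw [hW]
    have h1 : y ^ 2 * (Real.sqrt x' + 1) ≤ L := by
      calc y ^ 2 * (Real.sqrt x' + 1) ≤ y ^ 2 * (3 * x ^ (1 / 2 : ℝ)) := by gcongr
        _ = 3 * x ^ (c / 20 * (2 : ℕ) + 1 / 2) := by rw [hyk 2, ← hrp]; ring
        _ ≤ 6 * x ^ (c / 20 * (2 : ℕ) + 1 / 2) := by
            have : 0 ≤ x ^ (c / 20 * (2 : ℕ) + 1 / 2) := by positivity
            linarith
        _ ≤ L := hbig _ (by push_cast; linarith)
    nlinarith
  -- off-diagonal
  set Cm : ℝ := max C 1 with hCm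
  set M : ℝ := 2 * Cm ^ 2 * y ^ 2 * (3 * x) ^ (1 - c) with hM
  have hM0 : 0 ≤ M := by positivity
  have hoff : ∀ i ∈ U, ∀ j ∈ U, i ≠ j →
      ‖∑ z ∈ ann x x', ((ws (GP 3 (y ^ c₀)) lam z : ℝ) : ℂ) * (ψ i z * conj (ψ j z))‖ ≤ M := by
    intro i hi j hj hij
    refine hSELX (GP 3 (y ^ c₀)) lam x x' y ((3 * x) ^ (1 - c)) Cm (fun z => ψ i z * conj (ψ j z))
      ?_ hl1 hy1 (le_max_right _ _) hl2 ?_ ?_ ?_ hx0 hxx' ?_
    · intro π hπ
      have := mem_GP.1 hπ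
      exact ⟨this.1, this.2.1, this.2.2.1⟩
    · refine hl3.trans ?_
      gcongr
      exact le_max_left _ _
    · intro u v
      rw [hmul i hi, hmul j hj, map_mul]
      ring
    · intro z
      rw [norm_mul, Complex.norm_conj]
      have h1 := hb i hi z
      have h2 := hb j hj z
      nlinarith [norm_nonneg (ψ i z), norm_nonneg (ψ j z)]
    · intro Y hY1 hY2
      have h1 : x ^ (1 / 2 : ℝ) ≤ Y := by
        refine le_trans ?_ hY1
        rw [le_div_iff₀ (by positivity), hyk 2, hrp]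
        calc x ^ (1 / 2 + c / 20 * (2 : ℕ)) ≤ x ^ (1 : ℝ) := hmono _ _ (by push_cast; linarith)
          _ = x := Real.rpow_one x
      have hY0 : 0 ≤ Y := le_trans (by positivity) h1
      refine (hort i hi j hj hij Y h1 (hY2.trans hx'3)).trans ?_
      exact Real.rpow_le_rpow hY0 (hY2.trans hx'3) (by linarith)
  have hUM : (U.card : ℝ) * M ≤ 2 * Cm ^ 2 * L := by
    have h3 : (3 * x) ^ (1 - c) ≤ 3 * x ^ (1 - c) := by
      rw [Real.mul_rpow (by norm_num) hx0.le]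
      have : (3 : ℝ) ^ (1 - c) ≤ 3 ^ (1 : ℝ) :=
        Real.rpow_le_rpow_of_exponent_le (by norm_num) (by linarith)
      rw [Real.rpow_one] at this
      gcongr
    calc (U.card : ℝ) * M ≤ y * (2 * Cm ^ 2 * y ^ 2 * (3 * x ^ (1 - c))) := by
          rw [hM]
          gcongr
      _ = 2 * Cm ^ 2 * (3 * (y ^ 3 * x ^ (1 - c))) := by ring
      _ = 2 * Cm ^ 2 * (3 * x ^ (c / 20 * (3 : ℕ) + (1 - c))) := by rw [hyk 3, hrp]
      _ ≤ 2 * Cm ^ 2 * L := by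
          have h4 := hbig (c / 20 * (3 : ℕ) + (1 - c)) (by push_cast; linarith)
          have h5 : 0 ≤ x ^ (c / 20 * (3 : ℕ) + (1 - c)) := by positivity
          have h6 : 3 * x ^ (c / 20 * (3 : ℕ) + (1 - c)) ≤ L := by linarith
          gcongr
  -- conclusion
  have hyx : y ^ c₀ ≤ x := by
    calc y ^ c₀ ≤ y ^ (1 : ℝ) := Real.rpow_le_rpow_of_exponent_le hy1 hc01
      _ = y := Real.rpow_one y
      _ = x ^ (c / 20) := hy
      _ ≤ x ^ (1 : ℝ) := hmono _ _ (by linarith)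
      _ = x := Real.rpow_one x
  have hfin := duality U S a ψ (K := C' * κ * x / Real.log x) (by positivity) ?_
  · exact hfin
  intro b
  have h1 : ∑ π ∈ S, ‖∑ i ∈ U, b i * ψ i π‖ ^ 2 ≤
      ∑ z ∈ ann x x', ws (GP 3 (y ^ c₀)) lam z * ‖∑ i ∈ U, b i * ψ i z‖ ^ 2 := by
    have hsub : S ⊆ ann x x' := by
      intro π hπ
      have h2 := mem_GP.1 (hS hπ)
      rw [mem_ann]
      exact ⟨GP_ne_zero (hS hπ), h2.2.2.2.2.1, h2.2.2.2.2.2⟩
    calc ∑ π ∈ S, ‖∑ i ∈ U, b i * ψ i π‖ ^ 2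
        = ∑ π ∈ S, ws (GP 3 (y ^ c₀)) lam π * ‖∑ i ∈ U, b i * ψ i π‖ ^ 2 := by
          refine Finset.sum_congr rfl fun π hπ => ?_
          rw [ws_prime lam hl0 hyx (hS hπ), one_mul]
      _ ≤ _ := by
          refine Finset.sum_le_sum_of_subset_of_nonneg hsub fun z _ _ => ?_
          exact mul_nonneg (ws_nonneg _ _ _) (by positivity)
  refine h1.trans ?_
  refine (expand U (ann x x') (ws (GP 3 (y ^ c₀)) lam) ψ b (ws_nonneg _ _) hM0 hb hWs hoff).trans ?_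
  have h2 : W + U.card * M ≤ C' * κ * x / Real.log x := by
    have e : C' * κ * x / Real.log x = C' * L := by rw [hL]; ring
    rw [e, hC']
    nlinarith
  have h3 : 0 ≤ ∑ i ∈ U, ‖b i‖ ^ 2 := Finset.sum_nonneg fun _ _ => by positivity
  exact mul_le_mul_of_nonneg_right h2 h3

end Pool.Agent.Lib.MP391708.XH
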