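import Pool.Agent.Lib.MP_391708_nt.X.SpecCEL
import Pool.Agent.Lib.MP_391708_nt.MR.Basic

/-!
# THEOREM X (MP_391708), module ORT: almost orthogonality of the members of an admissible set on discs
-/

set_option autoImplicit false

namespace Pool.Agent.Lib.MP391708.X

open Finset Filter Topology Pool.Agent.Lib.MP391708.MR
open scoped ComplexConjugate

theorem specORT (hPAR : SpecPAR) : SpecORT := by
  obtain ⟨c, hc, hc1, hev⟩ := hPAR 8 1 (by norm_num) (by norm_num)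
  rw [one_mul] at hc1
  refine ⟨c, hc, hc1, fun aQ => ?_⟩
  obtain ⟨x₀, hx₀⟩ := eventually_atTop.1 hev
  have hpow : Tendsto (fun N : ℝ => N ^ (1 / 8 : ℝ)) atTop atTop := tendsto_rpow_atTop (by norm_num)
  have hlog : ∀ᶠ N : ℝ in atTop, Real.log N ^ (2 * aQ) ≤ N ^ (c / 8) := by
    have h := (isLittleO_log_rpow_rpow_atTop (2 * aQ) (by positivity : 0 < c / 8)).bound zero_lt_one
    filter_upwards [h, eventually_gt_atTop (1 : ℝ)] with N hN hN1
    have h1 : 0 ≤ Real.log N ^ (2 * aQ) := Real.rpow_nonneg (Real.log_nonneg hN1.le) _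
    have h2 : 0 ≤ N ^ (c / 8) := Real.rpow_nonneg (by linarith) _
    rwa [one_mul, Real.norm_of_nonneg h1, Real.norm_of_nonneg h2] at hN
  filter_upwards [hlog, hpow.eventually_ge_atTop x₀, eventually_gt_atTop (1 : ℝ)] with N hN hNx hN1
  intro F W U hF hU i hi j hj hij Y hY
  have hN0 : (0 : ℝ) < N := by linarith
  have hY0 : 0 < Y := (Real.rpow_pos_of_pos hN0 _).trans_le hY
  have hYN : N ≤ Y ^ (8 : ℝ) := by
    calc N = (N ^ (1 / 8 : ℝ)) ^ (8 : ℝ) := by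
          rw [← Real.rpow_mul hN0.le]; norm_num
      _ ≤ Y ^ (8 : ℝ) := Real.rpow_le_rpow (Real.rpow_nonneg hN0.le _) hY (by norm_num)
  have hcond : ∀ k ∈ U, (nm ((k.1 : ℕ) : Gi) : ℝ) ≤ Y ^ c := by
    intro k hk
    obtain ⟨h1, h2, -⟩ := hU.ch k hk
    have e1 : nm ((k.1 : ℕ) : Gi) = k.1 ^ 2 := by
      unfold nm
      simp only [Zsqrtd.re_natCast, Zsqrtd.im_natCast]
      norm_cast
    rw [e1]; push_cast
    have hl : 0 ≤ Real.log N := Real.log_nonneg hN1.le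
    calc (k.1 : ℝ) ^ 2 ≤ (Real.log N ^ aQ) ^ 2 := by
          gcongr
      _ = Real.log N ^ (2 * aQ) := by
          rw [← Real.rpow_natCast, ← Real.rpow_mul hl]; congr 1; push_cast; ring
      _ ≤ N ^ (c / 8) := hN
      _ = (N ^ (1 / 8 : ℝ)) ^ c := by
          rw [← Real.rpow_mul hN0.le]; congr 1; ring
      _ ≤ Y ^ c := Real.rpow_le_rpow (Real.rpow_nonneg hN0.le _) hY hc.le
  have hfr : ∀ k ∈ U, |(k.2.2 : ℝ)| ≤ Y ^ (8 : ℝ) := fun k hk => ((hU.frq k hk).trans hF).trans hYN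
  have h := hx₀ Y (hNx.trans hY) ((i.1 : ℕ) : Gi) ((j.1 : ℕ) : Gi) i.2.1 j.2.1 i.2.2 j.2.2
    (hU.ch i hi).2.2 (hU.ch j hj).2.2 (hcond i hi) (hcond j hj) (hfr i hi) (hfr j hj)
    (hU.dif i hi j hj hij) 1 one_ne_zero 0 Y le_rfl hY0.le le_rfl (disc Y) (fun z => by
      rw [mem_disc, mem_ann]
      constructor
      · rintro ⟨h1, h2⟩
        exact ⟨⟨h1, nm_posR h1, h2⟩, one_dvd _⟩
      · rintro ⟨⟨h1, h2, h3⟩, -⟩
        exact ⟨h1, h3⟩)
  simpa [psi, one_mul] using h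

end Pool.Agent.Lib.MP391708.X
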