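import Pool.Agent.Lib.MP_391708_nt.X.SpecCEL
import Pool.Agent.Lib.MP_391708_nt.MR.Basic

/-!
# MP_391708, Theorem X, part CEL, module RRA: rough elements of a lattice cell, asymptotically
-/

set_option autoImplicit false

namespace Pool.Agent.Lib.MP391708.X

open Finset Filter Topology Pool.Agent.Lib.MP391708.MR
open scoped ComplexConjugate

namespace RRAM

lemma VP_nonneg (w : ℝ) : 0 ≤ VP w := by
  classical
  unfold VP
  apply prod_nonneg
  intro π hπ
  have h0 : π ≠ 0 := by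
    unfold PI at hπ
    rw [mem_filter, mem_disc] at hπ
    exact hπ.1.1
  have h1 := one_le_nm h0
  have h2 : 1 / (nm π : ℝ) ≤ 1 := by
    rw [div_le_one (by linarith)]
    exact h1
  linarith

lemma VP_le_one (w : ℝ) : VP w ≤ 1 := by
  classical
  unfold VP
  apply prod_le_one
  · intro π hπ
    have h0 : π ≠ 0 := by
      unfold PI at hπ
      rw [mem_filter, mem_disc] at hπ
      exact hπ.1.1
    have h1 := one_le_nm h0
    have h2 : 1 / (nm π : ℝ) ≤ 1 := by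
      rw [div_le_one (by linarith)]
      exact h1
    linarith
  · intro π hπ
    have : 0 ≤ 1 / (nm π : ℝ) := by positivity
    linarith

/-- the lattice cell is the set of `z` with `a ≤ N(z) < b` -/
lemma mem_lc {h : ℝ} (hh : 0 < h) (j : ℕ) (z : Gi) :
    z ∈ lc h j ↔ z ≠ 0 ∧ Real.exp (j / h) ≤ nm z ∧ (nm z : ℝ) < Real.exp ((j + 1) / h) := by
  unfold lc
  rw [mem_filter, mem_disc]
  have key : z ≠ 0 → (⌊h * Real.log (nm z)⌋₊ = j ↔
      Real.exp (j / h) ≤ nm z ∧ (nm z : ℝ) < Real.exp ((j + 1) / h)) := by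
    intro hz
    have h1 := one_le_nm hz
    have h2 : (0 : ℝ) < nm z := by linarith
    have h3 : 0 ≤ h * Real.log (nm z) := mul_nonneg hh.le (Real.log_nonneg h1)
    rw [Nat.floor_eq_iff h3, ← Real.le_log_iff_exp_le h2, ← Real.log_lt_iff_lt_exp h2,
      div_le_iff₀ hh, lt_div_iff₀ hh, mul_comm h]
  constructor
  · rintro ⟨⟨h1, h2⟩, h3⟩
    exact ⟨h1, (key h1).1 h3⟩
  · rintro ⟨h1, h2, h3⟩
    exact ⟨⟨h1, h3.le⟩, (key h1).2 ⟨h2, h3⟩⟩

/-- integers -/
lemma int_cell (a b : ℝ) (n : ℕ) :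
    (a ≤ n ∧ (n : ℝ) < b) ↔ ((⌈a⌉₊ : ℝ) - 1 < n ∧ (n : ℝ) ≤ (⌈b⌉₊ : ℝ) - 1) := by
  have h1 : a ≤ n ↔ (⌈a⌉₊ : ℝ) - 1 < n := by
    rw [← Nat.ceil_le, sub_lt_iff_lt_add]
    constructor
    · intro h
      have : (⌈a⌉₊ : ℝ) ≤ n := by exact_mod_cast h
      linarith
    · intro h
      have h' : ⌈a⌉₊ < n + 1 := by exact_mod_cast h
      omega
  have h2 : (n : ℝ) < b ↔ (n : ℝ) ≤ (⌈b⌉₊ : ℝ) - 1 := by
    rw [← Nat.lt_ceil, le_sub_iff_add_le]
    constructor
    · intro h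
      exact_mod_cast h
    · intro h
      have h' : n + 1 ≤ ⌈b⌉₊ := by exact_mod_cast h
      omega
  rw [h1, h2]

lemma main (hR : SpecRG0) (cw : ℝ) (hcw : 0 < cw) : ∃ c : ℝ, 0 < c ∧ c < 1 ∧
    ∀ cT cP ch : ℝ, 1 ≤ ch → ∀ᶠ N : ℝ in atTop, ∀ j : ℕ,
    N ^ (1 / 3 : ℝ) ≤ Real.exp (j / Real.log N ^ ch) →
    |RR (par N cT cP ch cw) j - Real.pi * (Real.exp ((j + 1) / Real.log N ^ ch) -
      Real.exp (j / Real.log N ^ ch)) * VP (Real.log N ^ cw)| ≤
        Real.exp (j / Real.log N ^ ch) ^ (1 - c) := by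
  classical
  obtain ⟨c₀, hc0, hc1, hev⟩ := hR (cw + 1) (by linarith)
  refine ⟨c₀ / 2, by linarith, by linarith, ?_⟩
  intro cT cP ch hch
  obtain ⟨x₀, hx₀⟩ := eventually_atTop.1 hev
  have hN3 : Tendsto (fun N : ℝ => N ^ (1 / 3 : ℝ)) atTop atTop := tendsto_rpow_atTop (by norm_num)
  have hbig : ∀ᶠ a : ℝ in atTop, x₀ ≤ a ∧ 7 ≤ a ^ (c₀ / 2) ∧ 1 ≤ a :=
    (eventually_ge_atTop x₀).and (((tendsto_rpow_atTop (by linarith)).eventually_ge_atTop 7).and
      (eventually_ge_atTop 1))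
  obtain ⟨a₀, ha₀⟩ := eventually_atTop.1 hbig
  filter_upwards [hN3.eventually_ge_atTop a₀, eventually_gt_atTop 0,
    Real.tendsto_log_atTop.eventually_ge_atTop 1,
    Real.tendsto_log_atTop.eventually_ge_atTop ((3 : ℝ) ^ (cw + 1))] with N hNa hN0 hL1 hL2
  intro j hj
  set L := Real.log N with hL
  set h := L ^ ch with hh
  have hLpos : 0 < L := by linarith
  have hh1 : 1 ≤ h := Real.one_le_rpow hL1 (by linarith)
  have hhpos : 0 < h := by linarith
  set a := Real.exp (j / h) with ha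
  set b := Real.exp ((j + 1) / h) with hb
  have haN : a₀ ≤ a := hNa.trans hj
  obtain ⟨hax, ha7, ha1⟩ := ha₀ a haN
  have hapos : 0 < a := by linarith
  have hab : a ≤ b := by
    rw [ha, hb]
    apply Real.exp_le_exp.2
    gcongr
    linarith
  have hbpos : 0 < b := by linarith
  have hba : b ≤ 3 * a := by
    have e1 : b = a * Real.exp (1 / h) := by
      rw [ha, hb, ← Real.exp_add]
      congr 1
      ring
    have h1h : 1 / h ≤ 1 := by
      rw [div_le_one hhpos]; exact hh1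
    have h2 : Real.exp (1 / h) ≤ 3 := by
      have h3 := Real.exp_le_exp.2 h1h
      have h4 := Real.exp_one_lt_d9
      linarith
    rw [e1]
    nlinarith
  -- the sifting limit
  have hw : L ^ cw ≤ Real.log b ^ (cw + 1) := by
    have h1 : L / 3 ≤ Real.log b := by
      have h2 : Real.log (N ^ (1 / 3 : ℝ)) ≤ Real.log b :=
        Real.log_le_log (Real.rpow_pos_of_pos hN0 _) (hj.trans hab)
      rw [Real.log_rpow hN0] at h2
      linarith
    have h3 : (L / 3) ^ (cw + 1) ≤ Real.log b ^ (cw + 1) :=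
      Real.rpow_le_rpow (by positivity) h1 (by linarith)
    refine le_trans ?_ h3
    rw [Real.div_rpow hLpos.le (by norm_num), Real.rpow_add hLpos, Real.rpow_one,
      le_div_iff₀ (by positivity)]
    exact mul_le_mul_of_nonneg_left hL2 (by positivity)
  set y : ℝ := (⌈a⌉₊ : ℝ) - 1 with hy
  set y' : ℝ := (⌈b⌉₊ : ℝ) - 1 with hy'
  have hya : y < a := by
    have := Nat.ceil_lt_add_one hapos.le
    rw [hy]; linarith
  have hya' : a - 1 ≤ y := by
    have := Nat.le_ceil a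
    rw [hy]; linarith
  have hyb : y' < b := by
    have := Nat.ceil_lt_add_one hbpos.le
    rw [hy']; linarith
  have hyb' : b - 1 ≤ y' := by
    have := Nat.le_ceil b
    rw [hy']; linarith
  have hy0 : 0 ≤ y := by linarith
  have hyy : y ≤ y' := by
    have : (⌈a⌉₊ : ℝ) ≤ ⌈b⌉₊ := by exact_mod_cast Nat.ceil_le_ceil hab
    rw [hy, hy']; linarith
  have hS : ∀ z, z ∈ (lc h j).filter (rgh (L ^ cw)) ↔ z ∈ ann y y' ∧ rgh (L ^ cw) z := by
    intro z
    rw [mem_filter, mem_lc hhpos, mem_ann, ← ha, ← hb, int_cell a b]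
  have hmain := hx₀ b (hax.trans hab) (L ^ cw) y y' hw hy0 hyy hyb.le _ hS
  have hRR : RR (par N cT cP ch cw) j = (((lc h j).filter (rgh (L ^ cw))).card : ℝ) := by
    unfold RR par
    simp only
    congr!
  rw [hRR]
  have hV0 := VP_nonneg (L ^ cw)
  have hV1 := VP_le_one (L ^ cw)
  have hpi := Real.pi_pos
  have hpi4 := Real.pi_le_four
  have hdiff : |Real.pi * (y' - y) * VP (L ^ cw) - Real.pi * (b - a) * VP (L ^ cw)| ≤ 4 := by
    have e : Real.pi * (y' - y) * VP (L ^ cw) - Real.pi * (b - a) * VP (L ^ cw) =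
        Real.pi * VP (L ^ cw) * ((y' - b) - (y - a)) := by ring
    rw [e, abs_mul, abs_of_nonneg (mul_nonneg hpi.le hV0)]
    have h1 : |(y' - b) - (y - a)| ≤ 1 := by
      rw [abs_le]
      constructor <;> linarith
    have h2 : Real.pi * VP (L ^ cw) ≤ 4 := by nlinarith
    have h3 : 0 ≤ Real.pi * VP (L ^ cw) := mul_nonneg hpi.le hV0
    calc Real.pi * VP (L ^ cw) * |(y' - b) - (y - a)| ≤ 4 * 1 :=
          mul_le_mul h2 h1 (abs_nonneg _) (by norm_num)
      _ = 4 := by norm_num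
  have hfin : |(((lc h j).filter (rgh (L ^ cw))).card : ℝ) - Real.pi * (b - a) * VP (L ^ cw)| ≤
      b ^ (1 - c₀) + 4 := by
    have e : (((lc h j).filter (rgh (L ^ cw))).card : ℝ) - Real.pi * (b - a) * VP (L ^ cw) =
        ((((lc h j).filter (rgh (L ^ cw))).card : ℝ) - Real.pi * (y' - y) * VP (L ^ cw)) +
        (Real.pi * (y' - y) * VP (L ^ cw) - Real.pi * (b - a) * VP (L ^ cw)) := by ring
    rw [e]
    exact (abs_add_le _ _).trans (add_le_add hmain hdiff)
  refine hfin.trans ?_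
  have h1 : b ^ (1 - c₀) ≤ 3 * a ^ (1 - c₀) := by
    calc b ^ (1 - c₀) ≤ (3 * a) ^ (1 - c₀) := Real.rpow_le_rpow hbpos.le hba (by linarith)
      _ = 3 ^ (1 - c₀) * a ^ (1 - c₀) := Real.mul_rpow (by norm_num) hapos.le
      _ ≤ 3 * a ^ (1 - c₀) := by
        apply mul_le_mul_of_nonneg_right _ (by positivity)
        calc (3 : ℝ) ^ (1 - c₀) ≤ 3 ^ (1 : ℝ) :=
              Real.rpow_le_rpow_of_exponent_le (by norm_num) (by linarith)
          _ = 3 := Real.rpow_one _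
  have h2 : (1 : ℝ) ≤ a ^ (1 - c₀) := Real.one_le_rpow ha1 (by linarith)
  have h3 : a ^ (1 - c₀ / 2) = a ^ (1 - c₀) * a ^ (c₀ / 2) := by
    rw [← Real.rpow_add hapos]
    congr 1
    ring
  rw [h3]
  nlinarith

end RRAM

theorem specRRA (hRG0 : SpecRG0) : SpecRRA := fun cw hcw => RRAM.main hRG0 cw hcw

end Pool.Agent.Lib.MP391708.X
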