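import Pool.Agent.Lib.MP_391708_nt.X.SpecCEL
import Pool.Agent.Lib.MP_391708_nt.MR.Basic

/-!
# THEOREM X, module RRL: the number of rough elements of a lattice cell (helper33)
-/

set_option autoImplicit false

namespace Pool.Agent.Lib.MP391708.X

open Finset Filter Topology Pool.Agent.Lib.MP391708.MR

namespace RRLM

open scoped Classical in
/-- the rough elements of the lattice cell -/
noncomputable def SR (h w : ℝ) (j : ℕ) : Finset Gi := (lc h j).filter (rgh w)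

theorem RR_eq (N cT cP ch cw : ℝ) (j : ℕ) :
    RR (par N cT cP ch cw) j = ((SR (Real.log N ^ ch) (Real.log N ^ cw) j).card : ℝ) := rfl

theorem mem_lc {h : ℝ} (hh : 1 ≤ h) (j : ℕ) (z : Gi) :
    z ∈ lc h j ↔ z ≠ 0 ∧ Real.exp (j / h) ≤ (nm z : ℝ) ∧ (nm z : ℝ) < Real.exp ((j + 1) / h) := by
  have h0 : 0 < h := by linarith
  unfold lc
  rw [mem_filter, mem_disc]
  constructor
  · rintro ⟨⟨hz, h1⟩, h2⟩
    have hn : (1 : ℝ) ≤ nm z := one_le_nm hz
    have hn0 : (0 : ℝ) < nm z := by linarith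
    have hl : 0 ≤ h * Real.log (nm z) := mul_nonneg h0.le (Real.log_nonneg hn)
    rw [Nat.floor_eq_iff hl] at h2
    refine ⟨hz, ?_, ?_⟩
    · rw [← Real.le_log_iff_exp_le hn0, div_le_iff₀ h0]
      linarith [h2.1]
    · rw [← Real.log_lt_iff_lt_exp hn0, lt_div_iff₀ h0]
      linarith [h2.2]
  · rintro ⟨hz, h1, h2⟩
    have hn : (1 : ℝ) ≤ nm z := one_le_nm hz
    have hn0 : (0 : ℝ) < nm z := by linarith
    have hl : 0 ≤ h * Real.log (nm z) := mul_nonneg h0.le (Real.log_nonneg hn)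
    rw [← Real.le_log_iff_exp_le hn0, div_le_iff₀ h0] at h1
    have h2' := h2
    rw [← Real.log_lt_iff_lt_exp hn0, lt_div_iff₀ h0] at h2
    refine ⟨⟨hz, h2'.le⟩, ?_⟩
    rw [Nat.floor_eq_iff hl]
    constructor <;> linarith

theorem mem_SR {h w : ℝ} (hh : 1 ≤ h) (j : ℕ) (z : Gi) :
    z ∈ SR h w j ↔ z ∈ ann ((⌈Real.exp (j / h)⌉ : ℝ) - 1) ((⌈Real.exp ((j + 1) / h)⌉ : ℝ) - 1) ∧
      rgh w z := by
  classical
  unfold SR
  rw [mem_filter, mem_lc hh, mem_ann]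
  have e1 : Real.exp (j / h) ≤ (nm z : ℝ) ↔ (⌈Real.exp (j / h)⌉ : ℝ) - 1 < (nm z : ℝ) := by
    constructor
    · intro h1
      have h2 : ⌈Real.exp (j / h)⌉ ≤ ((nm z : ℕ) : ℤ) := Int.ceil_le.2 (by exact_mod_cast h1)
      have h3 : ((⌈Real.exp (j / h)⌉ : ℤ) : ℝ) ≤ (nm z : ℝ) := by exact_mod_cast h2
      linarith
    · intro h1
      have h2 : ((⌈Real.exp (j / h)⌉ : ℤ) : ℝ) < (((nm z : ℕ) : ℤ) : ℝ) + 1 := by
        push_cast
        linarith
      have h3 : ⌈Real.exp (j / h)⌉ < ((nm z : ℕ) : ℤ) + 1 := by exact_mod_cast h2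
      have h4 := Int.ceil_le.1 (Int.lt_add_one_iff.1 h3)
      exact_mod_cast h4
  have e2 : (nm z : ℝ) < Real.exp ((j + 1) / h) ↔
      (nm z : ℝ) ≤ (⌈Real.exp ((j + 1) / h)⌉ : ℝ) - 1 := by
    constructor
    · intro h1
      have h2 : ((nm z : ℕ) : ℤ) < ⌈Real.exp ((j + 1) / h)⌉ := Int.lt_ceil.2 (by exact_mod_cast h1)
      have h3 : ((nm z : ℕ) : ℤ) + 1 ≤ ⌈Real.exp ((j + 1) / h)⌉ := h2
      have h4 : (((nm z : ℕ) : ℤ) : ℝ) + 1 ≤ (⌈Real.exp ((j + 1) / h)⌉ : ℝ) := by exact_mod_cast h3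
      push_cast at h4
      linarith
    · intro h1
      have h2 : (((nm z : ℕ) : ℤ) : ℝ) + 1 ≤ (⌈Real.exp ((j + 1) / h)⌉ : ℝ) := by
        push_cast
        linarith
      have h3 : ((nm z : ℕ) : ℤ) + 1 ≤ ⌈Real.exp ((j + 1) / h)⌉ := by exact_mod_cast h2
      have h4 := Int.lt_ceil.1 (Int.add_one_le_iff.1 h3)
      exact_mod_cast h4
  rw [e1, e2]

/-- the inequalities -/
theorem core {E h lw c1 C1 V RR x D R : ℝ} (hE : 0 < E) (hh : 1 ≤ h) (hlw : 0 < lw)
    (hc1 : 0 < c1) (h1 : E / h ≤ x - E) (h2 : x - E ≤ 2 * (E / h)) (h3 : 2 ≤ E / h)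
    (h4 : c1 / lw ≤ V) (h5 : V ≤ C1 / lw) (h6 : |RR - Real.pi * D * V| ≤ R)
    (h7 : x - E - 1 ≤ D) (h8 : D ≤ x - E + 1) (h9 : R ≤ Real.pi * c1 / 4 * (E / (h * lw)))
    (h10 : R ≤ E / (h * lw)) :
    Real.pi * c1 / 4 * (E / (h * lw)) ≤ RR ∧ RR ≤ (3 * Real.pi * C1 + 1) * (E / (h * lw)) := by
  have hpi := Real.pi_pos
  have h0 : 0 < h := by linarith
  have hEh : E / (h * lw) = (E / h) * (1 / lw) := by
    field_simp
  have hq : 0 < 1 / lw := by positivity
  set q := 1 / lw with hqd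
  set e := E / h with hed
  have g1 : c1 / lw = c1 * q := by rw [hqd]; ring
  have g2 : C1 / lw = C1 * q := by rw [hqd]; ring
  rw [g1] at h4
  rw [g2] at h5
  rw [hEh] at h9 h10 ⊢
  obtain ⟨a1, a2⟩ := abs_le.1 h6
  have hD1 : e / 2 ≤ D := by linarith
  have hD2 : D ≤ 3 * e := by linarith
  have he : 0 < e := by linarith
  have hV0 : 0 < V := lt_of_lt_of_le (by positivity) h4
  have b1 : Real.pi * (e / 2) * (c1 * q) ≤ Real.pi * D * V := by
    apply mul_le_mul _ h4 (by positivity) (mul_nonneg hpi.le (by linarith))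
    exact mul_le_mul_of_nonneg_left hD1 hpi.le
  have b2 : Real.pi * D * V ≤ Real.pi * (3 * e) * (C1 * q) := by
    apply mul_le_mul _ h5 hV0.le (by positivity)
    exact mul_le_mul_of_nonneg_left hD2 hpi.le
  constructor
  · have : Real.pi * (e / 2) * (c1 * q) = 2 * (Real.pi * c1 / 4 * (e * q)) := by ring
    linarith
  · have : Real.pi * (3 * e) * (C1 * q) + e * q = (3 * Real.pi * C1 + 1) * (e * q) := by ring
    linarith

end RRLM

open RRLM in
theorem specRRL (hRG0 : SpecRG0) (hVPL : SpecVPL) : SpecRRL := by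
  obtain ⟨c1, C1, hc1, hC1, hV⟩ := hVPL
  have hpi := Real.pi_pos
  refine ⟨Real.pi * c1 / 4, 3 * Real.pi * C1 + 1, by positivity, by positivity, ?_⟩
  intro cT cP ch cw hch hcw
  obtain ⟨c0, hc0, hc0', hR⟩ := hRG0 (cw + 2) (by linarith)
  obtain ⟨x0, hx0⟩ := eventually_atTop.1 hR
  set δ : ℝ := min 1 (Real.pi * c1 / 4) with hδ
  have hδ0 : 0 < δ := lt_min one_pos (by positivity)
  have hT : Tendsto (fun N : ℝ => N ^ (1 / 3 : ℝ)) atTop atTop := tendsto_rpow_atTop (by norm_num)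
  have hL : Tendsto Real.log atTop atTop := Real.tendsto_log_atTop
  have ev1 := hT.eventually_ge_atTop x0
  have ev2 := ((tendsto_rpow_atTop hcw).comp hL).eventually_ge_atTop (2 : ℝ)
  have ev3 := ((tendsto_pow_atTop (α := ℝ) two_ne_zero).comp hL).eventually_ge_atTop
    ((3 : ℝ) ^ (cw + 2))
  have ev4 := (isLittleO_log_rpow_rpow_atTop ch (show (0 : ℝ) < 1 / 3 by norm_num)).bound
    (show (0 : ℝ) < 1 / 2 by norm_num)
  have ev5 := (isLittleO_log_rpow_rpow_atTop (ch + cw)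
    (show (0 : ℝ) < 1 / 3 * c0 by positivity)).bound (show (0 : ℝ) < δ / 3 by positivity)
  have ev6 := hL.eventually_ge_atTop (1 : ℝ)
  filter_upwards [ev1, ev2, ev3, ev4, ev5, ev6, eventually_gt_atTop (1 : ℝ)] with N h1 h2 h3 h4 h5
    h6 h7 j hj
  have hN0 : (0 : ℝ) < N := by linarith
  set L : ℝ := Real.log N with hLd
  have hL0 : 0 < L := by linarith
  simp only [Function.comp_apply] at h2 h3
  have hLc : (1 : ℝ) ≤ L ^ ch := Real.one_le_rpow h6 (by linarith)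
  have hLc0 : 0 < L ^ ch := by linarith
  rw [Real.norm_of_nonneg (by positivity), Real.norm_of_nonneg (by positivity)] at h4 h5
  set E : ℝ := Real.exp (j / L ^ ch) with hE
  have hE0 : 0 < E := Real.exp_pos _
  set x : ℝ := Real.exp ((j + 1) / L ^ ch) with hx
  have hxE : x = E * Real.exp (1 / L ^ ch) := by
    rw [hx, hE, ← Real.exp_add]
    congr 1
    ring
  have ht0 : 0 < 1 / L ^ ch := by positivity
  have ht1 : 1 / L ^ ch ≤ 1 := by
    rw [div_le_one hLc0]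
    exact hLc
  have hex1 : 1 + 1 / L ^ ch ≤ Real.exp (1 / L ^ ch) := by
    linarith [Real.add_one_le_exp (1 / L ^ ch)]
  have hex2 : Real.exp (1 / L ^ ch) ≤ 1 + 2 * (1 / L ^ ch) := by
    have hb := Real.abs_exp_sub_one_sub_id_le (x := 1 / L ^ ch) (by rw [abs_of_pos ht0]; exact ht1)
    have hb' := (abs_le.1 hb).2
    nlinarith
  have hxE1 : E / L ^ ch ≤ x - E := by
    rw [hxE]
    have := mul_le_mul_of_nonneg_left hex1 hE0.le
    have e : E * (1 + 1 / L ^ ch) = E + E / L ^ ch := by ring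
    linarith
  have hxE2 : x - E ≤ 2 * (E / L ^ ch) := by
    rw [hxE]
    have := mul_le_mul_of_nonneg_left hex2 hE0.le
    have e : E * (1 + 2 * (1 / L ^ ch)) = E + 2 * (E / L ^ ch) := by ring
    linarith
  have hx3 : x ≤ 3 * E := by
    rw [hxE]
    have : Real.exp (1 / L ^ ch) ≤ 3 := by linarith
    nlinarith
  have hEx : E ≤ x := by
    have : 0 ≤ E / L ^ ch := by positivity
    linarith
  have hE2 : 2 ≤ E / L ^ ch := by
    rw [le_div_iff₀ hLc0]
    linarith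
  -- the sifting limit
  have hw2 : (2 : ℝ) ≤ L ^ cw := h2
  have hlw : 0 < Real.log (L ^ cw) := Real.log_pos (by linarith)
  obtain ⟨hV1, hV2⟩ := hV (L ^ cw) hw2
  have hj3 : L / 3 ≤ (j : ℝ) / L ^ ch := by
    have h8 := Real.log_le_log (by positivity) hj
    rw [Real.log_exp, Real.log_rpow hN0] at h8
    rw [← hLd] at h8
    linarith
  have hwx : L ^ cw ≤ Real.log x ^ (cw + 2) := by
    rw [hx, Real.log_exp]
    have h8 : L / 3 ≤ ((j : ℝ) + 1) / L ^ ch := by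
      have : (j : ℝ) / L ^ ch ≤ ((j : ℝ) + 1) / L ^ ch := by
        apply div_le_div_of_nonneg_right _ hLc0.le
        linarith
      linarith
    have h9 := Real.rpow_le_rpow (by positivity) h8 (show 0 ≤ cw + 2 by linarith)
    refine le_trans ?_ h9
    rw [Real.div_rpow hL0.le (by norm_num), le_div_iff₀ (by positivity), Real.rpow_add hL0]
    have e : L ^ (2 : ℝ) = L ^ 2 := by norm_cast
    rw [e]
    exact mul_le_mul_of_nonneg_left h3 (by positivity)
  have hxx0 : x0 ≤ x := le_trans (le_trans h1 hj) hEx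
  -- the counting
  have hc1' : (1 : ℝ) ≤ E := by
    have : (0 : ℝ) ≤ (j : ℝ) / L ^ ch := by positivity
    rw [hE]
    exact Real.one_le_exp this
  have k1 : E ≤ (⌈E⌉ : ℝ) := Int.le_ceil E
  have k2 : (⌈E⌉ : ℝ) < E + 1 := Int.ceil_lt_add_one E
  have k3 : x ≤ (⌈x⌉ : ℝ) := Int.le_ceil x
  have k4 : (⌈x⌉ : ℝ) < x + 1 := Int.ceil_lt_add_one x
  have k5 : (⌈E⌉ : ℝ) ≤ (⌈x⌉ : ℝ) := by exact_mod_cast Int.ceil_le_ceil hEx
  have hcard := hx0 x hxx0 (L ^ cw) ((⌈E⌉ : ℝ) - 1) ((⌈x⌉ : ℝ) - 1) hwx (by linarith)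
    (by linarith) (by linarith) (SR (L ^ ch) (L ^ cw) j) (fun z => mem_SR hLc j z)
  -- the error term
  have hP : L ^ ch * Real.log (L ^ cw) ≤ L ^ (ch + cw) := by
    rw [Real.rpow_add hL0]
    exact mul_le_mul_of_nonneg_left (Real.log_le_self (by positivity)) hLc0.le
  have hR1 : x ^ (1 - c0) ≤ δ * (E / (L ^ ch * Real.log (L ^ cw))) := by
    have q1 : x ^ (1 - c0) ≤ (3 * E) ^ (1 - c0) :=
      Real.rpow_le_rpow (Real.exp_pos _).le hx3 (by linarith)
    have q2 : (3 * E) ^ (1 - c0) = 3 * E / (3 * E) ^ c0 := by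
      rw [Real.rpow_sub (by positivity), Real.rpow_one]
    have q3 : N ^ (1 / 3 * c0) ≤ (3 * E) ^ c0 := by
      rw [Real.rpow_mul hN0.le]
      exact Real.rpow_le_rpow (by positivity) (by linarith) hc0.le
    have hNp : 0 < N ^ (1 / 3 * c0) := by positivity
    have q4 : 3 * E / (3 * E) ^ c0 ≤ 3 * E / N ^ (1 / 3 * c0) :=
      div_le_div_of_nonneg_left (by positivity) hNp q3
    have q5 : 3 * E / N ^ (1 / 3 * c0) ≤ δ * (E / (L ^ ch * Real.log (L ^ cw))) := by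
      have hd : 0 < L ^ ch * Real.log (L ^ cw) := by positivity
      rw [← mul_div_assoc, div_le_div_iff₀ hNp hd]
      have r1 : 3 * (L ^ ch * Real.log (L ^ cw)) ≤ δ * N ^ (1 / 3 * c0) := by
        have := le_trans hP h5
        linarith
      calc 3 * E * (L ^ ch * Real.log (L ^ cw)) = E * (3 * (L ^ ch * Real.log (L ^ cw))) := by ring
        _ ≤ E * (δ * N ^ (1 / 3 * c0)) := mul_le_mul_of_nonneg_left r1 hE0.le
        _ = δ * E * N ^ (1 / 3 * c0) := by ring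
    rw [q2] at q1
    exact q1.trans (q4.trans q5)
  have hpos : 0 ≤ E / (L ^ ch * Real.log (L ^ cw)) := by positivity
  have hA : x ^ (1 - c0) ≤ Real.pi * c1 / 4 * (E / (L ^ ch * Real.log (L ^ cw))) :=
    hR1.trans (mul_le_mul_of_nonneg_right (min_le_right _ _) hpos)
  have hB : x ^ (1 - c0) ≤ E / (L ^ ch * Real.log (L ^ cw)) := by
    have := hR1.trans (mul_le_mul_of_nonneg_right (min_le_left _ _) hpos)
    rwa [one_mul] at this
  rw [RR_eq]
  exact core hE0 hLc hlw hc1 hxE1 hxE2 hE2 hV1 hV2 hcard (by linarith) (by linarith) hA hB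

end Pool.Agent.Lib.MP391708.X
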