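import Pool.Agent.Lib.MP_391708_nt.X.SpecHML

/-!
# THEOREM X (MP_391708), module SELA (helper21): Selberg's weights on the subsets of a finite set
-/

set_option autoImplicit false

namespace Pool.Agent.Lib.MP391708.XH

open Finset Filter Topology Pool.Agent.Lib.MP391708.MR
open scoped ComplexConjugate

namespace SELAM

variable {α : Type} [DecidableEq α]

/-- the product of the `1 / (N i - 1)` -/
noncomputable def ip (N : α → ℝ) (T : Finset α) : ℝ := ∏ i ∈ T, 1 / (N i - 1)

/-- the product of the `N i` -/
noncomputable def nt (N : α → ℝ) (T : Finset α) : ℝ := ∏ i ∈ T, N i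

/-- the sets whose product is at most `y` -/
noncomputable def RR (S : Finset α) (N : α → ℝ) (y : ℝ) : Finset (Finset α) :=
  S.powerset.filter (fun T => ∏ i ∈ T, N i ≤ y)

theorem mem_RR {S : Finset α} {N : α → ℝ} {y : ℝ} {T : Finset α} :
    T ∈ RR S N y ↔ T ⊆ S ∧ nt N T ≤ y := by
  unfold RR nt
  rw [Finset.mem_filter, Finset.mem_powerset]

section
variable {S : Finset α} {N : α → ℝ} {y : ℝ} (hN : ∀ i ∈ S, 2 ≤ N i)
include hN

theorem ip_pos {T : Finset α} (hT : T ⊆ S) : 0 < ip N T := by
  refine Finset.prod_pos fun i hi => ?_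
  have := hN i (hT hi)
  have h : 0 < N i - 1 := by linarith
  positivity

theorem nt_pos {T : Finset α} (hT : T ⊆ S) : 0 < nt N T := by
  refine Finset.prod_pos fun i hi => ?_
  have := hN i (hT hi)
  linarith

theorem nt_mono {T T' : Finset α} (h : T ⊆ T') (hT' : T' ⊆ S) : nt N T ≤ nt N T' := by
  refine Finset.prod_le_prod_of_subset_of_one_le h (fun i hi => ?_) (fun i hi _ => ?_)
  · have := hN i (hT' (h hi))
    linarith
  · have := hN i (hT' hi)
    linarith

theorem RR_down {T T' : Finset α} (h : T ⊆ T') (hT' : T' ∈ RR S N y) : T ∈ RR S N y := by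
  rw [mem_RR] at hT' ⊢
  exact ⟨h.trans hT'.1, (nt_mono hN h hT'.1).trans hT'.2⟩

/-- `N(T) ip(T) = ∑_{D ⊆ T} ip D` -/
theorem nt_mul_ip {T : Finset α} (hT : T ⊆ S) : nt N T * ip N T = ∑ D ∈ T.powerset, ip N D := by
  unfold nt ip
  rw [← Finset.prod_mul_distrib]
  have h1 : ∏ i ∈ T, (N i * (1 / (N i - 1))) = ∏ i ∈ T, (1 + 1 / (N i - 1)) := by
    refine Finset.prod_congr rfl fun i hi => ?_
    have := hN i (hT hi)
    have h : N i - 1 ≠ 0 := by linarith
    field_simp
    ring
  rw [h1, Finset.prod_one_add]

/-- `N(T) ip(T') = ∑_{D ⊆ T} ip (D ∪ (T' \ T))` for `T ⊆ T'` -/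
theorem nt_mul_ip' {T T' : Finset α} (h : T ⊆ T') (hT' : T' ⊆ S) :
    nt N T * ip N T' = ∑ D ∈ T.powerset, ip N (D ∪ (T' \ T)) := by
  have h1 : ip N T' = ip N T * ip N (T' \ T) := by
    unfold ip
    rw [mul_comm, Finset.prod_sdiff h]
  rw [h1, ← mul_assoc, nt_mul_ip hN (h.trans hT'), Finset.sum_mul]
  refine Finset.sum_congr rfl fun D hD => ?_
  have hd : Disjoint D (T' \ T) :=
    Disjoint.mono_left (Finset.mem_powerset.mp hD) Finset.disjoint_sdiff
  unfold ip
  rw [Finset.prod_union hd]

/-- the bound for the weights -/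
theorem bound {T : Finset α} (hT : T ⊆ S) :
    nt N T * ∑ T' ∈ (RR S N y).filter (fun T' => T ⊆ T'), ip N T' ≤ ∑ T' ∈ RR S N y, ip N T' := by
  rw [Finset.mul_sum]
  have h1 : ∀ T' ∈ (RR S N y).filter (fun T' => T ⊆ T'), nt N T * ip N T' =
      ∑ D ∈ T.powerset, ip N (D ∪ (T' \ T)) := by
    intro T' hT'
    rw [Finset.mem_filter] at hT'
    exact nt_mul_ip' hN hT'.2 (mem_RR.mp hT'.1).1
  rw [Finset.sum_congr rfl h1, ← Finset.sum_product']
  have hinj : Set.InjOn (fun p : Finset α × Finset α => p.2 ∪ (p.1 \ T))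
      ((((RR S N y).filter (fun T' => T ⊆ T')) ×ˢ T.powerset : Finset (Finset α × Finset α)) :
        Set (Finset α × Finset α)) := by
    rintro ⟨A, D⟩ hp ⟨A', D'⟩ hp' heq
    simp only [Finset.coe_product, Set.mem_prod, Finset.mem_coe, Finset.mem_filter,
      Finset.mem_powerset] at hp hp'
    obtain ⟨⟨-, hA⟩, hD⟩ := hp
    obtain ⟨⟨-, hA'⟩, hD'⟩ := hp'
    change D ∪ (A \ T) = D' ∪ (A' \ T) at heq
    have key : ∀ i, (i ∈ D ∨ (i ∈ A ∧ i ∉ T)) ↔ (i ∈ D' ∨ (i ∈ A' ∧ i ∉ T)) := by
      intro i
      have := Finset.ext_iff.mp heq i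
      rwa [Finset.mem_union, Finset.mem_union, Finset.mem_sdiff, Finset.mem_sdiff] at this
    have e1 : D = D' := by
      ext i
      have k := key i
      constructor
      · intro hi
        rcases k.mp (Or.inl hi) with h | h
        · exact h
        · exact absurd (hD hi) h.2
      · intro hi
        rcases k.mpr (Or.inl hi) with h | h
        · exact h
        · exact absurd (hD' hi) h.2
    have e2 : A = A' := by
      ext i
      have k := key i
      by_cases hiT : i ∈ T
      · exact ⟨fun _ => hA' hiT, fun _ => hA hiT⟩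
      · constructor
        · intro hi
          rcases k.mp (Or.inr ⟨hi, hiT⟩) with h | h
          · exact absurd (hD' h) hiT
          · exact h.1
        · intro hi
          rcases k.mpr (Or.inr ⟨hi, hiT⟩) with h | h
          · exact absurd (hD h) hiT
          · exact h.1
    rw [e1, e2]
  rw [← Finset.sum_image (f := fun E => ip N E) hinj]
  refine Finset.sum_le_sum_of_subset_of_nonneg ?_ ?_
  · intro E hE
    rw [Finset.mem_image] at hE
    obtain ⟨⟨A, D⟩, hp, rfl⟩ := hE
    rw [Finset.mem_product, Finset.mem_filter, Finset.mem_powerset] at hp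
    refine RR_down hN ?_ hp.1.1
    exact Finset.union_subset (hp.2.trans hp.1.2) Finset.sdiff_subset
  · intro E hE _
    exact (ip_pos hN (mem_RR.mp hE).1).le

/-- the weights -/
theorem sel (hy : 1 ≤ y) :
    ∃ lam : Finset α → ℝ, lam ∅ = 1 ∧ (∀ T, |lam T| ≤ 1) ∧
    (∀ T, lam T ≠ 0 → T ⊆ S ∧ ∏ i ∈ T, N i ≤ y) ∧
    (∑ T ∈ S.powerset, ∑ T' ∈ S.powerset, lam T * lam T' / ∏ i ∈ T ∪ T', N i) *
      (∑ T ∈ S.powerset.filter (fun T => ∏ i ∈ T, N i ≤ y), ∏ i ∈ T, 1 / (N i - 1)) ≤ 1 := by
  obtain ⟨G, hG⟩ : ∃ G, G = ∑ T ∈ RR S N y, ip N T := ⟨_, rfl⟩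
  have hE : (∅ : Finset α) ∈ RR S N y := by
    rw [mem_RR]
    refine ⟨Finset.empty_subset _, ?_⟩
    unfold nt
    rw [Finset.prod_empty]
    exact hy
  have hGpos : 0 < G := by
    rw [hG]
    exact Finset.sum_pos (fun T hT => ip_pos hN (mem_RR.mp hT).1) ⟨∅, hE⟩
  obtain ⟨lam, hlam⟩ : ∃ lam : Finset α → ℝ, lam = fun T => if T ∈ RR S N y then
    (-1) ^ T.card * (nt N T * ((1 / G) *
      ∑ T' ∈ (RR S N y).filter (fun T' => T ⊆ T'), ip N T')) else 0 := ⟨_, rfl⟩
  have hin : ∀ T ∈ RR S N y, lam T = (-1) ^ T.card * (nt N T * ((1 / G) *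
      ∑ T' ∈ (RR S N y).filter (fun T' => T ⊆ T'), ip N T')) := by
    intro T hT
    rw [hlam]
    exact if_pos hT
  have hout : ∀ T, T ∉ RR S N y → lam T = 0 := by
    intro T hT
    rw [hlam]
    exact if_neg hT
  refine ⟨lam, ?_, ?_, ?_, ?_⟩
  · rw [hin ∅ hE]
    have h1 : (RR S N y).filter (fun T' => (∅ : Finset α) ⊆ T') = RR S N y :=
      Finset.filter_true_of_mem fun _ _ => Finset.empty_subset _
    rw [h1, ← hG]
    unfold nt
    rw [Finset.card_empty, pow_zero, Finset.prod_empty, one_mul, one_mul, one_div,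
      inv_mul_cancel₀ hGpos.ne']
  · intro T
    by_cases hT : T ∈ RR S N y
    · rw [hin T hT, abs_mul, abs_pow, abs_neg, abs_one, one_pow, one_mul]
      have h1 := bound (y := y) hN (mem_RR.mp hT).1
      rw [← hG] at h1
      have h2 : 0 ≤ ∑ T' ∈ (RR S N y).filter (fun T' => T ⊆ T'), ip N T' :=
        Finset.sum_nonneg fun T' hT' =>
          (ip_pos hN (mem_RR.mp (Finset.mem_of_mem_filter T' hT')).1).le
      have h3 := nt_pos hN (mem_RR.mp hT).1
      rw [abs_of_nonneg (by positivity)]
      calc nt N T * ((1 / G) * ∑ T' ∈ (RR S N y).filter (fun T' => T ⊆ T'), ip N T')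
          = (nt N T * ∑ T' ∈ (RR S N y).filter (fun T' => T ⊆ T'), ip N T') / G := by ring
        _ ≤ G / G := by gcongr
        _ = 1 := div_self hGpos.ne'
    · rw [hout T hT, abs_zero]
      exact zero_le_one
  · intro T hT
    have h : T ∈ RR S N y := by
      by_contra hcon
      exact hT (hout T hcon)
    exact mem_RR.mp h
  · have hfil : (∑ T ∈ S.powerset.filter (fun T => ∏ i ∈ T, N i ≤ y), ∏ i ∈ T, 1 / (N i - 1)) =
        G := by
      rw [hG]
      rfl
    rw [hfil]
    -- diagonalisation
    have hdiag : ∀ T ∈ S.powerset, ∀ T' ∈ S.powerset, lam T * lam T' / ∏ i ∈ T ∪ T', N i =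
        ∑ D ∈ S.powerset, (∏ i ∈ D, (N i - 1)) *
          ((if D ⊆ T then lam T / nt N T else 0) * (if D ⊆ T' then lam T' / nt N T' else 0)) := by
      intro T hT T' hT'
      rw [Finset.mem_powerset] at hT hT'
      have p1 := nt_pos hN hT
      have p2 := nt_pos hN hT'
      have p3 := nt_pos hN (Finset.union_subset hT hT')
      have e1 : nt N (T ∪ T') * nt N (T ∩ T') = nt N T * nt N T' := Finset.prod_union_inter
      have e2 : nt N (T ∩ T') = ∑ D ∈ (T ∩ T').powerset, ∏ i ∈ D, (N i - 1) := by
        rw [← Finset.prod_one_add]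
        refine Finset.prod_congr rfl fun i _ => ?_
        ring
      have e3 : ∑ D ∈ S.powerset, (∏ i ∈ D, (N i - 1)) *
          ((if D ⊆ T then lam T / nt N T else 0) * (if D ⊆ T' then lam T' / nt N T' else 0)) =
          ∑ D ∈ (T ∩ T').powerset, (∏ i ∈ D, (N i - 1)) *
            (lam T / nt N T * (lam T' / nt N T')) := by
        symm
        rw [← Finset.sum_subset (Finset.powerset_mono.mpr
          (Finset.inter_subset_left.trans hT) : (T ∩ T').powerset ⊆ S.powerset)]
        · refine Finset.sum_congr rfl fun D hD => ?_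
          rw [Finset.mem_powerset, Finset.subset_inter_iff] at hD
          rw [if_pos hD.1, if_pos hD.2]
        · intro D _ hD
          rw [Finset.mem_powerset, Finset.subset_inter_iff] at hD
          by_cases h1 : D ⊆ T
          · have h2 : ¬ D ⊆ T' := fun h2 => hD ⟨h1, h2⟩
            rw [if_neg h2, mul_zero, mul_zero]
          · rw [if_neg h1, zero_mul, mul_zero]
      rw [e3, ← Finset.sum_mul, ← e2]
      change lam T * lam T' / nt N (T ∪ T') = _
      rw [div_eq_iff p3.ne']
      have e4 : nt N (T ∩ T') = nt N T * nt N T' / nt N (T ∪ T') := by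
        rw [eq_div_iff p3.ne', mul_comm, e1]
      rw [e4]
      field_simp
    have hQ : ∑ T ∈ S.powerset, ∑ T' ∈ S.powerset, lam T * lam T' / ∏ i ∈ T ∪ T', N i =
        ∑ D ∈ S.powerset, (∏ i ∈ D, (N i - 1)) *
          (∑ T ∈ S.powerset, if D ⊆ T then lam T / nt N T else 0) ^ 2 := by
      rw [Finset.sum_congr rfl fun T hT => Finset.sum_congr rfl fun T' hT' => hdiag T hT T' hT']
      rw [Finset.sum_congr rfl fun T _ => Finset.sum_comm, Finset.sum_comm]
      refine Finset.sum_congr rfl fun D _ => ?_
      rw [pow_two, Finset.sum_mul_sum, Finset.mul_sum]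
      refine Finset.sum_congr rfl fun T _ => ?_
      rw [Finset.mul_sum]
    -- the inner sum
    have halt : ∀ D T' : Finset α, ∑ T ∈ T'.powerset, (if D ⊆ T then (-1 : ℝ) ^ T.card else 0) =
        if T' = D then (-1) ^ D.card else 0 := by
      intro D T'
      by_cases hDT : D ⊆ T'
      · rw [← Finset.sum_filter]
        have h1 : T'.powerset.filter (fun T => D ⊆ T) =
            (T' \ D).powerset.image (fun E => D ∪ E) := by
          rw [← Finset.Icc_eq_image_powerset hDT]
          ext T
          rw [Finset.mem_filter, Finset.mem_powerset, Finset.mem_Icc]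
          exact and_comm
        have h2 : Set.InjOn (fun E => D ∪ E) (((T' \ D).powerset : Finset (Finset α)) :
            Set (Finset α)) := by
          intro E hE E' hE' heq
          change D ∪ E = D ∪ E' at heq
          rw [Finset.mem_coe, Finset.mem_powerset] at hE hE'
          ext i
          have k := Finset.ext_iff.mp heq i
          rw [Finset.mem_union, Finset.mem_union] at k
          constructor
          · intro hi
            rcases k.mp (Or.inr hi) with h | h
            · exact absurd h (Finset.mem_sdiff.mp (hE hi)).2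
            · exact h
          · intro hi
            rcases k.mpr (Or.inr hi) with h | h
            · exact absurd h (Finset.mem_sdiff.mp (hE' hi)).2
            · exact h
        rw [h1, Finset.sum_image h2]
        have h3 : ∀ E ∈ (T' \ D).powerset, (-1 : ℝ) ^ (D ∪ E).card =
            (-1) ^ D.card * ∏ i ∈ E, (-1 : ℝ) := by
          intro E hE
          rw [Finset.mem_powerset] at hE
          have hd : Disjoint D E := (Finset.disjoint_sdiff.mono_right hE)
          rw [Finset.card_union_of_disjoint hd, pow_add, Finset.prod_const]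
        rw [Finset.sum_congr rfl h3, ← Finset.mul_sum, ← Finset.prod_one_add]
        by_cases heq : T' = D
        · rw [if_pos heq, heq, Finset.sdiff_self, Finset.prod_empty, mul_one]
        · rw [if_neg heq]
          have hne : (T' \ D).Nonempty := by
            rw [Finset.nonempty_iff_ne_empty]
            intro h
            rw [Finset.sdiff_eq_empty_iff_subset] at h
            exact heq (Finset.Subset.antisymm h hDT)
          obtain ⟨i, hi⟩ := hne
          rw [Finset.prod_eq_zero hi (by norm_num), mul_zero]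
      · have hne : T' ≠ D := by
          intro h
          apply hDT
          rw [h]
        rw [if_neg hne]
        refine Finset.sum_eq_zero fun T hT => ?_
        rw [if_neg (fun h => hDT (h.trans (Finset.mem_powerset.mp hT)))]
    have hz : ∀ D ∈ S.powerset, (∑ T ∈ S.powerset, if D ⊆ T then lam T / nt N T else 0) =
        if D ∈ RR S N y then (1 / G) * ((-1) ^ D.card * ip N D) else 0 := by
      intro D hD
      have e1 : (∑ T ∈ S.powerset, if D ⊆ T then lam T / nt N T else 0) =
          ∑ T ∈ S.powerset, ∑ T' ∈ RR S N y, (1 / G) * (ip N T' *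
            (if T ⊆ T' then (if D ⊆ T then (-1) ^ T.card else 0) else 0)) := by
        refine Finset.sum_congr rfl fun T hT => ?_
        rw [Finset.mem_powerset] at hT
        by_cases hTR : T ∈ RR S N y
        · by_cases hDT : D ⊆ T
          · rw [if_pos hDT, hin T hTR, Finset.sum_filter]
            have p1 := nt_pos hN hT
            rw [div_eq_iff p1.ne']
            rw [Finset.mul_sum, Finset.mul_sum, Finset.mul_sum, Finset.sum_mul]
            refine Finset.sum_congr rfl fun T' _ => ?_
            by_cases h : T ⊆ T'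
            · rw [if_pos h, if_pos h, if_pos hDT]
              ring
            · rw [if_neg h, if_neg h]
              ring
          · rw [if_neg hDT]
            symm
            refine Finset.sum_eq_zero fun T' _ => ?_
            rw [if_neg hDT, ite_self, mul_zero, mul_zero]
        · rw [hout T hTR, zero_div, ite_self]
          symm
          refine Finset.sum_eq_zero fun T' hT' => ?_
          rw [if_neg (fun h => hTR (RR_down hN h hT')), mul_zero, mul_zero]
      rw [e1, Finset.sum_comm]
      have e2 : ∀ T' ∈ RR S N y, ∑ T ∈ S.powerset, (1 / G) * (ip N T' *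
            (if T ⊆ T' then (if D ⊆ T then (-1 : ℝ) ^ T.card else 0) else 0)) =
          (1 / G) * (ip N T' * (if T' = D then (-1) ^ D.card else 0)) := by
        intro T' hT'
        rw [← Finset.mul_sum, ← Finset.mul_sum, ← halt D T']
        congr 2
        symm
        rw [← Finset.sum_subset (Finset.powerset_mono.mpr (mem_RR.mp hT').1 :
          T'.powerset ⊆ S.powerset)]
        · refine Finset.sum_congr rfl fun T hT => ?_
          rw [if_pos (Finset.mem_powerset.mp hT)]
        · intro T _ hT
          rw [if_neg (fun h => hT (Finset.mem_powerset.mpr h))]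
      rw [Finset.sum_congr rfl e2, ← Finset.mul_sum]
      by_cases hDR : D ∈ RR S N y
      · rw [if_pos hDR, Finset.sum_eq_single D]
        · rw [if_pos rfl]
          ring
        · intro T' _ hne
          rw [if_neg hne, mul_zero]
        · intro h
          exact absurd hDR h
      · rw [if_neg hDR]
        have e4 : ∑ T' ∈ RR S N y, ip N T' * (if T' = D then (-1 : ℝ) ^ D.card else 0) = 0 := by
          refine Finset.sum_eq_zero fun T' hT' => ?_
          have hne : T' ≠ D := by
            intro h
            apply hDR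
            rw [← h]
            exact hT'
          rw [if_neg hne, mul_zero]
        rw [e4, mul_zero]
    have hfin : ∑ D ∈ S.powerset, (∏ i ∈ D, (N i - 1)) *
          (∑ T ∈ S.powerset, if D ⊆ T then lam T / nt N T else 0) ^ 2 = 1 / G := by
      have e1 : ∀ D ∈ S.powerset, (∏ i ∈ D, (N i - 1)) *
          (∑ T ∈ S.powerset, if D ⊆ T then lam T / nt N T else 0) ^ 2 =
          if D ∈ RR S N y then (1 / G) ^ 2 * ip N D else 0 := by
        intro D hD
        rw [hz D hD]
        rw [Finset.mem_powerset] at hD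
        by_cases hDR : D ∈ RR S N y
        · rw [if_pos hDR, if_pos hDR]
          have e2 : (∏ i ∈ D, (N i - 1)) * ip N D = 1 := by
            unfold ip
            rw [← Finset.prod_mul_distrib]
            refine Finset.prod_eq_one fun i hi => ?_
            have := hN i (hD hi)
            have h : N i - 1 ≠ 0 := by linarith
            rw [mul_one_div_cancel h]
          have e3 : ((-1 : ℝ) ^ D.card) ^ 2 = 1 := by
            rw [← pow_mul, mul_comm, pow_mul, neg_one_sq, one_pow]
          calc (∏ i ∈ D, (N i - 1)) * (1 / G * ((-1) ^ D.card * ip N D)) ^ 2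
              = (1 / G) ^ 2 * ((-1 : ℝ) ^ D.card) ^ 2 * ((∏ i ∈ D, (N i - 1)) * ip N D) *
                ip N D := by ring
            _ = (1 / G) ^ 2 * ip N D := by rw [e2, e3]; ring
        · rw [if_neg hDR, if_neg hDR]
          ring
      rw [Finset.sum_congr rfl e1, ← Finset.sum_filter]
      have e5 : S.powerset.filter (fun D => D ∈ RR S N y) = RR S N y := by
        ext D
        rw [Finset.mem_filter, Finset.mem_powerset]
        exact ⟨fun h => h.2, fun h => ⟨(mem_RR.mp h).1, h⟩⟩
      rw [e5, ← Finset.mul_sum, ← hG]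
      field_simp
    rw [hQ, hfin, one_div, inv_mul_cancel₀ hGpos.ne']

end

end SELAM

theorem specSELA : SpecSELA := by
  intro S N y hN hy
  exact SELAM.sel hN hy

end Pool.Agent.Lib.MP391708.XH
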