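import Pool.Agent.Lib.MP_391708_nt.X.SpecHML

/-! MP_391708, Theorem X, part HML, module SELG (helper86): Selberg's sum. -/

set_option autoImplicit false

namespace Pool.Agent.Lib.MP391708.XH

open Finset Filter Topology Pool.Agent.Lib.MP391708.MR
open scoped ComplexConjugate

namespace SELGM

theorem mem_GP {P Q : ℝ} {z : Gi} (h : z ∈ GP P Q) : P < (nm z : ℝ) ∧ (nm z : ℝ) ≤ Q := by
  unfold GP disc at h
  rw [mem_filter, mem_filter] at h
  exact ⟨h.2.2.2.2.2, h.1.2.2⟩

theorem GP_mono {P Q Q' : ℝ} (h : Q ≤ Q') (_hQ : 0 ≤ Q) : GP P Q ⊆ GP P Q' := by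
  intro z hz
  have hb := mem_GP hz
  unfold GP disc at hz ⊢
  rw [mem_filter, mem_filter] at hz ⊢
  refine ⟨⟨?_, hz.1.2.1, hz.1.2.2.trans h⟩, hz.2⟩
  have h0 := hz.1.1
  rw [mem_image] at h0 ⊢
  obtain ⟨p, hp, hpz⟩ := h0
  refine ⟨p, ?_, hpz⟩
  rw [mem_product, mem_Icc, mem_Icc] at hp ⊢
  have hfl : (⌊Q⌋₊ : ℤ) ≤ ⌊Q'⌋₊ := by exact_mod_cast Nat.floor_mono h
  obtain ⟨⟨a1, a2⟩, a3, a4⟩ := hp
  exact ⟨⟨by linarith, by linarith⟩, by linarith, by linarith⟩

theorem GP_step {P R Q : ℝ} {z : Gi} (hz : z ∈ GP P Q) (h0 : ¬ (nm z : ℝ) ≤ R) :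
    z ∈ GP R Q := by
  unfold GP at hz ⊢
  rw [mem_filter] at hz ⊢
  exact ⟨hz.1, hz.2.1, hz.2.2.1, hz.2.2.2.1, hz.2.2.2.2.1, not_le.mp h0⟩

theorem GP_low {P R Q : ℝ} {z : Gi} (hz : z ∈ GP P Q) (h0 : (nm z : ℝ) ≤ R) (_hR : 0 ≤ R) :
    z ∈ GP P R := by
  unfold GP disc at hz ⊢
  rw [mem_filter, mem_filter] at hz ⊢
  refine ⟨⟨?_, hz.1.2.1, h0⟩, hz.2⟩
  rw [mem_image]
  refine ⟨(z.re, z.im), ?_, rfl⟩
  rw [mem_product, mem_Icc, mem_Icc]
  have hn : nm z ≤ ⌊R⌋₊ := Nat.le_floor h0
  have hn' : z.re ^ 2 + z.im ^ 2 ≤ (⌊R⌋₊ : ℤ) := by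
    have h1 : ((nm z : ℕ) : ℤ) = z.re ^ 2 + z.im ^ 2 := by
      unfold nm
      exact Int.natAbs_of_nonneg (by positivity)
    rw [← h1]
    exact_mod_cast hn
  have hre : |z.re| ≤ (⌊R⌋₊ : ℤ) := by
    have h2 : |z.re| ≤ |z.re| ^ 2 ∨ |z.re| = 0 := by
      rcases eq_or_ne z.re 0 with h | h
      · right; rw [h]; rfl
      · left
        have : 1 ≤ |z.re| := Int.one_le_abs h
        nlinarith
    rcases h2 with h2 | h2
    · rw [sq_abs] at h2
      nlinarith [sq_nonneg z.im]
    · rw [h2]; positivity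
  have him : |z.im| ≤ (⌊R⌋₊ : ℤ) := by
    have h2 : |z.im| ≤ |z.im| ^ 2 ∨ |z.im| = 0 := by
      rcases eq_or_ne z.im 0 with h | h
      · right; rw [h]; rfl
      · left
        have : 1 ≤ |z.im| := Int.one_le_abs h
        nlinarith
    rcases h2 with h2 | h2
    · rw [sq_abs] at h2
      nlinarith [sq_nonneg z.re]
    · rw [h2]; positivity
  exact ⟨abs_le.mp hre, abs_le.mp him⟩

theorem log3 : (1 : ℝ) ≤ Real.log 3 := by
  have h : Real.exp 1 ≤ 3 := by
    have := Real.exp_one_lt_d9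
    linarith
  have := Real.log_le_log (Real.exp_pos 1) h
  rwa [Real.log_exp] at this

theorem term_nonneg {P Q : ℝ} (hP : 1 ≤ P) {z : Gi} (h : z ∈ GP P Q) :
    0 ≤ Real.log (nm z) / (nm z : ℝ) := by
  have := mem_GP h
  exact div_nonneg (Real.log_nonneg (by linarith)) (by linarith)

theorem sumlog_pow (C : ℝ) (hC : ∀ x : ℝ, 2 ≤ x → WW x (Real.exp 1 * x) ≤ C / Real.log x)
    (hC0 : 0 < C) (n : ℕ) :
    ∑ π ∈ GP 3 (3 * Real.exp n), Real.log (nm π) / (nm π : ℝ) ≤ 2 * C * n := by
  induction n with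
  | zero =>
    have : GP 3 (3 * Real.exp ((0 : ℕ) : ℝ)) = ∅ := by
      rw [eq_empty_iff_forall_notMem]
      intro z hz
      have h := mem_GP hz
      simp at h
      linarith
    rw [this]
    simp
  | succ n ih =>
    set x : ℝ := 3 * Real.exp n with hx
    have hx3 : 3 ≤ x := by
      have : 1 ≤ Real.exp (n : ℝ) := Real.one_le_exp (Nat.cast_nonneg n)
      rw [hx]; linarith
    have hx' : 3 * Real.exp ((n + 1 : ℕ) : ℝ) = Real.exp 1 * x := by
      rw [hx]; push_cast; rw [Real.exp_add]; ring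
    have hlx : Real.log x = Real.log 3 + n := by
      rw [hx, Real.log_mul (by norm_num) (Real.exp_ne_zero _), Real.log_exp]
    have hlx1 : 1 ≤ Real.log x := by
      rw [hlx]; have := log3; have h2 : (0 : ℝ) ≤ n := Nat.cast_nonneg n; linarith
    rw [hx']
    have hsub : GP 3 (Real.exp 1 * x) ⊆ GP 3 x ∪ GP x (Real.exp 1 * x) := by
      intro z hz
      rw [mem_union]
      by_cases h0 : (nm z : ℝ) ≤ x
      · left; exact GP_low hz h0 (by linarith)
      · right; exact GP_step hz h0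
    have h1 : ∑ π ∈ GP 3 (Real.exp 1 * x), Real.log (nm π) / (nm π : ℝ) ≤
        ∑ π ∈ GP 3 x ∪ GP x (Real.exp 1 * x), Real.log (nm π) / (nm π : ℝ) := by
      apply sum_le_sum_of_subset_of_nonneg hsub
      intro z hz _
      rcases mem_union.mp hz with h | h
      · exact term_nonneg (by norm_num) h
      · exact term_nonneg (by linarith) h
    have h2 : ∑ π ∈ GP 3 x ∪ GP x (Real.exp 1 * x), Real.log (nm π) / (nm π : ℝ) ≤
        ∑ π ∈ GP 3 x, Real.log (nm π) / (nm π : ℝ) +
          ∑ π ∈ GP x (Real.exp 1 * x), Real.log (nm π) / (nm π : ℝ) := by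
      rw [← sum_union_inter]
      have : 0 ≤ ∑ π ∈ GP 3 x ∩ GP x (Real.exp 1 * x), Real.log (nm π) / (nm π : ℝ) :=
        sum_nonneg fun z hz => term_nonneg (by norm_num) (mem_inter.mp hz).1
      linarith
    have h3 : ∑ π ∈ GP x (Real.exp 1 * x), Real.log (nm π) / (nm π : ℝ) ≤
        (1 + Real.log x) * WW x (Real.exp 1 * x) := by
      unfold WW
      rw [mul_sum]
      apply sum_le_sum
      intro z hz
      have hb := mem_GP hz
      have hpos : (0 : ℝ) < nm z := by linarith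
      have hlog : Real.log (nm z) ≤ 1 + Real.log x := by
        have := Real.log_le_log hpos hb.2
        rwa [Real.log_mul (Real.exp_ne_zero _) (by linarith), Real.log_exp] at this
      rw [mul_one_div]
      gcongr
    have h4 : (1 + Real.log x) * WW x (Real.exp 1 * x) ≤ (1 + Real.log x) * (C / Real.log x) :=
      mul_le_mul_of_nonneg_left (hC x (by linarith)) (by linarith)
    have h5 : (1 + Real.log x) * (C / Real.log x) ≤ 2 * C := by
      rw [mul_div_assoc', div_le_iff₀ (by linarith)]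
      nlinarith
    push_cast
    linarith

theorem sumlog (C : ℝ) (hC : ∀ x : ℝ, 2 ≤ x → WW x (Real.exp 1 * x) ≤ C / Real.log x)
    (hC0 : 0 < C) (Q : ℝ) (hQ : 1 ≤ Q) :
    ∑ π ∈ GP 3 Q, Real.log (nm π) / (nm π : ℝ) ≤ 2 * C * Real.log Q := by
  by_cases h3 : 3 ≤ Q
  · set n : ℕ := ⌈Real.log (Q / 3)⌉₊ with hn
    have h0 : 0 ≤ Real.log (Q / 3) := Real.log_nonneg (by rw [le_div_iff₀ (by norm_num)]; linarith)
    have hlq : Real.log (Q / 3) = Real.log Q - Real.log 3 :=
      Real.log_div (by linarith) (by norm_num)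
    have hn1 : Real.log (Q / 3) ≤ n := Nat.le_ceil _
    have hn2 : (n : ℝ) < Real.log (Q / 3) + 1 := Nat.ceil_lt_add_one h0
    have hQn : Q ≤ 3 * Real.exp n := by
      have : Q / 3 ≤ Real.exp n := by
        rw [← Real.exp_log (show (0 : ℝ) < Q / 3 by positivity)]
        exact Real.exp_le_exp.mpr hn1
      linarith
    have h1 : ∑ π ∈ GP 3 Q, Real.log (nm π) / (nm π : ℝ) ≤
        ∑ π ∈ GP 3 (3 * Real.exp n), Real.log (nm π) / (nm π : ℝ) := by
      apply sum_le_sum_of_subset_of_nonneg (GP_mono hQn (by linarith))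
      intro z hz _
      exact term_nonneg (by norm_num) hz
    have h2 := sumlog_pow C hC hC0 n
    have hnl : (n : ℝ) ≤ Real.log Q := by have := log3; linarith
    have h4 : 2 * C * n ≤ 2 * C * Real.log Q := by
      apply mul_le_mul_of_nonneg_left hnl (by linarith)
    linarith
  · have : GP 3 Q = ∅ := by
      rw [eq_empty_iff_forall_notMem]
      intro z hz
      have h := mem_GP hz
      linarith
    rw [this, sum_empty]
    have := Real.log_nonneg hQ
    positivity

/-- `e^t - 1 ≤ 2 t` on `[0,1]` -/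
theorem exp_sub_one_le (t : ℝ) (h0 : 0 ≤ t) (h1 : t ≤ 1) : Real.exp t - 1 ≤ 2 * t := by
  have h := Real.abs_exp_sub_one_sub_id_le (x := t) (by rw [abs_of_nonneg h0]; exact h1)
  have h2 := (abs_le.mp h).2
  nlinarith

theorem exp_inv_le (N : ℝ) (hN : 1 < N) : Real.exp (1 / N) ≤ 1 + 1 / (N - 1) := by
  have h1 : 1 - 1 / N ≤ Real.exp (-(1 / N)) := by
    have := Real.add_one_le_exp (-(1 / N))
    linarith
  have h2 : (0 : ℝ) < 1 - 1 / N := by
    rw [sub_pos, div_lt_one (by linarith)]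
    exact hN
  have h3 : Real.exp (1 / N) ≤ 1 / (1 - 1 / N) := by
    rw [le_div_iff₀ h2]
    calc Real.exp (1 / N) * (1 - 1 / N) ≤ Real.exp (1 / N) * Real.exp (-(1 / N)) :=
          mul_le_mul_of_nonneg_left h1 (Real.exp_pos _).le
      _ = 1 := by rw [← Real.exp_add]; simp
  have h4 : 1 / (1 - 1 / N) = 1 + 1 / (N - 1) := by
    have : N - 1 ≠ 0 := by linarith
    have h5 : (1 : ℝ) - 1 / N ≠ 0 := h2.ne'
    have h6 : N ≠ 0 := by linarith
    field_simp
    ring
  rw [h4] at h3
  exact h3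

end SELGM

open SELGM

theorem specSELG (PG : SpecPG) : SpecSELG := by
  obtain ⟨_, ⟨C2, hC2⟩, ⟨C3, hC30, hC3⟩, _⟩ := PG
  have hC20 : 0 ≤ C2 := (abs_nonneg _).trans (hC2 3 3 le_rfl le_rfl)
  set c₀ : ℝ := 1 / (4 * C3 + 1) with hc₀
  have hc0pos : 0 < c₀ := by positivity
  have hc01 : c₀ ≤ 1 := by
    rw [hc₀, div_le_one (by positivity)]; linarith
  have hl3 := log3
  refine ⟨c₀, 1 / 2 * (c₀ * Real.exp (-C2) / Real.log 3), hc0pos, hc01, by positivity, ?_⟩
  intro y hy
  have hly : 0 < Real.log y := Real.log_pos (by linarith)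
  have hy0 : 0 < y := by linarith
  set Q : ℝ := y ^ c₀ with hQ
  have hQ1 : 1 ≤ Q := Real.one_le_rpow (by linarith) hc0pos.le
  have hlQ : Real.log Q = c₀ * Real.log y := Real.log_rpow hy0 c₀
  set ip : Gi → ℝ := fun π => 1 / ((nm π : ℝ) - 1) with hip
  have hN : ∀ π ∈ GP 3 Q, (3 : ℝ) < nm π ∧ (nm π : ℝ) ≤ Q := fun π hπ => mem_GP hπ
  have hipos : ∀ π ∈ GP 3 Q, 0 < ip π := by
    intro π hπ
    have := (hN π hπ).1
    exact div_pos one_pos (by linarith)
  have hTpos : ∀ T ∈ (GP 3 Q).powerset, 0 ≤ ∏ π ∈ T, ip π := by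
    intro T hT
    exact prod_nonneg fun π hπ => (hipos π (mem_powerset.mp hT hπ)).le
  by_cases hQ3 : 3 ≤ Q
  · -- main case
    set ε : ℝ := 1 / (c₀ * Real.log y) with hε
    have hε0 : 0 < ε := by positivity
    have hεQ : ε * Real.log Q = 1 := by
      rw [hlQ, hε]; field_simp
    have hεy : ε * Real.log y = 4 * C3 + 1 := by
      rw [hε, hc₀]; field_simp
    -- total product
    set Pi : ℝ := ∏ π ∈ GP 3 Q, (1 + ip π) with hPi
    have hPi0 : 0 < Pi := prod_pos fun π hπ => by have := hipos π hπ; linarith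
    have htot : ∑ T ∈ (GP 3 Q).powerset, ∏ π ∈ T, ip π = Pi := by
      rw [hPi, prod_one_add]
    have hsplit : ∑ T ∈ (GP 3 Q).powerset.filter (fun T => NN T ≤ y), ∏ π ∈ T, ip π +
        ∑ T ∈ (GP 3 Q).powerset.filter (fun T => ¬ NN T ≤ y), ∏ π ∈ T, ip π = Pi := by
      rw [sum_filter_add_sum_filter_not, htot]
    -- Rankin
    have hrank : ∑ T ∈ (GP 3 Q).powerset.filter (fun T => ¬ NN T ≤ y), ∏ π ∈ T, ip π ≤
        Real.exp (-(4 * C3 + 1)) * ∏ π ∈ GP 3 Q, (1 + Real.exp (ε * Real.log (nm π)) * ip π) := by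
      rw [prod_one_add, mul_sum]
      refine (sum_le_sum ?_).trans
        (sum_le_sum_of_subset_of_nonneg (filter_subset _ _) ?_)
      · intro T hT
        rw [mem_filter, mem_powerset, not_le] at hT
        obtain ⟨hTS, hTy⟩ := hT
        rw [prod_mul_distrib, ← mul_assoc]
        have hge : 1 ≤ Real.exp (-(4 * C3 + 1)) * ∏ π ∈ T, Real.exp (ε * Real.log (nm π)) := by
          rw [← Real.exp_sum, ← mul_sum, ← Real.exp_add]
          apply Real.one_le_exp
          have hlog : Real.log y ≤ ∑ π ∈ T, Real.log (nm π) := by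
            rw [← Real.log_prod (fun π hπ => by
              have := (hN π (hTS hπ)).1
              linarith)]
            exact Real.log_le_log hy0 hTy.le
          have := mul_le_mul_of_nonneg_left hlog hε0.le
          linarith
        have hp := hTpos T (mem_powerset.mpr hTS)
        nlinarith
      · intro T hT _
        have h1 : 0 ≤ ∏ π ∈ T, Real.exp (ε * Real.log (nm π)) * ip π :=
          prod_nonneg fun π hπ =>
            mul_nonneg (Real.exp_pos _).le (hipos π (mem_powerset.mp hT hπ)).le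
        exact mul_nonneg (Real.exp_pos _).le h1
    have hprod : ∏ π ∈ GP 3 Q, (1 + Real.exp (ε * Real.log (nm π)) * ip π) ≤
        Pi * Real.exp (4 * C3) := by
      have h1 : ∏ π ∈ GP 3 Q, (1 + Real.exp (ε * Real.log (nm π)) * ip π) ≤
          ∏ π ∈ GP 3 Q, ((1 + ip π) * Real.exp (2 * ε * (Real.log (nm π) / (nm π : ℝ)))) := by
        apply Finset.prod_le_prod
        · intro π hπ
          have := hipos π hπ
          positivity
        · intro π hπ
          have hb := hN π hπ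
          have hNp : (0 : ℝ) < nm π := by linarith
          have hln : 0 ≤ Real.log (nm π) := Real.log_nonneg (by linarith)
          have ht1 : ε * Real.log (nm π) ≤ 1 := by
            rw [← hεQ]
            exact mul_le_mul_of_nonneg_left (Real.log_le_log hNp hb.2) hε0.le
          have h2 := exp_sub_one_le (ε * Real.log (nm π)) (by positivity) ht1
          have h3 : 1 + Real.exp (ε * Real.log (nm π)) * ip π =
              (1 + ip π) * (1 + (Real.exp (ε * Real.log (nm π)) - 1) / (nm π : ℝ)) := by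
            simp only [hip]
            have : (nm π : ℝ) - 1 ≠ 0 := by linarith
            field_simp
            ring
          rw [h3]
          apply mul_le_mul_of_nonneg_left _ (by have := hipos π hπ; linarith)
          have h4 : (Real.exp (ε * Real.log (nm π)) - 1) / (nm π : ℝ) ≤
              2 * ε * (Real.log (nm π) / (nm π : ℝ)) := by
            rw [mul_div_assoc', div_le_div_iff_of_pos_right hNp]
            linarith
          have h5 := Real.add_one_le_exp (2 * ε * (Real.log (nm π) / (nm π : ℝ)))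
          linarith
      refine h1.trans ?_
      rw [prod_mul_distrib, ← Real.exp_sum, ← mul_sum]
      apply mul_le_mul_of_nonneg_left _ hPi0.le
      apply Real.exp_le_exp.mpr
      have h6 := sumlog C3 hC3 hC30 Q hQ1
      have h7 : 2 * ε * ∑ π ∈ GP 3 Q, Real.log (nm π) / (nm π : ℝ) ≤
          2 * ε * (2 * C3 * Real.log Q) := mul_le_mul_of_nonneg_left h6 (by positivity)
      calc 2 * ε * ∑ π ∈ GP 3 Q, Real.log (nm π) / (nm π : ℝ) ≤ 2 * ε * (2 * C3 * Real.log Q) := h7
        _ = 4 * C3 * (ε * Real.log Q) := by ring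
        _ = 4 * C3 := by rw [hεQ, mul_one]
    have hhalf : Real.exp (-(4 * C3 + 1)) * (Pi * Real.exp (4 * C3)) ≤ 1 / 2 * Pi := by
      have h1 : Real.exp (-(4 * C3 + 1)) * (Pi * Real.exp (4 * C3)) = Pi * Real.exp (-1) := by
        rw [show Real.exp (-(4 * C3 + 1)) * (Pi * Real.exp (4 * C3)) =
          Pi * (Real.exp (-(4 * C3 + 1)) * Real.exp (4 * C3)) by ring, ← Real.exp_add]
        ring_nf
      have h2 : Real.exp (-1) ≤ 1 / 2 := by
        rw [Real.exp_neg, inv_le_comm₀ (Real.exp_pos 1) (by norm_num)]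
        have := Real.add_one_le_exp (1 : ℝ)
        linarith
      rw [h1]
      nlinarith
    have hG : 1 / 2 * Pi ≤
        ∑ T ∈ (GP 3 Q).powerset.filter (fun T => NN T ≤ y), ∏ π ∈ T, ip π := by
      have h1 : Real.exp (-(4 * C3 + 1)) *
          ∏ π ∈ GP 3 Q, (1 + Real.exp (ε * Real.log (nm π)) * ip π) ≤
          Real.exp (-(4 * C3 + 1)) * (Pi * Real.exp (4 * C3)) :=
        mul_le_mul_of_nonneg_left hprod (Real.exp_pos _).le
      linarith
    have hPiW : Real.exp (WW 3 Q) ≤ Pi := by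
      unfold WW
      rw [Real.exp_sum, hPi]
      apply Finset.prod_le_prod (fun π _ => (Real.exp_pos _).le)
      intro π hπ
      have hb := hN π hπ
      exact exp_inv_le _ (by linarith)
    have hW := (abs_le.mp (hC2 3 Q le_rfl hQ3)).1
    have hlQ1 : 1 ≤ Real.log Q := hl3.trans (Real.log_le_log (by norm_num) hQ3)
    have hlow : Real.exp (-C2) * Real.log Q / Real.log 3 ≤ Real.exp (WW 3 Q) := by
      have h1 : Real.exp (-C2 + (Real.log (Real.log Q) - Real.log (Real.log 3))) =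
          Real.exp (-C2) * Real.log Q / Real.log 3 := by
        rw [Real.exp_add, Real.exp_sub, Real.exp_log (by linarith), Real.exp_log (by linarith)]
        ring
      rw [← h1]
      exact Real.exp_le_exp.mpr (by linarith)
    calc 1 / 2 * (c₀ * Real.exp (-C2) / Real.log 3) * Real.log y
        = 1 / 2 * (Real.exp (-C2) * Real.log Q / Real.log 3) := by rw [hlQ]; ring
      _ ≤ 1 / 2 * Pi := by
          apply mul_le_mul_of_nonneg_left (hlow.trans hPiW) (by norm_num)
      _ ≤ _ := hG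
  · -- small case
    have hlt : Real.log Q < Real.log 3 := Real.log_lt_log (by linarith) (not_le.mp hQ3)
    have hone : (1 : ℝ) ≤
        ∑ T ∈ (GP 3 Q).powerset.filter (fun T => NN T ≤ y), ∏ π ∈ T, ip π := by
      have hmem : (∅ : Finset Gi) ∈ (GP 3 Q).powerset.filter (fun T => NN T ≤ y) := by
        rw [mem_filter]
        refine ⟨empty_mem_powerset _, ?_⟩
        unfold NN
        rw [prod_empty]
        linarith
      have h1 := single_le_sum (f := fun T : Finset Gi => ∏ π ∈ T, ip π)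
        (fun T hT => hTpos T (mem_filter.mp hT).1) hmem
      simpa using h1
    have h2 : 1 / 2 * (c₀ * Real.exp (-C2) / Real.log 3) * Real.log y ≤ 1 := by
      have h3 : 1 / 2 * (c₀ * Real.exp (-C2) / Real.log 3) * Real.log y =
          1 / 2 * (Real.exp (-C2) * (Real.log Q / Real.log 3)) := by rw [hlQ]; ring
      rw [h3]
      have h4 : Real.log Q / Real.log 3 ≤ 1 := by
        rw [div_le_one (by linarith)]; exact hlt.le
      have h5 : 0 ≤ Real.log Q / Real.log 3 :=
        div_nonneg (Real.log_nonneg hQ1) (by linarith)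
      have h6 : Real.exp (-C2) ≤ 1 := by
        rw [Real.exp_le_one_iff]; linarith
      have h7 : Real.exp (-C2) * (Real.log Q / Real.log 3) ≤ 1 * 1 :=
        mul_le_mul h6 h4 h5 (by norm_num)
      linarith
    exact h2.trans hone

end Pool.Agent.Lib.MP391708.XH
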