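import Pool.Agent.Lib.MP_391708_nt.X.SpecHML
import Pool.Agent.Lib.MP_391708_nt.MR.Basic

/-!
# Theorem X (MP_391708_nt), module SELX: the weight against a completely multiplicative function
-/

set_option autoImplicit false

namespace Pool.Agent.Lib.MP391708.XH

open Finset Filter Topology Pool.Agent.Lib.MP391708.MR
open scoped ComplexConjugate

namespace SELXM

/-- the primes of the open first quadrant are coprime -/
theorem cop {z z' : Gi} (h : 0 < z.re ∧ 0 < z.im ∧ (nm z).Prime)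
    (h' : 0 < z'.re ∧ 0 < z'.im ∧ (nm z').Prime) (hne : z ≠ z') : IsCoprime z z' := by
  rw [Prime.coprime_iff_not_dvd (prime_of_nm_prime h.2.2)]
  rintro ⟨u, hu⟩
  have h1 : nm z * nm u = nm z' := by rw [hu, nm_mul]
  have h2 : nm u = 1 := by
    have h3 := (Nat.dvd_prime h'.2.2).1 (Dvd.intro _ h1)
    rcases h3 with h3 | h3
    · exact absurd h3 h.2.2.one_lt.ne'
    · rw [h3] at h1
      have h4 := h'.2.2.pos
      exact Nat.eq_of_mul_eq_mul_left h4 (by rw [h1, mul_one])
  exact hne (eq_of_quadrant h.1 h.2.1 h'.1 h'.2.1 h2 hu).symm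

theorem nm_dd (T : Finset Gi) : (nm (dd T) : ℝ) = NN T := by
  classical
  unfold dd NN
  induction T using Finset.induction_on with
  | empty => simp [nm_one]
  | insert a s ha ih =>
    rw [Finset.prod_insert ha, Finset.prod_insert ha, nm_mul, Nat.cast_mul, ih]

theorem dvd_iff {S : Finset Gi} (hS : ∀ π ∈ S, 0 < π.re ∧ 0 < π.im ∧ (nm π).Prime)
    {T : Finset Gi} (hT : T ⊆ S) (z : Gi) : (∀ π ∈ T, π ∣ z) ↔ dd T ∣ z := by
  constructor
  · intro h
    unfold dd
    refine Finset.prod_dvd_of_coprime ?_ h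
    intro a ha b hb hab
    exact cop (hS a (hT ha)) (hS b (hT hb)) hab
  · intro h π hπ
    exact (Finset.dvd_prod_of_mem (fun π => π) hπ).trans h

theorem sum_dvd (x x' : ℝ) (f : Gi → ℂ) (hf : ∀ u v, f (u * v) = f u * f v) {d : Gi}
    (hd : d ≠ 0) [DecidablePred (fun z : Gi => d ∣ z)] :
    ∑ z ∈ (ann x x').filter (fun z => d ∣ z), f z =
      f d * ∑ z ∈ ann (x / nm d) (x' / nm d), f z := by
  classical
  have hp : (0 : ℝ) < nm d := nm_posR hd
  have h1 : (ann x x').filter (fun z => d ∣ z) =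
      (ann (x / nm d) (x' / nm d)).image (fun z => d * z) := by
    ext z
    rw [mem_filter, mem_image, mem_ann]
    constructor
    · rintro ⟨⟨h0, h1, h2⟩, w, rfl⟩
      refine ⟨w, ?_, rfl⟩
      rw [mem_ann]
      rw [nm_mul, Nat.cast_mul] at h1 h2
      refine ⟨right_ne_zero_of_mul h0, ?_, ?_⟩
      · rw [div_lt_iff₀ hp, mul_comm]
        exact h1
      · rw [le_div_iff₀ hp, mul_comm]
        exact h2
    · rintro ⟨w, hw, rfl⟩
      rw [mem_ann] at hw
      obtain ⟨h0, h1, h2⟩ := hw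
      rw [div_lt_iff₀ hp, mul_comm] at h1
      rw [le_div_iff₀ hp, mul_comm] at h2
      rw [nm_mul, Nat.cast_mul]
      exact ⟨⟨mul_ne_zero hd h0, h1, h2⟩, dvd_mul_right _ _⟩
  rw [h1, Finset.sum_image (fun a _ b _ hab => mul_left_cancel₀ hd hab), Finset.mul_sum]
  exact Finset.sum_congr rfl (fun w _ => hf d w)

end SELXM

open SELXM

theorem specSELX : SpecSELX := by
  classical
  intro S lam x x' y M C f hS hl hy hC hsup hcard hf hf1 hx hxx hM
  set L : Finset (Finset Gi) := S.powerset.filter (fun T => lam T ≠ 0) with hL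
  have hLs : ∀ T ∈ L, T ⊆ S ∧ NN T ≤ y := fun T hT => hsup T (mem_filter.1 hT).2
  -- the weight
  have h1 : ∀ (z : Gi) [DecidablePred (fun π : Gi => π ∣ z)],
      ∑ T ∈ (S.filter (fun π => π ∣ z)).powerset, lam T =
      ∑ T ∈ L, (if dd T ∣ z then lam T else 0) := by
    intro z _
    rw [← Finset.sum_filter]
    symm
    refine Finset.sum_subset ?_ ?_
    · intro T hT
      rw [mem_filter] at hT
      rw [mem_powerset]
      intro π hπ
      have h2 := (hLs T hT.1).1
      rw [mem_filter]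
      exact ⟨h2 hπ, (dvd_iff hS h2 z).2 hT.2 π hπ⟩
    · intro T hT hT'
      rw [mem_powerset] at hT
      by_contra hne
      apply hT'
      have h2 : T ⊆ S := fun π hπ => (mem_filter.1 (hT hπ)).1
      rw [mem_filter, hL, mem_filter, mem_powerset]
      exact ⟨⟨h2, hne⟩, (dvd_iff hS h2 z).1 (fun π hπ => (mem_filter.1 (hT hπ)).2)⟩
  have hw : ∀ z, ws S lam z =
      ∑ T ∈ L, ∑ T' ∈ L, (if dd (T ∪ T') ∣ z then lam T * lam T' else 0) := by
    intro z
    rw [ws, h1, sq, Finset.sum_mul_sum]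
    refine Finset.sum_congr rfl (fun T hT => Finset.sum_congr rfl (fun T' hT' => ?_))
    have hs := (hLs T hT).1
    have hs' := (hLs T' hT').1
    have h2 : dd (T ∪ T') ∣ z ↔ dd T ∣ z ∧ dd T' ∣ z := by
      rw [← dvd_iff hS (Finset.union_subset hs hs'), ← dvd_iff hS hs, ← dvd_iff hS hs']
      constructor
      · intro h
        exact ⟨fun π hπ => h π (Finset.mem_union_left _ hπ),
          fun π hπ => h π (Finset.mem_union_right _ hπ)⟩
      · rintro ⟨ha, hb⟩ π hπ
        rcases Finset.mem_union.1 hπ with h | h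
        · exact ha π h
        · exact hb π h
    by_cases ha : dd T ∣ z
    · by_cases hb : dd T' ∣ z
      · rw [if_pos ha, if_pos hb, if_pos (h2.2 ⟨ha, hb⟩)]
      · rw [if_pos ha, if_neg hb, if_neg (fun h => hb (h2.1 h).2), mul_zero]
    · rw [if_neg ha, if_neg (fun h => ha (h2.1 h).1), zero_mul]
  have hM0 : 0 ≤ M := by
    refine (norm_nonneg _).trans (hM x' ?_ le_rfl)
    rw [div_le_iff₀ (by positivity)]
    have h2 : (1 : ℝ) ≤ y ^ 2 := one_le_pow₀ hy
    nlinarith
  -- one pair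
  have hone : ∀ T ∈ L, ∀ T' ∈ L,
      ‖∑ z ∈ (ann x x').filter (fun z => dd (T ∪ T') ∣ z), f z‖ ≤ 2 * M := by
    intro T hT T' hT'
    have hs := (hLs T hT).1
    have hs' := (hLs T' hT').1
    have hd : dd (T ∪ T') ≠ 0 := by
      unfold dd
      rw [Finset.prod_ne_zero_iff]
      intro π hπ
      have h2 := (hS π (Finset.union_subset hs hs' hπ)).1
      rintro rfl
      simp at h2
    have hp := one_le_nm hd
    have hp0 : (0 : ℝ) < nm (dd (T ∪ T')) := by linarith
    have hNN1 : ∀ A : Finset Gi, A ⊆ S → 1 ≤ NN A := by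
      intro A hA
      rw [← nm_dd]
      apply one_le_nm
      unfold dd
      rw [Finset.prod_ne_zero_iff]
      intro π hπ
      have h2 := (hS π (hA hπ)).1
      rintro rfl
      simp at h2
    have hny : (nm (dd (T ∪ T')) : ℝ) ≤ y ^ 2 := by
      rw [nm_dd]
      have h2 : NN (T ∪ T') * NN (T ∩ T') = NN T * NN T' := Finset.prod_union_inter
      have h3 := hNN1 (T ∩ T') (Finset.inter_subset_left.trans hs)
      have h4 := hNN1 (T ∪ T') (Finset.union_subset hs hs')
      have h5 := hNN1 T hs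
      have h6 := hNN1 T' hs'
      calc NN (T ∪ T') ≤ NN (T ∪ T') * NN (T ∩ T') := le_mul_of_one_le_right (by linarith) h3
        _ = NN T * NN T' := h2
        _ ≤ y * y := mul_le_mul (hLs T hT).2 (hLs T' hT').2 (by linarith) (by linarith)
        _ = y ^ 2 := by ring
    rw [sum_dvd x x' f hf hd, norm_mul]
    have h7 : x / (nm (dd (T ∪ T')) : ℝ) ≤ x' / nm (dd (T ∪ T')) :=
      div_le_div_of_nonneg_right hxx hp0.le
    have h8 : x / y ^ 2 ≤ x / (nm (dd (T ∪ T')) : ℝ) := div_le_div_of_nonneg_left hx.le hp0 hny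
    have h9 : x' / (nm (dd (T ∪ T')) : ℝ) ≤ x' := div_le_self (hx.le.trans hxx) hp
    have h10 : ∑ z ∈ ann (x / nm (dd (T ∪ T'))) (x' / nm (dd (T ∪ T'))), f z =
        ∑ z ∈ disc (x' / nm (dd (T ∪ T'))), f z - ∑ z ∈ disc (x / nm (dd (T ∪ T'))), f z := by
      rw [disc_union h7, Finset.sum_union (disc_disjoint _ _)]
      ring
    rw [h10]
    have h11 := hM _ (h8.trans h7) h9
    have h12 := hM _ h8 (h7.trans h9)
    calc ‖f (dd (T ∪ T'))‖ * ‖∑ z ∈ disc (x' / nm (dd (T ∪ T'))), f z -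
        ∑ z ∈ disc (x / nm (dd (T ∪ T'))), f z‖ ≤
        1 * (‖∑ z ∈ disc (x' / nm (dd (T ∪ T'))), f z‖ +
          ‖∑ z ∈ disc (x / nm (dd (T ∪ T'))), f z‖) :=
          mul_le_mul (hf1 _) (norm_sub_le _ _) (norm_nonneg _) zero_le_one
      _ ≤ 2 * M := by linarith
  have hsum : ∑ z ∈ ann x x', (ws S lam z : ℂ) * f z =
      ∑ T ∈ L, ∑ T' ∈ L, ((lam T * lam T' : ℝ) : ℂ) *
        ∑ z ∈ (ann x x').filter (fun z => dd (T ∪ T') ∣ z), f z := by
    have h2 : ∀ z, (ws S lam z : ℂ) * f z = ∑ T ∈ L, ∑ T' ∈ L,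
        ((lam T * lam T' : ℝ) : ℂ) * (if dd (T ∪ T') ∣ z then f z else 0) := by
      intro z
      rw [hw, Complex.ofReal_sum, Finset.sum_mul]
      refine Finset.sum_congr rfl (fun T _ => ?_)
      rw [Complex.ofReal_sum, Finset.sum_mul]
      refine Finset.sum_congr rfl (fun T' _ => ?_)
      split_ifs
      · rfl
      · rw [Complex.ofReal_zero, zero_mul, mul_zero]
    rw [Finset.sum_congr rfl (fun z _ => h2 z), Finset.sum_comm]
    refine Finset.sum_congr rfl (fun T _ => ?_)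
    rw [Finset.sum_comm]
    refine Finset.sum_congr rfl (fun T' _ => ?_)
    rw [← Finset.mul_sum, Finset.sum_filter]
  rw [hsum]
  have hb : ‖∑ T ∈ L, ∑ T' ∈ L, ((lam T * lam T' : ℝ) : ℂ) *
        ∑ z ∈ (ann x x').filter (fun z => dd (T ∪ T') ∣ z), f z‖ ≤
      ∑ T ∈ L, ∑ T' ∈ L, 2 * M := by
    refine (norm_sum_le _ _).trans (Finset.sum_le_sum (fun T hT => ?_))
    refine (norm_sum_le _ _).trans (Finset.sum_le_sum (fun T' hT' => ?_))
    rw [norm_mul, Complex.norm_real, Real.norm_eq_abs, abs_mul]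
    calc |lam T| * |lam T'| * ‖∑ z ∈ (ann x x').filter (fun z => dd (T ∪ T') ∣ z), f z‖ ≤
        1 * (2 * M) := by
          refine mul_le_mul ?_ (hone T hT T' hT') (norm_nonneg _) zero_le_one
          exact mul_le_one₀ (hl T) (abs_nonneg _) (hl T')
      _ = 2 * M := one_mul _
  refine hb.trans ?_
  rw [Finset.sum_const, Finset.sum_const, nsmul_eq_mul, nsmul_eq_mul]
  have h0 : (0 : ℝ) ≤ (L.card : ℝ) := Nat.cast_nonneg _
  have h3 : (L.card : ℝ) * ((L.card : ℝ) * (2 * M)) ≤ (C * y) * ((C * y) * (2 * M)) := by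
    refine mul_le_mul hcard ?_ (by positivity) (h0.trans hcard)
    exact mul_le_mul_of_nonneg_right hcard (by positivity)
  refine h3.trans (le_of_eq ?_)
  ring

end Pool.Agent.Lib.MP391708.XH
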