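import Pool.Agent.Lib.MP_391708_nt.X.SpecHML
import Pool.Agent.Lib.MP_391708_nt.MR.Basic

/-!
# THEOREM X (MP_391708), module SELZ: Selberg's majorant in annuli
-/

set_option autoImplicit false

namespace Pool.Agent.Lib.MP391708.XH

open Finset Filter Topology Pool.Agent.Lib.MP391708.MR
open scoped ComplexConjugate

namespace SELZM

lemma NN_nonneg (T : Finset Gi) : 0 ≤ NN T := Finset.prod_nonneg fun _ _ => Nat.cast_nonneg _

lemma nm_dd (T : Finset Gi) : ((nm (dd T) : ℕ) : ℝ) = NN T := by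
  classical
  unfold NN dd
  induction T using Finset.induction_on with
  | empty => simp
  | insert a T ha ih =>
    rw [Finset.prod_insert ha, Finset.prod_insert ha, nm_mul, Nat.cast_mul, ih]

lemma dd_ne_zero {P Q : ℝ} {T : Finset Gi} (hT : T ⊆ GP P Q) : dd T ≠ 0 := by
  unfold dd
  exact Finset.prod_ne_zero_iff.2 fun π hπ => GP_ne_zero (hT hπ)

lemma dd_dvd_iff {P Q : ℝ} {T : Finset Gi} (hT : T ⊆ GP P Q) (z : Gi) :
    dd T ∣ z ↔ ∀ π ∈ T, π ∣ z := by
  constructor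
  · intro h π hπ
    exact (Finset.dvd_prod_of_mem _ hπ).trans h
  · intro h
    unfold dd
    refine Finset.prod_dvd_of_coprime ?_ h
    intro a ha b hb hab
    exact GP_coprime (hT ha) (hT hb) hab

lemma dd_inj {P Q : ℝ} {T T' : Finset Gi} (hT : T ⊆ GP P Q) (hT' : T' ⊆ GP P Q)
    (h : dd T = dd T') : T ⊆ T' := by
  intro π hπ
  have h1 : π ∣ dd T' := h ▸ Finset.dvd_prod_of_mem _ hπ
  unfold dd at h1
  obtain ⟨π', hπ', h2⟩ := (Prime.dvd_finsetProd_iff (GP_prime (hT hπ)) _).1 h1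
  have h3 := GP_eq_of_dvd (hT hπ) (hT' hπ') h2
  rw [← h3]
  exact hπ'

open scoped Classical in
lemma ws_eq {P Q : ℝ} (lam : Finset Gi → ℝ) (z : Gi) :
    ws (GP P Q) lam z = ∑ T ∈ (GP P Q).powerset, ∑ T' ∈ (GP P Q).powerset,
      lam T * lam T' * (if dd (T ∪ T') ∣ z then (1 : ℝ) else 0) := by
  have h1 : ((GP P Q).filter (fun π => π ∣ z)).powerset =
      (GP P Q).powerset.filter (fun T => ∀ π ∈ T, π ∣ z) := by
    ext T
    simp only [Finset.mem_powerset, Finset.mem_filter]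
    constructor
    · intro h
      exact ⟨fun π hπ => (Finset.mem_filter.1 (h hπ)).1, fun π hπ => (Finset.mem_filter.1 (h hπ)).2⟩
    · rintro ⟨h, h'⟩ π hπ
      exact Finset.mem_filter.2 ⟨h hπ, h' π hπ⟩
  unfold ws
  rw [h1, Finset.sum_filter, sq, Finset.sum_mul_sum]
  refine Finset.sum_congr rfl fun T hT => Finset.sum_congr rfl fun T' hT' => ?_
  have hTT : T ∪ T' ⊆ GP P Q :=
    Finset.union_subset (Finset.mem_powerset.1 hT) (Finset.mem_powerset.1 hT')
  have h2 : dd (T ∪ T') ∣ z ↔ (∀ π ∈ T, π ∣ z) ∧ (∀ π ∈ T', π ∣ z) := by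
    rw [dd_dvd_iff hTT]
    constructor
    · intro h
      exact ⟨fun π hπ => h π (Finset.mem_union_left _ hπ), fun π hπ => h π (Finset.mem_union_right _ hπ)⟩
    · rintro ⟨h, h'⟩ π hπ
      rcases Finset.mem_union.1 hπ with h3 | h3
      · exact h π h3
      · exact h' π h3
  by_cases ha : ∀ π ∈ T, π ∣ z
  · by_cases hb : ∀ π ∈ T', π ∣ z
    · rw [if_pos ha, if_pos hb, if_pos (h2.2 ⟨ha, hb⟩), mul_one]
    · rw [if_neg hb, if_neg (fun h => hb (h2.1 h).2), mul_zero, mul_zero]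
  · rw [if_neg ha, if_neg (fun h => ha (h2.1 h).1), zero_mul, mul_zero]

open scoped Classical in
lemma card_fiber (x x' : ℝ) {d : Gi} (hd : d ≠ 0) :
    ((ann x x').filter (fun z => d ∣ z)).card = (ann (x / nm d) (x' / nm d)).card := by
  have hpos := nm_posR hd
  symm
  refine Finset.card_bij (fun z _ => d * z) ?_ ?_ ?_
  · intro z hz
    rw [mem_ann] at hz
    rw [Finset.mem_filter, mem_ann]
    refine ⟨⟨mul_ne_zero hd hz.1, ?_, ?_⟩, dvd_mul_right d z⟩
    · rw [nm_mul, Nat.cast_mul, mul_comm]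
      exact (div_lt_iff₀ hpos).1 hz.2.1
    · rw [nm_mul, Nat.cast_mul, mul_comm]
      exact (le_div_iff₀ hpos).1 hz.2.2
  · intro a _ b _ hab
    exact mul_left_cancel₀ hd hab
  · intro z hz
    rw [Finset.mem_filter, mem_ann] at hz
    obtain ⟨⟨h0, h1, h2⟩, w, rfl⟩ := hz
    refine ⟨w, ?_, rfl⟩
    rw [mem_ann]
    rw [nm_mul, Nat.cast_mul, mul_comm] at h1 h2
    exact ⟨right_ne_zero_of_mul h0, (div_lt_iff₀ hpos).2 h1, (le_div_iff₀ hpos).2 h2⟩

lemma card_ann {C : ℝ} (hC : ∀ Y : ℝ, 0 ≤ Y → |((disc Y).card : ℝ) - Real.pi * Y| ≤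
    C * (Real.sqrt Y + 1)) {u u' : ℝ} (hu : 0 ≤ u) (huu : u ≤ u') (hC0 : 0 ≤ C) :
    |((ann u u').card : ℝ) - Real.pi * (u' - u)| ≤ 2 * C * (Real.sqrt u' + 1) := by
  have h1 : ((disc u').card : ℝ) = (disc u).card + (ann u u').card := by
    rw [disc_union huu, Finset.card_union_of_disjoint (disc_disjoint u u'), Nat.cast_add]
  have h2 := hC u hu
  have h3 := hC u' (hu.trans huu)
  have h4 := Real.sqrt_le_sqrt huu
  rw [abs_le] at *
  constructor
  · nlinarith [h2.1, h2.2, h3.1, h3.2, h4]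
  · nlinarith [h2.1, h2.2, h3.1, h3.2, h4]

lemma card_lam {P Q y : ℝ} {lam : Finset Gi → ℝ} (hy : 0 ≤ y)
    (h : ∀ T, lam T ≠ 0 → T ⊆ GP P Q ∧ NN T ≤ y) :
    (((GP P Q).powerset.filter (fun T => lam T ≠ 0)).card : ℝ) ≤ 9 * y := by
  refine le_trans ?_ (card_disc_le hy)
  have h1 : ((GP P Q).powerset.filter (fun T => lam T ≠ 0)).card ≤ (disc y).card := by
    refine Finset.card_le_card_of_injOn dd ?_ ?_
    · intro T hT
      have hT' := (Finset.mem_filter.1 hT).2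
      have := h T hT'
      rw [Finset.mem_coe, mem_disc]
      exact ⟨dd_ne_zero this.1, by rw [nm_dd]; exact this.2⟩
    · intro T hT T' hT' hTT
      have hT1 := (h T (Finset.mem_filter.1 hT).2).1
      have hT2 := (h T' (Finset.mem_filter.1 hT').2).1
      exact Finset.Subset.antisymm (dd_inj hT1 hT2 hTT) (dd_inj hT2 hT1 hTT.symm)
  exact_mod_cast h1

end SELZM

open SELZM in
theorem specSELZ (hSELA : SpecSELA) (hSELG : SpecSELG) (hCOUNT : SpecCount) : SpecSELZ := by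
  classical
  obtain ⟨c₀, c, hc0, hc1, hc, hG⟩ := hSELG
  obtain ⟨C1, hC1, hcnt⟩ := hCOUNT 1 one_pos
  have hcnt' : ∀ Y : ℝ, 0 ≤ Y → |((disc Y).card : ℝ) - Real.pi * Y| ≤ C1 * (Real.sqrt Y + 1) := by
    intro Y hY
    have h := hcnt 0 Y hY
    have e1 : (disc Y).filter (fun z : Gi => ((1 : ℕ) : ℤ) ∣ z.re - (0 : Gi).re ∧
        ((1 : ℕ) : ℤ) ∣ z.im - (0 : Gi).im) = disc Y := by
      apply Finset.filter_true_of_mem
      intro z _
      simp
    rw [e1] at h
    simpa using h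
  refine ⟨Real.pi / c + 9 + 162 * C1, c₀, by positivity, hc0, hc1, ?_⟩
  intro y hy
  have hlog : 0 < Real.log y := Real.log_pos (by linarith)
  set S := GP 3 (y ^ c₀) with hS
  obtain ⟨lam, hl0, hl1, hl2, hQ⟩ := hSELA S (fun π => (nm π : ℝ)) y (by
    intro i hi
    have := (mem_GP.1 hi).2.2.2.2.1
    linarith) (by linarith)
  have hl2' : ∀ T, lam T ≠ 0 → T ⊆ S ∧ NN T ≤ y := fun T hT => hl2 T hT
  have hcard := card_lam (P := 3) (Q := y ^ c₀) (y := y) (by linarith) hl2'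
  refine ⟨lam, hl0, hl1, hl2', ?_, ?_⟩
  · refine hcard.trans ?_
    have : 0 ≤ Real.pi / c + 162 * C1 := by positivity
    nlinarith
  intro x x' hx hxx
  -- the quadratic form
  set QF : ℝ := ∑ T ∈ S.powerset, ∑ T' ∈ S.powerset, lam T * lam T' / ∏ i ∈ T ∪ T', (nm i : ℝ) with hQF
  set G : ℝ := ∑ T ∈ S.powerset.filter (fun T => NN T ≤ y), ∏ π ∈ T, 1 / ((nm π : ℝ) - 1) with hGd
  have hGl : c * Real.log y ≤ G := hG y hy
  have hGpos : 0 < G := lt_of_lt_of_le (by positivity) hGl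
  have hQ1 : QF * G ≤ 1 := hQ
  have hQ2 : QF ≤ 1 / (c * Real.log y) := by
    rcases le_or_gt QF 0 with h | h
    · exact h.trans (by positivity)
    · rw [le_div_iff₀ (by positivity)]
      calc QF * (c * Real.log y) ≤ QF * G := by gcongr
        _ ≤ 1 := hQ1
  -- expansion
  set B : ℝ := 2 * C1 * (Real.sqrt x' + 1) with hB
  have hB0 : 0 ≤ B := by positivity
  have hcount : ∀ T ∈ S.powerset, ∀ T' ∈ S.powerset,
      |(((ann x x').filter (fun z => dd (T ∪ T') ∣ z)).card : ℝ) -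
        Real.pi * (x' - x) / ∏ i ∈ T ∪ T', (nm i : ℝ)| ≤ B := by
    intro T hT T' hT'
    have hTT : T ∪ T' ⊆ GP 3 (y ^ c₀) :=
      Finset.union_subset (Finset.mem_powerset.1 hT) (Finset.mem_powerset.1 hT')
    have hd := dd_ne_zero hTT
    have h1 := one_le_nm hd
    have hpos := nm_posR hd
    rw [card_fiber x x' hd]
    have h2 : (∏ i ∈ T ∪ T', (nm i : ℝ)) = ((nm (dd (T ∪ T')) : ℕ) : ℝ) := (nm_dd _).symm
    rw [h2]
    have h3 := card_ann hcnt' (u := x / nm (dd (T ∪ T'))) (u' := x' / nm (dd (T ∪ T')))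
      (by positivity) (by gcongr) hC1.le
    have e : Real.pi * (x' - x) / ((nm (dd (T ∪ T')) : ℕ) : ℝ) =
        Real.pi * (x' / nm (dd (T ∪ T')) - x / nm (dd (T ∪ T'))) := by ring
    rw [e]
    refine h3.trans ?_
    rw [hB]
    have h4 : Real.sqrt (x' / nm (dd (T ∪ T'))) ≤ Real.sqrt x' := by
      apply Real.sqrt_le_sqrt
      exact div_le_self (hx.trans hxx) h1
    gcongr
  have hexp : ∑ z ∈ ann x x', ws S lam z = ∑ T ∈ S.powerset, ∑ T' ∈ S.powerset,
      lam T * lam T' * (((ann x x').filter (fun z => dd (T ∪ T') ∣ z)).card : ℝ) := by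
    have h1 : ∀ z ∈ ann x x', ws S lam z = ∑ T ∈ S.powerset, ∑ T' ∈ S.powerset,
        lam T * lam T' * (if dd (T ∪ T') ∣ z then (1 : ℝ) else 0) := fun z _ => ws_eq lam z
    rw [Finset.sum_congr rfl h1, Finset.sum_comm]
    refine Finset.sum_congr rfl fun T _ => ?_
    rw [Finset.sum_comm]
    refine Finset.sum_congr rfl fun T' _ => ?_
    rw [← Finset.mul_sum, Finset.sum_ite, Finset.sum_const_zero, add_zero, Finset.sum_const,
      nsmul_eq_mul, mul_one]
  rw [hexp]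
  have hmain : ∑ T ∈ S.powerset, ∑ T' ∈ S.powerset,
      lam T * lam T' * (((ann x x').filter (fun z => dd (T ∪ T') ∣ z)).card : ℝ) ≤
      Real.pi * (x' - x) * QF + ∑ T ∈ S.powerset, ∑ T' ∈ S.powerset, |lam T| * |lam T'| * B := by
    rw [hQF, Finset.mul_sum, ← Finset.sum_add_distrib]
    refine Finset.sum_le_sum fun T hT => ?_
    rw [Finset.mul_sum, ← Finset.sum_add_distrib]
    refine Finset.sum_le_sum fun T' hT' => ?_
    have h1 := hcount T hT T' hT'
    set cd : ℝ := (((ann x x').filter (fun z => dd (T ∪ T') ∣ z)).card : ℝ) with hcd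
    have h2 : lam T * lam T' * cd - lam T * lam T' * (Real.pi * (x' - x) / ∏ i ∈ T ∪ T', (nm i : ℝ)) ≤
        |lam T| * |lam T'| * B := by
      rw [← mul_sub]
      refine (le_abs_self _).trans ?_
      rw [abs_mul, abs_mul]
      gcongr
    have e : Real.pi * (x' - x) * (lam T * lam T' / ∏ i ∈ T ∪ T', (nm i : ℝ)) =
        lam T * lam T' * (Real.pi * (x' - x) / ∏ i ∈ T ∪ T', (nm i : ℝ)) := by ring
    rw [e]
    linarith
  refine hmain.trans ?_
  have hsum : ∑ T ∈ S.powerset, |lam T| ≤ 9 * y := by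
    refine le_trans ?_ hcard
    have h1 : ∑ T ∈ S.powerset, |lam T| = ∑ T ∈ S.powerset.filter (fun T => lam T ≠ 0), |lam T| := by
      rw [Finset.sum_filter]
      refine Finset.sum_congr rfl fun T _ => ?_
      split_ifs with h
      · rfl
      · push Not at h
        rw [h, abs_zero]
    rw [h1]
    calc ∑ T ∈ S.powerset.filter (fun T => lam T ≠ 0), |lam T|
        ≤ ∑ T ∈ S.powerset.filter (fun T => lam T ≠ 0), (1 : ℝ) :=
          Finset.sum_le_sum fun T _ => hl1 T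
      _ = _ := by rw [Finset.sum_const, nsmul_eq_mul, mul_one]
  have hs0 : 0 ≤ ∑ T ∈ S.powerset, |lam T| := Finset.sum_nonneg fun _ _ => abs_nonneg _
  have herr : ∑ T ∈ S.powerset, ∑ T' ∈ S.powerset, |lam T| * |lam T'| * B ≤ 81 * y ^ 2 * B := by
    have e : ∑ T ∈ S.powerset, ∑ T' ∈ S.powerset, |lam T| * |lam T'| * B =
        (∑ T ∈ S.powerset, |lam T|) * (∑ T ∈ S.powerset, |lam T|) * B := by
      rw [Finset.sum_mul_sum, Finset.sum_mul]
      refine Finset.sum_congr rfl fun T _ => ?_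
      rw [Finset.sum_mul]
    rw [e]
    have h2 : (∑ T ∈ S.powerset, |lam T|) * (∑ T ∈ S.powerset, |lam T|) ≤ (9 * y) * (9 * y) :=
      mul_le_mul hsum hsum hs0 (by linarith)
    calc _ ≤ (9 * y) * (9 * y) * B := by gcongr
      _ = 81 * y ^ 2 * B := by ring
  have h5 : Real.pi * (x' - x) * QF ≤ Real.pi / c * (x' - x) / Real.log y := by
    have : Real.pi * (x' - x) * QF ≤ Real.pi * (x' - x) * (1 / (c * Real.log y)) := by
      have : 0 ≤ Real.pi * (x' - x) := mul_nonneg Real.pi_pos.le (by linarith)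
      gcongr
    refine this.trans (le_of_eq ?_)
    field_simp
  have h6 : 81 * y ^ 2 * B = 162 * C1 * y ^ 2 * (Real.sqrt x' + 1) := by rw [hB]; ring
  rw [h6] at herr
  have h7 : 0 ≤ (x' - x) / Real.log y := div_nonneg (by linarith) hlog.le
  have h8 : 0 ≤ y ^ 2 * (Real.sqrt x' + 1) := by positivity
  have h9 : (Real.pi / c + 9 + 162 * C1) * (x' - x) / Real.log y =
      Real.pi / c * (x' - x) / Real.log y + (9 + 162 * C1) * ((x' - x) / Real.log y) := by ring
  have h10 : (Real.pi / c + 9 + 162 * C1) * y ^ 2 * (Real.sqrt x' + 1) =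
      162 * C1 * y ^ 2 * (Real.sqrt x' + 1) + (Real.pi / c + 9) * (y ^ 2 * (Real.sqrt x' + 1)) := by ring
  rw [h9, h10]
  have h11 : 0 ≤ (9 + 162 * C1) * ((x' - x) / Real.log y) := by positivity
  have h12 : 0 ≤ (Real.pi / c + 9) * (y ^ 2 * (Real.sqrt x' + 1)) := by positivity
  linarith

end Pool.Agent.Lib.MP391708.XH
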