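import Pool.Agent.Lib.MP_391708_nt.X.PSI
import Pool.Agent.Lib.MP_391708_nt.X.ORT
import Pool.Agent.Lib.MP_391708_nt.X.CELA
import Pool.Agent.Lib.MP_391708_nt.X.CELB
import Pool.Agent.Lib.MP_391708_nt.X.CELS
import Pool.Agent.Lib.MP_391708_nt.X.VPL
import Pool.Agent.Lib.MP_391708_nt.X.RRL
import Pool.Agent.Lib.MP_391708_nt.X.RRA
import Pool.Agent.Lib.MP_391708_nt.X.KSB
import Pool.Agent.Lib.MP_391708_nt.X.GPL
import Pool.Agent.Lib.MP_391708_nt.X.CEL2
import Pool.Agent.Lib.MP_391708_nt.X.HM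
import Pool.Agent.Lib.MP_391708_nt.X.SELA
import Pool.Agent.Lib.MP_391708_nt.X.SELG
import Pool.Agent.Lib.MP_391708_nt.X.SELZ
import Pool.Agent.Lib.MP_391708_nt.X.SELX
import Pool.Agent.Lib.MP_391708_nt.X.BTG
import Pool.Agent.Lib.MP_391708_nt.X.HML
import Pool.Agent.Lib.MP_391708_nt.X.HMC
import Pool.Agent.Lib.MP_391708_nt.MR.PG
import Pool.Agent.Lib.MP_391708_nt.MR.Count
import Pool.Agent.Lib.MP_391708_nt.QPA.PNTAP

/-!
# THEOREM X (MP_391708): all statements of `X/SpecHML.lean`, `X/SpecCEL.lean` and `X/CEL2.lean`, without hypotheses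
-/

set_option autoImplicit false

namespace Pool.Agent.Lib.MP391708.X

open Pool.Agent.Lib.MP391708.MR

theorem ce_selz : XH.SpecSELZ := XH.specSELZ XH.specSELA (XH.specSELG specPG) specCount
theorem ce_btg : XH.SpecBTG := XH.specBTG ce_selz
theorem ce_hml : XH.SpecHML := XH.specHML ce_selz XH.specSELX
theorem ce_hmc : XH.SpecHMC := XH.specHMC ce_hml ce_btg

theorem ce_psi : SpecPSI := specPSI
theorem ce_ort : SpecORT := specORT hm_par
theorem ce_cela : SpecCELA := specCELA ce_psi ce_ort ce_hml ce_hmc ce_btg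
theorem ce_celb : SpecCELB := specCELB ce_cela
theorem ce_cels : SpecCELS := specCELS ce_celb
theorem ce_vpl : SpecVPL := specVPL specPG
theorem ce_rrl : SpecRRL := specRRL hm_rg0 ce_vpl
theorem ce_rra : SpecRRA := specRRA hm_rg0
theorem ce_ksb : SpecKSB := specKSB ce_psi ce_cels ce_rrl
theorem ce_gpl : SpecGPL := specGPL QPA.specPNTAP

/-- the same statements with `F ≤ N ^ 2` -/
theorem ce2_ort : C2.SpecORT := C2.specORT hm_par
theorem ce2_cela : C2.SpecCELA := C2.specCELA ce_psi ce2_ort ce_hml ce_hmc ce_btg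
theorem ce2_celb : C2.SpecCELB := C2.specCELB ce2_cela
theorem ce2_cels : C2.SpecCELS := C2.specCELS ce2_celb
theorem ce2_ksb : C2.SpecKSB := C2.specKSB ce_psi ce2_cels ce_rrl

end Pool.Agent.Lib.MP391708.X
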