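import Pool.Agent.Lib.MP_391708_nt.X.SpecLS
import Pool.Agent.Lib.MP_391708_nt.MR.Basic

/-!
# THEOREM X (MP_391708), module CHB: characters modulo a rational integer
-/

set_option autoImplicit false

namespace Pool.Agent.Lib.MP391708.XL

open Finset Filter Topology Pool.Agent.Lib.MP391708.MR Pool.Agent.Lib.MP391708.X
open scoped ComplexConjugate

namespace CHBM

lemma mul_star (z : Gi) : z * star z = ((nm z : ℕ) : Gi) := by
  have h : ((nm z : ℕ) : ℤ) = z.re * z.re + z.im * z.im := by rw [nm_cast]; ring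
  apply Zsqrtd.ext
  · simp only [Zsqrtd.re_mul, Zsqrtd.re_star, Zsqrtd.im_star, Zsqrtd.re_natCast]
    rw [h]; ring
  · simp only [Zsqrtd.im_mul, Zsqrtd.re_star, Zsqrtd.im_star, Zsqrtd.im_natCast]
    ring

/-- coprime in `ℤ[i]` iff the norm is coprime -/
lemma coprime_iff (v : Gi) (q : ℕ) : IsCoprime v (q : Gi) ↔ Nat.Coprime (nm v) q := by
  constructor
  · rintro ⟨x, y, h⟩
    have h1 : star v * star x + (q : Gi) * star y = 1 := by
      have := congrArg star h
      simpa [mul_comm] using this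
    -- multiply
    have h2 : IsCoprime (v * star v) (q : Gi) := by
      refine IsCoprime.mul_left ⟨x, y, h⟩ ⟨star x, star y, ?_⟩
      rw [← h1]; ring
    rw [mul_star] at h2
    obtain ⟨a, b, hab⟩ := h2
    have h3 := congrArg Zsqrtd.re hab
    have h4 : a.re * (nm v : ℤ) + b.re * (q : ℤ) = 1 := by
      simpa using h3
    exact Nat.isCoprime_iff_coprime.1 ⟨a.re, b.re, h4⟩
  · intro h
    have h1 : IsCoprime ((nm v : ℕ) : ℤ) (q : ℤ) := Nat.isCoprime_iff_coprime.2 h
    obtain ⟨a, b, hab⟩ := h1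
    refine ⟨(a : Gi) * star v, (b : Gi), ?_⟩
    have h2 : ((a * (nm v : ℤ) + b * (q : ℤ) : ℤ) : Gi) = 1 := by rw [hab]; simp
    have h3 : (a : Gi) * star v * v = (a : Gi) * ((nm v : ℕ) : Gi) := by rw [← mul_star]; ring
    rw [h3, ← h2]
    push_cast
    ring

end CHBM

open CHBM in
theorem specCHB : SpecCHB := by
  intro q χ hq h
  have hq0 : (q : Gi) ≠ 0 := by exact_mod_cast hq.ne'
  have hC : Chi χ := ⟨h.one, h.mul, ⟨(q : Gi), hq0, h.period, h.supp⟩⟩
  refine ⟨⟨h.mul, h.period, ?_, ?_⟩, ?_, hC.norm_le_one⟩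
  · intro v hv
    exact (coprime_iff v q).1 ((h.supp v).1 hv)
  · intro v hv
    exact hC.norm_eq_one ((h.supp v).2 ((coprime_iff v q).2 hv))
  · intro v hv
    exact (h.supp v).2 ((coprime_iff v q).2 hv)

end Pool.Agent.Lib.MP391708.XL
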