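import Pool.Agent.Lib.MP_391708_nt.X.SpecLS

/-! MP_391708, Theorem X, part LS, module CLS (helper86): one class modulo the norm. -/

set_option autoImplicit false

namespace Pool.Agent.Lib.MP391708.XL

open Finset Filter Topology Pool.Agent.Lib.MP391708.MR
open Pool.Agent.Lib.MP391708.QPA (PB)
open Pool.Agent.Lib.MP391708.X (ChiG rgh hk)
open scoped ComplexConjugate

namespace CLSM

theorem nm_int (w : Gi) : ((nm w : ℕ) : ℤ) = w.re ^ 2 + w.im ^ 2 := by
  unfold nm
  exact Int.natAbs_of_nonneg (by positivity)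

/-- divisibility in coordinates -/
theorem dvd_iff (w : Gi) (n b : ℤ) (hw : 0 < w.re ^ 2 + w.im ^ 2) :
    w ∣ pt n b ↔ (w.re ^ 2 + w.im ^ 2 ∣ n * w.re + b * w.im) ∧
      (w.re ^ 2 + w.im ^ 2 ∣ b * w.re - n * w.im) := by
  constructor
  · rintro ⟨v, hv⟩
    have h1 : n = w.re * v.re + (-1) * w.im * v.im := by
      have := congrArg Zsqrtd.re hv
      simpa [pt, Zsqrtd.re_mul] using this
    have h2 : b = w.re * v.im + w.im * v.re := by
      have := congrArg Zsqrtd.im hv
      simpa [pt, Zsqrtd.im_mul] using this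
    exact ⟨⟨v.re, by rw [h1, h2]; ring⟩, ⟨v.im, by rw [h1, h2]; ring⟩⟩
  · rintro ⟨⟨x, hx⟩, ⟨y, hy⟩⟩
    refine ⟨⟨x, y⟩, ?_⟩
    have h1 : (w.re ^ 2 + w.im ^ 2) * n = (w.re ^ 2 + w.im ^ 2) * (w.re * x + (-1) * w.im * y) := by
      have e : (w.re ^ 2 + w.im ^ 2) * n =
          w.re * (n * w.re + b * w.im) - w.im * (b * w.re - n * w.im) := by ring
      rw [e, hx, hy]; ring
    have h2 : (w.re ^ 2 + w.im ^ 2) * b = (w.re ^ 2 + w.im ^ 2) * (w.re * y + w.im * x) := by
      have e : (w.re ^ 2 + w.im ^ 2) * b =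
          w.im * (n * w.re + b * w.im) + w.re * (b * w.re - n * w.im) := by ring
      rw [e, hx, hy]; ring
    apply Zsqrtd.ext
    · have := mul_left_cancel₀ hw.ne' h1
      simpa [pt, Zsqrtd.re_mul] using this
    · have := mul_left_cancel₀ hw.ne' h2
      simpa [pt, Zsqrtd.im_mul] using this

end CLSM

open CLSM

theorem specCLS : SpecCLS := by
  intro w b hw
  have hcop : IsCoprime w.re w.im := Int.isCoprime_iff_gcd_eq_one.mpr hw
  have hpos : 0 < w.re ^ 2 + w.im ^ 2 := by
    rcases eq_or_ne w.re 0 with h | h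
    · rcases eq_or_ne w.im 0 with h' | h'
      · exfalso
        unfold prim at hw
        rw [h, h'] at hw
        simp at hw
      · have := pow_pos (abs_pos.mpr h') 2
        rw [sq_abs] at this
        nlinarith [sq_nonneg w.re]
    · have := pow_pos (abs_pos.mpr h) 2
      rw [sq_abs] at this
      nlinarith [sq_nonneg w.im]
  refine ⟨by
    have h := nm_int w
    have : (0 : ℤ) < (nm w : ℤ) := by rw [h]; exact hpos
    exact_mod_cast this, ?_⟩
  have hdN : IsCoprime w.im (w.re ^ 2 + w.im ^ 2) := by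
    have h1 : IsCoprime w.im (w.re ^ 2) := (IsCoprime.pow_right hcop.symm)
    have h2 : w.re ^ 2 + w.im ^ 2 = w.re ^ 2 + w.im * w.im := by ring
    rw [h2]
    exact IsCoprime.add_mul_left_right h1 w.im
  obtain ⟨e, f, hef⟩ := hdN
  refine ⟨b * w.re * e, ?_⟩
  intro n
  rw [dvd_iff w n b hpos, nm_int]
  set N : ℤ := w.re ^ 2 + w.im ^ 2 with hN
  constructor
  · rintro ⟨_, ⟨t, ht⟩⟩
    refine ⟨n * f - e * t, ?_⟩
    have h1 : e * (b * w.re - n * w.im) = e * (N * t) := by rw [ht]
    have h2 : n * (e * w.im + f * N) = n * 1 := by rw [hef]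
    linear_combination (-1) * h1 - h2
  · rintro ⟨t, ht⟩
    have h2 : N ∣ b * w.re - n * w.im := by
      refine ⟨b * w.re * f - w.im * t, ?_⟩
      have h3 : b * w.re * (e * w.im + f * N) = b * w.re * 1 := by rw [hef]
      have h4 : w.im * (n - b * w.re * e) = w.im * (N * t) := by rw [ht]
      linear_combination (-1) * h3 - h4
    refine ⟨?_, h2⟩
    have h5 : N ∣ w.im * (n * w.re + b * w.im) := by
      obtain ⟨s, hs⟩ := h2
      refine ⟨b - w.re * s, ?_⟩
      have : w.re * (b * w.re - n * w.im) = w.re * (N * s) := by rw [hs]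
      have h6 : b * N = b * (w.re ^ 2 + w.im ^ 2) := by rw [hN]
      linear_combination (-1) * this - h6
    have hc : IsCoprime N w.im := ⟨f, e, by linarith⟩
    exact hc.dvd_of_dvd_mul_left h5

end Pool.Agent.Lib.MP391708.XL
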