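import Pool.Agent.Lib.MP_391708_nt.X.SpecLS

/-!
# CRT2: Chinese remainder theorem for sums
-/

set_option autoImplicit false

namespace Pool.Agent.Lib.MP391708.XL

open Finset

namespace CRT2M

theorem per_nat {R : Type} (D : ℕ) (f : ℤ → R) (h : ∀ n, f (n + D) = f n) (n : ℤ) (k : ℕ) :
    f (n + D * k) = f n := by
  induction k with
  | zero => simp
  | succ k ih =>
    have e : n + (D : ℤ) * ((k + 1 : ℕ) : ℤ) = (n + D * k) + D := by push_cast; ring
    rw [e, h, ih]

theorem per_mod {R : Type} (D : ℕ) (f : ℤ → R) (h : ∀ n, f (n + D) = f n) (n : ℕ) :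
    f ((n % D : ℕ) : ℤ) = f (n : ℤ) := by
  have e : (n : ℤ) = ((n % D : ℕ) : ℤ) + (D : ℤ) * ((n / D : ℕ) : ℤ) := by
    have := Nat.mod_add_div n D
    exact_mod_cast this.symm
  conv_rhs => rw [e]
  exact (per_nat D f h _ _).symm

end CRT2M

theorem specCRT2 : SpecCRT2 := by
  intro R _ D E f g hD hE hDE hf hg
  rw [Finset.sum_mul_sum, ← Finset.sum_product']
  refine Finset.sum_bij' (fun n _ => (n % D, n % E))
    (fun p _ => (Nat.chineseRemainder hDE p.1 p.2 : ℕ)) ?_ ?_ ?_ ?_ ?_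
  · intro n hn
    simp only [Finset.mem_product, Finset.mem_range]
    exact ⟨Nat.mod_lt _ hD, Nat.mod_lt _ hE⟩
  · intro p hp
    simp only [Finset.mem_range]
    exact Nat.chineseRemainder_lt_mul hDE p.1 p.2 hD.ne' hE.ne'
  · intro n hn
    simp only [Finset.mem_range] at hn
    have h1 := (Nat.chineseRemainder hDE (n % D) (n % E)).2
    have h2 : (Nat.chineseRemainder hDE (n % D) (n % E) : ℕ) ≡ n [MOD D * E] := by
      apply (Nat.modEq_and_modEq_iff_modEq_mul hDE).1
      exact ⟨h1.1.trans (Nat.mod_modEq n D), h1.2.trans (Nat.mod_modEq n E)⟩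
    exact Nat.ModEq.eq_of_lt_of_lt h2 (Nat.chineseRemainder_lt_mul hDE _ _ hD.ne' hE.ne') hn
  · intro p hp
    simp only [Finset.mem_product, Finset.mem_range] at hp
    have h1 := (Nat.chineseRemainder hDE p.1 p.2).2
    ext
    · exact Eq.trans (show _ % D = _ % D from h1.1) (Nat.mod_eq_of_lt hp.1)
    · exact Eq.trans (show _ % E = _ % E from h1.2) (Nat.mod_eq_of_lt hp.2)
  · intro n hn
    simp only
    rw [CRT2M.per_mod D f hf n, CRT2M.per_mod E g hg n]

end Pool.Agent.Lib.MP391708.XL
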