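import Pool.Agent.Lib.MP_391708_nt.X.SpecLS

/-!
# THEOREM X (MP_391708), part LS, module CRTP
-/

set_option autoImplicit false

namespace Pool.Agent.Lib.MP391708.XL

open Finset

namespace CRTPM

theorem per_mul {f : ℤ → ℝ} {D : ℕ} (h : ∀ n, f (n + D) = f n) (k : ℕ) (n : ℤ) :
    f (n + ((D * k : ℕ) : ℤ)) = f n := by
  induction k with
  | zero => simp
  | succ k ih =>
    have e : n + ((D * (k + 1) : ℕ) : ℤ) = (n + ((D * k : ℕ) : ℤ)) + (D : ℤ) := by
      push_cast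
      ring
    rw [e, h, ih]

end CRTPM

theorem specCRTP (hCRT2 : SpecCRT2) : SpecCRTP := by
  classical
  intro D P f h hD
  induction P using Finset.induction_on with
  | empty =>
    intro _ _ _
    simp
  | insert p P hpP ih =>
    intro hP hf hh
    have hP' : ∀ q ∈ P, q.Prime ∧ ¬ q ∣ D := fun q hq => hP q (mem_insert_of_mem hq)
    have hh' : ∀ q ∈ P, ∀ n, h q (n + q) = h q n := fun q hq => hh q (mem_insert_of_mem hq)
    have hp := hP p (mem_insert_self p P)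
    have ih' := ih hP' hf hh'
    have hpos : 0 < ∏ q ∈ P, q := Finset.prod_pos fun q hq => (hP' q hq).1.pos
    have hD' : 0 < D * ∏ q ∈ P, q := Nat.mul_pos hD hpos
    have hcop : Nat.Coprime (D * ∏ q ∈ P, q) p := by
      rw [Nat.coprime_comm, Nat.Prime.coprime_iff_not_dvd hp.1]
      intro hdvd
      rcases (Nat.Prime.dvd_mul hp.1).1 hdvd with h1 | h1
      · exact hp.2 h1
      · obtain ⟨q, hq, h2⟩ := (Prime.dvd_finsetProd_iff hp.1.prime _).1 h1
        have h3 := (Nat.prime_dvd_prime_iff_eq hp.1 (hP' q hq).1).1 h2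
        exact hpP (h3 ▸ hq)
    have hper : ∀ n : ℤ, (fun m : ℤ => f m * ∏ q ∈ P, h q m) (n + ((D * ∏ q ∈ P, q : ℕ) : ℤ)) =
        (fun m : ℤ => f m * ∏ q ∈ P, h q m) n := by
      intro n
      change f (n + ((D * ∏ q ∈ P, q : ℕ) : ℤ)) * ∏ q ∈ P, h q (n + ((D * ∏ q ∈ P, q : ℕ) : ℤ)) =
        f n * ∏ q ∈ P, h q n
      rw [CRTPM.per_mul hf]
      congr 1
      refine Finset.prod_congr rfl fun q hq => ?_
      obtain ⟨k, hk⟩ := dvd_mul_of_dvd_right (Finset.dvd_prod_of_mem (fun q => q) hq) D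
      have hk' : D * ∏ q ∈ P, q = q * k := hk
      rw [hk', CRTPM.per_mul (hh' q hq)]
    have key := hCRT2 ℝ (D * ∏ q ∈ P, q) p (fun m : ℤ => f m * ∏ q ∈ P, h q m) (h p) hD'
      hp.1.pos hcop hper (hh p (mem_insert_self p P))
    rw [Finset.prod_insert hpP, Finset.prod_insert hpP]
    have e1 : D * (p * ∏ q ∈ P, q) = (D * ∏ q ∈ P, q) * p := by ring
    rw [e1]
    have e2 : ∀ n : ℕ, f (n : ℤ) * ∏ q ∈ insert p P, h q (n : ℤ) =
        (f (n : ℤ) * ∏ q ∈ P, h q (n : ℤ)) * h p (n : ℤ) := by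
      intro n
      rw [Finset.prod_insert hpP]
      ring
    rw [Finset.sum_congr rfl fun n _ => e2 n]
    refine key.trans ?_
    rw [ih']
    ring

end Pool.Agent.Lib.MP391708.XL
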