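import Pool.Agent.Lib.MP_391708_nt.X.SpecHM
import Pool.Agent.Lib.MP_391708_nt.MR.Count

/-!
# CTU: lattice points in discs and residue classes, uniformly in the modulus
-/

set_option autoImplicit false

namespace Pool.Agent.Lib.MP391708.X

open Pool.Agent.Lib.MP391708.MR
open Finset Filter Topology MeasureTheory
open scoped ComplexConjugate


open CountM in
theorem specCTU : SpecCTU := by
  refine ⟨8 * Real.pi + 1, by positivity, ?_⟩
  intro m hm w Y hY
  have hm1 : (1 : ℝ) ≤ m := by exact_mod_cast hm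
  have hm0 : (0 : ℝ) < m := by linarith
  classical
  set r := Real.sqrt Y with hr
  have hr0 : 0 ≤ r := Real.sqrt_nonneg _
  have hrY : r ^ 2 = Y := Real.sq_sqrt hY
  set cond : Gi → Prop := fun z => (m : ℤ) ∣ z.re - w.re ∧ (m : ℤ) ∣ z.im - w.im with hcond
  set S := (disc Y).filter cond with hS
  set S1 := (insert 0 (disc Y)).filter cond with hS1
  have hmem : ∀ z, z ∈ S1 ↔ (nm z : ℝ) ≤ Y ∧ cond z := by
    intro z
    rw [hS1, mem_filter, mem_insert, mem_disc]
    constructor
    · rintro ⟨rfl | h, h2⟩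
      · exact ⟨by simpa using hY, h2⟩
      · exact ⟨h.2, h2⟩
    · rintro ⟨h1, h2⟩
      by_cases hz : z = 0
      · exact ⟨Or.inl hz, h2⟩
      · exact ⟨Or.inr ⟨hz, h1⟩, h2⟩
  have hsub : S ⊆ S1 := filter_subset_filter _ (subset_insert _ _)
  have hsub2 : S1 ⊆ insert 0 S := by
    intro z hz
    rw [hS1, mem_filter, mem_insert] at hz
    rw [mem_insert, hS, mem_filter]
    tauto
  have hc1 : (S.card : ℝ) ≤ S1.card := by exact_mod_cast card_le_card hsub
  have hc2 : (S1.card : ℝ) ≤ S.card + 1 := by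
    exact_mod_cast (card_le_card hsub2).trans (card_insert_le _ _)
  have hdisj : Set.PairwiseDisjoint (↑S1 : Set Gi) (sq m) := by
    intro z hz z' hz' hne
    rw [Function.onFun, Set.disjoint_left]
    rintro p ⟨⟨a1, a2⟩, a3, a4⟩ ⟨⟨b1, b2⟩, b3, b4⟩
    apply hne
    have hz := ((hmem z).1 hz).2
    have hz' := ((hmem z').1 hz').2
    have key : ∀ a b c : ℤ, (m : ℤ) ∣ a - c → (m : ℤ) ∣ b - c → (a : ℝ) < b + m →
        (b : ℝ) < a + m → a = b := by
      intro a b c h1 h2 h3 h4
      have h5 : (m : ℤ) ∣ a - b := by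
        have := dvd_sub h1 h2
        rwa [sub_sub_sub_cancel_right] at this
      have h3' : a < b + m := by exact_mod_cast h3
      have h4' : b < a + m := by exact_mod_cast h4
      have := Int.eq_zero_of_abs_lt_dvd h5 (by rw [abs_lt]; constructor <;> omega)
      omega
    exact Zsqrtd.ext (key _ _ _ hz.1 hz'.1 (by linarith) (by linarith))
      (key _ _ _ hz.2 hz'.2 (by linarith) (by linarith))
  have hvol : volume (⋃ z ∈ S1, sq m z) = ENNReal.ofReal (S1.card * (m : ℝ) ^ 2) := by
    rw [measure_biUnion_finset hdisj (fun z _ => measurableSet_sq m z),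
      Finset.sum_congr rfl (fun z _ => volume_sq m z), sum_const, nsmul_eq_mul,
      ENNReal.ofReal_mul (Nat.cast_nonneg _), ENNReal.ofReal_natCast]
  have hball : ∀ R : ℝ, 0 ≤ R → volume (Metric.closedBall (0 : ℂ) R) =
      ENNReal.ofReal (R ^ 2 * Real.pi) := by
    intro R hR
    rw [Complex.volume_closedBall, ENNReal.ofReal_mul (by positivity),
      ENNReal.ofReal_pow hR]
    congr 1
    rw [← NNReal.coe_real_pi, ENNReal.ofReal_coe_nnreal]
  -- upper bound
  have hup : (S1.card : ℝ) * (m : ℝ) ^ 2 ≤ (r + 2 * m) ^ 2 * Real.pi := by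
    have h1 : (⋃ z ∈ S1, sq m z) ⊆ Metric.closedBall (0 : ℂ) (r + 2 * m) := by
      intro p hp
      rw [Set.mem_iUnion₂] at hp
      obtain ⟨z, hz, hpz⟩ := hp
      rw [mem_closedBall_zero_iff]
      have h2 := norm_sub_le hpz
      have h3 : ‖GaussianInt.toComplex z‖ ≤ r := by
        rw [norm_toComplex]
        exact Real.sqrt_le_sqrt ((hmem z).1 hz).1
      calc ‖p‖ = ‖(p - GaussianInt.toComplex z) + GaussianInt.toComplex z‖ := by
            rw [sub_add_cancel]
        _ ≤ ‖p - GaussianInt.toComplex z‖ + ‖GaussianInt.toComplex z‖ := norm_add_le _ _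
        _ ≤ r + 2 * m := by linarith
    have h2 := measure_mono (μ := volume) h1
    rw [hvol, hball _ (by positivity), ENNReal.ofReal_le_ofReal_iff (by positivity)] at h2
    exact h2
  -- lower bound
  have hlow : (r ^ 2 - 4 * m * r) * Real.pi ≤ (S1.card : ℝ) * (m : ℝ) ^ 2 := by
    rcases lt_or_ge r (2 * m) with hlt | hge
    · have : (r ^ 2 - 4 * m * r) * Real.pi ≤ 0 := by
        apply mul_nonpos_of_nonpos_of_nonneg _ Real.pi_pos.le
        nlinarith
      have : 0 ≤ (S1.card : ℝ) * (m : ℝ) ^ 2 := by positivity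
      linarith
    · have h1 : Metric.closedBall (0 : ℂ) (r - 2 * m) ⊆ (⋃ z ∈ S1, sq m z) := by
        intro p hp
        rw [mem_closedBall_zero_iff] at hp
        set z : Gi := ⟨w.re + m * ⌊(p.re - w.re) / m⌋, w.im + m * ⌊(p.im - w.im) / m⌋⟩ with hz
        have key : ∀ (a : ℤ) (x : ℝ), ((a + m * ⌊(x - a) / m⌋ : ℤ) : ℝ) ≤ x ∧
            x < ((a + m * ⌊(x - a) / m⌋ : ℤ) : ℝ) + m := by
          intro a x
          have h2 := Int.floor_le ((x - a) / (m : ℝ))
          have h3 := Int.lt_floor_add_one ((x - a) / (m : ℝ))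
          rw [le_div_iff₀ hm0] at h2
          rw [div_lt_iff₀ hm0] at h3
          push_cast
          constructor <;> nlinarith
        have hpz : p ∈ sq m z := ⟨key w.re p.re, key w.im p.im⟩
        rw [Set.mem_iUnion₂]
        refine ⟨z, (hmem z).2 ⟨?_, ?_, ?_⟩, hpz⟩
        · have h2 := norm_sub_le hpz
          have h3 : ‖GaussianInt.toComplex z‖ ≤ r := by
            calc ‖GaussianInt.toComplex z‖ = ‖p - (p - GaussianInt.toComplex z)‖ := by
                  rw [sub_sub_cancel]
              _ ≤ ‖p‖ + ‖p - GaussianInt.toComplex z‖ := norm_sub_le _ _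
              _ ≤ r := by linarith
          rw [← nm_toComplex, ← hrY]
          exact pow_le_pow_left₀ (norm_nonneg _) h3 2
        · rw [hz]; simp
        · rw [hz]; simp
      have h2 := measure_mono (μ := volume) h1
      rw [hvol, hball _ (by linarith), ENNReal.ofReal_le_ofReal_iff (by positivity)] at h2
      refine le_trans ?_ h2
      apply mul_le_mul_of_nonneg_right _ Real.pi_pos.le
      nlinarith
  have hpi := Real.pi_pos
  have hdiv : Real.pi * Y / (m : ℝ) ^ 2 * (m : ℝ) ^ 2 = Real.pi * r ^ 2 := by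
    rw [div_mul_cancel₀ _ (by positivity), hrY]
  have hdiv2 : 4 * Real.pi * (r / m) * (m : ℝ) ^ 2 = 4 * Real.pi * r * m := by
    field_simp
  have hrm : 0 ≤ r / m := by positivity
  have hm2 : (0 : ℝ) < (m : ℝ) ^ 2 := by positivity
  have hprm : 0 ≤ Real.pi * (r / m) := by positivity
  rw [abs_le]
  constructor
  · -- lower
    have h1 : Real.pi * Y / (m : ℝ) ^ 2 - 4 * Real.pi * (r / m) ≤ S1.card := by
      have : (Real.pi * Y / (m : ℝ) ^ 2 - 4 * Real.pi * (r / m)) * (m : ℝ) ^ 2 ≤
          S1.card * (m : ℝ) ^ 2 := by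
        rw [sub_mul, hdiv, hdiv2]
        refine le_trans (le_of_eq ?_) hlow
        ring
      exact le_of_mul_le_mul_right this hm2
    nlinarith
  · have h1 : (S1.card : ℝ) ≤ Real.pi * Y / (m : ℝ) ^ 2 + 4 * Real.pi * (r / m) +
        4 * Real.pi := by
      have : (S1.card : ℝ) * (m : ℝ) ^ 2 ≤
          (Real.pi * Y / (m : ℝ) ^ 2 + 4 * Real.pi * (r / m) + 4 * Real.pi) * (m : ℝ) ^ 2 := by
        rw [add_mul, add_mul, hdiv, hdiv2]
        refine hup.trans (le_of_eq ?_)
        ring
      exact le_of_mul_le_mul_right this hm2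
    nlinarith

end Pool.Agent.Lib.MP391708.X
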