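import Pool.Agent.Lib.MP_391708_nt.X.SpecLS

/-!
# THEOREM X (MP_391708), part LS, module DEN (helper46): the density of `δ ∣ N(v)`
-/

set_option autoImplicit false

namespace Pool.Agent.Lib.MP391708.XL

open Finset Filter Topology Pool.Agent.Lib.MP391708.MR

namespace DENM

theorem nm_pt (n b : ℤ) : ((nm (pt n b) : ℕ) : ℤ) = n ^ 2 + b ^ 2 := by
  unfold nm pt
  exact Int.natAbs_of_nonneg (by positivity)

theorem dvd_iff (p : ℕ) (n b : ℤ) : p ∣ nm (pt n b) ↔ (p : ℤ) ∣ n ^ 2 + b ^ 2 := by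
  rw [← nm_pt, Int.natCast_dvd_natCast]

theorem dvd_per (p : ℕ) (n b : ℤ) : p ∣ nm (pt (n + p) b) ↔ p ∣ nm (pt n b) := by
  rw [dvd_iff, dvd_iff]
  have : (n + (p : ℤ)) ^ 2 + b ^ 2 = n ^ 2 + b ^ 2 + (p : ℤ) * (2 * n + p) := by ring
  rw [this]
  exact ⟨fun h => (dvd_add_left (dvd_mul_right _ _)).1 h,
    fun h => (dvd_add_left (dvd_mul_right _ _)).2 h⟩

theorem nm_posW (w : Gi) (hw : w ≠ 0) : 0 < nm w := by
  apply Nat.pos_of_ne_zero
  intro h
  unfold nm at h
  rw [Int.natAbs_eq_zero] at h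
  apply hw
  have h1 : w.re = 0 := by nlinarith [sq_nonneg w.re, sq_nonneg w.im]
  have h2 : w.im = 0 := by nlinarith [sq_nonneg w.re, sq_nonneg w.im]
  exact Zsqrtd.ext h1 h2

end DENM

open scoped Classical in
open DENM in
theorem specDEN (hCRTP : SpecCRTP) (hQT : SpecQT) : SpecDEN := by
  intro q δ F w b hq hw hsq hcop hper
  let f : ℤ → ℝ := fun n => if w ∣ pt n b then F (qt w n b) else 0
  let h : ℕ → ℤ → ℝ := fun p n => if p ∣ nm (pt n b) then 1 else 0
  have hD : 0 < q * nm w := Nat.mul_pos hq (nm_posW w hw)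
  have hP : ∀ p ∈ δ.primeFactors, p.Prime ∧ ¬ p ∣ q * nm w := by
    intro p hp
    have hpp := Nat.prime_of_mem_primeFactors hp
    refine ⟨hpp, fun hd => ?_⟩
    exact Nat.not_coprime_of_dvd_of_dvd hpp.one_lt (Nat.dvd_of_mem_primeFactors hp) hd hcop
  have hf : ∀ n, f (n + (q * nm w : ℕ)) = f n := by
    intro n
    show (if w ∣ pt (n + (q * nm w : ℕ)) b then F (qt w (n + (q * nm w : ℕ)) b) else 0) =
      if w ∣ pt n b then F (qt w n b) else 0
    by_cases hn : w ∣ pt n b
    · obtain ⟨h1, y, h2⟩ := (hQT w n b hw hn).2 q 1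
      rw [mul_one] at h1 h2
      rw [if_pos h1, if_pos hn, h2, hper]
    · have h1 : ¬ w ∣ pt (n + (q * nm w : ℕ)) b := by
        intro h1
        obtain ⟨h3, -⟩ := (hQT w _ b hw h1).2 q (-1)
        apply hn
        have h4 : n + (q * nm w : ℕ) + (q * nm w : ℕ) * (-1) = n := by ring
        rwa [h4] at h3
      rw [if_neg h1, if_neg hn]
  have hh : ∀ p ∈ δ.primeFactors, ∀ n, h p (n + p) = h p n := by
    intro p _ n
    show (if p ∣ nm (pt (n + p) b) then (1 : ℝ) else 0) = if p ∣ nm (pt n b) then 1 else 0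
    simp only [dvd_per]
  have key := hCRTP (q * nm w) δ.primeFactors f h hD hP hf hh
  rw [Nat.prod_primeFactors_of_squarefree hsq] at key
  have e1 : ∑ n ∈ range (q * nm w * δ), (if w ∣ pt n b ∧ δ ∣ nm (qt w n b) then F (qt w n b)
      else 0) = ∑ n ∈ range (q * nm w * δ), f n * ∏ p ∈ δ.primeFactors, h p n := by
    apply Finset.sum_congr rfl
    intro n _
    show _ = (if w ∣ pt n b then F (qt w n b) else 0) *
      ∏ p ∈ δ.primeFactors, (if p ∣ nm (pt n b) then (1 : ℝ) else 0)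
    by_cases hn : w ∣ pt n b
    · rw [if_pos hn]
      have h1 := (hQT w n b hw hn).1.2
      have h2 : δ ∣ nm (qt w n b) ↔ ∀ p ∈ δ.primeFactors, p ∣ nm (pt n b) := by
        constructor
        · intro hd p hp
          rw [← h1]
          exact (Nat.dvd_of_mem_primeFactors hp).trans (hd.trans (dvd_mul_left _ _))
        · intro hd
          have h3 : δ ∣ nm (pt n b) := by
            rw [← Nat.prod_primeFactors_of_squarefree hsq]
            apply Finset.prod_primes_dvd
            · intro p hp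
              exact (Nat.prime_of_mem_primeFactors hp).prime
            · exact hd
          rw [← h1] at h3
          exact (Nat.Coprime.dvd_mul_left (Nat.Coprime.coprime_dvd_right
            (dvd_mul_left _ _) hcop)).1 h3
      by_cases hd : δ ∣ nm (qt w n b)
      · rw [if_pos ⟨hn, hd⟩, Finset.prod_eq_one, mul_one]
        intro p hp
        rw [if_pos (h2.1 hd p hp)]
      · rw [if_neg (fun hc => hd hc.2)]
        have h4 : ∃ p ∈ δ.primeFactors, ¬ p ∣ nm (pt n b) := by
          by_contra hc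
          push Not at hc
          exact hd (h2.2 hc)
        obtain ⟨p, hp, hpn⟩ := h4
        rw [Finset.prod_eq_zero hp, mul_zero]
        rw [if_neg hpn]
    · rw [if_neg (fun hc => hn hc.1), if_neg hn, zero_mul]
  have e2 : ∀ p ∈ δ.primeFactors, ∑ n ∈ range p, h p n = (p : ℝ) * gb b p := by
    intro p hp
    have hp0 : (p : ℝ) ≠ 0 := by
      exact_mod_cast (Nat.prime_of_mem_primeFactors hp).pos.ne'
    unfold gb
    rw [mul_div_cancel₀ _ hp0]
    show ∑ n ∈ range p, (if p ∣ nm (pt n b) then (1 : ℝ) else 0) = _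
    rw [Finset.sum_boole]
  have e3 : ∏ p ∈ δ.primeFactors, ∑ n ∈ range p, h p n =
      ∏ p ∈ δ.primeFactors, ((p : ℝ) * gb b p) := Finset.prod_congr rfl e2
  rw [e1, key, e3]

end Pool.Agent.Lib.MP391708.XL
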