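import Pool.Agent.Lib.MP_391708_nt.X.SpecHM

/-!
# THEOREM X (MP_391708): common definitions

`n + i b = y z₁ π₃ π₄ π₂` (up to a unit), `N(z₁) ∈ (K/N(y), 2K/N(y)]`, `K = N/T`, `N(π₃) ∈ (P, 2P]`,
`N(π₄) ∈ (M₄, 2M₄]`, `M₄ = √N`, `N(π₂) ∈ (M₂, 2M₂]`, `M₂ = √N T/(16 P)`; `y` is a product of `k - 4` primes of norm
a power of `log N`.  `T, P, h, w` are powers of `log N`.
Characters: `ChiG`, `hk`, `Dist`, and rough numbers `rgh w z` (no prime of norm `≤ w`): `X/SpecHM.lean`.  The primes are those of `MR.GP` (open first quadrant, norm a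
rational prime `≡ 1 mod 4`).  All sums over `z'` run over `disc (N T)`.
-/

set_option autoImplicit false

namespace Pool.Agent.Lib.MP391708.X

open Finset Filter Topology Pool.Agent.Lib.MP391708.MR
open scoped ComplexConjugate

/-- the parameters of one scale: `N` the scale, `T` the number of points of a line, `P` the norm of `π₃`, `h` the fineness
of the radial cells, `w` the sifting limit -/
structure Par where
  N : ℝ
  T : ℝ
  P : ℝ
  h : ℝ
  w : ℝ

namespace Par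

/-- the norm of the outer variable `ζ = y z₁` -/
noncomputable def K (p : Par) : ℝ := p.N / p.T

/-- the norm of `π₄` -/
noncomputable def M4 (p : Par) : ℝ := Real.sqrt p.N

/-- the norm of `π₂` -/
noncomputable def M2 (p : Par) : ℝ := Real.sqrt p.N * p.T / (16 * p.P)

end Par

/-- the parameters as powers of `log N` -/
noncomputable def par (N cT cP ch cw : ℝ) : Par where
  N := N
  T := Real.log N ^ cT
  P := Real.log N ^ cP
  h := Real.log N ^ ch
  w := Real.log N ^ cw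

/-- an index `(f, χ, k)` of a Hecke character `z ↦ χ(z) (z/|z|)^k` -/
abbrev Ix := ℕ × (Gi → ℂ) × ℤ

/-- the Hecke character -/
noncomputable def psi (i : Ix) (z : Gi) : ℂ := hk i.2.1 i.2.2 z

/-- the index of the trivial character -/
def ix1 : Ix := (1, (fun _ => 1), 0)

/-- the admissible finite sets of Hecke characters: conductor at most `Q`, frequency at most `F`, invariant under units,
pairwise different, the trivial one included, at most `W` of them -/
structure UOK (Q F W : ℝ) (U : Finset Ix) : Prop where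
  ch : ∀ i ∈ U, 1 ≤ i.1 ∧ (i.1 : ℝ) ≤ Q ∧ ChiG (i.1 : Gi) i.2.1
  frq : ∀ i ∈ U, |(i.2.2 : ℝ)| ≤ F
  adm : ∀ i ∈ U, psi i ⟨0, 1⟩ = 1
  dif : ∀ i ∈ U, ∀ j ∈ U, i ≠ j → Dist i.2.1 j.2.1 i.2.2 j.2.2
  one : ix1 ∈ U
  card : (U.card : ℝ) ≤ W

/-- the lattice cell: `e^(j/h) ≤ N(z) < e^((j+1)/h)` -/
noncomputable def lc (h : ℝ) (j : ℕ) : Finset Gi :=
  (disc (Real.exp ((j + 1) / h))).filter (fun z => ⌊h * Real.log (nm z)⌋₊ = j)

open scoped Classical in
/-- the number of rough elements of the lattice cell -/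
noncomputable def RR (p : Par) (j : ℕ) : ℝ := (((lc p.h j).filter (rgh p.w)).card : ℝ)

/-- the sum of `ψ` over the `π₄` in the cell `v` -/
noncomputable def S4 (p : Par) (i : Ix) (v : ℕ) : ℂ := ∑ π ∈ cell p.h p.M4 (2 * p.M4) v, psi i π

/-- the sum of `ψ` over the `π₂` in the cell `v`, all associates -/
noncomputable def S2 (p : Par) (i : Ix) (v : ℕ) : ℂ := 4 * ∑ π ∈ cell p.h p.M2 (2 * p.M2) v, psi i π

/-- the coefficients of the model -/
noncomputable def cc (p : Par) (i : Ix) (v4 v2 : ℕ) : ℂ := S4 p i v4 * S2 p i v2 / (RR p (v4 + v2) : ℂ)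

open scoped Classical in
/-- the number of representations `z = u π₄ π₂`, `u` a unit, `π₄`, `π₂` in the cells `v4`, `v2` -/
noncomputable def eta (p : Par) (v4 v2 : ℕ) (z : Gi) : ℂ :=
  (((cell p.h p.M4 (2 * p.M4) v4 ×ˢ cell p.h p.M2 (2 * p.M2) v2).filter
    (fun q => Associated (q.1 * q.2) z)).card : ℂ)

open scoped Classical in
/-- the model of `eta` -/
noncomputable def kap (p : Par) (U : Finset Ix) (v4 v2 : ℕ) (z : Gi) : ℂ :=
  if z ∈ lc p.h (v4 + v2) ∧ rgh p.w z then ∑ i ∈ U, cc p i v4 v2 * conj (psi i z) else 0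

/-- the range of `v4` -/
noncomputable def I4 (p : Par) : Finset ℕ := VV p.h p.M4 (2 * p.M4)

/-- the range of `v2` -/
noncomputable def I2 (p : Par) : Finset ℕ := VV p.h p.M2 (2 * p.M2)

/-- `∑ eta` over all cells -/
noncomputable def Eta (p : Par) (z : Gi) : ℂ := ∑ v4 ∈ I4 p, ∑ v2 ∈ I2 p, eta p v4 v2 z

/-- `∑ kap` over all cells -/
noncomputable def Kap (p : Par) (U : Finset Ix) (z : Gi) : ℂ :=
  ∑ v4 ∈ I4 p, ∑ v2 ∈ I2 p, kap p U v4 v2 z

/-- `z` lies on the line `Im (ω z) = b`, in the half `Re (ω z) > 0` -/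
def On (ω : Gi) (b : ℕ) (z : Gi) : Prop := (ω * z).im = (b : ℤ) ∧ 0 < (ω * z).re

open scoped Classical in
/-- the sum of `g(z')` over the `π₃` and the `z'` with `Im (ζ π₃ z') = b`, `Re > 0` -/
noncomputable def ls (p : Par) (ζ : Gi) (b : ℕ) (g : Gi → ℂ) : ℂ :=
  ∑ π ∈ GP p.P (2 * p.P), ∑ z ∈ (disc (p.N * p.T)).filter (On (ζ * π) b), g z

/-- the variance: all primitive outer points `ζ` with norm in `(K, 2K]`, all `b ∈ (B, 2B]` -/
noncomputable def Var (p : Par) (B : ℝ) (g : Gi → ℂ) : ℝ :=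
  ∑ b ∈ Ioc ⌊B⌋₊ ⌊2 * B⌋₊, ∑ ζ ∈ (ann p.K (2 * p.K)).filter prim, ‖ls p ζ b g‖ ^ 2

/-- the sum over `z₁` for a fixed `y` -/
noncomputable def sy (p : Par) (y : Gi) (b : ℕ) (g : Gi → ℂ) : ℂ :=
  ∑ z₁ ∈ GP (p.K / nm y) (2 * p.K / nm y), ls p (y * z₁) b g

end Pool.Agent.Lib.MP391708.X
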