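import Pool.Agent.Lib.MP_391708_nt.X.SpecLS

/-!
# THEOREM X (MP_391708), part LS, module EQB: `E_q(F) VQ ≤ VS`
-/

set_option autoImplicit false

namespace Pool.Agent.Lib.MP391708.XL

open Finset Filter Topology Pool.Agent.Lib.MP391708.MR
open Pool.Agent.Lib.MP391708.QPA (PB)
open Pool.Agent.Lib.MP391708.X (ChiG rgh hk)
open scoped ComplexConjugate

namespace EQBM

theorem nm_pt (n b : ℤ) : ((nm (pt n b) : ℕ) : ℤ) = n ^ 2 + b ^ 2 := by
  unfold nm pt
  exact Int.natAbs_of_nonneg (by positivity)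

theorem dvd_shift (p : ℕ) (n b : ℤ) : p ∣ nm (pt (n + p) b) ↔ p ∣ nm (pt n b) := by
  rw [← Int.natCast_dvd_natCast, ← Int.natCast_dvd_natCast, nm_pt, nm_pt]
  have e : (n + (p : ℤ)) ^ 2 + b ^ 2 = (n ^ 2 + b ^ 2) + (p : ℤ) * (2 * n + p) := by ring
  rw [e]
  exact dvd_add_left (Dvd.intro _ rfl)

/-- a function of period `A` -/
theorem sum_per (g : ℤ → ℝ) (A m : ℕ) (hg : ∀ n, g (n + A) = g n) :
    ∑ n ∈ range (A * m), g (n : ℤ) = m * ∑ n ∈ range A, g (n : ℤ) := by
  have hk : ∀ (k : ℕ) (n : ℤ), g (n + (A * k : ℕ)) = g n := by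
    intro k
    induction k with
    | zero => intro n; simp
    | succ k ih =>
      intro n
      have e : n + ((A * (k + 1) : ℕ) : ℤ) = (n + (A * k : ℕ)) + (A : ℤ) := by
        push_cast
        ring
      rw [e, hg, ih]
  induction m with
  | zero => simp
  | succ m ih =>
    rw [Nat.mul_succ, Finset.sum_range_add, ih]
    have h : ∀ x ∈ range A, g ((A * m + x : ℕ) : ℤ) = g (x : ℤ) := by
      intro x _
      have e : ((A * m + x : ℕ) : ℤ) = (x : ℤ) + (A * m : ℕ) := by
        push_cast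
        ring
      rw [e, hk]
    rw [Finset.sum_congr rfl h]
    push_cast
    ring

theorem gb_nonneg (b : ℤ) (p : ℕ) : 0 ≤ gb b p := by
  unfold gb
  positivity

theorem gb_le_one (b : ℤ) (p : ℕ) : gb b p ≤ 1 := by
  unfold gb
  refine div_le_one_of_le₀ ?_ (Nat.cast_nonneg p)
  exact_mod_cast le_trans (Finset.card_filter_le _ _) (le_of_eq (Finset.card_range p))

open scoped Classical in
/-- the number of points of the class -/
theorem sum_class (w : Gi) (b n₀ : ℤ) (h0 : 0 < nm w)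
    (hn : ∀ n : ℤ, w ∣ pt n b ↔ (nm w : ℤ) ∣ n - n₀) :
    ∑ n ∈ range (nm w), (if w ∣ pt n b then (1 : ℝ) else 0) = 1 := by
  have hN : (0 : ℤ) < nm w := by exact_mod_cast h0
  have h1 : 0 ≤ n₀ % (nm w : ℤ) := Int.emod_nonneg _ hN.ne'
  have h2 : n₀ % (nm w : ℤ) < nm w := Int.emod_lt_of_pos _ hN
  rw [Finset.sum_eq_single (n₀ % (nm w : ℤ)).toNat]
  · rw [if_pos]
    rw [hn, Int.toNat_of_nonneg h1]
    have h3 : n₀ % (nm w : ℤ) - n₀ = (nm w : ℤ) * (-(n₀ / (nm w : ℤ))) := by
      have := Int.emod_add_mul_ediv n₀ (nm w : ℤ)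
      linarith
    rw [h3]
    exact Dvd.intro _ rfl
  · intro n hnr hne
    rw [if_neg]
    intro hd
    apply hne
    rw [hn] at hd
    have h4 : (n : ℤ) % (nm w : ℤ) = n₀ % (nm w : ℤ) := (Int.emod_emod_of_dvd _ (dvd_refl _)).symm ▸
      ((Int.emod_emod_of_dvd (n : ℤ) (dvd_refl (nm w : ℤ))).symm ▸
        (Int.emod_eq_emod_iff_emod_sub_eq_zero.2 (Int.emod_eq_zero_of_dvd hd)))
    have h5 : (n : ℤ) % (nm w : ℤ) = n :=
      Int.emod_eq_of_lt (Int.natCast_nonneg n) (by exact_mod_cast Finset.mem_range.1 hnr)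
    rw [← h4, h5, Int.toNat_natCast]
  · intro hnr
    exfalso
    apply hnr
    rw [Finset.mem_range]
    omega

theorem sum_h (b : ℤ) {p : ℕ} (hp : 0 < p) :
    ∑ n ∈ range p, (1 - (if p ∣ nm (pt (n : ℤ) b) then (1 : ℝ) else 0)) = p * (1 - gb b p) := by
  have hp' : (p : ℝ) ≠ 0 := by
    have : (0 : ℝ) < p := by exact_mod_cast hp
    exact this.ne'
  rw [Finset.sum_sub_distrib, Finset.sum_boole, Finset.sum_const, Finset.card_range, nsmul_eq_mul,
    mul_one]
  unfold gb
  rw [mul_sub, mul_one, mul_div_cancel₀ _ hp']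

end EQBM

open EQBM in
theorem specEQB (hCRTP : SpecCRTP) (hCLS : SpecCLS) (hQT : SpecQT) : SpecEQB := by
  intro q F w b z S hq hw hS hrg hF
  classical
  obtain ⟨hN, n₀, hn₀⟩ := hCLS w b hw
  have hw0 : w ≠ 0 := by
    rintro rfl
    simp [nm] at hN
  have hqR : (0 : ℝ) < q := by exact_mod_cast hq
  have hnn : 0 ≤ EE q F b w := by
    unfold EE
    refine mul_nonneg (by positivity) (Finset.sum_nonneg fun n _ => ?_)
    split_ifs
    · exact (hF.2.1 _).1
    · exact le_rfl
  set P : Finset ℕ := S.filter (fun p => p ∣ q) with hP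
  have hPp : ∀ p ∈ P, p.Prime ∧ ¬ p ∣ nm w := fun p hp =>
    ⟨(hS p (Finset.mem_filter.1 hp).1).1, hrg p (Finset.mem_filter.1 hp).1⟩
  set V : ℝ := ∏ p ∈ P, (1 - gb b p) with hV
  set h : ℕ → ℤ → ℝ := fun p n => 1 - (if p ∣ nm (pt n b) then (1 : ℝ) else 0) with hh
  set f : ℤ → ℝ := fun n => if w ∣ pt n b then (1 : ℝ) else 0 with hf
  have hh01 : ∀ p n, 0 ≤ h p n := by
    intro p n
    rw [hh]
    dsimp only
    split_ifs <;> norm_num
  have hfper : ∀ n, f (n + (nm w : ℕ)) = f n := by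
    intro n
    rw [hf]
    dsimp only
    have e : w ∣ pt (n + (nm w : ℕ)) b ↔ w ∣ pt n b := by
      rw [hn₀, hn₀]
      have e1 : n + ((nm w : ℕ) : ℤ) - n₀ = (n - n₀) + (nm w : ℤ) := by ring
      rw [e1]
      exact dvd_add_left (dvd_refl _)
    by_cases h1 : w ∣ pt n b
    · rw [if_pos h1, if_pos (e.2 h1)]
    · rw [if_neg h1, if_neg fun h2 => h1 (e.1 h2)]
  have hhper : ∀ (p : ℕ) (n : ℤ), h p (n + p) = h p n := by
    intro p n
    rw [hh]
    dsimp only
    by_cases h1 : p ∣ nm (pt n b)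
    · rw [if_pos h1, if_pos ((dvd_shift p n b).2 h1)]
    · rw [if_neg h1, if_neg fun h2 => h1 ((dvd_shift p n b).1 h2)]
  -- the sum over one period
  have hone : ∑ n ∈ range (nm w * ∏ p ∈ P, p), f n * ∏ p ∈ P, h p n = (∏ p ∈ P, (p : ℝ)) * V := by
    rw [hCRTP (nm w) P f h hN hPp hfper (fun p _ n => hhper p n)]
    have e1 : ∑ n ∈ range (nm w), f (n : ℤ) = 1 := sum_class w b n₀ hN hn₀
    rw [e1, one_mul, hV, ← Finset.prod_mul_distrib]
    exact Finset.prod_congr rfl fun p hp => sum_h b (hPp p hp).1.pos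
  -- the product of the primes divides `q`
  have hdvd : (∏ p ∈ P, p) ∣ q :=
    Finset.prod_primes_dvd q (fun p hp => (hPp p hp).1.prime) fun p hp => (Finset.mem_filter.1 hp).2
  obtain ⟨m, hm⟩ := hdvd
  have hperG : ∀ n : ℤ, f (n + (nm w * ∏ p ∈ P, p : ℕ)) *
      ∏ p ∈ P, h p (n + (nm w * ∏ p ∈ P, p : ℕ)) = f n * ∏ p ∈ P, h p n := by
    have hkf : ∀ (k : ℕ) (n : ℤ), f (n + (nm w * k : ℕ)) = f n := by
      intro k
      induction k with
      | zero => intro n; simp
      | succ k ih =>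
        intro n
        have e : n + ((nm w * (k + 1) : ℕ) : ℤ) = (n + (nm w * k : ℕ)) + ((nm w : ℕ) : ℤ) := by
          push_cast
          ring
        rw [e, hfper, ih]
    have hkh : ∀ (p k : ℕ) (n : ℤ), h p (n + (p * k : ℕ)) = h p n := by
      intro p k
      induction k with
      | zero => intro n; simp
      | succ k ih =>
        intro n
        have e : n + ((p * (k + 1) : ℕ) : ℤ) = (n + (p * k : ℕ)) + (p : ℤ) := by
          push_cast
          ring
        rw [e, hhper, ih]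
    intro n
    rw [hkf]
    congr 1
    refine Finset.prod_congr rfl fun p hp => ?_
    obtain ⟨k, hk⟩ := Finset.dvd_prod_of_mem (fun p => p) hp
    have e : nm w * ∏ p ∈ P, p = p * (nm w * k) := by
      have hk' : ∏ p ∈ P, p = p * k := hk
      rw [hk']
      ring
    rw [e, hkh]
  have hle : EE q F b w ≤ V := by
    unfold EE
    have h1 : ∑ n ∈ range (q * nm w), (if w ∣ pt n b then F (qt w n b) else 0) ≤
        ∑ n ∈ range (q * nm w), f n * ∏ p ∈ P, h p n := by
      refine Finset.sum_le_sum fun n _ => ?_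
      by_cases hwn : w ∣ pt n b
      · rw [if_pos hwn]
        have ef : f n = 1 := if_pos hwn
        rw [ef, one_mul]
        by_cases hF0 : F (qt w n b) = 0
        · rw [hF0]
          exact Finset.prod_nonneg fun p _ => hh01 p n
        · have hco := hF.2.2 _ hF0
          have hprod : ∏ p ∈ P, h p n = 1 := by
            refine Finset.prod_eq_one fun p hp => ?_
            have hnd : ¬ p ∣ nm (pt n b) := by
              rw [← ((hQT w n b hw0 hwn).1).2]
              intro hd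
              rcases (hPp p hp).1.dvd_mul.1 hd with h2 | h2
              · exact (hPp p hp).2 h2
              · exact (hPp p hp).1.one_lt.ne'
                  (Nat.dvd_one.1 (hco ▸ Nat.dvd_gcd h2 (Finset.mem_filter.1 hp).2))
            show 1 - (if p ∣ nm (pt n b) then (1 : ℝ) else 0) = 1
            rw [if_neg hnd, sub_zero]
          rw [hprod]
          exact (hF.2.1 _).2
      · rw [if_neg hwn]
        have ef : f n = 0 := if_neg hwn
        rw [ef, zero_mul]
    have h2 : ∑ n ∈ range (q * nm w), f n * ∏ p ∈ P, h p n = q * V := by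
      have e : q * nm w = (nm w * ∏ p ∈ P, p) * m := by
        conv_lhs => rw [hm]
        ring
      have h3 := sum_per (fun n => f n * ∏ p ∈ P, h p n) (nm w * ∏ p ∈ P, p) m hperG
      rw [e, h3, hone]
      have e2 : (q : ℝ) = (∏ p ∈ P, (p : ℝ)) * m := by
        conv_lhs => rw [hm]
        push_cast
        ring
      rw [e2]
      ring
    rw [h2] at h1
    calc 1 / (q : ℝ) * ∑ n ∈ range (q * nm w), (if w ∣ pt n b then F (qt w n b) else 0)
        ≤ 1 / (q : ℝ) * (q * V) := mul_le_mul_of_nonneg_left h1 (by positivity)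
      _ = V := by
        rw [← mul_assoc, one_div, inv_mul_cancel₀ hqR.ne', one_mul]
  have hV1 : V ≤ 1 := Finset.prod_le_one (fun p _ => by linarith [gb_le_one b p])
    (fun p _ => by linarith [gb_nonneg b p])
  have hVQ : 0 ≤ VQ q b S := Finset.prod_nonneg fun p _ => by linarith [gb_le_one b p]
  have hsplit : VS b S = V * VQ q b S := by
    unfold VS VQ
    rw [hV, hP, Finset.prod_filter_mul_prod_filter_not]
  refine ⟨hnn, ?_, hle.trans hV1⟩
  rw [hsplit]
  exact mul_le_mul_of_nonneg_right hle hVQ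

end Pool.Agent.Lib.MP391708.XL
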