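import Pool.Agent.Lib.MP_391708_nt.X.SpecLS
import Pool.Agent.Lib.MP_391708_nt.H20.Pl

/-!
# Theorem X (MP_391708_nt), module GBB: bounds for the densities
-/

set_option autoImplicit false

namespace Pool.Agent.Lib.MP391708.XL

open Finset Filter Topology Pool.Agent.Lib.MP391708.MR

namespace GBBM

theorem dvd_pt {b : ℤ} {p n : ℕ} : p ∣ nm (pt n b) ↔ (p : ℤ) ∣ (n : ℤ) ^ 2 + b ^ 2 := by
  unfold nm pt
  exact Int.natCast_dvd.symm

theorem root {b : ℤ} {p : ℕ} (hp : p.Prime) {n m : ℕ} (hn : n < p) (hm : m < p)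
    (h1 : p ∣ nm (pt n b)) (h2 : p ∣ nm (pt m b)) : n = m ∨ n + m = p ∧ p ≠ 2 := by
  rw [dvd_pt] at h1 h2
  by_cases hnm : n = m
  · exact Or.inl hnm
  right
  have h3 : (p : ℤ) ∣ ((n : ℤ) - m) * (n + m) := by
    have h4 := dvd_sub h1 h2
    have h5 : (n : ℤ) ^ 2 + b ^ 2 - ((m : ℤ) ^ 2 + b ^ 2) = ((n : ℤ) - m) * (n + m) := by ring
    rwa [h5] at h4
  have hpp : Prime (p : ℤ) := Nat.prime_iff_prime_int.1 hp
  have h6 : (p : ℤ) ∣ (n : ℤ) + m := by
    rcases hpp.dvd_or_dvd h3 with h | h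
    · exfalso
      obtain ⟨t, ht⟩ := h
      have hp0 : (0 : ℤ) < p := by exact_mod_cast hp.pos
      have h7 : t = 0 := by
        by_contra ht0
        rcases lt_or_gt_of_ne ht0 with h8 | h8
        · nlinarith
        · nlinarith
      rw [h7, mul_zero] at ht
      apply hnm
      omega
    · exact h
  have h7 : p ∣ n + m := by exact_mod_cast h6
  obtain ⟨t, ht⟩ := h7
  have h8 : t = 1 := by
    have h9 : t ≠ 0 := by
      rintro rfl
      rw [mul_zero] at ht
      omega
    have h10 : t < 2 := by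
      by_contra h11
      push Not at h11
      have : p * 2 ≤ p * t := Nat.mul_le_mul_left _ h11
      omega
    omega
  rw [h8, mul_one] at ht
  refine ⟨ht, ?_⟩
  rintro rfl
  omega

theorem card_le {b : ℤ} {p : ℕ} (hp : p.Prime) :
    ((range p).filter (fun n : ℕ => p ∣ nm (pt n b))).card ≤ 2 := by
  rcases Finset.eq_empty_or_nonempty ((range p).filter (fun n : ℕ => p ∣ nm (pt n b))) with h | h
  · rw [h]
    simp
  · obtain ⟨n, hn⟩ := h
    rw [mem_filter, mem_range] at hn
    have h1 : (range p).filter (fun n : ℕ => p ∣ nm (pt n b)) ⊆ {n, p - n} := by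
      intro m hm
      rw [mem_filter, mem_range] at hm
      rw [mem_insert, mem_singleton]
      rcases root hp hn.1 hm.1 hn.2 hm.2 with h2 | h2
      · exact Or.inl h2.symm
      · right
        omega
    exact (Finset.card_le_card h1).trans Finset.card_le_two

theorem card_two {b : ℤ} : ((range 2).filter (fun n : ℕ => 2 ∣ nm (pt n b))).card ≤ 1 := by
  rw [Finset.card_le_one]
  intro n hn m hm
  rw [mem_filter, mem_range] at hn hm
  rcases root Nat.prime_two hn.1 hm.1 hn.2 hm.2 with h2 | h2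
  · exact h2
  · exact absurd rfl h2.2

theorem gb_bound (b : ℤ) (p : ℕ) (hp : p.Prime) :
    0 ≤ gb b p ∧ gb b p ≤ 2 / (p : ℝ) ∧ gb b p ≤ 2 / 3 := by
  have hp0 : (0 : ℝ) < p := by exact_mod_cast hp.pos
  have h1 : gb b p ≤ 2 / (p : ℝ) := by
    unfold gb
    refine div_le_div_of_nonneg_right ?_ hp0.le
    exact_mod_cast card_le hp
  refine ⟨by unfold gb; positivity, h1, ?_⟩
  by_cases h2 : p = 2
  · subst h2
    unfold gb
    have h3 : (((range 2).filter (fun n : ℕ => 2 ∣ nm (pt n b))).card : ℝ) ≤ 1 := by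
      exact_mod_cast card_two
    push_cast
    linarith
  · have h3 : 3 ≤ p := by
      have := hp.two_le
      omega
    have h4 : (3 : ℝ) ≤ p := by exact_mod_cast h3
    refine h1.trans ?_
    exact div_le_div_of_nonneg_left (by norm_num) (by norm_num) h4

theorem prod_bound (b : ℤ) (T : Finset ℕ) (hT : ∀ p ∈ T, p.Prime) :
    0 < ∏ p ∈ T, (1 - gb b p) ∧ ∏ p ∈ T, (1 - gb b p) ≤ 1 := by
  constructor
  · refine Finset.prod_pos (fun p hp => ?_)
    have := gb_bound b p (hT p hp)
    linarith [this.2.2]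
  · refine Finset.prod_le_one (fun p hp => ?_) (fun p hp => ?_)
    · have := gb_bound b p (hT p hp)
      linarith [this.2.2]
    · have := gb_bound b p (hT p hp)
      linarith [this.1]

theorem mertens : ∃ C : ℝ, 0 ≤ C ∧ ∀ (z : ℝ) (S : Finset ℕ), 2 ≤ z → Sz S z →
    ∑ p ∈ S, 1 / (p : ℝ) ≤ Real.log (Real.log z) + C := by
  obtain ⟨C, hC⟩ := Pool.Agent.Lib.MP_391708_nt.H20.PlM.mertens 1 one_pos
  refine ⟨|C| + Real.log 2, by positivity, fun z S hz hS => ?_⟩
  set y : ℕ := ⌊z⌋₊ + 1 with hy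
  have h2 : 2 ≤ ⌊z⌋₊ := Nat.le_floor (by exact_mod_cast hz)
  have hy3 : 3 ≤ y := by omega
  have h1 := hC y hy3
  have hsub : S ⊆ (Icc 1 y).filter (fun p => p.Prime ∧ p ≡ 1 [MOD 1]) := by
    intro p hp
    obtain ⟨hpp, hpz⟩ := hS p hp
    rw [mem_filter, mem_Icc]
    refine ⟨⟨hpp.one_lt.le, ?_⟩, hpp, Nat.modEq_one⟩
    have h3 : p ≤ ⌊z⌋₊ := Nat.le_floor hpz.le
    omega
  have h3 : ∑ p ∈ S, 1 / (p : ℝ) ≤
      ∑ p ∈ (Icc 1 y).filter (fun p => p.Prime ∧ p ≡ 1 [MOD 1]), 1 / (p : ℝ) :=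
    Finset.sum_le_sum_of_subset_of_nonneg hsub (fun _ _ _ => by positivity)
  rw [Nat.totient_one, Nat.cast_one, div_one, one_mul] at h1
  have h4 := (abs_le.1 h1).2
  have hz0 : 0 < z := by linarith
  have hl2 : 0 < Real.log 2 := Real.log_pos (by norm_num)
  have hlz : Real.log 2 ≤ Real.log z := Real.log_le_log (by norm_num) hz
  have h5 : (y : ℝ) ≤ 2 * z := by
    rw [hy]
    push_cast
    have := Nat.floor_le hz0.le
    linarith
  have hy0 : (3 : ℝ) ≤ y := by exact_mod_cast hy3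
  have h6 : Real.log y ≤ 2 * Real.log z := by
    calc Real.log y ≤ Real.log (2 * z) := Real.log_le_log (by linarith) h5
      _ = Real.log 2 + Real.log z := Real.log_mul (by norm_num) hz0.ne'
      _ ≤ 2 * Real.log z := by linarith
  have h7 : Real.log (Real.log y) ≤ Real.log 2 + Real.log (Real.log z) := by
    calc Real.log (Real.log y) ≤ Real.log (2 * Real.log z) :=
          Real.log_le_log (Real.log_pos (by linarith)) h6
      _ = _ := Real.log_mul (by norm_num) (by linarith)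
  have h8 := le_abs_self C
  linarith

end GBBM

open GBBM

theorem specGBB : SpecGBB := by
  refine ⟨gb_bound, ?_, ?_⟩
  · intro b z S q hS
    have h1 := prod_bound b S (fun p hp => (hS p hp).1)
    have h2 := prod_bound b (S.filter (fun p => ¬ p ∣ q)) (fun p hp => (hS p (mem_filter.1 hp).1).1)
    exact ⟨h1.1, h1.2, h2.1, h2.2⟩
  · obtain ⟨C, hC0, hC⟩ := mertens
    refine ⟨Real.exp (-(4 * C)), Real.exp_pos _, fun b z S hz hS => ?_⟩
    have h1 := hC z S hz hS
    have hlz : 0 < Real.log z := Real.log_pos (by linarith)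
    have h2 : ∑ p ∈ S, gb b p ≤ 2 * ∑ p ∈ S, 1 / (p : ℝ) := by
      rw [Finset.mul_sum]
      refine Finset.sum_le_sum (fun p hp => ?_)
      have h3 := (gb_bound b p (hS p hp).1).2.1
      rw [mul_one_div]
      exact h3
    calc Real.exp (-(4 * C)) / Real.log z ^ 4 =
        Real.exp (-(4 * (Real.log (Real.log z) + C))) := by
          have h4 : -(4 * (Real.log (Real.log z) + C)) =
              -(4 * C) - (4 : ℕ) * Real.log (Real.log z) := by push_cast; ring
          rw [h4, Real.exp_sub, Real.exp_nat_mul, Real.exp_log hlz]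
      _ ≤ Real.exp (∑ p ∈ S, -(2 * gb b p)) := by
          rw [Finset.sum_neg_distrib, ← Finset.mul_sum]
          exact Real.exp_le_exp.2 (by linarith)
      _ = ∏ p ∈ S, Real.exp (-(2 * gb b p)) := Real.exp_sum _ _
      _ ≤ VS b S := by
          unfold VS
          refine Finset.prod_le_prod (fun _ _ => (Real.exp_pos _).le) (fun p hp => ?_)
          have h3 := gb_bound b p (hS p hp).1
          exact QPA.FL.one_sub_ge h3.1 h3.2.2

end Pool.Agent.Lib.MP391708.XL
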