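import Pool.Agent.Lib.MP_391708_nt.X.SpecLS2
import Pool.Agent.Lib.MP_391708_nt.MR.Basic

/-!
# THEOREM X (MP_391708), part LS, module GEO: from the lattice cell on the line to an interval
-/

set_option autoImplicit false

namespace Pool.Agent.Lib.MP391708.XL

open Finset Filter Topology Pool.Agent.Lib.MP391708.MR
open Pool.Agent.Lib.MP391708.X
open scoped ComplexConjugate

namespace GEOM

theorem mem_lc {h : ℝ} (hh : 0 < h) (j : ℕ) (z : Gi) : z ∈ lc h j ↔
    z ≠ 0 ∧ Real.exp (j / h) ≤ nm z ∧ (nm z : ℝ) < Real.exp ((j + 1) / h) := by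
  unfold lc
  rw [Finset.mem_filter, mem_disc]
  constructor
  · rintro ⟨⟨hz, -⟩, hfl⟩
    have hn : (0 : ℝ) < nm z := nm_posR hz
    have hl : 0 ≤ Real.log (nm z) := Real.log_nonneg (one_le_nm hz)
    obtain ⟨h1, h2⟩ := (Nat.floor_eq_iff (mul_nonneg hh.le hl)).1 hfl
    refine ⟨hz, ?_, ?_⟩
    · rw [← Real.le_log_iff_exp_le hn, div_le_iff₀ hh]
      linarith
    · rw [← Real.log_lt_iff_lt_exp hn, lt_div_iff₀ hh]
      linarith
  · rintro ⟨hz, h1, h2⟩
    have hn : (0 : ℝ) < nm z := nm_posR hz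
    have hl : 0 ≤ Real.log (nm z) := Real.log_nonneg (one_le_nm hz)
    refine ⟨⟨hz, h2.le⟩, (Nat.floor_eq_iff (mul_nonneg hh.le hl)).2 ⟨?_, ?_⟩⟩
    · rw [← Real.le_log_iff_exp_le hn, div_le_iff₀ hh] at h1
      linarith
    · rw [← Real.log_lt_iff_lt_exp hn, lt_div_iff₀ hh] at h2
      linarith

theorem nm_ptR (n b : ℤ) : ((nm (pt n b) : ℕ) : ℝ) = (n : ℝ) ^ 2 + (b : ℝ) ^ 2 := by
  rw [nm_castR]
  rfl

/-- `√(R² - b²)` -/
theorem root {R b : ℝ} (hR : 100 ≤ R) (hb : b ^ 2 ≤ 100 * R) :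
    R - 100 ≤ Real.sqrt (R ^ 2 - b ^ 2) ∧ Real.sqrt (R ^ 2 - b ^ 2) ≤ R := by
  constructor
  · apply Real.le_sqrt_of_sq_le
    nlinarith
  · rw [Real.sqrt_le_iff]
    exact ⟨by linarith, by nlinarith [sq_nonneg b]⟩

theorem exp_four_le {h : ℝ} (hh : 1 ≤ h) : Real.exp (4 / h) ≤ 81 := by
  have h1 : 4 / h ≤ 4 := by
    rw [div_le_iff₀ (by linarith)]
    linarith
  have h2 : Real.exp 4 = Real.exp 1 ^ 4 := by
    rw [← Real.exp_nat_mul]
    norm_num
  have h3 : Real.exp 1 ≤ 3 := by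
    have := Real.exp_one_lt_d9
    linarith
  calc Real.exp (4 / h) ≤ Real.exp 4 := Real.exp_le_exp.2 h1
    _ = Real.exp 1 ^ 4 := h2
    _ ≤ 3 ^ 4 := pow_le_pow_left₀ (Real.exp_pos 1).le h3 4
    _ = 81 := by norm_num

theorem exp_four_sub {h : ℝ} (hh : 1 ≤ h) : Real.exp (4 / h) - 1 ≤ 324 / h := by
  have h0 : 0 < h := by linarith
  have h1 := Real.add_one_le_exp (-(4 / h))
  have h2 : Real.exp (4 / h) * Real.exp (-(4 / h)) = 1 := by
    rw [← Real.exp_add]
    simp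
  have h3 := mul_le_mul_of_nonneg_left h1 (Real.exp_pos (4 / h)).le
  rw [h2] at h3
  have h4 := exp_four_le hh
  have h5 : 0 ≤ 4 / h := by positivity
  have h6 : Real.exp (4 / h) * (4 / h) ≤ 81 * (4 / h) := mul_le_mul_of_nonneg_right h4 h5
  have h7 : 81 * (4 / h) = 324 / h := by ring
  nlinarith

theorem exp_all {h : ℝ} (hh : 1 ≤ h) : Real.exp (4 / h) * Real.exp (1 / (2 * h)) ≤ 100 := by
  have h0 : 0 < h := by linarith
  rw [← Real.exp_add]
  have e : 4 / h + 1 / (2 * h) = (9 / 2) / h := by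
    field_simp
    norm_num
  rw [e]
  have h1 : (9 / 2) / h ≤ 9 / 2 := by
    rw [div_le_iff₀ h0]
    nlinarith
  refine le_trans (Real.exp_le_exp.2 h1) ?_
  have h2 : Real.exp (9 / 2) ^ 2 = Real.exp 1 ^ 9 := by
    rw [← Real.exp_nat_mul, ← Real.exp_nat_mul]
    norm_num
  have h3 : Real.exp 1 ^ 9 ≤ 2.7182818286 ^ 9 :=
    pow_le_pow_left₀ (Real.exp_pos 1).le Real.exp_one_lt_d9.le 9
  have h4 : (2.7182818286 : ℝ) ^ 9 ≤ 100 ^ 2 := by norm_num
  have h5 : Real.exp (9 / 2) ^ 2 ≤ 100 ^ 2 := by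
    rw [h2]
    exact h3.trans h4
  exact (pow_le_pow_iff_left₀ (Real.exp_pos _).le (by norm_num) two_ne_zero).1 h5

end GEOM

open GEOM in
theorem specGEO (hQT : SpecQT) : SpecGEO := by
  classical
  refine ⟨1000, by norm_num, ?_⟩
  intro ω b h r D j hω hb hh hr hbr hhr hD hrR hRr
  have hh0 : 0 < h := by linarith
  have hr0 : 0 < r := by linarith
  have hNω : (0 : ℝ) < nm ω := nm_posR hω
  set R : ℝ := Real.sqrt (nm ω * Real.exp (j / h)) with hR
  have hR2 : R ^ 2 = nm ω * Real.exp (j / h) := Real.sq_sqrt (by positivity)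
  set E : ℝ := Real.exp (1 / (2 * h)) with hE
  have hE1 : 1 ≤ E := Real.one_le_exp (by positivity)
  have hR0 : 0 < R := by linarith
  have hR'2 : (R * E) ^ 2 = nm ω * Real.exp ((j + 1) / h) := by
    rw [mul_pow, hR2, hE, ← Real.exp_nat_mul, mul_assoc, ← Real.exp_add]
    congr 2
    field_simp
    push_cast
    ring
  have hRE : R ≤ R * E := le_mul_of_one_le_right hR0.le hE1
  have hbR : (b : ℝ) ^ 2 ≤ 100 * R := by linarith
  obtain ⟨hX1, hX2⟩ := root (R := R) (b := b) (by linarith) hbR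
  obtain ⟨hX1', hX2'⟩ := root (R := R * E) (b := b) (by linarith) (by linarith)
  set X0 : ℝ := Real.sqrt (R ^ 2 - (b : ℝ) ^ 2) with hX0
  set X0' : ℝ := Real.sqrt ((R * E) ^ 2 - (b : ℝ) ^ 2) with hX0'
  have hle0 : X0 ≤ X0' := by
    apply Real.sqrt_le_sqrt
    have := pow_le_pow_left₀ hR0.le hRE 2
    linarith
  have hX0pos : 0 < X0 := by linarith
  have hc1 := Int.le_ceil X0
  have hc2 := Int.ceil_lt_add_one X0
  have hc1' := Int.le_ceil X0'
  have hc2' := Int.ceil_lt_add_one X0'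
  -- membership
  have hmem : ∀ n : ℤ, n ∈ Ioc ⌊(((⌈X0⌉ - 1 : ℤ)) : ℝ)⌋ ⌊(((⌈X0'⌉ - 1 : ℤ)) : ℝ)⌋ ↔
      X0 ≤ n ∧ (n : ℝ) < X0' := by
    intro n
    rw [Int.floor_intCast, Int.floor_intCast, Finset.mem_Ioc, ← Int.ceil_le, ← Int.lt_ceil]
    omega
  have hEexp : E - 1 ≤ 1 / h := by
    have ha : |1 / (2 * h)| ≤ 1 := by
      rw [abs_of_pos (by positivity), div_le_one (by positivity)]
      linarith
    have h1 := Real.abs_exp_sub_one_le ha
    rw [abs_of_pos (a := 1 / (2 * h)) (by positivity)] at h1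
    have h2 : 2 * (1 / (2 * h)) = 1 / h := by
      field_simp
    rw [h2] at h1
    exact le_trans (le_abs_self _) h1
  have hEexp2 : |E - 1 - 1 / (2 * h)| ≤ 1 / (4 * h ^ 2) := by
    have ha : |1 / (2 * h)| ≤ 1 := by
      rw [abs_of_pos (by positivity), div_le_one (by positivity)]
      linarith
    have h1 := Real.abs_exp_sub_one_sub_id_le ha
    have h2 : (1 / (2 * h)) ^ 2 = 1 / (4 * h ^ 2) := by
      field_simp
      norm_num
    rwa [h2] at h1
  have hRr1 : R - r ≤ r * (324 / h) := by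
    have := mul_le_mul_of_nonneg_left (exp_four_sub hh) hr0.le
    nlinarith
  have hrh : 1 ≤ r / h ^ 2 := by
    rw [le_div_iff₀ (by positivity)]
    linarith
  have hrh1 : 1 ≤ r / h := by
    rw [le_div_iff₀ hh0]
    nlinarith
  refine ⟨((⌈X0⌉ - 1 : ℤ) : ℝ), ((⌈X0'⌉ - 1 : ℤ) : ℝ), ?_, ?_, ?_, ?_, ?_, ?_⟩
  · push_cast
    linarith
  · have := Int.ceil_le_ceil hle0
    exact_mod_cast (by omega : ⌈X0⌉ - 1 ≤ ⌈X0'⌉ - 1)
  · have h1 : R * E ≤ 100 * r := by
      calc R * E ≤ (r * Real.exp (4 / h)) * E := mul_le_mul_of_nonneg_right hRr (by linarith)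
        _ = r * (Real.exp (4 / h) * E) := by ring
        _ ≤ r * 100 := mul_le_mul_of_nonneg_left (exp_all hh) hr0.le
        _ = 100 * r := by ring
    push_cast
    linarith
  · intro f
    have hz : ∀ (n : ℤ), 0 < n → ω ∣ pt n b → ((qt ω n b) ∈ lc h j ↔ X0 ≤ n ∧ (n : ℝ) < X0') := by
      intro n hn hd
      obtain ⟨⟨h1, h2⟩, -⟩ := hQT ω n b hω hd
      have hnR : (0 : ℝ) < n := by exact_mod_cast hn
      have h3 : (nm ω : ℝ) * nm (qt ω n b) = (n : ℝ) ^ 2 + (b : ℝ) ^ 2 := by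
        have h4 := nm_ptR n b
        rw [← h2] at h4
        push_cast at h4
        exact h4
      have hne : qt ω n b ≠ 0 := by
        intro h0
        rw [h0, nm_zero] at h3
        have : (0 : ℝ) < (n : ℝ) ^ 2 + (b : ℝ) ^ 2 := by positivity
        rw [← h3] at this
        simp at this
      rw [mem_lc hh0]
      have e1 : Real.exp (j / h) ≤ nm (qt ω n b) ↔ X0 ≤ n := by
        rw [hX0, Real.sqrt_le_left hnR.le, hR2, ← mul_le_mul_iff_right₀ hNω, h3]
        constructor <;> intro h5 <;> linarith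
      have e2 : (nm (qt ω n b) : ℝ) < Real.exp ((j + 1) / h) ↔ (n : ℝ) < X0' := by
        rw [hX0', Real.lt_sqrt hnR.le, hR'2, ← mul_lt_mul_iff_right₀ hNω, h3]
        constructor <;> intro h5 <;> linarith
      rw [e1, e2]
      exact ⟨fun h => h.2, fun h => ⟨hne, h⟩⟩
    have hpt : ∀ z : Gi, On ω b z → pt (ω * z).re b = ω * z := by
      intro z hz
      unfold pt
      ext
      · rfl
      · exact hz.1.symm
    refine Finset.sum_bij' (fun z _ => (ω * z).re) (fun n _ => qt ω n b) ?_ ?_ ?_ ?_ ?_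
    · intro z hzm
      obtain ⟨hzD, hzO, hzl⟩ := Finset.mem_filter.1 hzm
      have hd : ω ∣ pt (ω * z).re b := by
        rw [hpt z hzO]
        exact Dvd.intro _ rfl
      unfold LN
      rw [Finset.mem_filter]
      refine ⟨(hmem _).2 ((hz _ hzO.2 hd).1 ?_), hd⟩
      have e : qt ω (ω * z).re b = z := by
        unfold qt
        rw [hpt z hzO, mul_div_cancel_left₀ _ hω]
      rw [e]
      exact hzl
    · intro n hn
      unfold LN at hn
      obtain ⟨hn1, hd⟩ := Finset.mem_filter.1 hn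
      have hn2 := (hmem n).1 hn1
      have hnR : (0 : ℝ) < n := lt_of_lt_of_le hX0pos hn2.1
      have hn0 : 0 < n := by exact_mod_cast hnR
      obtain ⟨⟨h1, h2⟩, -⟩ := hQT ω n b hω hd
      have hl := (hz n hn0 hd).2 hn2
      rw [Finset.mem_filter]
      refine ⟨?_, ⟨?_, ?_⟩, hl⟩
      · have h3 := (mem_lc hh0 j _).1 hl
        rw [mem_disc]
        exact ⟨h3.1, h3.2.2.le.trans hD⟩
      · rw [h1]
        rfl
      · rw [h1]
        exact hn0
    · intro z hzm
      obtain ⟨hzD, hzO, hzl⟩ := Finset.mem_filter.1 hzm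
      unfold qt
      rw [hpt z hzO, mul_div_cancel_left₀ _ hω]
    · intro n hn
      unfold LN at hn
      obtain ⟨hn1, hd⟩ := Finset.mem_filter.1 hn
      obtain ⟨⟨h1, h2⟩, -⟩ := hQT ω n b hω hd
      rw [h1]
      rfl
    · intro z hzm
      obtain ⟨hzD, hzO, hzl⟩ := Finset.mem_filter.1 hzm
      congr 1
      unfold qt
      rw [hpt z hzO, mul_div_cancel_left₀ _ hω]
  · have h1 : |((⌈X0'⌉ - 1 : ℤ) : ℝ) - ((⌈X0⌉ - 1 : ℤ) : ℝ) - R * (E - 1)| ≤ 101 := by
      rw [abs_le]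
      push_cast
      constructor <;> nlinarith
    have h2 : |R * (E - 1) - r / (2 * h)| ≤ 325 * (r / h ^ 2) := by
      have e : R * (E - 1) - r / (2 * h) = (R - r) * (E - 1) + r * (E - 1 - 1 / (2 * h)) := by ring
      rw [e]
      refine le_trans (abs_add_le _ _) ?_
      have h3 : |(R - r) * (E - 1)| ≤ 324 * (r / h ^ 2) := by
        rw [abs_of_nonneg (mul_nonneg (by linarith) (by linarith))]
        calc (R - r) * (E - 1) ≤ (r * (324 / h)) * (1 / h) :=
              mul_le_mul hRr1 hEexp (by linarith) (by positivity)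
          _ = 324 * (r / h ^ 2) := by
              field_simp
      have h4 : |r * (E - 1 - 1 / (2 * h))| ≤ r / h ^ 2 := by
        rw [abs_mul, abs_of_pos hr0]
        calc r * |E - 1 - 1 / (2 * h)| ≤ r * (1 / (4 * h ^ 2)) :=
              mul_le_mul_of_nonneg_left hEexp2 hr0.le
          _ = (1 / 4) * (r / h ^ 2) := by
              field_simp
          _ ≤ r / h ^ 2 := by
              have : 0 ≤ r / h ^ 2 := by positivity
              linarith
      linarith
    have h3 : |((⌈X0'⌉ - 1 : ℤ) : ℝ) - ((⌈X0⌉ - 1 : ℤ) : ℝ) - r / (2 * h)| ≤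
        101 + 325 * (r / h ^ 2) := by
      have e : ((⌈X0'⌉ - 1 : ℤ) : ℝ) - ((⌈X0⌉ - 1 : ℤ) : ℝ) - r / (2 * h) =
          (((⌈X0'⌉ - 1 : ℤ) : ℝ) - ((⌈X0⌉ - 1 : ℤ) : ℝ) - R * (E - 1)) +
            (R * (E - 1) - r / (2 * h)) := by ring
      rw [e]
      exact (abs_add_le _ _).trans (add_le_add h1 h2)
    have e4 : 1000 * r / h ^ 2 = 1000 * (r / h ^ 2) := by ring
    rw [e4]
    linarith
  · intro n hn
    unfold LN at hn
    obtain ⟨hn1, hn2⟩ := (hmem n).1 (Finset.mem_filter.1 hn).1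
    have e4 : 1000 * r / h = 1000 * (r / h) := by ring
    rw [e4, abs_le]
    constructor
    · linarith
    · have h1 : R * E - r ≤ 405 * (r / h) := by
        have e : R * E - r = (R - r) + R * (E - 1) := by ring
        have h2 : R * (E - 1) ≤ (r * 81) * (1 / h) := by
          apply mul_le_mul _ hEexp (by linarith) (by positivity)
          exact hRr.trans (mul_le_mul_of_nonneg_left (exp_four_le hh) hr0.le)
        have e5 : (r * 81) * (1 / h) = 81 * (r / h) := by ring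
        have e6 : r * (324 / h) = 324 * (r / h) := by ring
        rw [e]
        linarith
      linarith

end Pool.Agent.Lib.MP391708.XL
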