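import Pool.Agent.Lib.MP_391708_nt.X.SpecHM
import Pool.Agent.Lib.MP_391708_nt.MR.Basic

/-!
# Theorem X, part HM, module GRM: the Gram matrix with the rough weight
-/

set_option autoImplicit false

namespace Pool.Agent.Lib.MP391708.X

open Pool.Agent.Lib.MP391708.MR
open Finset Filter Topology
open scoped ComplexConjugate

namespace GRMM

theorem chi_of {m : Gi} {χ : Gi → ℂ} (h : ChiG m χ) : Chi χ :=
  ⟨h.one, h.mul, m, h.ne, h.period, h.supp⟩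

theorem coprime_of_rgh {m z : Gi} {w : ℝ} (hm : m ≠ 0) (hmw : (nm m : ℝ) ≤ w) (hz : rgh w z) :
    IsCoprime z m := by
  refine isCoprime_of_prime_dvd (fun h => hm h.2) fun π hπ hπz hπm => ?_
  have h1 := hz π hπ hπz
  have h2 : nm π ≤ nm m := Nat.le_of_dvd (nm_pos hm) (nm_dvd hπm)
  have h3 : (nm π : ℝ) ≤ (nm m : ℝ) := by exact_mod_cast h2
  linarith

theorem norm_hk {m z : Gi} {χ : Gi → ℂ} {k : ℤ} {w : ℝ} (h : ChiG m χ) (hmw : (nm m : ℝ) ≤ w)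
    (hz : rgh w z) (hz0 : z ≠ 0) : ‖hk χ k z‖ = 1 := by
  unfold hk
  have h1 : χ z ≠ 0 := (h.supp z).2 (coprime_of_rgh h.ne hmw hz)
  rw [norm_mul, (chi_of h).norm_eq_one h1, norm_xi k hz0, mul_one]

theorem gram {ι : Type} (U : Finset ι) (S : Finset Gi) (ψ : ι → Gi → ℂ) (a : ι → ℂ) (δ : ℝ)
    (hδ : 0 ≤ δ) (hdiag : ∀ i ∈ U, ∀ z ∈ S, ‖ψ i z‖ = 1)
    (hoff : ∀ i ∈ U, ∀ j ∈ U, i ≠ j → ‖∑ z ∈ S, ψ i z * conj (ψ j z)‖ ≤ δ) :
    |∑ z ∈ S, ‖∑ i ∈ U, a i * ψ i z‖ ^ 2 - S.card * ∑ i ∈ U, ‖a i‖ ^ 2| ≤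
      δ * (U.card * ∑ i ∈ U, ‖a i‖ ^ 2) := by
  classical
  set E : ι → ι → ℂ := fun i j => ∑ z ∈ S, ψ i z * conj (ψ j z) with hE
  set D : ι → ι → ℂ := fun i j => E i j - (if i = j then (S.card : ℂ) else 0) with hD
  have hEd : ∀ i ∈ U, E i i = (S.card : ℂ) := by
    intro i hi
    simp only [hE]
    rw [Finset.sum_congr rfl (g := fun _ => (1 : ℂ)) fun z hz => ?_]
    · rw [Finset.sum_const, nsmul_eq_mul, mul_one]
    · rw [Complex.mul_conj, Complex.normSq_eq_norm_sq, hdiag i hi z hz]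
      norm_num
  have hDb : ∀ i ∈ U, ∀ j ∈ U, ‖D i j‖ ≤ δ := by
    intro i hi j hj
    simp only [hD]
    by_cases hij : i = j
    · subst hij
      rw [if_pos rfl, hEd i hi, sub_self, norm_zero]
      exact hδ
    · rw [if_neg hij, sub_zero]
      exact hoff i hi j hj hij
  -- the expansion
  have hexp : ((∑ z ∈ S, ‖∑ i ∈ U, a i * ψ i z‖ ^ 2 : ℝ) : ℂ) =
      ∑ i ∈ U, ∑ j ∈ U, a i * conj (a j) * E i j := by
    have h1 : ∀ z ∈ S, ((‖∑ i ∈ U, a i * ψ i z‖ ^ 2 : ℝ) : ℂ) =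
        ∑ i ∈ U, ∑ j ∈ U, a i * conj (a j) * (ψ i z * conj (ψ j z)) := by
      intro z _
      rw [Complex.ofReal_pow, ← Complex.mul_conj', map_sum, Finset.sum_mul_sum]
      refine Finset.sum_congr rfl fun i _ => Finset.sum_congr rfl fun j _ => ?_
      rw [map_mul]
      ring
    rw [Complex.ofReal_sum, Finset.sum_congr rfl h1, Finset.sum_comm]
    refine Finset.sum_congr rfl fun i _ => ?_
    rw [Finset.sum_comm]
    refine Finset.sum_congr rfl fun j _ => ?_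
    simp only [hE]
    rw [Finset.mul_sum]
  have hdiff : ((∑ z ∈ S, ‖∑ i ∈ U, a i * ψ i z‖ ^ 2 - S.card * ∑ i ∈ U, ‖a i‖ ^ 2 : ℝ) : ℂ) =
      ∑ i ∈ U, ∑ j ∈ U, a i * conj (a j) * D i j := by
    rw [Complex.ofReal_sub, hexp]
    have h2 : ∀ i ∈ U, ∑ j ∈ U, a i * conj (a j) * D i j =
        ∑ j ∈ U, a i * conj (a j) * E i j - a i * conj (a i) * (S.card : ℂ) := by
      intro i hi
      simp only [hD, mul_sub, Finset.sum_sub_distrib, mul_ite, mul_zero]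
      rw [Finset.sum_ite_eq, if_pos hi]
    rw [Finset.sum_congr rfl h2, Finset.sum_sub_distrib]
    congr 1
    rw [Complex.ofReal_mul, Complex.ofReal_sum, Finset.mul_sum]
    refine Finset.sum_congr rfl fun i _ => ?_
    rw [Complex.mul_conj', Complex.ofReal_pow, Complex.ofReal_natCast]
    ring
  rw [← Real.norm_eq_abs, ← Complex.norm_real, hdiff]
  have h3 : ‖∑ i ∈ U, ∑ j ∈ U, a i * conj (a j) * D i j‖ ≤
      ∑ i ∈ U, ∑ j ∈ U, ‖a i‖ * ‖a j‖ * δ := by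
    refine (norm_sum_le _ _).trans (Finset.sum_le_sum fun i hi => ?_)
    refine (norm_sum_le _ _).trans (Finset.sum_le_sum fun j hj => ?_)
    rw [norm_mul, norm_mul, Complex.norm_conj]
    exact mul_le_mul_of_nonneg_left (hDb i hi j hj) (by positivity)
  have h4 : ∑ i ∈ U, ∑ j ∈ U, ‖a i‖ * ‖a j‖ * δ = δ * (∑ i ∈ U, ‖a i‖) ^ 2 := by
    rw [sq, Finset.sum_mul_sum, Finset.mul_sum]
    refine Finset.sum_congr rfl fun i _ => ?_
    rw [Finset.mul_sum]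
    refine Finset.sum_congr rfl fun j _ => ?_
    ring
  rw [h4] at h3
  exact h3.trans (mul_le_mul_of_nonneg_left sq_sum_le_card_mul_sum_sq hδ)

end GRMM

theorem specGRM (hRG1 : SpecRG1) : SpecGRM := by
  intro A A' hA hA'
  obtain ⟨c, hc0, hc1, hev⟩ := hRG1 A A' hA hA'
  refine ⟨c, hc0, hc1, ?_⟩
  have hlog := (isLittleO_log_rpow_rpow_atTop A' hc0).bound one_pos
  filter_upwards [hev, hlog, eventually_ge_atTop (1 : ℝ)] with x hx hlx hx1
  intro ι U χ k w hw hF y y' a hy hyy' hy'x S hS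
  have hx0 : (0 : ℝ) ≤ x := by linarith
  have hwx : w ≤ x ^ c := by
    have h1 : Real.log x ^ A' ≤ ‖Real.log x ^ A'‖ := le_abs_self _
    have h2 : ‖x ^ c‖ = x ^ c := Real.norm_of_nonneg (Real.rpow_nonneg hx0 c)
    rw [h2, one_mul] at hlx
    linarith
  refine GRMM.gram U S (fun i => hk (χ i) (k i)) a (x ^ (1 - c)) (Real.rpow_nonneg hx0 _) ?_ ?_
  · intro i hi z hz
    obtain ⟨m, hm, hχ⟩ := hF.chi i hi
    have h1 := (hS z).1 hz
    exact GRMM.norm_hk hχ hm h1.2 (mem_ann.1 h1.1).1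
  · intro i hi j hj hij
    obtain ⟨m₁, hm₁, hχ₁⟩ := hF.chi i hi
    obtain ⟨m₂, hm₂, hχ₂⟩ := hF.chi j hj
    exact hx m₁ m₂ (χ i) (χ j) (k i) (k j) hχ₁ hχ₂ (hm₁.trans hwx) (hm₂.trans hwx)
      (hF.frq i hi) (hF.frq j hj) (hF.dist i hi j hj hij) w y y' hw hy hyy' hy'x S hS

end Pool.Agent.Lib.MP391708.X
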