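import Pool.Agent.Lib.MP_391708_nt.X.SpecHM

/-!
# Theorem X, part HM, module HMS (helper45): the simple Halász–Montgomery inequality
-/

set_option autoImplicit false

namespace Pool.Agent.Lib.MP391708.X

open Pool.Agent.Lib.MP391708.MR
open Finset
open scoped ComplexConjugate

namespace HMSM

theorem nsq (z : ℂ) : ((‖z‖ ^ 2 : ℝ) : ℂ) = z * conj z := by
  rw [Complex.mul_conj, Complex.normSq_eq_norm_sq]

/-- the quadratic form of the Gram matrix -/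
theorem quad {ι : Type} (U : Finset ι) (S : Finset Gi) (ψ : ι → Gi → ℂ) (A : ι → ℂ) :
    ((∑ z ∈ S, ‖∑ i ∈ U, conj (A i) * ψ i z‖ ^ 2 : ℝ) : ℂ) =
      ∑ i ∈ U, ∑ j ∈ U, conj (A i) * A j * ∑ z ∈ S, ψ i z * conj (ψ j z) := by
  rw [Complex.ofReal_sum]
  have h1 : ∀ z ∈ S, ((‖∑ i ∈ U, conj (A i) * ψ i z‖ ^ 2 : ℝ) : ℂ) =
      ∑ i ∈ U, ∑ j ∈ U, conj (A i) * A j * (ψ i z * conj (ψ j z)) := by
    intro z _
    rw [nsq, map_sum, Finset.sum_mul_sum]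
    refine Finset.sum_congr rfl fun i _ => Finset.sum_congr rfl fun j _ => ?_
    rw [map_mul, Complex.conj_conj]
    ring
  rw [Finset.sum_congr rfl h1, Finset.sum_comm]
  refine Finset.sum_congr rfl fun i _ => ?_
  rw [Finset.sum_comm]
  refine Finset.sum_congr rfl fun j _ => ?_
  rw [Finset.mul_sum]

theorem gsymm {ι : Type} (S : Finset Gi) (ψ : ι → Gi → ℂ) (i j : ι) :
    ‖∑ z ∈ S, ψ j z * conj (ψ i z)‖ = ‖∑ z ∈ S, ψ i z * conj (ψ j z)‖ := by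
  have h : ∑ z ∈ S, ψ j z * conj (ψ i z) = conj (∑ z ∈ S, ψ i z * conj (ψ j z)) := by
    rw [map_sum]
    refine Finset.sum_congr rfl fun z _ => ?_
    rw [map_mul, Complex.conj_conj]
    ring
  rw [h, RCLike.norm_conj]

/-- the form is bounded by the row sums -/
theorem form {ι : Type} (U : Finset ι) (S : Finset Gi) (ψ : ι → Gi → ℂ) (A : ι → ℂ) (M : ℝ)
    (hM : ∀ i ∈ U, ∑ j ∈ U, ‖∑ z ∈ S, ψ i z * conj (ψ j z)‖ ≤ M) :
    ∑ z ∈ S, ‖∑ i ∈ U, conj (A i) * ψ i z‖ ^ 2 ≤ M * ∑ i ∈ U, ‖A i‖ ^ 2 := by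
  set G : ι → ι → ℝ := fun i j => ‖∑ z ∈ S, ψ i z * conj (ψ j z)‖ with hG
  have h0 : (0:ℝ) ≤ ∑ z ∈ S, ‖∑ i ∈ U, conj (A i) * ψ i z‖ ^ 2 :=
    Finset.sum_nonneg fun z _ => by positivity
  have h1 : ∑ z ∈ S, ‖∑ i ∈ U, conj (A i) * ψ i z‖ ^ 2 ≤
      ∑ i ∈ U, ∑ j ∈ U, ‖A i‖ * ‖A j‖ * G i j := by
    have e := congrArg norm (quad U S ψ A)
    rw [Complex.norm_real, Real.norm_of_nonneg h0] at e
    rw [e]
    refine (norm_sum_le _ _).trans (Finset.sum_le_sum fun i _ => ?_)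
    refine (norm_sum_le _ _).trans (Finset.sum_le_sum fun j _ => ?_)
    rw [norm_mul, norm_mul, RCLike.norm_conj]
  have h2 : ∑ i ∈ U, ∑ j ∈ U, ‖A i‖ * ‖A j‖ * G i j ≤
      ∑ i ∈ U, ∑ j ∈ U, (‖A i‖ ^ 2 * G i j / 2 + ‖A j‖ ^ 2 * G i j / 2) := by
    refine Finset.sum_le_sum fun i _ => Finset.sum_le_sum fun j _ => ?_
    have hg : 0 ≤ G i j := norm_nonneg _
    have : 0 ≤ (‖A i‖ - ‖A j‖) ^ 2 * G i j := by positivity
    nlinarith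
  have h3 : ∑ i ∈ U, ∑ j ∈ U, (‖A i‖ ^ 2 * G i j / 2 + ‖A j‖ ^ 2 * G i j / 2) =
      ∑ i ∈ U, ‖A i‖ ^ 2 * ∑ j ∈ U, G i j := by
    have e1 : ∑ i ∈ U, ∑ j ∈ U, (‖A i‖ ^ 2 * G i j / 2 + ‖A j‖ ^ 2 * G i j / 2) =
        ∑ i ∈ U, ∑ j ∈ U, ‖A i‖ ^ 2 * G i j / 2 + ∑ i ∈ U, ∑ j ∈ U, ‖A j‖ ^ 2 * G i j / 2 := by
      rw [← Finset.sum_add_distrib]
      exact Finset.sum_congr rfl fun i _ => Finset.sum_add_distrib
    have e2 : ∑ i ∈ U, ∑ j ∈ U, ‖A j‖ ^ 2 * G i j / 2 =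
        ∑ i ∈ U, ∑ j ∈ U, ‖A i‖ ^ 2 * G i j / 2 := by
      rw [Finset.sum_comm]
      refine Finset.sum_congr rfl fun i _ => Finset.sum_congr rfl fun j _ => ?_
      rw [hG]
      simp only
      rw [gsymm S ψ i j]
    rw [e1, e2, ← Finset.sum_add_distrib]
    refine Finset.sum_congr rfl fun i _ => ?_
    rw [← Finset.sum_add_distrib, Finset.mul_sum]
    refine Finset.sum_congr rfl fun j _ => ?_
    ring
  refine h1.trans (h2.trans ?_)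
  rw [h3, Finset.mul_sum]
  refine Finset.sum_le_sum fun i hi => ?_
  have := hM i hi
  have h4 : 0 ≤ ‖A i‖ ^ 2 := by positivity
  nlinarith [mul_le_mul_of_nonneg_left this h4]

end HMSM

open HMSM in
theorem specHMS : SpecHMS := by
  intro ι U S ψ a M hM0 hM
  set A : ι → ℂ := fun i => ∑ z ∈ S, a z * ψ i z with hA
  set X : ℝ := ∑ i ∈ U, ‖A i‖ ^ 2 with hX
  set b : Gi → ℂ := fun z => ∑ i ∈ U, conj (A i) * ψ i z with hb
  have hX0 : 0 ≤ X := Finset.sum_nonneg fun i _ => by positivity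
  have hN0 : 0 ≤ ∑ z ∈ S, ‖a z‖ ^ 2 := Finset.sum_nonneg fun i _ => by positivity
  have e1 : ((X : ℝ) : ℂ) = ∑ z ∈ S, a z * b z := by
    rw [hX, Complex.ofReal_sum]
    have : ∀ i ∈ U, ((‖A i‖ ^ 2 : ℝ) : ℂ) = ∑ z ∈ S, a z * (conj (A i) * ψ i z) := by
      intro i _
      rw [nsq]
      conv_lhs => rw [hA]
      simp only
      rw [Finset.sum_mul]
      refine Finset.sum_congr rfl fun z _ => ?_
      rw [hA]
      ring
    rw [Finset.sum_congr rfl this, Finset.sum_comm]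
    refine Finset.sum_congr rfl fun z _ => ?_
    rw [hb, Finset.mul_sum]
  have e2 : X ≤ ∑ z ∈ S, ‖a z‖ * ‖b z‖ := by
    have e := congrArg norm e1
    rw [Complex.norm_real, Real.norm_of_nonneg hX0] at e
    rw [e]
    refine (norm_sum_le _ _).trans (Finset.sum_le_sum fun z _ => ?_)
    rw [norm_mul]
  have e3 : (∑ z ∈ S, ‖a z‖ * ‖b z‖) ^ 2 ≤ (∑ z ∈ S, ‖a z‖ ^ 2) * ∑ z ∈ S, ‖b z‖ ^ 2 :=
    Finset.sum_mul_sq_le_sq_mul_sq _ _ _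
  have e4 : ∑ z ∈ S, ‖b z‖ ^ 2 ≤ M * X := form U S ψ A M hM
  have e5 : X ^ 2 ≤ (M * ∑ z ∈ S, ‖a z‖ ^ 2) * X := by
    calc X ^ 2 ≤ (∑ z ∈ S, ‖a z‖ * ‖b z‖) ^ 2 := by
          apply pow_le_pow_left₀ hX0 e2
      _ ≤ _ := e3
      _ ≤ (∑ z ∈ S, ‖a z‖ ^ 2) * (M * X) := mul_le_mul_of_nonneg_left e4 hN0
      _ = _ := by ring
  rcases eq_or_lt_of_le hX0 with h | h
  · rw [← h]
    positivity
  · have : X * X ≤ (M * ∑ z ∈ S, ‖a z‖ ^ 2) * X := by nlinarith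
    exact le_of_mul_le_mul_right this h

end Pool.Agent.Lib.MP391708.X
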