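import Pool.Agent.Lib.MP_391708_nt.X.SpecHM
import Pool.Agent.Lib.MP_391708_nt.MR.Basic

/-!
# Theorem X (MP_391708), part HM, module HMT: the Halász–Montgomery inequality for a small family of
Hecke characters over an annulus
-/

set_option autoImplicit false

namespace Pool.Agent.Lib.MP391708.X

open Pool.Agent.Lib.MP391708.MR
open Finset Filter Topology
open scoped ComplexConjugate

namespace HMTM

theorem chi_of {m : Gi} {χ : Gi → ℂ} (h : ChiG m χ) : Chi χ :=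
  ⟨h.one, h.mul, m, h.ne, h.period, h.supp⟩

theorem norm_hk {m : Gi} {χ : Gi → ℂ} (h : ChiG m χ) (k : ℤ) {z : Gi} (hz : z ≠ 0) :
    ‖hk χ k z‖ ≤ 1 := by
  unfold hk
  rw [norm_mul, norm_xi k hz, mul_one]
  exact (chi_of h).norm_le_one z

/-- the number of elements of an annulus -/
theorem card_ann {C : ℝ} (hC0 : 0 < C)
    (hC : ∀ m : ℕ, 0 < m → ∀ (w : Gi) (Y : ℝ), 0 ≤ Y →
      |(((disc Y).filter (fun z => (m : ℤ) ∣ z.re - w.re ∧ (m : ℤ) ∣ z.im - w.im)).card : ℝ)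
        - Real.pi * Y / (m : ℝ) ^ 2| ≤ C * (Real.sqrt Y / m + 1))
    {y y' x : ℝ} (h0 : 0 ≤ y) (h1 : y ≤ y') (h2 : y' ≤ x) :
    ((ann y y').card : ℝ) ≤ Real.pi * (y' - y) + 2 * C * (Real.sqrt x + 1) := by
  have key : ∀ Y : ℝ, 0 ≤ Y → Y ≤ x →
      |((disc Y).card : ℝ) - Real.pi * Y| ≤ C * (Real.sqrt x + 1) := by
    intro Y hY hYx
    have h := hC 1 one_pos 0 Y hY
    have hf : (disc Y).filter (fun z => ((1 : ℕ) : ℤ) ∣ z.re - (0 : Gi).re ∧
        ((1 : ℕ) : ℤ) ∣ z.im - (0 : Gi).im) = disc Y := by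
      apply Finset.filter_true_of_mem
      intro z _
      rw [Nat.cast_one]
      exact ⟨one_dvd _, one_dvd _⟩
    rw [hf] at h
    have e : Real.pi * Y / ((1 : ℕ) : ℝ) ^ 2 = Real.pi * Y := by
      rw [Nat.cast_one]
      ring
    rw [e] at h
    refine le_trans h ?_
    rw [Nat.cast_one, div_one]
    exact mul_le_mul_of_nonneg_left (by linarith [Real.sqrt_le_sqrt hYx]) hC0.le
  have hy' := key y' (le_trans h0 h1) h2
  have hy := key y h0 (le_trans h1 h2)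
  have hc : ((ann y y').card : ℝ) = ((disc y').card : ℝ) - ((disc y).card : ℝ) := by
    rw [disc_union h1, Finset.card_union_of_disjoint (disc_disjoint y y')]
    push_cast
    ring
  rw [hc]
  have a1 := (abs_le.1 hy').2
  have a2 := (abs_le.1 hy).1
  nlinarith

/-- real analysis -/
theorem large {C c : ℝ} (hc0 : 0 < c) (hc1 : 3 * c < 1) : ∀ᶠ x : ℝ in atTop,
    0 < x ∧ 2 * C * (Real.sqrt x + 1) + x ^ c * x ^ (1 - 3 * c) ≤ x ^ (1 - c) := by
  have h1 : ∀ᶠ x : ℝ in atTop, 8 * |C| ≤ x ^ (1 / 2 - c : ℝ) :=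
    (tendsto_rpow_atTop (by linarith : (0 : ℝ) < 1 / 2 - c)).eventually_ge_atTop _
  have h2 : ∀ᶠ x : ℝ in atTop, 2 ≤ x ^ c :=
    (tendsto_rpow_atTop hc0).eventually_ge_atTop _
  filter_upwards [h1, h2, eventually_ge_atTop 1] with x hx1 hx2 hx3
  have hx0 : 0 < x := by linarith
  refine ⟨hx0, ?_⟩
  have e1 : x ^ c * x ^ (1 - 3 * c) = x ^ (1 - 2 * c) := by
    rw [← Real.rpow_add hx0]
    congr 1
    ring
  have e2 : x ^ (1 - c) = x ^ c * x ^ (1 - 2 * c) := by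
    rw [← Real.rpow_add hx0]
    congr 1
    ring
  have e3 : x ^ (1 - c) = x ^ (1 / 2 - c : ℝ) * x ^ (1 / 2 : ℝ) := by
    rw [← Real.rpow_add hx0]
    congr 1
    ring
  have hs : Real.sqrt x + 1 ≤ 2 * x ^ (1 / 2 : ℝ) := by
    rw [Real.sqrt_eq_rpow x]
    have := Real.one_le_rpow hx3 (by norm_num : (0 : ℝ) ≤ 1 / 2)
    linarith
  have hp1 : 0 ≤ x ^ (1 - 2 * c) := Real.rpow_nonneg hx0.le _
  have hp2 : 0 ≤ x ^ (1 / 2 : ℝ) := Real.rpow_nonneg hx0.le _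
  have hA : 2 * C * (Real.sqrt x + 1) ≤ x ^ (1 - c) / 2 := by
    calc 2 * C * (Real.sqrt x + 1) ≤ 2 * |C| * (Real.sqrt x + 1) := by
          have : 0 ≤ Real.sqrt x + 1 := by positivity
          nlinarith [le_abs_self C]
      _ ≤ 2 * |C| * (2 * x ^ (1 / 2 : ℝ)) :=
          mul_le_mul_of_nonneg_left hs (by positivity)
      _ = (8 * |C|) * x ^ (1 / 2 : ℝ) / 2 := by ring
      _ ≤ x ^ (1 / 2 - c : ℝ) * x ^ (1 / 2 : ℝ) / 2 := by
          have := mul_le_mul_of_nonneg_right hx1 hp2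
          linarith
      _ = x ^ (1 - c) / 2 := by rw [e3]
  have hB : x ^ c * x ^ (1 - 3 * c) ≤ x ^ (1 - c) / 2 := by
    rw [e1, e2]
    have := mul_le_mul_of_nonneg_right hx2 hp1
    linarith
  linarith

end HMTM

open HMTM

theorem specHMT (hHMS : SpecHMS) (hPAR : SpecPAR) (hCTU : SpecCTU) : SpecHMT := by
  intro A hA
  obtain ⟨c, hc0, hc1, hP⟩ := hPAR A 3 hA (by norm_num)
  obtain ⟨C, hC0, hC⟩ := hCTU
  refine ⟨c, hc0, by linarith, ?_⟩
  filter_upwards [hP, large (C := C) hc0 hc1] with x hPx hx ι U χ k hF hU y y' a hy hyy hyx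
  obtain ⟨hx0, hx1⟩ := hx
  have hM0 : 0 ≤ Real.pi * (y' - y) + x ^ (1 - c) := by
    have h1 : 0 ≤ Real.pi * (y' - y) := mul_nonneg Real.pi_pos.le (by linarith)
    have h2 : 0 ≤ x ^ (1 - c) := Real.rpow_nonneg hx0.le _
    linarith
  refine hHMS ι U (ann y y') (fun i => hk (χ i) (k i)) a _ hM0 ?_
  intro i hi
  classical
  obtain ⟨m₁, hm₁, hχ₁⟩ := hF.chi i hi
  have hdiag : ‖∑ z ∈ ann y y', hk (χ i) (k i) z * conj (hk (χ i) (k i) z)‖ ≤
      Real.pi * (y' - y) + 2 * C * (Real.sqrt x + 1) := by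
    refine le_trans (norm_sum_le _ _) ?_
    refine le_trans ?_ (card_ann hC0 hC hy hyy hyx)
    calc ∑ z ∈ ann y y', ‖hk (χ i) (k i) z * conj (hk (χ i) (k i) z)‖
        ≤ ∑ _z ∈ ann y y', (1 : ℝ) := by
          apply Finset.sum_le_sum
          intro z hz
          have hz0 : z ≠ 0 := (mem_ann.1 hz).1
          rw [norm_mul, RCLike.norm_conj]
          have h := norm_hk hχ₁ (k i) hz0
          have h' := norm_nonneg (hk (χ i) (k i) z)
          nlinarith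
      _ = ((ann y y').card : ℝ) := by simp
  have hoff : ∀ j ∈ U.erase i, ‖∑ z ∈ ann y y', hk (χ i) (k i) z * conj (hk (χ j) (k j) z)‖ ≤
      x ^ (1 - 3 * c) := by
    intro j hj
    obtain ⟨hji, hjU⟩ := Finset.mem_erase.1 hj
    obtain ⟨m₂, hm₂, hχ₂⟩ := hF.chi j hjU
    exact hPx m₁ m₂ (χ i) (χ j) (k i) (k j) hχ₁ hχ₂ hm₁ hm₂ (hF.frq i hi) (hF.frq j hjU)
      (hF.dist i hi j hjU (Ne.symm hji)) 1 one_ne_zero y y' hy hyy hyx (ann y y')
      (fun z => ⟨fun hz => ⟨hz, one_dvd z⟩, fun hz => hz.1⟩)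
  have hsum : ∑ j ∈ U, ‖∑ z ∈ ann y y', hk (χ i) (k i) z * conj (hk (χ j) (k j) z)‖ =
      ‖∑ z ∈ ann y y', hk (χ i) (k i) z * conj (hk (χ i) (k i) z)‖ +
      ∑ j ∈ U.erase i, ‖∑ z ∈ ann y y', hk (χ i) (k i) z * conj (hk (χ j) (k j) z)‖ :=
    (Finset.add_sum_erase U _ hi).symm
  have hE : ∑ j ∈ U.erase i, ‖∑ z ∈ ann y y', hk (χ i) (k i) z * conj (hk (χ j) (k j) z)‖ ≤
      x ^ c * x ^ (1 - 3 * c) := by
    calc ∑ j ∈ U.erase i, ‖∑ z ∈ ann y y', hk (χ i) (k i) z * conj (hk (χ j) (k j) z)‖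
        ≤ ∑ _j ∈ U.erase i, x ^ (1 - 3 * c) := Finset.sum_le_sum hoff
      _ = ((U.erase i).card : ℝ) * x ^ (1 - 3 * c) := by
          rw [Finset.sum_const, nsmul_eq_mul]
      _ ≤ x ^ c * x ^ (1 - 3 * c) := by
          apply mul_le_mul_of_nonneg_right _ (Real.rpow_nonneg hx0.le _)
          refine le_trans ?_ hU
          exact_mod_cast Finset.card_le_card (Finset.erase_subset i U)
  show ∑ j ∈ U, ‖∑ z ∈ ann y y', hk (χ i) (k i) z * conj (hk (χ j) (k j) z)‖ ≤ _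
  rw [hsum]
  linarith

end Pool.Agent.Lib.MP391708.X
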