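import Pool.Agent.Lib.MP_391708_nt.X.SpecHM
import Pool.Agent.Lib.MP_391708_nt.MR.Basic

/-!
# Theorem X, module LGD: the formula of Legendre in the Gaussian integers
-/

set_option autoImplicit false

namespace Pool.Agent.Lib.MP391708.X

open Pool.Agent.Lib.MP391708.MR
open Finset Filter Topology
open scoped ComplexConjugate

namespace LGDM

/-- Every nonzero Gaussian integer has an associate in the half open first quadrant. -/
lemma exists_assoc (z : Gi) (hz : z ≠ 0) :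
    ∃ z' : Gi, Associated z z' ∧ nm z' = nm z ∧ 0 < z'.re ∧ 0 ≤ z'.im := by
  have hI : IsUnit (⟨0, 1⟩ : Gi) := by
    refine IsUnit.of_mul_eq_one (⟨0, -1⟩ : Gi) ?_
    refine Zsqrtd.ext ?_ ?_
    · simp [Zsqrtd.re_mul]
    · simp [Zsqrtd.im_mul]
  have hnI : nm (⟨0, 1⟩ : Gi) = 1 := nm_I
  have hrot : ∀ w : Gi, Associated w (w * ⟨0, 1⟩) ∧ nm (w * ⟨0, 1⟩) = nm w ∧
      (w * ⟨0, 1⟩).re = -w.im ∧ (w * ⟨0, 1⟩).im = w.re := by
    intro w
    refine ⟨associated_mul_unit_right w _ hI, by rw [nm_mul, hnI, mul_one], ?_, ?_⟩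
    · rw [Zsqrtd.re_mul]
      simp
    · rw [Zsqrtd.im_mul]
      simp
  have hz2 : z.re ≠ 0 ∨ z.im ≠ 0 := by
    by_contra h
    push Not at h
    exact hz (Zsqrtd.ext h.1 h.2)
  obtain ⟨a1, n1, r1, i1⟩ := hrot z
  obtain ⟨a2, n2, r2, i2⟩ := hrot (z * ⟨0, 1⟩)
  obtain ⟨a3, n3, r3, i3⟩ := hrot (z * ⟨0, 1⟩ * ⟨0, 1⟩)
  by_cases h0 : 0 < z.re ∧ 0 ≤ z.im
  · exact ⟨z, Associated.refl z, rfl, h0.1, h0.2⟩
  by_cases h1 : z.im < 0 ∧ 0 ≤ z.re
  · exact ⟨_, a1, n1, by rw [r1]; omega, by rw [i1]; omega⟩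
  by_cases h2 : z.re < 0 ∧ z.im ≤ 0
  · exact ⟨_, a1.trans a2, n2.trans n1, by rw [r2, i1]; omega, by rw [i2, r1]; omega⟩
  · exact ⟨_, (a1.trans a2).trans a3, (n3.trans n2).trans n1, by rw [r3, i2, r1]; omega,
      by rw [i3, r2, i1]; omega⟩

/-- Associates in the half open first quadrant are equal. -/
lemma assoc_eq {z z' : Gi} (h : Associated z z') (h1 : 0 < z.re) (h2 : 0 ≤ z.im)
    (h3 : 0 < z'.re) (h4 : 0 ≤ z'.im) : z = z' := by
  obtain ⟨u, hu⟩ := h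
  have hz : z ≠ 0 := by
    rintro rfl
    simp at h1
  have hn : nm (u : Gi) = 1 := by
    have h5 : nm (u : Gi) * nm ((u⁻¹ : Giˣ) : Gi) = 1 := by
      rw [← nm_mul, Units.mul_inv, nm_one]
    exact Nat.eq_one_of_mul_eq_one_right h5
  have hc := nm_cast (u : Gi)
  rw [hn] at hc
  have hre : z'.re = z.re * (u : Gi).re - z.im * (u : Gi).im := by
    rw [← hu, Zsqrtd.re_mul]
    ring
  have him : z'.im = z.re * (u : Gi).im + z.im * (u : Gi).re := by
    rw [← hu, Zsqrtd.im_mul]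
  generalize hc' : (u : Gi).re = c at *
  generalize hd' : (u : Gi).im = d at *
  push_cast at hc
  have hc1 : c ≤ 1 := by nlinarith [sq_nonneg d]
  have hc2 : -1 ≤ c := by nlinarith [sq_nonneg d]
  have hd1 : d ≤ 1 := by nlinarith [sq_nonneg c]
  have hd2 : -1 ≤ d := by nlinarith [sq_nonneg c]
  have hcase : (c = 1 ∧ d = 0) ∨ (c = -1 ∧ d = 0) ∨ (c = 0 ∧ d = 1) ∨ (c = 0 ∧ d = -1) := by
    have hc3 : c = -1 ∨ c = 0 ∨ c = 1 := by omega
    have hd3 : d = -1 ∨ d = 0 ∨ d = 1 := by omega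
    rcases hc3 with rfl | rfl | rfl <;> rcases hd3 with rfl | rfl | rfl <;> simp at hc ⊢
  rcases hcase with ⟨rfl, rfl⟩ | ⟨rfl, rfl⟩ | ⟨rfl, rfl⟩ | ⟨rfl, rfl⟩
  · refine Zsqrtd.ext ?_ ?_
    · rw [hre]; ring
    · rw [him]; ring
  · exfalso
    rw [hre] at h3
    linarith
  · exfalso
    rw [hre] at h3
    linarith
  · exfalso
    rw [him] at h4
    linarith

lemma mem_PI {w : ℝ} {π : Gi} :
    π ∈ PI w ↔ (nm π : ℝ) ≤ w ∧ Prime π ∧ 0 < π.re ∧ 0 ≤ π.im := by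
  unfold PI
  simp only [mem_filter, mem_disc]
  constructor
  · rintro ⟨⟨_, h1⟩, h2⟩
    exact ⟨h1, h2⟩
  · rintro ⟨h1, h2⟩
    exact ⟨⟨h2.1.ne_zero, h1⟩, h2⟩

lemma prod_dvd_iff {w : ℝ} {T : Finset Gi} (hT : T ⊆ PI w) (z : Gi) :
    (∏ π ∈ T, π) ∣ z ↔ ∀ π ∈ T, π ∣ z := by
  constructor
  · intro h π hπ
    exact (dvd_prod_of_mem (fun π : Gi => π) hπ).trans h
  · intro h
    refine Finset.prod_dvd_of_coprime ?_ h
    intro π hπ ρ hρ hne
    have h1 := mem_PI.1 (hT hπ)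
    have h2 := mem_PI.1 (hT hρ)
    show IsCoprime π ρ
    rw [Irreducible.coprime_iff_not_dvd h1.2.1.irreducible]
    intro hd
    have h3 : Associated π ρ := (Prime.dvd_prime_iff_associated h1.2.1 h2.2.1).1 hd
    exact hne (assoc_eq h3 h1.2.2.1 h1.2.2.2 h2.2.2.1 h2.2.2.2)

lemma rgh_iff {w : ℝ} {z : Gi} : rgh w z ↔ ∀ π ∈ PI w, ¬ π ∣ z := by
  constructor
  · intro h π hπ hd
    have h1 := mem_PI.1 hπ
    have h2 := h π h1.2.1 hd
    linarith
  · intro h π hπ hd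
    by_contra hle
    push Not at hle
    obtain ⟨π', ha, hn, hr, hi⟩ := exists_assoc π hπ.ne_zero
    have h1 : π' ∈ PI w := mem_PI.2 ⟨by rw [hn]; exact hle, ha.prime hπ, hr, hi⟩
    exact h π' h1 (ha.symm.dvd.trans hd)

end LGDM

open LGDM in
theorem specLGD : SpecLGD := by
  classical
  intro w S f _ S₁ S₂ hS₁ hS₂
  have h1 : ∑ z ∈ S₁, f z = ∑ z ∈ S, if rgh w z then f z else 0 := by
    rw [← Finset.sum_filter]
    refine Finset.sum_congr ?_ fun _ _ => rfl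
    ext z
    rw [hS₁, mem_filter]
  have h2 : ∀ T, ∑ z ∈ S₂ T, f z = ∑ z ∈ S, if (∏ π ∈ T, π) ∣ z then f z else 0 := by
    intro T
    rw [← Finset.sum_filter]
    refine Finset.sum_congr ?_ fun _ _ => rfl
    ext z
    rw [hS₂, mem_filter]
  rw [h1]
  simp_rw [h2, Finset.mul_sum]
  rw [Finset.sum_comm]
  refine Finset.sum_congr rfl fun z _ => ?_
  have h3 : ∑ T ∈ (PI w).powerset, (-1 : ℂ) ^ T.card * (if (∏ π ∈ T, π) ∣ z then f z else 0) =
      (∑ T ∈ ((PI w).filter (fun π => π ∣ z)).powerset, (-1 : ℂ) ^ T.card) * f z := by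
    have h4 : ((PI w).filter (fun π => π ∣ z)).powerset =
        (PI w).powerset.filter (fun T => (∏ π ∈ T, π) ∣ z) := by
      ext T
      rw [mem_powerset, mem_filter, mem_powerset]
      constructor
      · intro h
        have h5 : T ⊆ PI w := h.trans (filter_subset _ _)
        exact ⟨h5, (prod_dvd_iff h5 z).2 fun π hπ => (mem_filter.1 (h hπ)).2⟩
      · rintro ⟨h5, h6⟩ π hπ
        exact mem_filter.2 ⟨h5 hπ, (prod_dvd_iff h5 z).1 h6 π hπ⟩
    rw [h4, Finset.sum_mul, Finset.sum_filter]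
    refine Finset.sum_congr rfl fun T _ => ?_
    split_ifs
    · rfl
    · rw [mul_zero]
  rw [h3]
  have h5 : ∑ T ∈ ((PI w).filter (fun π => π ∣ z)).powerset, (-1 : ℂ) ^ T.card =
      if (PI w).filter (fun π => π ∣ z) = ∅ then 1 else 0 := by
    have h6 := Finset.sum_powerset_neg_one_pow_card (x := (PI w).filter (fun π => π ∣ z))
    have h7 := congrArg (fun n : ℤ => (n : ℂ)) h6
    push_cast at h7
    exact h7
  rw [h5]
  have h8 : (PI w).filter (fun π => π ∣ z) = ∅ ↔ rgh w z := by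
    rw [rgh_iff, Finset.filter_eq_empty_iff]
  by_cases h9 : rgh w z
  · rw [if_pos h9, if_pos (h8.2 h9), one_mul]
  · rw [if_neg h9, if_neg (fun h => h9 (h8.1 h)), zero_mul]

end Pool.Agent.Lib.MP391708.X
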