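import Pool.Agent.Lib.MP_391708_nt.X.SpecHM
import Pool.Agent.Lib.MP_391708_nt.MR.Basic

/-!
# Theorem X (MP_391708), module NTS: the number of sets of primes with small product (helper77)
-/

set_option autoImplicit false

namespace Pool.Agent.Lib.MP391708.X

open Pool.Agent.Lib.MP391708.MR
open Finset Filter Topology
open scoped ComplexConjugate

namespace NTSM

lemma mem_PI {w : ℝ} {π : Gi} : π ∈ PI w ↔ π ∈ disc w ∧ Prime π ∧ 0 < π.re ∧ 0 ≤ π.im := by
  classical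
  unfold PI
  rw [Finset.mem_filter]

lemma nm_prod (T : Finset Gi) : nm (∏ π ∈ T, π) = ∏ π ∈ T, nm π := by
  classical
  induction T using Finset.induction_on with
  | empty => simp
  | insert a s ha ih => rw [Finset.prod_insert ha, Finset.prod_insert ha, nm_mul, ih]

lemma eq_of_dvd {w w' : ℝ} {π ρ : Gi} (h : π ∈ PI w) (h' : ρ ∈ PI w') (hd : π ∣ ρ) : π = ρ := by
  obtain ⟨-, hp, h1, h2⟩ := mem_PI.1 h
  obtain ⟨-, hp', h1', h2'⟩ := mem_PI.1 h'
  obtain ⟨u, hu⟩ := hd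
  have hun : IsUnit u := (hp'.irreducible.isUnit_or_isUnit hu).resolve_left hp.not_isUnit
  have e1 : ρ.re = π.re * u.re - π.im * u.im := by
    rw [hu, Zsqrtd.re_mul]
    ring
  have e2 : ρ.im = π.re * u.im + π.im * u.re := by
    rw [hu, Zsqrtd.im_mul]
  rcases unit_cases (isUnit_iff_nm.1 hun) with rfl | rfl | rfl | rfl
  · rw [hu, mul_one]
  all_goals
    exfalso
    simp at e1 e2
    omega

lemma mem_of_dvd {w : ℝ} {T : Finset Gi} (hT : T ⊆ PI w) {π : Gi} (h : π ∈ PI w)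
    (hd : π ∣ ∏ ρ ∈ T, ρ) : π ∈ T := by
  obtain ⟨ρ, hρ, hdv⟩ := (mem_PI.1 h).2.1.exists_mem_finset_dvd hd
  rw [eq_of_dvd h (hT hρ) hdv]
  exact hρ

end NTSM

open NTSM

/-- **NTS**. -/
theorem specNTS : SpecNTS := by
  classical
  intro w D hD
  have h1 : ((PI w).powerset.filter (fun T => ∏ π ∈ T, (nm π : ℝ) ≤ D)).card ≤ (disc D).card := by
    refine Finset.card_le_card_of_injOn (fun T : Finset Gi => ∏ π ∈ T, π) ?_ ?_
    · intro T hT
      rw [Finset.mem_coe, Finset.mem_filter, Finset.mem_powerset] at hT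
      rw [Finset.mem_coe, mem_disc]
      refine ⟨Finset.prod_ne_zero_iff.2 fun π hπ => (mem_PI.1 (hT.1 hπ)).2.1.ne_zero, ?_⟩
      have : (nm (∏ π ∈ T, π) : ℝ) = ∏ π ∈ T, (nm π : ℝ) := by
        rw [nm_prod, Nat.cast_prod]
      rw [this]
      exact hT.2
    · intro T hT T' hT' he
      rw [Finset.mem_coe, Finset.mem_filter, Finset.mem_powerset] at hT hT'
      have he' : ∏ π ∈ T, π = ∏ π ∈ T', π := he
      apply Finset.Subset.antisymm
      · intro π hπ
        exact mem_of_dvd hT'.1 (hT.1 hπ) (he' ▸ Finset.dvd_prod_of_mem _ hπ)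
      · intro π hπ
        exact mem_of_dvd hT.1 (hT'.1 hπ) (he'.symm ▸ Finset.dvd_prod_of_mem _ hπ)
  calc (((PI w).powerset.filter (fun T => ∏ π ∈ T, (nm π : ℝ) ≤ D)).card : ℝ)
      ≤ ((disc D).card : ℝ) := by exact_mod_cast h1
    _ ≤ 9 * D := card_disc_le hD

end Pool.Agent.Lib.MP391708.X
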