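import Pool.Agent.Lib.MP_391708_nt.X.SpecHM
import Pool.Agent.Lib.MP_391708_nt.MR.Basic

/-!
# Theorem X, part HM, module PAR: pairs of different characters over the multiples of `d` in an annulus
-/

set_option autoImplicit false

namespace Pool.Agent.Lib.MP391708.X

open Pool.Agent.Lib.MP391708.MR
open Finset Filter Topology
open scoped ComplexConjugate

namespace PARM

lemma toChi {m : Gi} {χ : Gi → ℂ} (h : ChiG m χ) : Chi χ where
  one := h.one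
  mul := h.mul
  period := ⟨m, h.ne, h.period, h.supp⟩

lemma prod {m₁ m₂ : Gi} {χ₁ χ₂ : Gi → ℂ} (h₁ : ChiG m₁ χ₁) (h₂ : ChiG m₂ χ₂) :
    ChiG (m₁ * m₂) (fun z => χ₁ z * conj (χ₂ z)) where
  ne := mul_ne_zero h₁.ne h₂.ne
  one := by
    show χ₁ 1 * conj (χ₂ 1) = 1
    rw [h₁.one, h₂.one, map_one, one_mul]
  mul := by
    intro x y
    show χ₁ (x * y) * conj (χ₂ (x * y)) = χ₁ x * conj (χ₂ x) * (χ₁ y * conj (χ₂ y))
    rw [h₁.mul, h₂.mul, map_mul]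
    ring
  period := by
    intro x y
    show χ₁ (x + m₁ * m₂ * y) * conj (χ₂ (x + m₁ * m₂ * y)) = χ₁ x * conj (χ₂ x)
    have e1 : x + m₁ * m₂ * y = x + m₁ * (m₂ * y) := by ring
    have e2 : x + m₁ * m₂ * y = x + m₂ * (m₁ * y) := by ring
    have e3 : χ₁ (x + m₁ * m₂ * y) = χ₁ x := by rw [e1, h₁.period]
    have e4 : χ₂ (x + m₁ * m₂ * y) = χ₂ x := by rw [e2, h₂.period]
    rw [e3, e4]
  supp := by
    intro x
    show χ₁ x * conj (χ₂ x) ≠ 0 ↔ IsCoprime x (m₁ * m₂)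
    rw [IsCoprime.mul_right_iff, mul_ne_zero_iff, h₁.supp x, ← h₂.supp x, ne_eq, ne_eq,
      map_eq_zero]

lemma hk_mul {m : Gi} {χ : Gi → ℂ} (h : ChiG m χ) (k : ℤ) (x y : Gi) :
    hk χ k (x * y) = hk χ k x * hk χ k y := by
  unfold hk
  rw [h.mul, xi_mul]
  ring

lemma norm_hk_le {m : Gi} {χ : Gi → ℂ} (h : ChiG m χ) (k : ℤ) {z : Gi} (hz : z ≠ 0) :
    ‖hk χ k z‖ ≤ 1 := by
  unfold hk
  rw [norm_mul, norm_xi k hz, mul_one]
  exact (toChi h).norm_le_one z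

/-- the sum over the multiples of `d` -/
lemma sum_mul {ψ : Gi → ℂ} (hψ : ∀ x y, ψ (x * y) = ψ x * ψ y) {d : Gi} (hd : d ≠ 0)
    {y y' : ℝ} {S : Finset Gi} (hS : ∀ z, z ∈ S ↔ z ∈ ann y y' ∧ d ∣ z) :
    ∑ z ∈ S, ψ z = ψ d * ∑ z ∈ ann (y / nm d) (y' / nm d), ψ z := by
  have hN : (0 : ℝ) < nm d := nm_posR hd
  rw [Finset.mul_sum]
  symm
  refine Finset.sum_bij (fun z _ => d * z) ?_ ?_ ?_ ?_
  · intro z hz
    rw [mem_ann] at hz
    rw [hS, mem_ann]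
    refine ⟨⟨mul_ne_zero hd hz.1, ?_, ?_⟩, dvd_mul_right d z⟩
    · rw [nm_mul]
      push_cast
      have := hz.2.1
      rw [div_lt_iff₀ hN] at this
      linarith
    · rw [nm_mul]
      push_cast
      have := hz.2.2
      rw [le_div_iff₀ hN] at this
      linarith
  · intro a _ b _ hab
    exact mul_left_cancel₀ hd hab
  · intro z hz
    rw [hS, mem_ann] at hz
    obtain ⟨⟨hz0, hz1, hz2⟩, w, rfl⟩ := hz
    refine ⟨w, ?_, rfl⟩
    rw [mem_ann]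
    rw [nm_mul] at hz1 hz2
    push_cast at hz1 hz2
    refine ⟨fun h => hz0 (by rw [h, mul_zero]), ?_, ?_⟩
    · rw [div_lt_iff₀ hN]
      linarith
    · rw [le_div_iff₀ hN]
      linarith
  · intro z _
    rw [hψ]

end PARM

open PARM in
theorem specPAR (hANC : SpecANC) : SpecPAR := by
  intro A B hA hB
  obtain ⟨c, hc, hBc, h⟩ := hANC (A + 1) B (by linarith) hB
  refine ⟨c / 2, by positivity, by nlinarith, ?_⟩
  have hB0 : 0 < B * (c / 2) := by positivity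
  have h2 : ∀ᶠ x : ℝ in atTop, (2 : ℝ) ≤ x ^ (B * (c / 2)) :=
    (tendsto_rpow_atTop hB0).eventually_ge_atTop 2
  filter_upwards [h, h2, eventually_ge_atTop 2] with x hx hx2 hx1
  intro m₁ m₂ χ₁ χ₂ k₁ k₂ h₁ h₂ hn₁ hn₂ hk₁ hk₂ hD d hd y y' hy hyy hyx S hS
  have hx0 : 0 < x := by linarith
  have hP := prod h₁ h₂
  have hnm : (nm (m₁ * m₂) : ℝ) ≤ x ^ c := by
    rw [nm_mul]
    push_cast
    have e : x ^ c = x ^ (c / 2) * x ^ (c / 2) := by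
      rw [← Real.rpow_add hx0]
      congr 1
      ring
    rw [e]
    exact mul_le_mul hn₁ hn₂ (Nat.cast_nonneg _) (by positivity)
  have hkk : |((k₁ - k₂ : ℤ) : ℝ)| ≤ x ^ (A + 1) := by
    push_cast
    have e : x ^ (A + 1) = x ^ A * x := by
      rw [Real.rpow_add hx0, Real.rpow_one]
    have e1 : |(k₁ : ℝ) - k₂| ≤ |(k₁ : ℝ)| + |(k₂ : ℝ)| := abs_sub _ _
    have e2 : 0 < x ^ A := by positivity
    rw [e]
    nlinarith
  have hnt : (k₁ - k₂ ≠ 0 ∨ ∃ z, χ₁ z * conj (χ₂ z) ≠ 0 ∧ χ₁ z * conj (χ₂ z) ≠ 1) := by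
    rcases hD with hD | ⟨z, hz1, hz2, hz3⟩
    · exact Or.inl (sub_ne_zero.mpr hD)
    · refine Or.inr ⟨z, mul_ne_zero hz1 (by rwa [ne_eq, map_eq_zero]), fun h => hz3 ?_⟩
      have e1 : χ₂ z * conj (χ₂ z) = 1 := by
        rw [Complex.mul_conj, Complex.normSq_eq_norm_sq, (toChi h₂).norm_eq_one hz2]
        simp
      have e2 : conj (χ₂ z) ≠ 0 := by rwa [ne_eq, map_eq_zero]
      exact mul_right_cancel₀ e2 (h.trans e1.symm)
  have hN : (1 : ℝ) ≤ nm d := one_le_nm hd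
  have hN0 : (0 : ℝ) < nm d := by linarith
  have hb : ∀ t : ℝ, 0 ≤ t → t ≤ y' → ‖∑ z ∈ disc (t / nm d), hk (fun z => χ₁ z * conj (χ₂ z))
      (k₁ - k₂) z‖ ≤ x ^ (1 - B * c) := by
    intro t ht hty
    refine hx (m₁ * m₂) _ (k₁ - k₂) hP hnm hkk hnt (t / nm d) (by positivity) ?_
    rw [div_le_iff₀ hN0]
    nlinarith
  have hsum : ∑ z ∈ S, hk χ₁ k₁ z * conj (hk χ₂ k₂ z) =
      ∑ z ∈ S, hk (fun z => χ₁ z * conj (χ₂ z)) (k₁ - k₂) z := by
    refine Finset.sum_congr rfl fun z hz => ?_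
    have hz0 : z ≠ 0 := (mem_ann.1 ((hS z).1 hz).1).1
    unfold hk
    rw [xi_sub k₁ k₂ hz0, map_mul]
    ring
  rw [hsum, sum_mul (hk_mul hP (k₁ - k₂)) hd hS, norm_mul]
  have hle : y / nm d ≤ y' / nm d := div_le_div_of_nonneg_right hyy hN0.le
  have hdiff : ∑ z ∈ ann (y / nm d) (y' / nm d), hk (fun z => χ₁ z * conj (χ₂ z)) (k₁ - k₂) z =
      (∑ z ∈ disc (y' / nm d), hk (fun z => χ₁ z * conj (χ₂ z)) (k₁ - k₂) z) -
      ∑ z ∈ disc (y / nm d), hk (fun z => χ₁ z * conj (χ₂ z)) (k₁ - k₂) z := by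
    rw [disc_union hle, sum_union (disc_disjoint _ _)]
    ring
  have e1 := norm_hk_le hP (k₁ - k₂) hd
  have e2 := hb y' (hy.trans hyy) le_rfl
  have e3 := hb y hy hyy
  have e4 : ‖∑ z ∈ ann (y / nm d) (y' / nm d), hk (fun z => χ₁ z * conj (χ₂ z)) (k₁ - k₂) z‖ ≤
      x ^ (1 - B * c) + x ^ (1 - B * c) := by
    rw [hdiff]
    exact (norm_sub_le _ _).trans (add_le_add e2 e3)
  have e5 : x ^ (1 - B * (c / 2)) = x ^ (B * (c / 2)) * x ^ (1 - B * c) := by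
    rw [← Real.rpow_add hx0]
    congr 1
    ring
  have e6 : 0 < x ^ (1 - B * c) := by positivity
  rw [e5]
  calc _ ≤ 1 * (x ^ (1 - B * c) + x ^ (1 - B * c)) :=
        mul_le_mul e1 e4 (norm_nonneg _) zero_le_one
    _ ≤ x ^ (B * (c / 2)) * x ^ (1 - B * c) := by nlinarith

end Pool.Agent.Lib.MP391708.X
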