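import Pool.Agent.Lib.MP_391708_nt.X.SpecHM
import Pool.Agent.Lib.MP_391708_nt.MR.Basic

/-!
# Module RG0 (MP_391708_nt, Theorem X): the number of rough elements of an annulus
-/

set_option autoImplicit false

namespace Pool.Agent.Lib.MP391708.X

open Pool.Agent.Lib.MP391708.MR
open Finset Filter Topology

namespace RG0M

lemma nm_prod (T : Finset Gi) : nm (∏ π ∈ T, π) = ∏ π ∈ T, nm π := by
  classical
  induction T using Finset.induction with
  | empty => simp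
  | insert a s ha ih => rw [prod_insert ha, prod_insert ha, nm_mul, ih]

lemma mult_card {d : Gi} (hd : d ≠ 0) (y y' : ℝ) (S : Finset Gi)
    (hS : ∀ z, z ∈ S ↔ z ∈ ann y y' ∧ d ∣ z) :
    S.card = (ann (y / nm d) (y' / nm d)).card := by
  have h1 := nm_posR hd
  symm
  apply Finset.card_bij (fun z _ => d * z)
  · intro z hz
    rw [mem_ann] at hz
    rw [hS, mem_ann]
    obtain ⟨h2, h3, h4⟩ := hz
    rw [div_lt_iff₀ h1] at h3
    rw [le_div_iff₀ h1] at h4
    refine ⟨⟨mul_ne_zero hd h2, ?_, ?_⟩, dvd_mul_right _ _⟩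
    · rw [nm_mul]; push_cast; linarith
    · rw [nm_mul]; push_cast; linarith
  · intro a _ b _ h
    exact mul_left_cancel₀ hd h
  · intro z hz
    rw [hS, mem_ann] at hz
    obtain ⟨⟨h2, h3, h4⟩, t, rfl⟩ := hz
    refine ⟨t, ?_, rfl⟩
    rw [mem_ann]
    rw [nm_mul] at h3 h4
    push_cast at h3 h4
    refine ⟨right_ne_zero_of_mul h2, ?_, ?_⟩
    · rw [div_lt_iff₀ h1]; linarith
    · rw [le_div_iff₀ h1]; linarith

lemma ann_card {y y' : ℝ} (h : y ≤ y') :
    ((ann y y').card : ℝ) = (disc y').card - (disc y).card := by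
  rw [disc_union h, card_union_of_disjoint (disc_disjoint y y')]
  push_cast
  ring

lemma VP_eq (w : ℝ) :
    VP w = ∑ T ∈ (PI w).powerset, (-1) ^ T.card * (1 / ∏ π ∈ T, (nm π : ℝ)) := by
  classical
  unfold VP
  have h : ∀ π ∈ PI w, (1 - 1 / (nm π : ℝ)) = (-(1 / (nm π : ℝ))) + 1 := by
    intros
    ring
  rw [prod_congr rfl h, prod_add]
  refine sum_congr rfl fun T _ => ?_
  rw [prod_const_one, mul_one, prod_neg, prod_div_distrib, prod_const_one]

lemma ev_pow (K a b : ℝ) (hab : a < b) : ∀ᶠ x : ℝ in atTop, K * x ^ a ≤ x ^ b / 2 := by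
  filter_upwards [(tendsto_rpow_atTop (sub_pos.2 hab)).eventually_ge_atTop (2 * K),
    eventually_gt_atTop 0] with x h1 h2
  have h3 : x ^ b = x ^ a * x ^ (b - a) := by
    rw [← Real.rpow_add h2]
    congr 1
    ring
  rw [h3]
  have h4 := Real.rpow_pos_of_pos h2 a
  nlinarith

lemma prod_ne {w : ℝ} {T : Finset Gi} (hT : T ∈ (PI w).powerset) : (∏ π ∈ T, π) ≠ 0 := by
  classical
  rw [mem_powerset] at hT
  rw [prod_ne_zero_iff]
  intro π hπ
  have h := hT hπ
  unfold PI at h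
  rw [mem_filter] at h
  exact h.2.1.ne_zero

end RG0M

open RG0M

theorem specRG0 (hL : SpecLGD) (hR : SpecRKN) (hN : SpecNTS) (hC : SpecCTU) : SpecRG0 := by
  classical
  intro A hA
  obtain ⟨c₀, hc₀, hR'⟩ := hR A (1 / 4) hA (by norm_num)
  obtain ⟨C, hCpos, hC'⟩ := hC
  have hdisc : ∀ Y : ℝ, 0 ≤ Y →
      |((disc Y).card : ℝ) - Real.pi * Y| ≤ C * (Real.sqrt Y + 1) := by
    intro Y hY
    have h := hC' 1 one_pos 0 Y hY
    have h1 : (disc Y).filter (fun z => ((1 : ℕ) : ℤ) ∣ z.re - (0 : Gi).re ∧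
        ((1 : ℕ) : ℤ) ∣ z.im - (0 : Gi).im) = disc Y := by
      apply Finset.filter_true_of_mem
      intro z _
      simp
    rw [h1] at h
    simpa using h
  set c := min c₀ (1 / 4) / 2 with hc
  have hm0 : 0 < min c₀ (1 / 4) := lt_min hc₀ (by norm_num)
  have hm1 : min c₀ (1 / 4) ≤ c₀ := min_le_left _ _
  have hm2 : min c₀ (1 / 4) ≤ 1 / 4 := min_le_right _ _
  refine ⟨c, by linarith, by linarith, ?_⟩
  filter_upwards [hR', ev_pow (36 * C) (3 / 4) (1 - c) (by linarith),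
    ev_pow 13 (1 - c₀) (1 - c) (by linarith), eventually_ge_atTop 1]
    with x hx1 hx2 hx3 hx4 w y y' hw hy hyy hyx S hS
  have hx0 : 0 < x := by linarith
  have hy' : 0 ≤ y' := hy.trans hyy
  set S₂ : Finset Gi → Finset Gi := fun T => (ann y y').filter (fun z => (∏ π ∈ T, π) ∣ z)
    with hS₂
  have hS₂m : ∀ (T : Finset Gi) (z : Gi), z ∈ S₂ T ↔ z ∈ ann y y' ∧ (∏ π ∈ T, π) ∣ z := by
    intro T z
    rw [hS₂, mem_filter]
  have hsum := hL w (ann y y') (fun _ => 1) (fun z hz => (mem_ann.1 hz).1) S S₂ hS hS₂m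
  have hsum' : (S.card : ℝ) = ∑ T ∈ (PI w).powerset, (-1) ^ T.card * ((S₂ T).card : ℝ) := by
    have h1 : ((S.card : ℝ) : ℂ) =
        ((∑ T ∈ (PI w).powerset, (-1) ^ T.card * ((S₂ T).card : ℝ) : ℝ) : ℂ) := by
      push_cast
      simpa using hsum
    exact_mod_cast h1
  have hdiff : (S.card : ℝ) - Real.pi * (y' - y) * VP w = ∑ T ∈ (PI w).powerset,
      (-1) ^ T.card * (((S₂ T).card : ℝ) - Real.pi * (y' - y) * (1 / ∏ π ∈ T, (nm π : ℝ))) := by
    rw [hsum', VP_eq, mul_sum, ← sum_sub_distrib]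
    refine sum_congr rfl fun T _ => ?_
    ring
  have hcard : ∀ T ∈ (PI w).powerset, 1 ≤ ∏ π ∈ T, (nm π : ℝ) ∧
      (S₂ T).card = (ann (y / ∏ π ∈ T, (nm π : ℝ)) (y' / ∏ π ∈ T, (nm π : ℝ))).card := by
    intro T hT
    have h1 := prod_ne hT
    have h2 : ((nm (∏ π ∈ T, π) : ℕ) : ℝ) = ∏ π ∈ T, (nm π : ℝ) := by
      rw [nm_prod]
      push_cast
      rfl
    refine ⟨?_, ?_⟩
    · rw [← h2]
      exact one_le_nm h1
    · rw [← h2]
      exact mult_card h1 y y' _ (hS₂m T)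
  have hsmall : ∀ T ∈ (PI w).powerset,
      |((S₂ T).card : ℝ) - Real.pi * (y' - y) * (1 / ∏ π ∈ T, (nm π : ℝ))| ≤
        2 * C * (Real.sqrt x + 1) := by
    intro T hT
    obtain ⟨h1, h2⟩ := hcard T hT
    set N := ∏ π ∈ T, (nm π : ℝ) with hNdef
    have hNpos : 0 < N := by linarith
    rw [h2, ann_card (div_le_div_of_nonneg_right hyy hNpos.le)]
    have h3 := hdisc (y' / N) (div_nonneg hy' hNpos.le)
    have h4 := hdisc (y / N) (div_nonneg hy hNpos.le)
    have h5 : Real.sqrt (y' / N) ≤ Real.sqrt x :=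
      Real.sqrt_le_sqrt ((div_le_self hy' h1).trans hyx)
    have h6 : Real.sqrt (y / N) ≤ Real.sqrt x :=
      Real.sqrt_le_sqrt ((div_le_self hy h1).trans (hyy.trans hyx))
    have h7 : ((disc (y' / N)).card : ℝ) - (disc (y / N)).card - Real.pi * (y' - y) * (1 / N) =
        (((disc (y' / N)).card : ℝ) - Real.pi * (y' / N)) -
          (((disc (y / N)).card : ℝ) - Real.pi * (y / N)) := by
      field_simp
      ring
    rw [h7]
    have h8 := abs_sub (((disc (y' / N)).card : ℝ) - Real.pi * (y' / N))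
      (((disc (y / N)).card : ℝ) - Real.pi * (y / N))
    have h9 : C * (Real.sqrt (y' / N) + 1) ≤ C * (Real.sqrt x + 1) :=
      mul_le_mul_of_nonneg_left (by linarith) hCpos.le
    have h10 : C * (Real.sqrt (y / N) + 1) ≤ C * (Real.sqrt x + 1) :=
      mul_le_mul_of_nonneg_left (by linarith) hCpos.le
    linarith
  have hlarge : ∀ T ∈ (PI w).powerset,
      |((S₂ T).card : ℝ) - Real.pi * (y' - y) * (1 / ∏ π ∈ T, (nm π : ℝ))| ≤
        13 * x * (1 / ∏ π ∈ T, (nm π : ℝ)) := by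
    intro T hT
    obtain ⟨h1, h2⟩ := hcard T hT
    set N := ∏ π ∈ T, (nm π : ℝ) with hNdef
    have hNpos : 0 < N := by linarith
    have h3 : ((S₂ T).card : ℝ) ≤ 9 * x * (1 / N) := by
      rw [h2]
      have h4 : ((ann (y / N) (y' / N)).card : ℝ) ≤ (disc (y' / N)).card := by
        exact_mod_cast card_le_card (ann_subset_disc _ _)
      have h5 := card_disc_le (div_nonneg hy' hNpos.le)
      have h6 : y' / N ≤ x * (1 / N) := by
        rw [mul_one_div]
        exact div_le_div_of_nonneg_right hyx hNpos.le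
      linarith
    have h4 : Real.pi * (y' - y) * (1 / N) ≤ 4 * x * (1 / N) := by
      apply mul_le_mul_of_nonneg_right _ (by positivity)
      apply mul_le_mul Real.pi_le_four (by linarith) (by linarith) (by norm_num)
    have h5 : 0 ≤ Real.pi * (y' - y) * (1 / N) :=
      mul_nonneg (mul_nonneg Real.pi_pos.le (by linarith)) (by positivity)
    have h6 : (0 : ℝ) ≤ (S₂ T).card := Nat.cast_nonneg _
    rw [abs_le]
    constructor <;> nlinarith
  have hR1 := hx1 w hw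
  have hN1 := hN w (x ^ (1 / 4 : ℝ)) (Real.rpow_nonneg hx0.le _)
  rw [hdiff]
  have hA1 : |∑ T ∈ (PI w).powerset, (-1) ^ T.card *
      (((S₂ T).card : ℝ) - Real.pi * (y' - y) * (1 / ∏ π ∈ T, (nm π : ℝ)))| ≤
      ∑ T ∈ (PI w).powerset,
        |((S₂ T).card : ℝ) - Real.pi * (y' - y) * (1 / ∏ π ∈ T, (nm π : ℝ))| := by
    refine (abs_sum_le_sum_abs _ _).trans (le_of_eq ?_)
    refine sum_congr rfl fun T _ => ?_
    rw [abs_mul, abs_pow, abs_neg, abs_one, one_pow, one_mul]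
  refine hA1.trans ?_
  rw [← sum_filter_add_sum_filter_not (PI w).powerset
    (fun T => x ^ (1 / 4 : ℝ) < ∏ π ∈ T, (nm π : ℝ))]
  have hB1 : ∑ T ∈ (PI w).powerset.filter (fun T => x ^ (1 / 4 : ℝ) < ∏ π ∈ T, (nm π : ℝ)),
      |((S₂ T).card : ℝ) - Real.pi * (y' - y) * (1 / ∏ π ∈ T, (nm π : ℝ))| ≤
      13 * x ^ (1 - c₀) := by
    calc _ ≤ ∑ T ∈ (PI w).powerset.filter
          (fun T => x ^ (1 / 4 : ℝ) < ∏ π ∈ T, (nm π : ℝ)),
          13 * x * (1 / ∏ π ∈ T, (nm π : ℝ)) :=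
        sum_le_sum fun T hT => hlarge T (mem_filter.1 hT).1
      _ = 13 * x * ∑ T ∈ (PI w).powerset.filter
          (fun T => x ^ (1 / 4 : ℝ) < ∏ π ∈ T, (nm π : ℝ)),
          (1 / ∏ π ∈ T, (nm π : ℝ)) := by rw [mul_sum]
      _ ≤ 13 * x * x ^ (-c₀) := by
        apply mul_le_mul_of_nonneg_left _ (by positivity)
        exact hR1
      _ = 13 * x ^ (1 - c₀) := by
        rw [sub_eq_add_neg, Real.rpow_add hx0, Real.rpow_one]
        ring
  have hB2 : ∑ T ∈ (PI w).powerset.filter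
      (fun T => ¬ x ^ (1 / 4 : ℝ) < ∏ π ∈ T, (nm π : ℝ)),
      |((S₂ T).card : ℝ) - Real.pi * (y' - y) * (1 / ∏ π ∈ T, (nm π : ℝ))| ≤
      36 * C * x ^ (3 / 4 : ℝ) := by
    have h1 : ((PI w).powerset.filter
        (fun T => ¬ x ^ (1 / 4 : ℝ) < ∏ π ∈ T, (nm π : ℝ))).card ≤ 9 * x ^ (1 / 4 : ℝ) := by
      refine le_trans (le_of_eq ?_) hN1
      congr 2
      apply filter_congr
      intro T _
      rw [not_lt]
    have h2 := sum_le_card_nsmul ((PI w).powerset.filter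
        (fun T => ¬ x ^ (1 / 4 : ℝ) < ∏ π ∈ T, (nm π : ℝ)))
        (fun T => |((S₂ T).card : ℝ) - Real.pi * (y' - y) * (1 / ∏ π ∈ T, (nm π : ℝ))|)
        (2 * C * (Real.sqrt x + 1)) (fun T hT => hsmall T (mem_filter.1 hT).1)
    refine h2.trans ?_
    rw [nsmul_eq_mul]
    have h3 : Real.sqrt x = x ^ (1 / 2 : ℝ) := Real.sqrt_eq_rpow x
    have h4 : 1 ≤ x ^ (1 / 2 : ℝ) := Real.one_le_rpow hx4 (by norm_num)
    have h5 : x ^ (3 / 4 : ℝ) = x ^ (1 / 4 : ℝ) * x ^ (1 / 2 : ℝ) := by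
      rw [← Real.rpow_add hx0]
      norm_num
    rw [h3]
    calc _ ≤ (9 * x ^ (1 / 4 : ℝ)) * (2 * C * (x ^ (1 / 2 : ℝ) + x ^ (1 / 2 : ℝ))) := by
          apply mul_le_mul h1 _ (by positivity) (by positivity)
          apply mul_le_mul_of_nonneg_left _ (by positivity)
          linarith
      _ = 36 * C * x ^ (3 / 4 : ℝ) := by
          rw [h5]
          ring
  linarith

end Pool.Agent.Lib.MP391708.X
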