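import Pool.Agent.Lib.MP_391708_nt.X.SpecHM
import Pool.Agent.Lib.MP_391708_nt.MR.Basic

/-!
# Theorem X, part HM, module RKN: the tail of the formula of Legendre (trick of Rankin)
-/

set_option autoImplicit false

namespace Pool.Agent.Lib.MP391708.X.RKNM

open Pool.Agent.Lib.MP391708.MR Pool.Agent.Lib.MP391708.X
open Finset Filter Topology

theorem sumK (K : ℕ) : ∑ z ∈ disc (K : ℝ), 1 / (nm z : ℝ) ≤
    ((disc (K : ℝ)).card : ℝ) / ((K : ℝ) + 1) + 9 * ∑ k ∈ range K, 1 / ((k : ℝ) + 2) := by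
  induction K with
  | zero =>
      have h : disc ((0 : ℕ) : ℝ) = ∅ := disc_empty (by norm_num)
      rw [h]
      simp
  | succ K ih =>
      have hK : (0 : ℝ) ≤ (K : ℝ) := Nat.cast_nonneg K
      have hle : (K : ℝ) ≤ ((K + 1 : ℕ) : ℝ) := by push_cast; linarith
      have hU := disc_union hle
      have hD := disc_disjoint (K : ℝ) ((K + 1 : ℕ) : ℝ)
      have hann : ∀ z ∈ ann (K : ℝ) ((K + 1 : ℕ) : ℝ), 1 / (nm z : ℝ) = 1 / ((K : ℝ) + 1) := by
        intro z hz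
        obtain ⟨_, h1, h2⟩ := mem_ann.1 hz
        have h1' : K < nm z := by exact_mod_cast h1
        have h2' : nm z ≤ K + 1 := by exact_mod_cast h2
        have : nm z = K + 1 := by omega
        rw [this]
        push_cast
        rfl
      have hc : ((disc ((K + 1 : ℕ) : ℝ)).card : ℝ) =
          ((disc (K : ℝ)).card : ℝ) + ((ann (K : ℝ) ((K + 1 : ℕ) : ℝ)).card : ℝ) := by
        rw [hU, card_union_of_disjoint hD]
        push_cast
        rfl
      have hs : ∑ z ∈ disc ((K + 1 : ℕ) : ℝ), 1 / (nm z : ℝ) =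
          ∑ z ∈ disc (K : ℝ), 1 / (nm z : ℝ) +
            ((ann (K : ℝ) ((K + 1 : ℕ) : ℝ)).card : ℝ) * (1 / ((K : ℝ) + 1)) := by
        rw [hU, sum_union hD, sum_congr rfl hann, sum_const, nsmul_eq_mul]
      have hN : ((disc ((K + 1 : ℕ) : ℝ)).card : ℝ) ≤ 9 * ((K : ℝ) + 1) := by
        have := card_disc_le (x := ((K + 1 : ℕ) : ℝ)) (by positivity)
        push_cast at this ⊢
        linarith
      rw [hs, sum_range_succ]
      push_cast at hc hN ⊢
      have p1 : (0 : ℝ) < (K : ℝ) + 1 := by linarith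
      have p2 : (0 : ℝ) < (K : ℝ) + 2 := by linarith
      have e1 : ((disc ((K : ℝ) + 1)).card : ℝ) / ((K : ℝ) + 1) -
          ((disc ((K : ℝ) + 1)).card : ℝ) / ((K : ℝ) + 2) ≤ 9 / ((K : ℝ) + 2) := by
        have : ((disc ((K : ℝ) + 1)).card : ℝ) / ((K : ℝ) + 1) -
          ((disc ((K : ℝ) + 1)).card : ℝ) / ((K : ℝ) + 2) =
            ((disc ((K : ℝ) + 1)).card : ℝ) / (((K : ℝ) + 1) * ((K : ℝ) + 2)) := by
          field_simp
          ring
        rw [this, div_le_div_iff₀ (by positivity) p2]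
        nlinarith [mul_le_mul_of_nonneg_right hN p2.le]
      have e2 : (K : ℝ) + 1 + 1 = (K : ℝ) + 2 := by ring
      rw [e2]
      have e3 : ((disc ((K : ℝ) + 1)).card : ℝ) / ((K : ℝ) + 1) =
          ((disc (K : ℝ)).card : ℝ) / ((K : ℝ) + 1) +
            ((ann (K : ℝ) ((K : ℝ) + 1)).card : ℝ) * (1 / ((K : ℝ) + 1)) := by
        rw [hc]
        ring
      have e4 : 9 * (1 / ((K : ℝ) + 2)) = 9 / ((K : ℝ) + 2) := by ring
      rw [mul_add, e4]
      linarith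

theorem sumW (W : ℝ) (hW : 1 ≤ W) : ∑ z ∈ disc W, 1 / (nm z : ℝ) ≤ 18 + 9 * Real.log W := by
  have hW0 : 0 ≤ W := by linarith
  have hK1 : 1 ≤ ⌊W⌋₊ := Nat.one_le_floor_iff W |>.2 hW
  have he : disc W = disc ((⌊W⌋₊ : ℕ) : ℝ) := by
    ext z
    rw [mem_disc, mem_disc]
    constructor
    · rintro ⟨h1, h2⟩
      exact ⟨h1, by exact_mod_cast Nat.le_floor h2⟩
    · rintro ⟨h1, h2⟩
      exact ⟨h1, h2.trans (Nat.floor_le hW0)⟩
  rw [he]
  refine (sumK _).trans ?_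
  have h1 : ((disc ((⌊W⌋₊ : ℕ) : ℝ)).card : ℝ) / (((⌊W⌋₊ : ℕ) : ℝ) + 1) ≤ 9 := by
    have := card_disc_le (x := ((⌊W⌋₊ : ℕ) : ℝ)) (by positivity)
    rw [div_le_iff₀ (by positivity)]
    linarith
  have h2 : ∑ k ∈ range ⌊W⌋₊, 1 / ((k : ℝ) + 2) ≤ 1 + Real.log W := by
    have h3 : ∑ k ∈ range ⌊W⌋₊, 1 / ((k : ℝ) + 2) ≤ (harmonic ⌊W⌋₊ : ℝ) := by
      unfold harmonic
      push_cast
      refine sum_le_sum fun k _ => ?_
      rw [one_div]
      apply inv_anti₀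
      · positivity
      · linarith
    have h4 := harmonic_le_one_add_log ⌊W⌋₊
    have h5 : Real.log ((⌊W⌋₊ : ℕ) : ℝ) ≤ Real.log W := by
      apply Real.log_le_log
      · exact_mod_cast hK1
      · exact Nat.floor_le hW0
    linarith
  linarith

theorem PI_sub {w W : ℝ} (h : w ≤ W) : PI w ⊆ PI W := by
  classical
  intro z hz
  unfold PI at hz ⊢
  rw [mem_filter] at hz ⊢
  exact ⟨disc_subset h hz.1, hz.2⟩

theorem PI_disc (w : ℝ) : PI w ⊆ disc w := by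
  classical
  intro z hz
  unfold PI at hz
  rw [mem_filter] at hz
  exact hz.1

/-- the trick of Rankin -/
theorem rankin (W s D : ℝ) (hW : 1 ≤ W) (hs : 0 < s) (_hs1 : s ≤ 1) (hD : 0 < D) :
    ∑ T ∈ (PI W).powerset.filter (fun T => D < ∏ π ∈ T, (nm π : ℝ)),
      1 / ∏ π ∈ T, (nm π : ℝ) ≤ D ^ (-s) * Real.exp (W ^ s * (18 + 9 * Real.log W)) := by
  classical
  have hpos : ∀ z ∈ PI W, (0 : ℝ) < nm z := fun z hz => nm_posR (mem_disc.1 (PI_disc W hz)).1
  have hone : ∀ z ∈ PI W, (1 : ℝ) ≤ nm z := fun z hz => one_le_nm (mem_disc.1 (PI_disc W hz)).1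
  have hle : ∀ z ∈ PI W, (nm z : ℝ) ≤ W := fun z hz => (mem_disc.1 (PI_disc W hz)).2
  have step1 : ∑ T ∈ (PI W).powerset.filter (fun T => D < ∏ π ∈ T, (nm π : ℝ)),
      1 / ∏ π ∈ T, (nm π : ℝ) ≤
      ∑ T ∈ (PI W).powerset, D ^ (-s) * ∏ π ∈ T, (nm π : ℝ) ^ (s - 1) := by
    refine (sum_le_sum (f := fun T => 1 / ∏ π ∈ T, (nm π : ℝ))
      (g := fun T => D ^ (-s) * ∏ π ∈ T, (nm π : ℝ) ^ (s - 1)) ?_).trans ?_
    · intro T hT
      rw [mem_filter, mem_powerset] at hT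
      obtain ⟨hT1, hT2⟩ := hT
      have hP : (0 : ℝ) < ∏ π ∈ T, (nm π : ℝ) := prod_pos fun z hz => hpos z (hT1 hz)
      have hr : ∏ π ∈ T, (nm π : ℝ) ^ (s - 1) = (∏ π ∈ T, (nm π : ℝ)) ^ (s - 1) :=
        Real.finsetProd_rpow T _ (fun z hz => (hpos z (hT1 hz)).le) (s - 1)
      show 1 / ∏ π ∈ T, (nm π : ℝ) ≤ D ^ (-s) * ∏ π ∈ T, (nm π : ℝ) ^ (s - 1)
      rw [hr, Real.rpow_sub hP, Real.rpow_one, Real.rpow_neg hD.le]
      have h1 : (1 : ℝ) ≤ (D ^ s)⁻¹ * (∏ π ∈ T, (nm π : ℝ)) ^ s := by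
        rw [inv_mul_eq_div, le_div_iff₀ (Real.rpow_pos_of_pos hD s), one_mul]
        exact Real.rpow_le_rpow hD.le hT2.le hs.le
      rw [← mul_div_assoc]
      exact div_le_div_of_nonneg_right h1 hP.le
    · apply sum_le_sum_of_subset_of_nonneg (filter_subset _ _)
      intro T hT _
      rw [mem_powerset] at hT
      refine mul_nonneg (Real.rpow_nonneg hD.le _) (prod_nonneg fun z hz => ?_)
      exact Real.rpow_nonneg (hpos z (hT hz)).le _
  have step2 : ∑ T ∈ (PI W).powerset, ∏ π ∈ T, (nm π : ℝ) ^ (s - 1) ≤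
      Real.exp (W ^ s * (18 + 9 * Real.log W)) := by
    rw [← prod_one_add]
    have h1 : ∏ π ∈ PI W, (1 + (nm π : ℝ) ^ (s - 1)) ≤
        ∏ π ∈ PI W, Real.exp ((nm π : ℝ) ^ (s - 1)) := by
      apply Finset.prod_le_prod
      · intro z hz
        have := Real.rpow_nonneg (hpos z hz).le (s - 1)
        linarith
      · intro z hz
        have := Real.add_one_le_exp ((nm z : ℝ) ^ (s - 1))
        linarith
    refine h1.trans ?_
    rw [← Real.exp_sum]
    apply Real.exp_le_exp.2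
    have h2 : ∑ π ∈ PI W, (nm π : ℝ) ^ (s - 1) ≤ ∑ π ∈ PI W, W ^ s * (1 / (nm π : ℝ)) := by
      apply sum_le_sum
      intro z hz
      rw [Real.rpow_sub (hpos z hz), Real.rpow_one, mul_one_div]
      apply div_le_div_of_nonneg_right _ (hpos z hz).le
      exact Real.rpow_le_rpow (hpos z hz).le (hle z hz) hs.le
    refine h2.trans ?_
    rw [← mul_sum]
    apply mul_le_mul_of_nonneg_left _ (Real.rpow_nonneg (by linarith) s)
    refine le_trans ?_ (sumW W hW)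
    apply sum_le_sum_of_subset_of_nonneg (PI_disc W)
    intro z _ _
    positivity
  refine step1.trans ?_
  rw [← mul_sum]
  exact mul_le_mul_of_nonneg_left step2 (Real.rpow_nonneg hD.le _)

theorem evL (A b : ℝ) (hA : 1 ≤ A) (hb : 0 < b) : ∀ᶠ L : ℝ in atTop, 1 ≤ L ∧
    18 + 9 * (A * Real.log L) ≤ L ^ (1 / 4 : ℝ) ∧ L ^ (1 / 2 : ℝ) ≤ b / (8 * A) * L := by
  have h1 : ∀ᶠ L : ℝ in atTop, Real.log L ≤ 1 / (18 * A) * L ^ (1 / 4 : ℝ) := by
    have h := (isLittleO_log_rpow_atTop (show (0 : ℝ) < 1 / 4 by norm_num)).def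
      (show (0 : ℝ) < 1 / (18 * A) by positivity)
    filter_upwards [h, eventually_ge_atTop (1 : ℝ)] with L hL hL1
    have h2 : 0 ≤ Real.log L := Real.log_nonneg hL1
    have h3 : 0 ≤ L ^ (1 / 4 : ℝ) := Real.rpow_nonneg (by linarith) _
    rwa [Real.norm_of_nonneg h2, Real.norm_of_nonneg h3] at hL
  have h2 : ∀ᶠ L : ℝ in atTop, (36 : ℝ) ≤ L ^ (1 / 4 : ℝ) :=
    (tendsto_rpow_atTop (show (0 : ℝ) < 1 / 4 by norm_num)).eventually_ge_atTop 36
  have h3 : ∀ᶠ L : ℝ in atTop, (8 * A) / b ≤ L ^ (1 / 2 : ℝ) :=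
    (tendsto_rpow_atTop (show (0 : ℝ) < 1 / 2 by norm_num)).eventually_ge_atTop _
  filter_upwards [h1, h2, h3, eventually_ge_atTop (1 : ℝ)] with L a1 a2 a3 a4
  have hA0 : (0 : ℝ) < A := by linarith
  refine ⟨a4, ?_, ?_⟩
  · have : 9 * (A * Real.log L) ≤ L ^ (1 / 4 : ℝ) / 2 := by
      have h5 := mul_le_mul_of_nonneg_left a1 (show (0 : ℝ) ≤ 9 * A by positivity)
      have h6 : 9 * A * (1 / (18 * A) * L ^ (1 / 4 : ℝ)) = L ^ (1 / 4 : ℝ) / 2 := by
        field_simp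
        ring
      rw [h6] at h5
      linarith
    linarith
  · have hL0 : (0 : ℝ) < L := by linarith
    have e : L ^ (1 / 2 : ℝ) * L ^ (1 / 2 : ℝ) = L := by
      rw [← Real.rpow_add hL0]
      norm_num
    have p : (0 : ℝ) ≤ L ^ (1 / 2 : ℝ) := Real.rpow_nonneg hL0.le _
    have h5 : 1 ≤ b / (8 * A) * L ^ (1 / 2 : ℝ) := by
      have h6 := mul_le_mul_of_nonneg_left a3 (show (0 : ℝ) ≤ b / (8 * A) by positivity)
      have h7 : b / (8 * A) * (8 * A / b) = 1 := by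
        field_simp
      rwa [h7] at h6
    calc L ^ (1 / 2 : ℝ) = 1 * L ^ (1 / 2 : ℝ) := (one_mul _).symm
      _ ≤ (b / (8 * A) * L ^ (1 / 2 : ℝ)) * L ^ (1 / 2 : ℝ) := mul_le_mul_of_nonneg_right h5 p
      _ = b / (8 * A) * L := by rw [mul_assoc, e]

theorem specRKN : SpecRKN := by
  classical
  intro A b hA hb
  have hA0 : (0 : ℝ) < A := by linarith
  refine ⟨b / (8 * A), by positivity, ?_⟩
  have ev := Real.tendsto_log_atTop.eventually (evL A b hA hb)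
  filter_upwards [ev, eventually_gt_atTop (1 : ℝ)] with x hx hx1 w hw
  obtain ⟨c1, c2, c3⟩ := hx
  have hx0 : (0 : ℝ) < x := by linarith
  have hL0 : (0 : ℝ) < Real.log x := by linarith
  have hW : 1 ≤ Real.log x ^ A := Real.one_le_rpow c1 hA0.le
  have mono : ∑ T ∈ (PI w).powerset.filter (fun T => x ^ b < ∏ π ∈ T, (nm π : ℝ)),
      1 / ∏ π ∈ T, (nm π : ℝ) ≤
      ∑ T ∈ (PI (Real.log x ^ A)).powerset.filter (fun T => x ^ b < ∏ π ∈ T, (nm π : ℝ)),
      1 / ∏ π ∈ T, (nm π : ℝ) := by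
    apply sum_le_sum_of_subset_of_nonneg
    · intro T hT
      rw [mem_filter, mem_powerset] at hT ⊢
      exact ⟨hT.1.trans (PI_sub hw), hT.2⟩
    · intro T hT _
      apply div_nonneg zero_le_one
      exact prod_nonneg fun z _ => Nat.cast_nonneg _
  refine mono.trans ?_
  have hs : (0 : ℝ) < 1 / (4 * A) := by positivity
  have hs1 : 1 / (4 * A) ≤ 1 := by
    rw [div_le_one (by positivity)]
    linarith
  refine (rankin (Real.log x ^ A) (1 / (4 * A)) (x ^ b) hW hs hs1 (Real.rpow_pos_of_pos hx0 b)).trans ?_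
  have e1 : (Real.log x ^ A) ^ (1 / (4 * A)) = Real.log x ^ (1 / 4 : ℝ) := by
    rw [← Real.rpow_mul hL0.le]
    congr 1
    field_simp
  have e2 : Real.log (Real.log x ^ A) = A * Real.log (Real.log x) := Real.log_rpow hL0 A
  rw [e1, e2]
  have p4 : (0 : ℝ) ≤ Real.log x ^ (1 / 4 : ℝ) := Real.rpow_nonneg hL0.le _
  have h5 : Real.log x ^ (1 / 4 : ℝ) * (18 + 9 * (A * Real.log (Real.log x))) ≤
      b / (8 * A) * Real.log x := by
    calc Real.log x ^ (1 / 4 : ℝ) * (18 + 9 * (A * Real.log (Real.log x)))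
        ≤ Real.log x ^ (1 / 4 : ℝ) * Real.log x ^ (1 / 4 : ℝ) := mul_le_mul_of_nonneg_left c2 p4
      _ = Real.log x ^ (1 / 2 : ℝ) := by
          rw [← Real.rpow_add hL0]
          norm_num
      _ ≤ b / (8 * A) * Real.log x := c3
  have h6 : Real.exp (Real.log x ^ (1 / 4 : ℝ) * (18 + 9 * (A * Real.log (Real.log x)))) ≤
      x ^ (b / (8 * A)) := by
    rw [Real.rpow_def_of_pos hx0]
    apply Real.exp_le_exp.2
    linarith
  calc (x ^ b) ^ (-(1 / (4 * A))) *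
        Real.exp (Real.log x ^ (1 / 4 : ℝ) * (18 + 9 * (A * Real.log (Real.log x))))
      ≤ (x ^ b) ^ (-(1 / (4 * A))) * x ^ (b / (8 * A)) :=
        mul_le_mul_of_nonneg_left h6 (Real.rpow_nonneg (Real.rpow_nonneg hx0.le _) _)
    _ = x ^ (-(b / (8 * A))) := by
        rw [← Real.rpow_mul hx0.le, ← Real.rpow_add hx0]
        congr 1
        field_simp
        ring

end Pool.Agent.Lib.MP391708.X.RKNM

namespace Pool.Agent.Lib.MP391708.X

theorem specRKN : SpecRKN := RKNM.specRKN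

end Pool.Agent.Lib.MP391708.X
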