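import Pool.Agent.Lib.MP_391708_nt.X.SpecHM

/-! MP_391708, Theorem X, part HM, module SCZ (helper86): a nonprincipal character has sum zero. -/

set_option autoImplicit false

namespace Pool.Agent.Lib.MP391708.X

open Pool.Agent.Lib.MP391708.MR
open Finset Filter Topology
open scoped ComplexConjugate

namespace SCZM

theorem nm_pos {m : Gi} (hm : m ≠ 0) : 0 < nm m := by
  unfold nm
  rw [Int.natAbs_pos]
  intro h
  apply hm
  have h1 : m.re = 0 := by nlinarith [sq_nonneg m.re, sq_nonneg m.im]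
  have h2 : m.im = 0 := by nlinarith [sq_nonneg m.re, sq_nonneg m.im]
  exact Zsqrtd.ext h1 h2

theorem nm_cast (m : Gi) : ((nm m : ℕ) : Gi) = m * ⟨m.re, -m.im⟩ := by
  have h1 : ((nm m : ℕ) : ℤ) = m.re ^ 2 + m.im ^ 2 := by
    unfold nm
    exact Int.natAbs_of_nonneg (by positivity)
  apply Zsqrtd.ext
  · have h2 : (((nm m : ℕ) : Gi)).re = ((nm m : ℕ) : ℤ) := by simp
    rw [h2, h1, Zsqrtd.re_mul]
    ring
  · have h2 : (((nm m : ℕ) : Gi)).im = 0 := by simp
    rw [h2, Zsqrtd.im_mul]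
    ring

theorem sum_range_zmod {N : ℕ} [NeZero N] (f : ZMod N → ℂ) :
    ∑ i ∈ range N, f (i : ZMod N) = ∑ a : ZMod N, f a := by
  refine sum_nbij' (fun i : ℕ => (i : ZMod N)) (fun a : ZMod N => a.val) ?_ ?_ ?_ ?_ ?_
  · intro i _; exact mem_univ _
  · intro a _; exact mem_range.mpr a.val_lt
  · intro i hi; exact ZMod.val_cast_of_lt (mem_range.mp hi)
  · intro a _; exact ZMod.natCast_zmod_val a
  · intro i _; rfl

end SCZM

open SCZM

theorem specSCZ : SpecSCZ := by
  classical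
  intro m χ hχ ⟨u, hu0, hu1⟩
  have hN : 0 < nm m := nm_pos hχ.ne
  have : NeZero (nm m) := ⟨hN.ne'⟩
  set I : Ideal Gi := Ideal.span {m} with hI
  set q : Gi →+* Gi ⧸ I := Ideal.Quotient.mk I with hq
  have hqs : Function.Surjective q := Ideal.Quotient.mk_surjective
  have hper : ∀ x y, q x = q y → χ x = χ y := by
    intro x y h
    rw [hq, Ideal.Quotient.eq, hI, Ideal.mem_span_singleton] at h
    obtain ⟨c, hc⟩ := h
    have : x = y + m * c := by rw [← hc]; ring
    rw [this, hχ.period]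
  set χb : (Gi ⧸ I) → ℂ := fun a => χ (Function.surjInv hqs a) with hχb
  have hb : ∀ z, χb (q z) = χ z := by
    intro z
    exact hper _ _ (Function.surjInv_eq hqs (q z))
  have hN0 : ((nm m : ℕ) : Gi ⧸ I) = 0 := by
    have h1 : ((nm m : ℕ) : Gi ⧸ I) = q ((nm m : ℕ) : Gi) := by
      rw [map_natCast]
    rw [h1, nm_cast, map_mul]
    have h2 : q m = 0 := by
      rw [hq, Ideal.Quotient.eq_zero_iff_mem, hI]
      exact Ideal.mem_span_singleton_self m
    rw [h2, zero_mul]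
  set l : ZMod (nm m) →+ Gi ⧸ I :=
    ZMod.lift (nm m) ⟨Int.castAddHom (Gi ⧸ I), by
      show ((nm m : ℤ) : Gi ⧸ I) = 0
      rw [Int.cast_natCast]; exact hN0⟩ with hl
  have hlc : ∀ i : ℕ, l (i : ZMod (nm m)) = (i : Gi ⧸ I) := by
    intro i
    have h1 := ZMod.lift_coe (nm m) ⟨Int.castAddHom (Gi ⧸ I), by
      show ((nm m : ℤ) : Gi ⧸ I) = 0
      rw [Int.cast_natCast]; exact hN0⟩ (i : ℤ)
    have h2 : ((i : ℤ) : ZMod (nm m)) = (i : ZMod (nm m)) := by push_cast; rfl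
    rw [h2] at h1
    rw [hl, h1]
    show ((i : ℤ) : Gi ⧸ I) = (i : Gi ⧸ I)
    rw [Int.cast_natCast]
  set g : ZMod (nm m) × ZMod (nm m) →+ Gi ⧸ I :=
    { toFun := fun x => l x.1 + l x.2 * q ⟨0, 1⟩
      map_zero' := by simp
      map_add' := fun x y => by simp [add_mul]; abel } with hg
  have hgz : ∀ i j : ℕ, g ((i : ZMod (nm m)), (j : ZMod (nm m))) = q (⟨(i : ℤ), (j : ℤ)⟩ : Gi) := by
    intro i j
    show l (i : ZMod (nm m)) + l (j : ZMod (nm m)) * q ⟨0, 1⟩ = _
    rw [hlc, hlc]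
    have h1 : (⟨(i : ℤ), (j : ℤ)⟩ : Gi) = (i : Gi) + (j : Gi) * ⟨0, 1⟩ := by
      apply Zsqrtd.ext
      · simp
      · simp
    rw [h1, map_add, map_mul, map_natCast, map_natCast]
  have hgs : Function.Surjective g := by
    intro a
    obtain ⟨z, rfl⟩ := hqs a
    refine ⟨(((z.re % (nm m : ℤ)).toNat : ZMod (nm m)), ((z.im % (nm m : ℤ)).toNat : ZMod (nm m))), ?_⟩
    rw [hgz]
    have hNz : (nm m : ℤ) ≠ 0 := by exact_mod_cast hN.ne'
    rw [Int.toNat_of_nonneg (Int.emod_nonneg _ hNz), Int.toNat_of_nonneg (Int.emod_nonneg _ hNz),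
      hq, Ideal.Quotient.eq, hI, Ideal.mem_span_singleton]
    have h1 : (⟨z.re % (nm m : ℤ), z.im % (nm m : ℤ)⟩ : Gi) - z =
        ((nm m : ℕ) : Gi) * ⟨-(z.re / (nm m : ℤ)), -(z.im / (nm m : ℤ))⟩ := by
      have e1 := Int.emod_add_mul_ediv z.re (nm m)
      have e2 := Int.emod_add_mul_ediv z.im (nm m)
      apply Zsqrtd.ext
      · simp
        linarith
      · simp
        linarith
    rw [h1, nm_cast, mul_assoc]
    exact dvd_mul_right _ _
  let _ : Fintype (Gi ⧸ I) := Fintype.ofSurjective g hgs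
  have hsum : ∑ x : ZMod (nm m) × ZMod (nm m), χb (g x) =
      ((univ.filter (fun x => g x = 0)).card : ℂ) * ∑ a : Gi ⧸ I, χb a := by
    rw [← sum_fiberwise univ g, mul_sum]
    apply sum_congr rfl
    intro a _
    have h1 : ∑ x ∈ univ.filter (fun x => g x = a), χb (g x) =
        ∑ x ∈ univ.filter (fun x => g x = a), χb a := by
      apply sum_congr rfl
      intro x hx
      rw [(mem_filter.mp hx).2]
    rw [h1, sum_const, nsmul_eq_mul]
    congr 2
    exact AddMonoidHom.card_fiber_eq_of_mem_range g (hgs a) (hgs 0)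
  have hR : ∑ p ∈ (range (nm m)) ×ˢ (range (nm m)), χ (⟨(p.1 : ℤ), (p.2 : ℤ)⟩ : Gi) =
      ∑ x : ZMod (nm m) × ZMod (nm m), χb (g x) := by
    rw [sum_product, Fintype.sum_prod_type, ← sum_range_zmod]
    apply sum_congr rfl
    intro i _
    rw [← sum_range_zmod]
    apply sum_congr rfl
    intro j _
    rw [hgz, hb]
  -- the sum over the quotient
  obtain ⟨a, b, hab⟩ := (hχ.supp u).mp hu0
  have hunit : q u * q a = 1 := by
    have h1 : q (a * u + b * m) = 1 := by rw [hab, map_one]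
    have h2 : q m = 0 := by
      rw [hq, Ideal.Quotient.eq_zero_iff_mem, hI]
      exact Ideal.mem_span_singleton_self m
    rw [map_add, map_mul, map_mul, h2, mul_zero, add_zero] at h1
    rw [mul_comm]; exact h1
  set U : (Gi ⧸ I)ˣ := ⟨q u, q a, hunit, by rw [mul_comm]; exact hunit⟩ with hU
  have hperm : ∑ x : Gi ⧸ I, χb x = χ u * ∑ x : Gi ⧸ I, χb x := by
    rw [mul_sum]
    rw [← Equiv.sum_comp (Units.mulLeft U) χb]
    apply sum_congr rfl
    intro x _
    obtain ⟨z, rfl⟩ := hqs x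
    show χb (q u * q z) = χ u * χb (q z)
    rw [← map_mul, hb, hb, hχ.mul]
  have hzero : ∑ x : Gi ⧸ I, χb x = 0 := by
    have h1 : (χ u - 1) * ∑ x : Gi ⧸ I, χb x = 0 := by
      rw [sub_mul, one_mul, ← hperm, sub_self]
    rcases mul_eq_zero.mp h1 with h | h
    · exact absurd (sub_eq_zero.mp h) hu1
    · exact h
  rw [hR, hsum, hzero, mul_zero]

end Pool.Agent.Lib.MP391708.X
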