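import Pool.Agent.Lib.MP_391708_nt.X.TYU
import Pool.Agent.Lib.MP_391708_nt.X.CTU
import Pool.Agent.Lib.MP_391708_nt.X.SCZ
import Pool.Agent.Lib.MP_391708_nt.X.ANC
import Pool.Agent.Lib.MP_391708_nt.X.PAR
import Pool.Agent.Lib.MP_391708_nt.X.HMS
import Pool.Agent.Lib.MP_391708_nt.X.HMT
import Pool.Agent.Lib.MP_391708_nt.X.LGD
import Pool.Agent.Lib.MP_391708_nt.X.RKN
import Pool.Agent.Lib.MP_391708_nt.X.NTS
import Pool.Agent.Lib.MP_391708_nt.X.RG0
import Pool.Agent.Lib.MP_391708_nt.X.RG1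
import Pool.Agent.Lib.MP_391708_nt.X.GRM
import Pool.Agent.Lib.MP_391708_nt.MR.VDC

/-!
# Theorem X, part HM: all statements of `X/SpecHM.lean`, without hypotheses
-/

set_option autoImplicit false

namespace Pool.Agent.Lib.MP391708.X

open Pool.Agent.Lib.MP391708.MR

theorem hm_tyu : SpecTYU := specTYU specVDC
theorem hm_ctu : SpecCTU := specCTU
theorem hm_scz : SpecSCZ := specSCZ
theorem hm_anc : SpecANC := specANC hm_tyu hm_ctu hm_scz
theorem hm_par : SpecPAR := specPAR hm_anc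
theorem hm_hms : SpecHMS := specHMS
theorem hm_hmt : SpecHMT := specHMT hm_hms hm_par hm_ctu
theorem hm_lgd : SpecLGD := specLGD
theorem hm_rkn : SpecRKN := specRKN
theorem hm_nts : SpecNTS := specNTS
theorem hm_rg0 : SpecRG0 := specRG0 hm_lgd hm_rkn hm_nts hm_ctu
theorem hm_rg1 : SpecRG1 := specRG1 hm_lgd hm_rkn hm_nts hm_par
theorem hm_grm : SpecGRM := specGRM hm_rg1

end Pool.Agent.Lib.MP391708.X
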