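import Pool.Agent.Lib.MP_391708_nt.X.SpecLS3

/-! MP_391708, Theorem X, part LS, module LSE (helper86). -/

set_option autoImplicit false

namespace Pool.Agent.Lib.MP391708.XL

open Finset Filter Topology Pool.Agent.Lib.MP391708.MR
open Pool.Agent.Lib.MP391708.X
open scoped ComplexConjugate

namespace LSEM

theorem ev_log_rpow (a δ : ℝ) (hδ : 0 < δ) : ∀ᶠ N : ℝ in atTop, Real.log N ^ a ≤ δ * N := by
  have h := (isLittleO_log_rpow_rpow_atTop a (show (0 : ℝ) < 1 by norm_num)).def hδ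
  filter_upwards [h, eventually_ge_atTop 1] with N hN hN1
  rw [Real.rpow_one, Real.norm_eq_abs, Real.norm_eq_abs, abs_of_nonneg (by linarith : (0 : ℝ) ≤ N),
    abs_of_nonneg (Real.rpow_nonneg (Real.log_nonneg hN1) _)] at hN
  exact hN

theorem ev_loglog (cw : ℝ) (hcw : 1 ≤ cw) :
    ∀ᶠ L : ℝ in atTop, Real.log (L ^ cw + 1) ^ 4 ≤ L := by
  have hδ : 0 < 1 / (cw + 1) ^ 4 := by positivity
  have h := (Real.isLittleO_pow_log_id_atTop (n := 4)).def hδ
  filter_upwards [h, eventually_ge_atTop 2] with L hL hL2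
  have hlog : 0 ≤ Real.log L := Real.log_nonneg (by linarith)
  rw [Real.norm_eq_abs, Real.norm_eq_abs, id, abs_of_nonneg (by linarith : (0 : ℝ) ≤ L),
    abs_of_nonneg (by positivity)] at hL
  have hLc : 1 ≤ L ^ cw := Real.one_le_rpow (by linarith) (by linarith)
  have h1 : L ^ cw + 1 ≤ L ^ (cw + 1) := by
    rw [Real.rpow_add (by linarith), Real.rpow_one]
    nlinarith
  have h2 : Real.log (L ^ cw + 1) ≤ (cw + 1) * Real.log L := by
    rw [← Real.log_rpow (by linarith)]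
    exact Real.log_le_log (by linarith) h1
  have h0 : 0 ≤ Real.log (L ^ cw + 1) := Real.log_nonneg (by linarith)
  calc Real.log (L ^ cw + 1) ^ 4 ≤ ((cw + 1) * Real.log L) ^ 4 := pow_le_pow_left₀ h0 h2 4
    _ = (cw + 1) ^ 4 * Real.log L ^ 4 := by ring
    _ ≤ (cw + 1) ^ 4 * (1 / (cw + 1) ^ 4 * L) := by
        apply mul_le_mul_of_nonneg_left hL (by positivity)
    _ = L := by field_simp

end LSEM

open LSEM

theorem specLSE (hLSM : SpecLSM) : SpecLSE := by
  obtain ⟨C, hC, hA, _, _, c, hc, hE⟩ := hLSM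
  intro cw aQ aF ch cP ε haQ hcw haF hch hcP hε
  obtain ⟨u, hu⟩ : ∃ u : ℕ, C * Real.exp (-(u : ℝ)) ≤ ε / 5 := by
    refine ⟨⌈Real.log (5 * C / ε)⌉₊, ?_⟩
    have h1 : Real.log (5 * C / ε) ≤ (⌈Real.log (5 * C / ε)⌉₊ : ℝ) := Nat.le_ceil _
    have h2 : Real.exp (-((⌈Real.log (5 * C / ε)⌉₊ : ℕ) : ℝ)) ≤ (5 * C / ε)⁻¹ := by
      rw [← Real.exp_log (show (0 : ℝ) < 5 * C / ε by positivity), ← Real.exp_neg]
      rw [Real.exp_log (show (0 : ℝ) < 5 * C / ε by positivity)]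
      exact Real.exp_le_exp.mpr (by linarith)
    calc C * Real.exp (-((⌈Real.log (5 * C / ε)⌉₊ : ℕ) : ℝ)) ≤ C * (5 * C / ε)⁻¹ :=
          mul_le_mul_of_nonneg_left h2 hC.le
      _ = ε / 5 := by field_simp
  set m : ℕ := 16 * u + 34 with hm
  refine ⟨aQ + cw * m + ch + cP + 2, ?_⟩
  intro cT hcT
  have e1 : ∀ᶠ N : ℝ in atTop,
      max (max 2 (80 * C / ε)) (160 * C * 2 ^ m / (ε * c)) ≤ Real.log N :=
    Real.tendsto_log_atTop.eventually_ge_atTop _
  have e2 := ev_log_rpow aF (ε / (40960 * C)) (by positivity)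
  have e3 := ev_log_rpow (2 * ch) (1 / 8) (by norm_num)
  have e4 : ∀ᶠ N : ℝ in atTop, Real.log (Real.log N ^ cw + 1) ^ 4 ≤ Real.log N :=
    Real.tendsto_log_atTop.eventually (ev_loglog cw hcw)
  filter_upwards [e1, e2, e3, e4, eventually_ge_atTop 8000] with N h1 h2 h3 h4 h5
  intro B hB1 hB2 i b ω j hi1 hiQ hchi hk hBb hb2 hprim hrgh hcop hK1 hK2 hj1 hj2
  set L : ℝ := Real.log N with hL
  have hL2 : 2 ≤ L := le_trans (le_trans (le_max_left _ _) (le_max_left _ _)) h1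
  have hL80 : 80 * C / ε ≤ L := le_trans (le_trans (le_max_right _ _) (le_max_left _ _)) h1
  have hL160 : 160 * C * 2 ^ m / (ε * c) ≤ L := le_trans (le_max_right _ _) h1
  have hL0 : 0 < L := by linarith
  have hL1 : 1 ≤ L := by linarith
  have hN0 : 0 < N := by linarith
  have hT0 : 0 < L ^ cT := Real.rpow_pos_of_pos hL0 _
  have hP0 : 0 < L ^ cP := Real.rpow_pos_of_pos hL0 _
  have hh0 : 0 < L ^ ch := Real.rpow_pos_of_pos hL0 _
  have hw0 : 0 < L ^ cw := Real.rpow_pos_of_pos hL0 _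
  have hw1 : 1 ≤ L ^ cw := Real.one_le_rpow hL1 (by linarith)
  have hh1 : 1 ≤ L ^ ch := Real.one_le_rpow hL1 (by linarith)
  have hhaF : L ^ aF * L ≤ L ^ ch := by
    have : L ^ aF * L = L ^ (aF + 1) := by rw [Real.rpow_add hL0, Real.rpow_one]
    rw [this]
    exact Real.rpow_le_rpow_of_exponent_le hL1 hch
  have hhL : L ≤ L ^ ch := by
    have : 1 ≤ L ^ aF := Real.one_le_rpow hL1 (by linarith)
    nlinarith
  -- the parameters
  change N / L ^ cT * L ^ cP ≤ (nm ω : ℝ) at hK1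
  change (nm ω : ℝ) ≤ 4 * (N / L ^ cT * L ^ cP) at hK2
  change N * L ^ cT / (64 * L ^ cP) ≤ Real.exp (j / L ^ ch) at hj1
  change Real.exp ((j + 1) / L ^ ch) ≤ N * L ^ cT at hj2
  change |(i.2.2 : ℝ)| ≤ L ^ aF * (N / B) at hk
  set r : ℝ := rj (par N cT cP ch cw) ω j with hr
  have hrdef : r = Real.sqrt (nm ω * Real.exp (j / L ^ ch)) := rfl
  have hKP : 0 < N / L ^ cT * L ^ cP := by positivity
  have hnω : (0 : ℝ) < nm ω := lt_of_lt_of_le hKP hK1
  have hr8 : N / 8 ≤ r := by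
    rw [hrdef]
    apply Real.le_sqrt_of_sq_le
    calc (N / 8) ^ 2 = (N / L ^ cT * L ^ cP) * (N * L ^ cT / (64 * L ^ cP)) := by
          field_simp; norm_num
      _ ≤ nm ω * Real.exp (j / L ^ ch) := by
          apply mul_le_mul hK1 hj1 (by positivity) hnω.le
  have hr0 : 0 < r := by linarith
  have hB0 : 0 < B := by linarith
  have hb1 : (1 : ℝ) ≤ b := by linarith
  have hbN : 1 ≤ b := by exact_mod_cast hb1
  have hb0 : (0 : ℝ) < b := by linarith
  have hbr : (b : ℝ) ^ 2 ≤ 100 * r := by nlinarith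
  have hh2r : (L ^ ch) ^ 2 ≤ r := by
    have : (L ^ ch) ^ 2 = L ^ (2 * ch) := by
      rw [← Real.rpow_natCast, ← Real.rpow_mul hL0.le]
      congr 1
      push_cast
      ring
    rw [this]
    linarith
  have hexp : r ≤ r * Real.exp (4 / L ^ ch) := by
    have : 1 ≤ Real.exp (4 / L ^ ch) := Real.one_le_exp (by positivity)
    nlinarith
  have key := (hA u i ω b (L ^ ch) (L ^ cw) r (N * L ^ cT) j hi1 hchi hprim hrgh hcop hw1 hbN hh1
    (by linarith) hbr hh2r hj2 hrdef.le (hrdef.symm.le.trans hexp)).1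
  change ‖lsum (par N cT cP ch cw) i ω b j - lmain (par N cT cP ch cw) i ω b j‖ ≤ _ at key
  refine key.trans ?_
  change C * (Real.exp (-(u : ℝ)) + 1 / L ^ ch + |(i.2.2 : ℝ)| * (b / (L ^ ch * r) + ((b : ℝ) / r) ^ 3)) *
      (r / (L ^ ch * nm ω)) * VS b (PS (L ^ cw)) + C * i.1 * (L ^ cw + 1) ^ m ≤
    ε * (r / (L ^ ch * nm ω)) * VS b (PS (L ^ cw))
  obtain ⟨hV1, hV0, _⟩ := hE (b : ℤ) (L ^ cw) hw1
  set V : ℝ := VS (b : ℤ) (PS (L ^ cw)) with hV
  set A : ℝ := r / (L ^ ch * nm ω) with hAdef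
  have hA0 : 0 < A := by positivity
  -- the first factor
  have hkn : 0 ≤ |(i.2.2 : ℝ)| := abs_nonneg _
  have hC80 : 80 * C ≤ ε * L := by
    rw [div_le_iff₀ hε] at hL80
    linarith
  have t2 : C * (1 / L ^ ch) ≤ ε / 5 := by
    rw [mul_one_div, div_le_iff₀ hh0]
    have : ε * L ≤ ε * L ^ ch := mul_le_mul_of_nonneg_left hhL hε.le
    linarith
  have t3 : C * (|(i.2.2 : ℝ)| * (b / (L ^ ch * r))) ≤ ε / 5 := by
    have s1 : (b : ℝ) / (L ^ ch * r) ≤ 2 * B / (L ^ aF * L * (N / 8)) := by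
      apply div_le_div₀ (by positivity) hb2 (by positivity)
      exact mul_le_mul hhaF hr8 (by positivity) hh0.le
    have s2 : |(i.2.2 : ℝ)| * (b / (L ^ ch * r)) ≤
        L ^ aF * (N / B) * (2 * B / (L ^ aF * L * (N / 8))) :=
      mul_le_mul hk s1 (by positivity) (by positivity)
    have s3 : L ^ aF * (N / B) * (2 * B / (L ^ aF * L * (N / 8))) = 16 / L := by
      have : L ^ aF ≠ 0 := (Real.rpow_pos_of_pos hL0 _).ne'
      field_simp
      norm_num
    rw [s3] at s2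
    calc C * (|(i.2.2 : ℝ)| * (b / (L ^ ch * r))) ≤ C * (16 / L) :=
          mul_le_mul_of_nonneg_left s2 hC.le
      _ ≤ ε / 5 := by
          rw [mul_div_assoc', div_le_iff₀ hL0]
          linarith
  have t4 : C * (|(i.2.2 : ℝ)| * ((b : ℝ) / r) ^ 3) ≤ ε / 5 := by
    have s1 : (b : ℝ) / r ≤ 2 * B / (N / 8) := div_le_div₀ (by positivity) hb2 (by positivity) hr8
    have s2 : ((b : ℝ) / r) ^ 3 ≤ (2 * B / (N / 8)) ^ 3 := pow_le_pow_left₀ (by positivity) s1 3
    have s3 : |(i.2.2 : ℝ)| * ((b : ℝ) / r) ^ 3 ≤ L ^ aF * (N / B) * (2 * B / (N / 8)) ^ 3 :=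
      mul_le_mul hk s2 (by positivity) (by positivity)
    have s4 : L ^ aF * (N / B) * (2 * B / (N / 8)) ^ 3 = 4096 * L ^ aF * B ^ 2 / N ^ 2 := by
      field_simp
      norm_num
    have s5 : 4096 * L ^ aF * B ^ 2 / N ^ 2 ≤ 8192 * L ^ aF / N := by
      rw [div_le_div_iff₀ (by positivity) hN0]
      have hLa : 0 < L ^ aF := Real.rpow_pos_of_pos hL0 _
      have : 4096 * L ^ aF * B ^ 2 ≤ 4096 * L ^ aF * (2 * N) :=
        mul_le_mul_of_nonneg_left hB2 (by positivity)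
      calc 4096 * L ^ aF * B ^ 2 * N ≤ 4096 * L ^ aF * (2 * N) * N :=
            mul_le_mul_of_nonneg_right this hN0.le
        _ = 8192 * L ^ aF * N ^ 2 := by ring
    have s6 : 8192 * L ^ aF / N ≤ ε / (5 * C) := by
      rw [div_le_iff₀ hN0]
      have : 8192 * L ^ aF ≤ 8192 * (ε / (40960 * C) * N) :=
        mul_le_mul_of_nonneg_left h2 (by norm_num)
      have e : 8192 * (ε / (40960 * C) * N) = ε / (5 * C) * N := by
        field_simp
        norm_num
      linarith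
    calc C * (|(i.2.2 : ℝ)| * ((b : ℝ) / r) ^ 3) ≤ C * (ε / (5 * C)) := by
          apply mul_le_mul_of_nonneg_left _ hC.le
          rw [s4] at s3
          linarith
      _ = ε / 5 := by field_simp
  have hS : C * (Real.exp (-(u : ℝ)) + 1 / L ^ ch +
      |(i.2.2 : ℝ)| * (b / (L ^ ch * r) + ((b : ℝ) / r) ^ 3)) ≤ 4 * ε / 5 := by
    have : C * (Real.exp (-(u : ℝ)) + 1 / L ^ ch +
      |(i.2.2 : ℝ)| * (b / (L ^ ch * r) + ((b : ℝ) / r) ^ 3)) =
      C * Real.exp (-(u : ℝ)) + C * (1 / L ^ ch) + C * (|(i.2.2 : ℝ)| * (b / (L ^ ch * r))) +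
        C * (|(i.2.2 : ℝ)| * ((b : ℝ) / r) ^ 3) := by ring
    rw [this]
    linarith
  -- the last term
  have hlast : C * i.1 * (L ^ cw + 1) ^ m ≤ ε / 5 * (A * V) := by
    have q1 : C * i.1 * (L ^ cw + 1) ^ m ≤ C * L ^ aQ * (2 ^ m * L ^ (cw * m)) := by
      have a1 : (L ^ cw + 1) ^ m ≤ (2 * L ^ cw) ^ m :=
        pow_le_pow_left₀ (by positivity) (by linarith) m
      have a2 : (2 * L ^ cw) ^ m = 2 ^ m * L ^ (cw * m) := by
        rw [mul_pow, Real.rpow_mul hL0.le, Real.rpow_natCast]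
      rw [a2] at a1
      apply mul_le_mul _ a1 (by positivity) (by positivity)
      exact mul_le_mul_of_nonneg_left hiQ hC.le
    have q2 : L ^ cT / (32 * L ^ ch * L ^ cP) ≤ A := by
      rw [hAdef]
      have : L ^ cT / (32 * L ^ ch * L ^ cP) = (N / 8) / (L ^ ch * (4 * (N / L ^ cT * L ^ cP))) := by
        field_simp
        norm_num
      rw [this]
      apply div_le_div₀ hr0.le hr8 (by positivity)
      exact mul_le_mul_of_nonneg_left hK2 hh0.le
    have q3 : c / L ≤ V := by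
      refine le_trans ?_ hV1
      have hlw : 0 < Real.log (L ^ cw + 1) := Real.log_pos (by linarith)
      exact div_le_div_of_nonneg_left hc.le (by positivity) h4
    have q4 : L ^ cT / (32 * L ^ ch * L ^ cP) * (c / L) ≤ A * V :=
      mul_le_mul q2 q3 (by positivity) hA0.le
    have q5 : L ^ aQ * L ^ (cw * m) * L ^ ch * L ^ cP * (L * L) ≤ L ^ cT := by
      have : L ^ aQ * L ^ (cw * m) * L ^ ch * L ^ cP * (L * L) =
          L ^ (aQ + cw * m + ch + cP + 2) := by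
        rw [Real.rpow_add hL0, Real.rpow_add hL0, Real.rpow_add hL0, Real.rpow_add hL0]
        have : L ^ (2 : ℝ) = L * L := by
          rw [show (2 : ℝ) = 1 + 1 by norm_num, Real.rpow_add hL0, Real.rpow_one]
        rw [this]
      rw [this]
      exact Real.rpow_le_rpow_of_exponent_le hL1 hcT
    have q6 : 160 * C * 2 ^ m ≤ ε * c * L := by
      rw [div_le_iff₀ (by positivity)] at hL160
      linarith
    have hX : 0 < L ^ aQ * L ^ (cw * m) := by
      have := Real.rpow_pos_of_pos hL0 aQ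
      have := Real.rpow_pos_of_pos hL0 (cw * m)
      positivity
    have q7 : C * L ^ aQ * (2 ^ m * L ^ (cw * m)) ≤
        ε / 5 * (L ^ cT / (32 * L ^ ch * L ^ cP) * (c / L)) := by
      have e : ε / 5 * (L ^ cT / (32 * L ^ ch * L ^ cP) * (c / L)) =
          ε * c * L ^ cT / (160 * (L ^ ch * L ^ cP * L)) := by
        field_simp
        norm_num
      rw [e, le_div_iff₀ (by positivity)]
      calc C * L ^ aQ * (2 ^ m * L ^ (cw * m)) * (160 * (L ^ ch * L ^ cP * L)) =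
          (160 * C * 2 ^ m) * (L ^ aQ * L ^ (cw * m) * (L ^ ch * L ^ cP * L)) := by ring
        _ ≤ (ε * c * L) * (L ^ aQ * L ^ (cw * m) * (L ^ ch * L ^ cP * L)) :=
            mul_le_mul_of_nonneg_right q6 (by positivity)
        _ = ε * c * (L ^ aQ * L ^ (cw * m) * L ^ ch * L ^ cP * (L * L)) := by ring
        _ ≤ ε * c * L ^ cT := mul_le_mul_of_nonneg_left q5 (by positivity)
    have q8 : ε / 5 * (L ^ cT / (32 * L ^ ch * L ^ cP) * (c / L)) ≤ ε / 5 * (A * V) :=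
      mul_le_mul_of_nonneg_left q4 (by positivity)
    exact q1.trans (q7.trans q8)
  have hAV : 0 < A * V := mul_pos hA0 hV0
  have hfin := mul_le_mul_of_nonneg_right hS hAV.le
  calc C * (Real.exp (-(u : ℝ)) + 1 / L ^ ch +
        |(i.2.2 : ℝ)| * (b / (L ^ ch * r) + ((b : ℝ) / r) ^ 3)) * A * V + C * i.1 * (L ^ cw + 1) ^ m
      = C * (Real.exp (-(u : ℝ)) + 1 / L ^ ch +
        |(i.2.2 : ℝ)| * (b / (L ^ ch * r) + ((b : ℝ) / r) ^ 3)) * (A * V) +
          C * i.1 * (L ^ cw + 1) ^ m := by ring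
    _ ≤ 4 * ε / 5 * (A * V) + ε / 5 * (A * V) := add_le_add hfin hlast
    _ = ε * A * V := by ring

end Pool.Agent.Lib.MP391708.XL
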