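import Pool.Agent.Lib.MP_391708_nt.X.SpecLS3

/-!
# LSI: the sum of the model over a line
-/

set_option autoImplicit false

namespace Pool.Agent.Lib.MP391708.XL

open Finset Filter Topology Pool.Agent.Lib.MP391708.MR
open Pool.Agent.Lib.MP391708.X
open scoped ComplexConjugate

theorem specLSI : SpecLSI := by
  classical
  intro p U ζ b v4 v2
  unfold ls lsum kap
  refine sum_congr rfl fun π _ => ?_
  simp_rw [mul_sum]
  rw [sum_comm]
  refine sum_congr ?_ fun z _ => ?_
  · congr
  · by_cases h : z ∈ lc p.h (v4 + v2) ∧ rgh p.w z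
    · simp only [h, and_self, if_true]
    · simp only [if_neg h, mul_zero, sum_const_zero]

end Pool.Agent.Lib.MP391708.XL
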