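import Pool.Agent.Lib.MP_391708_nt.X.SpecLS2
import Pool.Agent.Lib.MP_391708_nt.MR.Basic

/-!
# THEOREM X (MP_391708), part LS, module LSM: one character on one lattice cell of a line
-/

set_option autoImplicit false

namespace Pool.Agent.Lib.MP391708.XL

open Finset Filter Topology Pool.Agent.Lib.MP391708.MR
open Pool.Agent.Lib.MP391708.X
open scoped ComplexConjugate

namespace LSMM

theorem mul_qt {ω : Gi} {n b : ℤ} (h0 : ω ≠ 0) (h : ω ∣ pt n b) : ω * qt ω n b = pt n b := by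
  obtain ⟨c, hc⟩ := h
  unfold qt
  rw [hc, mul_div_cancel_left₀ c h0]

theorem qt_ne {ω : Gi} {n : ℤ} {b : ℕ} (h0 : ω ≠ 0) (hb : 1 ≤ b) (h : ω ∣ pt n b) :
    qt ω n b ≠ 0 := by
  intro hq0
  have hq := mul_qt h0 h
  rw [hq0, mul_zero] at hq
  have h1 := congrArg Zsqrtd.im hq
  change (0 : ℤ) = (b : ℤ) at h1
  omega

theorem coprime_add (q : ℕ) (v y : Gi) :
    Nat.Coprime (nm (v + (q : Gi) * y)) q ↔ Nat.Coprime (nm v) q := by
  rw [← Nat.isCoprime_iff_coprime, ← Nat.isCoprime_iff_coprime, nm_cast, nm_cast]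
  have e : (v + (q : Gi) * y).re ^ 2 + (v + (q : Gi) * y).im ^ 2 =
      v.re ^ 2 + v.im ^ 2 + (q : ℤ) * (2 * v.re * y.re + 2 * v.im * y.im +
        q * (y.re ^ 2 + y.im ^ 2)) := by
    simp
    ring
  rw [e]
  exact IsCoprime.add_mul_left_left_iff

open scoped Classical in
/-- the indicator of the `v` with `(N(v), q) = 1` -/
noncomputable def Fc (q : ℕ) (v : Gi) : ℝ := if Nat.Coprime (nm v) q then 1 else 0

theorem sup_Fc (q : ℕ) : Sup q (Fc q) := by
  classical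
  refine ⟨fun x y => ?_, fun v => ?_, fun v hv => ?_⟩
  · unfold Fc
    by_cases h : Nat.Coprime (nm x) q
    · rw [if_pos h, if_pos ((coprime_add q x y).2 h)]
    · rw [if_neg h, if_neg fun h' => h ((coprime_add q x y).1 h')]
  · unfold Fc
    split_ifs <;> norm_num
  · unfold Fc at hv
    by_contra h
    rw [if_neg h] at hv
    exact hv rfl

open scoped Classical in
/-- The transformation of the sums (GEO and RGB). -/
theorem trans {ω : Gi} {b : ℕ} {h w D : ℝ} {j : ℕ} {X X' : ℝ} (hRGB : SpecRGB) (hw : 0 ≤ w)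
    (h0 : ω ≠ 0) (hb : 1 ≤ b)
    (hG : ∀ f : Gi → ℂ, ∑ z ∈ (disc D).filter (fun z => On ω b z ∧ z ∈ lc h j), f z =
      ∑ n ∈ LN ω b X X', f (qt ω n b)) (g F : Gi → ℂ)
    (hF : ∀ z, z ≠ 0 → F z = if z ∈ lc h j ∧ rgh w z then g z else 0) :
    ∑ z ∈ (disc D).filter (On ω b), F z =
      ∑ n ∈ LN ω b X X', (if rg (PS w) (qt ω n b) then g (qt ω n b) else 0) := by
  have e1 : ∑ z ∈ (disc D).filter (On ω b), F z =
      ∑ z ∈ (disc D).filter (fun z => On ω b z ∧ z ∈ lc h j), (if rgh w z then g z else 0) := by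
    rw [sum_filter, sum_filter]
    refine sum_congr rfl fun z hz => ?_
    rw [hF z (mem_disc.1 hz).1]
    by_cases h1 : On ω b z <;> by_cases h2 : z ∈ lc h j <;> by_cases h3 : rgh w z <;>
      simp [h1, h2, h3]
  rw [e1, hG]
  refine sum_congr rfl fun n hn => ?_
  have hd : ω ∣ pt n b := by
    unfold LN at hn
    exact (mem_filter.1 hn).2
  have h2 := (hRGB w (qt ω n b) (qt_ne h0 hb hd) hw).1
  by_cases h3 : rgh w (qt ω n b)
  · rw [if_pos h3, if_pos (h2.1 h3)]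
  · rw [if_neg h3, if_neg fun h' => h3 (h2.2 h')]

/-- The error of the phase. -/
theorem phase (hPHA : SpecPHA) {CG : ℝ} (hCG : 0 < CG) (k n : ℤ) (b : ℕ) {r h : ℝ} (hr : 0 < r)
    (hh : 0 < h) (hn : r / 2 ≤ (n : ℝ)) (hnr : |(n : ℝ) - r| ≤ CG * r / h) :
    ‖conj (xi k (pt n b)) - Complex.exp (-(Complex.I * k * b / r))‖ ≤
      (2 * CG + 8) * (|(k : ℝ)| * (b / (h * r) + ((b : ℝ) / r) ^ 3)) := by
  have hn0 : 0 < (n : ℝ) := by linarith
  have hn0' : 0 < n := by exact_mod_cast hn0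
  have hb0 : (0 : ℝ) ≤ b := Nat.cast_nonneg b
  have e1 : Complex.exp (-(Complex.I * k * b / r)) =
      conj (Complex.exp (Complex.I * k * ((b : ℤ) : ℂ) / r)) := by
    rw [← Complex.exp_conj]
    congr 1
    rw [map_div₀, map_mul, map_mul, Complex.conj_I, Complex.conj_ofReal, map_intCast, map_intCast,
      Int.cast_natCast]
    ring
  rw [e1, ← map_sub, RCLike.norm_conj]
  refine (hPHA k n b r hn0' (by positivity) hr).trans ?_
  rw [Int.cast_natCast]
  have k0 : 0 ≤ |(k : ℝ)| := abs_nonneg _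
  have h1 : (b : ℝ) * |(n : ℝ) - r| / (n * r) ≤ 2 * CG * (b / (h * r)) := by
    rw [div_le_iff₀ (by positivity)]
    have h2 : (b : ℝ) * |(n : ℝ) - r| ≤ b * (CG * r / h) := mul_le_mul_of_nonneg_left hnr hb0
    have h3 : 2 * CG * ((b : ℝ) / (h * r)) * (r / 2 * r) ≤ 2 * CG * (b / (h * r)) * (n * r) := by
      apply mul_le_mul_of_nonneg_left _ (by positivity)
      exact mul_le_mul_of_nonneg_right hn hr.le
    have h4 : 2 * CG * ((b : ℝ) / (h * r)) * (r / 2 * r) = b * (CG * r / h) := by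
      field_simp
    linarith
  have h5 : ((b : ℝ) / n) ^ 3 ≤ 8 * (b / r) ^ 3 := by
    have h6 : (b : ℝ) / n ≤ 2 * (b / r) := by
      rw [div_le_iff₀ hn0]
      have h7 : 2 * ((b : ℝ) / r) * (r / 2) ≤ 2 * (b / r) * n :=
        mul_le_mul_of_nonneg_left hn (by positivity)
      have h8 : 2 * ((b : ℝ) / r) * (r / 2) = b := by field_simp
      linarith
    calc ((b : ℝ) / n) ^ 3 ≤ (2 * (b / r)) ^ 3 := pow_le_pow_left₀ (by positivity) h6 3
      _ = 8 * (b / r) ^ 3 := by ring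
  have h9 : (b : ℝ) * |(n : ℝ) - r| / (n * r) + ((b : ℝ) / n) ^ 3 ≤
      (2 * CG + 8) * (b / (h * r) + ((b : ℝ) / r) ^ 3) := by
    have h10 : 0 ≤ (b : ℝ) / (h * r) := by positivity
    have h11 : 0 ≤ ((b : ℝ) / r) ^ 3 := by positivity
    nlinarith [mul_nonneg hCG.le h11]
  calc |(k : ℝ)| * (b * |(n : ℝ) - r| / (n * r) + ((b : ℝ) / n) ^ 3)
      ≤ |(k : ℝ)| * ((2 * CG + 8) * (b / (h * r) + ((b : ℝ) / r) ^ 3)) :=
        mul_le_mul_of_nonneg_left h9 k0
    _ = _ := by ring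

/-- The bound (B) for the sum over `n`. -/
theorem boundB {CR CG : ℝ} (hCR : 0 < CR) (hCG : 0 < CG) {q : ℕ} {N h w r dX E V V' S : ℝ}
    (hN : 0 < N) (hh : 1 ≤ h) (hw : 1 ≤ w) (hr : 0 < r) (hdX0 : 0 ≤ dX)
    (hdX : |dX - r / (2 * h)| ≤ CG * r / h ^ 2) (hE : 0 ≤ E * V') (hEV : E * V' ≤ V)
    (hS : |S - dX / N * E * V'| ≤ CR * Real.exp (-((0 : ℕ) : ℝ)) * (dX / N) * (E * V') +
      CR * q * (w + 1) ^ (16 * 0 + 34)) :
    S ≤ ((1 + CR) * (1 / 2 + CG) + CR) * (r / (h * N)) * V +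
      ((1 + CR) * (1 / 2 + CG) + CR) * q * (w + 1) ^ 34 := by
  have hh0 : 0 < h := by linarith
  have h1 : dX ≤ (1 / 2 + CG) * (r / h) := by
    have h2 := (abs_le.1 hdX).2
    have h3 : CG * r / h ^ 2 ≤ CG * r / h := by
      apply div_le_div_of_nonneg_left (by positivity) hh0
      nlinarith
    have h4 : r / (2 * h) = 1 / 2 * (r / h) := by field_simp
    have h5 : CG * r / h = CG * (r / h) := by ring
    rw [h4] at h2
    rw [h5] at h3
    linarith
  have h6 : dX / N ≤ (1 / 2 + CG) * (r / (h * N)) := by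
    have h7 : (1 / 2 + CG) * (r / (h * N)) = ((1 / 2 + CG) * (r / h)) / N := by
      field_simp
    rw [h7]
    exact div_le_div_of_nonneg_right h1 hN.le
  have h8 : 0 ≤ dX / N := div_nonneg hdX0 hN.le
  have hV : 0 ≤ V := hE.trans hEV
  have h9 : dX / N * (E * V') ≤ (1 / 2 + CG) * (r / (h * N)) * V :=
    mul_le_mul h6 hEV hE (by positivity)
  have h10 := (abs_le.1 hS).2
  rw [Nat.cast_zero, neg_zero, Real.exp_zero, mul_one, Nat.mul_zero, Nat.zero_add] at h10
  have h11 : CR * (dX / N) * (E * V') = CR * (dX / N * (E * V')) := by ring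
  have h12 : dX / N * E * V' = dX / N * (E * V') := by ring
  rw [h11, h12] at h10
  have h13 : CR * (dX / N * (E * V')) ≤ CR * ((1 / 2 + CG) * (r / (h * N)) * V) :=
    mul_le_mul_of_nonneg_left h9 hCR.le
  have h14 : 0 ≤ (q : ℝ) * (w + 1) ^ 34 := by positivity
  have h15 : 0 ≤ CR * (r / (h * N)) * V := by positivity
  have h16 : 0 ≤ ((1 + CR) * (1 / 2 + CG)) * ((q : ℝ) * (w + 1) ^ 34) := by positivity
  nlinarith

/-- The final collection of the errors. -/
theorem collect {CL CR CG e g κ P Z Z' q : ℝ} (hCL : 0 < CL) (hCR : 0 < CR) (hCG : 0 < CG)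
    (he : 0 ≤ e) (hg : 0 ≤ g) (hκ : 0 ≤ κ) (hP : 0 ≤ P) (hq : 0 ≤ q) (hZ0 : 0 ≤ Z')
    (hZ : Z' ≤ Z) :
    (2 * CG + 8) * κ * (((1 + CR) * (1 / 2 + CG) + CR) * P) +
        2 * (((1 + CR) * (1 / 2 + CG) + CR) * (q * Z')) +
      (CL * e * ((1 / 2 + CG) * P) + CL * (q * Z)) + CG * g * P ≤
      (CL * (1 / 2 + CG) + CL + CG + (2 * CG + 8) * ((1 + CR) * (1 / 2 + CG) + CR) +
        3 * ((1 + CR) * (1 / 2 + CG) + CR)) * (e + g + κ) * P +
      (CL * (1 / 2 + CG) + CL + CG + (2 * CG + 8) * ((1 + CR) * (1 / 2 + CG) + CR) +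
        3 * ((1 + CR) * (1 / 2 + CG) + CR)) * (q * Z) := by
  obtain ⟨CB, hCB⟩ : ∃ CB, CB = (1 + CR) * (1 / 2 + CG) + CR := ⟨_, rfl⟩
  have hCB0 : 0 < CB := by rw [hCB]; positivity
  rw [← hCB]
  have h1 : q * Z' ≤ q * Z := mul_le_mul_of_nonneg_left hZ hq
  have h2 : 0 ≤ q * Z' := mul_nonneg hq hZ0
  have h3 : 0 ≤ e * P := mul_nonneg he hP
  have h4 : 0 ≤ g * P := mul_nonneg hg hP
  have h5 : 0 ≤ κ * P := mul_nonneg hκ hP
  have h6 : 0 ≤ q * Z := h2.trans h1
  have a1 : 2 * (CB * (q * Z')) ≤ 2 * (CB * (q * Z)) := by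
    have := mul_le_mul_of_nonneg_left h1 hCB0.le
    linarith
  have a2 : 0 ≤ CL * (e * P) := mul_nonneg hCL.le h3
  have a3 : 0 ≤ CL * (g * P) := mul_nonneg hCL.le h4
  have a4 : 0 ≤ CL * (κ * P) := mul_nonneg hCL.le h5
  have a5 : 0 ≤ CG * (e * P) := mul_nonneg hCG.le h3
  have a6 : 0 ≤ CG * (κ * P) := mul_nonneg hCG.le h5
  have a7 : 0 ≤ CB * (e * P) := mul_nonneg hCB0.le h3
  have a8 : 0 ≤ CB * (g * P) := mul_nonneg hCB0.le h4
  have a9 : 0 ≤ CB * (κ * P) := mul_nonneg hCB0.le h5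
  have b1 : 0 ≤ CL * CG * (g * P) := mul_nonneg (mul_pos hCL hCG).le h4
  have b2 : 0 ≤ CL * CG * (κ * P) := mul_nonneg (mul_pos hCL hCG).le h5
  have b3 : 0 ≤ CG * CB * (e * P) := mul_nonneg (mul_pos hCG hCB0).le h3
  have b4 : 0 ≤ CG * CB * (g * P) := mul_nonneg (mul_pos hCG hCB0).le h4
  have c1 : 0 ≤ CL * (q * Z) := mul_nonneg hCL.le h6
  have c2 : 0 ≤ CG * (q * Z) := mul_nonneg hCG.le h6
  have c3 : 0 ≤ CB * (q * Z) := mul_nonneg hCB0.le h6
  have c4 : 0 ≤ CL * CG * (q * Z) := mul_nonneg (mul_pos hCL hCG).le h6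
  have c5 : 0 ≤ CG * CB * (q * Z) := mul_nonneg (mul_pos hCG hCB0).le h6
  have e1 : (CL * (1 / 2 + CG) + CL + CG + (2 * CG + 8) * CB + 3 * CB) * (e + g + κ) * P +
      (CL * (1 / 2 + CG) + CL + CG + (2 * CG + 8) * CB + 3 * CB) * (q * Z) -
      ((2 * CG + 8) * κ * (CB * P) + 2 * (CB * (q * Z)) +
      (CL * e * ((1 / 2 + CG) * P) + CL * (q * Z)) + CG * g * P) =
      CL * (e * P) + 3 / 2 * (CL * (g * P)) + 3 / 2 * (CL * (κ * P)) + CG * (e * P) +
      CG * (κ * P) + 11 * (CB * (e * P)) + 11 * (CB * (g * P)) + 3 * (CB * (κ * P)) +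
      CL * CG * (g * P) + CL * CG * (κ * P) + 2 * (CG * CB * (e * P)) +
      2 * (CG * CB * (g * P)) + 1 / 2 * (CL * (q * Z)) + CG * (q * Z) + 9 * (CB * (q * Z)) +
      CL * CG * (q * Z) + 2 * (CG * CB * (q * Z)) := by
    ring
  linarith

theorem dX_le {CG N h r dX : ℝ} (hCG : 0 < CG) (hN : 0 < N) (hh : 1 ≤ h) (hr : 0 < r)
    (hdX : |dX - r / (2 * h)| ≤ CG * r / h ^ 2) :
    dX / N ≤ (1 / 2 + CG) * (r / (h * N)) := by
  have hh0 : 0 < h := by linarith
  have h1 : dX ≤ (1 / 2 + CG) * (r / h) := by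
    have h2 := (abs_le.1 hdX).2
    have h3 : CG * r / h ^ 2 ≤ CG * r / h := by
      apply div_le_div_of_nonneg_left (by positivity) hh0
      nlinarith
    have h4 : r / (2 * h) = 1 / 2 * (r / h) := by field_simp
    have h5 : CG * r / h = CG * (r / h) := by ring
    rw [h4] at h2
    rw [h5] at h3
    linarith
  have h7 : (1 / 2 + CG) * (r / (h * N)) = ((1 / 2 + CG) * (r / h)) / N := by
    field_simp
  rw [h7]
  exact div_le_div_of_nonneg_right h1 hN.le

theorem norm_E0 (k : ℤ) (b : ℕ) (r : ℝ) :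
    ‖Complex.exp (-(Complex.I * k * b / r))‖ = 1 := by
  have h : -(Complex.I * k * b / r) = ((-(k * b / r) : ℝ) : ℂ) * Complex.I := by
    push_cast
    ring
  rw [h, Complex.norm_exp_ofReal_mul_I]

theorem conj_psi_qt {i : Ix} {ω : Gi} {n : ℤ} {b : ℕ} (h0 : ω ≠ 0) (hd : ω ∣ pt n b) :
    conj (psi i (qt ω n b)) =
      conj (i.2.1 (qt ω n b)) * (xi i.2.2 ω * conj (xi i.2.2 (pt n b))) := by
  have h1 := xi_mul i.2.2 ω (qt ω n b)
  rw [mul_qt h0 hd] at h1
  have h2 : xi i.2.2 ω * conj (xi i.2.2 ω) = 1 := by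
    rw [Complex.mul_conj, Complex.normSq_eq_norm_sq, norm_xi _ h0]
    simp
  change conj (i.2.1 (qt ω n b) * xi i.2.2 (qt ω n b)) = _
  rw [map_mul, h1, map_mul, ← mul_assoc (xi i.2.2 ω), h2, one_mul]

end LSMM

open LSMM in
/-- **Module LSM**. -/
theorem specLSM (hLSC : SpecLSC) (hLSR : SpecLSR) (hEQB : SpecEQB) (hMUL : SpecMUL)
    (hPHA : SpecPHA) (hGEO : SpecGEO) (hCHB : SpecCHB) (hRGB : SpecRGB) (hGBB : SpecGBB) :
    SpecLSM := by
  classical
  obtain ⟨CL, hCL, hL⟩ := hLSC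
  obtain ⟨CR, hCR, hR⟩ := hLSR
  obtain ⟨CG, hCG, hG⟩ := hGEO
  have hSz : ∀ w : ℝ, 0 ≤ w → Sz (PS w) (w + 1) := fun w hw => (hRGB w 1 one_ne_zero hw).2
  refine ⟨CL * (1 / 2 + CG) + CL + CG + (2 * CG + 8) * ((1 + CR) * (1 / 2 + CG) + CR) +
    3 * ((1 + CR) * (1 / 2 + CG) + CR), by positivity, ?_, ?_, ?_, ?_⟩
  · intro u i ω b h w r D j hi hχ hω hrω hcop hw hb hh hr hbr hhr hD hr1 hr2
    have hω0 : ω ≠ 0 := prim_ne_zero hω
    have hN : (0 : ℝ) < nm ω := nm_posR hω0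
    have hr0 : 0 < r := by linarith
    have hh0 : 0 < h := by linarith
    have hw0 : 0 ≤ w := by linarith
    have hq0 : 0 < i.1 := hi
    obtain ⟨X, X', hX, hXX', -, hsum, hdX, hn⟩ := hG ω b h r D j hω0 hb hh hr hbr hhr hD hr1 hr2
    have hrg : rg (PS w) ω := ((hRGB w ω hω0 hw0).1).1 hrω
    obtain ⟨hCh, -, hnrm⟩ := hCHB i.1 i.2.1 hq0 hχ
    obtain ⟨hM1, hM2, -, -⟩ := hMUL i.1 i.2.1 ω b (w + 1) (PS w) hq0 hCh hω (hSz w hw0)
    have hE := hEQB i.1 (Fc i.1) ω b (w + 1) (PS w) hq0 hω (hSz w hw0) hrg (sup_Fc i.1)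
    obtain ⟨hV0, hV1, hVQ0, hVQ1⟩ := hGBB.2.1 b (w + 1) (PS w) i.1 (hSz w hw0)
    have hRB := hR 0 (w + 1) (PS w) i.1 (Fc i.1) ω b X X' (by linarith) (hSz w hw0) hq0 hω hrg
      (sup_Fc i.1) hXX'
    obtain ⟨B, hBdef⟩ : ∃ B : ℝ, B = ∑ n ∈ LN ω b X X',
      (if rg (PS w) (qt ω n b) then Fc i.1 (qt ω n b) else 0) := ⟨_, rfl⟩
    rw [← hBdef] at hRB
    have hB := boundB hCR hCG hN hh hw hr0 (sub_nonneg.2 hXX') hdX (mul_nonneg hE.1 hVQ0.le)
      hE.2.1 hRB
    obtain ⟨CB, hCB⟩ : ∃ CB, CB = (1 + CR) * (1 / 2 + CG) + CR := ⟨_, rfl⟩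
    have hCB0 : 0 < CB := by rw [hCB]; positivity
    have hP : 0 ≤ r / (h * nm ω) * VS b (PS w) := by positivity
    have hq' : (0 : ℝ) ≤ i.1 := Nat.cast_nonneg _
    have hZ0 : 0 ≤ (w + 1) ^ 34 := by positivity
    have hZ : (w + 1) ^ 34 ≤ (w + 1) ^ (16 * u + 34) :=
      pow_le_pow_right₀ (by linarith) (by omega)
    constructor
    · -- (A)
      have eA := trans hRGB hw0 hω0 hb hsum (fun z => conj (psi i z))
        (fun z => if z ∈ lc h j ∧ rgh w z then conj (psi i z) else 0) (fun z _ => rfl)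
      rw [eA]
      obtain ⟨a, ha⟩ : ∃ a, a = xi i.2.2 ω := ⟨_, rfl⟩
      obtain ⟨E0, hE0⟩ : ∃ E0, E0 = Complex.exp (-(Complex.I * i.2.2 * b / r)) := ⟨_, rfl⟩
      have na : ‖a‖ = 1 := by rw [ha]; exact norm_xi _ hω0
      have nE : ‖E0‖ = 1 := by rw [hE0]; exact norm_E0 _ _ _
      obtain ⟨T0, hT0⟩ : ∃ T0 : ℂ, T0 = ∑ n ∈ LN ω b X X',
        (if rg (PS w) (qt ω n b) then conj (i.2.1 (qt ω n b)) else 0) := ⟨_, rfl⟩
      obtain ⟨κ, hκ⟩ : ∃ κ : ℝ, κ = |(i.2.2 : ℝ)| * (b / (h * r) + ((b : ℝ) / r) ^ 3) := ⟨_, rfl⟩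
      have hκ0 : 0 ≤ κ := by rw [hκ]; positivity
      obtain ⟨δ, hδ⟩ : ∃ δ : ℝ, δ = min ((2 * CG + 8) * κ) 2 := ⟨_, rfl⟩
      have hδ0 : 0 ≤ δ := by rw [hδ]; exact le_min (by positivity) (by norm_num)
      have hδ1 : δ ≤ (2 * CG + 8) * κ := by rw [hδ]; exact min_le_left _ _
      have hδ2 : δ ≤ 2 := by rw [hδ]; exact min_le_right _ _
      -- D1
      have D1 : ‖∑ n ∈ LN ω b X X',
          (if rg (PS w) (qt ω n b) then conj (psi i (qt ω n b)) else 0) - a * E0 * T0‖ ≤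
          B * δ := by
        rw [hT0, mul_sum, ← sum_sub_distrib, hBdef, sum_mul]
        refine (norm_sum_le _ _).trans (sum_le_sum fun n hn' => ?_)
        have hmem := hn'
        unfold LN at hmem
        rw [mem_filter, mem_Ioc] at hmem
        have hd : ω ∣ pt n b := hmem.2
        have hnX : X < (n : ℝ) := Int.floor_lt.1 hmem.1.1
        by_cases h3 : rg (PS w) (qt ω n b)
        · rw [if_pos h3, if_pos h3, if_pos h3, conj_psi_qt hω0 hd, ← ha]
          have e2 : conj (i.2.1 (qt ω n b)) * (a * conj (xi i.2.2 (pt n b))) -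
              a * E0 * conj (i.2.1 (qt ω n b)) =
              conj (i.2.1 (qt ω n b)) * a * (conj (xi i.2.2 (pt n b)) - E0) := by ring
          rw [e2, norm_mul, norm_mul, na, mul_one, RCLike.norm_conj]
          have e3 : ‖i.2.1 (qt ω n b)‖ ≤ Fc i.1 (qt ω n b) := by
            unfold Fc
            by_cases h4 : Nat.Coprime (nm (qt ω n b)) i.1
            · rw [if_pos h4]
              exact hnrm _
            · rw [if_neg h4]
              have h5 : i.2.1 (qt ω n b) = 0 := by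
                by_contra h6
                exact h4 (hCh.sup _ h6)
              rw [h5, norm_zero]
          have e4 : ‖conj (xi i.2.2 (pt n b)) - E0‖ ≤ δ := by
            rw [hδ]
            apply le_min
            · rw [hE0, hκ]
              exact phase hPHA hCG i.2.2 n b hr0 hh0 (by linarith) (hn n hn')
            · have hpt : pt n b ≠ 0 := by
                intro h6
                have h7 := mul_qt hω0 hd
                rw [h6] at h7
                exact (mul_ne_zero hω0 (qt_ne hω0 hb hd)) h7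
              refine (norm_sub_le _ _).trans ?_
              rw [RCLike.norm_conj, norm_xi _ hpt, nE]
              norm_num
          exact mul_le_mul e3 e4 (norm_nonneg _) ((norm_nonneg _).trans e3)
        · rw [if_neg h3, if_neg h3, if_neg h3, mul_zero, sub_zero, norm_zero, zero_mul]
      have D1' : B * δ ≤ (2 * CG + 8) * κ * (CB * (r / (h * nm ω) * VS b (PS w))) +
          2 * (CB * (i.1 * (w + 1) ^ 34)) := by
        have h1 : B ≤ CB * (r / (h * nm ω) * VS b (PS w)) + CB * (i.1 * (w + 1) ^ 34) := by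
          rw [← hCB] at hB
          linarith
        have h2 : B * δ ≤ (CB * (r / (h * nm ω) * VS b (PS w)) + CB * (i.1 * (w + 1) ^ 34)) * δ :=
          mul_le_mul_of_nonneg_right h1 hδ0
        have h3 : CB * (r / (h * nm ω) * VS b (PS w)) * δ ≤
            CB * (r / (h * nm ω) * VS b (PS w)) * ((2 * CG + 8) * κ) :=
          mul_le_mul_of_nonneg_left hδ1 (mul_nonneg hCB0.le hP)
        have h4 : CB * (i.1 * (w + 1) ^ 34) * δ ≤ CB * (i.1 * (w + 1) ^ 34) * 2 :=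
          mul_le_mul_of_nonneg_left hδ2 (mul_nonneg hCB0.le (mul_nonneg hq' hZ0))
        linarith
      -- D2
      have hSup : SupC i.1 (fun v => conj (i.2.1 v)) := by
        refine ⟨fun x y => ?_, fun v => ?_, fun v hv => ?_⟩
        · change conj (i.2.1 (x + (i.1 : Gi) * y)) = conj (i.2.1 x)
          rw [hCh.per]
        · change ‖conj (i.2.1 v)‖ ≤ 1
          rw [RCLike.norm_conj]
          exact hnrm v
        · apply hCh.sup v
          intro h6
          apply hv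
          change conj (i.2.1 v) = 0
          rw [h6, map_zero]
      have D2 := hL u (w + 1) (PS w) i.1 (fun v => conj (i.2.1 v)) ω b X X' (by linarith)
        (hSz w hw0) hq0 hω hrg hSup hXX'
      rw [← hT0] at D2
      have hdN := dX_le hCG hN hh hr0 hdX
      have hdN0 : 0 ≤ (X' - X) / nm ω := div_nonneg (sub_nonneg.2 hXX') hN.le
      have D2' : CL * Real.exp (-(u : ℝ)) * ((X' - X) / nm ω) * VS b (PS w) ≤
          CL * Real.exp (-(u : ℝ)) * ((1 / 2 + CG) * (r / (h * nm ω) * VS b (PS w))) := by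
        have h1 : (X' - X) / nm ω * VS b (PS w) ≤
            (1 / 2 + CG) * (r / (h * nm ω)) * VS b (PS w) :=
          mul_le_mul_of_nonneg_right hdN hV0.le
        have h2 : CL * Real.exp (-(u : ℝ)) * ((X' - X) / nm ω * VS b (PS w)) ≤
            CL * Real.exp (-(u : ℝ)) * ((1 / 2 + CG) * (r / (h * nm ω)) * VS b (PS w)) :=
          mul_le_mul_of_nonneg_left h1 (by positivity)
        linarith
      -- D3
      obtain ⟨EC0, hEC0⟩ : ∃ EC0, EC0 = EC i.1 (fun v => conj (i.2.1 v)) b ω := ⟨_, rfl⟩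
      have hEC1 : EC0 = i.2.1 ω * gg i.2.1 i.1 b := by rw [hEC0]; exact hM1 hcop
      have hEC2 : ‖EC0‖ * VQ i.1 b (PS w) ≤ VS b (PS w) := by rw [hEC0]; exact hM2 hrg
      rw [← hEC0] at D2
      have e5 : ((r / (2 * h * nm ω) * VQ i.1 b (PS w) : ℝ) : ℂ) * psi i ω * gg i.2.1 i.1 b *
          Complex.exp (-(Complex.I * i.2.2 * b / r)) =
          a * E0 * (((r / (2 * h) / nm ω * VQ i.1 b (PS w) : ℝ) : ℂ) * EC0) := by
        rw [hEC1, hE0, ha]
        change ((r / (2 * h * nm ω) * VQ i.1 b (PS w) : ℝ) : ℂ) * (i.2.1 ω * xi i.2.2 ω) *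
          gg i.2.1 i.1 b * Complex.exp (-(Complex.I * i.2.2 * b / r)) = _
        rw [show r / (2 * h * (nm ω : ℝ)) = r / (2 * h) / nm ω from (div_div _ _ _).symm]
        ring
      rw [e5]
      have D3 : ‖a * E0 * ((((X' - X) / nm ω * VQ i.1 b (PS w) : ℝ) : ℂ) * EC0) -
          a * E0 * (((r / (2 * h) / nm ω * VQ i.1 b (PS w) : ℝ) : ℂ) * EC0)‖ ≤
          CG * (1 / h) * (r / (h * nm ω) * VS b (PS w)) := by
        have e6 : a * E0 * ((((X' - X) / nm ω * VQ i.1 b (PS w) : ℝ) : ℂ) * EC0) -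
            a * E0 * (((r / (2 * h) / nm ω * VQ i.1 b (PS w) : ℝ) : ℂ) * EC0) =
            a * E0 * ((((X' - X - r / (2 * h)) / nm ω : ℝ) : ℂ) *
              (((VQ i.1 b (PS w) : ℝ) : ℂ) * EC0)) := by
          push_cast
          ring
        rw [e6, norm_mul, norm_mul, na, nE, norm_mul, norm_mul, Complex.norm_real,
          Complex.norm_real, Real.norm_eq_abs, Real.norm_eq_abs, abs_of_pos hVQ0, abs_div,
          abs_of_pos hN, one_mul, one_mul]
        have h1 : |X' - X - r / (2 * h)| / nm ω ≤ CG * r / h ^ 2 / nm ω :=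
          div_le_div_of_nonneg_right hdX hN.le
        have h2 : VQ i.1 b (PS w) * ‖EC0‖ ≤ VS b (PS w) := by rw [mul_comm]; exact hEC2
        have h3 : |X' - X - r / (2 * h)| / nm ω * (VQ i.1 b (PS w) * ‖EC0‖) ≤
            CG * r / h ^ 2 / nm ω * VS b (PS w) :=
          mul_le_mul h1 h2 (by positivity) (by positivity)
        have h4 : CG * r / h ^ 2 / nm ω * VS b (PS w) =
            CG * (1 / h) * (r / (h * nm ω) * VS b (PS w)) := by
          field_simp
        linarith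
      have D2'' : ‖a * E0 * T0 -
          a * E0 * ((((X' - X) / nm ω * VQ i.1 b (PS w) : ℝ) : ℂ) * EC0)‖ ≤
          CL * Real.exp (-(u : ℝ)) * ((1 / 2 + CG) * (r / (h * nm ω) * VS b (PS w))) +
            CL * (i.1 * (w + 1) ^ (16 * u + 34)) := by
        rw [← mul_sub, norm_mul, norm_mul, na, nE, one_mul, one_mul]
        linarith
      have hfin := collect (Z := (w + 1) ^ (16 * u + 34)) hCL hCR hCG (Real.exp_pos (-(u : ℝ))).le
        (div_nonneg zero_le_one hh0.le) hκ0 hP hq' hZ0 hZ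
      rw [← hCB] at hfin ⊢
      have h7 := norm_sub_le_norm_sub_add_norm_sub (∑ n ∈ LN ω b X X',
          (if rg (PS w) (qt ω n b) then conj (psi i (qt ω n b)) else 0)) (a * E0 * T0)
          (a * E0 * (((r / (2 * h) / nm ω * VQ i.1 b (PS w) : ℝ) : ℂ) * EC0))
      have h8 := norm_sub_le_norm_sub_add_norm_sub (a * E0 * T0)
          (a * E0 * ((((X' - X) / nm ω * VQ i.1 b (PS w) : ℝ) : ℂ) * EC0))
          (a * E0 * (((r / (2 * h) / nm ω * VQ i.1 b (PS w) : ℝ) : ℂ) * EC0))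
      rw [← hκ]
      refine (h7.trans (add_le_add D1 (h8.trans (add_le_add D2'' D3)))).trans ?_
      refine le_trans ?_ (hfin.trans (le_of_eq ?_))
      · linarith
      · ring
    · -- (B)
      have hBz : ∑ z ∈ (disc D).filter (On ω b),
          (if z ∈ lc h j ∧ rgh w z ∧ Nat.Coprime (nm z) i.1 then (1 : ℝ) else 0) = B := by
        have e := trans hRGB hw0 hω0 hb hsum (fun z => ((Fc i.1 z : ℝ) : ℂ))
          (fun z => ((if z ∈ lc h j ∧ rgh w z ∧ Nat.Coprime (nm z) i.1 then (1 : ℝ) else 0 : ℝ) : ℂ))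
          (by
            intro z _
            unfold Fc
            by_cases h1 : z ∈ lc h j <;> by_cases h2 : rgh w z <;>
              by_cases h3 : Nat.Coprime (nm z) i.1 <;> simp [h1, h2, h3])
        rw [hBdef]
        apply Complex.ofReal_injective
        rw [Complex.ofReal_sum, Complex.ofReal_sum]
        refine Eq.trans e (sum_congr rfl fun n _ => ?_)
        split_ifs
        · rfl
        · rw [Complex.ofReal_zero]
      rw [hBz]
      refine hB.trans ?_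
      rw [← hCB]
      have h1 : CB ≤ CL * (1 / 2 + CG) + CL + CG + (2 * CG + 8) * CB + 3 * CB := by
        have h2 : 0 ≤ CL * (1 / 2 + CG) := by positivity
        have h3 : 0 ≤ (2 * CG + 8) * CB := by positivity
        linarith
      have h4 : CB * (r / (h * nm ω) * VS b (PS w)) ≤
          (CL * (1 / 2 + CG) + CL + CG + (2 * CG + 8) * CB + 3 * CB) *
            (r / (h * nm ω) * VS b (PS w)) := mul_le_mul_of_nonneg_right h1 hP
      have h5 : CB * (i.1 * (w + 1) ^ 34) ≤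
          (CL * (1 / 2 + CG) + CL + CG + (2 * CG + 8) * CB + 3 * CB) *
            (i.1 * (w + 1) ^ 34) := mul_le_mul_of_nonneg_right h1 (mul_nonneg hq' hZ0)
      linarith
  · -- (C)
    intro q χ b w hq hw hχ
    have h1 : prim (1 : Gi) := by
      unfold prim
      simp
    exact (hMUL q χ 1 b (w + 1) (PS w) hq (hCHB q χ hq hχ).1 h1 (hSz w hw)).2.2
  · -- (D)
    intro b w
    constructor
    · unfold gg
      simp
    · unfold VQ VS
      congr 1
      rw [filter_eq_self]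
      intro p hp h1
      have h2 : p.Prime := by
        unfold PS at hp
        exact (mem_filter.1 hp).2.1
      exact h2.one_lt.ne' (Nat.dvd_one.1 h1)
  · -- (E)
    obtain ⟨c, hc, hc2⟩ := hGBB.2.2
    refine ⟨c, hc, fun b w hw => ?_⟩
    have h1 := hGBB.2.1 b (w + 1) (PS w) 1 (hSz w (by linarith))
    exact ⟨hc2 b (w + 1) (PS w) (by linarith) (hSz w (by linarith)), h1.1, h1.2.1⟩

end Pool.Agent.Lib.MP391708.XL
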