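import Pool.Agent.Lib.MP_391708_nt.X.SpecLS
import Pool.Agent.Lib.MP_391708_nt.MR.Basic

/-!
# THEOREM X (MP_391708), part LS, module LSR (helper21): the fundamental lemma on the line
-/

set_option autoImplicit false

namespace Pool.Agent.Lib.MP391708.XL

open Finset Filter Topology Pool.Agent.Lib.MP391708.MR
open Pool.Agent.Lib.MP391708.QPA (PB)
open Pool.Agent.Lib.MP391708.X (ChiG rgh hk)
open scoped ComplexConjugate

namespace LSRM

theorem per_dvd (hQT : SpecQT) {w : Gi} (hw0 : w ≠ 0) (n D b : ℤ) (Q : ℕ)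
    (hD : D = ((Q * nm w : ℕ) : ℤ)) : w ∣ pt (n + D) b ↔ w ∣ pt n b := by
  constructor
  · intro h
    have h1 := ((hQT w (n + D) b hw0 h).2 Q (-1)).1
    have h2 : n + D + ((Q * nm w : ℕ) : ℤ) * (-1) = n := by rw [hD]; ring
    rwa [h2] at h1
  · intro h
    have h1 := ((hQT w n b hw0 h).2 Q 1).1
    rwa [mul_one, ← hD] at h1

theorem per_qt (hQT : SpecQT) {w : Gi} (hw0 : w ≠ 0) (n D b : ℤ) (Q : ℕ)
    (hD : D = ((Q * nm w : ℕ) : ℤ)) (h : w ∣ pt n b) :
    ∃ y : Gi, qt w (n + D) b = qt w n b + (Q : Gi) * y := by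
  have h1 := ((hQT w n b hw0 h).2 Q 1).2
  rwa [mul_one, ← hD] at h1

theorem nm_add_mul (δ : ℕ) (v t : Gi) : δ ∣ nm (v + (δ : Gi) * t) ↔ δ ∣ nm v := by
  have h : ((nm (v + (δ : Gi) * t) : ℕ) : ℤ) = ((nm v : ℕ) : ℤ) +
      (δ : ℤ) * (2 * (v.re * t.re + v.im * t.im) + δ * (t.re ^ 2 + t.im ^ 2)) := by
    rw [nm_cast, nm_cast, Zsqrtd.re_add, Zsqrtd.im_add, Zsqrtd.re_mul, Zsqrtd.im_mul,
      Zsqrtd.re_natCast, Zsqrtd.im_natCast]
    ring
  rw [← Int.natCast_dvd_natCast, ← Int.natCast_dvd_natCast, h]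
  exact dvd_add_left (dvd_mul_right _ _)

theorem dvd_iff {δ m : ℕ} (hδ : Squarefree δ) : δ ∣ m ↔ ∀ p ∈ δ.primeFactors, p ∣ m := by
  constructor
  · intro h p hp
    exact (Nat.dvd_of_mem_primeFactors hp).trans h
  · intro h
    rw [← Nat.prod_primeFactors_of_squarefree hδ]
    exact Finset.prod_primes_dvd _ (fun p hp => (Nat.prime_of_mem_primeFactors hp).prime) h

end LSRM

open scoped Classical in
theorem specLSR (hGBB : SpecGBB) (hPER : SpecPER) (hDEN : SpecDEN) (hEQB : SpecEQB)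
    (hQT : SpecQT) : SpecLSR := by
  obtain ⟨C₀, hC₀, hFLW⟩ := QPA.specFLW 2 (by norm_num)
  refine ⟨2 * C₀, by positivity, ?_⟩
  intro u z S q F w b X X' hz hS hq hw hSw hF hXX
  obtain ⟨hE0, hEV, hE1⟩ := hEQB q F w b z S hq hw hS hSw hF
  obtain ⟨hFper, hF01, hFsup⟩ := hF
  have hw0 : w ≠ 0 := prim_ne_zero hw
  have hN : (0 : ℝ) < nm w := nm_posR hw0
  have hNn : 0 < nm w := nm_pos hw0
  have hqR : (0 : ℝ) < q := by exact_mod_cast hq
  have hz0 : 0 < z := by linarith
  obtain ⟨Y, hY⟩ : ∃ Y : ℝ, Y = (X' - X) / nm w * EE q F b w := ⟨_, rfl⟩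
  have hY0 : 0 ≤ Y := by
    rw [hY]
    have : 0 ≤ X' - X := by linarith
    positivity
  obtain ⟨a, ha⟩ : ∃ a : ℕ → ℤ → ℝ, a = fun p n =>
    if p ∈ S ∧ ¬ p ∣ q ∧ p ∣ nm (qt w n b) then 1 else 0 := ⟨_, rfl⟩
  obtain ⟨g, hg⟩ : ∃ g : ℕ → ℝ, g = fun p => if p ∈ S ∧ ¬ p ∣ q then gb b p else 0 := ⟨_, rfl⟩
  have ha1 : ∀ p n, p ∈ S → ¬ p ∣ q → p ∣ nm (qt w n b) → a p n = 1 := by
    intro p n h1 h2 h3
    rw [ha]
    exact if_pos ⟨h1, h2, h3⟩
  have ha0 : ∀ p n, ¬ (p ∈ S ∧ ¬ p ∣ q ∧ p ∣ nm (qt w n b)) → a p n = 0 := by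
    intro p n h
    rw [ha]
    exact if_neg h
  have ha01 : ∀ p n, 0 ≤ a p n ∧ a p n ≤ 1 := by
    intro p n
    rw [ha]
    dsimp only
    split_ifs
    · exact ⟨zero_le_one, le_refl 1⟩
    · exact ⟨le_refl 0, zero_le_one⟩
  have hg1 : ∀ p, p ∈ S → ¬ p ∣ q → g p = gb b p := by
    intro p h1 h2
    rw [hg]
    exact if_pos ⟨h1, h2⟩
  have hg0 : ∀ p, ¬ (p ∈ S ∧ ¬ p ∣ q) → g p = 0 := by
    intro p h
    rw [hg]
    exact if_neg h
  have hgb : ∀ p : ℕ, p.Prime → 0 ≤ g p ∧ g p ≤ 2 / (p : ℝ) ∧ g p ≤ 2 / 3 := by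
    intro p hp
    by_cases h : p ∈ S ∧ ¬ p ∣ q
    · rw [hg1 p h.1 h.2]
      exact hGBB.1 b p hp
    · rw [hg0 p h]
      exact ⟨le_refl 0, by positivity, by norm_num⟩
  have hmain := hFLW u z hz ℤ (LN w b X X') a (fun n => F (qt w n b)) Y g hY0
    (fun n _ => (hF01 _).1) (fun p _ n _ => ha01 p n) hgb
  -- membership in `PB z`
  have hPB : ∀ p ∈ S, p ∈ PB z := by
    intro p hp
    unfold QPA.PB
    rw [Finset.mem_filter, Finset.mem_range]
    exact ⟨Nat.lt_ceil.mpr (hS p hp).2, (hS p hp).1⟩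
  -- the product of the densities
  have hVQ : ∏ p ∈ PB z, (1 - g p) = VQ q b S := by
    unfold VQ
    symm
    have h1 : S.filter (fun p => ¬ p ∣ q) ⊆ PB z := fun p hp => hPB p (Finset.mem_filter.mp hp).1
    rw [← Finset.prod_subset h1]
    · refine Finset.prod_congr rfl fun p hp => ?_
      rw [Finset.mem_filter] at hp
      rw [hg1 p hp.1 hp.2]
    · intro p _ hp
      rw [Finset.mem_filter] at hp
      rw [hg0 p hp, sub_zero]
  -- the indicator
  have hind : ∀ n ∈ LN w b X X', F (qt w n b) * ∏ p ∈ PB z, (1 - a p n) =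
      if rg S (qt w n b) then F (qt w n b) else 0 := by
    intro n _
    by_cases hF0 : F (qt w n b) = 0
    · rw [hF0, zero_mul, ite_self]
    · have hcop := hFsup _ hF0
      by_cases hr : rg S (qt w n b)
      · rw [if_pos hr]
        have h1 : ∏ p ∈ PB z, (1 - a p n) = 1 := by
          refine Finset.prod_eq_one fun p _ => ?_
          rw [ha0 p n (fun h => hr p h.1 h.2.2), sub_zero]
        rw [h1, mul_one]
      · rw [if_neg hr]
        unfold rg at hr
        push Not at hr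
        obtain ⟨p, hpS, hpd⟩ := hr
        have hpq : ¬ p ∣ q := by
          intro h
          have h2 := Nat.dvd_gcd hpd h
          rw [hcop] at h2
          exact (hS p hpS).1.one_lt.ne' (Nat.dvd_one.mp h2)
        rw [Finset.prod_eq_zero (hPB p hpS) (by rw [ha1 p n hpS hpq hpd, sub_self]), mul_zero]
  rw [Finset.sum_congr rfl hind, hVQ] at hmain
  -- the remainders
  have hrem : ∀ δ ∈ QPA.FLW.Dset z u,
      |(∑ n ∈ LN w b X X', F (qt w n b) * ∏ p ∈ δ.primeFactors, a p n) -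
        Y * ∏ p ∈ δ.primeFactors, g p| ≤ 2 * q * z ^ (8 * u + 16) := by
    intro δ hδ
    unfold QPA.FLW.Dset at hδ
    rw [Finset.mem_filter, Finset.mem_Icc] at hδ
    obtain ⟨⟨hδ1, hδz⟩, hδsq, hδp⟩ := hδ
    have hδ0 : δ ≠ 0 := by omega
    have hδR : (δ : ℝ) ≤ z ^ (8 * u + 16) := by
      exact (Nat.le_floor_iff (by positivity)).mp hδz
    by_cases hgood : ∀ p ∈ δ.primeFactors, p ∈ S ∧ ¬ p ∣ q
    · have hcopD : Nat.Coprime δ (q * nm w) := by
        refine Nat.Coprime.mul_right ?_ ?_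
        · refine Nat.coprime_of_dvd fun p hp hpd hpq => ?_
          exact (hgood p (Nat.mem_primeFactors.mpr ⟨hp, hpd, hδ0⟩)).2 hpq
        · refine Nat.coprime_of_dvd fun p hp hpd hpw => ?_
          exact hSw p (hgood p (Nat.mem_primeFactors.mpr ⟨hp, hpd, hδ0⟩)).1 hpw
      have hDsum := hDEN q δ F w b hq hw0 hδsq hcopD hFper
      obtain ⟨G, hG⟩ : ∃ G : ℤ → ℝ, G = fun n =>
        if w ∣ pt n b ∧ δ ∣ nm (qt w n b) then F (qt w n b) else 0 := ⟨_, rfl⟩
      have hG0 : ∀ n, 0 ≤ G n := by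
        intro n
        rw [hG]
        dsimp only
        split_ifs
        · exact (hF01 _).1
        · exact le_refl 0
      have hGper : ∀ n, G (n + (q * nm w * δ : ℕ)) = G n := by
        intro n
        have hD : ((q * nm w * δ : ℕ) : ℤ) = (((q * δ) * nm w : ℕ) : ℤ) := by
          push_cast
          ring
        by_cases hwd : w ∣ pt n b
        · have h1 := (LSRM.per_dvd hQT hw0 n _ b (q * δ) hD).mpr hwd
          obtain ⟨y, hy⟩ := LSRM.per_qt hQT hw0 n _ b (q * δ) hD hwd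
          have hFy : F (qt w (n + (q * nm w * δ : ℕ)) b) = F (qt w n b) := by
            rw [hy]
            have h2 : qt w n b + ((q * δ : ℕ) : Gi) * y = qt w n b + (q : Gi) * ((δ : Gi) * y) := by
              push_cast
              ring
            rw [h2, hFper]
          have hdy : δ ∣ nm (qt w (n + (q * nm w * δ : ℕ)) b) ↔ δ ∣ nm (qt w n b) := by
            rw [hy]
            have h2 : qt w n b + ((q * δ : ℕ) : Gi) * y = qt w n b + (δ : Gi) * ((q : Gi) * y) := by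
              push_cast
              ring
            rw [h2, LSRM.nm_add_mul]
          rw [hG]
          dsimp only
          by_cases hδd : δ ∣ nm (qt w n b)
          · rw [if_pos ⟨h1, hdy.mpr hδd⟩, if_pos ⟨hwd, hδd⟩, hFy]
          · rw [if_neg (fun h => hδd (hdy.mp h.2)), if_neg (fun h => hδd h.2)]
        · have h1 : ¬ w ∣ pt (n + (q * nm w * δ : ℕ)) b := fun h =>
            hwd ((LSRM.per_dvd hQT hw0 n _ b (q * δ) hD).mp h)
          rw [hG]
          dsimp only
          rw [if_neg (fun h => h1 h.1), if_neg (fun h => hwd h.1)]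
      have hDpos : 0 < q * nm w * δ := by positivity
      have hP := hPER (q * nm w * δ) G X X' hDpos hG0 hGper hXX
      have hDG : ∑ n ∈ range (q * nm w * δ), G n = q * EE q F b w *
          ∏ p ∈ δ.primeFactors, ((p : ℝ) * gb b p) := by
        have h1 : ∑ n ∈ range (q * nm w * δ), G n =
            (∑ n ∈ range (q * nm w), if w ∣ pt n b then F (qt w n b) else 0) *
              ∏ p ∈ δ.primeFactors, ((p : ℝ) * gb b p) := by
          rw [hG]
          exact hDsum
        rw [h1]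
        unfold EE
        rw [← mul_assoc (q : ℝ), mul_one_div_cancel hqR.ne', one_mul]
      have hprodδ : (∏ p ∈ δ.primeFactors, (p : ℝ)) = δ := by
        rw [← Nat.cast_prod, Nat.prod_primeFactors_of_squarefree hδsq]
      have hsum : ∑ n ∈ LN w b X X', F (qt w n b) * ∏ p ∈ δ.primeFactors, a p n =
          ∑ n ∈ Ioc ⌊X⌋ ⌊X'⌋, G n := by
        unfold LN
        rw [Finset.sum_filter]
        refine Finset.sum_congr rfl fun n _ => ?_
        rw [hG]
        dsimp only
        by_cases hwd : w ∣ pt n b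
        · rw [if_pos hwd]
          by_cases hδd : δ ∣ nm (qt w n b)
          · rw [if_pos ⟨hwd, hδd⟩]
            have h1 : ∏ p ∈ δ.primeFactors, a p n = 1 := by
              refine Finset.prod_eq_one fun p hp => ?_
              exact ha1 p n (hgood p hp).1 (hgood p hp).2
                ((LSRM.dvd_iff hδsq).mp hδd p hp)
            rw [h1, mul_one]
          · rw [if_neg (fun h => hδd h.2)]
            rw [LSRM.dvd_iff hδsq] at hδd
            push Not at hδd
            obtain ⟨p, hp, hpd⟩ := hδd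
            rw [Finset.prod_eq_zero hp (ha0 p n (fun h => hpd h.2.2)), mul_zero]
        · rw [if_neg hwd, if_neg (fun h => hwd h.1)]
      have hmainterm : (X' - X) / ((q * nm w * δ : ℕ) : ℝ) * ∑ n ∈ range (q * nm w * δ), G n =
          Y * ∏ p ∈ δ.primeFactors, g p := by
        have h1 : ∏ p ∈ δ.primeFactors, g p = ∏ p ∈ δ.primeFactors, gb b p :=
          Finset.prod_congr rfl fun p hp => hg1 p (hgood p hp).1 (hgood p hp).2
        have hδR0 : (δ : ℝ) ≠ 0 := by exact_mod_cast hδ0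
        rw [hDG, h1, Finset.prod_mul_distrib, hprodδ, hY]
        push_cast
        field_simp
      rw [hsum, ← hmainterm]
      refine hP.trans ?_
      have hle : ∏ p ∈ δ.primeFactors, ((p : ℝ) * gb b p) ≤ δ := by
        rw [← hprodδ]
        refine Finset.prod_le_prod (fun p hp => ?_) (fun p hp => ?_)
        · have := (hGBB.1 b p (Nat.prime_of_mem_primeFactors hp)).1
          positivity
        · obtain ⟨h1, -, h2⟩ := hGBB.1 b p (Nat.prime_of_mem_primeFactors hp)
          have h3 : gb b p ≤ 1 := h2.trans (by norm_num)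
          have h4 : (0 : ℝ) ≤ p := by positivity
          nlinarith
      have hnn : 0 ≤ ∏ p ∈ δ.primeFactors, ((p : ℝ) * gb b p) :=
        Finset.prod_nonneg fun p hp => by
          have := (hGBB.1 b p (Nat.prime_of_mem_primeFactors hp)).1
          positivity
      rw [hDG]
      calc 2 * (q * EE q F b w * ∏ p ∈ δ.primeFactors, ((p : ℝ) * gb b p)) ≤
            2 * (q * 1 * z ^ (8 * u + 16)) := by
            have h1 := hle.trans hδR
            gcongr
        _ = 2 * q * z ^ (8 * u + 16) := by ring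
    · push Not at hgood
      obtain ⟨p, hp, hpn⟩ := hgood
      have hbad : ¬ (p ∈ S ∧ ¬ p ∣ q) := fun h => h.2 (hpn h.1)
      have h1 : ∀ n ∈ LN w b X X', F (qt w n b) * ∏ p ∈ δ.primeFactors, a p n = 0 := by
        intro n _
        rw [Finset.prod_eq_zero hp (ha0 p n (fun h => hbad ⟨h.1, h.2.1⟩)), mul_zero]
      rw [Finset.sum_eq_zero h1, Finset.prod_eq_zero hp (hg0 p hbad), mul_zero, sub_zero, abs_zero]
      positivity
  have hcard : ((QPA.FLW.Dset z u).card : ℝ) ≤ z ^ (8 * u + 16) := by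
    unfold QPA.FLW.Dset
    have h1 := Finset.card_filter_le (Icc 1 ⌊z ^ (8 * u + 16)⌋₊)
      (fun δ => Squarefree δ ∧ ∀ p : ℕ, p.Prime → p ∣ δ → (p : ℝ) < z)
    rw [Nat.card_Icc, Nat.add_sub_cancel] at h1
    refine le_trans ?_ (Nat.floor_le (by positivity : (0 : ℝ) ≤ z ^ (8 * u + 16)))
    exact_mod_cast h1
  have hsumrem : ∑ δ ∈ QPA.FLW.Dset z u,
      |(∑ n ∈ LN w b X X', F (qt w n b) * ∏ p ∈ δ.primeFactors, a p n) -
        Y * ∏ p ∈ δ.primeFactors, g p| ≤ 2 * q * z ^ (16 * u + 32) := by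
    refine (Finset.sum_le_sum hrem).trans ?_
    rw [Finset.sum_const, nsmul_eq_mul]
    calc ((QPA.FLW.Dset z u).card : ℝ) * (2 * q * z ^ (8 * u + 16)) ≤
          z ^ (8 * u + 16) * (2 * q * z ^ (8 * u + 16)) := by gcongr
      _ = 2 * q * z ^ (16 * u + 32) := by ring
  have hlog : 1 + Real.log z ≤ z := by
    have := Real.log_le_sub_one_of_pos hz0
    linarith
  have hlog0 : 0 ≤ Real.log z := Real.log_nonneg (by linarith)
  have hVQ0 : 0 < VQ q b S := (hGBB.2.1 b z S q hS).2.2.1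
  have hYe : (X' - X) / nm w * EE q F b w * VQ q b S = Y * VQ q b S := by rw [hY]
  rw [hYe]
  refine hmain.trans ?_
  have h1 : C₀ * Real.exp (-(u : ℝ)) * Y * VQ q b S ≤
      2 * C₀ * Real.exp (-(u : ℝ)) * ((X' - X) / nm w) * (EE q F b w * VQ q b S) := by
    have h2 : 2 * C₀ * Real.exp (-(u : ℝ)) * ((X' - X) / nm w) * (EE q F b w * VQ q b S) =
        2 * (C₀ * Real.exp (-(u : ℝ)) * Y * VQ q b S) := by
      rw [hY]
      ring
    have h3 : 0 ≤ C₀ * Real.exp (-(u : ℝ)) * Y * VQ q b S := by positivity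
    linarith
  have h4 : C₀ * (1 + Real.log z) * ∑ δ ∈ QPA.FLW.Dset z u,
      |(∑ n ∈ LN w b X X', F (qt w n b) * ∏ p ∈ δ.primeFactors, a p n) -
        Y * ∏ p ∈ δ.primeFactors, g p| ≤ 2 * C₀ * q * z ^ (16 * u + 34) := by
    calc _ ≤ C₀ * z * (2 * q * z ^ (16 * u + 32)) := by gcongr
      _ = 2 * C₀ * q * z ^ (16 * u + 33) := by ring
      _ ≤ 2 * C₀ * q * z ^ (16 * u + 34) := by
          have h5 : z ^ (16 * u + 33) ≤ z ^ (16 * u + 34) :=
            pow_le_pow_right₀ (by linarith) (by omega)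
          gcongr
  exact add_le_add h1 h4

end Pool.Agent.Lib.MP391708.XL
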