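import Pool.Agent.Lib.MP_391708_nt.X.SpecLS

/-!
# THEOREM X (MP_391708), part LS, module MUL (helper80)

The average of a character over the points of a line, and the trivial bounds.
-/

set_option autoImplicit false

namespace Pool.Agent.Lib.MP391708.XL

open Finset Filter Topology Pool.Agent.Lib.MP391708.MR
open Pool.Agent.Lib.MP391708.QPA (PB)
open Pool.Agent.Lib.MP391708.X (ChiG rgh hk)
open scoped ComplexConjugate

namespace MULM

theorem prim_ne {w : Gi} (h : prim w) : w ≠ 0 := by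
  rintro rfl
  have h1 : Int.gcd (0 : Gi).re (0 : Gi).im = 1 := h
  simp at h1

theorem nm_one : nm (1 : Gi) = 1 := by
  simp [nm]

theorem prim_one : prim (1 : Gi) := by
  simp [prim]

theorem rg_one {S : Finset ℕ} {z : ℝ} (h : Sz S z) : rg S (1 : Gi) := by
  intro p hp hd
  rw [nm_one, Nat.dvd_one] at hd
  exact (h p hp).1.one_lt.ne' hd

theorem pt_add (n : ℤ) (q : ℕ) (b : ℤ) : pt (n + q) b = pt n b + (q : Gi) * 1 := by
  apply Zsqrtd.ext
  · simp [pt]
  · simp [pt]

/-- exactly one element of `range N` is congruent to `n₀` -/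
theorem sum_one (N : ℕ) (hN : 0 < N) (n₀ : ℤ) (P : ℤ → Prop) [DecidablePred P]
    (hP : ∀ n : ℤ, P n ↔ (N : ℤ) ∣ n - n₀) :
    ∑ n ∈ range N, (if P (n : ℤ) then (1 : ℂ) else 0) = 1 := by
  have hN' : (0 : ℤ) < N := by exact_mod_cast hN
  have h0 : 0 ≤ n₀ % (N : ℤ) := Int.emod_nonneg _ hN'.ne'
  have h1 : n₀ % (N : ℤ) < N := Int.emod_lt_of_pos _ hN'
  obtain ⟨m, hm⟩ := Int.eq_ofNat_of_zero_le h0
  have hmN : m < N := by
    have : (m : ℤ) < N := by rw [← hm]; exact h1
    exact_mod_cast this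
  rw [Finset.sum_eq_single m]
  · rw [if_pos]
    rw [hP, ← hm, ← Int.neg_sub, Int.dvd_neg]
    exact Int.dvd_self_sub_emod
  · intro n hn hne
    rw [if_neg]
    intro hd
    rw [hP] at hd
    apply hne
    have h2 : (n : ℤ) % N = n₀ % N := (Int.emod_emod_of_dvd _ (dvd_refl (N : ℤ))).symm.trans (by
      have := Int.emod_eq_emod_iff_emod_sub_eq_zero.2 (Int.emod_eq_zero_of_dvd hd)
      rw [Int.emod_emod_of_dvd _ (dvd_refl (N : ℤ))]
      exact this)
    have h3 : (n : ℤ) % N = n :=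
      Int.emod_eq_of_lt (by positivity) (by exact_mod_cast Finset.mem_range.1 hn)
    rw [h3, hm] at h2
    exact_mod_cast h2
  · intro h
    exact absurd (Finset.mem_range.2 hmN) h

/-- the norms of the values of a character -/
theorem supNorm {q : ℕ} {χ : Gi → ℂ} (h : Ch q χ) : Sup q (fun v => ‖χ v‖) := by
  refine ⟨fun x y => by simp only [h.per x y], fun v => ⟨norm_nonneg _, ?_⟩, fun v hv => ?_⟩
  · by_cases hv : χ v = 0
    · simp [hv]
    · exact (h.nrm v (h.sup v hv)).le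
  · exact h.sup v (norm_ne_zero_iff.1 hv)

theorem norm_EC_le (q : ℕ) (χ : Gi → ℂ) (b : ℤ) (w : Gi) :
    ‖EC q (fun v => conj (χ v)) b w‖ ≤ EE q (fun v => ‖χ v‖) b w := by
  unfold EC EE
  rw [norm_mul]
  have h1 : ‖(1 / (q : ℂ))‖ = 1 / (q : ℝ) := by
    rw [norm_div, norm_one, Complex.norm_natCast]
  rw [h1]
  refine mul_le_mul_of_nonneg_left ?_ (by positivity)
  refine (norm_sum_le _ _).trans (Finset.sum_le_sum fun n _ => ?_)
  split_ifs
  · rw [RCLike.norm_conj]
  · rw [norm_zero]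

theorem gb_le_one (b : ℤ) (p : ℕ) : gb b p ≤ 1 := by
  unfold gb
  refine div_le_one_of_le₀ ?_ (Nat.cast_nonneg p)
  have := Finset.card_filter_le (range p) (fun n : ℕ => p ∣ nm (pt n b))
  rw [Finset.card_range] at this
  exact_mod_cast this

theorem VQ_nonneg (q : ℕ) (b : ℤ) (S : Finset ℕ) : 0 ≤ VQ q b S := by
  unfold VQ
  exact Finset.prod_nonneg fun p _ => sub_nonneg.2 (gb_le_one b p)

end MULM

open MULM in
/-- Module MUL. -/
theorem specMUL (hC : SpecCRT2) (hL : SpecCLS) (hQ : SpecQT) (hE : SpecEQB) : SpecMUL := by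
  have part1 : ∀ (q : ℕ) (χ : Gi → ℂ) (w : Gi) (b : ℤ), 0 < q → Ch q χ → prim w →
      Nat.Coprime (nm w) q → EC q (fun v => conj (χ v)) b w = χ w * gg χ q b := by
    intro q χ w b hq hχ hw hcop
    obtain ⟨hN, n₀, hn₀⟩ := hL w b hw
    have hw0 := prim_ne hw
    have hnrm : χ w * conj (χ w) = 1 := by
      rw [RCLike.mul_conj, hχ.nrm w hcop]
      norm_num
    classical
    have hkey : ∀ n : ℤ, (if w ∣ pt n b then conj (χ (qt w n b)) else 0) =
        χ w * (conj (χ (pt n b)) * (if w ∣ pt n b then (1 : ℂ) else 0)) := by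
      intro n
      split_ifs with h
      · obtain ⟨⟨h1, -⟩, -⟩ := hQ w n b hw0 h
        rw [← h1, hχ.mul, map_mul, mul_one, ← mul_assoc, hnrm, one_mul]
      · rw [mul_zero, mul_zero]
    have hg : ∑ n ∈ range (nm w), (if w ∣ pt (n : ℤ) b then (1 : ℂ) else 0) = 1 :=
      sum_one (nm w) hN n₀ (fun n => w ∣ pt n b) hn₀
    have hcrt := hC ℂ q (nm w) (fun n => conj (χ (pt n b)))
      (fun n => if w ∣ pt n b then (1 : ℂ) else 0) hq hN hcop.symm
      (fun n => by
        show conj (χ (pt (n + q) b)) = conj (χ (pt n b))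
        rw [pt_add, hχ.per])
      (fun n => by
        have : w ∣ pt (n + nm w) b ↔ w ∣ pt n b := by
          rw [hn₀, hn₀, show n + (nm w : ℤ) - n₀ = (n - n₀) + (nm w : ℤ) by ring]
          exact dvd_add_self_right
        show (if w ∣ pt (n + nm w) b then (1 : ℂ) else 0) = if w ∣ pt n b then (1 : ℂ) else 0
        simp only [this])
    have hsum : ∑ n ∈ range (q * nm w), (if w ∣ pt (n : ℤ) b then conj (χ (qt w n b)) else 0) =
        χ w * ∑ n ∈ range q, conj (χ (pt (n : ℤ) b)) := by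
      calc ∑ n ∈ range (q * nm w), (if w ∣ pt (n : ℤ) b then conj (χ (qt w n b)) else 0)
          = ∑ n ∈ range (q * nm w),
              χ w * (conj (χ (pt (n : ℤ) b)) * (if w ∣ pt (n : ℤ) b then (1 : ℂ) else 0)) :=
            Finset.sum_congr rfl fun n _ => hkey n
        _ = χ w * ∑ n ∈ range (q * nm w),
              (conj (χ (pt (n : ℤ) b)) * (if w ∣ pt (n : ℤ) b then (1 : ℂ) else 0)) := by
            rw [Finset.mul_sum]
        _ = χ w * ∑ n ∈ range q, conj (χ (pt (n : ℤ) b)) := by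
            rw [hcrt, hg, mul_one]
    have e1 : EC q (fun v => conj (χ v)) b w = (1 / (q : ℂ)) *
        ∑ n ∈ range (q * nm w), (if w ∣ pt (n : ℤ) b then conj (χ (qt w n b)) else 0) := by
      unfold EC
      congr 1
    rw [e1, hsum]
    unfold gg
    ring
  have part2 : ∀ (q : ℕ) (χ : Gi → ℂ) (w : Gi) (b : ℤ) (z : ℝ) (S : Finset ℕ), 0 < q → Ch q χ →
      prim w → Sz S z → rg S w → ‖EC q (fun v => conj (χ v)) b w‖ * VQ q b S ≤ VS b S ∧
      ‖EC q (fun v => conj (χ v)) b w‖ ≤ 1 := by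
    intro q χ w b z S hq hχ hw hS hr
    obtain ⟨-, h2, h3⟩ := hE q (fun v => ‖χ v‖) w b z S hq hw hS hr (supNorm hχ)
    have h4 := norm_EC_le q χ b w
    exact ⟨(mul_le_mul_of_nonneg_right h4 (VQ_nonneg q b S)).trans h2, h4.trans h3⟩
  intro q χ w b z S hq hχ hw hS
  refine ⟨part1 q χ w b hq hχ hw, fun hr => (part2 q χ w b z S hq hχ hw hS hr).1, ?_⟩
  have hcop : Nat.Coprime (nm (1 : Gi)) q := by
    rw [nm_one]
    exact Nat.coprime_one_left q
  have h1 := part1 q χ 1 b hq hχ prim_one hcop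
  have h2 : ‖EC q (fun v => conj (χ v)) b 1‖ = ‖gg χ q b‖ := by
    rw [h1, norm_mul, hχ.nrm 1 hcop, one_mul]
  have h3 := part2 q χ 1 b z S hq hχ prim_one hS (rg_one hS)
  rw [h2] at h3
  exact h3

end Pool.Agent.Lib.MP391708.XL
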