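import Pool.Agent.Lib.MP_391708_nt.X.SpecLS

/-!
# THEOREM X (MP_391708), module PER: periodic functions on intervals (helper77)
-/

set_option autoImplicit false

namespace Pool.Agent.Lib.MP391708.XL

open Finset Filter Topology Pool.Agent.Lib.MP391708.MR
open Pool.Agent.Lib.MP391708.QPA (PB)
open Pool.Agent.Lib.MP391708.X (ChiG rgh hk)
open scoped ComplexConjugate

namespace PERM

/-- The sum over a window of one period does not depend on the window. -/
lemma window {D : ℕ} {G : ℤ → ℝ} (hp : ∀ n, G (n + D) = G n) (a : ℤ) :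
    ∑ n ∈ range D, G (a + n) = ∑ n ∈ range D, G n := by
  have step : ∀ a : ℤ, ∑ n ∈ range D, G (a + 1 + n) = ∑ n ∈ range D, G (a + n) := by
    intro a
    have h1 : ∑ n ∈ range (D + 1), G (a + n) = ∑ n ∈ range D, G (a + n) + G (a + D) :=
      Finset.sum_range_succ _ _
    have h2 : ∑ n ∈ range (D + 1), G (a + n) = ∑ n ∈ range D, G (a + 1 + n) + G a := by
      rw [Finset.sum_range_succ']
      congr 1
      · refine Finset.sum_congr rfl fun n _ => ?_
        congr 1
        push_cast
        ring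
      · congr 1
        push_cast
        ring
    have h3 := hp a
    linarith
  induction a using Int.induction_on with
  | zero => simp
  | succ i ih => rw [step, ih]
  | pred i ih =>
    have := step (-(i : ℤ) - 1)
    rw [sub_add_cancel] at this
    rw [← this, ih]

lemma bound {D : ℕ} {G : ℤ → ℝ} (hD : 0 < D) (h0 : ∀ n, 0 ≤ G n) (hp : ∀ n, G (n + D) = G n)
    (a : ℤ) (L : ℕ) :
    |∑ n ∈ range L, G (a + n) - (L : ℝ) / D * ∑ n ∈ range D, G n| ≤ ∑ n ∈ range D, G n := by
  have hS : 0 ≤ ∑ n ∈ range D, G n := Finset.sum_nonneg fun n _ => h0 n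
  have hDr : (0 : ℝ) < D := by exact_mod_cast hD
  induction L using Nat.strong_induction_on with
  | _ L ih =>
    rcases lt_or_ge L D with h | h
    · have h1 : 0 ≤ ∑ n ∈ range L, G (a + n) := Finset.sum_nonneg fun n _ => h0 _
      have h2 : ∑ n ∈ range L, G (a + n) ≤ ∑ n ∈ range D, G n := by
        rw [← window hp a]
        exact Finset.sum_le_sum_of_subset_of_nonneg (Finset.range_subset_range.2 h.le)
          fun n _ _ => h0 _
      have h3 : 0 ≤ (L : ℝ) / D := by positivity
      have h4 : (L : ℝ) / D ≤ 1 := by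
        rw [div_le_one hDr]
        exact_mod_cast h.le
      have h5 : 0 ≤ (L : ℝ) / D * ∑ n ∈ range D, G n := mul_nonneg h3 hS
      have h6 : (L : ℝ) / D * ∑ n ∈ range D, G n ≤ ∑ n ∈ range D, G n :=
        mul_le_of_le_one_left hS h4
      rw [abs_le]
      constructor <;> linarith
    · obtain ⟨M, rfl⟩ := Nat.exists_eq_add_of_le' h
      have h1 := ih M (by omega)
      have h2 : ∑ n ∈ range (M + D), G (a + n) =
          ∑ n ∈ range M, G (a + n) + ∑ n ∈ range D, G n := by
        rw [Finset.sum_range_add, ← window hp (a + M)]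
        congr 1
        refine Finset.sum_congr rfl fun n _ => ?_
        congr 1
        push_cast
        ring
      have h3 : ((M + D : ℕ) : ℝ) / D * ∑ n ∈ range D, G n =
          (M : ℝ) / D * ∑ n ∈ range D, G n + ∑ n ∈ range D, G n := by
        push_cast
        rw [add_div, div_self hDr.ne', add_mul, one_mul]
      rw [h2, h3, add_sub_add_right_eq_sub]
      exact h1

end PERM

open PERM

/-- **PER**. -/
theorem specPER : SpecPER := by
  intro D G X X' hD h0 hp hX
  have hS : 0 ≤ ∑ n ∈ range D, G n := Finset.sum_nonneg fun n _ => h0 n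
  have hDr : (0 : ℝ) < D := by exact_mod_cast hD
  have hD1 : (1 : ℝ) ≤ D := by exact_mod_cast hD
  have hfl : ⌊X⌋ ≤ ⌊X'⌋ := Int.floor_mono hX
  obtain ⟨L, hL⟩ := Int.eq_ofNat_of_zero_le (sub_nonneg.2 hfl)
  have hL' : ⌊X'⌋ = ⌊X⌋ + L := by omega
  have e1 : ∑ n ∈ Ioc ⌊X⌋ ⌊X'⌋, G n = ∑ n ∈ range L, G (⌊X⌋ + 1 + n) := by
    symm
    refine Finset.sum_bij (fun (n : ℕ) _ => ⌊X⌋ + 1 + (n : ℤ)) ?_ ?_ ?_ ?_
    · intro n hn
      rw [Finset.mem_range] at hn
      rw [Finset.mem_Ioc]
      omega
    · intro n _ m _ h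
      omega
    · intro m hm
      rw [Finset.mem_Ioc] at hm
      refine ⟨(m - (⌊X⌋ + 1)).toNat, ?_, ?_⟩
      · rw [Finset.mem_range]
        omega
      · omega
    · intro n _
      rfl
  have e2 := bound hD h0 hp (⌊X⌋ + 1) L
  have e3 : |(L : ℝ) - (X' - X)| ≤ 1 := by
    have h1 := Int.floor_le X
    have h2 := Int.lt_floor_add_one X
    have h3 := Int.floor_le X'
    have h4 := Int.lt_floor_add_one X'
    have h5 : ((⌊X'⌋ : ℤ) : ℝ) = (⌊X⌋ : ℝ) + L := by
      rw [hL']
      push_cast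
      ring
    rw [abs_le]
    constructor <;> linarith
  have e4 : |(L : ℝ) / D * ∑ n ∈ range D, G n - (X' - X) / D * ∑ n ∈ range D, G n| ≤
      ∑ n ∈ range D, G n := by
    rw [← sub_mul, ← sub_div, abs_mul, abs_of_nonneg hS, abs_div, abs_of_pos hDr]
    refine mul_le_of_le_one_left hS ?_
    rw [div_le_one hDr]
    exact e3.trans hD1
  rw [e1]
  have e5 := abs_sub_le (∑ n ∈ range L, G (⌊X⌋ + 1 + n)) ((L : ℝ) / D * ∑ n ∈ range D, G n)
    ((X' - X) / D * ∑ n ∈ range D, G n)
  linarith

end Pool.Agent.Lib.MP391708.XL
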