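import Pool.Agent.Lib.MP_391708_nt.X.SpecLS

/-!
THEOREM X (MP_391708), part LS, module PHA: the phase on a short piece of the line.
-/

set_option autoImplicit false

namespace Pool.Agent.Lib.MP391708.XL

open Finset Filter Topology Pool.Agent.Lib.MP391708.MR
open scoped ComplexConjugate

namespace PHAM

theorem exp_diff (α β : ℝ) :
    ‖Complex.exp (Complex.I * α) - Complex.exp (Complex.I * β)‖ ≤ |α - β| := by
  have h1 : Complex.exp (Complex.I * α) - Complex.exp (Complex.I * β) =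
      Complex.exp (Complex.I * β) * (Complex.exp (Complex.I * ((α - β : ℝ) : ℂ)) - 1) := by
    rw [mul_sub, ← Complex.exp_add, mul_one]
    congr 2
    push_cast
    ring
  have h2 : ‖Complex.exp (Complex.I * β)‖ = 1 := by
    rw [mul_comm]; exact Complex.norm_exp_ofReal_mul_I β
  rw [h1, norm_mul, h2, one_mul, ← Real.norm_eq_abs]
  exact Real.norm_exp_I_mul_ofReal_sub_one_le

/-- the argument in the first quadrant -/
theorem arg_bound (x y : ℝ) (hx : 0 < x) (hy : 0 ≤ y) :
    |Complex.arg (⟨x, y⟩ : ℂ) - y / x| ≤ (y / x) ^ 3 := by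
  set θ := Complex.arg (⟨x, y⟩ : ℂ) with hθ
  have h0 : 0 ≤ θ := Complex.arg_nonneg_iff.2 hy
  have h1 : |θ| < Real.pi / 2 := Complex.abs_arg_lt_pi_div_two_iff.2 (Or.inl hx)
  rw [abs_of_nonneg h0] at h1
  have ht : Real.tan θ = y / x := Complex.tan_arg _
  have hc : 0 < Real.cos θ := Real.cos_pos_of_mem_Ioo ⟨by linarith, h1⟩
  have hc1 : Real.cos θ ≤ 1 := Real.cos_le_one θ
  have hs : Real.sin θ ≤ θ := Real.sin_le h0
  have hs0 : 0 ≤ Real.sin θ := Real.sin_nonneg_of_nonneg_of_le_pi h0 (by linarith [Real.pi_pos])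
  have hsc := Real.sin_sq_add_cos_sq θ
  have hle : θ ≤ Real.tan θ := Real.le_tan h0 h1
  rw [← ht, abs_sub_comm, abs_of_nonneg (by linarith)]
  have h2 : Real.tan θ - θ ≤ Real.tan θ - Real.sin θ := by linarith
  refine h2.trans ?_
  rw [Real.tan_eq_sin_div_cos]
  have h3 : Real.sin θ / Real.cos θ - Real.sin θ =
      Real.sin θ * (1 - Real.cos θ) / Real.cos θ := by
    field_simp
  have h4 : (Real.sin θ / Real.cos θ) ^ 3 = Real.sin θ ^ 3 / Real.cos θ ^ 2 / Real.cos θ := by
    field_simp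
  rw [h3, h4]
  apply div_le_div_of_nonneg_right _ hc.le
  have h5 : Real.sin θ * (1 - Real.cos θ) ≤ Real.sin θ ^ 3 := by
    have h6 : 1 - Real.cos θ ≤ Real.sin θ ^ 2 := by nlinarith
    calc Real.sin θ * (1 - Real.cos θ) ≤ Real.sin θ * Real.sin θ ^ 2 :=
          mul_le_mul_of_nonneg_left h6 hs0
      _ = Real.sin θ ^ 3 := by ring
  refine h5.trans ?_
  rw [le_div_iff₀ (by positivity)]
  have h7 : Real.cos θ ^ 2 ≤ 1 := by nlinarith
  have h8 : 0 ≤ Real.sin θ ^ 3 := by positivity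
  nlinarith

end PHAM

open PHAM

theorem specPHA : SpecPHA := by
  intro k n b r hn hb hr
  have hn' : (0 : ℝ) < (n : ℝ) := by exact_mod_cast hn
  have hb' : (0 : ℝ) ≤ (b : ℝ) := by exact_mod_cast hb
  set z : ℂ := ⟨(n : ℝ), (b : ℝ)⟩ with hz
  have hzc : GaussianInt.toComplex (pt n b) = z := by
    rw [GaussianInt.toComplex_def]
    apply Complex.ext <;> simp [pt, hz]
  have hz0 : z ≠ 0 := by
    intro h
    have := congrArg Complex.re h
    simp [hz] at this
    omega
  have hnz : ((‖z‖ : ℝ) : ℂ) ≠ 0 := by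
    rw [Complex.ofReal_ne_zero]
    exact norm_ne_zero_iff.2 hz0
  have hdir : dir (pt n b) = Complex.exp (Complex.I * (Complex.arg z : ℝ)) := by
    unfold dir
    rw [hzc, div_eq_iff hnz, mul_comm (Complex.exp _), mul_comm Complex.I]
    exact (Complex.norm_mul_exp_arg_mul_I z).symm
  have hxi : xi k (pt n b) = Complex.exp (Complex.I * ((k * Complex.arg z : ℝ) : ℂ)) := by
    unfold xi
    rw [hdir, ← Complex.exp_int_mul]
    congr 1
    push_cast
    ring
  have hex : Complex.exp (Complex.I * k * b / r) =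
      Complex.exp (Complex.I * ((k * (b / r) : ℝ) : ℂ)) := by
    congr 1
    push_cast
    ring
  rw [hxi, hex]
  refine (exp_diff _ _).trans ?_
  rw [← mul_sub, abs_mul]
  refine mul_le_mul_of_nonneg_left ?_ (abs_nonneg _)
  have h1 := arg_bound n b hn' hb'
  have h2 : |(b : ℝ) / n - b / r| = b * |(n : ℝ) - r| / (n * r) := by
    have h3 : (b : ℝ) / n - b / r = b * (r - n) / (n * r) := by
      field_simp
    rw [h3, abs_div, abs_mul, abs_of_nonneg hb', abs_of_pos (mul_pos hn' hr), abs_sub_comm]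
  calc |Complex.arg z - (b : ℝ) / r|
      = |(Complex.arg z - (b : ℝ) / n) + ((b : ℝ) / n - b / r)| := by congr 1; ring
    _ ≤ |Complex.arg z - (b : ℝ) / n| + |(b : ℝ) / n - b / r| := abs_add_le _ _
    _ ≤ ((b : ℝ) / n) ^ 3 + b * |(n : ℝ) - r| / (n * r) := add_le_add h1 h2.le
    _ = b * |(n : ℝ) - r| / (n * r) + ((b : ℝ) / n) ^ 3 := add_comm _ _

end Pool.Agent.Lib.MP391708.XL
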