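import Pool.Agent.Lib.MP_391708_nt.X.SpecLS

/-!
# THEOREM X, part LS, module QT: elementary facts on the quotients
-/

set_option autoImplicit false

namespace Pool.Agent.Lib.MP391708.XL

open Finset Pool.Agent.Lib.MP391708.MR

theorem QTM.nm_eq (z : Gi) : nm z = (Zsqrtd.norm z).natAbs := by
  unfold nm
  congr 1
  rw [Zsqrtd.norm_def]
  ring

/-- Elementary facts on the quotients. -/
theorem specQT : SpecQT := by
  intro w n b hw hd
  have h1 : w * qt w n b = pt n b := by
    obtain ⟨c, hc⟩ := hd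
    unfold qt
    rw [hc, mul_div_cancel_left₀ c hw]
  refine ⟨⟨h1, ?_⟩, ?_⟩
  · rw [← h1, QTM.nm_eq, QTM.nm_eq, QTM.nm_eq, Zsqrtd.norm_mul, Int.natAbs_mul]
  · intro q t
    have hnm : ((nm w : ℕ) : Gi) = w * star w := by
      have h2 := Zsqrtd.norm_eq_mul_conj w
      rw [← h2, QTM.nm_eq]
      have h3 : ((w.norm.natAbs : ℕ) : ℤ) = w.norm :=
        Int.natAbs_of_nonneg (GaussianInt.norm_nonneg w)
      rw [← Int.cast_natCast, h3]
    have h4 : pt (n + (q * nm w : ℕ) * t) b = w * (qt w n b + (q : Gi) * (star w * (t : Gi))) := by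
      have h5 : pt (n + (q * nm w : ℕ) * t) b = pt n b + (((q * nm w : ℕ) : ℤ) * t : ℤ) := by
        unfold pt
        ext
        · simp
        · simp
      rw [h5, mul_add, h1]
      push_cast
      rw [hnm]
      ring
    refine ⟨⟨_, h4⟩, star w * (t : Gi), ?_⟩
    have h6 : qt w (n + (q * nm w : ℕ) * t) b = pt (n + (q * nm w : ℕ) * t) b / w := rfl
    rw [h6, h4, mul_div_cancel_left₀ _ hw]

end Pool.Agent.Lib.MP391708.XL
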