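import Pool.Agent.Lib.MP_391708_nt.X.SpecLS
import Pool.Agent.Lib.MP_391708_nt.MR.Basic

/-!
# THEOREM X (MP_391708), part LS: module RGB (helper58)

`rgh w` in terms of rational primes.
-/

set_option autoImplicit false

namespace Pool.Agent.Lib.MP391708.XL

open Finset Filter Topology Pool.Agent.Lib.MP391708.MR
open Pool.Agent.Lib.MP391708.X (ChiG rgh hk)
open scoped ComplexConjugate

namespace RGBM

lemma nm_star (v : Gi) : nm (star v) = nm v := by
  unfold nm
  simp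

lemma star_mul_cast (v : Gi) : ((nm v : ℕ) : Gi) = v * star v := by
  have h1 : ((nm v : ℕ) : ℤ) = Zsqrtd.norm v := by
    rw [nm_cast, Zsqrtd.norm_def]
    ring
  have h2 : ((nm v : ℕ) : Gi) = ((Zsqrtd.norm v : ℤ) : Gi) := by
    rw [← h1]
    push_cast
    rfl
  rw [h2]
  exact Zsqrtd.norm_eq_mul_conj v

lemma nm_natCast (p : ℕ) : nm (p : Gi) = p ^ 2 := by
  have h : ((nm (p : Gi) : ℕ) : ℤ) = (p : ℤ) ^ 2 := by
    rw [nm_cast]
    simp
  exact_mod_cast h

lemma star_dvd {x y : Gi} (h : x ∣ y) : star x ∣ star y := by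
  obtain ⟨c, rfl⟩ := h
  exact ⟨star c, by rw [star_mul']⟩

/-- a Gaussian prime over a rational prime which divides the norm -/
lemma ex_prime (p : ℕ) (hp : p.Prime) (v : Gi) (h : p ∣ nm v) :
    ∃ π : Gi, Prime π ∧ π ∣ v ∧ (p % 4 ≠ 3 → nm π = p) ∧ (p % 4 = 3 → nm π = p ^ 2) := by
  have : Fact p.Prime := ⟨hp⟩
  have hd : (p : Gi) ∣ v * star v := by
    rw [← star_mul_cast]
    exact_mod_cast (Nat.cast_dvd_cast (α := Gi) h)
  by_cases h3 : p % 4 = 3
  · have hpi : Prime (p : Gi) := GaussianInt.prime_of_nat_prime_of_mod_four_eq_three p h3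
    refine ⟨p, hpi, ?_, fun h => absurd h3 h, fun _ => nm_natCast p⟩
    rcases hpi.dvd_or_dvd hd with h1 | h1
    · exact h1
    · have h2 := star_dvd h1
      rw [star_star] at h2
      simpa using h2
  · obtain ⟨a, b, hab⟩ := Nat.Prime.sq_add_sq (p := p) h3
    have hn : nm (⟨a, b⟩ : Gi) = p := by
      have h1 : ((nm (⟨a, b⟩ : Gi) : ℕ) : ℤ) = (p : ℤ) := by
        rw [nm_cast, ← hab]
        push_cast
        rfl
      exact_mod_cast h1
    have hpi : Prime (⟨a, b⟩ : Gi) := prime_of_nm_prime (by rw [hn]; exact hp)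
    have hd2 : (⟨a, b⟩ : Gi) ∣ v * star v := by
      refine dvd_trans ?_ hd
      refine ⟨star ⟨a, b⟩, ?_⟩
      rw [← star_mul_cast, hn]
    rcases hpi.dvd_or_dvd hd2 with h1 | h1
    · exact ⟨_, hpi, h1, fun _ => hn, fun h => absurd h h3⟩
    · have h2 := star_dvd h1
      rw [star_star] at h2
      refine ⟨star ⟨a, b⟩, ?_, h2, fun _ => ?_, fun h => absurd h h3⟩
      · exact prime_of_nm_prime (by rw [nm_star, hn]; exact hp)
      · rw [nm_star, hn]

/-- a rational prime under a Gaussian prime -/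
lemma ex_nat (π : Gi) (hπ : Prime π) : ∃ p : ℕ, p.Prime ∧ p ∣ nm π ∧
    (p % 4 = 3 → nm π = p ^ 2) := by
  have h1 : π ∣ ((nm π : ℕ) : Gi) := by
    rw [star_mul_cast]
    exact dvd_mul_right _ _
  have h0 : nm π ≠ 0 := fun h => hπ.ne_zero (nm_eq_zero.1 h)
  have hu : nm π ≠ 1 := fun h => hπ.not_isUnit (isUnit_iff_nm.2 h)
  -- `π` divides a rational prime
  have h2 : ∃ p ∈ (nm π).primeFactorsList, π ∣ ((p : ℕ) : Gi) := by
    have h3 : π ∣ (((nm π).primeFactorsList.map (fun p : ℕ => (p : Gi))).prod) := by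
      have : (((nm π).primeFactorsList.map (fun p : ℕ => (p : Gi))).prod) =
          (((nm π).primeFactorsList.prod : ℕ) : Gi) := by
        rw [Nat.cast_list_prod]
      rw [this, Nat.prod_primeFactorsList h0]
      exact h1
    rw [hπ.dvd_prod_iff] at h3
    obtain ⟨a, ha, hd⟩ := h3
    rw [List.mem_map] at ha
    obtain ⟨p, hp, rfl⟩ := ha
    exact ⟨p, hp, hd⟩
  obtain ⟨p, hp, hd⟩ := h2
  have hpp : p.Prime := Nat.prime_of_mem_primeFactorsList hp
  have hpd : p ∣ nm π := Nat.dvd_of_mem_primeFactorsList hp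
  refine ⟨p, hpp, hpd, fun h3 => ?_⟩
  have h4 : nm π ∣ p ^ 2 := by
    have := nm_dvd hd
    rwa [nm_natCast] at this
  obtain ⟨k, hk, he⟩ := (Nat.dvd_prime_pow hpp).1 h4
  interval_cases k
  · exact absurd he (by simpa using hu)
  · exfalso
    rw [pow_one] at he
    have h5 := nm_cast π
    rw [he] at h5
    have h6 : (p : ℤ) % 4 = 3 := by omega
    have ha : π.re ^ 2 % 4 = 0 ∨ π.re ^ 2 % 4 = 1 := by
      rcases Int.even_or_odd' π.re with ⟨c, hc | hc⟩ <;> rw [hc] <;> ring_nf <;> omega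
    have hb : π.im ^ 2 % 4 = 0 ∨ π.im ^ 2 % 4 = 1 := by
      rcases Int.even_or_odd' π.im with ⟨c, hc | hc⟩ <;> rw [hc] <;> ring_nf <;> omega
    omega
  · exact he

lemma mem_PS (w : ℝ) (hw : 0 ≤ w) (p : ℕ) :
    p ∈ PS w ↔ (p : ℝ) ≤ w ∧ p.Prime ∧ (p % 4 ≠ 3 ∨ (p : ℝ) ^ 2 ≤ w) := by
  unfold PS
  rw [mem_filter, mem_range, Nat.lt_succ_iff, Nat.le_floor_iff hw]

end RGBM

open RGBM in
theorem specRGB : SpecRGB := by
  intro w v _ hw
  refine ⟨⟨?_, ?_⟩, ?_⟩
  · intro h p hp hd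
    rw [mem_PS w hw] at hp
    obtain ⟨hpw, hpp, hc⟩ := hp
    obtain ⟨π, hπ, hπv, h1, h2⟩ := ex_prime p hpp v hd
    have h3 := h π hπ hπv
    by_cases h4 : p % 4 = 3
    · rw [h2 h4] at h3
      push_cast at h3
      rcases hc with hc | hc
      · exact hc h4
      · linarith
    · rw [h1 h4] at h3
      linarith
  · intro h π hπ hπv
    by_contra hcon
    rw [not_lt] at hcon
    obtain ⟨p, hpp, hpd, h3⟩ := ex_nat π hπ
    have hle : (p : ℝ) ≤ w := by
      have : p ≤ nm π := Nat.le_of_dvd (nm_pos hπ.ne_zero) hpd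
      have h5 : (p : ℝ) ≤ (nm π : ℝ) := by exact_mod_cast this
      linarith
    refine h p ?_ (dvd_trans hpd (nm_dvd hπv))
    rw [mem_PS w hw]
    refine ⟨hle, hpp, ?_⟩
    by_cases h4 : p % 4 = 3
    · right
      rw [h3 h4] at hcon
      push_cast at hcon
      exact hcon
    · left
      exact h4
  · intro p hp
    rw [mem_PS w hw] at hp
    exact ⟨hp.2.1, by linarith [hp.1]⟩

end Pool.Agent.Lib.MP391708.XL
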