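import Pool.Agent.Lib.MP_391708_nt.X.CHB
import Pool.Agent.Lib.MP_391708_nt.X.RGB
import Pool.Agent.Lib.MP_391708_nt.X.CRT2
import Pool.Agent.Lib.MP_391708_nt.X.CRTP
import Pool.Agent.Lib.MP_391708_nt.X.CLS
import Pool.Agent.Lib.MP_391708_nt.X.QT
import Pool.Agent.Lib.MP_391708_nt.X.PER
import Pool.Agent.Lib.MP_391708_nt.X.GBB
import Pool.Agent.Lib.MP_391708_nt.X.DEN
import Pool.Agent.Lib.MP_391708_nt.X.EQB
import Pool.Agent.Lib.MP_391708_nt.X.LSR
import Pool.Agent.Lib.MP_391708_nt.X.LSC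
import Pool.Agent.Lib.MP_391708_nt.X.MUL
import Pool.Agent.Lib.MP_391708_nt.X.PHA
import Pool.Agent.Lib.MP_391708_nt.X.GEO
import Pool.Agent.Lib.MP_391708_nt.X.LSI
import Pool.Agent.Lib.MP_391708_nt.X.LSM
import Pool.Agent.Lib.MP_391708_nt.X.LSE

/-!
# THEOREM X (MP_391708), part LS: the statements of `SpecLS`, `SpecLS2`, `SpecLS3` without hypotheses
-/

set_option autoImplicit false

namespace Pool.Agent.Lib.MP391708.XL

theorem ls_crt2 : SpecCRT2 := specCRT2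
theorem ls_crtp : SpecCRTP := specCRTP ls_crt2
theorem ls_cls : SpecCLS := specCLS
theorem ls_qt : SpecQT := specQT
theorem ls_per : SpecPER := specPER
theorem ls_gbb : SpecGBB := specGBB
theorem ls_den : SpecDEN := specDEN ls_crtp ls_qt
theorem ls_eqb : SpecEQB := specEQB ls_crtp ls_cls ls_qt
theorem ls_lsr : SpecLSR := specLSR ls_gbb ls_per ls_den ls_eqb ls_qt
theorem ls_lsc : SpecLSC := specLSC ls_lsr ls_eqb
theorem ls_mul : SpecMUL := specMUL ls_crt2 ls_cls ls_qt ls_eqb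
theorem ls_chb : SpecCHB := specCHB
theorem ls_rgb : SpecRGB := specRGB
theorem ls_pha : SpecPHA := specPHA
theorem ls_geo : SpecGEO := specGEO ls_qt
theorem ls_lsi : SpecLSI := specLSI
theorem ls_lsm : SpecLSM :=
  specLSM ls_lsc ls_lsr ls_eqb ls_mul ls_pha ls_geo ls_chb ls_rgb ls_gbb
theorem ls_lse : SpecLSE := specLSE ls_lsm

end Pool.Agent.Lib.MP391708.XL
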