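import Pool.Agent.Lib.MP_391708_nt.X.SpecLS

/-! # THEOREM X (MP_391708), part LS, module LSC: complex functions -/

set_option autoImplicit false

namespace Pool.Agent.Lib.MP391708.XL

open Finset Filter Topology Pool.Agent.Lib.MP391708.MR
open scoped ComplexConjugate

namespace LSCM

/-- the positive part -/
noncomputable def pp (x : ℝ) : ℝ := max x 0

theorem pp_sub (x : ℝ) : pp x - pp (-x) = x := by
  unfold pp
  rcases le_total 0 x with h | h
  · rw [max_eq_left h, max_eq_right (by linarith)]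
    ring
  · rw [max_eq_right h, max_eq_left (by linarith)]
    ring

theorem pp_zero : pp 0 = 0 := max_self 0

theorem sup_part {q : ℕ} {f : Gi → ℂ} (hf : SupC q f) (φ : ℂ → ℝ) (h0 : φ 0 = 0)
    (h1 : ∀ z, φ z ≤ ‖z‖) : Sup q (fun v => pp (φ (f v))) := by
  refine ⟨fun x y => ?_, fun v => ⟨le_max_right _ _, ?_⟩, fun v hv => ?_⟩
  · show pp (φ (f (x + (q : Gi) * y))) = pp (φ (f x))
    rw [hf.1]
  · exact max_le ((h1 _).trans (hf.2.1 v)) zero_le_one
  · apply hf.2.2 v
    intro h
    apply hv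
    show pp (φ (f v)) = 0
    rw [h, h0, pp_zero]

theorem lin {ι : Type} (T : Finset ι) (g : ι → Gi) (p : ι → Prop) [DecidablePred p] (f : Gi → ℂ)
    (F G H K : Gi → ℝ) (h : ∀ v, f v = ((F v - G v : ℝ) : ℂ) + ((H v - K v : ℝ) : ℂ) * Complex.I) :
    ∑ n ∈ T, (if p n then f (g n) else 0) =
      (((∑ n ∈ T, if p n then F (g n) else 0) - ∑ n ∈ T, if p n then G (g n) else 0 : ℝ) : ℂ) +
      (((∑ n ∈ T, if p n then H (g n) else 0) - ∑ n ∈ T, if p n then K (g n) else 0 : ℝ) : ℂ) *
        Complex.I := by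
  rw [← Finset.sum_sub_distrib, ← Finset.sum_sub_distrib, Complex.ofReal_sum, Complex.ofReal_sum,
    Finset.sum_mul, ← Finset.sum_add_distrib]
  refine Finset.sum_congr rfl fun n _ => ?_
  split_ifs
  · exact h (g n)
  · simp

end LSCM

open LSCM in
theorem specLSC (hLSR : SpecLSR) (hEQB : SpecEQB) : SpecLSC := by
  classical
  obtain ⟨C, hC, hL⟩ := hLSR
  refine ⟨4 * C, by positivity, ?_⟩
  intro u z S q f w b X X' hz hS hq hw hr hf hX
  let F : Gi → ℝ := fun v => pp ((f v).re)
  let G : Gi → ℝ := fun v => pp (-(f v).re)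
  let H : Gi → ℝ := fun v => pp ((f v).im)
  let K : Gi → ℝ := fun v => pp (-(f v).im)
  have hfv : ∀ v, f v = ((F v - G v : ℝ) : ℂ) + ((H v - K v : ℝ) : ℂ) * Complex.I := by
    intro v
    show f v = ((pp (f v).re - pp (-(f v).re) : ℝ) : ℂ) +
      ((pp (f v).im - pp (-(f v).im) : ℝ) : ℂ) * Complex.I
    rw [pp_sub, pp_sub, Complex.re_add_im]
  have sF : Sup q F := sup_part hf (fun z => z.re) rfl fun z =>
    (le_abs_self _).trans (Complex.abs_re_le_norm z)
  have sG : Sup q G := sup_part hf (fun z => -z.re) (by simp) fun z =>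
    (neg_le_abs _).trans (Complex.abs_re_le_norm z)
  have sH : Sup q H := sup_part hf (fun z => z.im) rfl fun z =>
    (le_abs_self _).trans (Complex.abs_im_le_norm z)
  have sK : Sup q K := sup_part hf (fun z => -z.im) (by simp) fun z =>
    (neg_le_abs _).trans (Complex.abs_im_le_norm z)
  have hA : 0 ≤ (X' - X) / (nm w : ℝ) := div_nonneg (by linarith) (Nat.cast_nonneg _)
  have one : ∀ T : Gi → ℝ, Sup q T →
      |∑ n ∈ LN w b X X', (if rg S (qt w n b) then T (qt w n b) else 0)
        - (X' - X) / nm w * EE q T b w * VQ q b S| ≤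
      C * Real.exp (-(u : ℝ)) * ((X' - X) / nm w) * VS b S + C * q * z ^ (16 * u + 34) := by
    intro T hT
    refine (hL u z S q T w b X X' hz hS hq hw hr hT hX).trans ?_
    have h1 := (hEQB q T w b z S hq hw hS hr hT).2.1
    have h2 : 0 ≤ C * Real.exp (-(u : ℝ)) * ((X' - X) / nm w) :=
      mul_nonneg (mul_nonneg hC.le (Real.exp_pos _).le) hA
    have h3 := mul_le_mul_of_nonneg_left h1 h2
    linarith
  have e1 := lin (LN w b X X') (fun n => qt w n b) (fun n => rg S (qt w n b)) f F G H K hfv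
  have e2 : EC q f b w = ((EE q F b w - EE q G b w : ℝ) : ℂ) +
      ((EE q H b w - EE q K b w : ℝ) : ℂ) * Complex.I := by
    have e3 := lin (range (q * nm w)) (fun n : ℕ => qt w (n : ℤ) b)
      (fun n : ℕ => w ∣ pt (n : ℤ) b) f F G H K hfv
    unfold EC EE
    rw [e3]
    push_cast
    ring
  have e4 : ∑ n ∈ LN w b X X', (if rg S (qt w n b) then f (qt w n b) else 0)
        - (((X' - X) / nm w * VQ q b S : ℝ) : ℂ) * EC q f b w =
      (((∑ n ∈ LN w b X X', (if rg S (qt w n b) then F (qt w n b) else 0)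
        - (X' - X) / nm w * EE q F b w * VQ q b S) -
        (∑ n ∈ LN w b X X', (if rg S (qt w n b) then G (qt w n b) else 0)
        - (X' - X) / nm w * EE q G b w * VQ q b S) : ℝ) : ℂ) +
      (((∑ n ∈ LN w b X X', (if rg S (qt w n b) then H (qt w n b) else 0)
        - (X' - X) / nm w * EE q H b w * VQ q b S) -
        (∑ n ∈ LN w b X X', (if rg S (qt w n b) then K (qt w n b) else 0)
        - (X' - X) / nm w * EE q K b w * VQ q b S) : ℝ) : ℂ) * Complex.I := by
    rw [e1, e2]
    simp only [Complex.ofReal_sub, Complex.ofReal_mul]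
    ring
  rw [e4]
  have hF := one F sF
  have hG := one G sG
  have hH := one H sH
  have hK := one K sK
  refine (norm_add_le _ _).trans ?_
  rw [norm_mul, Complex.norm_I, mul_one, Complex.norm_real, Complex.norm_real, Real.norm_eq_abs,
    Real.norm_eq_abs]
  have h5 := abs_sub (∑ n ∈ LN w b X X', (if rg S (qt w n b) then F (qt w n b) else 0)
        - (X' - X) / nm w * EE q F b w * VQ q b S)
        (∑ n ∈ LN w b X X', (if rg S (qt w n b) then G (qt w n b) else 0)
        - (X' - X) / nm w * EE q G b w * VQ q b S)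
  have h6 := abs_sub (∑ n ∈ LN w b X X', (if rg S (qt w n b) then H (qt w n b) else 0)
        - (X' - X) / nm w * EE q H b w * VQ q b S)
        (∑ n ∈ LN w b X X', (if rg S (qt w n b) then K (qt w n b) else 0)
        - (X' - X) / nm w * EE q K b w * VQ q b S)
  linarith

end Pool.Agent.Lib.MP391708.XL
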