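import Mathlib

/-!
# X/M4: the bounded analysis of the model sum (Theorem X, part (4))

Finite sums only.  `a ψ u`, `x ψ i`, `y ψ j` are the sums over the thin cells of the three long
primes; the phase `exp (-i θ β^(u+i+j))` is the oscillation of `ψ (n + i b)` along the cells.
-/

set_option autoImplicit false

namespace Pool.Agent.Lib.MP391708.X
namespace M4

open Finset
open scoped ComplexConjugate

/-- the phase `exp (-i t)` -/
noncomputable def E (t : ℝ) : ℂ := Complex.exp (Complex.I * ((-t : ℝ) : ℂ))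

lemma norm_E (t : ℝ) : ‖E t‖ = 1 := by
  unfold E
  rw [Complex.norm_exp_I_mul_ofReal]

lemma E_add (s t : ℝ) : E (s + t) = E s * E t := by
  unfold E
  rw [← Complex.exp_add]
  congr 1
  push_cast
  ring

lemma conj_E (t : ℝ) : conj (E t) = E (-t) := by
  unfold E
  rw [← Complex.exp_conj]
  congr 1
  simp

lemma E_sub (s t : ℝ) : E (s - t) = E s * conj (E t) := by
  rw [conj_E, ← E_add, sub_eq_add_neg]

lemma norm_E_sub_one_le (t : ℝ) : ‖E t - 1‖ ≤ |t| := by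
  have := @Real.norm_exp_I_mul_ofReal_sub_one_le (-t)
  simpa [E] using this

lemma norm_E_sub_le (s t : ℝ) : ‖E s - E t‖ ≤ |s - t| := by
  have h : E s - E t = (E (s - t) - 1) * E t := by
    rw [sub_mul, one_mul, ← E_add, sub_add_cancel]
  rw [h, norm_mul, norm_E, mul_one]
  exact norm_E_sub_one_le _

lemma le_norm_E_sub_one {t : ℝ} (ht : |t| ≤ 1) : |t| / 2 ≤ ‖E t - 1‖ := by
  have h1 : ‖E t - 1‖ = 2 * |Real.sin (t / 2)| := by
    have := Complex.norm_exp_I_mul_ofReal_sub_one (-t)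
    rw [show E t - 1 = Complex.exp (Complex.I * ((-t : ℝ) : ℂ)) - 1 from rfl, this]
    rw [neg_div, Real.sin_neg, norm_mul, norm_neg]
    simp [Real.norm_eq_abs]
  have h2 : |Real.sin (t / 2)| = Real.sin (|t| / 2) := by
    have h3 : 0 ≤ Real.sin (|t| / 2) := by
      apply Real.sin_nonneg_of_nonneg_of_le_pi (by positivity)
      have := Real.pi_gt_three
      linarith
    rcases abs_cases t with h | h
    · rw [h.1] at h3 ⊢
      exact abs_of_nonneg h3
    · rw [h.1] at h3 ⊢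
      rw [neg_div, Real.sin_neg] at h3 ⊢
      exact abs_of_nonpos (by linarith)
  rw [h1, h2]
  have h4 := Real.mul_le_sin (x := |t| / 2) (by positivity) (by
    have := Real.pi_gt_three
    linarith)
  have h5 : (1 : ℝ) / 2 ≤ 2 / Real.pi := by
    rw [div_le_div_iff₀ (by norm_num) Real.pi_pos]
    have := Real.pi_lt_four
    linarith
  have h6 : 1 / 2 * (|t| / 2) ≤ 2 / Real.pi * (|t| / 2) :=
    mul_le_mul_of_nonneg_right h5 (by positivity)
  linarith

/-- summation by parts -/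
lemma parts (x h : ℕ → ℂ) (n : ℕ) :
    ∑ i ∈ range n, x i * h i = (∑ i ∈ range n, x i) * h n
      - ∑ i ∈ range n, (∑ j ∈ range (i + 1), x j) * (h (i + 1) - h i) := by
  induction n with
  | zero => simp
  | succ n ih =>
    rw [sum_range_succ, ih, sum_range_succ (fun i => (∑ j ∈ range (i + 1), x j) * (h (i + 1) - h i)),
      sum_range_succ x n]
    ring

lemma norm_parts_le (x h : ℕ → ℂ) (n : ℕ) (M : ℝ)
    (hx : ∀ i, i ≤ n → ‖∑ j ∈ range i, x j‖ ≤ M) :
    ‖∑ i ∈ range n, x i * h i‖ ≤ M * (‖h n‖ + ∑ i ∈ range n, ‖h (i + 1) - h i‖) := by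
  rw [parts, mul_add, mul_sum]
  refine (norm_sub_le _ _).trans (add_le_add ?_ ((norm_sum_le _ _).trans (sum_le_sum ?_)))
  · rw [norm_mul]
    exact mul_le_mul_of_nonneg_right (hx n le_rfl) (norm_nonneg _)
  · intro i hi
    rw [norm_mul]
    exact mul_le_mul_of_nonneg_right (hx (i + 1) (by have := mem_range.1 hi; omega)) (norm_nonneg _)

/-- the weight times the phase -/
noncomputable def H (θ β : ℝ) (s : ℕ) : ℂ := ((β ^ s : ℝ) : ℂ) * E (θ * β ^ s)

lemma norm_H_le {θ β : ℝ} (h0 : 0 < β) (h1 : β < 1) (s : ℕ) : ‖H θ β s‖ ≤ 1 := by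
  unfold H
  rw [norm_mul, norm_E, mul_one, Complex.norm_real, Real.norm_eq_abs, abs_of_nonneg (by positivity)]
  exact pow_le_one₀ h0.le h1.le

lemma norm_H_sub_le {θ β : ℝ} (h0 : 0 < β) (h1 : β < 1) (s : ℕ) :
    ‖H θ β (s + 1) - H θ β s‖ ≤ (1 + |θ|) * (β ^ s - β ^ (s + 1)) := by
  have hs1 : β ^ (s + 1) ≤ β ^ s := pow_le_pow_of_le_one h0.le h1.le (by omega)
  have hs : β ^ s ≤ 1 := pow_le_one₀ h0.le h1.le
  have h : H θ β (s + 1) - H θ β s = ((β ^ (s + 1) - β ^ s : ℝ) : ℂ) * E (θ * β ^ (s + 1))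
      + ((β ^ s : ℝ) : ℂ) * (E (θ * β ^ (s + 1)) - E (θ * β ^ s)) := by
    unfold H
    push_cast
    ring
  rw [h]
  refine (norm_add_le _ _).trans ?_
  rw [norm_mul, norm_mul, norm_E, mul_one, Complex.norm_real, Complex.norm_real, Real.norm_eq_abs,
    Real.norm_eq_abs, abs_of_nonpos (by linarith : β ^ (s + 1) - β ^ s ≤ 0),
    abs_of_nonneg (by positivity : (0 : ℝ) ≤ β ^ s)]
  have h2 : ‖E (θ * β ^ (s + 1)) - E (θ * β ^ s)‖ ≤ |θ| * (β ^ s - β ^ (s + 1)) := by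
    refine (norm_E_sub_le _ _).trans ?_
    rw [← mul_sub, abs_mul, abs_sub_comm, abs_of_nonneg (by linarith : 0 ≤ β ^ s - β ^ (s + 1))]
  have h3 : β ^ s * ‖E (θ * β ^ (s + 1)) - E (θ * β ^ s)‖ ≤ |θ| * (β ^ s - β ^ (s + 1)) :=
    le_trans (mul_le_of_le_one_left (norm_nonneg _) hs) h2
  nlinarith [h3]

lemma sum_H_sub_le {θ β : ℝ} (h0 : 0 < β) (h1 : β < 1) (k n : ℕ) :
    ∑ i ∈ range n, ‖H θ β (k + (i + 1)) - H θ β (k + i)‖ ≤ 1 + |θ| := by
  have h : ∑ i ∈ range n, ‖H θ β (k + (i + 1)) - H θ β (k + i)‖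
      ≤ ∑ i ∈ range n, (1 + |θ|) * (β ^ (k + i) - β ^ (k + (i + 1))) := by
    apply sum_le_sum
    intro i _
    exact norm_H_sub_le h0 h1 (k + i)
  refine h.trans ?_
  rw [← mul_sum, Finset.sum_range_sub' (fun i => β ^ (k + i))]
  have h2 : β ^ (k + 0) ≤ 1 := pow_le_one₀ h0.le h1.le
  have h3 : 0 ≤ β ^ (k + n) := by positivity
  have : β ^ (k + 0) - β ^ (k + n) ≤ 1 := by linarith
  nlinarith [abs_nonneg θ]

/-- small frequencies: summation by parts -/
lemma small {θ β : ℝ} (h0 : 0 < β) (h1 : β < 1) (k n : ℕ) (x : ℕ → ℂ) (M : ℝ) (hM : 0 ≤ M)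
    (hx : ∀ i, i ≤ n → ‖∑ j ∈ range i, x j‖ ≤ M) :
    ‖∑ i ∈ range n, x i * H θ β (k + i)‖ ≤ (2 + |θ|) * M := by
  have h := norm_parts_le x (fun i => H θ β (k + i)) n M hx
  refine h.trans ?_
  have h2 := sum_H_sub_le (θ := θ) h0 h1 k n
  have h3 := norm_H_le (θ := θ) h0 h1 (k + n)
  have : ‖H θ β (k + n)‖ + ∑ i ∈ range n, ‖H θ β (k + (i + 1)) - H θ β (k + i)‖ ≤ 2 + |θ| := by
    linarith
  nlinarith

/-- the geometric phase (Kusmin-Landau) -/
lemma geo {A β : ℝ} (h0 : 0 < β) (h1 : β < 1) (hA : A ≠ 0) (hA1 : |A| * (1 - β) ≤ 1) (n : ℕ) :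
    ‖∑ j ∈ range n, E (A * β ^ j)‖ ≤ 8 / (|A| * (1 - β) * β ^ n) := by
  have hb : 0 < 1 - β := by linarith
  have hA0 : 0 < |A| := abs_pos.2 hA
  have hc : 0 < |A| * (1 - β) := by positivity
  -- `D j`
  set D : ℕ → ℂ := fun j => E (-(A * (1 - β) * β ^ j)) - 1 with hD
  have habs : ∀ j, |(-(A * (1 - β) * β ^ j))| = |A| * (1 - β) * β ^ j := by
    intro j
    rw [abs_neg, abs_mul, abs_mul, abs_of_pos hb, abs_of_pos (by positivity : 0 < β ^ j)]
  have hDlow : ∀ j, |A| * (1 - β) * β ^ j / 2 ≤ ‖D j‖ := by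
    intro j
    have h2 : |(-(A * (1 - β) * β ^ j))| ≤ 1 := by
      rw [habs]
      exact mul_le_one₀ hA1 (by positivity) (pow_le_one₀ h0.le h1.le)
    have := le_norm_E_sub_one h2
    rwa [habs] at this
  have hDpos : ∀ j, 0 < ‖D j‖ := fun j => lt_of_lt_of_le (by positivity) (hDlow j)
  have hD0 : ∀ j, D j ≠ 0 := fun j => norm_pos_iff.1 (hDpos j)
  have hstep : ∀ j, E (A * β ^ (j + 1)) - E (A * β ^ j) = E (A * β ^ j) * D j := by
    intro j
    rw [hD]
    simp only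
    rw [mul_sub, mul_one, ← E_add]
    congr 2
    ring
  have hG : ∀ j, ‖(D j)⁻¹‖ ≤ 2 / (|A| * (1 - β) * β ^ j) := by
    intro j
    rw [norm_inv, inv_le_comm₀ (hDpos j) (by positivity), inv_div]
    exact hDlow j
  have hGd : ∀ j, ‖(D (j + 1))⁻¹ - (D j)⁻¹‖
      ≤ 4 / (|A| * (1 - β)) * (1 / β ^ (j + 1) - 1 / β ^ j) := by
    intro j
    have e1 : (D (j + 1))⁻¹ - (D j)⁻¹ = (D j - D (j + 1)) * ((D (j + 1))⁻¹ * (D j)⁻¹) := by
      have := hD0 j
      have := hD0 (j + 1)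
      field_simp
    have e2 : ‖D j - D (j + 1)‖ ≤ |A| * (1 - β) * (β ^ j - β ^ (j + 1)) := by
      have : D j - D (j + 1) = E (-(A * (1 - β) * β ^ j)) - E (-(A * (1 - β) * β ^ (j + 1))) := by
        rw [hD]
        ring
      rw [this]
      refine (norm_E_sub_le _ _).trans (le_of_eq ?_)
      rw [show -(A * (1 - β) * β ^ j) - -(A * (1 - β) * β ^ (j + 1))
        = -(A * (1 - β) * (β ^ j - β ^ (j + 1))) by ring, abs_neg, abs_mul, abs_mul,
        abs_of_pos hb, abs_of_nonneg (a := β ^ j - β ^ (j + 1))]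
      have : β ^ (j + 1) ≤ β ^ j := pow_le_pow_of_le_one h0.le h1.le (by omega)
      linarith
    rw [e1, norm_mul, norm_mul]
    have e3 := hG j
    have e4 := hG (j + 1)
    have e5 : ‖(D (j + 1))⁻¹‖ * ‖(D j)⁻¹‖
        ≤ 2 / (|A| * (1 - β) * β ^ (j + 1)) * (2 / (|A| * (1 - β) * β ^ j)) :=
      mul_le_mul e4 e3 (norm_nonneg _) (by positivity)
    have e6 : 0 ≤ |A| * (1 - β) * (β ^ j - β ^ (j + 1)) := (norm_nonneg _).trans e2
    calc ‖D j - D (j + 1)‖ * (‖(D (j + 1))⁻¹‖ * ‖(D j)⁻¹‖)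
        ≤ |A| * (1 - β) * (β ^ j - β ^ (j + 1))
          * (2 / (|A| * (1 - β) * β ^ (j + 1)) * (2 / (|A| * (1 - β) * β ^ j))) :=
          mul_le_mul e2 e5 (by positivity) e6
      _ = 4 / (|A| * (1 - β)) * (1 / β ^ (j + 1) - 1 / β ^ j) := by
          have : β ^ j ≠ 0 := by positivity
          have : β ^ (j + 1) ≠ 0 := by positivity
          field_simp
          ring
  have hsum : ∑ j ∈ range n, E (A * β ^ j)
      = (D n)⁻¹ * E (A * β ^ n) - (D 0)⁻¹ * E (A * β ^ 0)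
        - ∑ j ∈ range n, ((D (j + 1))⁻¹ - (D j)⁻¹) * E (A * β ^ (j + 1)) := by
    rw [← Finset.sum_range_sub (fun j => (D j)⁻¹ * E (A * β ^ j)), ← Finset.sum_sub_distrib]
    apply sum_congr rfl
    intro j _
    have h3 := hstep j
    have h4 : E (A * β ^ j) = (D j)⁻¹ * (E (A * β ^ (j + 1)) - E (A * β ^ j)) := by
      rw [h3, mul_comm (E _) (D j), ← mul_assoc, inv_mul_cancel₀ (hD0 j), one_mul]
    have h5 : E (A * β ^ j) = (D j)⁻¹ * E (A * β ^ (j + 1)) - (D j)⁻¹ * E (A * β ^ j) := by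
      rw [← mul_sub, ← h4]
    linear_combination h5
  rw [hsum]
  have n1 : ‖(D n)⁻¹ * E (A * β ^ n)‖ ≤ 2 / (|A| * (1 - β) * β ^ n) := by
    rw [norm_mul, norm_E, mul_one]
    exact hG n
  have n2 : ‖(D 0)⁻¹ * E (A * β ^ 0)‖ ≤ 2 / (|A| * (1 - β) * β ^ n) := by
    rw [norm_mul, norm_E, mul_one]
    refine (hG 0).trans ?_
    apply div_le_div_of_nonneg_left (by norm_num) (by positivity)
    rw [pow_zero, mul_one]
    exact mul_le_of_le_one_right (by positivity) (pow_le_one₀ h0.le h1.le)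
  have n3 : ‖∑ j ∈ range n, ((D (j + 1))⁻¹ - (D j)⁻¹) * E (A * β ^ (j + 1))‖
      ≤ 4 / (|A| * (1 - β) * β ^ n) := by
    refine (norm_sum_le _ _).trans ?_
    have : ∀ j ∈ range n, ‖((D (j + 1))⁻¹ - (D j)⁻¹) * E (A * β ^ (j + 1))‖
        ≤ 4 / (|A| * (1 - β)) * (1 / β ^ (j + 1) - 1 / β ^ j) := by
      intro j _
      rw [norm_mul, norm_E, mul_one]
      exact hGd j
    refine (sum_le_sum this).trans ?_
    rw [← mul_sum, Finset.sum_range_sub (fun j => 1 / β ^ j)]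
    rw [pow_zero]
    have : 4 / (|A| * (1 - β) * β ^ n) = 4 / (|A| * (1 - β)) * (1 / β ^ n) := by
      have : β ^ n ≠ 0 := by positivity
      field_simp
    rw [this]
    apply mul_le_mul_of_nonneg_left _ (by positivity)
    linarith
  calc _ ≤ ‖(D n)⁻¹ * E (A * β ^ n) - (D 0)⁻¹ * E (A * β ^ 0)‖
        + ‖∑ j ∈ range n, ((D (j + 1))⁻¹ - (D j)⁻¹) * E (A * β ^ (j + 1))‖ := norm_sub_le _ _
    _ ≤ (2 / (|A| * (1 - β) * β ^ n) + 2 / (|A| * (1 - β) * β ^ n))
        + 4 / (|A| * (1 - β) * β ^ n) :=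
        add_le_add ((norm_sub_le _ _).trans (add_le_add n1 n2)) n3
    _ = 8 / (|A| * (1 - β) * β ^ n) := by ring

/-- the geometric mean of the two bounds for the row entries -/
lemma entry {θ β : ℝ} (h0 : 0 < β) (h1 : β < 1) (hθ : θ ≠ 0) (hθ1 : |θ| * (1 - β) ≤ 1)
    {U u v : ℕ} (huv : u < v) (hv : v < U) :
    ‖∑ j ∈ range U, E (θ * β ^ (u + j)) * conj (E (θ * β ^ (v + j)))‖
      ≤ Real.sqrt (8 * U / (|θ| * (β ^ U * (1 - β)) ^ 2)) * (1 / Real.sqrt ((v - u : ℕ) : ℝ)) := by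
  have hb : 0 < 1 - β := by linarith
  have hθ0 : 0 < |θ| := abs_pos.2 hθ
  set A : ℝ := θ * (β ^ u - β ^ v) with hA
  have hpos : 0 < β ^ u - β ^ v := by
    have := pow_lt_pow_right_of_lt_one₀ h0 h1 huv
    linarith
  have hd : β ^ U * (1 - β) * ((v - u : ℕ) : ℝ) ≤ β ^ u - β ^ v := by
    obtain ⟨h, rfl⟩ : ∃ h, v = u + h := ⟨v - u, by omega⟩
    rw [show u + h - u = h by omega]
    have e1 : β ^ u - β ^ (u + h) = ∑ i ∈ range h, (β ^ (u + i) - β ^ (u + (i + 1))) := by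
      rw [Finset.sum_range_sub' (fun i => β ^ (u + i))]
      rfl
    rw [e1]
    have e2 : ∀ i ∈ range h, β ^ U * (1 - β) ≤ β ^ (u + i) - β ^ (u + (i + 1)) := by
      intro i hi
      have hi' := mem_range.1 hi
      have e3 : β ^ (u + i) - β ^ (u + (i + 1)) = β ^ (u + i) * (1 - β) := by ring
      rw [e3]
      exact mul_le_mul_of_nonneg_right (pow_le_pow_of_le_one h0.le h1.le (by omega)) hb.le
    have e4 := Finset.card_nsmul_le_sum (range h) _ _ e2
    rw [card_range, nsmul_eq_mul] at e4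
    linarith
  have hsum : ∑ j ∈ range U, E (θ * β ^ (u + j)) * conj (E (θ * β ^ (v + j)))
      = ∑ j ∈ range U, E (A * β ^ j) := by
    apply sum_congr rfl
    intro j _
    rw [← E_sub]
    congr 1
    rw [hA]
    ring
  rw [hsum]
  have hA0 : A ≠ 0 := mul_ne_zero hθ hpos.ne'
  have hAabs : |A| = |θ| * (β ^ u - β ^ v) := by rw [hA, abs_mul, abs_of_pos hpos]
  have hA1 : |A| * (1 - β) ≤ 1 := by
    have : β ^ u - β ^ v ≤ 1 := by
      have e1 : β ^ u ≤ 1 := pow_le_one₀ h0.le h1.le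
      have e2 : 0 ≤ β ^ v := by positivity
      linarith
    rw [hAabs]
    calc |θ| * (β ^ u - β ^ v) * (1 - β) ≤ |θ| * 1 * (1 - β) := by gcongr
      _ ≤ 1 := by rw [mul_one]; exact hθ1
  have b1 : ‖∑ j ∈ range U, E (A * β ^ j)‖ ≤ U := by
    refine (norm_sum_le _ _).trans ?_
    simp [norm_E]
  have b2 := geo h0 h1 hA0 hA1 U
  have hvu : (0 : ℝ) < ((v - u : ℕ) : ℝ) := by
    have : 0 < v - u := by omega
    exact_mod_cast this
  have b3 : 8 / (|A| * (1 - β) * β ^ U) ≤ 8 / (|θ| * (β ^ U * (1 - β)) ^ 2 * ((v - u : ℕ) : ℝ)) := by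
    apply div_le_div_of_nonneg_left (by norm_num) (by positivity)
    rw [hAabs]
    calc |θ| * (β ^ U * (1 - β)) ^ 2 * ((v - u : ℕ) : ℝ)
        = |θ| * (β ^ U * (1 - β) * ((v - u : ℕ) : ℝ)) * (1 - β) * β ^ U := by ring
      _ ≤ |θ| * (β ^ u - β ^ v) * (1 - β) * β ^ U := by gcongr
  have b4 := b2.trans b3
  have b5 : ‖∑ j ∈ range U, E (A * β ^ j)‖
      = Real.sqrt (‖∑ j ∈ range U, E (A * β ^ j)‖ * ‖∑ j ∈ range U, E (A * β ^ j)‖) := by
    rw [Real.sqrt_mul_self (norm_nonneg _)]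
  rw [b5]
  have b6 : ‖∑ j ∈ range U, E (A * β ^ j)‖ * ‖∑ j ∈ range U, E (A * β ^ j)‖
      ≤ (8 * U / (|θ| * (β ^ U * (1 - β)) ^ 2)) * (1 / ((v - u : ℕ) : ℝ)) := by
    refine (mul_le_mul b1 b4 (norm_nonneg _) (by positivity)).trans (le_of_eq ?_)
    have : β ^ U ≠ 0 := by positivity
    have := hvu.ne'
    field_simp
  refine (Real.sqrt_le_sqrt b6).trans (le_of_eq ?_)
  rw [Real.sqrt_mul (by positivity)]
  congr 1
  rw [Real.sqrt_div (by norm_num), Real.sqrt_one]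

lemma sum_inv_sqrt (n : ℕ) : ∑ h ∈ range n, 1 / Real.sqrt ((h + 1 : ℕ) : ℝ) ≤ 2 * Real.sqrt n := by
  induction n with
  | zero => simp
  | succ n ih =>
    rw [sum_range_succ]
    have h1 : 0 < Real.sqrt ((n + 1 : ℕ) : ℝ) := Real.sqrt_pos.2 (by positivity)
    have h2 : 1 / Real.sqrt ((n + 1 : ℕ) : ℝ)
        ≤ 2 * (Real.sqrt ((n + 1 : ℕ) : ℝ) - Real.sqrt n) := by
      rw [div_le_iff₀ h1]
      have e1 : Real.sqrt ((n + 1 : ℕ) : ℝ) * Real.sqrt ((n + 1 : ℕ) : ℝ) = n + 1 := by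
        rw [Real.mul_self_sqrt (by positivity)]
        push_cast
        ring
      have e2 : Real.sqrt (n : ℝ) * Real.sqrt n = n := Real.mul_self_sqrt (by positivity)
      nlinarith [sq_nonneg (Real.sqrt ((n + 1 : ℕ) : ℝ) - Real.sqrt n)]
    linarith

/-- one row -/
lemma row {θ β : ℝ} (h0 : 0 < β) (h1 : β < 1) (hθ : θ ≠ 0) (hθ1 : |θ| * (1 - β) ≤ 1)
    {U u : ℕ} (hu : u < U) :
    ∑ v ∈ range U, ‖∑ j ∈ range U, E (θ * β ^ (u + j)) * conj (E (θ * β ^ (v + j)))‖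
      ≤ U + 4 * Real.sqrt U * Real.sqrt (8 * U / (|θ| * (β ^ U * (1 - β)) ^ 2)) := by
  set S : ℝ := Real.sqrt (8 * U / (|θ| * (β ^ U * (1 - β)) ^ 2)) with hS
  have hS0 : 0 ≤ S := Real.sqrt_nonneg _
  have hb : ∀ v ∈ range U, ‖∑ j ∈ range U, E (θ * β ^ (u + j)) * conj (E (θ * β ^ (v + j)))‖
      ≤ (if v = u then (U : ℝ) else 0) + (if u < v then S * (1 / Real.sqrt ((v - u : ℕ) : ℝ)) else 0)
        + (if v < u then S * (1 / Real.sqrt ((u - v : ℕ) : ℝ)) else 0) := by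
    intro v hv
    rcases lt_trichotomy u v with h | h | h
    · rw [if_neg (by omega), if_pos h, if_neg (by omega), zero_add, add_zero]
      exact entry h0 h1 hθ hθ1 h (mem_range.1 hv)
    · rw [if_pos h.symm, if_neg (by omega), if_neg (by omega), add_zero, add_zero]
      refine (norm_sum_le _ _).trans ?_
      simp [norm_E]
    · rw [if_neg (by omega), if_neg (by omega), if_pos h, zero_add, zero_add]
      have := entry h0 h1 hθ hθ1 h hu
      rw [← Complex.norm_conj, map_sum]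
      refine le_trans (le_of_eq ?_) this
      congr 1
      apply sum_congr rfl
      intro j _
      rw [map_mul, Complex.conj_conj, mul_comm]
  refine (sum_le_sum hb).trans ?_
  rw [sum_add_distrib, sum_add_distrib]
  have s1 : ∑ v ∈ range U, (if v = u then (U : ℝ) else 0) = U := by
    rw [Finset.sum_ite_eq' (range U) u, if_pos (mem_range.2 hu)]
  have key : ∑ h ∈ range U, 1 / Real.sqrt ((h + 1 : ℕ) : ℝ) ≤ 2 * Real.sqrt U := sum_inv_sqrt U
  have s2 : ∑ v ∈ range U, (if u < v then S * (1 / Real.sqrt ((v - u : ℕ) : ℝ)) else 0)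
      ≤ S * (2 * Real.sqrt U) := by
    rw [← Finset.sum_filter, ← mul_sum]
    apply mul_le_mul_of_nonneg_left _ hS0
    refine le_trans ?_ key
    have e1 : ∑ v ∈ (range U).filter (fun v => u < v), 1 / Real.sqrt ((v - u : ℕ) : ℝ)
        = ∑ h ∈ ((range U).filter (fun v => u < v)).image (fun v => v - u - 1),
          1 / Real.sqrt ((h + 1 : ℕ) : ℝ) := by
      rw [Finset.sum_image]
      · apply sum_congr rfl
        intro v hv
        have := (mem_filter.1 hv).2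
        rw [show v - u - 1 + 1 = v - u by omega]
      · intro v hv w hw h
        have hv' := (mem_filter.1 (Finset.mem_coe.1 hv)).2
        have hw' := (mem_filter.1 (Finset.mem_coe.1 hw)).2
        simp only at h
        omega
    rw [e1]
    apply Finset.sum_le_sum_of_subset_of_nonneg
    · intro h hh
      obtain ⟨v, hv, rfl⟩ := mem_image.1 hh
      have := mem_range.1 (mem_filter.1 hv).1
      rw [mem_range]
      omega
    · intro h _ _
      positivity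
  have s3 : ∑ v ∈ range U, (if v < u then S * (1 / Real.sqrt ((u - v : ℕ) : ℝ)) else 0)
      ≤ S * (2 * Real.sqrt U) := by
    rw [← Finset.sum_filter, ← mul_sum]
    apply mul_le_mul_of_nonneg_left _ hS0
    refine le_trans ?_ key
    have e1 : ∑ v ∈ (range U).filter (fun v => v < u), 1 / Real.sqrt ((u - v : ℕ) : ℝ)
        = ∑ h ∈ ((range U).filter (fun v => v < u)).image (fun v => u - v - 1),
          1 / Real.sqrt ((h + 1 : ℕ) : ℝ) := by
      rw [Finset.sum_image]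
      · apply sum_congr rfl
        intro v hv
        have := (mem_filter.1 hv).2
        rw [show u - v - 1 + 1 = u - v by omega]
      · intro v hv w hw h
        have hv' := (mem_filter.1 (Finset.mem_coe.1 hv)).2
        have hw' := (mem_filter.1 (Finset.mem_coe.1 hw)).2
        simp only at h
        omega
    rw [e1]
    apply Finset.sum_le_sum_of_subset_of_nonneg
    · intro h hh
      obtain ⟨v, hv, rfl⟩ := mem_image.1 hh
      have := mem_range.1 (mem_filter.1 hv).1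
      rw [mem_range]
      omega
    · intro h _ _
      positivity
  rw [s1]
  linarith

/-- the Hankel matrix -/
lemma hankel {θ β : ℝ} (h0 : 0 < β) (h1 : β < 1) (hθ : θ ≠ 0) (hθ1 : |θ| * (1 - β) ≤ 1)
    (U : ℕ) (a y : ℕ → ℂ) :
    ‖∑ u ∈ range U, ∑ j ∈ range U, a u * y j * E (θ * β ^ (u + j))‖ ^ 2
      ≤ (U + 4 * Real.sqrt U * Real.sqrt (8 * U / (|θ| * (β ^ U * (1 - β)) ^ 2)))
        * (∑ u ∈ range U, ‖a u‖ ^ 2) * ∑ j ∈ range U, ‖y j‖ ^ 2 := by
  set R : ℝ := U + 4 * Real.sqrt U * Real.sqrt (8 * U / (|θ| * (β ^ U * (1 - β)) ^ 2)) with hR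
  have e1 : ∑ u ∈ range U, ∑ j ∈ range U, a u * y j * E (θ * β ^ (u + j))
      = ∑ j ∈ range U, y j * ∑ u ∈ range U, a u * E (θ * β ^ (u + j)) := by
    rw [sum_comm]
    apply sum_congr rfl
    intro j _
    rw [mul_sum]
    apply sum_congr rfl
    intro u _
    ring
  have e2 : ‖∑ j ∈ range U, y j * ∑ u ∈ range U, a u * E (θ * β ^ (u + j))‖ ^ 2
      ≤ (∑ j ∈ range U, ‖y j‖ ^ 2)
        * ∑ j ∈ range U, ‖∑ u ∈ range U, a u * E (θ * β ^ (u + j))‖ ^ 2 := by
    have e3 : ‖∑ j ∈ range U, y j * ∑ u ∈ range U, a u * E (θ * β ^ (u + j))‖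
        ≤ ∑ j ∈ range U, ‖y j‖ * ‖∑ u ∈ range U, a u * E (θ * β ^ (u + j))‖ := by
      refine (norm_sum_le _ _).trans (le_of_eq ?_)
      apply sum_congr rfl
      intro j _
      rw [norm_mul]
    refine (pow_le_pow_left₀ (norm_nonneg _) e3 2).trans ?_
    exact Finset.sum_mul_sq_le_sq_mul_sq _ _ _
  have e4 : ∑ j ∈ range U, ‖∑ u ∈ range U, a u * E (θ * β ^ (u + j))‖ ^ 2
      ≤ R * ∑ u ∈ range U, ‖a u‖ ^ 2 := by
    have e5 : ((∑ j ∈ range U, ‖∑ u ∈ range U, a u * E (θ * β ^ (u + j))‖ ^ 2 : ℝ) : ℂ)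
        = ∑ u ∈ range U, ∑ v ∈ range U, a u * conj (a v)
          * ∑ j ∈ range U, E (θ * β ^ (u + j)) * conj (E (θ * β ^ (v + j))) := by
      push_cast
      have e6 : ∀ j ∈ range U, (‖∑ u ∈ range U, a u * E (θ * β ^ (u + j))‖ : ℂ) ^ 2
          = ∑ u ∈ range U, ∑ v ∈ range U, a u * conj (a v)
            * (E (θ * β ^ (u + j)) * conj (E (θ * β ^ (v + j)))) := by
        intro j _
        rw [← Complex.mul_conj', map_sum, sum_mul_sum]
        apply sum_congr rfl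
        intro u _
        apply sum_congr rfl
        intro v _
        rw [map_mul]
        ring
      rw [sum_congr rfl e6, sum_comm]
      apply sum_congr rfl
      intro u _
      rw [sum_comm]
      apply sum_congr rfl
      intro v _
      rw [mul_sum]
    have e7 : ∑ j ∈ range U, ‖∑ u ∈ range U, a u * E (θ * β ^ (u + j))‖ ^ 2
        ≤ ∑ u ∈ range U, ∑ v ∈ range U, ‖a u‖ * ‖a v‖
          * ‖∑ j ∈ range U, E (θ * β ^ (u + j)) * conj (E (θ * β ^ (v + j)))‖ := by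
      have e8 : ‖((∑ j ∈ range U, ‖∑ u ∈ range U, a u * E (θ * β ^ (u + j))‖ ^ 2 : ℝ) : ℂ)‖
          = ∑ j ∈ range U, ‖∑ u ∈ range U, a u * E (θ * β ^ (u + j))‖ ^ 2 := by
        rw [Complex.norm_real, Real.norm_eq_abs, abs_of_nonneg (by positivity)]
      rw [← e8, e5]
      refine (norm_sum_le _ _).trans (sum_le_sum fun u _ => ?_)
      refine (norm_sum_le _ _).trans (sum_le_sum fun v _ => ?_)
      rw [norm_mul, norm_mul, Complex.norm_conj]
    refine e7.trans ?_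
    set Tm : ℕ → ℕ → ℝ := fun u v =>
      ‖∑ j ∈ range U, E (θ * β ^ (u + j)) * conj (E (θ * β ^ (v + j)))‖ with hTm
    have hsymm : ∀ u v, Tm u v = Tm v u := by
      intro u v
      rw [hTm]
      simp only
      rw [← Complex.norm_conj, map_sum]
      congr 1
      apply sum_congr rfl
      intro j _
      rw [map_mul, Complex.conj_conj, mul_comm]
    have hT0 : ∀ u v, 0 ≤ Tm u v := fun u v => norm_nonneg _
    have e9 : ∑ u ∈ range U, ∑ v ∈ range U, ‖a u‖ * ‖a v‖ * Tm u v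
        ≤ ∑ u ∈ range U, ∑ v ∈ range U, (‖a u‖ ^ 2 / 2 * Tm u v + ‖a v‖ ^ 2 / 2 * Tm u v) := by
      apply sum_le_sum
      intro u _
      apply sum_le_sum
      intro v _
      have : ‖a u‖ * ‖a v‖ ≤ ‖a u‖ ^ 2 / 2 + ‖a v‖ ^ 2 / 2 := by
        nlinarith [sq_nonneg (‖a u‖ - ‖a v‖)]
      have := mul_le_mul_of_nonneg_right this (hT0 u v)
      linarith
    have hrow : ∀ u ∈ range U, ∑ v ∈ range U, Tm u v ≤ R := fun u hu =>
      row h0 h1 hθ hθ1 (mem_range.1 hu)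
    have e10 : ∑ u ∈ range U, ∑ v ∈ range U, ‖a u‖ ^ 2 / 2 * Tm u v
        ≤ R / 2 * ∑ u ∈ range U, ‖a u‖ ^ 2 := by
      rw [mul_sum]
      apply sum_le_sum
      intro u hu
      rw [← mul_sum]
      have := mul_le_mul_of_nonneg_left (hrow u hu) (by positivity : 0 ≤ ‖a u‖ ^ 2 / 2)
      linarith
    have e11 : ∑ u ∈ range U, ∑ v ∈ range U, ‖a v‖ ^ 2 / 2 * Tm u v
        ≤ R / 2 * ∑ u ∈ range U, ‖a u‖ ^ 2 := by
      rw [sum_comm]
      refine le_trans (le_of_eq ?_) e10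
      apply sum_congr rfl
      intro u _
      apply sum_congr rfl
      intro v _
      rw [hsymm]
    refine e9.trans ?_
    simp only [sum_add_distrib]
    linarith
  rw [e1]
  refine e2.trans ?_
  have := mul_le_mul_of_nonneg_left e4 (by positivity : 0 ≤ ∑ j ∈ range U, ‖y j‖ ^ 2)
  linarith

end M4
end Pool.Agent.Lib.MP391708.X
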