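import Pool.Agent.Lib.MP_391708_nt.X.MT.Main
import Pool.Agent.Lib.MP_391708_nt.X.PH.Main

/-!
# THEOREM X (MP_391708): the main term without hypotheses
-/

set_option autoImplicit false

namespace Pool.Agent.Lib.MP391708.X

/-- the main term -/
theorem mtm_mt : SpecMT := XM.mtOf PH.mPHX

end Pool.Agent.Lib.MP391708.X
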