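import Pool.Agent.Lib.MP_391708_nt.X.Spec

/-!
# THEOREM X (MP_391708), part O: from VAR and MT to the theorem for one scale

Modules YSET, CNTX, CSX, ONE.  File `X/O/XXX.lean`, `import Pool.Agent.Lib.MP_391708_nt.X.SpecO`, namespace
`Pool.Agent.Lib.MP391708.X`, own lemmas in the namespace `XXXM`, `theorem specXXX (hYYY : SpecYYY) .. : SpecXXX`.
-/

set_option autoImplicit false

namespace Pool.Agent.Lib.MP391708.X

open Finset Filter Topology Pool.Agent.Lib.MP391708.MR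
open scoped ComplexConjugate

/-- `Y` is a set of outer factors: squarefree norms with exactly `r` prime factors, pairwise not associated, all norms at
most `D` and all Gaussian prime factors of norm at least `z`. -/
structure YOK (r : ℕ) (z D : ℝ) (Y : Finset Gi) : Prop where
  sq : ∀ y ∈ Y, Squarefree (nm y) ∧ (nm y).primeFactors.card = r
  na : ∀ y ∈ Y, ∀ y' ∈ Y, Associated y y' → y = y'
  le : ∀ y ∈ Y, (nm y : ℝ) ≤ D
  rg : ∀ y ∈ Y, ∀ π : Gi, Prime π → π ∣ y → z < (nm π : ℝ)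

/-- YSET (200 lines, from MR.SpecPG).  For `x ≥ x₀` (think `x = log N`): outer factors with `∑ 1/N(y) ≥ 1`.
Proof.  PG (2) gives `C` with `|WW P Q - (loglog Q - loglog P)| ≤ C` for `3 ≤ P ≤ Q`.  Put `D = exp(C+1)` (`D ≥ 1`), and for
`i < r` let `S_i = GP (x^(a D^(2i))) (x^(a D^(2i+1)))`, so `∑_{π ∈ S_i} 1/N(π) ≥ log D - C ≥ 1`.  `Y` = the set of the products
`∏_i π_i`, `π_i ∈ S_i`, image of `Fintype.piFinset S` (`S : Fin r → Finset Gi`).  The ranges of the norms are disjoint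
(`x ≥ 3`, `D^(2i+1) < D^(2i+2)` when `C` is taken `≥ 1`), the norm of `π_i` is a rational prime, so `N(y)` is a product of
`r` different primes; two products with associated values have, for every `i`, the same factor of norm in the `i`-th range up to
a unit, and both are in the open first quadrant, so they are equal: the map is injective and the values are pairwise not
associated.  `∑_{y∈Y} 1/N(y) = ∏_i ∑_{π∈S_i} 1/N(π) ≥ 1` (`Finset.prod_univ_sum`).  A Gaussian prime dividing `y` is associated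
to some `π_i`, so its norm is `> x^a`.  `N(y) ≤ x^(∑ a D^(2i+1)) ≤ x^A'`, `A' = r a D^(2r+1) + 1`.  `r = 0`: `Y = {1}`. -/
def SpecYSET : Prop := ∀ (r : ℕ) (a : ℝ), 0 < a → ∃ A' : ℝ, 0 < A' ∧ ∀ᶠ x : ℝ in atTop,
  ∃ Y : Finset Gi, YOK r (x ^ a) (x ^ A') Y ∧ 1 ≤ ∑ y ∈ Y, 1 / (nm y : ℝ)

/-- CNTX (300 lines).  The sum with `Eta` counts.  `p.P ≥ 2`, `p.h > 0`, the ranges of the norms are disjoint.
Proof.  `Eta p z = #{(π₄, π₂) ∈ GP M₄ 2M₄ × GP M₂ 2M₂ : π₄ π₂ ~ z}`: `π ∈ GP M 2M` lies in exactly one `cell p.h M (2M) v` with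
`v ∈ VV p.h M (2M)` (monotonicity of the floor, `M ≥ 1`).  So the left side is the number of the tuples
`(y, z₁, π₃, z', π₄, π₂)`, `y ∈ Y`, `z₁ ∈ GP (K/N(y)) (2K/N(y))`, `π₃ ∈ GP P 2P`, `z' ∈ disc (N T)` on the line, `π₄ π₂ ~ z'`.
Send it to `n = Re (y z₁ π₃ z') > 0`; then `y z₁ π₃ z' = n + i b` and `n² + b² = N(y) N(z₁) N(π₃) N(π₄) N(π₂)`
`≤ 2K · 2P · 2M₄ · 2M₂ = N²`, so `n ≤ N`.  All prime factors of `N(y)` are `≤ N(y) ≤ P`, `N(π₃) ∈ (P, 2P]`, `N(π₄) ∈ (M₄, 2M₄]`,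
`N(π₂) ∈ (M₂, 2M₂]`, `N(z₁) > K/N(y) ≥ K/P`: different primes by `2P < M₄`, `2M₄ < M₂`, `2M₂ < K/P`; so `n² + b²` is squarefree
with `k` prime factors.  Injectivity: let two tuples have the same `n`.  `z₁` is a prime dividing `n + ib`, it is associated to
one of the prime factors `y_i', z₁', π₃', π₄', π₂'` of `n + ib`; comparing norms it is `z₁'`, up to a unit, and both lie in the open
first quadrant: `z₁ = z₁'`.  The same for `π₂, π₄, π₃`.  Then `y z' = y' z''` with `z' ~ π₄π₂ ~ z''`, so `y ~ y'`, `y = y'`, `z' = z''`. -/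
def SpecCNTX : Prop := ∀ (k : ℕ) (p : Par) (Y : Finset Gi) (z : ℝ) (b : ℕ), 4 ≤ k → 2 ≤ p.P → 0 < p.h → 0 < p.T →
  1 ≤ p.N → YOK (k - 4) z p.P Y → 2 * p.P < p.M4 → 2 * p.M4 < p.M2 → 2 * p.M2 < p.K / p.P → 1 ≤ b →
  (∑ y ∈ Y, sy p y b (Eta p)).re ≤ (cnt k b p.N : ℝ)

/-- CSX (200 lines).  Cauchy–Schwarz.
Proof.  `∑_{y ∈ Y} sy p y b g = ∑_{(y,z₁)} ls p (y z₁) b g`.  The map `(y, z₁) ↦ y z₁` is injective: `z₁` is a prime of norm
`> K/P > P ≥ N(y')`, so it divides `y' z₁'` only if it is associated to `z₁'`, hence equal (first quadrant), then `y = y'`.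
`N(y z₁) ∈ (K, 2K]`, and `y z₁` is primitive: a rational prime `q` dividing `y z₁` has `q² ∣ N(y) N(z₁)`, which is squarefree
(`N(z₁)` is a prime `> P`).  So Cauchy–Schwarz and `#ann K 2K ≤ #disc (2K) ≤ (2√(2K)+1)² ≤ 20 K` (`K ≥ 1`) give the claim
(add the missing nonnegative terms), sum over `b`. -/
def SpecCSX : Prop := ∀ (r : ℕ) (p : Par) (Y : Finset Gi) (z B : ℝ) (g : Gi → ℂ), 2 ≤ p.P → 0 < p.T → 1 ≤ p.K →
  p.P ^ 2 < p.K → YOK r z p.P Y →
  ∑ b ∈ Ioc ⌊B⌋₊ ⌊2 * B⌋₊, ‖∑ y ∈ Y, sy p y b g‖ ^ 2 ≤ 20 * p.K * Var p B g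

/-- ONE (250 lines, from VAR, MT, YSET, CNTX, CSX).
Proof.  Given `k ≥ 4`, `A`.  VAR with `A + 12`: `cw aU aQ aF ch0`; MT: its `ch0`; `ch` = the larger of the two `ch0`.  YSET with `r = k - 4`,
`a = max cw aQ`: `A'`.  Take `cP` larger than the two `cP0` (VAR, MT) and than `2 A' + 2`, then `cT` larger than the two `cT0` and than `cP + 2`, then `cB` the maximum of the
two `cB` and `1`.  Let `N` be large, `p = par N cT cP ch cw`, `B` as in the statement, `U` from VAR, `Y` from YSET (`x = log N`).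
`sy` is linear in `g`, so for `b ∈ (B, 2B]`: `cnt ≥ Re ∑_y sy(Eta) = Re ∑_y sy(Kap) + Re ∑_y sy(Eta - Kap)`
`≥ ∑_y 2N/(ℓ⁴ N(y)) - ‖D_b‖ ≥ 2N/ℓ⁴ - ‖D_b‖`, `D_b = ∑_y sy(Eta - Kap)` (a rational prime dividing `y` would give a square
in `N(y)`, so `y` is primitive; a Gaussian prime `π ∣ y` has norm `> ℓ^a`).  If `cnt < N/ℓ⁵` then `‖D_b‖ ≥ N/ℓ⁴ ≥ N/ℓ⁵`.  By CSX
and VAR `∑_b ‖D_b‖² ≤ 20 K ℓ^(-A-12) B K T² = 20 ℓ^(-A-12) B N²`, so the number of such `b` is at most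
`20 ℓ^(-A-2) B ≤ B ℓ^(-A)`.  The size conditions of CNTX and CSX hold for `N` large (`P, T` powers of `ℓ`, `T/(16P) > 2`). -/
def specONEstmt : Prop := SpecVAR → SpecMT → SpecYSET → SpecCNTX → SpecCSX → SpecONE

end Pool.Agent.Lib.MP391708.X
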