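import Pool.Agent.Lib.MP_391708_nt.X.SpecO

/-!
# THEOREM X (MP_391708): lines without the condition `Re > 0`, and the assembly for one scale

The variance part (`X/SpecVAR`, `X/V/*`) uses the lines `Im (ζ π₃ z) = b` without `Re > 0`.  The part with `Re < 0` is the
part with `Re > 0` for the conjugate objects: `sig z = i z̄ = ⟨z.im, z.re⟩` maps `GP` to itself.

Modules SYM, SGU, YSG, CSX2, ONE2: files `X/O/XXX.lean`, `import Pool.Agent.Lib.MP_391708_nt.X.Spec2`, namespace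
`Pool.Agent.Lib.MP391708.X`, own lemmas in the namespace `XXXM`, `theorem specXXX (hYYY : SpecYYY) .. : SpecXXX`.
-/

set_option autoImplicit false

namespace Pool.Agent.Lib.MP391708.X

open Finset Filter Topology Pool.Agent.Lib.MP391708.MR
open scoped ComplexConjugate

open scoped Classical in
/-- the sum of `g(z')` over the `π₃` and the `z'` with `Im (ζ π₃ z') = b` -/
noncomputable def ls2 (p : Par) (ζ : Gi) (b : ℕ) (g : Gi → ℂ) : ℂ :=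
  ∑ π ∈ GP p.P (2 * p.P), ∑ z ∈ (disc (p.N * p.T)).filter (fun z => (ζ * π * z).im = (b : ℤ)), g z

/-- the variance -/
noncomputable def Var2 (p : Par) (B : ℝ) (g : Gi → ℂ) : ℝ :=
  ∑ b ∈ Ioc ⌊B⌋₊ ⌊2 * B⌋₊, ∑ ζ ∈ (ann p.K (2 * p.K)).filter prim, ‖ls2 p ζ b g‖ ^ 2

/-- the sum over `z₁` for a fixed `y` -/
noncomputable def sy2 (p : Par) (y : Gi) (b : ℕ) (g : Gi → ℂ) : ℂ :=
  ∑ z₁ ∈ GP (p.K / nm y) (2 * p.K / nm y), ls2 p (y * z₁) b g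

/-- `i` times the conjugate -/
def sig (z : Gi) : Gi := ⟨z.im, z.re⟩

/-- the conjugate index -/
noncomputable def sigi (i : Ix) : Ix := (i.1, (fun z => i.2.1 (star z)), -i.2.2)

open scoped Classical in
/-- the conjugate set of characters -/
noncomputable def sigU (U : Finset Ix) : Finset Ix := U.image sigi

/-- VAR2: the variance is small, for a suitable set `U` of Hecke characters.  (As `SpecVAR` of `X/Spec.lean`, with `Var2`.)
The exponents `cw` (sieve), `aU`, `aQ`, `aF` do not depend on `ch`, `cP`, `cT`, `cB`. -/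
def SpecVAR2 : Prop := ∀ A : ℝ, 0 < A → ∃ cw aU aQ aF ch0 : ℝ, 2 * aQ ≤ cw ∧ 1 ≤ aU ∧ 1 ≤ aQ ∧ 1 ≤ aF ∧ 1 ≤ ch0 ∧
  ∀ ch : ℝ, ch0 ≤ ch → ∃ cP0 : ℝ, ∀ cP : ℝ, cP0 ≤ cP → ∃ cT0 : ℝ, ∀ cT : ℝ, cT0 ≤ cT → ∃ cB : ℝ, ∀ᶠ N : ℝ in atTop,
  ∀ B : ℝ, Real.log N ^ cB ≤ B → B ^ 2 ≤ 2 * N →
  ∃ U : Finset Ix, UOK (Real.log N ^ aQ) (Real.log N ^ aF * (N / B)) (Real.log N ^ aU) U ∧
    Var2 (par N cT cP ch cw) B (fun z => Eta (par N cT cP ch cw) z - Kap (par N cT cP ch cw) U z) ≤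
      Real.log N ^ (-A) * (B * (par N cT cP ch cw).K * (par N cT cP ch cw).T ^ 2)

/-- SYM (250 lines).  The lines with `Re < 0`.
Proof.  `sig z = i z̄` (`star z` is the conjugate), `sig (sig z) = z`, `nm (sig z) = nm z`, and `sig` is a bijection of `GP x x'`
(`0 < re`, `0 < im`, norm), hence of every `cell h x x' v`.  `sig x * sig y = i² x̄ ȳ = i sig (x y)`.
Let `ω = y z₁ π`, `ω' = sig y * sig z₁ * sig π = i³ ω̄ = -i ω̄`.  If `ω z = -m + i b` then `ω' z' = m + i b` for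
`z' = -i z̄ = -sig z`: `ω' z' = (-i ω̄)(-i z̄) = -conj (ω z) = m + i b`.  So `z ↦ -sig z` is a bijection of the `z ∈ disc D` with
`Im (ω z) = b`, `Re (ω z) < 0` onto the `z' ∈ disc D` with `On ω' b z'` (its inverse is the same map).
`Eta p (-sig z) = Eta p z`: `π₄ π₂ ~ z` iff `sig π₄ * sig π₂ ~ -sig z`, and `sig` is a bijection of the cells.
`Kap p (sigU U) (-sig z) = Kap p U z`: `-sig z` has the norm of `z` and is rough iff `z` is (`π ∣ z` iff `star π ∣ star z`);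
`psi (sigi i) x = ψ_i(x̄)` (`dir (star x) = conj (dir x)`, `xi (-k) x = conj (xi k x)` for `x ≠ 0`), so
`psi (sigi i) (-sig z) = ψ_i(i z) = ψ_i(z)` (`ψ_i(i) = 1`; `ψ_i = hk` is multiplicative on nonzero elements, `MR` `xi_mul`), and
`S4 (sigi i) v = ∑ ψ_i(π̄) = ∑ ψ_i(sig π) = S4 i v` (`π̄ = -i sig π`), the same for `S2`, so `cc` is unchanged; `sigi` is injective
on `U` (it is an involution), so the sum over `sigU U` is the sum over `U`.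
The terms with `Re (ω z) = 0`, `Im = b` vanish: then `nm (ω z) = b²`, but `nm ω > K P` (`nm z₁ > K / nm y`), and `g z ≠ 0`
gives `nm z ≥ M₄ M₂ e^(-2/h) ≥ M₄ M₂ / 8` (for `Kap`: `h log nm z ≥ v4 + v2 ≥ h log M₄ + h log M₂ - 2`; for `Eta`: `nm z > M₄ M₂`), so
`nm (ω z) ≥ N²/128 > b²`.  Sum over `z₁`, `π` and replace `z₁`, `π` by `sig z₁`, `sig π`. -/
def SpecSYM : Prop := ∀ (p : Par) (U : Finset Ix) (y : Gi) (b : ℕ), 1 ≤ p.N → 1 ≤ p.h → 0 < p.T → 2 ≤ p.P →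
  1 ≤ p.M2 → y ≠ 0 → 1 ≤ b → 128 * (b : ℝ) ^ 2 < p.N ^ 2 → (∀ i ∈ U, psi i ⟨0, 1⟩ = 1 ∧ ∃ f : ℕ, 1 ≤ f ∧ ChiG (f : Gi) i.2.1) →
  sy2 p y b (Kap p U) = sy p y b (Kap p U) + sy p (sig y) b (Kap p (sigU U)) ∧
    sy2 p y b (Eta p) = sy p y b (Eta p) + sy p (sig y) b (Eta p)

/-- SGU (80 lines).  The conjugate set is admissible.
Proof.  `ChiG (f : Gi) (χ ∘ star)`: `star (x + f y) = star x + f star y`, `IsCoprime (star x) f` iff `IsCoprime x f` (apply `star`);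
`psi (sigi i) i = χ(-i) (-i)^(-k).. = conj`-value: `psi (sigi i) x = psi i (star x)` for `x ≠ 0`, and `ψ_i(-i) = ψ_i(i)³ = 1`.
`Dist`: use `star z`.  `sigi ix1 = ix1`. -/
def SpecSGU : Prop := ∀ (Q F W : ℝ) (U : Finset Ix), UOK Q F W U → UOK Q F W (sigU U)

/-- YSG (80 lines).  The conjugate outer factors.
Proof.  `nm (sig y) = nm y`; `sig y ~ sig y'` iff `star y ~ star y'` iff `y ~ y'`; a prime `π ∣ sig y = i ȳ` gives `π̄ ∣ y`, the same norm. -/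
def SpecYSG : Prop := ∀ (r : ℕ) (z D : ℝ) (Y : Finset Gi), YOK r z D Y →
  ∃ Y' : Finset Gi, YOK r z D Y' ∧ ∀ f : Gi → ℂ, ∑ y ∈ Y', f y = ∑ y ∈ Y, f (sig y)

/-- CSX2 (200 lines).  Cauchy–Schwarz, exactly as CSX with `sy2`, `Var2`. -/
def SpecCSX2 : Prop := ∀ (r : ℕ) (p : Par) (Y : Finset Gi) (z B : ℝ) (g : Gi → ℂ), 2 ≤ p.P → 0 < p.T → 1 ≤ p.K →
  p.P ^ 2 < p.K → YOK r z p.P Y →
  ∑ b ∈ Ioc ⌊B⌋₊ ⌊2 * B⌋₊, ‖∑ y ∈ Y, sy2 p y b g‖ ^ 2 ≤ 20 * p.K * Var2 p B g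

/-- ONE2 (300 lines, from VAR2, MT, YSET, CNTX, CSX2, SYM, SGU, YSG).
Proof.  Given `k ≥ 4`, `A`.  VAR2 with `A + 12`: `cw aU aQ aF ch0`; MT: its `ch0`; `ch` = the larger of the two `ch0`.  YSET with
`r = k - 4`, `a = max cw aQ`: `A'`.  Take `cP` larger than the two `cP0` (VAR2, MT) and than `2 A' + 2`, then `cT` larger than the two
`cT0` and than `cP + 2`, then `cB` the maximum of the two `cB` and `1`.  Let `N` be large, `p = par N cT cP ch cw`, `B` as in the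
statement, `U` from VAR2, `Y` from YSET (`x = log N`), `Y'` from YSG, `U' = sigU U` (SGU).  For `b ∈ (B, 2B]`: CNTX for `Y` and for `Y'`:
`2 cnt ≥ Re ∑_{y∈Y} (sy y Eta + sy (sig y) Eta) = Re ∑_y sy2 y Eta` (SYM) `= Re ∑_y sy2 y (Kap U) + Re D_b`,
`D_b = ∑_y sy2 y (Eta - Kap U)` (`sy2` is linear in `g`), and by SYM and MT (for `U`, `y` and for `U'`, `sig y`)
`Re ∑_y sy2 y (Kap U) = Re ∑_y (sy y (Kap U) + sy (sig y) (Kap U')) ≥ ∑_y 4N/(ℓ⁴ N(y)) ≥ 4N/ℓ⁴`.  (A rational prime dividing `y`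
would give a square in `N(y)`, so `y` is primitive, the same for `sig y`; a Gaussian prime `π ∣ y` or `π ∣ sig y` has norm `> ℓ^a`.)
If `cnt < N/ℓ⁵` then `‖D_b‖ ≥ 4N/ℓ⁴ - 2N/ℓ⁵ ≥ N/ℓ⁴`.  By CSX2 and VAR2 `∑_b ‖D_b‖² ≤ 20 K ℓ^(-A-12) B K T² = 20 ℓ^(-A-12) B N²`,
so the number of such `b` is at most `20 ℓ^(-A-4) B ≤ B ℓ^(-A)`.  The size conditions of CNTX, CSX2, SYM hold for `N` large
(`P, T` powers of `ℓ`, `T/(16P) > 2`; `128 b² ≤ 512 B² ≤ 1024 N < N²`). -/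
def SpecONE2 : Prop := SpecVAR2 → SpecMT → SpecYSET → SpecCNTX → SpecCSX2 → SpecSYM → SpecSGU → SpecYSG → SpecONE

end Pool.Agent.Lib.MP391708.X
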