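import Pool.Agent.Lib.MP_391708_nt.MR.Spec

/-!
# Theorem X, part HM: sums of Hecke characters over discs, annuli, residue classes and rough
numbers, uniformly in the modulus; the Gram matrix; the simple Halász–Montgomery inequality

Exact statements.  A module proves `theorem specXXX ... : SpecXXX` in its own file
`X/XXX.lean`, from the `Spec`s named in brackets (hypotheses, in this order).  `SpecVDC` is
proved in `MR/VDC.lean`.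
-/

set_option autoImplicit false

namespace Pool.Agent.Lib.MP391708.X

open Pool.Agent.Lib.MP391708.MR
open Finset Filter Topology
open scoped ComplexConjugate

/-! ## Definitions -/

/-- characters modulo the Gaussian integer `m`, extended by `0` (not necessarily primitive;
a rational modulus `q` is `m = (q : Gi)`, of norm `q ^ 2`). -/
structure ChiG (m : Gi) (χ : Gi → ℂ) : Prop where
  ne : m ≠ 0
  one : χ 1 = 1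
  mul : ∀ x y, χ (x * y) = χ x * χ y
  period : ∀ x y, χ (x + m * y) = χ x
  supp : ∀ x, χ x ≠ 0 ↔ IsCoprime x m

/-- the Hecke character `(χ, k)`: `z ↦ χ(z) (z/|z|)^k` -/
noncomputable def hk (χ : Gi → ℂ) (k : ℤ) (z : Gi) : ℂ := χ z * xi k z

/-- `(χ₁, k₁)` and `(χ₂, k₂)` are different on the numbers prime to both moduli -/
def Dist (χ₁ χ₂ : Gi → ℂ) (k₁ k₂ : ℤ) : Prop :=
  k₁ ≠ k₂ ∨ ∃ z, χ₁ z ≠ 0 ∧ χ₂ z ≠ 0 ∧ χ₁ z ≠ χ₂ z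

/-- a finite family of pairwise different Hecke characters, moduli of norm at most `Q`,
frequencies at most `K` -/
structure Fam {ι : Type} (U : Finset ι) (χ : ι → Gi → ℂ) (k : ι → ℤ) (Q K : ℝ) : Prop where
  chi : ∀ i ∈ U, ∃ m : Gi, (nm m : ℝ) ≤ Q ∧ ChiG m (χ i)
  frq : ∀ i ∈ U, |(k i : ℝ)| ≤ K
  dist : ∀ i ∈ U, ∀ j ∈ U, i ≠ j → Dist (χ i) (χ j) (k i) (k j)

/-- no Gaussian prime of norm at most `w` divides `z` -/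
def rgh (w : ℝ) (z : Gi) : Prop := ∀ π : Gi, Prime π → π ∣ z → w < (nm π : ℝ)

/-- the Gaussian primes of norm at most `w`, one of each class of associates -/
noncomputable def PI (w : ℝ) : Finset Gi := by
  classical exact (disc w).filter (fun π => Prime π ∧ 0 < π.re ∧ 0 ≤ π.im)

/-- `∏ (1 - 1/N(π))` over the primes of norm at most `w` -/
noncomputable def VP (w : ℝ) : ℝ := ∏ π ∈ PI w, (1 - 1 / (nm π : ℝ))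

/-! ## Uniform van der Corput and counting -/

/-- TYU [SpecVDC]: `MR/Type` uniformly in the modulus. Proof: `TypeM.type_mid` and
`TypeM.type_ind` with `m ≤ x ^ c`: in `BND_le` one has `K = K₁ m ^ q`, `K ^ e ≤ K₁ ^ e x ^ (c q)`,
`K ^ (-e) ≤ K₁ ^ (-e)`; `K x ^ (-1/2) ≤ 1`; `type_small` is explicit. The saving `c'` of
`type_mid` for fixed `m` does not depend on `m`; take `c ≤ c' / (2 B)`. -/
def SpecTYU : Prop := ∀ A B : ℝ, 1 ≤ A → 1 ≤ B → ∃ c : ℝ, 0 < c ∧ B * c < 1 ∧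
  ∀ᶠ x : ℝ in atTop, ∀ m : ℕ, 0 < m → (m : ℝ) ≤ x ^ c → ∀ k : ℤ, k ≠ 0 → |(k : ℝ)| ≤ x ^ A →
    ∀ w : Gi,
      ‖∑ z ∈ (disc x).filter (fun z => (m : ℤ) ∣ z.re - w.re ∧ (m : ℤ) ∣ z.im - w.im), xi k z‖ ≤
        x ^ (1 - B * c)

/-- CTU: `MR/Count` uniformly in the modulus (same proof). -/
def SpecCTU : Prop := ∃ C : ℝ, 0 < C ∧ ∀ m : ℕ, 0 < m → ∀ (w : Gi) (Y : ℝ), 0 ≤ Y →
  |(((disc Y).filter (fun z => (m : ℤ) ∣ z.re - w.re ∧ (m : ℤ) ∣ z.im - w.im)).card : ℝ)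
    - Real.pi * Y / (m : ℝ) ^ 2| ≤ C * (Real.sqrt Y / m + 1)

/-! ## Characters -/

/-- SCZ: a nonprincipal character has sum zero over the residues modulo the norm of the modulus.
Proof: `z ↦ u z` with `χ u ≠ 0, 1`, `u v ≡ 1 mod m`, permutes the classes modulo `m`, and every
class modulo `m` contains the same number of classes modulo `N(m)`. -/
def SpecSCZ : Prop := ∀ (m : Gi) (χ : Gi → ℂ), ChiG m χ → (∃ z, χ z ≠ 0 ∧ χ z ≠ 1) →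
  ∑ p ∈ (range (nm m)) ×ˢ (range (nm m)), χ (⟨(p.1 : ℤ), (p.2 : ℤ)⟩ : Gi) = 0

/-- ANC [SpecTYU, SpecCTU, SpecSCZ]: sums of a nontrivial Hecke character over discs. Proof:
`k ≠ 0`: split into the `N(m) ^ 2` classes modulo `N(m)`, on which `χ` is constant, and use TYU at
`y ≥ x ^ (1/2)` (with `2 A`, `B + 2`, `c/2`); `k = 0`: CTU and SCZ. For `y < x ^ (1/2)` the bound
is trivial (`card_disc_le`). -/
def SpecANC : Prop := ∀ A B : ℝ, 1 ≤ A → 1 ≤ B → ∃ c : ℝ, 0 < c ∧ B * c < 1 ∧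
  ∀ᶠ x : ℝ in atTop, ∀ (m : Gi) (χ : Gi → ℂ) (k : ℤ), ChiG m χ → (nm m : ℝ) ≤ x ^ c →
    |(k : ℝ)| ≤ x ^ A → (k ≠ 0 ∨ ∃ z, χ z ≠ 0 ∧ χ z ≠ 1) → ∀ y : ℝ, 0 ≤ y → y ≤ x →
      ‖∑ z ∈ disc y, hk χ k z‖ ≤ x ^ (1 - B * c)

/-- PAR [SpecANC]: pairs of different characters over the multiples of `d` in an annulus
(this is the hypothesis of the Halász–Montgomery inequality with a majorant). Proof:
`χ₁ conj χ₂` is a character modulo `m₁ m₂`, `xi k₁ conj (xi k₂) = xi (k₁ - k₂)`, the annulus is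
the difference of two discs, and `z = d z'` gives `ψ(d)` times the sum over the disc of radius
`y / N(d)`. -/
def SpecPAR : Prop := ∀ A B : ℝ, 1 ≤ A → 1 ≤ B → ∃ c : ℝ, 0 < c ∧ B * c < 1 ∧
  ∀ᶠ x : ℝ in atTop, ∀ (m₁ m₂ : Gi) (χ₁ χ₂ : Gi → ℂ) (k₁ k₂ : ℤ), ChiG m₁ χ₁ → ChiG m₂ χ₂ →
    (nm m₁ : ℝ) ≤ x ^ c → (nm m₂ : ℝ) ≤ x ^ c → |(k₁ : ℝ)| ≤ x ^ A → |(k₂ : ℝ)| ≤ x ^ A →
    Dist χ₁ χ₂ k₁ k₂ → ∀ d : Gi, d ≠ 0 → ∀ y y' : ℝ, 0 ≤ y → y ≤ y' → y' ≤ x → ∀ S : Finset Gi,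
      (∀ z, z ∈ S ↔ z ∈ ann y y' ∧ d ∣ z) →
        ‖∑ z ∈ S, hk χ₁ k₁ z * conj (hk χ₂ k₂ z)‖ ≤ x ^ (1 - B * c)

/-! ## Halász–Montgomery, simple form -/

/-- HMS: the inequality (duality and `|c_i c_j| ≤ (|c_i|^2 + |c_j|^2)/2`). -/
def SpecHMS : Prop := ∀ (ι : Type) (U : Finset ι) (S : Finset Gi) (ψ : ι → Gi → ℂ) (a : Gi → ℂ)
  (M : ℝ), 0 ≤ M → (∀ i ∈ U, ∑ j ∈ U, ‖∑ z ∈ S, ψ i z * conj (ψ j z)‖ ≤ M) →
    ∑ i ∈ U, ‖∑ z ∈ S, a z * ψ i z‖ ^ 2 ≤ M * ∑ z ∈ S, ‖a z‖ ^ 2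

/-- HMT [SpecHMS, SpecPAR, SpecCTU]: for a small family of characters, over an annulus. (Take `a`
zero outside the primes.) -/
def SpecHMT : Prop := ∀ A : ℝ, 1 ≤ A → ∃ c : ℝ, 0 < c ∧ c < 1 ∧ ∀ᶠ x : ℝ in atTop,
  ∀ (ι : Type) (U : Finset ι) (χ : ι → Gi → ℂ) (k : ι → ℤ), Fam U χ k (x ^ c) (x ^ A) →
    (U.card : ℝ) ≤ x ^ c → ∀ (y y' : ℝ) (a : Gi → ℂ), 0 ≤ y → y ≤ y' → y' ≤ x →
      ∑ i ∈ U, ‖∑ z ∈ ann y y', a z * hk (χ i) (k i) z‖ ^ 2 ≤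
        (Real.pi * (y' - y) + x ^ (1 - c)) * ∑ z ∈ ann y y', ‖a z‖ ^ 2

/-! ## Rough numbers -/

/-- LGD: the formula of Legendre in `ℤ[i]`: `∏ T ∣ z` iff every member of `T` divides `z`. -/
def SpecLGD : Prop := ∀ (w : ℝ) (S : Finset Gi) (f : Gi → ℂ), (∀ z ∈ S, z ≠ 0) →
  ∀ (S₁ : Finset Gi) (S₂ : Finset Gi → Finset Gi), (∀ z, z ∈ S₁ ↔ z ∈ S ∧ rgh w z) →
    (∀ (T : Finset Gi) (z : Gi), z ∈ S₂ T ↔ z ∈ S ∧ (∏ π ∈ T, π) ∣ z) →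
      ∑ z ∈ S₁, f z = ∑ T ∈ (PI w).powerset, (-1) ^ T.card * ∑ z ∈ S₂ T, f z

/-- RKN: the tail of the formula of Legendre (trick of Rankin with exponent `1/(4 A)`:
`∑ over T, N(∏T) > D, of 1/N ≤ D ^ (-s) ∏ (1 + N(π) ^ (s-1))`, and
`∑ N(π) ^ (s - 1) ≤ 4 w ^ s ∑_{n ≤ w} 1/n ≤ (log x) ^ (1/2)`). -/
def SpecRKN : Prop := ∀ A b : ℝ, 1 ≤ A → 0 < b → ∃ c : ℝ, 0 < c ∧ ∀ᶠ x : ℝ in atTop,
  ∀ w : ℝ, w ≤ Real.log x ^ A →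
    ∑ T ∈ (PI w).powerset.filter (fun T => x ^ b < ∏ π ∈ T, (nm π : ℝ)),
      1 / ∏ π ∈ T, (nm π : ℝ) ≤ x ^ (-c)

/-- NTS: the number of `T` below `D`: at most `9 D` (the product determines `T`). -/
def SpecNTS : Prop := ∀ w D : ℝ, 0 ≤ D →
  (((PI w).powerset.filter (fun T => ∏ π ∈ T, (nm π : ℝ) ≤ D)).card : ℝ) ≤ 9 * D

/-- RG0 [SpecLGD, SpecRKN, SpecNTS, SpecCTU]: the number of rough elements of an annulus. Proof: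
Legendre; `T` with `N(∏T) ≤ x ^ b`: `z = d z'` and CTU with `m = 1`; the others: there are at most
`9 x / N(∏T)` multiples; RKN. -/
def SpecRG0 : Prop := ∀ A : ℝ, 1 ≤ A → ∃ c : ℝ, 0 < c ∧ c < 1 ∧ ∀ᶠ x : ℝ in atTop,
  ∀ w y y' : ℝ, w ≤ Real.log x ^ A → 0 ≤ y → y ≤ y' → y' ≤ x → ∀ S : Finset Gi,
    (∀ z, z ∈ S ↔ z ∈ ann y y' ∧ rgh w z) →
      |(S.card : ℝ) - Real.pi * (y' - y) * VP w| ≤ x ^ (1 - c)

/-- RG1 [SpecLGD, SpecRKN, SpecNTS, SpecPAR]: two different characters over the rough elements of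
an annulus (for a single nontrivial character `(χ₁, k₁)` take `m₂ = 1`, `χ₂ = 1`, `k₂ = 0`). -/
def SpecRG1 : Prop := ∀ A A' : ℝ, 1 ≤ A → 1 ≤ A' → ∃ c : ℝ, 0 < c ∧ c < 1 ∧ ∀ᶠ x : ℝ in atTop,
  ∀ (m₁ m₂ : Gi) (χ₁ χ₂ : Gi → ℂ) (k₁ k₂ : ℤ), ChiG m₁ χ₁ → ChiG m₂ χ₂ →
    (nm m₁ : ℝ) ≤ x ^ c → (nm m₂ : ℝ) ≤ x ^ c → |(k₁ : ℝ)| ≤ x ^ A → |(k₂ : ℝ)| ≤ x ^ A →
    Dist χ₁ χ₂ k₁ k₂ → ∀ w y y' : ℝ, w ≤ Real.log x ^ A' → 0 ≤ y → y ≤ y' → y' ≤ x →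
      ∀ S : Finset Gi, (∀ z, z ∈ S ↔ z ∈ ann y y' ∧ rgh w z) →
        ‖∑ z ∈ S, hk χ₁ k₁ z * conj (hk χ₂ k₂ z)‖ ≤ x ^ (1 - c)

/-- GRM [SpecRG1]: the Gram matrix with the rough weight is the identity up to a power; the moduli
have norm at most `w`, so that the rough numbers are prime to them. -/
def SpecGRM : Prop := ∀ A A' : ℝ, 1 ≤ A → 1 ≤ A' → ∃ c : ℝ, 0 < c ∧ c < 1 ∧ ∀ᶠ x : ℝ in atTop,
  ∀ (ι : Type) (U : Finset ι) (χ : ι → Gi → ℂ) (k : ι → ℤ) (w : ℝ), w ≤ Real.log x ^ A' →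
    Fam U χ k w (x ^ A) → ∀ (y y' : ℝ) (a : ι → ℂ), 0 ≤ y → y ≤ y' → y' ≤ x → ∀ S : Finset Gi,
      (∀ z, z ∈ S ↔ z ∈ ann y y' ∧ rgh w z) →
        |∑ z ∈ S, ‖∑ i ∈ U, a i * hk (χ i) (k i) z‖ ^ 2 - S.card * ∑ i ∈ U, ‖a i‖ ^ 2| ≤
          x ^ (1 - c) * (U.card * ∑ i ∈ U, ‖a i‖ ^ 2)

end Pool.Agent.Lib.MP391708.X
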