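import Pool.Agent.Lib.MP_391708_nt.X.SpecHM
import Pool.Agent.Lib.MP_391708_nt.MR.Basic

/-!
# Theorem X, part HM, module RG1: two different Hecke characters over the rough elements of an
# annulus

Legendre's formula; the sets `T` with small product are handled by PAR (there are few of them by
NTS), the others trivially by the tail bound RKN.
-/

set_option autoImplicit false

namespace Pool.Agent.Lib.MP391708.X

open Pool.Agent.Lib.MP391708.MR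
open Finset Filter Topology
open scoped ComplexConjugate

namespace RG1M

lemma nm_prod (T : Finset Gi) : (nm (∏ π ∈ T, π) : ℝ) = ∏ π ∈ T, (nm π : ℝ) := by
  classical
  induction T using Finset.induction_on with
  | empty => simp [nm]
  | insert a s ha ih =>
    rw [prod_insert ha, prod_insert ha, nm_mul]
    push_cast
    rw [ih]

lemma norm_hk_le {m : Gi} {χ : Gi → ℂ} (h : ChiG m χ) (k : ℤ) {z : Gi} (hz : z ≠ 0) :
    ‖hk χ k z‖ ≤ 1 := by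
  have h' : Chi χ := ⟨h.one, h.mul, m, h.ne, h.period, h.supp⟩
  unfold hk
  rw [norm_mul, norm_xi k hz, mul_one]
  exact h'.norm_le_one z

lemma norm_pair_le {m₁ m₂ : Gi} {χ₁ χ₂ : Gi → ℂ} (h₁ : ChiG m₁ χ₁) (h₂ : ChiG m₂ χ₂)
    (k₁ k₂ : ℤ) {z : Gi} (hz : z ≠ 0) : ‖hk χ₁ k₁ z * conj (hk χ₂ k₂ z)‖ ≤ 1 := by
  rw [norm_mul, RCLike.norm_conj]
  exact mul_le_one₀ (norm_hk_le h₁ k₁ hz) (norm_nonneg _) (norm_hk_le h₂ k₂ hz)

lemma card_mult {x y y' : ℝ} (hx : 0 ≤ x) (hy : y' ≤ x) {d : Gi} (hd : d ≠ 0) {S : Finset Gi}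
    (hS : ∀ z, z ∈ S ↔ z ∈ ann y y' ∧ d ∣ z) : (S.card : ℝ) ≤ 9 * x * (1 / nm d) := by
  classical
  have hsub : S ⊆ (disc (x / nm d)).image (fun z => d * z) := by
    intro z hz
    obtain ⟨hz1, e, rfl⟩ := (hS z).1 hz
    rw [mem_ann] at hz1
    rw [mem_image]
    refine ⟨e, ?_, rfl⟩
    rw [mem_disc]
    refine ⟨fun h => hz1.1 (by rw [h, mul_zero]), ?_⟩
    rw [le_div_iff₀ (nm_posR hd)]
    have h2 := hz1.2.2
    rw [nm_mul] at h2
    push_cast at h2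
    rw [mul_comm]
    exact h2.trans hy
  have hx' : 0 ≤ x / nm d := div_nonneg hx (Nat.cast_nonneg _)
  calc (S.card : ℝ) ≤ (((disc (x / nm d)).image (fun z => d * z)).card : ℝ) := by
        exact_mod_cast card_le_card hsub
    _ ≤ ((disc (x / nm d)).card : ℝ) := by exact_mod_cast card_image_le
    _ ≤ 9 * (x / nm d) := card_disc_le hx'
    _ = 9 * x * (1 / nm d) := by ring

end RG1M

theorem specRG1 (hLGD : SpecLGD) (hRKN : SpecRKN) (hNTS : SpecNTS) (hPAR : SpecPAR) :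
    SpecRG1 := by
  classical
  intro A A' hA hA'
  obtain ⟨cP, hcP0, hcP1, hP⟩ := hPAR A 2 hA (by norm_num)
  obtain ⟨cR, hcR0, hR⟩ := hRKN A' (cP / 2) hA' (by linarith)
  obtain ⟨c, hc⟩ : ∃ c, c = min cP cR / 2 := ⟨_, rfl⟩
  have hc0 : 0 < c := by
    rw [hc]; exact div_pos (lt_min hcP0 hcR0) (by norm_num)
  have hcP2 : 2 * c ≤ cP := by
    rw [hc]; have := min_le_left cP cR; linarith
  have hcR2 : 2 * c ≤ cR := by
    rw [hc]; have := min_le_right cP cR; linarith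
  refine ⟨c, hc0, by linarith, ?_⟩
  filter_upwards [hP, hR, eventually_ge_atTop (1 : ℝ),
    (tendsto_rpow_atTop hc0).eventually_ge_atTop 18] with x hPx hRx hx1 hx18
  intro m₁ m₂ χ₁ χ₂ k₁ k₂ h₁ h₂ hm₁ hm₂ hk₁ hk₂ hD w y y' hw hy hyy' hy'x S hS
  have hx0 : 0 < x := by linarith
  have hxc : x ^ c ≤ x ^ cP := Real.rpow_le_rpow_of_exponent_le hx1 (by linarith)
  obtain ⟨f, hf⟩ : ∃ f : Gi → ℂ, f = fun z => hk χ₁ k₁ z * conj (hk χ₂ k₂ z) := ⟨_, rfl⟩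
  obtain ⟨S₂, hS₂m⟩ : ∃ S₂ : Finset Gi → Finset Gi,
      ∀ (T : Finset Gi) (z : Gi), z ∈ S₂ T ↔ z ∈ ann y y' ∧ (∏ π ∈ T, π) ∣ z :=
    ⟨fun T => (ann y y').filter (fun z => (∏ π ∈ T, π) ∣ z), fun T z => mem_filter⟩
  have hL := hLGD w (ann y y') f (fun z hz => (mem_ann.1 hz).1) S S₂ hS hS₂m
  have hne : ∀ T ∈ (PI w).powerset, (∏ π ∈ T, π) ≠ 0 := by
    intro T hT
    rw [Finset.prod_ne_zero_iff]
    intro π hπ
    have h3 := mem_powerset.1 hT hπ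
    unfold PI at h3
    exact (mem_disc.1 (mem_filter.1 h3).1).1
  have hsmall : ∀ T ∈ (PI w).powerset, ‖∑ z ∈ S₂ T, f z‖ ≤ x ^ (1 - 2 * cP) := by
    intro T hT
    rw [hf]
    exact hPx m₁ m₂ χ₁ χ₂ k₁ k₂ h₁ h₂ (hm₁.trans hxc) (hm₂.trans hxc) hk₁ hk₂ hD _ (hne T hT)
      y y' hy hyy' hy'x (S₂ T) (hS₂m T)
  have hbig : ∀ T ∈ (PI w).powerset, ‖∑ z ∈ S₂ T, f z‖ ≤
      9 * x * (1 / ∏ π ∈ T, (nm π : ℝ)) := by
    intro T hT
    rw [← RG1M.nm_prod]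
    refine le_trans ?_ (RG1M.card_mult hx0.le hy'x (hne T hT) (hS₂m T))
    refine (norm_sum_le _ _).trans ?_
    calc ∑ z ∈ S₂ T, ‖f z‖ ≤ ∑ z ∈ S₂ T, (1 : ℝ) := by
          refine sum_le_sum fun z hz => ?_
          rw [hf]
          exact RG1M.norm_pair_le h₁ h₂ k₁ k₂ (mem_ann.1 ((hS₂m T z).1 hz).1).1
      _ = ((S₂ T).card : ℝ) := by rw [sum_const, nsmul_eq_mul, mul_one]
  have e1 : ‖∑ z ∈ S, f z‖ ≤ ∑ T ∈ (PI w).powerset, ‖∑ z ∈ S₂ T, f z‖ := by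
    rw [hL]
    refine (norm_sum_le _ _).trans (sum_le_sum fun T _ => ?_)
    rw [norm_mul, norm_pow, norm_neg, norm_one, one_pow, one_mul]
  have e2 : ∑ T ∈ (PI w).powerset.filter (fun T => ∏ π ∈ T, (nm π : ℝ) ≤ x ^ (cP / 2)),
      ‖∑ z ∈ S₂ T, f z‖ ≤ 9 * x ^ (1 - 2 * c) := by
    calc ∑ T ∈ (PI w).powerset.filter (fun T => ∏ π ∈ T, (nm π : ℝ) ≤ x ^ (cP / 2)),
        ‖∑ z ∈ S₂ T, f z‖
        ≤ ∑ T ∈ (PI w).powerset.filter (fun T => ∏ π ∈ T, (nm π : ℝ) ≤ x ^ (cP / 2)),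
          x ^ (1 - 2 * cP) := sum_le_sum fun T hT => hsmall T (mem_filter.1 hT).1
      _ = (((PI w).powerset.filter
            (fun T => ∏ π ∈ T, (nm π : ℝ) ≤ x ^ (cP / 2))).card : ℝ) * x ^ (1 - 2 * cP) := by
          rw [sum_const, nsmul_eq_mul]
      _ ≤ (9 * x ^ (cP / 2)) * x ^ (1 - 2 * cP) :=
          mul_le_mul_of_nonneg_right (hNTS w (x ^ (cP / 2)) (Real.rpow_nonneg hx0.le _))
            (Real.rpow_nonneg hx0.le _)
      _ = 9 * x ^ (cP / 2 + (1 - 2 * cP)) := by rw [mul_assoc, ← Real.rpow_add hx0]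
      _ ≤ 9 * x ^ (1 - 2 * c) :=
          mul_le_mul_of_nonneg_left (Real.rpow_le_rpow_of_exponent_le hx1 (by linarith))
            (by norm_num)
  have e3 : ∑ T ∈ (PI w).powerset.filter (fun T => ¬ ∏ π ∈ T, (nm π : ℝ) ≤ x ^ (cP / 2)),
      ‖∑ z ∈ S₂ T, f z‖ ≤ 9 * x ^ (1 - 2 * c) := by
    have e4 : (PI w).powerset.filter (fun T => ¬ ∏ π ∈ T, (nm π : ℝ) ≤ x ^ (cP / 2)) =
        (PI w).powerset.filter (fun T => x ^ (cP / 2) < ∏ π ∈ T, (nm π : ℝ)) :=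
      filter_congr fun T _ => not_le
    rw [e4]
    calc ∑ T ∈ (PI w).powerset.filter (fun T => x ^ (cP / 2) < ∏ π ∈ T, (nm π : ℝ)),
        ‖∑ z ∈ S₂ T, f z‖
        ≤ ∑ T ∈ (PI w).powerset.filter (fun T => x ^ (cP / 2) < ∏ π ∈ T, (nm π : ℝ)),
          9 * x * (1 / ∏ π ∈ T, (nm π : ℝ)) :=
          sum_le_sum fun T hT => hbig T (mem_filter.1 hT).1
      _ = 9 * x * ∑ T ∈ (PI w).powerset.filter
            (fun T => x ^ (cP / 2) < ∏ π ∈ T, (nm π : ℝ)), 1 / ∏ π ∈ T, (nm π : ℝ) := by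
          rw [mul_sum]
      _ ≤ 9 * x * x ^ (-cR) := mul_le_mul_of_nonneg_left (hRx w hw) (by positivity)
      _ = 9 * x ^ (1 + -cR) := by
          rw [Real.rpow_add hx0, Real.rpow_one, mul_assoc]
      _ ≤ 9 * x ^ (1 - 2 * c) :=
          mul_le_mul_of_nonneg_left (Real.rpow_le_rpow_of_exponent_le hx1 (by linarith))
            (by norm_num)
  have e5 : x ^ (1 - c) = x ^ c * x ^ (1 - 2 * c) := by
    rw [← Real.rpow_add hx0]; congr 1; ring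
  have e6 : 0 ≤ x ^ (1 - 2 * c) := Real.rpow_nonneg hx0.le _
  have e7 : (18 : ℝ) * x ^ (1 - 2 * c) ≤ x ^ c * x ^ (1 - 2 * c) :=
    mul_le_mul_of_nonneg_right hx18 e6
  have e8 := (sum_filter_add_sum_filter_not (PI w).powerset
    (fun T => ∏ π ∈ T, (nm π : ℝ) ≤ x ^ (cP / 2)) (fun T => ‖∑ z ∈ S₂ T, f z‖)).symm
  have e9 : ‖∑ z ∈ S, f z‖ ≤ x ^ (1 - c) := by
    rw [e5]
    linarith
  rw [hf] at e9
  exact e9

end Pool.Agent.Lib.MP391708.X
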