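import Pool.Agent.Lib.MP_391708_nt.X.Defs

/-!
# THEOREM X (MP_391708): the interface between the parts

Parts: VAR (helper65), MT (helper6), PH (helper69), HM (helper40), HML (helper63), LS (helper99), UN (helper2).
-/

set_option autoImplicit false

namespace Pool.Agent.Lib.MP391708.X

open Finset Filter Topology Pool.Agent.Lib.MP391708.MR
open scoped ComplexConjugate

/-- VAR: the variance is small, for a suitable set `U` of Hecke characters.  (`2 aQ ≤ cw`: rough numbers are prime to the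
conductors.)  The exponents `cw` (sieve), `aU`, `aQ`, `aF` do not depend on `ch` (the fineness `h` of the cells of the model,
arbitrary `≥ ch0`), `cP`, `cT`, `cB`.  The proof uses coarser cells (groups of consecutive cells, width `(log N)^(-ch0)`):
`aU`, `aF` depend on the coarse cells only. -/
def SpecVAR : Prop := ∀ A : ℝ, 0 < A → ∃ cw aU aQ aF ch0 : ℝ, 2 * aQ ≤ cw ∧ 1 ≤ aU ∧ 1 ≤ aQ ∧ 1 ≤ aF ∧ 1 ≤ ch0 ∧
  ∀ ch : ℝ, ch0 ≤ ch → ∃ cP0 : ℝ, ∀ cP : ℝ, cP0 ≤ cP → ∃ cT0 : ℝ, ∀ cT : ℝ, cT0 ≤ cT → ∃ cB : ℝ, ∀ᶠ N : ℝ in atTop,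
  ∀ B : ℝ, Real.log N ^ cB ≤ B → B ^ 2 ≤ 2 * N →
  ∃ U : Finset Ix, UOK (Real.log N ^ aQ) (Real.log N ^ aF * (N / B)) (Real.log N ^ aU) U ∧
    Var (par N cT cP ch cw) B (fun z => Eta (par N cT cP ch cw) z - Kap (par N cT cP ch cw) U z) ≤
      Real.log N ^ (-A) * (B * (par N cT cP ch cw).K * (par N cT cP ch cw).T ^ 2)

/-- MT: the main term, for every admissible set `U` and every `b`; the cells must be fine enough (`ch ≥ ch0`, for instance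
`ch0 > aF`: the phase `e^(-ikb/n)` is constant on a cell). -/
def SpecMT : Prop := ∀ cw aU aQ aF : ℝ, 2 * aQ ≤ cw → 1 ≤ aU → 1 ≤ aQ → 1 ≤ aF →
  ∃ ch0 : ℝ, ∀ ch : ℝ, ch0 ≤ ch →
  ∃ cP0 : ℝ, ∀ cP : ℝ, cP0 ≤ cP → ∃ cT0 : ℝ, ∀ cT : ℝ, cT0 ≤ cT → ∃ cB : ℝ, ∀ᶠ N : ℝ in atTop,
  ∀ B : ℝ, Real.log N ^ cB ≤ B → B ^ 2 ≤ 2 * N →
  ∀ U : Finset Ix, UOK (Real.log N ^ aQ) (Real.log N ^ aF * (N / B)) (Real.log N ^ aU) U →
  ∀ b : ℕ, B < b → (b : ℝ) ≤ 2 * B →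
  ∀ y : Gi, prim y → (nm y : ℝ) ≤ Real.log N ^ (cP / 2) →
    (∀ π : Gi, Prime π → π ∣ y → Real.log N ^ cw < (nm π : ℝ) ∧ Real.log N ^ aQ < (nm π : ℝ)) →
    2 * N / (Real.log N ^ 4 * nm y) ≤ (sy (par N cT cP ch cw) y b (Kap (par N cT cP ch cw) U)).re

/-- `m` is a product of `k` different primes -/
def PrK (k m : ℕ) : Prop := Squarefree m ∧ m.primeFactors.card = k

open scoped Classical in
/-- the number of `1 ≤ n ≤ N` such that `n² + b²` is a product of `k` different primes -/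
noncomputable def cnt (k b : ℕ) (N : ℝ) : ℕ := ((Icc 1 ⌊N⌋₊).filter (fun n => PrK k (n ^ 2 + b ^ 2))).card

open scoped Classical in
/-- ONE: one scale (from VAR, MT). -/
def SpecONE : Prop := ∀ k : ℕ, 4 ≤ k → ∀ A : ℝ, 0 < A → ∃ cB : ℝ, ∀ᶠ N : ℝ in atTop, ∀ B : ℝ,
  Real.log N ^ cB ≤ B → B ^ 2 ≤ 2 * N →
    (((Ioc ⌊B⌋₊ ⌊2 * B⌋₊).filter (fun b => (cnt k b N : ℝ) < N / Real.log N ^ 5)).card : ℝ) ≤
      B * Real.log N ^ (-A)

end Pool.Agent.Lib.MP391708.X
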