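import Pool.Agent.Lib.MP_391708_nt.MR.Defs
import Pool.Agent.Lib.MP_391708_nt.MR.Tent
import Pool.Agent.Lib.MP_391708_nt.MR.Cls
import Pool.Agent.Lib.MP_391708_nt.MR.Mom

/-!
# Theorem X of MP_391708_nt, part VAR: the variance inequality

For a family of lines `Im (z1 * z) = b` (`z1` primitive of norm about `K`, `B < b <= 2 B`) and a
function on the `z` of norm at most `Y`, made of products `p * z'` (`p` a prime of a cell `P i`, `z'`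
in a thin radial cell `S j`), the sum over `z1` and `b` of the squares of the line sums is bounded
by small explicit terms and by a sum over the ATYPICAL Hecke characters
`psi = (chi mod t, k)`, i.e. those for which the prime sum over `P i` is larger than `tau`
(`SpecVAR`, at the end).

Module `XXX` proves `theorem specXXX (h.. : Spec..) : SpecXXX` in its own file `X/V/XXX.lean`
(import this file), in the namespace `Pool.Agent.Lib.MP391708.XV`, own lemmas in the namespace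
`XXXM`.  Useful lemmas: `MR/Basic.lean` (`nm_mul`, `mem_disc`, `card_disc_le`, `norm_toComplex`,
`xi_mul`, `mem_GP`, `GP_prime`, `GP_coprime`, `GP_eq_of_dvd`), `MR/Tent.lean` (`cc`, `cc_nonneg`,
`cc_le_one`, `cc_le_two`, `tent_form`, `specPsd`, `ang_nonneg`, `ang_le_pi`), `MR/Cls.lean`
(namespace `Cls`: `RR`, `mk_eq_iff`, `finite_RR`, `isUnit_mk`, `sum_char`, `norm_char_le`, `BB`,
`BB_sub_left`, `ang_mul`, `prim_iff`, `mul_star`, `star_mul_self`), `MR/Mom.lean` (`ct`, `ct_decomp`,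
`natCast_dvd`, `card_GP_le`, `nm_prod`).
-/

set_option autoImplicit false

namespace Pool.Agent.Lib.MP391708.XV

open Finset Filter Topology Pool.Agent.Lib.MP391708.MR
open scoped ComplexConjugate

/-! ## Definitions -/

/-- the rational integer `t` as a Gaussian integer -/
abbrev md (t : ℕ) : Gi := ((t : ℤ) : Gi)

/-- `Im (conj x * y)` -/
def crs (x y : Gi) : ℤ := x.re * y.im - x.im * y.re

/-- the content -/
def cont (z : Gi) : ℕ := Int.gcd z.re z.im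

/-- the cutoff of the norm of `z1`: `1` on `[1, κ]`, `0` outside `(1/2, 2 κ)` -/
noncomputable def om1 (κ x : ℝ) : ℝ := max 0 (min 1 (min (2 * x - 1) (2 - x / κ)))

/-- the cutoff of `b`: at least `1` on `[-2, 2]`, `0` outside `(-4, 4)`, at most `2` -/
noncomputable def om2 (x : ℝ) : ℝ := 2 * tri (x / 4)

/-- the line sum, over the half `Re (z1 * z) > 0` of the line `Im (z1 * z) = b` -/
noncomputable def ls (S : Finset Gi) (f : Gi → ℂ) (z1 : Gi) (b : ℤ) : ℂ :=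
  ∑ z ∈ S.filter (fun z => (z1 * z).im = b ∧ 0 < (z1 * z).re), f z

/-- `z` lies on the positive half of the line through `0` in the direction `conj (z' - z)` -/
def pos (z z' : Gi) : Prop := 0 < (star (z' - z) * z).re

instance : DecidableRel pos := fun z z' => by unfold pos; infer_instance

open Classical in
/-- the off-diagonal terms with `z' - z = t * conj z1`, `Re (z1 * z) > 0` (VERSION 2: note `pos z z'`) -/
noncomputable def VT (κ K B : ℝ) (t : ℕ) (S : Finset Gi) (f : Gi → ℂ) : ℝ :=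
  (∑ z ∈ S, ∑ z' ∈ S.filter (fun z' => md t ∣ z' - z ∧ pos z z'), f z * conj (f z') *
    ((om1 κ ((nm (z' - z) : ℝ) / ((t : ℝ) ^ 2 * K)) *
      om2 ((crs z' z : ℝ) / ((t : ℝ) * B)) : ℝ) : ℂ)).re

/-- number of pairs `(u, z)` of nonzero Gaussian integers with `nm u ≤ X`, `nm z ≤ Y` and
`|Im (conj u * z)| ≤ D` -/
noncomputable def pcn (X Y D : ℝ) : ℕ :=
  ((disc X ×ˢ disc Y).filter (fun q => |(crs q.1 q.2 : ℝ)| ≤ D)).card

open Classical in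
/-- the pairs with `z` in `S` not coprime to `t` -/
noncomputable def ncc (t : ℕ) (X D : ℝ) (S : Finset Gi) : ℕ :=
  ((disc X ×ˢ S).filter (fun q => |(crs q.1 q.2 : ℝ)| ≤ D ∧ ¬ IsCoprime q.2 (md t))).card

open Classical in
/-- the tent form in residue classes modulo `t`, coprime to `t` -/
noncomputable def TT (t : ℕ) (φ : ℝ) (S : Finset Gi) (f : Gi → ℂ) : ℝ :=
  (∑ z ∈ S.filter (fun z => IsCoprime z (md t)), ∑ z' ∈ S.filter (fun z' => md t ∣ z' - z),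
    f z * conj (f z') * ((tri (ang z z' / φ) : ℝ) : ℂ)).re

open Classical in
/-- number of pairs of elements of `S` congruent modulo `t` with angle less than `φ` -/
noncomputable def PN (t : ℕ) (φ : ℝ) (S : Finset Gi) : ℕ :=
  ((S ×ˢ S).filter (fun q => md t ∣ q.2 - q.1 ∧ ang q.1 q.2 < φ)).card

open Classical in
/-- the characters modulo `t` (`t ≥ 1`) as a finite set -/
noncomputable def chs (t : ℕ) : Finset (MulChar (Cls.RR (md t)) ℂ) :=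
  if h : (Set.univ : Set (MulChar (Cls.RR (md t)) ℂ)).Finite then h.toFinset else ∅

/-- their number -/
noncomputable def ph (t : ℕ) : ℕ := (chs t).card

/-- the sum of `f` against the Hecke character `χ ξ_k` -/
noncomputable def hat (t : ℕ) (χ : MulChar (Cls.RR (md t)) ℂ) (k : ℤ) (S : Finset Gi)
    (f : Gi → ℂ) : ℂ :=
  ∑ z ∈ S, f z * χ (Ideal.Quotient.mk (Ideal.span {md t}) z) * xi k z

/-- the mean over the characters modulo `t` -/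
noncomputable def HS (t : ℕ) (k : ℤ) (S : Finset Gi) (f : Gi → ℂ) : ℝ :=
  1 / (ph t : ℝ) * ∑ χ ∈ chs t, ‖hat t χ k S f‖ ^ 2

open Classical in
/-- the atypical characters: the sum over `P` is larger than `τ` -/
noncomputable def atyp (t Km : ℕ) (τ : ℝ) (P : Finset Gi) :
    Finset (MulChar (Cls.RR (md t)) ℂ × ℤ) :=
  ((chs t) ×ˢ (IK Km)).filter (fun q => τ < ‖hat t q.1 q.2 P (fun _ => 1)‖)

open Classical in
/-- multiplicative convolution of the indicator of `P` and of `h` on `S` -/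
noncomputable def mc (P S : Finset Gi) (h : Gi → ℂ) (z : Gi) : ℂ :=
  ∑ q ∈ (P ×ˢ S).filter (fun q => q.1 * q.2 = z), h q.2

open Classical in
/-- the set of products -/
noncomputable def ms (P S : Finset Gi) : Finset Gi := (P ×ˢ S).image (fun q => q.1 * q.2)

/-- the error in the replacement of the kernel by tents -/
noncomputable def EE (ρ η Y K B t : ℝ) : ℝ :=
  1000 * ρ ^ 2 * (η * (Y / (t ^ 2 * K) + 1) + (t * B / Y) ^ 2 + B ^ 2 / (K * Y))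

/-! ## A. Linearisation and counting of pairs -/

/-- LIN (no number theory; VERSION 2, half lines).  PROOF.  For `z1 ≠ 0` put
`W(z1) = ∑_{z, z'} Re (f z * conj (f z')) * om2 ((z1 * z).im / B)` over the `z, z' ∈ S` with
`Re (z1 * z) > 0`, `Re (z1 * z') > 0` and `z' - z ∈ ℤ * star z1`.  The last relation is an equivalence
relation on `{z ∈ S : Re (z1 * z) > 0}`, and `(z1 * z).im` is constant on its classes
(`z1 * star z1 * m` is real), so `W(z1)` is the sum over the classes of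
`om2 (..) * ‖∑_{z in the class} f z‖ ^ 2 ≥ 0`.
If `z1` is primitive (`z1 ∈ Z`) and `(z1 * z).im = (z1 * z').im`, then `w = z' - z` satisfies
`z1 * w = m ∈ ℤ`, `nm z1 * w = m * star z1`, so `nm z1` divides `m * re z1` and `m * im z1`, hence `m`
(coprime coordinates), hence `w ∈ ℤ * star z1`.  So for `z1 ∈ Z` the classes are the half lines and
`W(z1) = ∑_{b ∈ ℤ} om2 (b / B) ‖ls S f z1 b‖ ^ 2 ≥ ∑_{B < b ≤ 2 B} ‖ls S f z1 b‖ ^ 2`
(`om2 ≥ 1` on `[-2, 2]`, `om2 ≥ 0`).  Since `om1 κ (nm z1 / K) = 1` for `z1 ∈ Z` and all terms are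
`≥ 0`, the left side is at most `∑_{z1 ∈ disc (2 κ K)} om1 κ (nm z1 / K) * W(z1)`.
Expand `W`.  The terms `z = z'` give at most `∑_z ‖f z‖ ^ 2 * ∑_{z1} 2 * [|(z1 * z).im| ≤ 4 B]`
`≤ 2 F ^ 2 * pcn (2 κ K) Y (4 B)` (`(z1 * z).im = crs (star z1) z`, and `z1 ↦ star z1` preserves
`disc`).  In the terms `z ≠ z'` write `z' - z = m * star z1`, `m ≠ 0` an integer.  Exchanging `z` and
`z'` changes `m` into `-m` and the term into its conjugate (`(z1 * z).im = (z1 * z').im`), so these terms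
are twice the real part of the sum over the terms with `m = t ≥ 1`.  There
`z1 = star ((z' - z) / t)`, `nm z1 = nm (z' - z) / t ^ 2`, `(z1 * z).im = crs (z' - z) z / t = crs z' z / t`,
`(z1 * z).re = (star (z' - z) * z).re / t`, so `Re (z1 * z) > 0` iff `pos z z'`, and then
`Re (z1 * z') = Re (z1 * z) + t * nm z1 > 0` too.  For every pair `z ≠ z'` and every `t ≥ 1` with
`t ∣ z' - z` there is exactly one `z1`, and `om1 κ (nm z1 / K) = 0` if `nm z1 ≥ 2 κ K`.  So these terms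
are `2 * ∑_{t ≥ 1} VT t` (in `VT` the terms `z = z'` vanish: `om1 κ 0 = 0`, also `¬ pos z z`).  For
`t > T1`: `nm (z' - z) ≤ 4 Y`, so `nm (z' - z) / (t ^ 2 K) ≤ 4 Y / (t ^ 2 K) ≤ T1 ^ 2 / (2 t ^ 2) < 1 / 2`
and `om1 = 0`. -/
def SpecLIN : Prop := ∀ (κ K B Y F : ℝ) (T1 : ℕ) (Z S : Finset Gi) (f : Gi → ℂ),
  1 ≤ κ → 0 < K → 0 < B → 0 ≤ F → 8 * Y ≤ (T1 : ℝ) ^ 2 * K →
  (∀ z ∈ Z, prim z ∧ K ≤ (nm z : ℝ) ∧ (nm z : ℝ) ≤ κ * K) →
  S ⊆ disc Y → (∀ z ∈ S, ‖f z‖ ≤ F) →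
    ∑ z1 ∈ Z, ∑ b ∈ Ioc ⌊B⌋ ⌊2 * B⌋, ‖ls S f z1 b‖ ^ 2 ≤
      2 * F ^ 2 * pcn (2 * κ * K) Y (4 * B) + 2 * ∑ t ∈ Icc 1 T1, VT κ K B t S f

/-- SML: trivial bound for one `t`.  PROOF.  In `VT` the pairs with nonzero kernel have `z ≠ z'`
(`om1 κ 0 = 0`), `nm (z' - z) < 2 κ t ^ 2 K` and `|crs z' z| < 4 t B`.  Put `z' - z = t * u`: then
`u ∈ disc (2 κ K)`, `crs z' z = crs (z' - z) z = t * crs u z`, so `|crs u z| ≤ 4 B`, and
`(z, z') ↦ (u, z)` is injective (`t ≥ 1`).  The kernel is at most `2`. -/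
def SpecSML : Prop := ∀ (κ K B Y F : ℝ) (t : ℕ) (S : Finset Gi) (f : Gi → ℂ),
  1 ≤ κ → 0 < K → 0 < B → 0 ≤ F → 1 ≤ t → S ⊆ disc Y → (∀ z ∈ S, ‖f z‖ ≤ F) →
    |VT κ K B t S f| ≤ 2 * F ^ 2 * pcn (2 * κ * K) Y (4 * B)

/-- LNE: points near the line of direction `u`.  PROOF.  Put `g = cont u`, `u = g * u0`.  The values
of `crs u z = g * crs u0 z` are multiples of `g`; at most `2 D / g + 1` of them lie in `[-D, D]`.  If
`crs u0 z = crs u0 z'` with `u0` primitive then `star u0 * (z - z')` is real, so `z - z' = m * u0` with an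
integer `m` (as in LIN).  The `z` of one fibre with `nm z ≤ Y` are `z* + m * u0`, and two of them
differ by `|m - m'| * |u0| ≤ 2 √Y`: the `m` lie in an interval of length `2 √Y / |u0|`, so there are at
most `2 √Y / |u0| + 1` of them, and `|u0| = √(nm u) / g`. -/
def SpecLNE : Prop := ∀ (Y D : ℝ) (u : Gi), u ≠ 0 → 0 ≤ Y → 0 ≤ D →
  ((((disc Y).filter (fun z => |(crs u z : ℝ)| ≤ D)).card : ℕ) : ℝ) ≤
    (2 * D / cont u + 1) * (2 * Real.sqrt Y * cont u / Real.sqrt (nm u) + 1)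

/-- USM: sums over `u`.  PROOF.  `√(nm u) ≥ n(u) := max |re u| |im u| ≥ 1`, and `n(u) ≤ √X`.  There are
`8 n` points with `n(u) = n`, so the first sum is at most `8 √X`.  Second sum: the points with
`n(u) = n` have (up to signs and exchange) the coordinates `(n, a)`, `0 ≤ a ≤ n`, and
`∑_{0 ≤ a ≤ n} gcd(a, n) ≤ ∑_{d ∣ n} d * (n / d + 1) ≤ 2 n * #{d ∣ n}`, at most `8` points for each
`(n, a)`.  So the second sum is at most `16 * ∑_{n ≤ √X} #{d ∣ n} ≤ 16 √X * ∑_{d ≤ √X} 1 / d`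
`≤ 16 √X (1 + log X)`.  Third: `card_disc_le`. -/
def SpecUSM : Prop := ∃ C : ℝ, 0 < C ∧ ∀ X : ℝ, 1 ≤ X →
  ∑ u ∈ disc X, 1 / Real.sqrt (nm u) ≤ C * Real.sqrt X ∧
  ∑ u ∈ disc X, (cont u : ℝ) / Real.sqrt (nm u) ≤ C * Real.sqrt X * (1 + Real.log X) ∧
  ((disc X).card : ℝ) ≤ C * X

/-- PCN (from LNE, USM).  PROOF.  If `X < 1` the set is empty (`disc_empty`).  Otherwise sum LNE
over `u ∈ disc X`; as `g = cont u` satisfies `√(nm u) / g ≤ √X ≤ √Y` (`nm u / g ^ 2 ≥ 1` is not needed,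
only `√(nm u) ≤ √Y`, `g ≥ 1`), `2 √Y g / √(nm u) + 1 ≤ 3 √Y g / √(nm u)`, and
`(2 D / g + 1) * 3 √Y g / √(nm u) = 3 √Y (2 D + g) / √(nm u)`.  By USM the sum is at most
`3 √Y (2 D C √X + C √X (1 + log X))`. -/
def SpecPCN : Prop := ∃ C : ℝ, 0 < C ∧ ∀ X Y D : ℝ, X ≤ Y → 1 ≤ Y → 0 ≤ D →
  (pcn X Y D : ℝ) ≤ C * (D + 1) * Real.sqrt (X * Y) * (1 + Real.log Y)

/-- PCD (from LNE, USM): the same with `z` divisible by a prime `π`.  PROOF.  Put `q = nm π`,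
`z = π * v`, `v ∈ disc (Y / q)`, and `crs u (π * v) = crs (star π * u) v`.  By LNE for `u' = star π * u`
(`√(nm u') = √q √(nm u)`), with `g' = cont u'`, the number of `v` for one `u` is at most
`(2 D / g' + 1) (2 √(Y / q) g' / √(nm u') + 1)`
`= 4 D √Y / (q √(nm u)) + 2 D / g' + 2 √Y g' / (q √(nm u)) + 1`.
Here `g' ≥ 1` and `g' ≤ q * cont u` (`g'` divides `π * u' = q * u`).  So by USM the sum over
`u ∈ disc X` is at most `4 C D √(X Y) / q + 2 C D X + 2 C √(X Y) (1 + log X) + C X`, and `X ≤ √(X Y)`.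
If `X < 1` the set is empty. -/
def SpecPCD : Prop := ∃ C : ℝ, 0 < C ∧ ∀ (X Y D : ℝ) (π : Gi), 0 ≤ X → X ≤ Y → 1 ≤ Y → 0 ≤ D →
  Prime π → ∀ A : Finset (Gi × Gi), A ⊆ disc X ×ˢ disc Y →
    (∀ q ∈ A, |(crs q.1 q.2 : ℝ)| ≤ D ∧ π ∣ q.2) →
      (A.card : ℝ) ≤
        C * (1 + Real.log Y) * (D * Real.sqrt (X * Y) / nm π + D * X + Real.sqrt (X * Y))

/-- NCS (from PCD): the pairs with `z` not coprime to `t`.  PROOF.  If `z` is not coprime to `t`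
then some prime `π` divides `z` and `t` (`z ≠ 0`; `Gi` is a principal ideal domain), and `nm π ≥ w` by
hypothesis.  Let `Π` be a finite set of pairwise non-associated primes dividing `t` with `nm π ≥ w ≥ 2`
which contains an associate of every such prime (for example from `normalizedFactors`, or from the
factorisation of `md t`): the product of the norms of the elements of `Π` divides `nm (md t) = t ^ 2`, so
`#Π ≤ log (t ^ 2) / log 2 ≤ 3 log t`.  PCD for every `π ∈ Π`, with `1 / nm π ≤ 1 / w`. -/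
def SpecNCS : Prop := ∃ C : ℝ, 0 < C ∧ ∀ (X Y D w : ℝ) (t : ℕ) (S : Finset Gi),
  0 ≤ X → X ≤ Y → 1 ≤ Y → 0 ≤ D → 2 ≤ w → 1 ≤ t → S ⊆ disc Y →
  (∀ z ∈ S, ∀ π : Gi, Prime π → π ∣ z → w ≤ (nm π : ℝ)) →
    (ncc t X D S : ℝ) ≤ C * (1 + Real.log t) * (1 + Real.log Y) *
      (D * Real.sqrt (X * Y) / w + D * X + Real.sqrt (X * Y))

/-! ## B. From the kernel to tents -/

/-- KER (pure analysis; VERSION 2, half lines, only one tent): the kernel is a multiple of a tent.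
Here `pos z z'` says `Re (conj (z' - z) * z) > 0`.  PROOF.  Let `a = √(nm z)`, `b = √(nm z')` and
`z * conj z' = a b e^{i θ}`, `|θ| ≤ π` (as complex numbers).  Then `crs z' z = a b sin θ`,
`nm (z' - z) = a² + b² - 2 a b cos θ`, `ang z z' = |θ|`, and `pos z z'` iff
`a b cos θ - a² > 0` iff `b cos θ > a`.  Put `G = √(La Lb) ≥ Y / ρ`, `φ = 4 t B / G`, so
`φ ≤ 4 ρ t B / Y ≤ 1 / 8`; `G ≤ a b ≤ e^η G`, `e^η ≤ 1 + 2 η ≤ 2`.
CASE 1: `|θ| > π / 2`.  Then `pos z z'` is false and `tri (|θ| / φ) = 0`: the difference is `0`.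
CASE 2: `|θ| ≤ π / 2`.  Let `x = a b sin |θ| / (4 t B)` and `y = |θ| / φ = G |θ| / (4 t B)`, so
`om2 (crs z' z / (t B)) = 2 tri x`.  If `x ≥ 1` and `y ≥ 1` both tents vanish and the difference is `0`.
Otherwise `|θ| ≤ (π / 2) φ` (`y < 1`: `|θ| < φ`; `x < 1`:
`sin |θ| < 4 t B / (a b) ≤ φ` and `sin |θ| ≥ (2 / π) |θ|`), so `y ≤ π / 2`, and
`x / y = (a b / G) (sin |θ| / |θ|)` lies in `[1 - θ² / 6, 1 + 2 η]`, so
`|tri x - tri y| ≤ |x - y| ≤ (π / 2)(2 η + θ² / 6) ≤ 4 η + 3 φ²`, `φ² ≤ 16 ρ² t² B² / Y²`.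
In this case `|crs z' z| = a b sin |θ| ≤ max (4 t B) (e^η G φ) ≤ 8 t B`, so we only have to show that the
difference is at most `EE`.  Put `Ω = om1 κ (nm (z' - z) / (t² K))`, `M0 = om1 κ ((√La - √Lb)² / (t² K))`,
`0 ≤ Ω, M0 ≤ 1`.  We have `nm (z' - z) = (a - b)² + 2 a b (1 - cos θ)` with
`0 ≤ 2 a b (1 - cos θ) ≤ a b θ² ≤ 2 G (π φ / 2)² ≤ 80 ρ t² B² / Y`, and
`|(a - b)² - (√La - √Lb)²| ≤ |(a - b) - (√La - √Lb)| * (|a - b| + |√La - √Lb|) ≤ 2 η √Y * 2 √Y`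
(`√La ≤ a ≤ e^{η/2} √La`, `(e^{η/2} - 1) √La ≤ η √Y`).  `om1 κ` is Lipschitz with constant `2`, so
`|Ω - M0| ≤ 2 (4 η Y + 80 ρ t² B² / Y) / (t² K)`.
(i) `pos z z'` and `La < Lb`: the difference is at most
`2 |Ω - M0| + 2 |tri x - tri y| ≤ (16 η Y + 320 ρ t² B² / Y) / (t² K) + 8 η + 96 ρ² t² B² / Y² ≤ EE`.
(ii) not `pos z z'` and `La ≥ Lb`: the difference is `0`.
(iii) `pos z z'` and `La ≥ Lb`: it is at most `2 Ω ≤ 4 nm (z' - z) / (t² K)` (`om1 κ x ≤ 2 x` for `x ≥ 0`);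
`b > a ≥ √La ≥ √Lb ≥ e^{-η/2} b`, so `0 < b - a ≤ (1 - e^{-η/2}) b ≤ η √Y` and
`nm (z' - z) ≤ η² Y + 80 ρ t² B² / Y`, so the bound is `≤ EE`.
(iv) not `pos z z'` and `La < Lb`: it is at most `2 M0 ≤ 4 (√Lb - √La)² / (t² K)`.  Here `b cos θ ≤ a`, so
`b - a ≤ b (1 - cos θ) ≤ b θ² / 2` and `0 < √Lb - √La ≤ b - e^{-η/2} a ≤ b θ² / 2 + η √Y`, so
`(√Lb - √La)² ≤ b² θ⁴ / 2 + 2 η² Y`, `b² θ⁴ ≤ Y θ² * θ²`, `θ² ≤ (π φ / 2)² ≤ 40 ρ² t² B² / Y²` and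
`θ² ≤ 1`: `(√Lb - √La)² ≤ 20 ρ² t² B² / Y + 2 η² Y`, so the bound is `≤ EE`. -/
def SpecKER : Prop := ∀ (κ ρ η Y K B La Lb : ℝ) (t : ℕ) (z z' : Gi),
  1 ≤ κ → 1 ≤ ρ → 0 ≤ η → η ≤ 1 / 2 → 0 < K → 0 < B → 1 ≤ t → 0 < Y → 32 * ρ * t * B ≤ Y →
  Y / ρ ≤ La → Y / ρ ≤ Lb → Real.exp η * La ≤ Y → Real.exp η * Lb ≤ Y →
  La ≤ (nm z : ℝ) → (nm z : ℝ) ≤ Real.exp η * La →
  Lb ≤ (nm z' : ℝ) → (nm z' : ℝ) ≤ Real.exp η * Lb →
    |(if pos z z' then om1 κ ((nm (z' - z) : ℝ) / ((t : ℝ) ^ 2 * K)) *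
        om2 ((crs z' z : ℝ) / ((t : ℝ) * B)) else 0) -
      2 * ((if La < Lb then om1 κ ((Real.sqrt La - Real.sqrt Lb) ^ 2 / ((t : ℝ) ^ 2 * K)) else 0) *
            tri (ang z z' / (4 * t * B / Real.sqrt (La * Lb))))| ≤
      if |(crs z' z : ℝ)| ≤ 8 * t * B then EE ρ η Y K B t else 0

open Classical in
/-- EXB (from `MR.specPsd`): the bilinear tent form, also with `-z'`.  PROOF.  Split the pairs into the
classes `a` of `(Gi / t)` with `a` a unit (`t ∣ z' - z` and `z` coprime to `t`).  For a class `a` let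
`f_a = f` on `S_a` and `g'_a (w) = g (s w)` on `s S_a` (a subset of the class `s a`), both extended by `0`.
With the form `Q(x, y) = ∑_{w, w'} x(w) conj (y(w')) tri (ang w w' / φ)` over the finite set
`S_a ∪ s S_a` of nonzero elements, the part of the sum of the class `a` is `Q(f_a, g'_a)`
(`s * s = 1`).  `Q(x, x) ≥ 0` for every `x` (`specPsd`), so for `|ω| = 1`:
`0 ≤ Re Q(x - ω y, x - ω y) = Q(x, x) + Q(y, y) - 2 Re (conj ω * Q(x, y))` (the kernel is real and symmetric: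
`ang w w' = ang w' w`), hence `‖Q(x, y)‖ ≤ (Q(x, x) + Q(y, y)) / 2`.  Finally
`Q(g'_a, g'_a) = ∑_{z, z' ∈ S_a} g z conj (g z') tri (ang (s z) (s z') / φ)` and
`ang (s z) (s z') = ang z z'` (`Cls.ang_mul`), and the sums over `a` of `Q(f_a, f_a)` and
`Q(g'_a, g'_a)` are `TT t φ S f` and `TT t φ S g`. -/
def SpecEXB : Prop := ∀ (t : ℕ) (φ : ℝ) (s : Gi) (S : Finset Gi) (f g : Gi → ℂ),
  1 ≤ t → 0 < φ → φ ≤ Real.pi → (s = 1 ∨ s = -1) → (∀ z ∈ S, z ≠ 0) →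
    ‖∑ z ∈ S.filter (fun z => IsCoprime z (md t)), ∑ z' ∈ S.filter (fun z' => md t ∣ z' - z),
      f z * conj (g z') * ((tri (ang z (s * z') / φ) : ℝ) : ℂ)‖ ≤
        (TT t φ S f + TT t φ S g) / 2

/-- BXS (from KER, EXB): one `VT` is bounded by tent forms of the cells.  PROOF.  Put
`f = ∑_β g_β`.  Split the pairs `(z, z')` of `VT` (`t ∣ z' - z`, `pos z z'`) into those with `z` coprime to
`t` (then `z'` is coprime to `t` too) and the others.  The others: as in SML, `(z, z') ↦ (u, z)`,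
`z' - z = t * u`, `u ∈ disc (2 κ K)`, `|crs u z| ≤ 4 B`, kernel at most `2`, `‖f‖ ≤ F`: at most
`2 F ^ 2 * ncc t (2 κ K) (4 B) S`.  The coprime ones: expand `f z * conj (f z') = ∑_{β, β'} ..`.  If
`g_β z ≠ 0` and `g_β' z' ≠ 0`, KER (with `La = L β`, `Lb = L β'`) replaces the kernel (with the
condition `pos z z'`) by `2 m tri (ang z z' / φ)`, `φ = 4 t B / √(L β * L β')`,
`0 ≤ m ≤ 1` not depending on `z, z'`, up to the error `EE * [|crs z' z| ≤ 8 t B]`.  By EXB (`s = 1`;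
`φ ≤ 1/8 ≤ π`, see KER; if `I` is empty or `S` is empty there is nothing to prove) the main
part is at most `∑_{β, β'} 2 m (TT φ g_β + TT φ g_β') / 2 ≤ ∑_{β, β'} (TT φ g_β + TT φ g_β')`,
which is `2 ∑_{β, β'} TT φ g_β` because `φ` is symmetric in `β, β'` (the forms `TT` are `≥ 0` by EXB
with `g = f`).  The error is at most `EE * ∑_{(z, z')} (∑_β ‖g_β z‖)(∑_β' ‖g_β' z'‖) ≤ EE F ^ 2 * #` where
`#` is the number of pairs with `t ∣ z' - z` and `|crs z' z| ≤ 8 t B`; the pairs `z = z'` are `#S` many, the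
others are mapped injectively to `(u, z)`, `z' - z = t u`, `nm u ≤ 4 Y / t ^ 2`, `|crs u z| ≤ 8 B`. -/
def SpecBXS : Prop := ∀ (κ ρ η Y K B F : ℝ) (t : ℕ) (ι : Type) (I : Finset ι) (L : ι → ℝ)
  (S : Finset Gi) (g : ι → Gi → ℂ),
  1 ≤ κ → 1 ≤ ρ → 0 ≤ η → η ≤ 1 / 2 → 0 < K → 0 < B → 1 ≤ t → 0 < Y → 32 * ρ * t * B ≤ Y →
  0 ≤ F → S ⊆ disc Y → (∀ β ∈ I, Y / ρ ≤ L β ∧ Real.exp η * L β ≤ Y) →
  (∀ β ∈ I, ∀ z ∈ S, g β z ≠ 0 → L β ≤ (nm z : ℝ) ∧ (nm z : ℝ) ≤ Real.exp η * L β) →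
  (∀ z ∈ S, ∑ β ∈ I, ‖g β z‖ ≤ F) →
    |VT κ K B t S (fun z => ∑ β ∈ I, g β z)| ≤
      4 * ∑ β ∈ I, ∑ β' ∈ I, TT t (4 * t * B / Real.sqrt (L β * L β')) S (g β) +
      F ^ 2 * (EE ρ η Y K B t * (S.card + pcn (4 * Y / (t : ℝ) ^ 2) Y (8 * B)) +
        2 * ncc t (2 * κ * K) (4 * B) S)

/-! ## C. Characters -/

/-- EXP (from `MR.tent_form` and `Cls.sum_char`): expansion of `TT` in Hecke characters.  PROOF.
For a unit class `a` modulo `t` let `S_a` be its elements in `S`.  `tent_form` for `S_a` gives the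
expansion of the part of the class `a`; sum over the (finitely many) unit classes.  For every `k`:
`∑_a ‖∑_{z ∈ S_a} f z ξ_k(z)‖ ^ 2 = (1 / ph t) ∑_χ ‖∑_{z ∈ S} f z χ(z) ξ_k(z)‖ ^ 2 = HS t k S f`, because
`∑_{z ∈ S} f z χ(z) ξ_k(z) = ∑_a χ(a) F_a` and `∑_χ χ(a) conj (χ(b)) = ph t * [a = b]` for units `a, b`
(`Cls.sum_char`: `conj (χ b) = χ (b⁻¹)` for a unit `b`; `χ` vanishes on non-units).  For `t ≥ 1` all
characters are in `chs t` (`Cls.finite_RR`), `ph t ≥ 1`. -/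
def SpecEXP : Prop := ∀ (t : ℕ) (φ : ℝ) (S : Finset Gi) (f : Gi → ℂ), 1 ≤ t → 0 < φ →
  φ ≤ Real.pi → (∀ z ∈ S, z ≠ 0) →
    HasSum (fun n : ℕ => cc φ n * (HS t n S f + HS t (-n) S f))
      (TT t φ S f - φ / (2 * Real.pi) * HS t 0 S f)

/-- EXL (from EXP): lower bound for `TT`.  PROOF.  For `1 ≤ n ≤ Km`, `n φ ≤ π`, and
`1 - cos x ≥ 2 x² / π²` for `0 ≤ x ≤ π` (`1 - cos x = 2 sin² (x/2)`, `sin (x/2) ≥ x / π`), so
`cc φ n ≥ 2 φ / π³`; also `φ / (2 π) ≥ 2 φ / π³` (`π² ≥ 4`).  All terms in EXP are `≥ 0`; keep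
`n ≤ Km`. -/
def SpecEXL : Prop := ∀ (t Km : ℕ) (φ : ℝ) (S : Finset Gi) (f : Gi → ℂ), 1 ≤ t → 0 < φ →
  φ ≤ Real.pi → φ * Km ≤ Real.pi → (∀ z ∈ S, z ≠ 0) →
    2 * φ / Real.pi ^ 3 * ∑ k ∈ IK Km, HS t k S f ≤ TT t φ S f

/-- PNC: trivial bound for `TT` and count of pairs.  PROOF.  (1) `0 ≤ tri ≤ 1` and
`tri (ang / φ) = 0` if `ang ≥ φ`.  (2) The pairs with `z = z'` are at most `#S`.  If `z ≠ z'`, `t ∣ z' - z` and
`ang z z' < φ`, put `z' - z = t u`: `nm u = nm (z' - z) / t ^ 2 ≤ 4 Y / t ^ 2`, `u ≠ 0`,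
`t |crs u z| = |crs z' z| = √(nm z) √(nm z') |sin (ang z z')| ≤ Y φ`; `(z, z') ↦ (u, z)` is
injective. -/
def SpecPNC : Prop :=
  (∀ (t : ℕ) (φ F : ℝ) (S : Finset Gi) (f : Gi → ℂ), 1 ≤ t → 0 < φ → 0 ≤ F →
    (∀ z ∈ S, ‖f z‖ ≤ F) → TT t φ S f ≤ F ^ 2 * PN t φ S) ∧
  (∀ (t : ℕ) (φ Y : ℝ) (S : Finset Gi), 1 ≤ t → 0 < φ → S ⊆ disc Y →
    (PN t φ S : ℝ) ≤ S.card + pcn (4 * Y / (t : ℝ) ^ 2) Y (Y * φ / t))

/-- TAI (from EXL, PNC): the tail of the expansion.  PROOF.  Split `Km < n ≤ M` into the blocks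
`2 ^ j Km < n ≤ 2 ^ (j + 1) Km`, `j = 0, 1, ..`.  There `cc φ n ≤ 2 / (π φ n²) ≤ 2 / (π φ 4 ^ j Km²)`
(`MR.cc_le_two`).  With `φ_j = π / (2 ^ (j + 1) Km) ≤ π / (2 Km) ≤ φ` EXL (for `2 ^ (j + 1) Km`) gives
`∑_{|k| ≤ 2 ^ (j + 1) Km} HS t k S f ≤ π³ / (2 φ_j) * TT t φ_j S f` and by PNC
`TT t φ_j S f ≤ F² PN t φ_j S ≤ F² PN t φ S`.  So the block is at most
`2 / (π φ 4 ^ j Km²) * π³ / 2 * 2 ^ (j + 1) Km / π * F² PN = 2 π / (φ 2 ^ j Km) * F² PN`; sum over `j`. -/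
def SpecTAI : Prop := ∀ (t Km M : ℕ) (φ F : ℝ) (S : Finset Gi) (f : Gi → ℂ), 1 ≤ t → 1 ≤ Km →
  0 < φ → φ ≤ Real.pi → Real.pi ≤ 2 * φ * Km → 0 ≤ F → (∀ z ∈ S, z ≠ 0) →
  (∀ z ∈ S, ‖f z‖ ≤ F) →
    ∑ n ∈ Ioc Km M, cc φ n * (HS t n S f + HS t (-n) S f) ≤
      4 * Real.pi / (φ * Km) * F ^ 2 * PN t φ S

/-- HTM: multiplicative convolutions.  PROOF.  (1) `χ` and `ξ_k` are multiplicative, so
`hat (mc P S h) = ∑_{z ∈ S''} ∑_{p z' = z} h z' χ(p) χ(z') ξ_k(p) ξ_k(z') = hat P 1 * hat S h` (every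
`(p, z') ∈ P × S` has `p z' ∈ ms P S ⊆ S''`).  (2) `‖mc (P i) (S j) (h j) z‖` is at most the sum over the
`p ∈ P i` with `p ∣ z` and `z / p ∈ S j` of `‖h j (z / p)‖` (for given `p ≠ 0` at most one `z'`).  As
the `P i` are disjoint, the double sum is at most `F * #{p ∈ ⋃ P i : p ∣ z}`.  These `p` are different
elements of `GP 0 Y`, hence pairwise coprime primes (`GP_coprime`), so their product divides `z`, and
`nm p ≥ 5`: `5 ^ # ≤ nm z ≤ Y`, so `# ≤ log Y / log 5 ≤ 1 + log Y`. -/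
def SpecHTM : Prop :=
  (∀ (t : ℕ) (χ : MulChar (Cls.RR (md t)) ℂ) (k : ℤ) (P S S'' : Finset Gi) (h : Gi → ℂ),
    ms P S ⊆ S'' → hat t χ k S'' (mc P S h) = hat t χ k P (fun _ => 1) * hat t χ k S h) ∧
  (∀ (Y F : ℝ) (I J : Finset ℕ) (P S : ℕ → Finset Gi) (h : ℕ → Gi → ℂ), 1 ≤ Y → 0 ≤ F →
    (∀ i ∈ I, P i ⊆ GP 0 Y) → (∀ i ∈ I, ∀ i' ∈ I, i ≠ i' → Disjoint (P i) (P i')) →
    (∀ z : Gi, ∑ j ∈ J, (if z ∈ S j then ‖h j z‖ else 0) ≤ F) →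
      ∀ z ∈ disc Y, ∑ i ∈ I, ∑ j ∈ J, ‖mc (P i) (S j) (h j) z‖ ≤ F * (1 + Real.log Y))

/-- TTB (from EXP, TAI, HTM): typical, atypical, tail.  PROOF.  Put `f = mc P S' h`.  EXP for
`(S, f)`, with `hat t χ k S f = hat t χ k P 1 * hat t χ k S' h` (HTM).  For `|k| ≤ Km` and each `χ`:
`‖hat P‖² ‖hat h‖² ≤ τ² ‖hat h‖² + [(χ, k) atypical] ‖hat P‖² ‖hat h‖²`.  The first terms add up to at most
`τ² * TT t φ S' h` (EXP for `(S', h)`, all terms `≥ 0`).  In the second terms the coefficient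
(`cc φ |k|`, or `φ / (2 π)` for `k = 0`) is at most `φ / (2 π) ≤ φ` (`MR.cc_le_one`).  The terms with
`|k| > Km` are at most the last term, by TAI for every `M` (limit of the partial sums). -/
def SpecTTB : Prop := ∀ (t Km : ℕ) (φ τ F : ℝ) (P S' S : Finset Gi) (h : Gi → ℂ), 1 ≤ t → 1 ≤ Km →
  0 < φ → φ ≤ Real.pi → Real.pi ≤ 2 * φ * Km → 0 ≤ τ → 0 ≤ F → (∀ z ∈ S, z ≠ 0) →
  (∀ z ∈ S', z ≠ 0) → ms P S' ⊆ S → (∀ z ∈ S, ‖mc P S' h z‖ ≤ F) →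
    TT t φ S (mc P S' h) ≤ τ ^ 2 * TT t φ S' h +
      φ / ph t * ∑ q ∈ atyp t Km τ P,
        ‖hat t q.1 q.2 P (fun _ => 1)‖ ^ 2 * ‖hat t q.1 q.2 S' h‖ ^ 2 +
      4 * Real.pi / (φ * Km) * F ^ 2 * PN t φ S

/-- PHI: the number of characters.  PROOF.  For `t ≥ 1` the ring `Gi / t` is finite
(`Cls.finite_RR`) with `t ^ 2` elements, `chs t` is the set of all characters, and their number is the
number of units (`MulChar.card_eq_card_units_of_hasEnoughRootsOfUnity`, see `Cls.sum_char`).  An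
element `x + i y` is a unit modulo `t` iff `x² + y²` is a unit modulo `t`.  So
`ph t = #{(x, y) mod t : gcd (x² + y², t) = 1}`, which is multiplicative in `t` (Chinese remainder
theorem), equals `p ^ (2 (a - 1)) * #{(x, y) mod p : p ∤ x² + y²}` for `t = p ^ a`, and for each `x ≠ 0` mod `p`
there are at most two `y` with `p ∣ x² + y²`, for `x = 0` one: at least `p² - 2 (p - 1) - 1 = (p - 1)²`.
So `ph t ≥ φ(t)²` (Euler), and `t / φ(t) = ∏_{p ∣ t} p / (p - 1) ≤ ∏_{i = 1}^{ω} (i + 1) / i = ω + 1`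
(`ω` the number of primes dividing `t`, the `i`-th of them is at least `i + 1`), `ω ≤ log t / log 2
≤ 2 log t`. -/
def SpecPHI : Prop := ∀ t : ℕ, 1 ≤ t → (∀ χ, χ ∈ chs t) ∧
  (t : ℝ) ^ 2 / (1 + 2 * Real.log t) ^ 2 ≤ ph t ∧ (ph t : ℝ) ≤ (t : ℝ) ^ 2

/-- MOT (from EXL, PNC, PCN, HTM, PHI): moments, the number of atypical characters.  PROOF.  Let
`M = R ^ l`, let `f_l (z)` be the number of `(p_1, .., p_l) ∈ P ^ l` with product `z` and `S_l ⊆ disc M` the set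
of these products.  `f_l = mc P S_(l-1) f_(l-1)`, so by HTM `hat t χ k S_l f_l = (hat t χ k P 1) ^ l`.  By
unique factorisation (the elements of `GP 0 R` are pairwise non-associated primes, `GP_eq_of_dvd`) `z`
determines the multiset of the `p_i`, so `f_l ≤ l!`.  With `φ₁ = π / Km`: EXL, PNC and PCN give
`(2 φ₁ / π³) (1 / ph t) ∑_{|k| ≤ Km} ∑_χ ‖hat P‖ ^ (2 l) ≤ TT t φ₁ S_l f_l ≤ (l!)² PN t φ₁ S_l`
`≤ (l!)² (#disc M + pcn (4 M / t²) M (M φ₁ / t))`, and `pcn ≤ C (M π / (Km t) + 1) (2 M / t) (1 + log M)`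
(`4 M / t² ≤ M` since `t ≥ 2`).  Every atypical `(χ, k)` contributes at least `τ ^ (2 l)` to the left
sum, `ph t ≤ t²`, `2 φ₁ / π³ = 2 / (π² Km)`: the left side of the claim is at most
`(π² / 2) Km t² (l!)² (9 M + C' (M / (Km t) + 1) (M / t)(1 + log M))`, and
`Km t² (M / (Km t)) (M / t) = M²`, `Km t² M / t ≤ Km t² M`.
(For `f_l ≤ l!` one can use induction on `l`: `f_l (z) = ∑_{p ∈ P, p ∣ z} f_(l-1) (z / p)`, and if
`f_l (z) ≠ 0` then `z` is a product of `l` primes of `GP 0 R`, so at most `l` elements of `P` divide it.) -/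
def SpecMOT : Prop := ∃ C : ℝ, 0 < C ∧ ∀ (R τ : ℝ) (t Km l : ℕ) (P : Finset Gi), 2 ≤ t → 1 ≤ Km →
  1 ≤ l → 1 ≤ R → 0 < τ → P ⊆ GP 0 R →
    ((atyp t Km τ P).card : ℝ) * τ ^ (2 * l) ≤ C * (l.factorial : ℝ) ^ 2 *
      (1 + Real.log (R ^ l)) * ((R ^ l) ^ 2 + (t : ℝ) ^ 2 * Km * R ^ l)

/-! ## D. The variance inequality -/

/-- hypotheses of the variance inequality -/
structure Par (κ ρ K Y B η w M F : ℝ) (T0 T1 Km : ℕ) (I J : Finset ℕ) (L : ℕ → ℕ → ℝ)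
    (P S : ℕ → Finset Gi) (h : ℕ → Gi → ℂ) : Prop where
  hκ : 1 ≤ κ
  hρ : 1 ≤ ρ
  hK : 1 ≤ K
  hB : 1 ≤ B
  hTB : (T1 : ℝ) ≤ B
  hKY : 2 * κ * K ≤ Y
  hT1 : 8 * Y ≤ (T1 : ℝ) ^ 2 * K
  hT1' : (T1 : ℝ) ^ 2 * K ≤ 16 * Y
  hBY : 32 * ρ * T1 * B ≤ Y
  hT0 : 1 ≤ T0
  hT01 : T0 ≤ T1
  hKm : 1 ≤ Km
  hKm' : Real.pi * Y ≤ 8 * T0 * B * Km
  hη : 0 ≤ η
  hη' : η ≤ 1 / 2
  hw : 2 ≤ w
  hF : 0 ≤ F
  hM : 1 ≤ M
  hMY : M ≤ Y
  hP : ∀ i ∈ I, P i ⊆ GP 0 Y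
  hPw : ∀ i ∈ I, ∀ p ∈ P i, w ≤ (nm p : ℝ)
  hPd : ∀ i ∈ I, ∀ i' ∈ I, i ≠ i' → Disjoint (P i) (P i')
  hS : ∀ j ∈ J, S j ⊆ disc M
  hSw : ∀ j ∈ J, ∀ z ∈ S j, ∀ π : Gi, Prime π → π ∣ z → w ≤ (nm π : ℝ)
  hL : ∀ i ∈ I, ∀ j ∈ J, Y / ρ ≤ L i j ∧ Real.exp η * L i j ≤ Y
  hL' : ∀ i ∈ I, ∀ j ∈ J, ∀ p ∈ P i, ∀ z ∈ S j,
    L i j ≤ (nm (p * z) : ℝ) ∧ (nm (p * z) : ℝ) ≤ Real.exp η * L i j
  hh : ∀ z : Gi, ∑ j ∈ J, (if z ∈ S j then ‖h j z‖ else 0) ≤ F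

/-- the union of the sets of products -/
noncomputable def SU (I J : Finset ℕ) (P S : ℕ → Finset Gi) : Finset Gi := by
  classical exact I.biUnion (fun i => J.biUnion (fun j => ms (P i) (S j)))

/-- the function of which the line sums are taken -/
noncomputable def fU (I J : Finset ℕ) (P S : ℕ → Finset Gi) (h : ℕ → Gi → ℂ) (z : Gi) : ℂ :=
  ∑ i ∈ I, ∑ j ∈ J, mc (P i) (S j) (h j) z

/-- FNA (from BXS, TTB, PNC, PCN, NCS, HTM): one `t` with `T0 < t ≤ T1`.  PROOF.  Let `S = SU`,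
`f = fU`, `g_(i,j) = mc (P i) (S j) (h j)`, `F' = F (1 + log Y)`, `ell = 1 + log Y`.  `S ⊆ disc Y` (`hL`,
`hL'`, nonzero), every prime factor of an element of `S` has norm at least `w` (`hPw`, `hSw`; a prime
dividing `p z` divides `z` or is associated to `p`), `∑_(i,j) ‖g_(i,j) z‖ ≤ F'` (HTM), and
`g_(i,j) z ≠ 0` implies `L i j ≤ nm z ≤ e^η L i j` (`hL'`).  BXS with `ι = ℕ × ℕ`, `F'`:
(1) the error term: `#S ≤ 9 Y`, `pcn (4 Y / t²) Y (8 B) ≤ C (8 B + 1) (2 Y / t) ell` (PCN, `4 Y / t² ≤ Y` as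
`t ≥ 2`), so at most `C F'² EE (Y + B Y / t) ell`;
(2) `ncc t (2 κ K) (4 B) S ≤ C (1 + log t) ell (B √(K Y) / w + B K + √(K Y))` (NCS), `log t ≤ log Y`
(`t ≤ T1`, `T1 ≤ 32 ρ T1 B ≤ Y`);
(3) the tent forms: `φ = 4 t B / √(L L')` lies in `[4 t B / Y, 4 ρ t B / Y]`, so `φ ≤ 1/8`, and
`2 φ Km ≥ 8 T0 B Km / Y ≥ π`.  TTB (with `S' = S j`, `F'`) bounds `TT t φ S g_(i,j)` by
`τ² TT t φ (S j) (h j)`, which is at most `τ² F² PN t φ (S j) ≤ τ² F² (9 M + pcn (4 M / t²) M (M φ / t))`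
`≤ C τ² F² ell (M + B M² / (Y t))` (`‖h j z‖ ≤ F` on `S j`, `M φ / t ≤ 4 ρ B M / Y`, `M / t ≤ M`; PCN needs
`4 M / t² ≤ M`), plus the atypical term, with `φ ≤ 4 ρ t B / Y`, plus
`4 π / (φ Km) F'² PN t φ S ≤ C (Y / (t B Km)) F'² ell (Y + B Y / t)` (PNC, PCN: `Y φ / t ≤ 4 ρ B`).
There are `(#I #J)²` pairs of cells. -/
def SpecFNA : Prop := ∀ κ ρ : ℝ, 1 ≤ κ → 1 ≤ ρ → ∃ C : ℝ, 0 < C ∧
  ∀ (K Y B η w M F τ : ℝ) (T0 T1 Km : ℕ) (I J : Finset ℕ) (L : ℕ → ℕ → ℝ)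
    (P S : ℕ → Finset Gi) (h : ℕ → Gi → ℂ) (t : ℕ),
    Par κ ρ K Y B η w M F T0 T1 Km I J L P S h → 0 ≤ τ → T0 < t → t ≤ T1 →
    |VT κ K B t (SU I J P S) (fU I J P S h)| ≤
      C * F ^ 2 * (1 + Real.log Y) ^ 4 *
        ((η * (Y / ((t : ℝ) ^ 2 * K) + 1) + (t * B / Y) ^ 2 + B ^ 2 / (K * Y)) *
            (Y + B * Y / t) +
          (B * Real.sqrt (K * Y) / w + B * K + Real.sqrt (K * Y)) +
          ((I.card : ℝ) * J.card) ^ 2 * (τ ^ 2 * (M + B * M ^ 2 / (Y * t)) +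
            Y / (t * B * Km) * (Y + B * Y / t))) +
      C * ((I.card : ℝ) * J.card) * (B / Y) * ((t : ℝ) / ph t) *
        ∑ i ∈ I, ∑ j ∈ J, ∑ q ∈ atyp t Km τ (P i),
          ‖hat t q.1 q.2 (P i) (fun _ => 1)‖ ^ 2 * ‖hat t q.1 q.2 (S j) (h j)‖ ^ 2

/-- VAR (from LIN, SML, PCN, HTM, FNA): THE VARIANCE INEQUALITY.  PROOF.  The line sum on the left is
`ls (SU I J P S) (fU I J P S h) z1 b` (group the quadruples by `z = p * z'`).  LIN and SML with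
`S = SU ⊆ disc Y`, `F' = F (1 + log Y)` (HTM), `ell = 1 + log Y`: the left side is at most
`2 F'² pcn + 2 ∑_{t ≤ T0} 2 F'² pcn + 2 ∑_{T0 < t ≤ T1} |VT t|` with
`pcn = pcn (2 κ K) Y (4 B) ≤ C B √(K Y) ell = C B Y √(K / Y) ell` (PCN, `2 κ K ≤ Y`, `B ≥ 1`).  For
`T0 < t ≤ T1` use FNA and sum over `t`: `∑ 1 / t ≤ 1 + log T1 ≤ ell`, `∑_{t > T0} 1 / t² ≤ 1 / T0`,
`Y / (t² K) ≤ Y / (T0² K)`, `(t B / Y)² ≤ T1² B² / Y² ≤ 16 B² / (K Y)`, so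
(1) `∑ (Y + B Y / t) ≤ T1 Y + B Y ell ≤ 2 B Y ell` (`T1 ≤ B`);
(2) `T1 B √(K Y) / w ≤ 4 B Y / w` (`T1 √(K Y) = T1 √(K / Y) Y ≤ 4 Y` by `hT1'`), `T1 B K ≤ 4 B Y √(K / Y)`
(`T1 K = (T1 √(K / Y)) √(K Y)`), `T1 √(K Y) ≤ 4 Y`;
(3) `∑ τ² (M + B M² / (Y t)) ≤ τ² (T1 M + B M² ell / Y) ≤ B Y ell τ² (T1 M / (B Y) + (M / Y)²)`;
(4) `∑ Y / (t B Km) (Y + B Y / t) ≤ Y / (B Km) (Y ell + B Y / T0) ≤ B Y ell (Y / (B Km)) (1 / B + 1 / T0)`. -/
def SpecVAR : Prop := ∀ κ ρ : ℝ, 1 ≤ κ → 1 ≤ ρ → ∃ C : ℝ, 0 < C ∧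
  ∀ (K Y B η w M F τ : ℝ) (T0 T1 Km : ℕ) (I J : Finset ℕ) (L : ℕ → ℕ → ℝ)
    (P S : ℕ → Finset Gi) (h : ℕ → Gi → ℂ) (Z : Finset Gi),
    Par κ ρ K Y B η w M F T0 T1 Km I J L P S h → 0 ≤ τ →
    (∀ z ∈ Z, prim z ∧ K ≤ (nm z : ℝ) ∧ (nm z : ℝ) ≤ κ * K) →
    ∑ z1 ∈ Z, ∑ b ∈ Ioc ⌊B⌋ ⌊2 * B⌋, ‖∑ i ∈ I, ∑ j ∈ J, ∑ p ∈ P i,
        ∑ z ∈ (S j).filter (fun z => (z1 * (p * z)).im = b ∧ 0 < (z1 * (p * z)).re), h j z‖ ^ 2 ≤
      C * F ^ 2 * (1 + Real.log Y) ^ 5 * (B * Y) *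
        (T0 * Real.sqrt (K / Y) + η * (Y / ((T0 : ℝ) ^ 2 * K) + 1) + B ^ 2 / (K * Y) + 1 / w +
          1 / B + ((I.card : ℝ) * J.card) ^ 2 * (τ ^ 2 * (T1 * M / (B * Y) + (M / Y) ^ 2) +
            Y / (B * Km) * (1 / B + 1 / T0))) +
      C * ((I.card : ℝ) * J.card) * (B / Y) * ∑ t ∈ Ioc T0 T1, ((t : ℝ) / ph t) *
        ∑ i ∈ I, ∑ j ∈ J, ∑ q ∈ atyp t Km τ (P i),
          ‖hat t q.1 q.2 (P i) (fun _ => 1)‖ ^ 2 * ‖hat t q.1 q.2 (S j) (h j)‖ ^ 2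

end Pool.Agent.Lib.MP391708.XV
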