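import Pool.Agent.Lib.MP_391708_nt.X.Defs
import Pool.Agent.Lib.MP_391708_nt.X.SpecHM
import Pool.Agent.Lib.MP_391708_nt.X.SpecVAR

/-!
# Theorem X, part BR: from the variance inequality to the model

The bridge between the characters of `XV.SpecVAR` (`MulChar` of the ring `Gi / t`) and the functions
`ChiG`, the minimal rational modulus of a class of characters, the transforms of `eta` and `kap`.

A module proves `theorem specXXX ... : SpecXXX` in its own file `X/B/XXX.lean` (import this file), own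
lemmas in the namespace `XXXM`, from the `Spec`s named in brackets (hypotheses, in this order).
Useful: `X/PAR.lean` (`PARM.prod`: product of characters, `PARM.toChi`), `X/HM.lean` (all statements of
`SpecHM` without hypotheses), `MR/Basic.lean`, `MR/Cls.lean` (`Cls.mk_eq_iff`, `Cls.isUnit_mk`,
`Cls.finite_RR`).
-/

set_option autoImplicit false

namespace Pool.Agent.Lib.MP391708.X

open Pool.Agent.Lib.MP391708.MR
open Finset Filter Topology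
open scoped ComplexConjugate

/-! ## Definitions -/

/-- equal on the elements coprime to both moduli -/
def Eqv (χ₁ χ₂ : Gi → ℂ) : Prop := ∀ z, χ₁ z ≠ 0 → χ₂ z ≠ 0 → χ₁ z = χ₂ z

/-- the function on `Gi` of a character modulo `t` -/
noncomputable def fn (t : ℕ) (χ : MulChar (Cls.RR (XV.md t)) ℂ) (z : Gi) : ℂ :=
  χ (Ideal.Quotient.mk (Ideal.span {XV.md t}) z)

/-! ## Characters -/

/-- BRG: the bridge.  PROOF.  `md t = (t : Gi)` (`Int.cast_natCast`).  `fn t χ` is multiplicative, of period `t`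
(`Ideal.Quotient.mk` kills `t * y`), and `χ (mk z) ≠ 0` iff `mk z` is a unit iff `z` is coprime to `t` (`Cls.isUnit_mk`,
`MulChar.map_nonunit`).  Conversely a `χ` with `ChiG (t : Gi) χ` is constant on the classes, so it is
`f ∘ mk`, and `f` is a `MulChar` (`f` vanishes exactly on the nonunits).  `mk` is surjective.  The last claim is the
definition. -/
def SpecBRG : Prop := ∀ t : ℕ, 1 ≤ t →
  (∀ χ : MulChar (Cls.RR (XV.md t)) ℂ, ChiG ((t : ℕ) : Gi) (fn t χ)) ∧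
  (∀ χ : Gi → ℂ, ChiG ((t : ℕ) : Gi) χ → ∃ χ' : MulChar (Cls.RR (XV.md t)) ℂ, fn t χ' = χ) ∧
  (∀ χ χ' : MulChar (Cls.RR (XV.md t)) ℂ, fn t χ = fn t χ' → χ = χ') ∧
  ∀ (χ : MulChar (Cls.RR (XV.md t)) ℂ) (k : ℤ) (S : Finset Gi) (f : Gi → ℂ),
    XV.hat t χ k S f = ∑ z ∈ S, f z * hk (fn t χ) k z

/-- NRM: values.  PROOF.  If `χ z ≠ 0` then `z` is coprime to `m`; two of the powers `z ^ a`, `a < b`, are congruent
modulo `m` (finitely many classes), so `χ(z) ^ a = χ(z) ^ b` and `χ z` is a root of unity.  (Or: `PARM.toChi` and what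
`MR/Basic` has for `Chi`.)  `χ` of a unit is not `0`. -/
def SpecNRM : Prop := ∀ (m : Gi) (χ : Gi → ℂ), ChiG m χ →
  (∀ z, χ z = 0 ∨ ‖χ z‖ = 1) ∧ (∀ (k : ℤ) (z : Gi), z ≠ 0 → χ z ≠ 0 → ‖hk χ k z‖ = 1) ∧
  (∀ (k : ℤ) (x y : Gi), hk χ k (x * y) = hk χ k x * hk χ k y)

/-- LFT: lifting of coprime residues.  PROOF.  Let `y` be the product of those members of
`UniqueFactorizationMonoid.factors n` (with multiplicity) which do not divide `x`.  Let `π` be a prime dividing `n`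
and `x + g y`.  If `π ∣ x` then `π ∣ g y`; `π ∤ g` (`x`, `g` coprime), so `π` divides a factor of `y`, which is
associated to `π` and does not divide `x`: contradiction.  If `π ∤ x` then `π` is associated to a factor of `y`, so
`π ∣ y`, `π ∣ x`: contradiction.  `isCoprime_of_prime_dvd`. -/
def SpecLFT : Prop := ∀ g n x : Gi, n ≠ 0 → IsCoprime x g → ∃ y : Gi, IsCoprime (x + g * y) n

/-- EQT [LFT]: `Eqv` is transitive.  PROOF.  Let `χ₁ z`, `χ₃ z` be nonzero: `z` is coprime to `m₁ m₃`.  By LFT there is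
`z' = z + m₁ m₃ y` coprime to `m₂`; it is still coprime to `m₁` and `m₃`, and
`χ₁ z = χ₁ z' = χ₂ z' = χ₃ z' = χ₃ z`. -/
def SpecEQT : Prop := ∀ (m₁ m₂ m₃ : Gi) (χ₁ χ₂ χ₃ : Gi → ℂ), ChiG m₁ χ₁ → ChiG m₂ χ₂ → ChiG m₃ χ₃ →
  Eqv χ₁ χ₂ → Eqv χ₂ χ₃ → Eqv χ₁ χ₃

/-- CND [LFT]: equivalent characters modulo `t₁` and `t₂` come from the greatest common divisor.  PROOF.  `g = gcd`.
(1) If `z ≡ z'` modulo `g` and both are coprime to `t₁ t₂` then `χ₁ z = χ₁ z'`: with `g = a t₁ + b t₂` (Bezout) and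
`z' = z + g v` let `z'' = z + a t₁ v = z' - b t₂ v`; it is coprime to `t₁` (congruent to `z`) and to `t₂`
(congruent to `z'`), and `χ₁ z = χ₁ z'' = χ₂ z'' = χ₂ z' = χ₁ z'`.  (2) For `x` coprime to `g` choose `L x ≡ x` mod `g`
coprime to `t₁ t₂` (LFT), and put `χ x = χ₁ (L x)`; `χ x = 0` for the other `x`.  By (1) `χ x = χ₁ z` for every `z ≡ x`
mod `g` which is coprime to `t₁ t₂`; so `χ` is multiplicative, of period `g`, `χ 1 = 1`, and nonzero exactly on the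
elements coprime to `g`.  (3) If `z` is coprime to `t₁`: by LFT there is `z'' ≡ z` mod `t₁` coprime to `t₂`; then
`χ z = χ₁ z'' = χ₁ z`.  The same for `χ₂`, as `χ x = χ₂ (L x)`. -/
def SpecCND : Prop := ∀ (t₁ t₂ : ℕ) (χ₁ χ₂ : Gi → ℂ), 0 < t₁ → 0 < t₂ → ChiG ((t₁ : ℕ) : Gi) χ₁ →
  ChiG ((t₂ : ℕ) : Gi) χ₂ → Eqv χ₁ χ₂ → ∃ χ : Gi → ℂ, ChiG ((Nat.gcd t₁ t₂ : ℕ) : Gi) χ ∧
    (∀ z, χ₁ z ≠ 0 → χ z = χ₁ z) ∧ (∀ z, χ₂ z ≠ 0 → χ z = χ₂ z)

/-- CNM [EQT, CND]: the minimal rational modulus of a class.  PROOF.  Let `f` be minimal such that there is `χ₀`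
with `ChiG (f : Gi) χ₀`, `Eqv χ χ₀` (`Nat.find`; `t` itself is possible).  If `ChiG (t' : Gi) χ'` and `Eqv χ₀ χ'`, then CND gives a
character modulo `gcd f t'` which is equivalent to `χ₀`, hence (EQT) to `χ`; by minimality `gcd f t' ≥ f`, so
`f ∣ t'`.  If `χ' z ≠ 0` then `z` is coprime to `t'`, hence to `f`, so `χ₀ z ≠ 0` and `Eqv` gives the equality. -/
def SpecCNM : Prop := ∀ (t : ℕ) (χ : Gi → ℂ), 0 < t → ChiG ((t : ℕ) : Gi) χ →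
  ∃ (f : ℕ) (χ₀ : Gi → ℂ), 0 < f ∧ ChiG ((f : ℕ) : Gi) χ₀ ∧ Eqv χ χ₀ ∧ f ≤ t ∧
    ∀ (t' : ℕ) (χ' : Gi → ℂ), 0 < t' → ChiG ((t' : ℕ) : Gi) χ' → Eqv χ₀ χ' →
      f ∣ t' ∧ ∀ z, χ' z ≠ 0 → χ' z = χ₀ z

/-- CSM.  PROOF.  `t = f s`, `s ≤ T / f ≤ T`, `∑_{s ≤ T} 1/s ≤ 1 + log T`. -/
def SpecCSM : Prop := ∀ (f T : ℕ), 1 ≤ f → 1 ≤ T →
  ∑ t ∈ (Icc 1 T).filter (fun t => f ∣ t), 1 / (t : ℝ) ≤ (1 + Real.log T) / f

/-- REP: representatives.  PROOF.  Induction over `Q`: a new element which is not `Dist` from some element of `R` is left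
out, otherwise it is added (`Dist` is symmetric). -/
def SpecREP : Prop := ∀ Q : Finset Ix, ∃ R : Finset Ix, R ⊆ Q ∧
  (∀ i ∈ R, ∀ j ∈ R, i ≠ j → Dist i.2.1 j.2.1 i.2.2 j.2.2) ∧
  ∀ q ∈ Q, ∃ r ∈ R, ¬ Dist q.2.1 r.2.1 q.2.2 r.2.2

/-! ## Units -/

/-- UIV: sums of unit-invariant data against a function which is not unit-invariant.  PROOF.  `z ↦ i z` permutes `S`
(injective on a finite set), so `Σ = ψ(i) Σ`. -/
def SpecUIV : Prop := ∀ (S : Finset Gi) (f ψ : Gi → ℂ), (∀ z, z ∈ S → (⟨0, 1⟩ : Gi) * z ∈ S) →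
  (∀ z ∈ S, f ((⟨0, 1⟩ : Gi) * z) = f z) → (∀ z, ψ ((⟨0, 1⟩ : Gi) * z) = ψ ⟨0, 1⟩ * ψ z) →
  ψ ⟨0, 1⟩ ≠ 1 → ∑ z ∈ S, f z * ψ z = 0

/-- UIL: unit invariance of the cells, of roughness, of `eta` and of `kap`.  PROOF.  `nm (i z) = nm z`; `π ∣ i z` iff
`π ∣ z`; `i z` is associated to `z`; `psi i' (i z) = psi i' i * psi i' z` (NRM's third claim, proved there by
`ChiG.mul` and `xi_mul`) and `UOK.adm`. -/
def SpecUIL : Prop := (∀ (h : ℝ) (j : ℕ) (z : Gi), (⟨0, 1⟩ : Gi) * z ∈ lc h j ↔ z ∈ lc h j) ∧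
  (∀ (w : ℝ) (z : Gi), rgh w ((⟨0, 1⟩ : Gi) * z) ↔ rgh w z) ∧
  (∀ (p : Par) (v4 v2 : ℕ) (z : Gi), eta p v4 v2 ((⟨0, 1⟩ : Gi) * z) = eta p v4 v2 z) ∧
  ∀ (p : Par) (Q F W : ℝ) (U : Finset Ix) (v4 v2 : ℕ) (z : Gi), UOK Q F W U →
    kap p U v4 v2 ((⟨0, 1⟩ : Gi) * z) = kap p U v4 v2 z

/-- ETH: the transform of `eta`.  PROOF.  Exchange the sums: for every pair `(π, π')` the `z` associated to `π π'` are
the four (different) elements `i^a π π'`, all in `disc X`, and `ψ` takes the value `ψ π ψ π'` on each of them. -/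
def SpecETH : Prop := ∀ (p : Par) (v4 v2 : ℕ) (ψ : Gi → ℂ) (X : ℝ), (∀ x y, ψ (x * y) = ψ x * ψ y) →
  ψ ⟨0, 1⟩ = 1 → (∀ π ∈ cell p.h p.M4 (2 * p.M4) v4, ∀ π' ∈ cell p.h p.M2 (2 * p.M2) v2,
    (nm (π * π') : ℝ) ≤ X) →
    ∑ z ∈ disc X, eta p v4 v2 z * ψ z =
      (∑ π ∈ cell p.h p.M4 (2 * p.M4) v4, ψ π) * (4 * ∑ π ∈ cell p.h p.M2 (2 * p.M2) v2, ψ π)

/-! ## Cells -/

/-- LCA: a lattice cell is an annulus.  PROOF.  For an integer `n ≥ 1`: `⌊h log n⌋₊ = j` iff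
`e^(j/h) ≤ n < e^((j+1)/h)` iff `⌈e^(j/h)⌉ - 1 < n ≤ ⌈e^((j+1)/h)⌉ - 1`. -/
def SpecLCA : Prop := ∀ (h : ℝ) (j : ℕ), 0 < h → ∃ y y' : ℝ, 0 ≤ y ∧ y ≤ y' ∧
  y' ≤ Real.exp ((j + 1) / h) ∧ Real.exp ((j + 1) / h) ≤ y' + 1 ∧ y ≤ Real.exp (j / h) ∧
  Real.exp (j / h) ≤ y + 1 ∧ lc h j = ann y y'

/-- RRC [SpecRG0 (of SpecHM), LCA]: the number of rough elements of a lattice cell. -/
def SpecRRC : Prop := ∀ A : ℝ, 1 ≤ A → ∃ c : ℝ, 0 < c ∧ c < 1 ∧ ∀ᶠ x : ℝ in atTop,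
  ∀ (p : Par) (j : ℕ), 0 < p.h → p.w ≤ Real.log x ^ A → Real.exp ((j + 1) / p.h) ≤ x →
    |RR p j - Real.pi * (Real.exp ((j + 1) / p.h) - Real.exp (j / p.h)) * VP p.w| ≤ x ^ (1 - c)

/-- VPM (imports MR/PG): Mertens.  PROOF.  The elements of `PI w` are `1 + i` (norm `2`), the two primes above each
`p ≡ 1 mod 4`, `p ≤ w` (one of each class of associates; these are the elements of `GP 0 w`), and the inert `p` of norm
`p² ≤ w`.  The factors of `1 + i` and of the inert primes are between `1/2 · ∏_n (1 - 1/n²) ≥ 1/4` and `1`.  For the others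
`log (1 - 1/n) = -1/n + O(1/n²)`, `∑_{GP 0 w} 1/nm = WW 0 w = log log w + O(1)` (`SpecPG`, second claim, from
`P = 3`; there is no element of norm at most `3` in `GP`). -/
def SpecVPM : Prop := ∃ c C : ℝ, 0 < c ∧ 0 < C ∧ ∀ w : ℝ, 2 ≤ w →
  c / Real.log w ≤ VP w ∧ VP w ≤ C / Real.log w

open scoped Classical in
/-- NCL [SpecCTU (of SpecHM), LCA]: the elements of a cell which are rough and not coprime to `t`.  PROOF.  Such a `z`
(nonzero) has a common prime factor `π` with `t`, and `nm π > w`.  There are at most `log(t²)/log 2 ≤ 3 log t` classes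
of associates of primes dividing `t` (the product of representatives divides `t`, the norms are `≥ 2`).  The
multiples of `π` in `ann y y'` are `π z'` with `z' ∈ ann (y / nm π) (y' / nm π)`: by CTU (`m = 1`, `w = 0`) at most
`π (y' - y)/nm π + 2 C (√X + 1)`, and `y' - y ≤ e^((j+1)/h) (1 - e^(-1/h)) + 1 ≤ X/h + 1`. -/
def SpecNCL : Prop := ∃ C : ℝ, 0 < C ∧ ∀ (h w : ℝ) (j t : ℕ), 1 ≤ h → 1 ≤ w → 0 < t →
  ((((lc h j).filter (fun z => rgh w z ∧ ¬ IsCoprime z ((t : ℕ) : Gi))).card : ℕ) : ℝ) ≤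
    C * (1 + Real.log t) *
      (Real.exp ((j + 1) / h) / (h * w) + Real.sqrt (Real.exp ((j + 1) / h)))

/-! ## The transforms of the model -/

open scoped Classical in
/-- KHD [SpecRG1 (of SpecHM), LCA]: different characters.  PROOF.  LCA and RG1 with `m₁ = t`, `m₂ = i.1` (norms `t²`,
`i.1²`; halve the exponent). -/
def SpecKHD : Prop := ∀ A A' : ℝ, 1 ≤ A → 1 ≤ A' → ∃ c : ℝ, 0 < c ∧ c < 1 ∧ ∀ᶠ x : ℝ in atTop,
  ∀ (i : Ix) (t : ℕ) (χ : Gi → ℂ) (k : ℤ) (h w : ℝ) (j : ℕ), ChiG ((i.1 : ℕ) : Gi) i.2.1 →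
    ChiG ((t : ℕ) : Gi) χ → (i.1 : ℝ) ≤ x ^ c → (t : ℝ) ≤ x ^ c → |(i.2.2 : ℝ)| ≤ x ^ A →
    |(k : ℝ)| ≤ x ^ A → Dist χ i.2.1 k i.2.2 → w ≤ Real.log x ^ A' → 0 < h →
    Real.exp ((j + 1) / h) ≤ x →
      ‖∑ z ∈ (lc h j).filter (rgh w), hk χ k z * conj (psi i z)‖ ≤ x ^ (1 - c)

open scoped Classical in
/-- KHE [NRM, NCL]: equivalent characters.  PROOF.  A rough `z` is coprime to `i.1` (a prime `π ∣ i.1` has norm at most
`i.1² ≤ w`), so `‖psi i z‖ = 1`.  If `z` is coprime to `t` the term is `psi i z * conj (psi i z) = 1`; otherwise it is `0`.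
So the difference is minus the cardinality in NCL. -/
def SpecKHE : Prop := ∃ C : ℝ, 0 < C ∧ ∀ (i : Ix) (t : ℕ) (χ : Gi → ℂ) (h w : ℝ) (j : ℕ),
  ChiG ((i.1 : ℕ) : Gi) i.2.1 → ChiG ((t : ℕ) : Gi) χ → (i.1 : ℝ) ^ 2 ≤ w → Eqv χ i.2.1 → 1 ≤ h →
  1 ≤ w →
    ‖∑ z ∈ (lc h j).filter (rgh w), hk χ i.2.2 z * conj (psi i z) -
      ((((lc h j).filter (rgh w)).card : ℕ) : ℂ)‖ ≤
      C * (1 + Real.log t) *
        (Real.exp ((j + 1) / h) / (h * w) + Real.sqrt (Real.exp ((j + 1) / h)))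

/-- KPD [KHD]: the transform of `kap` at a character different from all of `U`.  PROOF.  In `disc X` exactly the
`z ∈ lc p.h (v4 + v2)` which are rough count (`lc p.h (v4 + v2) ⊆ disc X`); expand `kap` and use KHD for every `i ∈ U`. -/
def SpecKPD : Prop := ∀ A A' : ℝ, 1 ≤ A → 1 ≤ A' → ∃ c : ℝ, 0 < c ∧ c < 1 ∧ ∀ᶠ x : ℝ in atTop,
  ∀ (p : Par) (U : Finset Ix) (W : ℝ) (t : ℕ) (χ : Gi → ℂ) (k : ℤ) (v4 v2 : ℕ) (X : ℝ),
    UOK (x ^ c) (x ^ A) W U → ChiG ((t : ℕ) : Gi) χ → (t : ℝ) ≤ x ^ c → |(k : ℝ)| ≤ x ^ A →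
    (∀ i ∈ U, Dist χ i.2.1 k i.2.2) → p.w ≤ Real.log x ^ A' → 0 < p.h →
    Real.exp ((v4 + v2 + 1) / p.h) ≤ X → X ≤ x →
      ‖∑ z ∈ disc X, kap p U v4 v2 z * hk χ k z‖ ≤ (∑ i ∈ U, ‖cc p i v4 v2‖) * x ^ (1 - c)

/-- KPE [LFT, EQT, NRM, KHD, KHE, ETH]: the transform of `eta - kap` at a character equivalent to an element `i₀` of
`U`.  PROOF.  The other elements of `U` are `Dist` from `i₀`, hence from `(χ, k)` (EQT: not `Dist` means equal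
frequencies and `Eqv`), so they contribute at most `‖cc‖ x^(1-c)` each (KHD).  The element `i₀` contributes
`cc i₀ * (RR + O(..))` by KHE, and `cc i₀ * RR = S4 i₀ * S2 i₀` (`RR ≠ 0`).  By ETH the transform of `eta` is
`(∑ χξ_k(π₄)) (4 ∑ χξ_k(π₂))` (`hk χ k i = psi i₀ i = 1`: `i` is a unit, both values are nonzero), and
`hk χ k π = psi i₀ π` for the primes `π` of norm larger than `t²` and `i₀.1²` (they are coprime to both moduli). -/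
def SpecKPE : Prop := ∀ A A' : ℝ, 1 ≤ A → 1 ≤ A' → ∃ c C : ℝ, 0 < c ∧ c < 1 ∧ 0 < C ∧
  ∀ᶠ x : ℝ in atTop, ∀ (p : Par) (U : Finset Ix) (Q W : ℝ) (i₀ : Ix) (t : ℕ) (χ : Gi → ℂ) (k : ℤ)
    (v4 v2 : ℕ) (X : ℝ), UOK Q (x ^ A) W U → i₀ ∈ U → ChiG ((t : ℕ) : Gi) χ → (t : ℝ) ≤ x ^ c →
    Q ^ 2 ≤ p.w → (t : ℝ) ^ 2 ≤ p.M4 → (t : ℝ) ^ 2 ≤ p.M2 → Q ^ 2 ≤ p.M4 → Q ^ 2 ≤ p.M2 →
    |(k : ℝ)| ≤ x ^ A → ¬ Dist χ i₀.2.1 k i₀.2.2 → p.w ≤ Real.log x ^ A' → 1 ≤ p.h → 1 ≤ p.w →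
    RR p (v4 + v2) ≠ 0 → Real.exp ((v4 + v2 + 2) / p.h) ≤ X → X ≤ x →
      ‖∑ z ∈ disc X, (eta p v4 v2 z - kap p U v4 v2 z) * hk χ k z‖ ≤
        (∑ i ∈ U, ‖cc p i v4 v2‖) * x ^ (1 - c) +
          ‖cc p i₀ v4 v2‖ * (C * (1 + Real.log t) *
            (Real.exp ((v4 + v2 + 1) / p.h) / (p.h * p.w) +
              Real.sqrt (Real.exp ((v4 + v2 + 1) / p.h))))

end Pool.Agent.Lib.MP391708.X
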