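import Pool.Agent.Lib.MP_391708_nt.MR.Spec

/-!
# THEOREM X (MP_391708), part HML: Selberg's majorant in `ℤ[i]` on thin annuli; log-free Halász–Montgomery

Notation of `MR/Defs.lean`: `GP P Q` = the split Gaussian primes of the open first quadrant with norm in
`(P, Q]`; `disc x` = the nonzero `z` with norm `≤ x`; `ann x x'`: `x < N(z) ≤ x'`.

Form of a module: file `X/XXX.lean`, `import Pool.Agent.Lib.MP_391708_nt.X.SpecHML`, namespace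
`Pool.Agent.Lib.MP391708.XH`, own lemmas in `XXXM`, `theorem specXXX (hYYY : SpecYYY) .. : SpecXXX`.
-/

set_option autoImplicit false

namespace Pool.Agent.Lib.MP391708.XH

open Finset Filter Topology Pool.Agent.Lib.MP391708.MR
open scoped ComplexConjugate

/-- the norm of the product of the elements of `T` -/
noncomputable def NN (T : Finset Gi) : ℝ := ∏ π ∈ T, (nm π : ℝ)

/-- the product of the elements of `T` -/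
noncomputable def dd (T : Finset Gi) : Gi := ∏ π ∈ T, π

open scoped Classical in
/-- Selberg's weight: the square of the sum of `lam T` over the sets `T` of primes of `S` dividing `z` -/
noncomputable def ws (S : Finset Gi) (lam : Finset Gi → ℝ) (z : Gi) : ℝ :=
  (∑ T ∈ (S.filter (fun π => π ∣ z)).powerset, lam T) ^ 2

/-- SELA (200 lines). Selberg's weights on the subsets of a finite set, `y ≥ 1`.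
Proof. `R` = the `T ⊆ S` with `N(T) = ∏_{i ∈ T} N i ≤ y` (closed under subsets, contains `∅`), `ip T = ∏_{i ∈ T} 1/(N i - 1)`,
`G = ∑_{T ∈ R} ip T ≥ 1`, `lam T = (-1)^|T| N(T) (1/G) ∑_{T' ∈ R, T ⊆ T'} ip T'` for `T ∈ R`, `0` otherwise.
(1) `lam ∅ = 1`. (2) `|lam T| ≤ 1`: for `T ⊆ T' ∈ R`, `T'' = T' \ T`: `∑_{D ⊆ T} ip (D ∪ T'') = ip T'' ∏_{i ∈ T} (1 + 1/(N i - 1))
= ip T'' N(T) ip T = N(T) ip T'`, the sets `D ∪ T''` are different elements of `R` for different `(D, T'')`.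
(3) `N(T ∪ T') = N(T) N(T') / N(T ∩ T')`, `N(T ∩ T') = ∑_{D ⊆ T ∩ T'} ∏_{i ∈ D} (N i - 1)`. So the quadratic form is
`∑_D ∏_{i∈D}(N i - 1) (∑_{T ⊇ D} lam T / N(T))²`, and `∑_{T ⊇ D} lam T/N(T) = (1/G) ∑_{T' ∈ R, T' ⊇ D} ip T' ∑_{D ⊆ T ⊆ T'} (-1)^|T| =
(1/G) (-1)^|D| ip D` for `D ∈ R`, `0` otherwise. Total `(1/G²) ∑_{D ∈ R} ip D = 1/G`. -/
def SpecSELA : Prop := ∀ (S : Finset Gi) (N : Gi → ℝ) (y : ℝ), (∀ i ∈ S, 2 ≤ N i) → 1 ≤ y →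
  ∃ lam : Finset Gi → ℝ, lam ∅ = 1 ∧ (∀ T, |lam T| ≤ 1) ∧
    (∀ T, lam T ≠ 0 → T ⊆ S ∧ ∏ i ∈ T, N i ≤ y) ∧
    (∑ T ∈ S.powerset, ∑ T' ∈ S.powerset, lam T * lam T' / ∏ i ∈ T ∪ T', N i) *
      (∑ T ∈ S.powerset.filter (fun T => ∏ i ∈ T, N i ≤ y), ∏ i ∈ T, 1 / (N i - 1)) ≤ 1

/-- SELG (200 lines, from PG). Selberg's sum.
Proof. `S = GP 3 Q`, `Q = y^(c₀)`. `G = ∏_{π∈S} (1 + 1/(N-1)) - ∑_{N(T) > y} ∏_{π∈T} 1/(N-1)`. Rankin, `ε = 1/(c₀ log y)`: the second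
sum is at most `y^(-ε) ∏ (1 + N^ε/(N-1)) = y^(-ε) ∏ (1 + 1/(N-1)) ∏ (1 + (N^ε - 1)/N)`, `N^ε ≤ e`, `N^ε - 1 ≤ 2 ε log N`,
`∑_{π∈GP 3 Q} log N/N ≤ C₁ log Q` (PG (3) for the intervals `(e^j, e^(j+1)]`). So it is at most
`exp(-1/c₀ + 2 C₁) ∏ (1 + 1/(N-1)) ≤ (1/2) ∏ (1 + 1/(N-1))` for `c₀` small. `1 + 1/(N-1) ≥ e^(1/N)`, so
`∏ ≥ exp(WW 3 Q) ≥ exp(loglog Q - loglog 3 - C) ≥ c log y` (PG (2)). For small `y` (`Q < 3` or so): `G ≥ 1` (`T = ∅`). -/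
def SpecSELG : Prop := ∃ c₀ c : ℝ, 0 < c₀ ∧ c₀ ≤ 1 ∧ 0 < c ∧ ∀ y : ℝ, 2 ≤ y →
  c * Real.log y ≤ ∑ T ∈ (GP 3 (y ^ c₀)).powerset.filter (fun T => NN T ≤ y),
    ∏ π ∈ T, 1 / ((nm π : ℝ) - 1)

/-- SELZ (250 lines, from SELA, SELG, COUNT with `m = 1`). Selberg's majorant for Gaussian primes in annuli.
Proof. `lam` from SELA for `S = GP 3 (y^c₀)`, `N = nm`. The elements of `S` are primes, pairwise not associated (open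
first quadrant), so `T ⊆ {π ∈ S | π ∣ z}` iff `dd T ∣ z`, and `T, T' ⊆ ..` iff `dd (T ∪ T') ∣ z`. So
`∑_{z ∈ ann x x'} ws = ∑_{T,T'} lam T lam T' #{z ∈ ann x x' | dd (T ∪ T') ∣ z}`, and the number is
`# ann (x/N) (x'/N) = π (x' - x)/N + O(√x' + 1)`, `N = NN (T ∪ T')` (`z = d z'`, `nm` is multiplicative, COUNT). At most
`C y` sets `T` with `lam T ≠ 0` (`T ↦ dd T ∈ disc y` is injective). -/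
def SpecSELZ : Prop := ∃ C c₀ : ℝ, 0 < C ∧ 0 < c₀ ∧ c₀ ≤ 1 ∧ ∀ y : ℝ, 2 ≤ y →
  ∃ lam : Finset Gi → ℝ, lam ∅ = 1 ∧ (∀ T, |lam T| ≤ 1) ∧
    (∀ T, lam T ≠ 0 → T ⊆ GP 3 (y ^ c₀) ∧ NN T ≤ y) ∧
    ((((GP 3 (y ^ c₀)).powerset.filter (fun T => lam T ≠ 0)).card : ℝ) ≤ C * y) ∧
    ∀ x x' : ℝ, 0 ≤ x → x ≤ x' →
      ∑ z ∈ ann x x', ws (GP 3 (y ^ c₀)) lam z ≤ C * (x' - x) / Real.log y + C * y ^ 2 * (Real.sqrt x' + 1)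

/-- SELX (150 lines, from SELZ). The weight as a short divisor sum against a completely multiplicative function.
Proof. `ws z = ∑_{T,T'} lam T lam T' [dd (T ∪ T') ∣ z]`, `∑_{z ∈ ann x x', d ∣ z} f z = f d ∑_{z' ∈ ann (x/N d) (x'/N d)} f z'`, and
`ann (u) (u') = disc u' \ disc u`, `u ≥ x / y² ≥ √x`. -/
def SpecSELX : Prop := ∀ (S : Finset Gi) (lam : Finset Gi → ℝ) (x x' y M C : ℝ) (f : Gi → ℂ),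
  (∀ π ∈ S, 0 < π.re ∧ 0 < π.im ∧ (nm π).Prime) → (∀ T, |lam T| ≤ 1) → 1 ≤ y → 1 ≤ C →
  (∀ T, lam T ≠ 0 → T ⊆ S ∧ NN T ≤ y) →
  (((S.powerset.filter (fun T => lam T ≠ 0)).card : ℝ) ≤ C * y) → (∀ u v, f (u * v) = f u * f v) →
  (∀ z, ‖f z‖ ≤ 1) → 0 < x → x ≤ x' →
  (∀ Y : ℝ, x / y ^ 2 ≤ Y → Y ≤ x' → ‖∑ z ∈ disc Y, f z‖ ≤ M) →
  ‖∑ z ∈ ann x x', (ws S lam z : ℂ) * f z‖ ≤ 2 * C ^ 2 * y ^ 2 * M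

/-- BTG (80 lines, from SELZ). Brun–Titchmarsh in thin annuli. Proof: `ws = 1` on `GP x _`, `y = x^(1/10)`. -/
def SpecBTG : Prop := ∃ C : ℝ, 0 < C ∧ ∀ᶠ x : ℝ in atTop, ∀ κ : ℝ, x ^ (-(1 / 10) : ℝ) ≤ κ → κ ≤ 1 →
  ((GP x (x * Real.exp κ)).card : ℝ) ≤ C * κ * x / Real.log x

/-- HML (250 lines, from SELZ, SELX). Log-free Halász–Montgomery on thin annuli: `ψ i`, `i ∈ U`, completely
multiplicative, bounded by `1`, almost orthogonal on discs; `S` a set of Gaussian primes with norm in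
`(x, x e^κ]`, `κ ≥ x^(-c₁)`, `#U ≤ x^(c₁)`.
Proof. `A_i = ∑_π a_π ψ_i(π)`, `b_i = conj A_i`. `∑ |A_i|² = ∑_π a_π ∑_i b_i ψ_i(π) ≤ (∑ |a|²)^(1/2) (∑_{π∈S} |∑_i b_i ψ_i(π)|²)^(1/2)`
and the last sum is at most `∑_{z ∈ ann x (x e^κ)} ws z |∑_i b_i ψ_i(z)|²` (`ws ≥ 0`, `ws π = 1`: no element of
`GP 3 (y^c₀)` divides `π`, `y = x^(c/20)`), which is
`∑_{i,j} b_i conj b_j ∑_z ws z ψ_i conj ψ_j (z)`. Diagonal: `≤ ∑ |b_i|² ∑ ws ≤ (C κ x/log x) ∑ |b|²` (SELZ; `e^κ - 1 ≤ 2κ`). `i ≠ j`: SELX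
with `M = (3x)^(1-c)`: `≤ 2C² y² (3x)^(1-c)`, and `∑_{i≠j} |b_i b_j| ≤ #U ∑ |b|²`. So `∑ |A|² ≤ (C' κ x/log x) ∑ |a|²`. -/
def SpecHML : Prop := ∀ c : ℝ, 0 < c → c < 1 → ∃ C c₁ : ℝ, 0 < C ∧ 0 < c₁ ∧ ∀ᶠ x : ℝ in atTop,
  ∀ (κ : ℝ) (ι : Type) (U : Finset ι) (ψ : ι → Gi → ℂ) (S : Finset Gi) (a : Gi → ℂ),
  x ^ (-c₁) ≤ κ → κ ≤ 1 → (U.card : ℝ) ≤ x ^ c₁ →
  (∀ i ∈ U, ∀ u v, ψ i (u * v) = ψ i u * ψ i v) → (∀ i ∈ U, ∀ z, ‖ψ i z‖ ≤ 1) →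
  (∀ i ∈ U, ∀ j ∈ U, i ≠ j → ∀ Y : ℝ, x ^ (1 / 2 : ℝ) ≤ Y → Y ≤ 3 * x →
    ‖∑ z ∈ disc Y, ψ i z * conj (ψ j z)‖ ≤ Y ^ (1 - c)) →
  S ⊆ GP x (x * Real.exp κ) →
    ∑ i ∈ U, ‖∑ π ∈ S, a π * ψ i π‖ ^ 2 ≤ C * κ * x / Real.log x * ∑ π ∈ S, ‖a π‖ ^ 2

/-- HMC (60 lines, from HML, BTG). The case `a = 1`. -/
def SpecHMC : Prop := ∀ c : ℝ, 0 < c → c < 1 → ∃ C c₁ : ℝ, 0 < C ∧ 0 < c₁ ∧ ∀ᶠ x : ℝ in atTop,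
  ∀ (κ : ℝ) (ι : Type) (U : Finset ι) (ψ : ι → Gi → ℂ) (S : Finset Gi),
  x ^ (-c₁) ≤ κ → κ ≤ 1 → (U.card : ℝ) ≤ x ^ c₁ →
  (∀ i ∈ U, ∀ u v, ψ i (u * v) = ψ i u * ψ i v) → (∀ i ∈ U, ∀ z, ‖ψ i z‖ ≤ 1) →
  (∀ i ∈ U, ∀ j ∈ U, i ≠ j → ∀ Y : ℝ, x ^ (1 / 2 : ℝ) ≤ Y → Y ≤ 3 * x →
    ‖∑ z ∈ disc Y, ψ i z * conj (ψ j z)‖ ≤ Y ^ (1 - c)) →
  S ⊆ GP x (x * Real.exp κ) →
    ∑ i ∈ U, ‖∑ π ∈ S, ψ i π‖ ^ 2 ≤ C * (κ * x / Real.log x) ^ 2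

end Pool.Agent.Lib.MP391708.XH
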