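import Pool.Agent.Lib.MP_391708_nt.X.Defs
import Pool.Agent.Lib.MP_391708_nt.X.SpecHML

/-!
# THEOREM X (MP_391708), part CEL: cells in the notation of `X/Defs.lean`

Thin Halász–Montgomery for the cells of `π₄`, `π₂`, `z₁`; rough numbers of a lattice cell; the sup bound of `Kap`.
All bounds in terms of `log N`.  No upper bound for the norms is needed.

Form of a module: file `X/XXX.lean`, `import Pool.Agent.Lib.MP_391708_nt.X.SpecCEL`, namespace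
`Pool.Agent.Lib.MP391708.X`, own lemmas in the namespace `XXXM`, `theorem specXXX (hYYY : SpecYYY) .. : SpecXXX`.
-/

set_option autoImplicit false

namespace Pool.Agent.Lib.MP391708.X

open Finset Filter Topology Pool.Agent.Lib.MP391708.MR
open scoped ComplexConjugate

/-- PSI (80 lines). Elementary facts on `psi i`, `i ∈ U`.
Proof. `ChiG` gives `MR.Chi`, whose values have norm `≤ 1` (`Chi.norm_le_one`), `= 1` if not `0`; `xi_mul`, `norm_xi`. Units: powers of `i`. -/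
def SpecPSI : Prop := ∀ (Q F W : ℝ) (U : Finset Ix), UOK Q F W U → ∀ i ∈ U,
  (∀ u v, psi i (u * v) = psi i u * psi i v) ∧ (∀ z, ‖psi i z‖ ≤ 1) ∧ psi i 1 = 1 ∧
  (∀ u, IsUnit u → psi i u = 1) ∧ (∀ z z', Associated z z' → psi i z = psi i z') ∧
  (∀ z, z ≠ 0 → IsCoprime z (i.1 : Gi) → ‖psi i z‖ = 1) ∧
  (∀ w z, Q ≤ w → Q ^ 2 ≤ w → z ≠ 0 → rgh w z → ‖psi i z‖ = 1)

/-- ORT (120 lines, from PAR). Different members of an admissible set are almost orthogonal on discs.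
Proof. PAR with `A = 8`, `B = 1`, `d = 1`, `y = 0`, `y' = x = Y`, `m₁ = (f₁ : Gi)` of norm `f₁² ≤ (log N)^(2 aQ) ≤ N^(c/8) ≤ Y^c`,
`|k| ≤ F ≤ N ≤ Y^8`; `ann 0 Y = disc Y`. -/
def SpecORT : Prop := ∃ c : ℝ, 0 < c ∧ c < 1 ∧ ∀ aQ : ℝ, ∀ᶠ N : ℝ in atTop, ∀ (F W : ℝ) (U : Finset Ix),
  F ≤ N → UOK (Real.log N ^ aQ) F W U → ∀ i ∈ U, ∀ j ∈ U, i ≠ j → ∀ Y : ℝ, N ^ (1 / 8 : ℝ) ≤ Y →
    ‖∑ z ∈ disc Y, psi i z * conj (psi j z)‖ ≤ Y ^ (1 - c)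

/-- CELA (150 lines, from PSI, ORT, XH.HML, XH.HMC, XH.BTG). Thin sets of primes.
Proof. `x ≥ N^(1/4)`, `Y ≥ x^(1/2) ≥ N^(1/8)`: ORT gives the hypothesis of HML. `κ ≥ (log N)^(-ch) ≥ x^(-c₁)`,
`#U ≤ (log N)^aU ≤ x^(c₁)`, `log x ≥ (log N)/4`. -/
def SpecCELA : Prop := ∃ C : ℝ, 0 < C ∧ ∀ ch aQ aU : ℝ, ∀ᶠ N : ℝ in atTop, ∀ (F : ℝ) (U : Finset Ix),
  F ≤ N → UOK (Real.log N ^ aQ) F (Real.log N ^ aU) U → ∀ (x κ : ℝ) (S : Finset Gi),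
  N ^ (1 / 4 : ℝ) ≤ x → Real.log N ^ (-ch) ≤ κ → κ ≤ 1 → S ⊆ GP x (x * Real.exp κ) →
    (∀ a : Gi → ℂ, ∑ i ∈ U, ‖∑ π ∈ S, a π * psi i π‖ ^ 2 ≤ C * κ * x / Real.log N * ∑ π ∈ S, ‖a π‖ ^ 2) ∧
    ∑ i ∈ U, ‖∑ π ∈ S, psi i π‖ ^ 2 ≤ C * (κ * x / Real.log N) ^ 2 ∧ (S.card : ℝ) ≤ C * (κ * x / Real.log N)

/-- CELB (120 lines, from CELA). The cells, `h = (log N)^ch`.
Proof. If the cell is not empty: `x = e^((v-1)/h)`, `κ = 2/h`, `M e^(-2/h) < x ≤ 2 M`, and the cell is contained in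
`GP x (x e^κ)` (`v ≤ h log N(π) < v + 1`). -/
def SpecCELB : Prop := ∃ C : ℝ, 0 < C ∧ ∀ ch aQ aU : ℝ, 1 ≤ ch → ∀ᶠ N : ℝ in atTop, ∀ (F : ℝ) (U : Finset Ix),
  F ≤ N → UOK (Real.log N ^ aQ) F (Real.log N ^ aU) U → ∀ (M : ℝ) (v : ℕ), N ^ (1 / 3 : ℝ) ≤ M →
    (∀ a : Gi → ℂ, ∑ i ∈ U, ‖∑ π ∈ cell (Real.log N ^ ch) M (2 * M) v, a π * psi i π‖ ^ 2 ≤
      C * (M / (Real.log N ^ ch * Real.log N)) * ∑ π ∈ cell (Real.log N ^ ch) M (2 * M) v, ‖a π‖ ^ 2) ∧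
    ∑ i ∈ U, ‖∑ π ∈ cell (Real.log N ^ ch) M (2 * M) v, psi i π‖ ^ 2 ≤
      C * (M / (Real.log N ^ ch * Real.log N)) ^ 2 ∧
    ((cell (Real.log N ^ ch) M (2 * M) v).card : ℝ) ≤ C * (M / (Real.log N ^ ch * Real.log N))

/-- CELS (60 lines, from CELB). `S4` and `S2`. Proof. `M4 = √N`, `M2 = √N (log N)^(cT - cP)/16 ≥ N^(1/3)`. -/
def SpecCELS : Prop := ∃ C : ℝ, 0 < C ∧ ∀ cT cP ch cw aQ aU : ℝ, 1 ≤ ch → ∀ᶠ N : ℝ in atTop,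
  N ^ (1 / 3 : ℝ) ≤ (par N cT cP ch cw).M4 ∧ N ^ (1 / 3 : ℝ) ≤ (par N cT cP ch cw).M2 ∧
  ∀ (F : ℝ) (U : Finset Ix), F ≤ N → UOK (Real.log N ^ aQ) F (Real.log N ^ aU) U → ∀ v : ℕ,
    ∑ i ∈ U, ‖S4 (par N cT cP ch cw) i v‖ ^ 2 ≤
      C * ((par N cT cP ch cw).M4 / (Real.log N ^ ch * Real.log N)) ^ 2 ∧
    ∑ i ∈ U, ‖S2 (par N cT cP ch cw) i v‖ ^ 2 ≤
      C * ((par N cT cP ch cw).M2 / (Real.log N ^ ch * Real.log N)) ^ 2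

/-- VPL (150 lines, from PG). Mertens for `VP`.
Proof. `PI w` = `GP 3 w` and `1 + i` and the `p ≡ 3 mod 4` with `p² ≤ w`; `e^(-x - x²) ≤ 1 - x ≤ e^(-x)` for `0 ≤ x ≤ 1/2`,
`∑_{π ∈ PI w \ GP 3 w} 1/N(π) ≤ 1/2 + ∑ 1/p²`, `∑ 1/N(π)² ≤ ∑_{p} 2/p² + ..`, PG (2) with `P = 3`, `Q = w ≥ 3`. For `w < 3`: `VP w = 1/2`. -/
def SpecVPL : Prop := ∃ c C : ℝ, 0 < c ∧ 0 < C ∧ ∀ w : ℝ, 2 ≤ w → c / Real.log w ≤ VP w ∧ VP w ≤ C / Real.log w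

/-- RRL (150 lines, from RG0, VPL). The number of rough elements of a lattice cell.
Proof. RG0 with `x = e^((j+1)/h)`, `y' = ⌈e^((j+1)/h)⌉ - 1`, `y = ⌈e^(j/h)⌉ - 1` (norms are integers; `h = (log N)^ch ≥ 1`); the cell
is not near `0`. `w = (log N)^cw ≤ (log x)^A`, `A = |cw| + 2`; `x^(1-c)` is smaller than `x/(h log w)` by a power of `N`. -/
def SpecRRL : Prop := ∃ c C : ℝ, 0 < c ∧ 0 < C ∧ ∀ cT cP ch cw : ℝ, 1 ≤ ch → 0 < cw → ∀ᶠ N : ℝ in atTop, ∀ j : ℕ,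
  N ^ (1 / 3 : ℝ) ≤ Real.exp (j / Real.log N ^ ch) →
    c * (Real.exp (j / Real.log N ^ ch) / (Real.log N ^ ch * Real.log (Real.log N ^ cw))) ≤ RR (par N cT cP ch cw) j ∧
    RR (par N cT cP ch cw) j ≤ C * (Real.exp (j / Real.log N ^ ch) / (Real.log N ^ ch * Real.log (Real.log N ^ cw)))

/-- RRA (120 lines, from RG0): the same, asymptotically (`VP` is the density of the rough numbers). -/
def SpecRRA : Prop := ∀ cw : ℝ, 0 < cw → ∃ c : ℝ, 0 < c ∧ c < 1 ∧ ∀ cT cP ch : ℝ, 1 ≤ ch → ∀ᶠ N : ℝ in atTop, ∀ j : ℕ,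
  N ^ (1 / 3 : ℝ) ≤ Real.exp (j / Real.log N ^ ch) →
    |RR (par N cT cP ch cw) j - Real.pi * (Real.exp ((j + 1) / Real.log N ^ ch) - Real.exp (j / Real.log N ^ ch)) *
      VP (Real.log N ^ cw)| ≤ Real.exp (j / Real.log N ^ ch) ^ (1 - c)

/-- KSB (180 lines, from PSI, CELS, RRL). The coefficients and the sup bound of the model.
Proof. If `S4 p i v4` or `S2 p i v2` is an empty sum everything is `0`. Otherwise `e^((v4+1)/h) > M4`, `e^((v2+1)/h) > M2`, so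
`e^((v4+v2)/h) ≥ M4 M2/e²` (`≥ N^(1/3)`), and RRL gives `RR ≥ c M4 M2/(h log w)`; Cauchy–Schwarz and CELS give (1).
(2): `|psi| ≤ 1`, so `|kap| ≤ ∑_i |cc i|`. (3): for given `z` at most one `v2` for each `v4`, and `#I4 ≤ h log 2 + 2 ≤ 2 h`. -/
def SpecKSB : Prop := ∃ C : ℝ, 0 < C ∧ ∀ cT cP ch cw aQ aU : ℝ, 1 ≤ ch → 0 < cw → ∀ᶠ N : ℝ in atTop,
  ∀ (F : ℝ) (U : Finset Ix), F ≤ N → UOK (Real.log N ^ aQ) F (Real.log N ^ aU) U →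
    (∀ v4 v2 : ℕ, ∑ i ∈ U, ‖cc (par N cT cP ch cw) i v4 v2‖ ≤
      C * (Real.log (Real.log N ^ cw) / (Real.log N ^ ch * Real.log N ^ 2))) ∧
    (∀ (v4 v2 : ℕ) (z : Gi), ‖kap (par N cT cP ch cw) U v4 v2 z‖ ≤
      C * (Real.log (Real.log N ^ cw) / (Real.log N ^ ch * Real.log N ^ 2))) ∧
    ∀ z : Gi, ‖Kap (par N cT cP ch cw) U z‖ ≤ C * (Real.log (Real.log N ^ cw) / Real.log N ^ 2) ∧
      ‖Kap (par N cT cP ch cw) U z‖ ≤ 1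

/-- GPL (150 lines, from `QPA.SpecPNTAP` with `q = 4`, `a = 1`). The number of Gaussian primes in `(M, lam M]`.
Proof. Every prime `p ≡ 1 mod 4` is the norm of exactly two elements of the open first quadrant (see `MR/PG.lean`); partial summation
(`log p` is between `log M` and `log (lam M)`; prime powers are `O(√M log M)`). -/
def SpecGPL : Prop := ∀ lam ε : ℝ, 1 < lam → 0 < ε → ∀ᶠ M : ℝ in atTop,
  |((GP M (lam * M)).card : ℝ) - (lam - 1) * M / Real.log M| ≤ ε * M / Real.log M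

end Pool.Agent.Lib.MP391708.X
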