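import Pool.Agent.Lib.MP_391708_nt.X.SpecHM
import Pool.Agent.Lib.MP_391708_nt.QPA.FLW

/-!
# THEOREM X (MP_391708), part LS: sums over the lines `Im (w v) = b`

`b` and `w` are fixed, `v = (n + ib)/w`.  Sums of functions of `v` modulo the rational integer `q` over the `v` of
the line whose norm has no prime factor in a given set `S` of rational primes `< z`.

Form of a module: file `X/XXX.lean`, `import Pool.Agent.Lib.MP_391708_nt.X.SpecLS`, namespace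
`Pool.Agent.Lib.MP391708.XL`, own lemmas in `XXXM`, `theorem specXXX (hYYY : SpecYYY) .. : SpecXXX`.
-/

set_option autoImplicit false

namespace Pool.Agent.Lib.MP391708.XL

open Finset Filter Topology Pool.Agent.Lib.MP391708.MR
open Pool.Agent.Lib.MP391708.QPA (PB)
open Pool.Agent.Lib.MP391708.X (ChiG rgh hk)
open scoped ComplexConjugate

/-- the Gaussian integer `n + ib` -/
def pt (n b : ℤ) : Gi := ⟨n, b⟩

/-- the quotient `(n + ib)/w` (used only if `w ∣ n + ib`) -/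
noncomputable def qt (w : Gi) (n b : ℤ) : Gi := pt n b / w

open scoped Classical in
/-- the `n` with `X < n ≤ X'` and `w ∣ n + ib` -/
noncomputable def LN (w : Gi) (b : ℤ) (X X' : ℝ) : Finset ℤ :=
  (Ioc ⌊X⌋ ⌊X'⌋).filter (fun n => w ∣ pt n b)

/-- the density of the `n` with `p ∣ n² + b²` -/
noncomputable def gb (b : ℤ) (p : ℕ) : ℝ :=
  (((range p).filter (fun n : ℕ => p ∣ nm (pt n b))).card : ℝ) / p

/-- no prime of `S` divides the norm -/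
def rg (S : Finset ℕ) (v : Gi) : Prop := ∀ p ∈ S, ¬ p ∣ nm v

/-- the sieve product of the line -/
noncomputable def VS (b : ℤ) (S : Finset ℕ) : ℝ := ∏ p ∈ S, (1 - gb b p)

/-- the sieve product of the line, primes not dividing `q` -/
noncomputable def VQ (q : ℕ) (b : ℤ) (S : Finset ℕ) : ℝ :=
  ∏ p ∈ S.filter (fun p => ¬ p ∣ q), (1 - gb b p)

/-- `S` is a set of primes `< z` -/
def Sz (S : Finset ℕ) (z : ℝ) : Prop := ∀ p ∈ S, p.Prime ∧ (p : ℝ) < z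

open scoped Classical in
/-- the average of `F` over the points `v` of the line modulo `q` -/
noncomputable def EE (q : ℕ) (F : Gi → ℝ) (b : ℤ) (w : Gi) : ℝ :=
  (1 / (q : ℝ)) * ∑ n ∈ range (q * nm w), if w ∣ pt n b then F (qt w n b) else 0

open scoped Classical in
/-- the same for complex functions -/
noncomputable def EC (q : ℕ) (f : Gi → ℂ) (b : ℤ) (w : Gi) : ℂ :=
  (1 / (q : ℂ)) * ∑ n ∈ range (q * nm w), if w ∣ pt n b then f (qt w n b) else 0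

/-- characters modulo the rational integer `q`, extended by `0` (see CHB) -/
structure Ch (q : ℕ) (χ : Gi → ℂ) : Prop where
  mul : ∀ x y, χ (x * y) = χ x * χ y
  per : ∀ x y, χ (x + (q : Gi) * y) = χ x
  sup : ∀ v, χ v ≠ 0 → Nat.Coprime (nm v) q
  nrm : ∀ v, Nat.Coprime (nm v) q → ‖χ v‖ = 1

/-- the average of `χ̄(n + ib)` -/
noncomputable def gg (χ : Gi → ℂ) (q : ℕ) (b : ℤ) : ℂ :=
  (1 / (q : ℂ)) * ∑ n ∈ range q, conj (χ (pt n b))

/-- `F` is a function on `ℤ[i]/q` with values in `[0,1]`, supported on the reduced classes -/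
def Sup (q : ℕ) (F : Gi → ℝ) : Prop :=
  (∀ x y, F (x + (q : Gi) * y) = F x) ∧ (∀ v, 0 ≤ F v ∧ F v ≤ 1) ∧ ∀ v, F v ≠ 0 → Nat.Coprime (nm v) q

/-- the same, complex, `|f| ≤ 1` -/
def SupC (q : ℕ) (f : Gi → ℂ) : Prop :=
  (∀ x y, f (x + (q : Gi) * y) = f x) ∧ (∀ v, ‖f v‖ ≤ 1) ∧ ∀ v, f v ≠ 0 → Nat.Coprime (nm v) q

/-- CHB (120 lines). `ChiG` for a rational modulus gives `Ch`.
Proof. `sup`: `χ v ≠ 0` iff `v`, `q` coprime in `ℤ[i]`; then `N(v)` and `q` are coprime (`x v + y q = 1`, take norms: a prime `p` dividing `N(v)`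
and `q` gives a Gaussian prime dividing `v` or `v̄`, and `q`; or multiply `(x v + y q)(x̄ v̄ + ȳ q) = 1`). Conversely `N(v) = v v̄`
coprime to `q` in `ℤ` gives `IsCoprime v q`. `nrm`: among the powers `v^0, v^1, ..` two are congruent modulo `q` (finitely many classes),
`χ(v)^i = χ(v)^j`, `i < j`, `χ(v) ≠ 0`, so `χ(v)` is a root of unity. -/
def SpecCHB : Prop := ∀ (q : ℕ) (χ : Gi → ℂ), 0 < q → ChiG (q : Gi) χ →
  Ch q χ ∧ (∀ v, Nat.Coprime (nm v) q → χ v ≠ 0) ∧ ∀ v, ‖χ v‖ ≤ 1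

/-- the primes under the Gaussian primes of norm at most `w` -/
noncomputable def PS (w : ℝ) : Finset ℕ := by
  classical exact (range (⌊w⌋₊ + 1)).filter (fun p => p.Prime ∧ (p % 4 ≠ 3 ∨ (p : ℝ) ^ 2 ≤ w))

/-- RGB (120 lines). `rgh w` in terms of rational primes.
Proof. A Gaussian prime `π` has norm `p` (`p ≢ 3 mod 4`) or is associated to `p ≡ 3 mod 4` of norm `p²`; `p ∣ N(v)`: for `p ≢ 3` a prime
`π` over `p` divides `v v̄`, so `π ∣ v` or `π̄ ∣ v`; for `p ≡ 3`, `p` is prime in `ℤ[i]` and divides `v` or `v̄`, hence `v`. -/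
def SpecRGB : Prop := ∀ (w : ℝ) (v : Gi), v ≠ 0 → 0 ≤ w → ((rgh w v ↔ rg (PS w) v) ∧ Sz (PS w) (w + 1))

/-- CRT2 (100 lines). Chinese remainder theorem for sums. Proof: `n ↦ (n % D, n % E)` is a bijection of
`range (D * E)` onto `range D ×ˢ range E` (`Nat.chineseRemainder`, or injective + card), `f n = f (n % D)`. -/
def SpecCRT2 : Prop := ∀ (R : Type) [CommRing R] (D E : ℕ) (f g : ℤ → R), 0 < D → 0 < E →
  Nat.Coprime D E → (∀ n, f (n + D) = f n) → (∀ n, g (n + E) = g n) →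
    ∑ n ∈ range (D * E), f n * g n = (∑ n ∈ range D, f n) * ∑ n ∈ range E, g n

/-- CRTP (80 lines, from CRT2). The same with a product over primes; induction on `P`. -/
def SpecCRTP : Prop := ∀ (D : ℕ) (P : Finset ℕ) (f : ℤ → ℝ) (h : ℕ → ℤ → ℝ), 0 < D →
  (∀ p ∈ P, p.Prime ∧ ¬ p ∣ D) → (∀ n, f (n + D) = f n) → (∀ p ∈ P, ∀ n, h p (n + p) = h p n) →
    ∑ n ∈ range (D * ∏ p ∈ P, p), f n * ∏ p ∈ P, h p n =
      (∑ n ∈ range D, f n) * ∏ p ∈ P, ∑ n ∈ range p, h p n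

/-- CLS (100 lines). `w` primitive: `w ∣ n + ib` is one class modulo `N(w)`.
Proof. `w = c + id`, `N = c² + d²`, `gcd(c, d) = 1`, so `gcd(d, N) = 1`; `w ∣ n + ib` iff `N ∣ (n + ib)(c - id)` iff
`N ∣ nc + bd` and `N ∣ bc - nd`. Let `d e ≡ 1 mod N` (`N = 1` trivial), `n₀ = b c e`. `N ∣ bc - nd` iff `N ∣ n - n₀`,
and then `nc + bd ≡ b e (c² + d²) ≡ 0`. -/
def SpecCLS : Prop := ∀ (w : Gi) (b : ℤ), prim w → 0 < nm w ∧
  ∃ n₀ : ℤ, ∀ n : ℤ, w ∣ pt n b ↔ (nm w : ℤ) ∣ n - n₀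

/-- QT (100 lines). Elementary facts on the quotients: (1) `w qt = n + ib`, hence the norms multiply; (2) `n' = n + q N(w) t`
and `w ∣ n + ib` give `w ∣ n' + ib` and `qt w n' b = qt w n b + q y` (`y = w̄ t`). -/
def SpecQT : Prop := ∀ (w : Gi) (n b : ℤ), w ≠ 0 → w ∣ pt n b →
  (w * qt w n b = pt n b ∧ nm w * nm (qt w n b) = nm (pt n b)) ∧
  ∀ (q : ℕ) (t : ℤ), w ∣ pt (n + (q * nm w : ℕ) * t) b ∧
    ∃ y : Gi, qt w (n + (q * nm w : ℕ) * t) b = qt w n b + (q : Gi) * y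

/-- PER (120 lines). A nonnegative function of period `D` on an interval.
Proof. `L = ⌊X'⌋ - ⌊X⌋ = k D + r`, `0 ≤ r < D`: the sum is `k S + s`, `0 ≤ s ≤ S`, so it differs from `(L/D) S` by at most `S`;
`|L - (X' - X)| ≤ 1`, `D ≥ 1`. -/
def SpecPER : Prop := ∀ (D : ℕ) (G : ℤ → ℝ) (X X' : ℝ), 0 < D → (∀ n, 0 ≤ G n) →
  (∀ n, G (n + D) = G n) → X ≤ X' →
    |∑ n ∈ Ioc ⌊X⌋ ⌊X'⌋, G n - (X' - X) / D * ∑ n ∈ range D, G n| ≤ 2 * ∑ n ∈ range D, G n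

/-- GBB (150 lines). Bounds for `gb`, `VS`, `VQ`.
Proof. At most two roots of `n² = -b²` mod `p`; `p = 2`: `n ≡ b`; `p = 3`: at most `n ≡ 0` (`-1` is not a square). `1 - g ≥ e^(-2g)` for
`g ≤ 2/3` (QPA.FL.one_sub_ge), `∑_{p<z} gb ≤ 2 ∑ 1/p ≤ 2 loglog z + C` (Mertens, `SIEM.mert` in Cr/SIE.lean or Lib). -/
def SpecGBB : Prop :=
  (∀ (b : ℤ) (p : ℕ), p.Prime → 0 ≤ gb b p ∧ gb b p ≤ 2 / (p : ℝ) ∧ gb b p ≤ 2 / 3) ∧
  (∀ (b : ℤ) (z : ℝ) (S : Finset ℕ) (q : ℕ), Sz S z →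
    0 < VS b S ∧ VS b S ≤ 1 ∧ 0 < VQ q b S ∧ VQ q b S ≤ 1) ∧
  ∃ c : ℝ, 0 < c ∧ ∀ (b : ℤ) (z : ℝ) (S : Finset ℕ), 2 ≤ z → Sz S z → c / Real.log z ^ 4 ≤ VS b S

open scoped Classical in
/-- DEN (150 lines, from CRTP, QT). The density of `δ ∣ N(v)`.
Proof. `f n = [w ∣ n + ib] F(qt w n b)` has period `q N(w)` (QT); for `w ∣ n + ib`: `δ ∣ N(qt)` iff `δ ∣ N(n + ib)` (`δ` coprime to
`N(w)`) iff all `p ∣ δ` divide `N(n + ib)` (squarefree), period `p`. `∏_{p ∣ δ} p = δ`. CRTP. -/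
def SpecDEN : Prop := ∀ (q δ : ℕ) (F : Gi → ℝ) (w : Gi) (b : ℤ), 0 < q → w ≠ 0 →
  Squarefree δ → Nat.Coprime δ (q * nm w) → (∀ x y, F (x + (q : Gi) * y) = F x) →
    ∑ n ∈ range (q * nm w * δ), (if w ∣ pt n b ∧ δ ∣ nm (qt w n b) then F (qt w n b) else 0) =
      (∑ n ∈ range (q * nm w), if w ∣ pt n b then F (qt w n b) else 0) *
        ∏ p ∈ δ.primeFactors, ((p : ℝ) * gb b p)

/-- EQB (150 lines, from CRTP, CLS, QT). `E_q(F) VQ ≤ VS`.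
Proof. `P` = the primes `p ∈ S`, `p ∣ q`, `Q' = ∏ P`, `Q' ∣ q`, coprime to `N(w)`. `F(v) ≠ 0` implies `p ∤ N(v)` for `p ∈ P`, so the
sum in `EE` is at most `∑_{n < q N(w)} [w ∣ n + ib] ∏_{p∈P} (1 - [p ∣ N(n + ib)])`, a function of period `N(w) Q'`: it is
`(q/Q')` times the sum over `range (N(w) Q')`, which is `1 · ∏ (p (1 - gb b p))` (CRTP; CLS: exactly one class). -/
def SpecEQB : Prop := ∀ (q : ℕ) (F : Gi → ℝ) (w : Gi) (b : ℤ) (z : ℝ) (S : Finset ℕ), 0 < q → prim w →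
  Sz S z → rg S w → Sup q F → 0 ≤ EE q F b w ∧ EE q F b w * VQ q b S ≤ VS b S ∧ EE q F b w ≤ 1

open scoped Classical in
/-- LSR (250 lines, from GBB, PER, DEN, EQB, QT and `QPA.specFLW`). The fundamental lemma on the line.
Proof. FLW with `κ₀ = 2`, `T = LN w b X X'`, `om n = F(qt w n b)`, `a p n = [p ∈ S, p ∤ q, p ∣ N(qt w n b)]`, `g p = gb b p` if `p ∈ S`,
`p ∤ q`, else `0`, `X_FLW = ((X' - X)/N(w)) EE`. `∏_{p∈PB z} (1 - a p n)` is the indicator of `rg S (qt w n b)` if `F(v) ≠ 0`. Remainder of `δ`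
(squarefree, `≤ z^(8u+16)`, primes `< z`): `0` if `δ` has a prime outside `S` or dividing `q`; else PER for the function
`[w ∣ n + ib][δ ∣ N(qt)] F(qt)` of period `q N(w) δ` (`δ` coprime to `N(w)`: `rg S w`), whose period sum is, by DEN, `q EE ∏ p gb`,
so the main terms agree and the error is at most `2 q EE ∏_{p∣δ} (p gb) ≤ 2 q δ`. Sum over `δ`: `≤ 2 q z^(16u+32)`, times
`C (1 + log z) ≤ C' z`. -/
def SpecLSR : Prop := ∃ C : ℝ, 0 < C ∧ ∀ (u : ℕ) (z : ℝ) (S : Finset ℕ) (q : ℕ) (F : Gi → ℝ) (w : Gi)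
  (b : ℤ) (X X' : ℝ), 2 ≤ z → Sz S z → 0 < q → prim w → rg S w → Sup q F → X ≤ X' →
    |∑ n ∈ LN w b X X', (if rg S (qt w n b) then F (qt w n b) else 0)
        - (X' - X) / nm w * EE q F b w * VQ q b S| ≤
      C * Real.exp (-(u : ℝ)) * ((X' - X) / nm w) * (EE q F b w * VQ q b S) + C * q * z ^ (16 * u + 34)

open scoped Classical in
/-- LSC (120 lines, from LSR, EQB). Complex functions: `f = (Re f)⁺ - (Re f)⁻ + i (Im f)⁺ - i (Im f)⁻`, each part is `Sup q`, the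
parts of `EC` are the `EE` of the parts. -/
def SpecLSC : Prop := ∃ C : ℝ, 0 < C ∧ ∀ (u : ℕ) (z : ℝ) (S : Finset ℕ) (q : ℕ) (f : Gi → ℂ) (w : Gi)
  (b : ℤ) (X X' : ℝ), 2 ≤ z → Sz S z → 0 < q → prim w → rg S w → SupC q f → X ≤ X' →
    ‖∑ n ∈ LN w b X X', (if rg S (qt w n b) then f (qt w n b) else 0)
        - (((X' - X) / nm w * VQ q b S : ℝ) : ℂ) * EC q f b w‖ ≤
      C * Real.exp (-(u : ℝ)) * ((X' - X) / nm w) * VS b S + C * q * z ^ (16 * u + 34)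

/-- MUL (120 lines, from CRT2, CLS, QT, EQB). `E_q(χ̄) = χ(w) g(χ, b)` for `(N(w), q) = 1`, and the trivial bounds.
Proof. `χ(n + ib) = χ(w) χ(v)`, `|χ(w)| = 1`: `χ̄(v) = χ(w) χ̄(n + ib)`. `[w ∣ n + ib]` has period `N(w)` and sum `1` (CLS),
`χ̄(n + ib)` has period `q` : CRT2. Bounds: `|EC| ≤ EE q [coprime to q]`, EQB; for `gg` take `w = 1`. -/
def SpecMUL : Prop := ∀ (q : ℕ) (χ : Gi → ℂ) (w : Gi) (b : ℤ) (z : ℝ) (S : Finset ℕ), 0 < q → Ch q χ →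
  prim w → Sz S z →
  (Nat.Coprime (nm w) q → EC q (fun v => conj (χ v)) b w = χ w * gg χ q b) ∧
  (rg S w → ‖EC q (fun v => conj (χ v)) b w‖ * VQ q b S ≤ VS b S) ∧
  ‖gg χ q b‖ * VQ q b S ≤ VS b S ∧ ‖gg χ q b‖ ≤ 1

/-- PHA (150 lines). The phase on a short piece of the line.
Proof. `dir (n + ib) = e^(iθ)`, `θ = arctan(b/n)`; `|e^(iα) - e^(iβ)| ≤ |α - β|`, `|arctan t - t| ≤ t³` for `t ≥ 0`,
`|b/n - b/r| = b |n - r|/(n r)`. -/
def SpecPHA : Prop := ∀ (k n b : ℤ) (r : ℝ), 0 < n → 0 ≤ b → 0 < r →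
  ‖xi k (pt n b) - Complex.exp (Complex.I * k * b / r)‖ ≤
    |(k : ℝ)| * (b * |(n : ℝ) - r| / (n * r) + ((b : ℝ) / n) ^ 3)

end Pool.Agent.Lib.MP391708.XL
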