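import Pool.Agent.Lib.MP_391708_nt.X.Defs
import Pool.Agent.Lib.MP_391708_nt.X.SpecLS

/-!
# THEOREM X (MP_391708), part LS: the final form of the line sums, in the notation of `X/Defs.lean`

Form of a module: file `X/XXX.lean`, `import Pool.Agent.Lib.MP_391708_nt.X.SpecLS2`, namespace
`Pool.Agent.Lib.MP391708.XL`, own lemmas in `XXXM`, `theorem specXXX (hYYY : SpecYYY) .. : SpecXXX`.
-/

set_option autoImplicit false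

namespace Pool.Agent.Lib.MP391708.XL

open Finset Filter Topology Pool.Agent.Lib.MP391708.MR
open Pool.Agent.Lib.MP391708.X
open scoped ComplexConjugate

open scoped Classical in
/-- GEO (220 lines, from QT). From the lattice cell on the line to an interval of `n`. `R = √(N(ω) e^(j/h))`, `r ≤ R ≤ r e^(4/h)`.
Proof. `z ↦ Re (ω z)` and `n ↦ qt ω n b` are inverse to each other (`ω z = n + ib`, `n > 0`); `N(ω) N(z) = n² + b²`. `z ∈ lc h j` iff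
`e^(j/h) ≤ N(z) < e^((j+1)/h)` (`z ≠ 0`; it implies `z ∈ disc D`) iff `X₀ ≤ n < X₀'`, `X₀ = √(R² - b²)`, `X₀' = √(R² e^(1/h) - b²)`, iff
`X < n ≤ X'` with `X = ⌈X₀⌉ - 1`, `X' = ⌈X₀'⌉ - 1` (integers). `R - X₀ = b²/(R + X₀) ≤ b²/R ≤ 100`, the same for `X₀'`;
`R (e^(1/(2h)) - 1) = r/(2h) + O(r/h²)`, and `1 ≤ r/h²`. `X ≥ R - 102 ≥ r/2`. -/
def SpecGEO : Prop := ∃ C : ℝ, 0 < C ∧ ∀ (ω : Gi) (b : ℕ) (h r D : ℝ) (j : ℕ), ω ≠ 0 → 1 ≤ b → 1 ≤ h →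
  1000 ≤ r → (b : ℝ) ^ 2 ≤ 100 * r → h ^ 2 ≤ r → Real.exp ((j + 1) / h) ≤ D →
  r ≤ Real.sqrt (nm ω * Real.exp (j / h)) → Real.sqrt (nm ω * Real.exp (j / h)) ≤ r * Real.exp (4 / h) →
  ∃ X X' : ℝ, r / 2 ≤ X ∧ X ≤ X' ∧ X' ≤ 100 * r ∧
    (∀ f : Gi → ℂ, ∑ z ∈ (disc D).filter (fun z => On ω b z ∧ z ∈ lc h j), f z =
      ∑ n ∈ LN ω b X X', f (qt ω n b)) ∧
    |X' - X - r / (2 * h)| ≤ C * r / h ^ 2 ∧ ∀ n ∈ LN ω b X X', |(n : ℝ) - r| ≤ C * r / h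

open scoped Classical in
/-- LSM (300 lines, from LSC, LSR, EQB, MUL, PHA, GEO, CHB, RGB, GBB). THE RESULT of part LS: one character on one lattice cell.
Proof. `rgh w` is `rg (PS w)` (RGB; `z ≠ 0` on `disc`). By GEO a sum over `n`. With `ω z = n + ib`: `conj (ξ_k z) = ξ_k ω · conj (ξ_k (n + ib))`
(`MR.xi_mul`, `|ξ_k| = 1`), and `ξ_k (n + ib) = e^(ikb/r)` up to `C |k| (b/(h r) + (b/r)³)` (PHA, `r/2 ≤ n`, `|n - r| ≤ C r/h`); this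
difference is also `≤ 2`, it is multiplied by the number of the `z` with `rgh w z` and `(N(z), f) = 1`, which is (B). Then LSC with
`f = conj χ` (`SupC` by CHB), `z = w + 1`, MUL, `|EC| VQ ≤ VS`, `|X' - X - r/(2h)| ≤ C r/h²`.
(B): LSR with `F` = indicator of `(N(v), f) = 1`, `u = 0`, EQB, GEO. (C): MUL. (D): `gg = 1`, no prime divides `1`.
(E): GBB. -/
def SpecLSM : Prop := ∃ C : ℝ, 0 < C ∧
  (∀ (u : ℕ) (i : Ix) (ω : Gi) (b : ℕ) (h w r D : ℝ) (j : ℕ), 1 ≤ i.1 → ChiG (i.1 : Gi) i.2.1 →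
    prim ω → rgh w ω → Nat.Coprime (nm ω) i.1 → 1 ≤ w → 1 ≤ b → 1 ≤ h → 1000 ≤ r →
    (b : ℝ) ^ 2 ≤ 100 * r → h ^ 2 ≤ r → Real.exp ((j + 1) / h) ≤ D → r ≤ Real.sqrt (nm ω * Real.exp (j / h)) →
    Real.sqrt (nm ω * Real.exp (j / h)) ≤ r * Real.exp (4 / h) →
    ‖∑ z ∈ (disc D).filter (On ω b), (if z ∈ lc h j ∧ rgh w z then conj (psi i z) else 0)
        - ((r / (2 * h * nm ω) * VQ i.1 b (PS w) : ℝ) : ℂ) * psi i ω * gg i.2.1 i.1 b *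
          Complex.exp (-(Complex.I * i.2.2 * b / r))‖ ≤
      C * (Real.exp (-(u : ℝ)) + 1 / h + |(i.2.2 : ℝ)| * (b / (h * r) + ((b : ℝ) / r) ^ 3)) *
        (r / (h * nm ω)) * VS b (PS w) + C * i.1 * (w + 1) ^ (16 * u + 34) ∧
    (∑ z ∈ (disc D).filter (On ω b),
        (if z ∈ lc h j ∧ rgh w z ∧ Nat.Coprime (nm z) i.1 then (1 : ℝ) else 0)) ≤
      C * (r / (h * nm ω)) * VS b (PS w) + C * i.1 * (w + 1) ^ 34) ∧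
  (∀ (q : ℕ) (χ : Gi → ℂ) (b : ℤ) (w : ℝ), 0 < q → 0 ≤ w → ChiG (q : Gi) χ →
    ‖gg χ q b‖ * VQ q b (PS w) ≤ VS b (PS w) ∧ ‖gg χ q b‖ ≤ 1) ∧
  (∀ (b : ℤ) (w : ℝ), gg (fun _ => 1) 1 b = 1 ∧ VQ 1 b (PS w) = VS b (PS w)) ∧
  ∃ c : ℝ, 0 < c ∧ ∀ (b : ℤ) (w : ℝ), 1 ≤ w →
    c / Real.log (w + 1) ^ 4 ≤ VS b (PS w) ∧ 0 < VS b (PS w) ∧ VS b (PS w) ≤ 1

end Pool.Agent.Lib.MP391708.XL
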