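import Pool.Agent.Lib.MP_391708_nt.X.Spec
import Pool.Agent.Lib.MP_391708_nt.X.SpecLS2

/-!
# THEOREM X (MP_391708), part LS: the line sums with the parameters `par N cT cP ch cw`

Form of a module: file `X/XXX.lean`, `import Pool.Agent.Lib.MP_391708_nt.X.SpecLS3`, namespace
`Pool.Agent.Lib.MP391708.XL`, own lemmas in `XXXM`, `theorem specXXX (hYYY : SpecYYY) .. : SpecXXX`.
-/

set_option autoImplicit false

namespace Pool.Agent.Lib.MP391708.XL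

open Finset Filter Topology Pool.Agent.Lib.MP391708.MR
open Pool.Agent.Lib.MP391708.X
open scoped ComplexConjugate

open scoped Classical in
/-- the sum of `ψ̄_i` over the rough elements of the lattice cell `j` on the line -/
noncomputable def lsum (p : Par) (i : Ix) (ω : Gi) (b j : ℕ) : ℂ :=
  ∑ z ∈ (disc (p.N * p.T)).filter (On ω b), (if z ∈ lc p.h j ∧ rgh p.w z then conj (psi i z) else 0)

/-- `√(N(ω) e^(j/h))`, the size of `n` -/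
noncomputable def rj (p : Par) (ω : Gi) (j : ℕ) : ℝ := Real.sqrt (nm ω * Real.exp (j / p.h))

/-- the main term of `lsum` -/
noncomputable def lmain (p : Par) (i : Ix) (ω : Gi) (b j : ℕ) : ℂ :=
  ((rj p ω j / (2 * p.h * nm ω) * VQ i.1 b (PS p.w) : ℝ) : ℂ) * psi i ω * gg i.2.1 i.1 b *
    Complex.exp (-(Complex.I * i.2.2 * b / (rj p ω j : ℂ)))

/-- LSI (60 lines). The sum of the model over a line. Proof: exchange of finite sums. -/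
def SpecLSI : Prop := ∀ (p : Par) (U : Finset Ix) (ζ : Gi) (b v4 v2 : ℕ),
  ls p ζ b (kap p U v4 v2) =
    ∑ π ∈ GP p.P (2 * p.P), ∑ i ∈ U, cc p i v4 v2 * lsum p i (ζ * π) b (v4 + v2)

/-- LSE (200 lines, from LSM). For a character of conductor `≤ (log N)^aQ` and frequency `≤ (log N)^aF N/B`, cells of fineness
`ch ≥ aF + 1`.
Proof. LSM with `r = rj`, `D = N T`. `r² ≥ K P · N T/(64 P) = N²/64`, so `r ≥ N/8`, `b² ≤ 4B² ≤ 8N ≤ 64 r`, `h² ≤ r` for `N` large. Choose `u` with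
`C e^(-u) ≤ ε/5` (`C` of LSM); `C/h ≤ ε/5`; `|k| b/(h r) ≤ (log N)^aF (N/B) (2B) 8/(h N) = 16 (log N)^(aF - ch) ≤ 16/log N`;
`|k| (b/r)³ ≤ (log N)^aF (N/B) (16 B/N)³ ≤ C' (log N)^aF/N` (`B² ≤ 2N`, `B ≥ 1`). Last error: `C q (w+1)^(16u+34) ≤ (log N)^(aQ + cw (16u+34) + 1)`
against `ε (r/(h N(ω))) VS ≥ ε (N/8)/(h 4 K P) c/log(w+1)^4 ≥ (log N)^(cT - ch - cP - 1)` : `cT0 = aQ + cw (16u+34) + ch + cP + 3`. -/
def SpecLSE : Prop := ∀ (cw aQ aF ch cP ε : ℝ), 1 ≤ aQ → 1 ≤ cw → 1 ≤ aF → aF + 1 ≤ ch → 1 ≤ cP → 0 < ε →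
  ∃ cT0 : ℝ, ∀ cT : ℝ, cT0 ≤ cT → ∀ᶠ N : ℝ in atTop, ∀ B : ℝ, 1 ≤ B → B ^ 2 ≤ 2 * N →
  ∀ (i : Ix) (b : ℕ) (ω : Gi) (j : ℕ), 1 ≤ i.1 → (i.1 : ℝ) ≤ Real.log N ^ aQ → ChiG (i.1 : Gi) i.2.1 →
  |(i.2.2 : ℝ)| ≤ Real.log N ^ aF * (N / B) → B < b → (b : ℝ) ≤ 2 * B → prim ω →
  rgh (par N cT cP ch cw).w ω → Nat.Coprime (nm ω) i.1 →
  (par N cT cP ch cw).K * (par N cT cP ch cw).P ≤ nm ω →
  (nm ω : ℝ) ≤ 4 * ((par N cT cP ch cw).K * (par N cT cP ch cw).P) →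
  N * (par N cT cP ch cw).T / (64 * (par N cT cP ch cw).P) ≤ Real.exp (j / (par N cT cP ch cw).h) →
  Real.exp ((j + 1) / (par N cT cP ch cw).h) ≤ N * (par N cT cP ch cw).T →
    ‖lsum (par N cT cP ch cw) i ω b j - lmain (par N cT cP ch cw) i ω b j‖ ≤
      ε * (rj (par N cT cP ch cw) ω j / ((par N cT cP ch cw).h * nm ω)) *
        VS b (PS (par N cT cP ch cw).w)

end Pool.Agent.Lib.MP391708.XL
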