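import Pool.Agent.Lib.MP_391708_nt.X.Spec
import Pool.Agent.Lib.MP_391708_nt.X.SpecLS2
import Pool.Agent.Lib.MP_391708_nt.X.SpecHML
import Pool.Agent.Lib.MP_391708_nt.X.PH.SpecC
import Pool.Agent.Lib.MP_391708_nt.X.M4

/-!
# THEOREM X (MP_391708), part MT: the main term

Form of a module: file `X/MT/XXX.lean`, `import Pool.Agent.Lib.MP_391708_nt.X.SpecMT`, namespace
`Pool.Agent.Lib.MP391708.XM`, own lemmas in `XXXM`, `theorem specXXX (hYYY : SpecYYY) .. : SpecXXX` (the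
hypotheses are the Specs named in brackets, in this order).

Every statement is of the form `EV Φ`: `Φ` holds for all contexts `(p, B, U, b, y)` of `SpecMT`, for suitable
exponents and `N` large.  `EV.and`, `EV.mono`, `EV.of_all` combine them: never unfold `EV` if you can avoid it.
Write `ℓ = log N`, `K' = K/N(y)`.
-/

set_option autoImplicit false

namespace Pool.Agent.Lib.MP391708.XM

open Finset Filter Topology Pool.Agent.Lib.MP391708.MR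
open Pool.Agent.Lib.MP391708.X
open Pool.Agent.Lib.MP391708.XL (gg VQ VS PS)
open scoped ComplexConjugate

/-- the data of a context: exponents `cw aQ aF cP`, the set of indices, the line, the outer factor -/
structure Cx (cw aU aQ aF ch cP cT cB N B : ℝ) (U : Finset Ix) (b : ℕ) (y : Gi) : Prop where
  B1 : Real.log N ^ cB ≤ B
  B2 : B ^ 2 ≤ 2 * N
  ok : UOK (Real.log N ^ aQ) (Real.log N ^ aF * (N / B)) (Real.log N ^ aU) U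
  b1 : B < b
  b2 : (b : ℝ) ≤ 2 * B
  y1 : prim y
  y2 : (nm y : ℝ) ≤ Real.log N ^ (cP / 2)
  y3 : ∀ π : Gi, Prime π → π ∣ y → Real.log N ^ cw < (nm π : ℝ) ∧ Real.log N ^ aQ < (nm π : ℝ)

/-- `Φ` holds in all contexts -/
def EV (Φ : Par → ℝ → Finset Ix → ℕ → Gi → Prop) : Prop := ∀ cw aU aQ aF : ℝ, 2 * aQ ≤ cw → 1 ≤ aU →
  1 ≤ aQ → 1 ≤ aF → ∃ ch0 : ℝ, ∀ ch : ℝ, ch0 ≤ ch → ∃ cP0 : ℝ, ∀ cP : ℝ, cP0 ≤ cP →
  ∃ cT0 : ℝ, ∀ cT : ℝ, cT0 ≤ cT → ∃ cB0 : ℝ, ∀ cB : ℝ, cB0 ≤ cB → ∀ᶠ N : ℝ in atTop,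
    ∀ (B : ℝ) (U : Finset Ix) (b : ℕ) (y : Gi), Cx cw aU aQ aF ch cP cT cB N B U b y →
      Φ (par N cT cP ch cw) B U b y

lemma EV.mono {Φ Ψ : Par → ℝ → Finset Ix → ℕ → Gi → Prop} (h : EV Φ)
    (hi : ∀ p B U b y, Φ p B U b y → Ψ p B U b y) : EV Ψ := by
  intro cw aU aQ aF h1 h2 h3 h4
  obtain ⟨ch0, h5⟩ := h cw aU aQ aF h1 h2 h3 h4
  refine ⟨ch0, fun ch hch => ?_⟩
  obtain ⟨cP0, h6⟩ := h5 ch hch
  refine ⟨cP0, fun cP hcP => ?_⟩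
  obtain ⟨cT0, h7⟩ := h6 cP hcP
  refine ⟨cT0, fun cT hcT => ?_⟩
  obtain ⟨cB0, h8⟩ := h7 cT hcT
  refine ⟨cB0, fun cB hcB => ?_⟩
  filter_upwards [h8 cB hcB] with N hN B U b y hc
  exact hi _ _ _ _ _ (hN B U b y hc)

lemma EV.and {Φ Ψ : Par → ℝ → Finset Ix → ℕ → Gi → Prop} (h : EV Φ) (h' : EV Ψ) :
    EV (fun p B U b y => Φ p B U b y ∧ Ψ p B U b y) := by
  intro cw aU aQ aF h1 h2 h3 h4
  obtain ⟨ch0, h5⟩ := h cw aU aQ aF h1 h2 h3 h4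
  obtain ⟨ch0', h5'⟩ := h' cw aU aQ aF h1 h2 h3 h4
  refine ⟨max ch0 ch0', fun ch hch => ?_⟩
  obtain ⟨cP0, h6⟩ := h5 ch ((le_max_left _ _).trans hch)
  obtain ⟨cP0', h6'⟩ := h5' ch ((le_max_right _ _).trans hch)
  refine ⟨max cP0 cP0', fun cP hcP => ?_⟩
  obtain ⟨cT0, h7⟩ := h6 cP ((le_max_left _ _).trans hcP)
  obtain ⟨cT0', h7'⟩ := h6' cP ((le_max_right _ _).trans hcP)
  refine ⟨max cT0 cT0', fun cT hcT => ?_⟩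
  obtain ⟨cB0, h8⟩ := h7 cT ((le_max_left _ _).trans hcT)
  obtain ⟨cB0', h8'⟩ := h7' cT ((le_max_right _ _).trans hcT)
  refine ⟨max cB0 cB0', fun cB hcB => ?_⟩
  filter_upwards [h8 cB ((le_max_left _ _).trans hcB), h8' cB ((le_max_right _ _).trans hcB)] with
    N hN hN' B U b y hc
  exact ⟨hN B U b y hc, hN' B U b y hc⟩

lemma EV.of_all {Φ : Par → ℝ → Finset Ix → ℕ → Gi → Prop} (h : ∀ p B U b y, Φ p B U b y) : EV Φ := by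
  intro cw aU aQ aF _ _ _ _
  refine ⟨0, fun ch _ => ⟨0, fun cP _ => ⟨0, fun cT _ => ⟨0, fun cB _ => ?_⟩⟩⟩⟩
  exact Filter.Eventually.of_forall fun N B U b y _ => h _ _ _ _ _

/-- the indices of a context -/
lemma EV.uok : EV (fun _ _ U _ _ => ix1 ∈ U ∧ ∀ i ∈ U, 1 ≤ i.1 ∧ ChiG (i.1 : Gi) i.2.1 ∧
    psi i ⟨0, 1⟩ = 1 ∧ (i ≠ ix1 → Dist i.2.1 (fun _ => 1) i.2.2 0)) := by
  intro cw aU aQ aF _ _ _ _
  refine ⟨0, fun ch _ => ⟨0, fun cP _ => ⟨0, fun cT _ => ⟨0, fun cB _ => ?_⟩⟩⟩⟩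
  exact Filter.Eventually.of_forall fun N B U b y hc =>
    ⟨hc.ok.one, fun i hi => ⟨(hc.ok.ch i hi).1, (hc.ok.ch i hi).2.2, hc.ok.adm i hi,
      fun hne => hc.ok.dif i hi ix1 hc.ok.one hne⟩⟩

/-- `EV` is what `SpecMT` needs -/
lemma EV.specMT (h : EV (fun p _ U b y =>
    2 * p.N / (Real.log p.N ^ 4 * nm y) ≤ (sy p y b (Kap p U)).re)) : SpecMT := by
  intro cw aU aQ aF h1 h2 h3 h4
  obtain ⟨ch0, h5⟩ := h cw aU aQ aF h1 h2 h3 h4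
  refine ⟨ch0, fun ch hch => ?_⟩
  obtain ⟨cP0, h6⟩ := h5 ch hch
  refine ⟨cP0, fun cP hcP => ?_⟩
  obtain ⟨cT0, h7⟩ := h6 cP hcP
  refine ⟨cT0, fun cT hcT => ?_⟩
  obtain ⟨cB0, h8⟩ := h7 cT hcT
  refine ⟨cB0, ?_⟩
  filter_upwards [h8 cB0 le_rfl] with N hN B hB1 hB2 U hU b hb1 hb2 y hy1 hy2 hy3
  exact hN B U b y ⟨hB1, hB2, hU, hb1, hb2, hy1, hy2, hy3⟩

/-! ## Definitions -/

/-- the cells of `z₁` -/
noncomputable def I1 (p : Par) (y : Gi) : Finset ℕ := VV p.h (p.K / nm y) (2 * (p.K / nm y))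

/-- the sum of `ψ` over the `z₁` in the cell `u` -/
noncomputable def S1 (p : Par) (y : Gi) (i : Ix) (u : ℕ) : ℂ :=
  ∑ z ∈ cell p.h (p.K / nm y) (2 * (p.K / nm y)) u, psi i z

/-- the radius `√(N(y) N(π) e^(s/h))`, `s = u + v4 + v2` -/
noncomputable def rad (p : Par) (y π : Gi) (s : ℕ) : ℝ :=
  Real.sqrt ((nm y : ℝ) * nm π * Real.exp (s / p.h))

/-- the local factor of `ψ_i` on the line, times the sieve product -/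
noncomputable def GG (p : Par) (i : Ix) (b : ℕ) : ℂ := ((VQ i.1 b (PS p.w) : ℝ) : ℂ) * gg i.2.1 i.1 b

/-- the trilinear sum over the cells -/
noncomputable def TT (p : Par) (y π : Gi) (b : ℕ) (i : Ix) : ℂ :=
  ∑ u ∈ I1 p y, ∑ v4 ∈ I4 p, ∑ v2 ∈ I2 p, S1 p y i u * S4 p i v4 * S2 p i v2 *
    (((1 / rad p y π (u + v4 + v2) : ℝ) : ℂ) *
      Complex.exp (-(Complex.I * i.2.2 * b / (rad p y π (u + v4 + v2) : ℝ))))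

/-- the size of the main term for one `π₃`, without the sieve factor -/
noncomputable def Z0 (p : Par) (y : Gi) : ℝ :=
  p.K / nm y * p.M4 * p.M2 / (p.N * Real.log p.N ^ 3)

/-- the size of the main term -/
noncomputable def XX (p : Par) (y : Gi) (b : ℕ) : ℝ :=
  VS b (PS p.w) / VP p.w * (GP p.P (2 * p.P)).card * Z0 p y

open scoped Classical in
/-- the line sum of `conj ψ_i` over the rough elements of a lattice cell -/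
noncomputable def LL (p : Par) (i : Ix) (ω : Gi) (b j : ℕ) : ℂ :=
  ∑ z ∈ (disc (p.N * p.T)).filter (On ω b),
    (if z ∈ lc p.h j ∧ rgh p.w z then conj (psi i z) else 0)

/-! ## Sizes -/

/-- elementary facts (all of them for `N` large; `n1 = N(y)`) -/
structure Siz (p : Par) (U : Finset Ix) (b : ℕ) (y : Gi) : Prop where
  N1 : 1000000 ≤ p.N
  l1 : 100 ≤ Real.log p.N
  h1 : 100 ≤ p.h
  h2 : p.h ^ 2 ≤ p.N / 10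
  w1 : 1 ≤ p.w
  P1 : 100 ≤ p.P
  T1 : 1000 * p.P ≤ p.T
  b1 : 1 ≤ b
  b2 : (b : ℝ) ^ 2 ≤ 8 * p.N
  ny : 1 ≤ nm y
  K1 : p.N ^ (9 / 10 : ℝ) ≤ p.K / nm y
  K2 : p.K / nm y ≤ p.N
  M41 : p.N ^ (1 / 3 : ℝ) ≤ p.M4
  M42 : 2 * p.M4 ≤ p.N
  M21 : p.N ^ (1 / 3 : ℝ) ≤ p.M2
  M22 : 2 * p.M2 ≤ p.N
  nT : 4 * p.M4 * p.M2 * Real.exp (2 / p.h) ≤ p.N * p.T
  prod : 16 * p.K * p.P * p.M4 * p.M2 = p.N ^ 2
  /-- the outer point `ω = y z₁ π₃` -/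
  om : ∀ π ∈ GP p.P (2 * p.P), ∀ z ∈ GP (p.K / nm y) (2 * (p.K / nm y)),
    prim (y * z * π) ∧ rgh p.w (y * z * π) ∧ (∀ i ∈ U, Nat.Coprime (nm (y * z * π)) i.1) ∧
    (nm (y * z * π) : ℝ) = nm y * nm z * nm π ∧ 0 < nm (y * z * π)
  /-- `z₁` and its cell -/
  ce : ∀ z ∈ GP (p.K / nm y) (2 * (p.K / nm y)), ⌊p.h * Real.log (nm z)⌋₊ ∈ I1 p y ∧
    z ∈ cell p.h (p.K / nm y) (2 * (p.K / nm y)) ⌊p.h * Real.log (nm z)⌋₊ ∧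
    Real.exp ((⌊p.h * Real.log (nm z)⌋₊ : ℝ) / p.h) ≤ nm z ∧
    (nm z : ℝ) ≤ Real.exp ((⌊p.h * Real.log (nm z)⌋₊ : ℝ) / p.h) * Real.exp (1 / p.h)
  /-- the radii -/
  ra : ∀ π ∈ GP p.P (2 * p.P), ∀ u ∈ I1 p y, ∀ v4 ∈ I4 p, ∀ v2 ∈ I2 p,
    p.N / 8 ≤ rad p y π (u + v4 + v2) ∧ rad p y π (u + v4 + v2) ≤ 2 * p.N
  /-- the lattice cells -/
  jj : ∀ v4 ∈ I4 p, ∀ v2 ∈ I2 p, p.N / 20 ≤ Real.exp (((v4 + v2 : ℕ) : ℝ) / p.h) ∧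
    Real.exp ((((v4 + v2 : ℕ) : ℝ) + 1) / p.h) ≤ p.N * p.T
  /-- the numbers of cells -/
  c1 : ((I1 p y).card : ℝ) ≤ p.h
  c4 : ((I4 p).card : ℝ) ≤ p.h
  c2 : ((I2 p).card : ℝ) ≤ p.h

/-- SIZ (350 lines, strong).  Proof.  `P = ℓ^cP`, `T = ℓ^cT`, `h = ℓ^ch`, `w = ℓ^cw`, `K = N/T`, `M4 = √N`, `M2 = √N T/(16P)`,
`N(y) ≤ ℓ^(cP/2)`; take `ch0 = 1`, `cP0 = max(2 cw, 2 aQ) + 2` (so that `w, Q < P`, `Q = ℓ^aQ`), `cT0 = cP + 1`, `cB0 = 1`.  Powers of `ℓ` are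
`≤ N^(1/100)` (`isLittleO_log_rpow_atTop`, or `Real.log` bounds).  `b ≥ 1` since `b > B ≥ 1`; `b² ≤ 4B² ≤ 8N`.
`om`: `z`, `π` are Gaussian primes whose norms are primes `> K' > 2P` and in `(P, 2P]`; all Gaussian primes dividing `y` have norm
`> w, Q` and `≤ N(y) ≤ ℓ^(cP/2) < P`.  The norm is multiplicative.  `prim`: a rational prime `q` dividing `y z π`: a Gaussian prime over `q`
and its conjugate divide `y z π`, comparing norms both divide the same factor: `y` (then `q ∣ y`, impossible), or `z` or `π` (impossible, the norm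
of `z` is a prime `≠ q²`; `z` prime of norm `q` is not divisible by `z̄`, since `re, im > 0` and `re ≠ im`, `q ≡ 1 mod 4`).  (Or: `gcd(a, b) = 1` for norms
gives: product of primitive elements with coprime norms is primitive; `z` is primitive since its norm is a prime.)  `rgh`: a Gaussian prime dividing `yzπ` divides
`y`, `z` or `π`; norms `> w`.  Coprime to `i.1 ≤ Q`: a prime `q` dividing `N(yzπ)` and `i.1`: some Gaussian prime over `q` divides `y z π`, of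
norm `q` or `q²`; if it divides `z` or `π` then `q = N > Q`; if it divides `y`: its norm is `> w ≥ Q²`, so `q > Q`.
(`cw ≥ 2 aQ`; `i.1 ≤ Q < q` contradicts `q ∣ i.1`, `i.1 ≥ 1`.)
`ce`: monotonicity of `⌊h log ·⌋`, `N(z) ≥ 1`, `v ≤ h log N(z) < v + 1`.
`ra`: `u/h ∈ [log K' - 1/h, log 2K']` etc., so `N(y) N(π) e^((u+v4+v2)/h) ∈ [K P M4 M2 e^(-3/h), 16 K P M4 M2] = [N² e^(-3/h)/16, N²]`.
`jj`: `e^(v4/h) ≥ M4 e^(-1/h)`, `M4 M2 = N T/(16 P) ≥ 60 N`; `e^((v4+v2+1)/h) ≤ 4 M4 M2 e^(1/h)`.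
Cells: `#VV h M 2M ≤ h log 2 + 2 ≤ h`. -/
def SpecSIZ : Prop := EV (fun p _ U b y => Siz p U b y)

/-- FRQ (100 lines).  The phase is nearly constant on a cell: `|k| b ≤ δ h N`.  Proof: `|k| ≤ ℓ^aF N/B`, `b ≤ 2B`, so
`|k| b ≤ 2 ℓ^aF N ≤ δ ℓ^ch N` for `ch ≥ ch0 = aF + 1`, `ℓ ≥ 2/δ`.  The second claim: `|k| b³ ≤ 2 ℓ^aF N · 4 B² ≤ δ N³`. -/
def SpecFRQ : Prop := ∀ δ : ℝ, 0 < δ → EV (fun p _ U b _ => ∀ i ∈ U,
  |(i.2.2 : ℝ)| * b ≤ δ * p.h * p.N ∧ |(i.2.2 : ℝ)| * (b : ℝ) ^ 3 ≤ δ * p.N ^ 3)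

/-- HGT (40 lines).  `h` is large (`ch0 = 1`, `h = ℓ^ch ≥ ℓ`). -/
def SpecHGT : Prop := ∀ κ : ℝ, EV (fun p _ _ _ _ => κ ≤ p.h)

/-- TBG (120 lines, from XL.SpecLSM).  There are many points on a line: `Q (w+1)^(16u+34)` is small against `(T/(P h)) V_b`.
Proof.  `Q = ℓ^aQ`, `w = ℓ^cw`, `h = ℓ^ch`, `P = ℓ^cP`: choose `cT0 = cP + ch + aQ + cw (16u + 35) + 10`; `VS b (PS w) ≥ c/log(w+1)^4 ≥ 1/ℓ`
(LSM, last claim), `N(y) ≥ 1`. -/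
def SpecTBG : Prop := ∀ (u : ℕ) (δ : ℝ), 0 < δ → EV (fun p _ U b _ => ∀ i ∈ U,
  (i.1 : ℝ) * (p.w + 1) ^ (16 * u + 34) ≤ δ * (p.T / (p.P * p.h)) * VS b (PS p.w))

/-! ## Inputs, in the form of the contexts -/

/-- CNT (150 lines, from `SW.SpecSWA` or `QPA` prime number theorem in progressions modulo 4).  Lower bound for the number of
Gaussian primes in `(X, 2X]`.  Proof.  Every prime `p ≡ 1 mod 4` is the norm of two elements of `GP` (MR/PG.lean or MR/Basic), and the number of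
primes `≡ 1 mod 4` in `(X, 2X]` is `(1/2 + o(1)) X/log X` (`SW/Main.lean`: SWA with `q = 4`, and the prime number theorem `QPA.specPNT`; or
Chebyshev). -/
def SpecCNT : Prop := ∃ c : ℝ, 0 < c ∧ ∀ᶠ X : ℝ in atTop, c * X / Real.log X ≤ ((GP X (2 * X)).card : ℝ)

/-- CEL (helper63's module gives it for general `M`): thin Halász–Montgomery for the three cells, in a context.
`S2` has the factor `4`. -/
def SpecCE3 : Prop := ∃ C : ℝ, 0 < C ∧ EV (fun p _ U _ y =>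
  (∀ u ∈ I1 p y, ∑ i ∈ U, ‖S1 p y i u‖ ^ 2 ≤ (C * (p.K / nm y) / (p.h * Real.log p.N)) ^ 2) ∧
  (∀ v ∈ I4 p, ∑ i ∈ U, ‖S4 p i v‖ ^ 2 ≤ (C * p.M4 / (p.h * Real.log p.N)) ^ 2) ∧
  ∀ v ∈ I2 p, ∑ i ∈ U, ‖S2 p i v‖ ^ 2 ≤ (C * p.M2 / (p.h * Real.log p.N)) ^ 2)

/-- RRA (200 lines, from X.SpecRG0, SpecSIZ).  The number of rough elements of a lattice cell.
Proof.  RG0 with `A = cw + 1`, `x = N² `, `y = ⌈e^(j/h)⌉ - 1`, `y' = ⌈e^((j+1)/h)⌉ - 1` (norms are integers, so `lc h j` is exactly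
`ann y y'`), `y' - y = e^(j/h)(e^(1/h) - 1) + O(1)`, `e^(1/h) - 1 = (1/h)(1 + O(1/h))`, `e^(j/h) ≥ N/20` and `≤ N T ≤ N²`, the error `x^(1-c)` must be compared
with `e^(j/h)/h`: use RG0 with `x = 2 e^((j+1)/h)` (so `x^(1-c) ≤ δ e^(j/h) VP/h`).  A crude bound is enough:
`VP w ≥ ∏_{p ≤ w} (1 - 1/p)² ≥ ∏_{2 ≤ m ≤ w} (1 - 1/m)² ≥ w^(-2)` (at most two elements of `PI w` over each rational prime), or
`VP w ≥ 2^(-#{N(π) = 2}) ..`. -/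
def SpecRRA : Prop := ∀ δ : ℝ, 0 < δ → EV (fun p _ _ _ _ => 0 < VP p.w ∧ VP p.w ≤ 1 ∧
  ∀ v4 ∈ I4 p, ∀ v2 ∈ I2 p, |RR p (v4 + v2) * p.h /
    (Real.pi * Real.exp (((v4 + v2 : ℕ) : ℝ) / p.h) * VP p.w) - 1| ≤ δ)

/-- PSM (150 lines, from PH.SpecPHX, SpecSIZ).  The initial sums of `S4` are small for every nontrivial `ψ`.
Proof.  The union of the cells `v < m`, `v ∈ I4`, is `{π ∈ GP M4 2M4 : N(π) < e^(m/h)}`, that is `GP M4 y'` with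
`y' = min(2 M4, ⌈e^(m/h)⌉ - 1)` (empty if `y' ≤ M4`).  PHX with `A = max(aQ, 2) + aF`, `δ₀ = 1/3`, `ε = δ/4`: `f = i.1 ≤ ℓ^aQ`,
`|k| ≤ ℓ^aF N/B ≤ N²`, nontrivial: `UOK.dif` with `ix1` (`psi ix1 = 1`: `ix1 = (1, 1, 0)`, `Dist` gives `k ≠ 0` or `χ z ≠ 0, χ z ≠ 1`), `hk χ k i = 1` is `adm`.
`y' ≤ 2 M4`, `log y' ≥ ℓ/2`. -/
def SpecPSM : Prop := ∀ δ : ℝ, 0 < δ → EV (fun p _ U _ _ => ∀ i ∈ U, i ≠ ix1 → ∀ m : ℕ,
  ‖∑ v ∈ (I4 p).filter (fun v => v < m), S4 p i v‖ ≤ δ * p.M4 / Real.log p.N)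

/-- LIN (200 lines, from XL.SpecLSM, SIZ, FRQ, TBG, HGT).  The line sums.
Proof.  LSM with `u` so large that `C e^(-u) ≤ δ/8`, `ω = y z π`, `r = rad p y π (⌊h log N(z)⌋ + v4 + v2)`, `j = v4 + v2`, `D = N T`.  Conditions:
SIZ (`r ≥ N/8 ≥ 1000`, `b² ≤ 8N ≤ 100 r`, `h² ≤ r`; `N(ω) e^(j/h) = N(y) N(z) N(π) e^(j/h) ∈ [r², r² e^(1/h)]`).  Errors: `C/h ≤ δ/8` (HGT),
`C |k| b/(h r) ≤ 8 C δ'` and `C |k| (b/r)³ ≤ 512 C δ'` (FRQ); the remainder by TBG: `r/(h N(ω)) ≥ (N/8)/(h · 4 K P) = T/(32 h P)`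
(`N(ω) ≤ N(y) · 2K' · 2P = 4 K P`). -/
def SpecLIN : Prop := ∀ δ : ℝ, 0 < δ → EV (fun p _ U b y => ∀ i ∈ U, ∀ π ∈ GP p.P (2 * p.P),
  ∀ z ∈ GP (p.K / nm y) (2 * (p.K / nm y)), ∀ v4 ∈ I4 p, ∀ v2 ∈ I2 p,
    ‖LL p i (y * z * π) b (v4 + v2) -
      ((rad p y π (⌊p.h * Real.log (nm z)⌋₊ + v4 + v2) / (2 * p.h * nm (y * z * π)) : ℝ) : ℂ) *
        GG p i b * psi i (y * z * π) *
        Complex.exp (-(Complex.I * i.2.2 * b / (rad p y π (⌊p.h * Real.log (nm z)⌋₊ + v4 + v2) : ℝ)))‖ ≤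
      δ * (rad p y π (⌊p.h * Real.log (nm z)⌋₊ + v4 + v2) / (p.h * nm (y * z * π))) * VS b (PS p.w))

/-! ## The reduction -/

/-- EXC (150 lines).  Exchange of the sums.  Pure algebra: unfold `sy`, `ls`, `Kap`, `kap`; `y * z₁ * π` is the point of the line;
`2 * p.K / nm y = 2 * (p.K / nm y)`. -/
def SpecEXC : Prop := ∀ (p : Par) (U : Finset Ix) (b : ℕ) (y : Gi),
  sy p y b (Kap p U) = ∑ π ∈ GP p.P (2 * p.P), ∑ z ∈ GP (p.K / nm y) (2 * (p.K / nm y)),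
    ∑ v4 ∈ I4 p, ∑ v2 ∈ I2 p, ∑ i ∈ U, cc p i v4 v2 * LL p i (y * z * π) b (v4 + v2)

/-- CCB (120 lines, from SpecCE3, SpecRRA).  The coefficients, log-free.
Proof.  `‖cc‖ = ‖S4‖ ‖S2‖/RR`, Cauchy–Schwarz over `i ∈ U` with CE3, `RR ≥ (1/2) π e^(j/h) VP/h` (RRA with `δ = 1/2`). -/
def SpecCCB : Prop := ∃ C : ℝ, 0 < C ∧ EV (fun p _ U _ _ => ∀ v4 ∈ I4 p, ∀ v2 ∈ I2 p,
  ∑ i ∈ U, ‖S4 p i v4‖ * ‖S2 p i v2‖ ≤ C * p.M4 * p.M2 / (p.h * Real.log p.N) ^ 2 ∧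
  ∑ i ∈ U, ‖cc p i v4 v2‖ ≤ C * p.M4 * p.M2 / (p.h * Real.log p.N ^ 2 *
    (Real.exp (((v4 + v2 : ℕ) : ℝ) / p.h) * VP p.w)))

/-- RED (350 lines, strong; from EXC, LIN, CCB, RRA, SIZ, CE3, HGT, XL.SpecLSM, XL.SpecCHB).  The reduction to the trilinear sums.
Proof.  EXC, and `|cc| |LL - ..| `: the error of LIN, summed: for each `(π, z, v4, v2)`: `∑_i ‖cc‖ δ' (r/(h N(ω))) V_b
≤ C δ' M4 M2 r V_b/(h² ℓ² N(ω) e^(j/h) VP)`, and `N(ω) e^(j/h) ≥ r²`, `r ≥ N/8`: `≤ 8 C δ' M4 M2 V_b/(h² ℓ² VP N)`.  There are at most `h²` pairs `(v4, v2)`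
and `≤ C K'/ℓ` elements `z` (CE3 for `i = ix1 ∈ U`: `S1 p y ix1 u` is the number of elements of the cell, `≤ C K'/(hℓ)`, and there are `≤ h`
cells, SIZ.ce and c1), so the total is `≤ C' δ' XX`.
Main terms: `cc · r/(2h N(ω)) = S4 S2 · r/(2h N(ω) RR(j))`, and `N(ω) e^(j/h) = r² (1 + O(1/h))`, `RR(j) = (π/h) e^(j/h) VP (1 + O(δ'))` (RRA), so the
coefficient is `(1/(2π VP)) (1/r) (1 + O(δ' + 1/h))` (`h ≥ 1/δ'`: this is SpecHGT); the error is bounded in the same way with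
`∑_i ‖S4‖‖S2‖` (CCB), `‖GG‖ ≤ VS` (LSM (C)), `‖psi‖ ≤ 1` (XL.SpecCHB: `‖χ‖ ≤ 1`; `‖xi‖ ≤ 1`).  Finally `psi i (y z π) = psi i y psi i z psi i π`, and the sum over `z` is the sum over
the cells `u ∈ I1` of `S1` (SIZ.ce: `z` is in exactly one cell), `rad` depends on the cell only. -/
def SpecRED : Prop := ∀ δ : ℝ, 0 < δ → EV (fun p _ U b y =>
  ‖sy p y b (Kap p U) - ((1 / (2 * Real.pi * VP p.w) : ℝ) : ℂ) * ∑ π ∈ GP p.P (2 * p.P), ∑ i ∈ U,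
    psi i y * psi i π * (GG p i b * TT p y π b i)‖ ≤ δ * XX p y b)

/-! ## The trilinear sums -/

/-- BIL (proved in X/M4.lean by helper6): the bounded analysis.  `H θ β s = β^s e^(-i θ β^s)`. -/
def SpecBIL : Prop := ∀ C c : ℝ, 1 ≤ C → 0 < c → c ≤ 1 → ∀ (β : ℝ) (n : ℕ), 0 < β → β < 1 → 1 ≤ n →
  1 ≤ C * n * (1 - β) → c ≤ β ^ n → ∀ (ι : Type) (Ψ : Finset ι) (θ : ι → ℝ) (g : ι → ℂ)
  (a x y : ι → ℕ → ℂ) (A X Y ε T₀ : ℝ), 0 ≤ A → 0 ≤ X → 0 ≤ Y → 0 ≤ ε → 1 ≤ T₀ →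
  (∀ i ∈ Ψ, |θ i| * (1 - β) ≤ 1) → (∀ i ∈ Ψ, ‖g i‖ ≤ 1) →
  (∀ u, u < n → ∑ i ∈ Ψ, ‖a i u‖ ^ 2 ≤ A ^ 2) → (∀ v, v < n → ∑ i ∈ Ψ, ‖y i v‖ ^ 2 ≤ Y ^ 2) →
  (∀ i ∈ Ψ, ∀ v, v < n → ‖x i v‖ ≤ X) →
  (∀ i ∈ Ψ, ∀ m, m ≤ n → ‖∑ v ∈ range m, x i v‖ ≤ ε * X * n) →
    ∑ i ∈ Ψ, ‖g i * ∑ u ∈ range n, ∑ v ∈ range n, ∑ j ∈ range n,
      a i u * x i v * y i j * M4.H (θ i) β (u + v + j)‖ ≤
      (3 * T₀ * ε + 8 * (C / c ^ 2) * T₀ ^ (-(1 / 4) : ℝ)) * n ^ 3 * (A * X * Y)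

open scoped Classical in
/-- BLX (300 lines, strong; from BIL, CE3, PSM, SIZ, FRQ, XL.SpecLSM: (C) for `‖GG‖ ≤ VS`).  The nontrivial characters contribute little.
Proof.  Fix `π`.  `u₀, a₀, b₀` = the least elements of `I1, I4, I2` (`VV = Icc ..`), `n = ⌊h⌋₊` (all three have at most `n` elements by SIZ, c1 c4 c2), extend
`S1, S4, S2` by zero outside.  `β = e^(-1/(2h))`: `1 - β ≥ 1/(4h)`, so `1 ≤ 8 n (1 - β)` (`C = 8`), `β^n ≥ e^(-1/2) ≥ 1/2 = c`.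
`1/rad(u + v4 + v2) = β^(..)/r₀`, `r₀ = rad p y π (u₀ + a₀ + b₀) ≥ N/8`, and `k b/rad = θ β^(..)`, `θ = k b/r₀`, `|θ| (1 - β) ≤ |k| b · 8/(2 h N) ≤ 1` (FRQ with
`δ = 1/4`).  `g = GG/VS`.  `A, X, Y` from CE3 (`‖S4‖² ≤ ∑`), `ε X n`: PSM gives `δ' M4/ℓ ≤ ε X n`, `X = C M4/(hℓ)`, `n ≥ h/2`: `ε = 2 δ'/C`.
BIL: `∑ ‖GG TT‖ ≤ (VS/r₀) (3 T₀ ε + 256 T₀^(-1/4)) n³ A X Y ≤ (8 C³)(3 T₀ ε + 256 T₀^(-1/4)) VS Z0`.  Choose first `T₀`, then `δ'`. -/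
def SpecBLX : Prop := ∀ δ : ℝ, 0 < δ → EV (fun p _ U b y => ∀ π ∈ GP p.P (2 * p.P),
  ∑ i ∈ U.filter (fun i => i ≠ ix1), ‖GG p i b * TT p y π b i‖ ≤ δ * VS b (PS p.w) * Z0 p y)

/-- MNX (150 lines, from CNT, SIZ, XL.SpecLSM: (D)).  The trivial character.
Proof.  `psi ix1 = 1`, `gg = 1`, `VQ 1 = VS`, `k = 0`: `TT` is the sum of `#cell(u) #cell(v4) 4 #cell(v2)/rad ≥ ../(2N)`, all terms `≥ 0`; the cells partition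
`GP M (2M)` (SIZ.ce for `z₁`, the same monotonicity for `M4`, `M2`), CNT for `K'`, `M4`, `M2` (all `≥ N^(1/3)`, `log ≤ ℓ`). -/
def SpecMNX : Prop := ∃ c : ℝ, 0 < c ∧ EV (fun p _ _ b y => ∀ π ∈ GP p.P (2 * p.P),
  (GG p ix1 b * TT p y π b ix1).im = 0 ∧
  c * VS b (PS p.w) * Z0 p y ≤ (GG p ix1 b * TT p y π b ix1).re)

/-- XXL (150 lines, from CNT, SIZ, RRA, XL.SpecLSM: (E)).  The size of the main term.
Proof.  `16 K P M4 M2 = N²`, `#GP P 2P ≥ c P/log P` (CNT; `log P = cP log ℓ`), `VP ≤ 1`, `VS ≥ c/log(w+1)^4` (`log (w+1) ≤ 2 cw log ℓ`):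
`XX ≥ c' N/(16 N(y) ℓ³ (log ℓ)^5 ..) ≥ (1/κ) 2N/(ℓ⁴ N(y))` since `ℓ/(log ℓ)^5 → ∞`. -/
def SpecXXL : Prop := ∀ κ : ℝ, 0 < κ → EV (fun p _ _ b y =>
  2 * p.N / (Real.log p.N ^ 4 * nm y) ≤ κ * XX p y b ∧ 0 ≤ XX p y b)

/-- FMT (100 lines, from RED, BLX, MNX, XXL, RRA, XL.SpecCHB; `EV.uok`).  The conclusion.  Proof.  `(1/(2π VP)) ∑_π (c - δ) VS Z0 - δ XX ≥ (c/(2π) - 2δ) XX`;
`psi ix1 = 1`, `ix1 ∈ U` (`EV.uok`), `‖psi i y psi i π‖ ≤ 1` (XL.SpecCHB).  Then SpecMT is `EV.specMT (specFMT ..)`. -/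
def SpecFMT : Prop := EV (fun p _ U b y =>
  2 * p.N / (Real.log p.N ^ 4 * nm y) ≤ (sy p y b (Kap p U)).re)

end Pool.Agent.Lib.MP391708.XM
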