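import Pool.Agent.Lib.MP_391708_nt.X.Spec
import Pool.Agent.Lib.MP_391708_nt.X.SpecCEL
import Pool.Agent.Lib.MP_391708_nt.X.SpecVAR

/-!
# Theorem X of MP_391708_nt: from `XV.SpecVAR` to `X.SpecVAR`

`XV` = `Pool.Agent.Lib.MP391708.XV` (the variance inequality, file `X/SpecVAR.lean`).
The variable `z'` is cut into COARSE cells (groups of `m` consecutive fine cells, `m / h` about
`(log N)^(-ch0)`).  `SpecUPT` is the part about the set `U` of Hecke characters (conductors,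
Halász–Montgomery, cancellation on `U`); the other statements of this file are the count of the
atypical characters (ATY), the verification of `XV.Par` (PRV), the regrouping of the line sums (REG)
and the final assembly (FNV).

Module `XXX` proves `theorem specXXX (h.. : ..) : SpecXXX` in its own file `X/U0/XXX.lean` (import this
file), namespace `Pool.Agent.Lib.MP391708.X.U0`, own lemmas in the namespace `XXXM`.
-/

set_option autoImplicit false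

namespace Pool.Agent.Lib.MP391708.X.U0

open Finset Filter Topology Pool.Agent.Lib.MP391708.MR Pool.Agent.Lib.MP391708.X
open scoped ComplexConjugate

/-! ## Definitions -/

/-- number of fine cells in a coarse cell -/
noncomputable def mm (N ch ch0 : ℝ) : ℕ := ⌊Real.log N ^ (ch - ch0)⌋₊

/-- the coarse cells of `π₃` -/
noncomputable def Pc (p : Par) (m i : ℕ) : Finset Gi :=
  (GP p.P (2 * p.P)).filter (fun π => ⌊p.h * Real.log (nm π)⌋₊ / m = i)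

/-- the indices of the coarse cells of `π₃` -/
noncomputable def Ic (p : Par) (m : ℕ) : Finset ℕ := (VV p.h p.P (2 * p.P)).image (fun v => v / m)

/-- the indices of the coarse cells of `z'` (sum of the coarse indices of `π₄` and `π₂`) -/
noncomputable def Jc (p : Par) (m : ℕ) : Finset ℕ :=
  ((I4 p) ×ˢ (I2 p)).image (fun v => v.1 / m + v.2 / m)

open scoped Classical in
/-- the rough elements of the coarse cell `j` (a little larger: two cells) -/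
noncomputable def Sc (p : Par) (m j : ℕ) : Finset Gi :=
  (disc (p.N * p.T / p.P)).filter (fun z => rgh p.w z ∧
    Real.exp ((j : ℝ) * m / p.h) ≤ (nm z : ℝ) ∧ (nm z : ℝ) ≤ Real.exp (((j : ℝ) + 2) * m / p.h))

/-- the part of `Eta - Kap` in the coarse cell `j` -/
noncomputable def hc (p : Par) (U : Finset Ix) (m j : ℕ) (z : Gi) : ℂ :=
  ∑ v ∈ ((I4 p) ×ˢ (I2 p)).filter (fun v => v.1 / m + v.2 / m = j),
    (eta p v.1 v.2 z - kap p U v.1 v.2 z)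

/-- `T0 = T (log N)^(-a0)` -/
noncomputable def t0 (N cT a0 : ℝ) : ℕ := ⌈Real.log N ^ (cT - a0)⌉₊

/-- `T1 = 4 T` -/
noncomputable def t1 (N cT : ℝ) : ℕ := ⌊4 * Real.log N ^ cT⌋₊

/-- the range of the frequencies `(log N)^aK * N / B` -/
noncomputable def km (N B aK : ℝ) : ℕ := ⌈Real.log N ^ aK * (N / B)⌉₊

/-- the position of the products `π₃ z'` -/
noncomputable def Lc (p : Par) (m i j : ℕ) : ℝ := Real.exp (((i : ℝ) + j) * m / p.h)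

/-! ## The part about the characters -/

/-- UPT (helper60, helper40): for a suitable `U` the sums of `hc` against ANY small family of Hecke
characters modulo `t`, `T0 < t ≤ T1`, are small on average over `t` (weight `t / ph t`, about `1/t`).
`c` is absolute (it comes from `SpecHMT`).
PROOF (sketch, `l = log N`).  For `q = (χ, k) ∈ Xs t` let `ψ = χ ξ_k`.  If `ψ(i) ≠ 1` the sum is `0` (`eta`,
`kap` are invariant under units).  Otherwise, the sum over `Sc` is the sum over all `z` (supports), and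
(1) eta: `∑_{V4 + V2 = j} 4 S4'(V4) S2'(V2)`, `S'` = sums of `ψ` over the coarse cells;
(2) kap: if `ψ` is `Dist` from all `i ∈ U` it is `≤ N^(1 - c)` (RG1); if `ψ` is equivalent to `i0 ∈ U`, it
is `cc i0 * RR` summed over the fine cells, i.e. equal to (1), up to the `z` not coprime to `t`
(all their prime factors are `> w`: at most `C l |cell| / w`) and up to `N^(1 - c)`.
LARGE characters: `ψ = (χ mod t, k)`, `t ≤ T1`, `|k| ≤ Km`, `ψ(i) = 1`, with `|S4'(V4)| > M4 l^(-A1)` for some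
coarse `V4`.  Any pairwise `Dist` family of large characters has at most `l^C6` elements (HMT, applied to
subfamilies of size `≤ N^c`), `C6 = 2 A1 + ch0 + 1`.  Every class of equivalent characters has a minimal
rational modulus `f`, `f ∣ t` for all `t` carrying it; `U` = representatives (mod `f`) of the classes of
large characters with `f ≤ l^aQ`, and the trivial one.
For the small `ψ`: by Cauchy–Schwarz over the `≤ C l^ch0` pairs `(V4, V2)` and HMT for the `S2'`, (number of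
characters `≤ N^c`) the sum over `Xs t` is `≤ C l^(2 ch0 - 2 A1) (M4 M2)²`.  For the large `ψ` with `f > l^aQ`:
`#classes * l^C * M² * ∑_{f ∣ t} (t / ph t) ≤ M² l^(C6 + C - aQ)`.  For `ψ` in `U`: `(M l^C / w)² * #U`. -/
def SpecUPT : Prop := ∃ c : ℝ, 0 < c ∧ c ≤ 1 ∧ ∀ A' a0 aK ch0 : ℝ, 1 ≤ A' → 1 ≤ a0 → a0 ≤ aK → 1 ≤ ch0 →
  ∃ aU aQ cw0 : ℝ, 1 ≤ aU ∧ 1 ≤ aQ ∧ 2 * aQ ≤ cw0 ∧ ∀ cw : ℝ, cw0 ≤ cw → ∀ ch : ℝ, ch0 ≤ ch →
  ∃ cP0 : ℝ, ∀ cP : ℝ, cP0 ≤ cP → ∃ cT0 : ℝ, ∀ cT : ℝ, cT0 ≤ cT → ∃ cB : ℝ, ∀ᶠ N : ℝ in atTop,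
  ∀ B : ℝ, Real.log N ^ cB ≤ B → B ^ 2 ≤ 2 * N →
  ∃ U : Finset Ix, UOK (Real.log N ^ aQ) (Real.log N ^ (aK + 1) * (N / B)) (Real.log N ^ aU) U ∧
    ∀ Xs : (t : ℕ) → Finset (MulChar (Cls.RR (XV.md t)) ℂ × ℤ),
      (∀ t ∈ Ioc (t0 N cT a0) (t1 N cT), Xs t ⊆ (XV.chs t) ×ˢ (IK (km N B aK)) ∧
        ((Xs t).card : ℝ) ≤ N ^ c) →
      ∑ t ∈ Ioc (t0 N cT a0) (t1 N cT), ((t : ℝ) / XV.ph t) *
        ∑ j ∈ Jc (par N cT cP ch cw) (mm N ch ch0), ∑ q ∈ Xs t,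
          ‖XV.hat t q.1 q.2 (Sc (par N cT cP ch cw) (mm N ch ch0) j)
            (hc (par N cT cP ch cw) U (mm N ch ch0) j)‖ ^ 2 ≤
      (N * Real.log N ^ cT / Real.log N ^ cP) ^ 2 * Real.log N ^ (-A')

/-! ## The count of the atypical characters -/

/-- ATY (from `XV.SpecMOT`).  PROOF.  Let `l = log N`, `R = 2 l^cP`, `τ = (l^cP)^(1 - c)`, `c = c'/12`,
`cP0 = 12/c' + 1`.  `t² Km ≤ 16 l^(2 cT) (l^aK N + 1) ≤ N^(6/5)` for large `N` (`B ≥ 1`).  Let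
`r = ⌈(6/5) log N / log R⌉₊ ≥ 1`: `N^(6/5) ≤ R^r ≤ R N^(6/5)`.  MOT gives
`#atyp ≤ C (r!)² (1 + log (R^r)) 2 (R^r)² / τ^(2 r) = 2 C (r!)² (1 + log (R^r)) (R / τ)^(2 r)`,
`(R / τ)^(2 r) = 4^r (l^cP)^(2 c r)`, `(l^cP)^r ≤ R^r ≤ R N^(6/5)`, so `(l^cP)^(2 c r) ≤ (R N^(6/5))^(2 c) ≤ N^(3 c)`;
`r ≤ (6/5) log N / (cP log log N) + 1 ≤ log N`, so `4^r ≤ N^(c'/8)` and
`(r!)² ≤ r^(2 r) ≤ exp (2 r log log N) ≤ N^(3/cP)`; `3/cP ≤ c'/4`; the rest is `≤ N^(c'/8)`. -/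
def SpecATY : Prop := ∀ c' : ℝ, 0 < c' → ∃ c cP0 : ℝ, 0 < c ∧ c < 1 ∧ 1 ≤ cP0 ∧
  ∀ cP : ℝ, cP0 ≤ cP → ∀ cT aK : ℝ, ∀ᶠ N : ℝ in atTop, ∀ B : ℝ, 1 ≤ B → ∀ t : ℕ, 2 ≤ t →
    (t : ℝ) ≤ 4 * Real.log N ^ cT → ∀ P : Finset Gi, P ⊆ GP 0 (2 * Real.log N ^ cP) →
      ((XV.atyp t (km N B aK) ((Real.log N ^ cP) ^ (1 - c)) P).card : ℝ) ≤ N ^ c'

/-! ## The hypotheses of the variance inequality -/

/-- SUP: supports and sizes.  PROOF.  (1) `eta p v4 v2 z ≠ 0` implies `z = u π₄ π₂`, `u` a unit,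
`nm z = nm π₄ * nm π₂`, `v4 / h ≤ log nm π₄ < (v4 + 1) / h` and the same for `v2`; so
`e^((v4 + v2)/h) ≤ nm z ≤ e^((v4 + v2 + 2)/h)`, `nm z ≤ 4 M4 M2 = N T/(4 P)`; the prime factors of `z` have norms
`> M4 > w`.  `kap ≠ 0` implies `z ∈ lc h (v4 + v2)`, `rgh w z`, so `e^((v4 + v2)/h) ≤ nm z < e^((v4 + v2 + 1)/h)` (or
see the definition), `e^(v4/h) ≤ 2 M4`, `e^(v2/h) ≤ 2 M2`, `nm z ≤ 4 M4 M2 e^(1/h) ≤ N T/P`.  With `V4 = v4 / m`,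
`V2 = v2 / m`, `j = V4 + V2`: `j m ≤ v4 + v2` and `v4 + v2 + 2 ≤ (j + 2) m`.  So `hc ≠ 0` only on `Sc`.
(2) For each `z` at most one pair `(π₄, π₂)` of `GP M4 (2 M4) × GP M2 (2 M2)` has `π₄ π₂` associated to `z`
(`2 M4 < M2`: the norms are in disjoint ranges; unique factorisation, `GP_eq_of_dvd`), so
`∑_{v4, v2} ‖eta v4 v2 z‖ ≤ 1`.  `kap v4 v2 z ≠ 0` only if `v4 + v2 = ⌊h log nm z⌋₊`: at most `#I4 ≤ 2 h` pairs, each
`≤ C log (l^cw) / (h l²)` (KSB): `∑ ‖kap‖ ≤ 1` for large `N`.  So `∑_j ‖hc j z‖ ≤ 2`. -/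
def SpecSUP : Prop := ∀ cT cP ch cw ch0 aQ aU : ℝ, 1 ≤ ch → 1 ≤ ch0 → ch0 ≤ ch → 1 ≤ cw → cP + 1 ≤ cT → 1 ≤ cP →
  ∀ᶠ N : ℝ in atTop, ∀ (F : ℝ) (U : Finset Ix), F ≤ N → UOK (Real.log N ^ aQ) F (Real.log N ^ aU) U →
    (∀ (j : ℕ) (z : Gi), hc (par N cT cP ch cw) U (mm N ch ch0) j z ≠ 0 →
      z ∈ Sc (par N cT cP ch cw) (mm N ch ch0) j) ∧
    (∀ z : Gi, ∑ j ∈ Jc (par N cT cP ch cw) (mm N ch ch0),
      ‖hc (par N cT cP ch cw) U (mm N ch ch0) j z‖ ≤ 2)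

/-- PRV (from SUP): `XV.Par` holds.  PROOF.  Parameters: `κ = 2`, `ρ = 32`, `K = N/T`, `Y = N T`,
`η = 3 m/h ≤ 3 l^(-ch0)`, `w = l^cw`, `M = N T/P`, `F = 2`, `T0`, `T1`, `Km` as defined.  `Y / K = T²`, so
`8 Y ≤ T1² K ≤ 16 Y` (`T1 = ⌊4 T⌋ ≥ 3 T`), `2 κ K ≤ Y`; `32 ρ T1 B ≤ 4096 T B ≤ N T` since `B ≤ √(2 N)`;
`T1 ≤ 4 T ≤ B` with `cB ≥ cT + 1`; `1 ≤ T0 ≤ T1`; `π Y ≤ 8 T0 B Km` as `T0 ≥ T l^(-a0)`,
`B Km ≥ l^aK N`, `aK ≥ a0`, `8 ≥ π`.  `Pc ⊆ GP P (2 P) ⊆ GP 0 Y`, `w < P`.  `Lc i j = e^((i + j) m/h)`: `i m ≤ v`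
with `v ≤ h log (2 P)`, `v ≥ h log P - 1`, `i m ≥ v - m`, and the same for `v4`, `v2`: so
`N T/16 e^(-(3 m + 3)/h) ≤ Lc ≤ N T/2`, and `e^(-(3 m + 3)/h) ≥ 1/2`, `e^η ≤ 2`.  For `p ∈ Pc i`, `z ∈ Sc j`:
`i m ≤ ⌊h log nm p⌋ < (i + 1) m`, so `e^(i m/h) ≤ nm p ≤ e^((i + 1) m/h)`, and
`e^(j m/h) ≤ nm z ≤ e^((j + 2) m/h)`.  `hh`: SUP. -/
def SpecPRV : Prop := ∀ cT cP ch cw ch0 aQ aU a0 aK : ℝ, 1 ≤ ch → 1 ≤ ch0 → ch0 ≤ ch → 1 ≤ cw →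
  cw + 1 ≤ cP → cP + 1 ≤ cT → 1 ≤ a0 → a0 ≤ aK → a0 + 1 ≤ cT → ∀ cB : ℝ, cT + 1 ≤ cB →
  ∀ᶠ N : ℝ in atTop, ∀ B : ℝ, Real.log N ^ cB ≤ B → B ^ 2 ≤ 2 * N → ∀ (F : ℝ) (U : Finset Ix), F ≤ N →
    UOK (Real.log N ^ aQ) F (Real.log N ^ aU) U →
    XV.Par 2 32 (N / Real.log N ^ cT) (N * Real.log N ^ cT) B (3 * (mm N ch ch0) / Real.log N ^ ch)
      (Real.log N ^ cw) (N * Real.log N ^ cT / Real.log N ^ cP) 2 (t0 N cT a0) (t1 N cT) (km N B aK)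
      (Ic (par N cT cP ch cw) (mm N ch ch0)) (Jc (par N cT cP ch cw) (mm N ch ch0))
      (Lc (par N cT cP ch cw) (mm N ch ch0)) (Pc (par N cT cP ch cw) (mm N ch ch0))
      (Sc (par N cT cP ch cw) (mm N ch ch0)) (hc (par N cT cP ch cw) U (mm N ch ch0))

/-- REG (from SUP): the variance is the left side of `XV.SpecVAR`.  PROOF.  `GP P (2 P)` is the disjoint
union of the `Pc i`, `i ∈ Ic`; `Eta z - Kap z = ∑_{j ∈ Jc} hc j z` (group the pairs `(v4, v2)`), and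
`hc j z ≠ 0` only on `Sc j ⊆ disc (N T)` (`P ≥ 1`).  `(z1 * p) * z = z1 * (p * z)`.  The integers `b` of
`Ioc ⌊B⌋ ⌊2 B⌋` are the casts of the naturals of `Ioc ⌊B⌋₊ ⌊2 B⌋₊` (`B ≥ 0`). -/
def SpecREG : Prop := ∀ cT cP ch cw ch0 aQ aU : ℝ, 1 ≤ ch → 1 ≤ ch0 → ch0 ≤ ch → 1 ≤ cw → cP + 1 ≤ cT → 1 ≤ cP →
  ∀ᶠ N : ℝ in atTop, ∀ (B F : ℝ) (U : Finset Ix), 1 ≤ B → F ≤ N →
    UOK (Real.log N ^ aQ) F (Real.log N ^ aU) U →
    Var (par N cT cP ch cw) B (fun z => Eta (par N cT cP ch cw) z - Kap (par N cT cP ch cw) U z) =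
      ∑ z1 ∈ (ann (par N cT cP ch cw).K (2 * (par N cT cP ch cw).K)).filter prim,
        ∑ b ∈ Ioc ⌊B⌋ ⌊2 * B⌋, ‖∑ i ∈ Ic (par N cT cP ch cw) (mm N ch ch0),
          ∑ j ∈ Jc (par N cT cP ch cw) (mm N ch ch0), ∑ p ∈ Pc (par N cT cP ch cw) (mm N ch ch0) i,
            ∑ z ∈ (Sc (par N cT cP ch cw) (mm N ch ch0) j).filter
              (fun z => (z1 * (p * z)).im = b ∧ 0 < (z1 * (p * z)).re),
                hc (par N cT cP ch cw) U (mm N ch ch0) j z‖ ^ 2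

/-- FNV: THE ASSEMBLY.  PROOF.  `l = log N`, `Y = N T = B K T² / B`.  Given `A`, put `a0 = A + 10`,
`ch0 = 2 a0 + A + 10`, `aK = a0 + 4 ch0 + A + 10`, `A' = A + 3 ch0 + 10`; let `c'` be the `c` of UPT and take from
UPT (`A', a0, aK, ch0`) `aU, aQ, cw0`; `cw = max cw0 (A + 10)`; `aF = aK + 1`.  Let `c, cP0'` come from ATY for
`c'/2`; `cP0 ≥ cP0'`, `cw + 1`, `(4 ch0 + A + 10)/(2 c)` and the one of UPT; `cT0 ≥ cP + a0 + 1`, ..;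
`cB ≥ cP + cT + 4 ch0 + A + 10`, ...  Take `U` from UPT, `τ = P^(1 - c)`, and
`Xs t = ⋃_{i ∈ Ic} atyp t Km τ (Pc i)` (`#Ic ≤ l^(ch0 + 1)`, so `#Xs t ≤ N^(c')`).  By REG, PRV and
`XV.SpecVAR` (`κ = 2`, `ρ = 32`, `Z` = primitive points of `ann K (2 K)`), `Var` is at most the sum of
(1) `C 4 (1 + log Y)^5 B Y * (..)` with `(1 + log Y)^5 ≤ l^6`, `T0 √(K / Y) ≤ 2 l^(-a0)`,
`η (Y / (T0² K) + 1) ≤ 3 l^(-ch0) * 2 l^(2 a0)`, `B² / (K Y) = B² / N² ≤ 2/N`, `1/w`, `1/B`,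
`(#I #J)² ≤ l^(4 ch0 + 2)`, `τ² (M/Y)² = P^(-2 c) = l^(-2 c cP)`, `τ² T1 M / (B Y) ≤ P² 4 T / (B P)`,
`Y / (B Km) ≤ T l^(-aK)`, `1/T0 ≤ l^a0 / T`, `1/B`: every term is at most `l^(-A - 7)`;
(2) `C #I #J (B / Y) ∑_t (t / ph t) ∑_i ∑_j ∑_{q ∈ atyp} ‖hat P_i‖² ‖hat h_j‖²`, at most
`C #I² #J (B / Y) (18 P)² * ∑_t (t / ph t) ∑_j ∑_{q ∈ Xs t} ‖hat h_j‖²` (`#GP P (2 P) ≤ 18 P`)
`≤ C' l^(3 ch0 + 3) (B / Y) P² (Y / P)² l^(-A') ≤ B Y l^(-A) / 2`. -/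
def SpecFNV : Prop := XV.SpecVAR → SpecUPT → SpecATY → SpecPRV → SpecREG → SpecVAR

end Pool.Agent.Lib.MP391708.X.U0
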