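import Pool.Agent.Lib.MP_391708_nt.X.SpecHM
import Pool.Agent.Lib.MP_391708_nt.MR.Type

/-!
# TYU: sums of `(z/|z|)^k` over discs and residue classes, uniformly in the modulus
-/

set_option autoImplicit false

namespace Pool.Agent.Lib.MP391708.X

open Pool.Agent.Lib.MP391708.MR
open Finset Filter Topology MeasureTheory
open scoped ComplexConjugate

namespace TYUM

open TypeM

lemma num3 {xd s r P D BN xg y : ℝ} (hr : 0 ≤ r) (hP : 0 ≤ P) (hD : 0 ≤ D) (hs0 : 0 ≤ s)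
    (hb : BN ≤ 1 + D * xg) (e1 : xd * s ^ 2 = y) (e2 : s ≤ y) (e3 : s * xg ≤ y) :
    2 * (3 * xd * s ^ 2 + s * (r * (2 * xd * s + 1) + P * BN)) + 3 * s ≤
      (9 + 6 * r + 2 * P + 2 * P * D) * y := by
  have h1 : s * (P * BN) ≤ s * (P * (1 + D * xg)) :=
    mul_le_mul_of_nonneg_left (mul_le_mul_of_nonneg_left hb hP) hs0
  have h2 := num2 hr hP hD e2 e3
  have h3 : 2 * (3 * xd * s ^ 2 + s * (r * (2 * xd * s + 1) + P * BN)) + 3 * s =
      6 * (xd * s ^ 2) + 4 * r * (xd * s ^ 2) + 2 * r * s + 2 * (s * (P * BN)) + 3 * s := by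
    ring
  have h4 : 2 * (s * (P * (1 + D * xg))) = 2 * P * s + 2 * P * D * (s * xg) := by ring
  rw [h3, e1]
  linarith

/-- middle range of frequencies, uniformly in the modulus -/
lemma typeU_mid (hV : SpecVDC) {q : ℕ} (hq : 2 ≤ q) {κ : ℝ}
    (hκ : ((q : ℝ) / 2 - κ) / (2 ^ q - 2) < 2 / 2 ^ q) :
    ∃ c' : ℝ, 0 < c' ∧ c' < 1 ∧ ∃ c₀ : ℝ, 0 < c₀ ∧ ∀ᶠ x : ℝ in atTop,
      ∀ m : ℕ, 0 < m → (m : ℝ) ≤ x ^ c₀ → ∀ k : ℤ, k ≠ 0 → x ^ κ ≤ |(k : ℝ)| →
      |(k : ℝ)| ≤ x ^ (((q : ℝ) - 1) / 2) → ∀ w : Gi,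
        ‖∑ z ∈ (disc x).filter (cond m w), xi k z‖ ≤ x ^ (1 - c') := by
  obtain ⟨Cq, hCq, hC⟩ := hV q hq
  obtain ⟨ρ, c, d, hc, hc1, hρ⟩ := exists_lower q (by omega)
  have hpi := Real.pi_pos
  have hq2 : (2 : ℝ) ^ 2 ≤ 2 ^ q := pow_le_pow_right₀ (by norm_num) hq
  have hq2' : (0 : ℝ) < 2 ^ q - 2 := by norm_num at hq2; linarith
  set e : ℝ := 1 / (2 ^ q - 2) with he
  have he0 : 0 < e := by rw [he]; positivity
  have he2 : e ≤ 1 / 2 := by
    rw [he, div_le_div_iff₀ hq2' (by norm_num)]; norm_num at hq2; linarith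
  have hκ' : 0 < 2 / 2 ^ q - ((q : ℝ) / 2 - κ) * e := by
    rw [he, mul_one_div]; linarith
  set g := min (e / 2) (2 / 2 ^ q - ((q : ℝ) / 2 - κ) * e) with hg
  have hg0 : 0 < g := lt_min (by positivity) hκ'
  have hqR : (2 : ℝ) ≤ q := by exact_mod_cast hq
  have hq0 : (0 : ℝ) < q := by linarith
  have hd0 : (0 : ℝ) ≤ d := Nat.cast_nonneg _
  set δ := g / (2 * (2 * d + 3 * q)) with hδdef
  have hδ0 : 0 < δ := by positivity
  have hδ : δ * (2 * d + 3 * q) = g / 2 := by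
    have hden : (2 * (2 * (d : ℝ) + 3 * q)) ≠ 0 := by positivity
    rw [hδdef, div_mul_eq_mul_div, div_eq_div_iff hden two_ne_zero]
    ring
  have hg4 : g ≤ 1 / 4 := (min_le_left _ _).trans (by linarith)
  have hδg : δ ≤ g / 2 := by
    rw [← hδ]
    nlinarith
  set K₁ := ((q - 1).factorial : ℝ) / (2 * Real.pi) * c with hK₁
  have hK₁0 : 0 < K₁ := by positivity
  set C₃ := 2 * Cq / c * (K₁ ^ e + K₁ ^ (-e)) with hC₃
  have hC₃0 : 0 < C₃ := by positivity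
  set C₄ : ℝ := 9 + 6 * ρ.card + 2 * 2 ^ ρ.card + 2 * 2 ^ ρ.card * C₃ with hC₄
  have hC₄0 : 0 < C₄ := by positivity
  set c₀ : ℝ := δ / (4 * q) with hc₀
  have hc₀0 : 0 < c₀ := by positivity
  have hc₀q : c₀ * q = δ / 4 := by rw [hc₀]; field_simp
  refine ⟨δ / 2, by positivity, by linarith, c₀, hc₀0, ?_⟩
  filter_upwards [eventually_ge_atTop (1 : ℝ),
    eventually_const_mul_le (C := K₁) (a := δ / 4 - 1 / 2) (b := 0) (by linarith),
    eventually_const_mul_le (C := C₄) (a := 1 - δ + δ / 4) (b := 1 - δ / 2) (by linarith)]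
    with x hx hx1 hx2
  intro m hm hmx k hk hk1 hk2 w
  have hx0 : 0 < x := by linarith
  have hm1 : (1 : ℝ) ≤ m := by exact_mod_cast hm
  have hm0 : (0 : ℝ) < m := by linarith
  rw [Real.rpow_zero] at hx1
  set K := ((q - 1).factorial : ℝ) * (m : ℝ) ^ q / (2 * Real.pi) * c with hK
  have hKK : K = K₁ * (m : ℝ) ^ q := by rw [hK, hK₁]; ring
  have hK0 : 0 < K := by positivity
  have hmq : (m : ℝ) ^ q ≤ x ^ (δ / 4) := by
    calc (m : ℝ) ^ q ≤ (x ^ c₀) ^ q := pow_le_pow_left₀ hm0.le hmx q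
      _ = x ^ (δ / 4) := by
        rw [← Real.rpow_natCast, ← Real.rpow_mul hx0.le, hc₀q]
  have hmq1 : (1 : ℝ) ≤ (m : ℝ) ^ q := one_le_pow₀ hm1
  have hxd : 1 ≤ x ^ (δ / 4) := hmq1.trans hmq
  obtain ⟨b1, b2⟩ := BND_le hq hm hc hCq he hg0 (min_le_left _ _) (min_le_right _ _) hδ hδ0 hx hk
    hk1 hk2
  have hs1 : 1 ≤ x ^ (1 / 2 : ℝ) := Real.one_le_rpow hx (by norm_num)
  have hsx : x = (x ^ (1 / 2 : ℝ)) ^ 2 := by
    rw [← Real.rpow_natCast, ← Real.rpow_mul hx0.le]; norm_num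
  have hε1 : x ^ (-δ) ≤ 1 := Real.rpow_le_one_of_one_le_of_nonpos hx (by linarith)
  have hKx : K * x ^ (-(1 / 2) : ℝ) ≤ 1 := by
    refine le_trans ?_ hx1
    rw [hKK, mul_assoc]
    apply mul_le_mul_of_nonneg_left _ hK₁0.le
    calc (m : ℝ) ^ q * x ^ (-(1 / 2) : ℝ) ≤ x ^ (δ / 4) * x ^ (-(1 / 2) : ℝ) :=
          mul_le_mul_of_nonneg_right hmq (by positivity)
      _ = x ^ (δ / 4 - 1 / 2) := by rw [← Real.rpow_add hx0]; congr 1
  have h := type_large hq hCq hC hc hc1 hρ hm w hk hs1 hsx (by positivity) hε1 (b1.trans hKx)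
  refine h.trans (le_trans ?_ hx2)
  -- the constant
  have hKe : K ^ e ≤ K₁ ^ e * x ^ (δ / 4) := by
    rw [hKK, Real.mul_rpow hK₁0.le (by positivity)]
    apply mul_le_mul_of_nonneg_left _ (by positivity)
    calc ((m : ℝ) ^ q) ^ e ≤ ((m : ℝ) ^ q) ^ (1 : ℝ) :=
          Real.rpow_le_rpow_of_exponent_le hmq1 (by linarith)
      _ = (m : ℝ) ^ q := Real.rpow_one _
      _ ≤ _ := hmq
  have hKe' : K ^ (-e) ≤ K₁ ^ (-e) * x ^ (δ / 4) := by
    have h1 : K ^ (-e) ≤ K₁ ^ (-e) := by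
      apply Real.rpow_le_rpow_of_nonpos hK₁0 _ (by linarith)
      rw [hKK]
      nlinarith
    have h2 : 0 ≤ K₁ ^ (-e) := by positivity
    nlinarith
  have hC₃K : 2 * Cq / c * (K ^ e + K ^ (-e)) ≤ C₃ * x ^ (δ / 4) := by
    rw [hC₃, mul_assoc]
    apply mul_le_mul_of_nonneg_left _ (by positivity)
    rw [add_mul]
    exact add_le_add hKe hKe'
  -- final estimate
  set s := x ^ (1 / 2 : ℝ) with hs
  set y := x ^ (1 - δ) with hy
  have hy0 : 0 < y := by positivity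
  have e1 : x ^ (-δ) * s ^ 2 = y := by
    rw [← hsx, hy]
    nth_rewrite 2 [← Real.rpow_one x]
    rw [← Real.rpow_add hx0]
    congr 1; ring
  have e2 : s ≤ y := Real.rpow_le_rpow_of_exponent_le hx (by linarith)
  have e3 : s * x ^ (1 / 2 - g / 2) ≤ y := by
    rw [hs, ← Real.rpow_add hx0]
    exact Real.rpow_le_rpow_of_exponent_le hx (by linarith)
  have hρ0 : (0 : ℝ) ≤ ρ.card := Nat.cast_nonneg _
  have hs0 : 0 < s := by positivity
  have h2ρ : (0 : ℝ) < 2 ^ ρ.card := by positivity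
  set D := 2 * Cq / c * (K ^ e + K ^ (-e)) with hD
  have hD0 : 0 < D := by positivity
  calc 2 * (3 * x ^ (-δ) * s ^ 2 + s * ((ρ.card : ℝ) * (2 * x ^ (-δ) * s + 1) +
        2 ^ ρ.card * BND q d m c Cq k (x ^ (-δ)) s)) + 3 * s
      ≤ (9 + 6 * ρ.card + 2 * 2 ^ ρ.card + 2 * 2 ^ ρ.card * D) * y :=
        num3 hρ0 h2ρ.le hD0.le hs0.le b2 e1 e2 e3
    _ ≤ (C₄ * x ^ (δ / 4)) * y := by
        apply mul_le_mul_of_nonneg_right _ hy0.le
        rw [hC₄, add_mul]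
        apply add_le_add
        · have h9 : (0 : ℝ) ≤ 9 + 6 * ρ.card + 2 * 2 ^ ρ.card := by linarith
          exact le_mul_of_one_le_right h9 hxd
        · rw [mul_assoc (2 * 2 ^ ρ.card)]
          exact mul_le_mul_of_nonneg_left hC₃K (by linarith)
    _ = C₄ * x ^ (1 - δ + δ / 4) := by
        rw [hy, mul_assoc, ← Real.rpow_add hx0]
        congr 2
        ring

/-- all frequencies up to `x^(n/2)`, uniformly in the modulus -/
lemma typeU_ind (hV : SpecVDC) (n : ℕ) (hn : 1 ≤ n) :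
    ∃ c' : ℝ, 0 < c' ∧ c' < 1 ∧ ∃ c₀ : ℝ, 0 < c₀ ∧ ∀ᶠ x : ℝ in atTop,
      ∀ m : ℕ, 0 < m → (m : ℝ) ≤ x ^ c₀ → ∀ k : ℤ, k ≠ 0 →
      |(k : ℝ)| ≤ x ^ ((n : ℝ) / 2) → ∀ w : Gi,
        ‖∑ z ∈ (disc x).filter (cond m w), xi k z‖ ≤ x ^ (1 - c') := by
  induction n, hn using Nat.le_induction with
  | base =>
    obtain ⟨c₁, h1, h2, c₂, h4, h3⟩ := typeU_mid hV (q := 2) le_rfl (κ := 1 / 8) (by norm_num)
    refine ⟨min c₁ (1 / 16), by positivity, (min_le_left _ _).trans_lt h2, min c₂ (1 / 32),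
      by positivity, ?_⟩
    filter_upwards [h3, eventually_ge_atTop (1 : ℝ),
      eventually_const_mul_le (C := 200) (a := 7 / 8 + 1 / 32) (b := 15 / 16) (by norm_num)]
      with x hx hx1 hx2
    intro m hm hmx k hk hk2 w
    have hx0 : 0 < x := by linarith
    have hmx1 : (m : ℝ) ≤ x ^ c₂ := hmx.trans
      (Real.rpow_le_rpow_of_exponent_le hx1 (min_le_left _ _))
    have hmx2 : (m : ℝ) ≤ x ^ (1 / 32 : ℝ) := hmx.trans
      (Real.rpow_le_rpow_of_exponent_le hx1 (min_le_right _ _))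
    rcases le_or_gt (x ^ (1 / 8 : ℝ)) |(k : ℝ)| with hk1 | hk1
    · refine (hx m hm hmx1 k hk hk1 ?_ w).trans ?_
      · norm_num at hk2 ⊢
        exact hk2
      · apply Real.rpow_le_rpow_of_exponent_le hx1
        linarith [min_le_left c₁ (1 / 16 : ℝ)]
    · refine (type_small hm hk w hx1).trans ?_
      calc 200 * (m : ℝ) * |(k : ℝ)| * x ^ (3 / 4 : ℝ) ≤
          200 * x ^ (1 / 32 : ℝ) * x ^ (1 / 8 : ℝ) * x ^ (3 / 4 : ℝ) := by gcongr
        _ = 200 * x ^ (7 / 8 + 1 / 32 : ℝ) := by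
          rw [mul_assoc, mul_assoc, ← Real.rpow_add hx0, ← Real.rpow_add hx0]; norm_num
        _ ≤ x ^ (15 / 16 : ℝ) := hx2
        _ ≤ _ := by
          apply Real.rpow_le_rpow_of_exponent_le hx1
          linarith [min_le_right c₁ (1 / 16 : ℝ)]
  | succ n hn ih =>
    obtain ⟨c₀, i1, i2, d₀, i4, i3⟩ := ih
    have hcond : (((n + 2 : ℕ) : ℝ) / 2 - (n : ℝ) / 2) / (2 ^ (n + 2) - 2) < 2 / 2 ^ (n + 2) := by
      have h8 : (2 : ℝ) ^ 3 ≤ 2 ^ (n + 2) := pow_le_pow_right₀ (by norm_num) (by omega)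
      norm_num at h8
      rw [div_lt_div_iff₀ (by linarith) (by positivity)]
      push_cast
      nlinarith
    obtain ⟨c₁, h1, h2, d₁, h4, h3⟩ := typeU_mid hV (q := n + 2) (by omega) (κ := (n : ℝ) / 2)
      hcond
    refine ⟨min c₀ c₁, lt_min i1 h1, (min_le_left _ _).trans_lt i2, min d₀ d₁, lt_min i4 h4, ?_⟩
    filter_upwards [i3, h3, eventually_ge_atTop (1 : ℝ)] with x hx hx' hx1
    intro m hm hmx k hk hk2 w
    have hmx1 : (m : ℝ) ≤ x ^ d₀ := hmx.trans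
      (Real.rpow_le_rpow_of_exponent_le hx1 (min_le_left _ _))
    have hmx2 : (m : ℝ) ≤ x ^ d₁ := hmx.trans
      (Real.rpow_le_rpow_of_exponent_le hx1 (min_le_right _ _))
    rcases le_or_gt |(k : ℝ)| (x ^ ((n : ℝ) / 2)) with hk1 | hk1
    · refine (hx m hm hmx1 k hk hk1 w).trans ?_
      apply Real.rpow_le_rpow_of_exponent_le hx1
      linarith [min_le_left c₀ c₁]
    · refine (hx' m hm hmx2 k hk hk1.le ?_ w).trans ?_
      · push_cast at hk2 ⊢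
        have : ((n : ℝ) + 2 - 1) / 2 = ((n : ℝ) + 1) / 2 := by ring
        rw [this]
        exact hk2
      · apply Real.rpow_le_rpow_of_exponent_le hx1
        linarith [min_le_right c₀ c₁]

end TYUM

open TYUM in
theorem specTYU (hV : SpecVDC) : SpecTYU := by
  intro A B hA hB
  have hn : 1 ≤ ⌈2 * A⌉₊ := by
    apply Nat.one_le_iff_ne_zero.2
    intro h
    rw [Nat.ceil_eq_zero] at h
    linarith
  obtain ⟨c', h1, h2, c₀, h4, h3⟩ := typeU_ind hV ⌈2 * A⌉₊ hn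
  have hB0 : 0 < B := by linarith
  have hBc : B * min c₀ (c' / B) ≤ c' := by
    calc B * min c₀ (c' / B) ≤ B * (c' / B) :=
          mul_le_mul_of_nonneg_left (min_le_right _ _) hB0.le
      _ = c' := by field_simp
  refine ⟨min c₀ (c' / B), lt_min h4 (by positivity), hBc.trans_lt h2, ?_⟩
  filter_upwards [h3, eventually_ge_atTop (1 : ℝ)] with x hx hx1
  intro m hm hmx k hk hk2 w
  refine (hx m hm (hmx.trans (Real.rpow_le_rpow_of_exponent_le hx1 (min_le_left _ _))) k hk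
    (hk2.trans ?_) w).trans ?_
  · apply Real.rpow_le_rpow_of_exponent_le hx1
    have := Nat.le_ceil (2 * A)
    linarith
  · apply Real.rpow_le_rpow_of_exponent_le hx1
    linarith

end Pool.Agent.Lib.MP391708.X
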