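import Pool.Agent.Lib.MP_391708_nt.X.VM
import Pool.Agent.Lib.MP_391708_nt.X.U.ATY
import Pool.Agent.Lib.MP_391708_nt.X.U.BRG
import Pool.Agent.Lib.MP_391708_nt.X.U.CND1
import Pool.Agent.Lib.MP_391708_nt.X.U.ETH
import Pool.Agent.Lib.MP_391708_nt.X.U.HJS
import Pool.Agent.Lib.MP_391708_nt.X.U.HM2
import Pool.Agent.Lib.MP_391708_nt.X.U.HTA
import Pool.Agent.Lib.MP_391708_nt.X.U.HTS
import Pool.Agent.Lib.MP_391708_nt.X.U.LNS
import Pool.Agent.Lib.MP_391708_nt.X.U.LVX
import Pool.Agent.Lib.MP_391708_nt.X.U.NCD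
import Pool.Agent.Lib.MP_391708_nt.X.U.PRC
import Pool.Agent.Lib.MP_391708_nt.X.U.RGS
import Pool.Agent.Lib.MP_391708_nt.X.U.SUPx
import Pool.Agent.Lib.MP_391708_nt.X.U.USET

/-!
# THEOREM X (MP_391708), part U: all statements of X/U/Spec.lean without hypotheses, `X.SpecVAR` from FIN alone
-/

set_option autoImplicit false

namespace Pool.Agent.Lib.MP391708.XU

theorem um_brg : SpecBRG := specBRG
theorem um_con : SpecCON := specCON
theorem um_lvx : SpecLVX := specLVX um_brg
theorem um_hm2 : SpecHM2 := specHM2 um_brg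
theorem um_aty : SpecATY := specATY XV.vm_mot
theorem um_sup : SpecSUP := u_sup
theorem um_rgs : SpecRGS := specRGS
theorem um_ncd : SpecNCD := specNCD
theorem um_hjs : SpecHJS := specHJS
theorem um_eth : SpecETH := specETH
theorem um_hts : SpecHTS := specHTS um_rgs um_hjs um_eth
theorem um_hta : SpecHTA := specHTA um_rgs um_ncd um_hjs um_eth um_sup
theorem um_prc : SpecPRC := specPRC um_hjs um_sup
theorem um_lns : SpecLNS := specLNS um_hjs
theorem um_uset : SpecUSET := specUSET um_brg um_con um_lvx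

theorem umOf (hFIN : SpecFIN) : X.SpecVAR :=
  hFIN XV.vm_var XV.vm_phi um_brg um_hm2 um_aty um_hjs um_sup um_hts um_hta um_prc um_lns um_uset

end Pool.Agent.Lib.MP391708.XU
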