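import Mathlib

/-!
# THEOREM X: the union over the lengths `N` and over `k`

Input: the theorem for one scale (`One k D`: for all but `B / (log N) ^ A` of the `b` in `(B, 2B]` the number
`n ^ 2 + b ^ 2` is a product of `k` different primes for at least `N / (log N) ^ D` of the `n ≤ N`).
Output (`MainX D`): one exceptional set of `b` for all `N` with `b ^ 2 ≤ N ≤ exp (b ^ c)` and all `k ≥ 4`.
-/

set_option autoImplicit false

namespace Pool.Agent.Lib.MP391708.X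

open Finset Filter

/-- The number of the `1 ≤ n ≤ N` such that `n ^ 2 + b ^ 2` is a product of exactly `k` different primes. -/
def Q (k b N : ℕ) : ℕ :=
  ((Icc 1 N).filter (fun n : ℕ => Squarefree (n ^ 2 + b ^ 2) ∧ (n ^ 2 + b ^ 2).primeFactors.card = k)).card

open scoped Classical in
/-- The number of the elements `b` of `E` with `1 ≤ b ≤ x`. -/
noncomputable def count (E : Set ℕ) (x : ℕ) : ℕ := ((Icc 1 x).filter (fun b => b ∈ E)).card

open scoped Classical in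
/-- The theorem for one scale. -/
def One (k D : ℕ) : Prop := ∀ A : ℕ, ∃ C N₀ : ℝ, ∀ N B : ℕ, N₀ ≤ N → 1 ≤ B → (Real.log N) ^ C ≤ B →
  (B : ℝ) ^ 2 ≤ N →
    (((Ioc B (2 * B)).filter (fun b => (Q k b N : ℝ) < N / (Real.log N) ^ D)).card : ℝ) ≤ B / (Real.log N) ^ A

/-- The final statement. -/
def MainX (D : ℕ) : Prop := ∀ A : ℕ, ∃ E : Set ℕ,
  (∀ᶠ x : ℕ in atTop, (count E x : ℝ) ≤ x / (Real.log x) ^ A) ∧
  ∀ k : ℕ, 4 ≤ k → ∃ c : ℝ, 0 < c ∧ ∃ b₀ : ℕ, ∀ b : ℕ, b₀ ≤ b → b ∉ E → ∀ N : ℕ, b ^ 2 ≤ N →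
    (N : ℝ) ≤ Real.exp ((b : ℝ) ^ c) → (N : ℝ) / (Real.log N) ^ (D + 1) ≤ Q k b N

namespace UNM

lemma Q_mono (k b : ℕ) {N N' : ℕ} (h : N ≤ N') : Q k b N ≤ Q k b N' := by
  unfold Q
  apply card_le_card
  apply filter_subset_filter
  exact Icc_subset_Icc le_rfl h

open scoped Classical in
/-- the count in a dyadic block gives the count up to `x` -/
lemma count_of_blocks (E : Set ℕ) (K : ℝ) (hK : 0 ≤ K) (A i₀ : ℕ)
    (h : ∀ i : ℕ, i₀ ≤ i → (((Ioc (2 ^ i) (2 ^ (i + 1))).filter (fun b => b ∈ E)).card : ℝ) ≤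
      K * 2 ^ i / (i : ℝ) ^ (A + 1)) :
    ∀ᶠ x : ℕ in atTop, (count E x : ℝ) ≤ x / (Real.log x) ^ A := by
  -- count E x ≤ 2 ^ (m / 2) + ∑_{i = m / 2}^{m} K 2 ^ i / i ^ (A + 1)
  have key : ∀ x : ℕ, 2 ≤ x → 2 * i₀ + 2 ≤ Nat.log 2 x →
      (count E x : ℝ) ≤ 2 ^ (Nat.log 2 x / 2) +
        K * 2 ^ (Nat.log 2 x + 1) / ((Nat.log 2 x / 2 : ℕ) : ℝ) ^ (A + 1) := by
    intro x hx hm
    set m := Nat.log 2 x with hmd
    have hxm : x < 2 ^ (m + 1) := Nat.lt_pow_succ_log_self (by norm_num) x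
    have hsub : (Icc 1 x).filter (fun b => b ∈ E) ⊆
        Icc 1 (2 ^ (m / 2)) ∪ (Ico (m / 2) (m + 1)).biUnion
          (fun i => (Ioc (2 ^ i) (2 ^ (i + 1))).filter (fun b => b ∈ E)) := by
      intro b hb
      rw [mem_filter, mem_Icc] at hb
      obtain ⟨⟨hb1, hb2⟩, hbE⟩ := hb
      rw [mem_union]
      by_cases hb3 : b ≤ 2 ^ (m / 2)
      · left; rw [mem_Icc]; exact ⟨hb1, hb3⟩
      · right
        push Not at hb3
        rw [mem_biUnion]
        -- b ∈ (2^i, 2^(i+1)], i = Nat.log 2 (b-1)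
        have hb4 : 2 ^ (m / 2) ≤ b - 1 := by omega
        have hb5 : b - 1 ≠ 0 := by
          have : 1 ≤ 2 ^ (m / 2) := Nat.one_le_two_pow
          omega
        refine ⟨Nat.log 2 (b - 1), ?_, ?_⟩
        · rw [mem_Ico]
          constructor
          · exact Nat.le_log_of_pow_le (by norm_num) hb4
          · apply Nat.log_lt_of_lt_pow hb5
            omega
        · rw [mem_filter, mem_Ioc]
          have h1 : 2 ^ Nat.log 2 (b - 1) ≤ b - 1 := Nat.pow_log_le_self 2 hb5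
          have h2 : b - 1 < 2 ^ (Nat.log 2 (b - 1) + 1) := Nat.lt_pow_succ_log_self (by norm_num) _
          exact ⟨⟨by omega, by omega⟩, hbE⟩
    have hm2 : 1 ≤ m / 2 := by omega
    have hpos : (0 : ℝ) < ((m / 2 : ℕ) : ℝ) := by exact_mod_cast hm2
    have h1 : (count E x : ℝ) ≤ ((2 ^ (m / 2) : ℕ) : ℝ) + ∑ i ∈ Ico (m / 2) (m + 1),
        K * 2 ^ i / (((m / 2 : ℕ) : ℝ)) ^ (A + 1) := by
      have h2 : count E x ≤ (Icc 1 (2 ^ (m / 2))).card + ∑ i ∈ Ico (m / 2) (m + 1),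
          ((Ioc (2 ^ i) (2 ^ (i + 1))).filter (fun b => b ∈ E)).card := by
        unfold count
        refine (card_le_card hsub).trans ((card_union_le _ _).trans ?_)
        gcongr
        exact card_biUnion_le
      rw [Nat.card_Icc, Nat.add_sub_cancel] at h2
      have h3 : (count E x : ℝ) ≤ ((2 ^ (m / 2) : ℕ) : ℝ) + ∑ i ∈ Ico (m / 2) (m + 1),
          (((Ioc (2 ^ i) (2 ^ (i + 1))).filter (fun b => b ∈ E)).card : ℝ) := by exact_mod_cast h2
      refine h3.trans ?_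
      gcongr with i hi
      rw [mem_Ico] at hi
      refine (h i (by omega)).trans ?_
      have : ((m / 2 : ℕ) : ℝ) ≤ i := by exact_mod_cast hi.1
      gcongr
    refine h1.trans ?_
    push_cast
    gcongr
    rw [← sum_div, ← mul_sum]
    gcongr
    have h4 : ∑ i ∈ Ico (m / 2) (m + 1), (2 : ℝ) ^ i ≤ ∑ i ∈ range (m + 1), (2 : ℝ) ^ i := by
      apply sum_le_sum_of_subset_of_nonneg
      · intro i hi; rw [mem_Ico] at hi; rw [mem_range]; exact hi.2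
      · intro i _ _; positivity
    refine h4.trans ?_
    rw [geom_sum_eq (by norm_num)]
    have : (0 : ℝ) < 2 ^ (m + 1) := by positivity
    norm_num
  -- asymptotics
  have hlog : Tendsto (fun x : ℕ => Nat.log 2 x) atTop atTop := by
    refine tendsto_atTop_atTop.2 fun n => ⟨2 ^ n, fun x hx => ?_⟩
    exact Nat.le_log_of_pow_le (by norm_num) hx
  -- 2^(m/2) ≤ √x, and √x (log x)^(A) ≤ x / 2 eventually; K 2^(m+1)/(m/2)^(A+1) ≤ 2 K x/ (log x / 4)^(A+1)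
  have hs1 : ∀ᶠ x : ℕ in atTop, (Real.log x) ^ A * √(x : ℝ) ≤ x / 2 := by
    have h1 : ∀ᶠ y : ℝ in atTop, (Real.log y) ^ (A : ℝ) ≤ (1 / 2) * y ^ (1 / 2 : ℝ) := by
      have := (isLittleO_log_rpow_rpow_atTop (A : ℝ) (by norm_num : (0 : ℝ) < 1 / 2)).bound
        (by norm_num : (0 : ℝ) < 1 / 2)
      filter_upwards [this, eventually_ge_atTop 1] with y hy hy1
      rw [Real.norm_eq_abs, Real.norm_eq_abs, abs_of_nonneg (Real.rpow_nonneg (Real.log_nonneg hy1) _),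
        abs_of_nonneg (by positivity)] at hy
      exact hy
    filter_upwards [tendsto_natCast_atTop_atTop.eventually h1, eventually_ge_atTop 1] with x hx hx1
    have hx0 : (0 : ℝ) ≤ x := by positivity
    rw [Real.rpow_natCast, ← Real.sqrt_eq_rpow] at hx
    calc (Real.log x) ^ A * √(x : ℝ) ≤ (1 / 2 * √(x : ℝ)) * √(x : ℝ) := by gcongr
      _ = x / 2 := by rw [mul_assoc, Real.mul_self_sqrt hx0]; ring
  have hs2 : ∀ᶠ x : ℕ in atTop, 4 * K * 4 ^ (A + 1) ≤ Real.log x :=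
    (Real.tendsto_log_atTop.comp tendsto_natCast_atTop_atTop).eventually (eventually_ge_atTop _)
  filter_upwards [hs1, hs2, hlog.eventually (eventually_ge_atTop (2 * i₀ + 4)), eventually_ge_atTop 4]
    with x h1 h2 h3 h4
  have hx := key x (by omega) (by omega)
  set m := Nat.log 2 x with hmd
  have hxm : x < 2 ^ (m + 1) := Nat.lt_pow_succ_log_self (by norm_num) x
  have hmx : 2 ^ m ≤ x := Nat.pow_log_le_self 2 (by omega)
  have hmxR : (2 : ℝ) ^ m ≤ x := by exact_mod_cast hmx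
  have hx0 : (0 : ℝ) < x := by exact_mod_cast (by omega : 0 < x)
  have hL1 : 1 ≤ Real.log x := by
    rw [Real.le_log_iff_exp_le hx0]
    have : (4 : ℝ) ≤ x := by exact_mod_cast h4
    linarith [Real.exp_one_lt_d9]
  have hLpos : 0 < Real.log x := by linarith
  -- m / 2 ≥ log x / 4
  have hm4 : Real.log x / 4 ≤ ((m / 2 : ℕ) : ℝ) := by
    have h5 : Real.log x ≤ (m + 1) * Real.log 2 := by
      have : (x : ℝ) ≤ 2 ^ (m + 1) := by exact_mod_cast hxm.le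
      calc Real.log x ≤ Real.log (2 ^ (m + 1)) := Real.log_le_log hx0 this
        _ = (m + 1) * Real.log 2 := by rw [Real.log_pow]; push_cast; ring
    have h6 : Real.log 2 ≤ 0.7 := by linarith [Real.log_two_lt_d9]
    have h7 : ((m : ℝ) - 1) / 2 ≤ ((m / 2 : ℕ) : ℝ) := by
      have : m ≤ 2 * (m / 2) + 1 := by omega
      have h8 : (m : ℝ) ≤ 2 * ((m / 2 : ℕ) : ℝ) + 1 := by exact_mod_cast this
      linarith
    have h9 : (4 : ℝ) ≤ m := by exact_mod_cast (by omega : 4 ≤ m)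
    nlinarith
  have e1 : (2 : ℝ) ^ (m / 2) ≤ √(x : ℝ) := by
    apply Real.le_sqrt_of_sq_le
    rw [← pow_mul]
    calc (2 : ℝ) ^ (m / 2 * 2) ≤ 2 ^ m := pow_le_pow_right₀ (by norm_num) (by omega)
      _ ≤ x := hmxR
  have e2 : (2 : ℝ) ^ (m / 2) ≤ x / 2 / (Real.log x) ^ A := by
    rw [le_div_iff₀ (by positivity)]
    calc (2 : ℝ) ^ (m / 2) * Real.log x ^ A ≤ √(x : ℝ) * Real.log x ^ A := by gcongr
      _ = Real.log x ^ A * √(x : ℝ) := by ring
      _ ≤ x / 2 := h1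
  have e3 : K * 2 ^ (m + 1) / (((m / 2 : ℕ) : ℝ)) ^ (A + 1) ≤ x / 2 / (Real.log x) ^ A := by
    calc K * 2 ^ (m + 1) / (((m / 2 : ℕ) : ℝ)) ^ (A + 1) ≤ K * (2 * x) / (Real.log x / 4) ^ (A + 1) := by
          gcongr
          rw [pow_succ]; linarith
      _ = (4 * K * 4 ^ (A + 1) / Real.log x) * (x / 2 / (Real.log x) ^ A) := by
          rw [div_pow, pow_succ (Real.log (x : ℝ)) A]
          field_simp
          ring
      _ ≤ 1 * (x / 2 / (Real.log x) ^ A) := by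
          gcongr
          rw [div_le_one hLpos]
          exact h2
      _ = _ := one_mul _
  calc (count E x : ℝ) ≤ _ := hx
    _ ≤ x / 2 / (Real.log x) ^ A + x / 2 / (Real.log x) ^ A := add_le_add e2 e3
    _ = x / (Real.log x) ^ A := by ring

/-- the exceptional set for one `k` -/
def Ek (k D : ℕ) (c : ℝ) : Set ℕ := {b | ∃ j : ℕ, b ^ 2 ≤ 2 ^ (j + 1) ∧ ((2 : ℝ) ^ j) ≤ Real.exp ((b : ℝ) ^ c) ∧
  (Q k b (2 ^ j) : ℝ) < ((2 ^ j : ℕ) : ℝ) / (Real.log ((2 ^ j : ℕ) : ℝ)) ^ D}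

lemma outside (k D : ℕ) (c : ℝ) (b : ℕ) (hb : 4 ≤ b) (hE : b ∉ Ek k D c) (N : ℕ) (hN : b ^ 2 ≤ N)
    (hN2 : (N : ℝ) ≤ Real.exp ((b : ℝ) ^ c)) : (N : ℝ) / (Real.log N) ^ (D + 1) ≤ Q k b N := by
  have hN16 : 16 ≤ N := by nlinarith
  set j := Nat.log 2 N with hj
  have h1 : 2 ^ j ≤ N := Nat.pow_log_le_self 2 (by omega)
  have h2 : N < 2 ^ (j + 1) := Nat.lt_pow_succ_log_self (by norm_num) N
  have h3 : ¬ ((Q k b (2 ^ j) : ℝ) < ((2 ^ j : ℕ) : ℝ) / (Real.log ((2 ^ j : ℕ) : ℝ)) ^ D) := by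
    intro h4
    apply hE
    refine ⟨j, by omega, ?_, h4⟩
    refine le_trans ?_ hN2
    exact_mod_cast h1
  push Not at h3
  have h5 : (Q k b (2 ^ j) : ℝ) ≤ Q k b N := by exact_mod_cast Q_mono k b h1
  refine le_trans ?_ (h3.trans h5)
  have hj4 : 4 ≤ j := Nat.le_log_of_pow_le (by norm_num) (by norm_num; omega)
  have hN0 : (0 : ℝ) < N := by exact_mod_cast (by omega : 0 < N)
  have h2j : (0 : ℝ) < ((2 ^ j : ℕ) : ℝ) := by positivity
  have h2j' : (1 : ℝ) < ((2 ^ j : ℕ) : ℝ) := by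
    have : 1 < 2 ^ j := Nat.one_lt_two_pow (by omega)
    exact_mod_cast this
  have hl0 : 0 < Real.log ((2 ^ j : ℕ) : ℝ) := Real.log_pos h2j'
  have hl1 : Real.log ((2 ^ j : ℕ) : ℝ) ≤ Real.log N := Real.log_le_log h2j (by exact_mod_cast h1)
  have hl2 : 2 ≤ Real.log N := by
    have h6 : Real.log 16 ≤ Real.log N := Real.log_le_log (by norm_num) (by exact_mod_cast hN16)
    have h7 : Real.log 16 = 4 * Real.log 2 := by
      rw [show (16 : ℝ) = 2 ^ 4 by norm_num, Real.log_pow]; norm_num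
    linarith [Real.log_two_gt_d9]
  have h8 : (N : ℝ) ≤ 2 * ((2 ^ j : ℕ) : ℝ) := by
    have : N ≤ 2 * 2 ^ j := by rw [pow_succ] at h2; omega
    exact_mod_cast this
  rw [div_le_div_iff₀ (by positivity) (by positivity)]
  calc (N : ℝ) * Real.log ((2 ^ j : ℕ) : ℝ) ^ D ≤ (2 * ((2 ^ j : ℕ) : ℝ)) * Real.log N ^ D := by gcongr
    _ = ((2 ^ j : ℕ) : ℝ) * (Real.log N ^ D * 2) := by ring
    _ ≤ ((2 ^ j : ℕ) : ℝ) * (Real.log N ^ D * Real.log N) := by gcongr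
    _ = ((2 ^ j : ℕ) : ℝ) * Real.log N ^ (D + 1) := by ring

/-- `∑ 1/j²` over a finite set of positive integers -/
lemma sum_inv_sq_le (S : Finset ℕ) : ∑ j ∈ S, 1 / (j : ℝ) ^ 2 ≤ 2 := by
  have h1 : Summable (fun j : ℕ => 1 / (j : ℝ) ^ 2) := Real.summable_one_div_nat_pow.2 (by norm_num)
  have h2 : ∑ j ∈ S, 1 / (j : ℝ) ^ 2 ≤ ∑' j : ℕ, 1 / (j : ℝ) ^ 2 :=
    h1.sum_le_tsum S (fun j _ => by positivity)
  rw [hasSum_zeta_two.tsum_eq] at h2
  have h3 : Real.pi ^ 2 / 6 ≤ 2 := by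
    have := Real.pi_lt_d2
    have := Real.pi_pos
    nlinarith
  linarith

open scoped Classical in
lemma one_block (k D A : ℕ) (h : One k D) : ∃ c : ℝ, 0 < c ∧ ∃ i₀ : ℕ, ∀ i : ℕ, i₀ ≤ i →
    (((Ioc (2 ^ i) (2 ^ (i + 1))).filter (fun b => b ∈ Ek k D c)).card : ℝ) ≤
      8 * 2 ^ i / (i : ℝ) ^ (A + 1) := by
  obtain ⟨C, N₀, h1⟩ := h (A + 3)
  set C' := max C 1 with hC'
  have hC1 : 1 ≤ C' := le_max_right _ _
  set c : ℝ := 1 / (2 * C') with hc
  have hc0 : 0 < c := by positivity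
  have hcC : c * C' = 1 / 2 := by rw [hc]; field_simp
  refine ⟨c, hc0, ?_⟩
  obtain ⟨i₁, hi₁⟩ : ∃ i₁ : ℕ, N₀ ≤ 2 ^ i₁ := pow_unbounded_of_one_lt N₀ (by norm_num) |>.imp fun _ h => h.le
  refine ⟨i₁ + 3, fun i hi => ?_⟩
  have hi3 : 3 ≤ i := by omega
  have hi0 : (0 : ℝ) < i := by exact_mod_cast (by omega : 0 < i)
  -- the scales
  obtain ⟨M, hM⟩ : ∃ M : ℕ, Real.exp (((2 ^ (i + 1) : ℕ) : ℝ) ^ c) < 2 ^ M :=
    pow_unbounded_of_one_lt _ (by norm_num)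
  set J := (Ico (2 * i) M).filter (fun j => ((2 : ℝ) ^ j) ≤ Real.exp (((2 ^ (i + 1) : ℕ) : ℝ) ^ c)) with hJ
  have hsub : (Ioc (2 ^ i) (2 ^ (i + 1))).filter (fun b => b ∈ Ek k D c) ⊆
      J.biUnion (fun j => (Ioc (2 ^ i) (2 * 2 ^ i)).filter
        (fun b => (Q k b (2 ^ j) : ℝ) < ((2 ^ j : ℕ) : ℝ) / (Real.log ((2 ^ j : ℕ) : ℝ)) ^ D)) := by
    intro b hb
    rw [mem_filter, mem_Ioc] at hb
    obtain ⟨⟨hb1, hb2⟩, j, hj1, hj2, hj3⟩ := hb
    rw [mem_biUnion]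
    have hbc : ((2 : ℝ) ^ j) ≤ Real.exp (((2 ^ (i + 1) : ℕ) : ℝ) ^ c) := by
      refine hj2.trans (Real.exp_le_exp.2 ?_)
      apply Real.rpow_le_rpow (by positivity) _ hc0.le
      exact_mod_cast hb2
    refine ⟨j, ?_, ?_⟩
    · rw [hJ, mem_filter, mem_Ico]
      refine ⟨⟨?_, ?_⟩, hbc⟩
      · have h5 : 2 ^ (2 * i) < 2 ^ (j + 1) := by
          calc 2 ^ (2 * i) = (2 ^ i) ^ 2 := by rw [← pow_mul]; ring_nf
            _ < b ^ 2 := Nat.pow_lt_pow_left hb1 (by norm_num)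
            _ ≤ 2 ^ (j + 1) := hj1
        have := (Nat.pow_lt_pow_iff_right (by norm_num : 1 < 2)).1 h5
        omega
      · have h5 : (2 : ℝ) ^ j < 2 ^ M := hbc.trans_lt hM
        exact (pow_lt_pow_iff_right₀ (by norm_num : (1 : ℝ) < 2)).1 h5
    · rw [mem_filter, mem_Ioc]
      exact ⟨⟨hb1, by rw [pow_succ] at hb2; omega⟩, hj3⟩
  have hcard : (((Ioc (2 ^ i) (2 ^ (i + 1))).filter (fun b => b ∈ Ek k D c)).card : ℝ) ≤
      ∑ j ∈ J, (2 : ℝ) ^ i / (Real.log ((2 ^ j : ℕ) : ℝ)) ^ (A + 3) := by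
    refine le_trans (Nat.cast_le.2 ((card_le_card hsub).trans card_biUnion_le)) ?_
    rw [Nat.cast_sum]
    refine sum_le_sum fun j hj => ?_
    rw [hJ, mem_filter, mem_Ico] at hj
    obtain ⟨⟨hj1, -⟩, hj2⟩ := hj
    have hlog : Real.log ((2 ^ j : ℕ) : ℝ) ≤ ((2 ^ (i + 1) : ℕ) : ℝ) ^ c := by
      have : Real.log ((2 ^ j : ℕ) : ℝ) ≤ Real.log (Real.exp (((2 ^ (i + 1) : ℕ) : ℝ) ^ c)) :=
        Real.log_le_log (by positivity) (by push_cast; push_cast at hj2; exact hj2)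
      rwa [Real.log_exp] at this
    have hlog1 : 1 ≤ Real.log ((2 ^ j : ℕ) : ℝ) := by
      push_cast
      rw [Real.log_pow]
      have : (6 : ℝ) ≤ j := by exact_mod_cast (by omega : 6 ≤ j)
      nlinarith [Real.log_two_gt_d9]
    have := h1 (2 ^ j) (2 ^ i) ?_ Nat.one_le_two_pow ?_ ?_
    · refine this.trans_eq ?_
      push_cast; ring
    · refine hi₁.trans ?_
      push_cast
      exact pow_le_pow_right₀ (by norm_num) (by omega)
    · calc Real.log ((2 ^ j : ℕ) : ℝ) ^ C ≤ Real.log ((2 ^ j : ℕ) : ℝ) ^ C' :=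
            Real.rpow_le_rpow_of_exponent_le hlog1 (le_max_left _ _)
        _ ≤ (((2 ^ (i + 1) : ℕ) : ℝ) ^ c) ^ C' := by
            apply Real.rpow_le_rpow (by linarith) hlog (by linarith)
        _ = ((2 ^ (i + 1) : ℕ) : ℝ) ^ (1 / 2 : ℝ) := by
            rw [← Real.rpow_mul (by positivity), hcC]
        _ = ((2 : ℝ) ^ ((i : ℝ) + 1)) ^ (1 / 2 : ℝ) := by
            congr 1
            push_cast
            rw [← Real.rpow_natCast 2 (i + 1)]
            push_cast; rfl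
        _ = (2 : ℝ) ^ (((i : ℝ) + 1) * (1 / 2)) := by rw [← Real.rpow_mul (by norm_num)]
        _ ≤ (2 : ℝ) ^ (i : ℝ) := by
            apply Real.rpow_le_rpow_of_exponent_le (by norm_num)
            have : (3 : ℝ) ≤ i := by exact_mod_cast hi3
            linarith
        _ = ((2 ^ i : ℕ) : ℝ) := by rw [Real.rpow_natCast]; push_cast; rfl
    · push_cast
      rw [← pow_mul]
      exact pow_le_pow_right₀ (by norm_num) (by omega)
  refine hcard.trans ?_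
  have hterm : ∀ j ∈ J, (2 : ℝ) ^ i / (Real.log ((2 ^ j : ℕ) : ℝ)) ^ (A + 3) ≤
      (4 * 2 ^ i / (i : ℝ) ^ (A + 1)) * (1 / (j : ℝ) ^ 2) := by
    intro j hj
    rw [hJ, mem_filter, mem_Ico] at hj
    obtain ⟨⟨hj1, -⟩, -⟩ := hj
    have hj1R : (2 : ℝ) * i ≤ j := by exact_mod_cast hj1
    have hj0 : (0 : ℝ) < j := by linarith
    have hl : (j : ℝ) / 2 ≤ Real.log ((2 ^ j : ℕ) : ℝ) := by
      push_cast
      rw [Real.log_pow]
      nlinarith [Real.log_two_gt_d9]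
    have hl0 : (i : ℝ) ≤ Real.log ((2 ^ j : ℕ) : ℝ) := by linarith
    have h7 : (i : ℝ) ^ (A + 1) * ((j : ℝ) / 2) ^ 2 ≤ (Real.log ((2 ^ j : ℕ) : ℝ)) ^ (A + 3) := by
      rw [show A + 3 = (A + 1) + 2 by ring, pow_add _ (A + 1) 2]
      gcongr
    calc (2 : ℝ) ^ i / (Real.log ((2 ^ j : ℕ) : ℝ)) ^ (A + 3) ≤ 2 ^ i / ((i : ℝ) ^ (A + 1) * ((j : ℝ) / 2) ^ 2) := by
          gcongr
      _ = (4 * 2 ^ i / (i : ℝ) ^ (A + 1)) * (1 / (j : ℝ) ^ 2) := by
          field_simp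
          ring
  calc ∑ j ∈ J, (2 : ℝ) ^ i / (Real.log ((2 ^ j : ℕ) : ℝ)) ^ (A + 3)
      ≤ ∑ j ∈ J, (4 * 2 ^ i / (i : ℝ) ^ (A + 1)) * (1 / (j : ℝ) ^ 2) := sum_le_sum hterm
    _ = (4 * 2 ^ i / (i : ℝ) ^ (A + 1)) * ∑ j ∈ J, (1 / (j : ℝ) ^ 2) := by rw [mul_sum]
    _ ≤ (4 * 2 ^ i / (i : ℝ) ^ (A + 1)) * 2 := by
        gcongr
        exact sum_inv_sq_le J
    _ = _ := by ring

open scoped Classical in
/-- countably many exceptional sets with the same bound -/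
lemma union_sets (A : ℕ) (F : ℕ → Set ℕ)
    (h : ∀ k, ∀ᶠ x : ℕ in atTop, (count (F k) x : ℝ) ≤ x / (Real.log x) ^ (A + 1)) :
    ∃ E : Set ℕ, (∀ᶠ x : ℕ in atTop, (count E x : ℝ) ≤ x / (Real.log x) ^ A) ∧
      ∀ k, ∃ b₀ : ℕ, ∀ b, b₀ ≤ b → b ∈ F k → b ∈ E := by
  choose y hy using fun k => eventually_atTop.1 (h k)
  -- y' k ≥ y k, and exp (k + 1) ≤ y' k
  set z : ℕ → ℕ := fun k => max (y k) (⌈Real.exp (k + 1)⌉₊) with hz
  refine ⟨{b | ∃ k, z k ≤ b ∧ b ∈ F k}, ?_, fun k => ⟨z k, fun b hb hbF => ⟨k, hb, hbF⟩⟩⟩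
  filter_upwards [eventually_ge_atTop 3] with x hx
  have hx0 : (0 : ℝ) < x := by exact_mod_cast (by omega : 0 < x)
  have hL : 0 < Real.log x := Real.log_pos (by exact_mod_cast (by omega : 1 < x))
  set S := (range (⌊Real.log x⌋₊)).filter (fun k => z k ≤ x) with hS
  have hsub : (Icc 1 x).filter (fun b => b ∈ {b | ∃ k, z k ≤ b ∧ b ∈ F k}) ⊆
      S.biUnion (fun k => (Icc 1 x).filter (fun b => b ∈ F k)) := by
    intro b hb
    rw [mem_filter, mem_Icc] at hb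
    obtain ⟨⟨hb1, hb2⟩, k, hk, hkF⟩ := hb
    rw [mem_biUnion]
    refine ⟨k, ?_, ?_⟩
    · rw [hS, mem_filter, mem_range]
      have h1 : Real.exp (k + 1) ≤ x := by
        calc Real.exp (k + 1) ≤ (⌈Real.exp (k + 1)⌉₊ : ℝ) := Nat.le_ceil _
          _ ≤ z k := by rw [hz]; exact_mod_cast le_max_right _ _
          _ ≤ x := by exact_mod_cast hk.trans hb2
      have h2 : (k : ℝ) + 1 ≤ Real.log x := by
        rw [Real.le_log_iff_exp_le hx0]; exact h1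
      refine ⟨?_, hk.trans hb2⟩
      have h3 : k + 1 ≤ ⌊Real.log x⌋₊ := Nat.le_floor (by push_cast; exact h2)
      omega
    · rw [mem_filter, mem_Icc]
      exact ⟨⟨hb1, hb2⟩, hkF⟩
  have h1 : (count {b | ∃ k, z k ≤ b ∧ b ∈ F k} x : ℝ) ≤
      ∑ k ∈ S, (count (F k) x : ℝ) := by
    have h2 : count {b | ∃ k, z k ≤ b ∧ b ∈ F k} x ≤ ∑ k ∈ S, count (F k) x := by
      unfold count
      exact (card_le_card hsub).trans card_biUnion_le
    exact_mod_cast h2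
  refine h1.trans ?_
  calc ∑ k ∈ S, (count (F k) x : ℝ) ≤ ∑ k ∈ S, x / (Real.log x) ^ (A + 1) := by
        refine sum_le_sum fun k hk => ?_
        rw [hS, mem_filter] at hk
        exact hy k x ((le_max_left _ _).trans hk.2)
    _ = (S.card : ℝ) * (x / (Real.log x) ^ (A + 1)) := by rw [sum_const, nsmul_eq_mul]
    _ ≤ Real.log x * (x / (Real.log x) ^ (A + 1)) := by
        gcongr
        have h2 : S.card ≤ ⌊Real.log x⌋₊ := by
          refine (card_filter_le _ _).trans ?_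
          rw [card_range]
        calc (S.card : ℝ) ≤ (⌊Real.log x⌋₊ : ℝ) := by exact_mod_cast h2
          _ ≤ Real.log x := Nat.floor_le hL.le
    _ = x / (Real.log x) ^ A := by
        rw [pow_succ]
        field_simp

end UNM

open UNM in
/-- UN: the union over the lengths and over `k`. -/
theorem specUN (D : ℕ) (h : ∀ k, 4 ≤ k → One k D) : MainX D := by
  intro A
  have h1 : ∀ k, 4 ≤ k → ∃ c : ℝ, 0 < c ∧ ∀ᶠ x : ℕ in atTop,
      (count (Ek k D c) x : ℝ) ≤ x / (Real.log x) ^ (A + 1) := by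
    intro k hk
    obtain ⟨c, hc, i₀, h2⟩ := one_block k D (A + 1) (h k hk)
    exact ⟨c, hc, count_of_blocks _ 8 (by norm_num) (A + 1) i₀ h2⟩
  choose c hc hcnt using h1
  obtain ⟨E, hE1, hE2⟩ := union_sets A (fun k => if hk : 4 ≤ k then Ek k D (c k hk) else ∅) (by
    intro k
    by_cases hk : 4 ≤ k
    · simp only [hk, dite_true]
      exact hcnt k hk
    · simp only [hk, dite_false]
      filter_upwards [eventually_ge_atTop 3] with x hx
      have : count ∅ x = 0 := by unfold count; simp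
      have hL : 0 < Real.log x := Real.log_pos (by exact_mod_cast (by omega : 1 < x))
      rw [this, Nat.cast_zero]
      exact div_nonneg (Nat.cast_nonneg x) (pow_nonneg hL.le _))
  refine ⟨E, hE1, fun k hk => ⟨c k hk, hc k hk, ?_⟩⟩
  obtain ⟨b₀, hb₀⟩ := hE2 k
  refine ⟨max b₀ 4, fun b hb hbE N hN hN2 => ?_⟩
  apply outside k D (c k hk) b ((le_max_right _ _).trans hb) _ N hN hN2
  intro hmem
  apply hbE
  apply hb₀ b ((le_max_left _ _).trans hb)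
  simp only [hk, dite_true]
  exact hmem

end Pool.Agent.Lib.MP391708.X
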