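import Pool.Agent.Lib.MP_391708_nt.X.UN
import Pool.Agent.Lib.MP_391708_nt.X.Spec

/-!
# THEOREM X: from the theorem for one scale (`SpecONE`) to the final statement (`MainX 5`)
-/

set_option autoImplicit false

namespace Pool.Agent.Lib.MP391708.X

open Finset Filter

namespace UNXM

lemma cnt_eq (k b N : ℕ) : cnt k b (N : ℝ) = Q k b N := by
  unfold cnt Q PrK
  rw [Nat.floor_natCast]
  congr

end UNXM

open UNXM in
/-- From one scale to one exceptional set for all lengths and all `k`. -/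
theorem specUNX (h : SpecONE) : MainX 5 := by
  classical
  apply specUN
  intro k hk A
  obtain ⟨cB, hcB⟩ := h k hk (A + 1) (by positivity)
  obtain ⟨N₁, hN₁⟩ := eventually_atTop.1 hcB
  refine ⟨cB, max N₁ (Real.exp 1), fun N B hN hB hB1 hB2 => ?_⟩
  have h1 := hN₁ N ((le_max_left _ _).trans hN) B hB1 (by nlinarith [sq_nonneg (B : ℝ)])
  have hl : 1 ≤ Real.log N := by
    rw [Real.le_log_iff_exp_le (lt_of_lt_of_le (Real.exp_pos 1) ((le_max_right _ _).trans hN))]
    exact (le_max_right _ _).trans hN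
  have e1 : ⌊(B : ℝ)⌋₊ = B := Nat.floor_natCast B
  have e2 : ⌊2 * (B : ℝ)⌋₊ = 2 * B := by
    rw [show (2 : ℝ) * B = ((2 * B : ℕ) : ℝ) by push_cast; ring, Nat.floor_natCast]
  rw [e1, e2] at h1
  simp only [cnt_eq] at h1
  refine (Eq.le ?_).trans (h1.trans ?_)
  · congr
  · rw [div_eq_mul_inv]
    apply mul_le_mul_of_nonneg_left _ (Nat.cast_nonneg B)
    calc Real.log N ^ (-((A : ℝ) + 1)) ≤ Real.log N ^ (-(A : ℝ)) :=
          Real.rpow_le_rpow_of_exponent_le hl (by linarith)
      _ = (Real.log N ^ A)⁻¹ := by rw [Real.rpow_neg (by linarith), Real.rpow_natCast]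

end Pool.Agent.Lib.MP391708.X
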