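import Pool.Agent.Lib.MP_391708_nt.X.V.LIN
import Pool.Agent.Lib.MP_391708_nt.X.V.SML
import Pool.Agent.Lib.MP_391708_nt.X.V.LNE
import Pool.Agent.Lib.MP_391708_nt.X.V.USM
import Pool.Agent.Lib.MP_391708_nt.X.V.PCN
import Pool.Agent.Lib.MP_391708_nt.X.V.PCD
import Pool.Agent.Lib.MP_391708_nt.X.V.NCS
import Pool.Agent.Lib.MP_391708_nt.X.V.KER
import Pool.Agent.Lib.MP_391708_nt.X.V.EXB
import Pool.Agent.Lib.MP_391708_nt.X.V.BXS
import Pool.Agent.Lib.MP_391708_nt.X.V.EXP
import Pool.Agent.Lib.MP_391708_nt.X.V.EXL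
import Pool.Agent.Lib.MP_391708_nt.X.V.PNC
import Pool.Agent.Lib.MP_391708_nt.X.V.TAI
import Pool.Agent.Lib.MP_391708_nt.X.V.HTM
import Pool.Agent.Lib.MP_391708_nt.X.V.TTB
import Pool.Agent.Lib.MP_391708_nt.X.V.PHI
import Pool.Agent.Lib.MP_391708_nt.X.V.MOT
import Pool.Agent.Lib.MP_391708_nt.X.V.FNA
import Pool.Agent.Lib.MP_391708_nt.X.V.VAR

/-!
# Theorem X (MP_391708), part VAR: all statements of `X/SpecVAR.lean` without hypotheses
-/

set_option autoImplicit false

namespace Pool.Agent.Lib.MP391708.XV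

theorem vm_pcn : SpecPCN := specPCN specLNE specUSM

theorem vm_pcd : SpecPCD := specPCD specLNE specUSM

theorem vm_ncs : SpecNCS := specNCS vm_pcd

theorem vm_exl : SpecEXL := specEXL specEXP

theorem vm_tai : SpecTAI := specTAI vm_exl specPNC

theorem vm_ttb : SpecTTB := specTTB specEXP vm_tai specHTM

theorem vm_phi : SpecPHI := specPHI

theorem vm_mot : SpecMOT := specMOT vm_exl specPNC vm_pcn specHTM vm_phi

theorem vm_bxs : SpecBXS := specBXS specKER specEXB

theorem vm_fna : SpecFNA := specFNA vm_bxs vm_ttb specPNC vm_pcn vm_ncs specHTM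

/-- the variance inequality -/
theorem vm_var : SpecVAR := specVAR specLIN specSML vm_pcn specHTM vm_fna

end Pool.Agent.Lib.MP391708.XV
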